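import Pool.Agent.Lib.MP_e63cf8_mp.H.StmW

/-!
# AL1: two tops of a cubic side
-/

set_option autoImplicit false

open Polynomial

namespace HillRoots

private lemma p_AL1_gam (P : ℂ[X]) (hM : P.natDegree = 3) :
    gam P 1 = P.coeff 2 / (3 * P.leadingCoeff) := by
  unfold gam
  have h1 : (P.reverse).coeff 1 = P.coeff 2 := by
    rw [coeff_reverse, revAt_le (by omega), hM]
  rw [Finset.sum_range_succ, Finset.sum_range_one]
  simp only [Finset.prod_range_zero, Finset.prod_range_one, pow_zero, pow_one, Nat.factorial_zero,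
    Nat.factorial_one, Nat.cast_one, Nat.cast_zero, sub_zero, coeff_sub, coeff_C_mul, h1,
    coeff_one]
  simp only [one_ne_zero, ↓reduceIte, mul_zero, zero_add, sub_zero, div_one, one_mul]
  rw [hM, div_eq_mul_inv, div_eq_mul_inv, mul_inv]
  push_cast
  ring

private lemma p_AL1_lex (P : ℂ[X]) (hM : P.natDegree = 3) (c c' : ℂ) :
    lexvec P c' ≤ lexvec P c ↔ (gam P 1 * c').re ≤ (gam P 1 * c).re := by
  have hn : 0 < (P.natDegree - 1) / 2 := by omega
  have hall : ∀ i : Fin ((P.natDegree - 1) / 2), i = ⟨0, hn⟩ := by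
    intro i
    apply Fin.ext
    have := i.2
    show i.1 = 0
    omega
  have h1 : ∀ d : ℂ, lexvec P d = toLex fun _ => (gam P 1 * d).re := by
    intro d
    unfold lexvec
    congr 1
    funext i
    rw [hall i]
    simp
  rw [h1, h1]
  constructor
  · intro h
    rcases h.eq_or_lt with h | h
    · rw [toLex_inj] at h
      exact le_of_eq (congrFun h ⟨0, hn⟩)
    · obtain ⟨i, _, hi2⟩ := h
      exact le_of_lt hi2
  · intro h
    exact Pi.toLex_monotone (fun _ => h)

private lemma p_AL1_top (P : ℂ[X]) (hM : P.natDegree = 3) (c : ℂ) :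
    IsTop P c ↔ c ^ 3 = P.leadingCoeff ∧
      ∀ c' : ℂ, c' ^ 3 = P.leadingCoeff → (gam P 1 * c').re ≤ (gam P 1 * c).re := by
  unfold IsTop
  simp only [p_AL1_lex P hM, hM]

private lemma p_AL1_re {ρ : ℝ} (hρ : 0 < ρ) {z : ℂ} (hz : z ^ 3 = -((ρ : ℂ) ^ 3)) :
    z.re ≤ ρ / 2 := by
  have h1 : (z + ρ) * (z ^ 2 - ρ * z + (ρ : ℂ) ^ 2) = 0 := by
    linear_combination hz
  rcases mul_eq_zero.mp h1 with h | h
  · have := congrArg Complex.re h
    simp at this
    linarith
  · have hr := congrArg Complex.re h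
    have hi := congrArg Complex.im h
    simp [pow_two] at hr hi
    have h2 : z.im * (2 * z.re - ρ) = 0 := by linarith
    rcases mul_eq_zero.mp h2 with h3 | h3
    · rw [h3] at hr
      nlinarith [sq_nonneg (z.re - ρ / 2)]
    · linarith

theorem p_AL1 (hX2 : S_X2) : S_AL1 := by
  intro P hP0 hM hc2
  have hP : P ≠ 0 := by
    rintro rfl
    simp at hM
  have hlc : P.leadingCoeff ≠ 0 := leadingCoeff_ne_zero.mpr hP
  have hlc3 : P.leadingCoeff = P.coeff 3 := by
    rw [leadingCoeff, hM]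
  have hγ := p_AL1_gam P hM
  have hγ0 : gam P 1 ≠ 0 := by
    rw [hγ]
    exact div_ne_zero hc2 (mul_ne_zero three_ne_zero hlc)
  have hγ3 : gam P 1 ^ 3 * (27 * P.leadingCoeff ^ 3) = P.coeff 2 ^ 3 := by
    rw [hγ]
    field_simp
    norm_num
  simp only [p_AL1_top P hM]
  constructor
  · rintro ⟨c, c₁, ⟨hc, hcm⟩, ⟨hc₁, hcm₁⟩, hne⟩
    have hprim : IsPrimitiveRoot (om 3) 3 := by
      unfold om
      exact Complex.isPrimitiveRoot_exp 3 (by omega)
    have hc0 : c ≠ 0 := by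
      rintro rfl
      rw [zero_pow (by omega)] at hc
      exact hlc hc.symm
    have hns : (gam P 1 * c) ^ 3 ∉ Complex.slitPlane := by
      intro hslit
      have hX := hX2 3 (gam P 1 * c) (by norm_num) hslit (by
        intro l _
        rw [mul_assoc]
        refine hcm _ ?_
        rw [mul_pow, hc, ← pow_mul, mul_comm l, pow_mul, hprim.pow_eq_one, one_pow, mul_one])
      have hroot : (c₁ / c) ^ 3 = 1 := by
        rw [div_pow, hc₁, hc, div_self hlc]
      obtain ⟨l, hl, hl2⟩ := hprim.eq_pow_of_pow_eq_one hroot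
      have hc1 : c₁ = c * om 3 ^ l := by
        rw [hl2]
        field_simp
      rcases Nat.eq_zero_or_pos l with h0 | h0
      · apply hne
        rw [hc1, h0, pow_zero, mul_one]
      · have h1 := hX l h0 hl
        have h2 := hcm₁ c hc
        rw [hc1, ← mul_assoc] at h2
        linarith
    rw [Complex.mem_slitPlane_iff] at hns
    push Not at hns
    obtain ⟨hre, him⟩ := hns
    have hξ : (gam P 1 * c) ^ 3 = (((gam P 1 * c) ^ 3).re : ℂ) :=
      Complex.ext (by simp) (by simpa using him)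
    have hξ0 : (gam P 1 * c) ^ 3 ≠ 0 := pow_ne_zero _ (mul_ne_zero hγ0 hc0)
    refine ⟨27 * ((gam P 1 * c) ^ 3).re, ?_, ?_⟩
    · rcases lt_or_eq_of_le hre with h | h
      · linarith
      · exfalso
        apply hξ0
        rw [hξ, h]
        simp
    · push_cast
      rw [← hξ, mul_pow, hc, ← hlc3]
      linear_combination -hγ3
  · rintro ⟨t, ht, hta⟩
    obtain ⟨ρ, hρ, hρ3⟩ : ∃ ρ : ℝ, 0 < ρ ∧ ρ ^ 3 = -t / 27 := by
      refine ⟨(-t / 27) ^ (1 / 3 : ℝ), Real.rpow_pos_of_pos (by linarith) _, ?_⟩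
      rw [← Real.rpow_natCast, ← Real.rpow_mul (by linarith)]
      norm_num
    have hρc : ((ρ : ℂ)) ^ 3 = -(t : ℂ) / 27 := by
      have := congrArg (fun x : ℝ => (x : ℂ)) hρ3
      push_cast at this
      exact this
    -- the cube of the first coefficient
    have hg : gam P 1 ^ 3 * P.leadingCoeff = -((ρ : ℂ) ^ 3) := by
      rw [hρc]
      rw [hlc3] at hγ3 hlc ⊢
      have h1 : (gam P 1 ^ 3 * P.coeff 3) * (27 * P.coeff 3 ^ 2) = t * P.coeff 3 ^ 2 := by
        rw [← hta, ← hγ3]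
        ring
      have h2 : P.coeff 3 ^ 2 ≠ 0 := pow_ne_zero _ hlc
      have h3 : (gam P 1 ^ 3 * P.coeff 3) * 27 = t := by
        apply mul_right_cancel₀ h2
        linear_combination h1
      linear_combination h3 / 27
    have hup : ∀ c' : ℂ, c' ^ 3 = P.leadingCoeff → (gam P 1 * c').re ≤ ρ / 2 := by
      intro c' hc'
      apply p_AL1_re hρ
      rw [mul_pow, hc', hg]
    have hs : ((Real.sqrt 3 : ℝ) : ℂ) ^ 2 = 3 := by
      rw [← Complex.ofReal_pow, Real.sq_sqrt (by norm_num)]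
      norm_num
    have hroot : ∀ e : ℂ, e ^ 2 = -1 →
        ((ρ : ℂ) * (1 / 2 + (Real.sqrt 3 : ℝ) / 2 * e)) ^ 3 = -((ρ : ℂ) ^ 3) := by
      intro e he
      have h1 : (1 / 2 + ((Real.sqrt 3 : ℝ) : ℂ) / 2 * e) ^ 2 =
          (1 / 2 + ((Real.sqrt 3 : ℝ) : ℂ) / 2 * e) - 1 := by
        linear_combination (1 / 4) * ((Real.sqrt 3 : ℝ) : ℂ) ^ 2 * he - (1 / 4) * hs
      have h2 : (1 / 2 + ((Real.sqrt 3 : ℝ) : ℂ) / 2 * e) ^ 3 = -1 := by
        linear_combination (1 / 2 + ((Real.sqrt 3 : ℝ) : ℂ) / 2 * e + 1) * h1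
      rw [mul_pow, h2]
      ring
    have hI : Complex.I ^ 2 = -1 := Complex.I_sq
    have hI' : (-Complex.I) ^ 2 = -1 := by rw [neg_sq, Complex.I_sq]
    have htop : ∀ e : ℂ, e ^ 2 = -1 → (e.re = 0) →
        ((ρ : ℂ) * (1 / 2 + (Real.sqrt 3 : ℝ) / 2 * e) / gam P 1) ^ 3 = P.leadingCoeff ∧
        ∀ c' : ℂ, c' ^ 3 = P.leadingCoeff → (gam P 1 * c').re ≤
          (gam P 1 * ((ρ : ℂ) * (1 / 2 + (Real.sqrt 3 : ℝ) / 2 * e) / gam P 1)).re := by
      intro e he he0
      refine ⟨?_, ?_⟩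
      · rw [div_pow, hroot e he, ← hg]
        field_simp
      · intro c' hc'
        have e1 : gam P 1 * ((ρ : ℂ) * (1 / 2 + (Real.sqrt 3 : ℝ) / 2 * e) / gam P 1) =
            (ρ : ℂ) * (1 / 2 + (Real.sqrt 3 : ℝ) / 2 * e) := by
          field_simp
        rw [e1]
        have e2 : ((ρ : ℂ) * (1 / 2 + (Real.sqrt 3 : ℝ) / 2 * e)).re = ρ / 2 := by
          rw [Complex.re_ofReal_mul]
          have e3 : (1 / 2 + ((Real.sqrt 3 : ℝ) : ℂ) / 2 * e) =
              ((1 / 2 : ℝ) : ℂ) + ((Real.sqrt 3 / 2 : ℝ) : ℂ) * e := by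
            push_cast
            ring
          rw [e3, Complex.add_re, Complex.ofReal_re, Complex.re_ofReal_mul, he0]
          ring
        rw [e2]
        exact hup c' hc'
    refine ⟨_, _, htop Complex.I hI (by simp), htop (-Complex.I) hI' (by simp), ?_⟩
    intro h
    rw [div_left_inj' hγ0] at h
    have hρ0 : (ρ : ℂ) ≠ 0 := by exact_mod_cast hρ.ne'
    have h1 := mul_left_cancel₀ hρ0 h
    have h2 : ((Real.sqrt 3 : ℝ) : ℂ) * Complex.I = 0 := by linear_combination h1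
    rcases mul_eq_zero.mp h2 with h3 | h3
    · rw [h3] at hs
      norm_num at hs
    · exact Complex.I_ne_zero h3

end HillRoots
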