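import Pool.Agent.Lib.MP_e63cf8_mp.H.StmW

/-! [AL2] the exponents in the cancelling case. -/

open Polynomial

namespace HillRoots

private noncomputable def al2e : ℂ := Complex.exp (Complex.I * ((Real.pi / 3 : ℝ) : ℂ))

private theorem al2_re : al2e.re = 1 / 2 := by
  unfold al2e
  rw [mul_comm, Complex.exp_mul_I, ← Complex.ofReal_cos, ← Complex.ofReal_sin]
  simp [Real.cos_pi_div_three]

private theorem al2_cube : al2e ^ 3 = -1 := by
  unfold al2e
  rw [← Complex.exp_nat_mul, ← Complex.exp_pi_mul_I]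
  congr 1
  push_cast
  ring

private theorem al2_ne : al2e ≠ 0 := Complex.exp_ne_zero _

private theorem al2_quad : al2e ^ 2 = al2e - 1 := by
  have h : (al2e + 1) * (al2e ^ 2 - al2e + 1) = 0 := by
    linear_combination al2_cube
  rcases mul_eq_zero.mp h with h1 | h1
  · exfalso
    have h2 := congrArg Complex.re h1
    rw [Complex.add_re, al2_re, Complex.one_re, Complex.zero_re] at h2
    norm_num at h2
  · linear_combination h1

private theorem al2_inv : al2e⁻¹ = -al2e ^ 2 := by
  apply inv_eq_of_mul_eq_one_right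
  linear_combination (-1 : ℂ) * al2_cube

private theorem al2_om : om 3 = al2e ^ 2 := by
  unfold om al2e
  rw [← Complex.exp_nat_mul]
  congr 1
  push_cast
  ring

private theorem al2_exp1 : Complex.exp (Complex.I * ((1 * Real.pi / 3 : ℝ) : ℂ)) = al2e := by
  unfold al2e
  rw [one_mul]

private theorem al2_exp1n : Complex.exp (-(Complex.I * ((1 * Real.pi / 3 : ℝ) : ℂ))) = -al2e ^ 2 := by
  rw [Complex.exp_neg, al2_exp1, al2_inv]

private theorem al2_exp2 : Complex.exp (Complex.I * ((-1 * Real.pi / 3 : ℝ) : ℂ)) = -al2e ^ 2 := by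
  rw [← al2_exp1n]
  congr 1
  push_cast
  ring

private theorem al2_exp2n : Complex.exp (-(Complex.I * ((-1 * Real.pi / 3 : ℝ) : ℂ))) = al2e := by
  rw [← al2_exp1]
  congr 1
  push_cast
  ring

private theorem al2_exp3 : Complex.exp (-(Complex.I * ((-1 * (2 * Real.pi / 3) : ℝ) : ℂ))) = al2e ^ 2 := by
  unfold al2e
  rw [← Complex.exp_nat_mul]
  congr 1
  push_cast
  ring

private theorem al2_exp4 : Complex.exp (-(Complex.I * ((1 * (2 * Real.pi / 3) : ℝ) : ℂ))) = -al2e := by
  have h : Complex.exp (-(Complex.I * ((1 * (2 * Real.pi / 3) : ℝ) : ℂ))) * al2e ^ 2 = 1 := by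
    rw [← al2_exp3, ← Complex.exp_add]
    rw [show -(Complex.I * ((1 * (2 * Real.pi / 3) : ℝ) : ℂ)) +
      -(Complex.I * ((-1 * (2 * Real.pi / 3) : ℝ) : ℂ)) = 0 by push_cast; ring]
    exact Complex.exp_zero
  have h2 : al2e ^ 2 ≠ 0 := pow_ne_zero _ al2_ne
  apply mul_right_cancel₀ h2
  rw [h]
  linear_combination al2_cube

theorem p_AL2 : S_AL2 := by
  intro P c h0 hdeg h2 hneg hc hmax
  obtain ⟨t, ht, htP⟩ := hneg
  have hlc : P.leadingCoeff = P.coeff 3 := by rw [Polynomial.leadingCoeff, hdeg]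
  have hP : P ≠ 0 := by
    intro h
    rw [h] at h2
    exact h2 (by simp)
  have h3 : P.coeff 3 ≠ 0 := by
    rw [← hlc]
    exact Polynomial.leadingCoeff_ne_zero.mpr hP
  have hc0 : c ≠ 0 := by
    intro h
    apply h3
    rw [← hlc, ← hc, h]
    norm_num
  rw [hlc] at hc
  -- the exponent `x₀`
  set x : ℂ := P.coeff 2 / (3 * P.coeff 3) * c with hx
  have hxi : ∀ l, xi P c l = x * om 3 ^ l := by
    intro l
    unfold xi
    rw [hlc, hx]
    ring
  have hxi0 : xi P c 0 = x := by rw [hxi]; ring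
  have hxi1 : xi P c 1 = x * al2e ^ 2 := by rw [hxi, al2_om]; ring
  have hxi2 : xi P c 2 = -(x * al2e) := by
    rw [hxi, al2_om]
    linear_combination x * al2e * al2_cube
  have hx3 : x ^ 3 = ((t / 27 : ℝ) : ℂ) := by
    rw [hx, mul_pow, div_pow, hc, htP]
    push_cast
    field_simp
    norm_num
  set ρ : ℝ := ‖x‖ with hρ
  have hρ3 : ρ ^ 3 = -t / 27 := by
    rw [hρ, ← norm_pow, hx3, Complex.norm_real, Real.norm_eq_abs, abs_of_neg (by linarith)]
    ring
  have hρ0 : 0 < ρ := by
    rcases (norm_nonneg x).lt_or_eq with h | h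
    · exact h
    · exfalso
      rw [← h] at hρ
      rw [hρ] at hρ3
      norm_num at hρ3
      linarith
  have hxρ : x ^ 3 = -(ρ : ℂ) ^ 3 := by
    rw [hx3, ← Complex.ofReal_pow, hρ3]
    push_cast
    ring
  have hfac : (x + ρ) * ((x - ρ * al2e) * (x + ρ * al2e ^ 2)) = 0 := by
    linear_combination hxρ + (-(ρ : ℂ) ^ 2 * x - (ρ : ℂ) ^ 3) * al2_cube +
      (x ^ 2 * ρ + (ρ : ℂ) ^ 2 * x) * al2_quad
  have hcases : x = ρ * al2e ∨ x = -(ρ * al2e ^ 2) := by
    rcases mul_eq_zero.mp hfac with h | h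
    · exfalso
      have hxe : x = -(ρ : ℂ) := by linear_combination h
      have h1 := hmax 1 (by norm_num)
      rw [hxi0, hxi1, hxe, al2_quad] at h1
      have e1 : (-(ρ : ℂ) * (al2e - 1)).re = ρ / 2 := by
        rw [show -(ρ : ℂ) * (al2e - 1) = ((-ρ : ℝ) : ℂ) * (al2e - 1) by push_cast; ring,
          Complex.re_ofReal_mul, Complex.sub_re, al2_re, Complex.one_re]
        ring
      rw [e1, Complex.neg_re, Complex.ofReal_re] at h1
      linarith
    · rcases mul_eq_zero.mp h with h | h
      · left; linear_combination h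
      · right; linear_combination h
  have hre : x.re = ρ / 2 := by
    rcases hcases with h | h
    · rw [h, Complex.re_ofReal_mul, al2_re]; ring
    · rw [h, al2_quad, Complex.neg_re, Complex.re_ofReal_mul, Complex.sub_re, al2_re,
        Complex.one_re]
      ring
  have hmu : muP P = 3 * (ρ / 2) := by
    unfold muP
    rw [hdeg, hlc]
    apply IsGreatest.csSup_eq
    constructor
    · refine ⟨c, hc, ?_⟩
      rw [← hre]
      have e1 : c * P.coeff (3 - 1) / P.coeff 3 = ((3 : ℝ) : ℂ) * x := by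
        rw [hx]
        push_cast
        field_simp
      rw [e1, Complex.re_ofReal_mul]
    · rintro y ⟨c', hc', rfl⟩
      have e0 : (c' - c) * ((c' - c * al2e ^ 2) * (c' + c * al2e)) = 0 := by
        have e3 : c' ^ 3 = c ^ 3 := by rw [hc', hc]
        linear_combination e3 + (c ^ 3 + c * c' ^ 2 * 0 - c ^ 2 * c') * al2_cube +
          (-(c * c' ^ 2) + c ^ 2 * c') * al2_quad
      have e1 : ∃ l < 3, c' = c * om 3 ^ l := by
        rcases mul_eq_zero.mp e0 with h | h
        · exact ⟨0, by norm_num, by rw [pow_zero, mul_one]; linear_combination h⟩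
        · rcases mul_eq_zero.mp h with h | h
          · exact ⟨1, by norm_num, by rw [al2_om]; linear_combination h⟩
          · refine ⟨2, by norm_num, ?_⟩
            rw [al2_om]
            linear_combination h - c * al2e * al2_cube
      obtain ⟨l, hl, hcl⟩ := e1
      have e2 : c' * P.coeff (3 - 1) / P.coeff 3 = ((3 : ℝ) : ℂ) * xi P c l := by
        rw [hxi, hx, hcl]
        push_cast
        field_simp
      have e4 := hmax l hl
      rw [hxi0, hre] at e4
      rw [e2, Complex.re_ofReal_mul]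
      linarith
  have hkap : kap P = ρ := by
    unfold kap
    rw [hmu]
    ring
  refine ⟨by rw [hkap]; exact hρ0, ?_, ?_, ?_⟩
  · have e1 : ‖P.coeff 2‖ ^ 3 = -t * ‖P.coeff 3‖ ^ 2 := by
      rw [← norm_pow, htP, norm_mul, norm_pow, Complex.norm_real, Real.norm_eq_abs,
        abs_of_neg ht]
    rw [hkap, hρ3, e1]
    ring
  · intro l
    unfold zet xi Inv
    rw [hlc]
    field_simp
    ring
  · rw [hkap]
    rcases hcases with h | h
    · refine ⟨1, 2, 1, Or.inl rfl, Or.inr ⟨rfl, rfl⟩, ?_, ?_, ?_, ?_⟩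
      · rw [hxi0, al2_exp1, h]
      · rw [hxi2, al2_exp1n, h]
        ring
      · rw [al2_exp4, al2_om]
        linear_combination al2e * al2_cube
      · rw [hxi1, h]
        linear_combination (ρ : ℂ) * al2_cube
    · refine ⟨-1, 1, 2, Or.inr rfl, Or.inl ⟨rfl, rfl⟩, ?_, ?_, ?_, ?_⟩
      · rw [hxi0, al2_exp2, h]
        ring
      · rw [hxi1, al2_exp2n, h]
        linear_combination -(ρ : ℂ) * al2e * al2_cube
      · rw [al2_exp3, al2_om]
        ring
      · rw [hxi2, h]
        linear_combination (ρ : ℂ) * al2_cube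

end HillRoots
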