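import Pool.Agent.Lib.MP_e63cf8_mp.H.StmW

/-!
# MP_e63cf8_mp: piece AL3, rigidity
-/

set_option autoImplicit false

open Polynomial Filter Topology MeasureTheory Asymptotics

namespace HillRoots

private theorem al3_om : om 3 ^ 3 = 1 := by
  unfold om
  rw [← Complex.exp_nat_mul]
  rw [Complex.exp_eq_one_iff]
  exact ⟨1, by push_cast; ring⟩

private theorem al3_mod (n : ℕ) : om 3 ^ n = om 3 ^ (n % 3) := by
  conv_lhs => rw [← Nat.div_add_mod n 3]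
  rw [pow_add, pow_mul, al3_om, one_pow, one_mul]

/-- a cube root for which the real part of `xi` is largest -/
private theorem al3_root (P : ℂ[X]) : ∃ c : ℂ, c ^ 3 = P.leadingCoeff ∧
    ∀ l < 3, (xi P c l).re ≤ (xi P c 0).re := by
  obtain ⟨c₀, hc₀⟩ := IsAlgClosed.exists_pow_nat_eq P.leadingCoeff (show 0 < 3 by norm_num)
  obtain ⟨l₀, -, hl₀⟩ := Finset.exists_max_image (Finset.range 3) (fun l => (xi P c₀ l).re)
    ⟨0, by simp⟩
  refine ⟨c₀ * om 3 ^ l₀, ?_, fun l _ => ?_⟩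
  · rw [mul_pow, ← pow_mul, mul_comm l₀ 3, pow_mul, al3_om, one_pow, mul_one, hc₀]
  · have e : ∀ l, xi P (c₀ * om 3 ^ l₀) l = xi P c₀ ((l₀ + l) % 3) := by
      intro l
      unfold xi
      rw [mul_assoc c₀, ← pow_add, al3_mod (l₀ + l)]
    have e0 : xi P (c₀ * om 3 ^ l₀) 0 = xi P c₀ l₀ := by
      unfold xi
      rw [pow_zero, mul_one]
    rw [e, e0]
    exact hl₀ _ (Finset.mem_range.2 (Nat.mod_lt _ (by norm_num)))

/-- [AL3] -/
theorem p_AL3 (h : S_AL2) : S_AL3 := by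
  intro P Q hP0 hQ0 hP3 hQ3 hP2 hQ2 hPn hQn hlc hmu hinv
  obtain ⟨c, hc, hc'⟩ := al3_root P
  obtain ⟨d, hd, hd'⟩ := al3_root Q
  obtain ⟨-, hkP, -⟩ := h P c hP0 hP3 hP2 hPn hc hc'
  obtain ⟨-, hkQ, -⟩ := h Q d hQ0 hQ3 hQ2 hQn hd hd'
  have hk : kap P = kap Q := by
    unfold kap
    rw [hmu]
  have hlP : P.leadingCoeff = P.coeff 3 := by
    rw [Polynomial.leadingCoeff, hP3]
  have hlQ : Q.leadingCoeff = Q.coeff 3 := by
    rw [Polynomial.leadingCoeff, hQ3]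
  rw [hlP, hlQ] at hlc
  have ha3 : P.coeff 3 ≠ 0 := by
    rw [← hlP]
    intro h0
    rw [Polynomial.leadingCoeff_eq_zero] at h0
    rw [h0] at hP3
    simp at hP3
  have hb3 : Q.coeff 3 ≠ 0 := by
    rw [← hlQ]
    intro h0
    rw [Polynomial.leadingCoeff_eq_zero] at h0
    rw [h0] at hQ3
    simp at hQ3
  have hn2' : ‖P.coeff 2‖ ^ 3 = ‖Q.coeff 2‖ ^ 3 := by
    rw [← hkP, ← hkQ, hk, hlc]
  have hn2 : ‖P.coeff 2‖ = ‖Q.coeff 2‖ :=
    (pow_left_inj₀ (norm_nonneg _) (norm_nonneg _) (by norm_num)).1 hn2'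
  obtain ⟨t, ht, hPt⟩ := hPn
  obtain ⟨s, hs, hQs⟩ := hQn
  have hts : t = s := by
    have e1 := congrArg norm hPt
    have e2 := congrArg norm hQs
    rw [norm_pow, norm_mul, norm_pow, Complex.norm_real, Real.norm_eq_abs, abs_of_neg ht] at e1
    rw [norm_pow, norm_mul, norm_pow, Complex.norm_real, Real.norm_eq_abs, abs_of_neg hs,
      ← hlc, ← hn2, e1] at e2
    have h3 : ‖P.coeff 3‖ ^ 2 ≠ 0 := pow_ne_zero _ (norm_ne_zero_iff.2 ha3)
    have := mul_right_cancel₀ h3 e2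
    linarith
  subst hts
  have ht0 : (t : ℂ) ≠ 0 := by
    exact_mod_cast ht.ne
  have hr3 : (Q.coeff 2 / P.coeff 2) ^ 3 = (Q.coeff 3 / P.coeff 3) ^ 2 := by
    rw [div_pow, div_pow, hPt, hQs, mul_div_mul_left _ _ ht0]
  have hr0 : Q.coeff 2 / P.coeff 2 ≠ 0 := div_ne_zero hQ2 hP2
  obtain ⟨ρ, hρ⟩ : ∃ ρ, ρ = Q.coeff 3 / P.coeff 3 := ⟨_, rfl⟩
  obtain ⟨r, hr⟩ : ∃ r, r = Q.coeff 2 / P.coeff 2 := ⟨_, rfl⟩
  rw [← hρ, ← hr] at hr3
  rw [← hr] at hr0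
  have hw2 : (ρ / r) ^ 2 = r := by
    rw [div_pow, ← hr3]
    field_simp
  have hw3 : (ρ / r) ^ 3 = ρ := by
    rw [pow_succ, hw2]
    field_simp
  have hb2 : Q.coeff 2 = (ρ / r) ^ 2 * P.coeff 2 := by
    rw [hw2, hr]
    field_simp
  have hb3' : Q.coeff 3 = (ρ / r) ^ 3 * P.coeff 3 := by
    rw [hw3, hρ]
    field_simp
  have hρ0 : ρ ≠ 0 := by
    rw [hρ]
    exact div_ne_zero hb3 ha3
  have hw0 : ρ / r ≠ 0 := div_ne_zero hρ0 hr0
  have hb1 : Q.coeff 1 = (ρ / r) * P.coeff 1 := by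
    unfold Inv at hinv
    rw [hb2, hb3'] at hinv
    obtain ⟨w, hw⟩ : ∃ w, w = ρ / r := ⟨_, rfl⟩
    rw [← hw] at hinv hw0 ⊢
    field_simp at hinv
    linear_combination -hinv
  refine ⟨ρ / r, ?_, fun j => ?_⟩
  · rw [norm_div, hρ, hr, norm_div, norm_div, ← hlc, ← hn2,
      div_self (norm_ne_zero_iff.2 ha3), div_self (norm_ne_zero_iff.2 hP2), div_one]
  · rcases Nat.lt_or_ge j 4 with hj | hj
    · interval_cases j
      · rw [hQ0, hP0, mul_zero]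
      · rw [pow_one]; exact hb1
      · exact hb2
      · exact hb3'
    · rw [Polynomial.coeff_eq_zero_of_natDegree_lt (by omega),
        Polynomial.coeff_eq_zero_of_natDegree_lt (by omega), mul_zero]

end HillRoots
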