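import Pool.Agent.Lib.MP_e63cf8_mp.H.StmW

/-!
# MP_e63cf8_mp, piece AL4: the sign of `muP`
-/

open Polynomial

namespace HillRoots

/-- the primitive cube root of unity -/
private noncomputable def al4w : ℂ := ⟨-1 / 2, Real.sqrt 3 / 2⟩

private lemma al4w_pow : al4w ^ 3 = 1 := by
  have h3 : Real.sqrt 3 * Real.sqrt 3 = 3 := Real.mul_self_sqrt (by norm_num)
  have e : al4w ^ 3 = al4w * al4w * al4w := by ring
  rw [e]
  apply Complex.ext
  · simp only [al4w, Complex.mul_re, Complex.mul_im, Complex.one_re]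
    linear_combination (3 / 8) * h3
  · simp only [al4w, Complex.mul_re, Complex.mul_im, Complex.one_im]
    linear_combination (-(Real.sqrt 3) / 8) * h3

private lemma al4_pos (z : ℂ) (hz : z ≠ 0) : ∃ w : ℂ, w ^ 3 = 1 ∧ 0 < (w * z).re := by
  by_contra hcon
  push Not at hcon
  have h3 : Real.sqrt 3 * Real.sqrt 3 = 3 := Real.mul_self_sqrt (by norm_num)
  have hs : 0 < Real.sqrt 3 := Real.sqrt_pos.2 (by norm_num)
  have a0 := hcon 1 (by norm_num)
  have a1 := hcon al4w al4w_pow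
  have a2 := hcon (al4w * al4w) (by
    have : (al4w * al4w) ^ 3 = al4w ^ 3 * al4w ^ 3 := by ring
    rw [this, al4w_pow, one_mul])
  simp only [al4w, Complex.mul_re, Complex.mul_im, Complex.one_re, Complex.one_im] at a0 a1 a2
  have b0 : z.re ≤ 0 := by linarith
  have b1 : -(1 / 2) * z.re - Real.sqrt 3 / 2 * z.im ≤ 0 := by linarith
  have b2 : -(1 / 2) * z.re + Real.sqrt 3 / 2 * z.im ≤ 0 := by
    have e : (-1 / 2 * (-1 / 2) - Real.sqrt 3 / 2 * (Real.sqrt 3 / 2)) = -(1 / 2) := by nlinarith [h3]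
    have e2 : (-1 / 2 * (Real.sqrt 3 / 2) + Real.sqrt 3 / 2 * (-1 / 2)) = -(Real.sqrt 3 / 2) := by ring
    rw [e, e2] at a2
    linarith
  have c0 : z.re = 0 := by linarith
  have c1 : z.im = 0 := by
    rw [c0] at b1 b2
    have : Real.sqrt 3 / 2 * z.im = 0 := by linarith
    rcases mul_eq_zero.1 this with h | h
    · exfalso
      linarith
    · exact h
  exact hz (Complex.ext c0 c1)

theorem p_AL4 : S_AL4 := by
  intro P hP
  have hlc : P.leadingCoeff ≠ 0 := by
    rw [Ne, Polynomial.leadingCoeff_eq_zero]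
    rintro rfl
    simp at hP
  obtain ⟨c₀, hc₀⟩ := IsAlgClosed.exists_pow_nat_eq P.leadingCoeff (n := 3) (by norm_num)
  refine ⟨fun h0 => ?_, fun h0 => ?_⟩
  · unfold muP
    have : {x : ℝ | ∃ c : ℂ, c ^ P.natDegree = P.leadingCoeff ∧
        x = (c * P.coeff (P.natDegree - 1) / P.leadingCoeff).re} = {0} := by
      ext x
      simp only [Set.mem_ofPred_eq, Set.mem_singleton_iff, hP]
      constructor
      · rintro ⟨c, hc, rfl⟩
        simp [h0]
      · rintro rfl
        exact ⟨c₀, hc₀, by simp [h0]⟩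
    rw [this, csSup_singleton]
  · have hc0 : c₀ ≠ 0 := by
      rintro rfl
      apply hlc
      rw [← hc₀]
      norm_num
    have hz : c₀ * P.coeff 2 / P.leadingCoeff ≠ 0 := div_ne_zero (mul_ne_zero hc0 h0) hlc
    obtain ⟨w, hw, hpos⟩ := al4_pos _ hz
    unfold muP
    refine lt_of_lt_of_le hpos (le_csSup ?_ ?_)
    · refine ⟨‖c₀‖ * ‖P.coeff 2‖ / ‖P.leadingCoeff‖, ?_⟩
      rintro x ⟨c, hc, rfl⟩
      rw [hP] at hc ⊢
      have hn : ‖c‖ = ‖c₀‖ := by
        have h1 : ‖c‖ ^ 3 = ‖c₀‖ ^ 3 := by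
          rw [← norm_pow, ← norm_pow, hc, hc₀]
        exact (pow_left_inj₀ (norm_nonneg _) (norm_nonneg _) (by norm_num)).1 h1
      refine (Complex.re_le_norm _).trans ?_
      rw [norm_div, norm_mul, hn]
    · refine ⟨w * c₀, ?_, ?_⟩
      · rw [hP, mul_pow, hw, one_mul, hc₀]
      · rw [hP]
        congr 1
        ring

end HillRoots
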