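import Pool.Agent.Lib.MP_e63cf8_mp.H.StmW

/-!
# MP_e63cf8_mp, piece D1: a nonreal invariant keeps the two terms apart
-/

open Polynomial Filter Topology MeasureTheory Asymptotics

namespace HillRoots

private theorem d1_norm (θ x : ℝ) (ν : ℂ) :
    ‖Complex.exp (Complex.I * ((θ : ℂ) + ν * (x : ℂ)))‖ = Real.exp (-(x * ν.im)) := by
  rw [Complex.norm_exp]
  congr 1
  simp
  ring

private theorem d1_exp (t : ℝ) (ht : |t| ≤ 1 / 2) : |t| / 2 ≤ |Real.exp t - 1| := by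
  have h1 : |Real.exp t - 1 - t| ≤ t ^ 2 := Real.abs_exp_sub_one_sub_id_le (by linarith)
  have h2 : |t| ≤ |Real.exp t - 1| + |Real.exp t - 1 - t| := by
    have := abs_sub (Real.exp t - 1) (Real.exp t - 1 - t)
    have h3 : Real.exp t - 1 - (Real.exp t - 1 - t) = t := by ring
    rw [h3] at this
    exact this
  have h4 : t ^ 2 ≤ |t| / 2 := by
    rw [← sq_abs]
    nlinarith [abs_nonneg t]
  linarith

theorem p_D1 : S_D1 := by
  intro κ ν ν' hν
  have him : 0 < |ν.im| := abs_pos.2 hν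
  refine ⟨1 + 2 / |ν.im| + 8 * ‖ν' - ν‖ / |ν.im|, by positivity, ?_⟩
  have hx : Tendsto (fun n : ℕ => (n : ℝ) ^ (-(1 / 3) : ℝ)) atTop (𝓝 0) :=
    (tendsto_rpow_neg_atTop (by norm_num)).comp tendsto_natCast_atTop_atTop
  have he : ∀ e : ℝ, 0 < e → ∀ᶠ n : ℕ in atTop, (n : ℝ) ^ (-(1 / 3) : ℝ) < e := fun e h =>
    (tendsto_order.1 hx).2 e h
  filter_upwards [he (1 / (2 * |ν.im|)) (by positivity), he (1 / (1 + ‖ν' - ν‖)) (by positivity)]
    with n h1 h2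
  set x : ℝ := (n : ℝ) ^ (-(1 / 3) : ℝ) with hxd
  have hx0 : 0 ≤ x := by positivity
  have hxi : |-(x * ν.im)| ≤ 1 / 2 := by
    rw [abs_neg, abs_mul, abs_of_nonneg hx0]
    rw [lt_div_iff₀ (by positivity)] at h1
    linarith
  set E : ℂ := Complex.exp (Complex.I * ((thet κ n : ℂ) + ν * (x : ℂ))) with hE
  have hEn : ‖E‖ = Real.exp (-(x * ν.im)) := d1_norm _ _ _
  have hD : DD κ ν n = ‖1 + E‖ := rfl
  have hlow : x * |ν.im| / 2 ≤ DD κ ν n := by
    have h3 := d1_exp _ hxi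
    rw [abs_neg, abs_mul, abs_of_nonneg hx0, ← hEn] at h3
    refine h3.trans ?_
    rw [hD]
    have h4 : |‖E‖ - ‖(-1 : ℂ)‖| ≤ ‖E - (-1)‖ := abs_norm_sub_norm_le _ _
    rw [norm_neg, norm_one, sub_neg_eq_add, add_comm E 1] at h4
    exact h4
  have hxD : x ≤ 2 / |ν.im| * DD κ ν n := by
    rw [div_mul_eq_mul_div, le_div_iff₀ him]
    linarith
  have hD0 : 0 ≤ DD κ ν n := norm_nonneg _
  refine ⟨?_, ?_⟩
  · refine hxD.trans (mul_le_mul_of_nonneg_right ?_ hD0)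
    have : 0 ≤ 8 * ‖ν' - ν‖ / |ν.im| := by positivity
    linarith
  · have hE2 : ‖E‖ ≤ 2 := by
      rw [hEn]
      have h3 : -(x * ν.im) ≤ 1 / 2 := (le_abs_self _).trans hxi
      have h4 := Real.exp_le_exp.2 h3
      have h5 : Real.exp (1 / 2) ≤ 2 := by
        have := Real.exp_one_lt_d9
        have h6 : Real.exp (1 / 2) ^ 2 = Real.exp 1 := by
          rw [← Real.exp_nat_mul]
          norm_num
        nlinarith [Real.exp_pos (1 / 2)]
      exact h4.trans h5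
    set y : ℂ := Complex.I * ((ν' - ν) * (x : ℂ)) with hy
    have hyn : ‖y‖ = ‖ν' - ν‖ * x := by
      rw [hy, norm_mul, Complex.norm_I, one_mul, norm_mul, Complex.norm_real, Real.norm_eq_abs,
        abs_of_nonneg hx0]
    have hy1 : ‖y‖ ≤ 1 := by
      rw [hyn]
      rw [lt_div_iff₀ (by positivity)] at h2
      nlinarith [norm_nonneg (ν' - ν)]
    have h3 : ‖Complex.exp y - 1‖ ≤ 2 * ‖y‖ := Complex.norm_exp_sub_one_le hy1
    have hE' : Complex.exp (Complex.I * ((thet κ n : ℂ) + ν' * (x : ℂ))) = E * Complex.exp y := by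
      rw [hE, hy, ← Complex.exp_add]
      congr 1
      ring
    have h4 : DD κ ν' n ≤ DD κ ν n + ‖E‖ * ‖Complex.exp y - 1‖ := by
      have h5 : DD κ ν' n = ‖(1 + E) + E * (Complex.exp y - 1)‖ := by
        have : DD κ ν' n = ‖1 + Complex.exp (Complex.I * ((thet κ n : ℂ) + ν' * (x : ℂ)))‖ := rfl
        rw [this, hE']
        congr 1
        ring
      rw [h5, hD, ← norm_mul]
      exact norm_add_le _ _
    have h6 : ‖E‖ * ‖Complex.exp y - 1‖ ≤ 2 * (2 * (‖ν' - ν‖ * x)) := by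
      rw [← hyn]
      exact mul_le_mul hE2 h3 (norm_nonneg _) (by norm_num)
    have h7 : 4 * ‖ν' - ν‖ * x ≤ 4 * ‖ν' - ν‖ * (2 / |ν.im| * DD κ ν n) :=
      mul_le_mul_of_nonneg_left hxD (by positivity)
    have h8 : 4 * ‖ν' - ν‖ * (2 / |ν.im| * DD κ ν n) = 8 * ‖ν' - ν‖ / |ν.im| * DD κ ν n := by
      ring
    have h9 : 0 ≤ 2 / |ν.im| * DD κ ν n := by positivity
    have h10 : (1 + 2 / |ν.im| + 8 * ‖ν' - ν‖ / |ν.im|) * DD κ ν n =
        DD κ ν n + 2 / |ν.im| * DD κ ν n + 8 * ‖ν' - ν‖ / |ν.im| * DD κ ν n := by ring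
    rw [h10]
    linarith

end HillRoots
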