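import Pool.Agent.Lib.MP_e63cf8_mp.H.StmW

/-!
# MP_e63cf8_mp, piece [D2]: selection of indices
-/

set_option autoImplicit false

open Polynomial Filter Topology MeasureTheory Asymptotics

namespace HillRoots

/-- `(6m)^{1/3}` -/
private noncomputable def d2y (m : ℕ) : ℝ := ((6 * m : ℕ) : ℝ) ^ (1 / 3 : ℝ)

private theorem d2y_cube (m : ℕ) : d2y m ^ 3 = 6 * m := by
  unfold d2y
  rw [← Real.rpow_natCast, ← Real.rpow_mul (Nat.cast_nonneg _)]
  norm_num

private theorem d2y_nonneg (m : ℕ) : 0 ≤ d2y m := Real.rpow_nonneg (Nat.cast_nonneg _) _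

private theorem d2y_one {m : ℕ} (hm : 1 ≤ m) : 1 ≤ d2y m := by
  by_contra h
  push Not at h
  have h1 : d2y m ^ 3 < 1 := pow_lt_one₀ (d2y_nonneg m) h (by norm_num)
  rw [d2y_cube] at h1
  have h2 : (1 : ℝ) ≤ m := by exact_mod_cast hm
  linarith

private theorem d2y_neg {m : ℕ} : ((6 * m : ℕ) : ℝ) ^ (-(1 / 3) : ℝ) = (d2y m)⁻¹ := by
  unfold d2y
  rw [Real.rpow_neg (Nat.cast_nonneg _)]

private theorem d2y_tendsto : Tendsto d2y atTop atTop := by
  have h1 : Tendsto (fun m : ℕ => ((6 * m : ℕ) : ℝ)) atTop atTop := by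
    refine tendsto_natCast_atTop_atTop.comp ?_
    exact tendsto_id.const_mul_atTop' (by norm_num)
  exact (tendsto_rpow_atTop (by norm_num : (0 : ℝ) < 1 / 3)).comp h1

/-- the increments -/
private theorem d2_inc (α β : ℝ) (hα : 0 ≤ α) (m : ℕ) (hm : 1 ≤ m) :
    (α * d2y (m + 1) + β / d2y (m + 1)) - (α * d2y m + β / d2y m) ≤
      6 * (α + |β|) / d2y (m + 1) ^ 2 := by
  set y := d2y m with hy
  set z := d2y (m + 1) with hz
  have hy1 : 1 ≤ y := d2y_one hm
  have hz1 : 1 ≤ z := d2y_one (by omega)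
  have hy3 : y ^ 3 = 6 * m := d2y_cube m
  have hz3 : z ^ 3 = 6 * (m + 1) := by
    have := d2y_cube (m + 1)
    push_cast at this
    exact this
  have hdiff : (z - y) * (z ^ 2 + z * y + y ^ 2) = 6 := by
    have : (z - y) * (z ^ 2 + z * y + y ^ 2) = z ^ 3 - y ^ 3 := by ring
    rw [this, hy3, hz3]
    ring
  have hq : 0 < z ^ 2 + z * y + y ^ 2 := by positivity
  have hzy : 0 < z - y := by
    by_contra h
    push Not at h
    nlinarith
  have hle : (z - y) * z ^ 2 ≤ 6 := by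
    rw [← hdiff]
    refine mul_le_mul_of_nonneg_left ?_ hzy.le
    nlinarith
  have hz2 : 0 < z ^ 2 := by positivity
  have h1 : z - y ≤ 6 / z ^ 2 := by
    rw [le_div_iff₀ hz2]
    exact hle
  have h2 : β / z - β / y ≤ |β| * (z - y) := by
    have h3 : β / z - β / y = -β * (z - y) / (z * y) := by
      field_simp
      ring
    rw [h3, div_le_iff₀ (by positivity)]
    have h4 : -β * (z - y) ≤ |β| * (z - y) :=
      mul_le_mul_of_nonneg_right (neg_le_abs β) hzy.le
    refine h4.trans ?_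
    have h5 : 0 ≤ |β| * (z - y) := by positivity
    have h6 : 1 ≤ z * y := by nlinarith
    nlinarith
  calc (α * z + β / z) - (α * y + β / y) = α * (z - y) + (β / z - β / y) := by ring
    _ ≤ α * (z - y) + |β| * (z - y) := by linarith
    _ = (α + |β|) * (z - y) := by ring
    _ ≤ (α + |β|) * (6 / z ^ 2) := mul_le_mul_of_nonneg_left h1 (by positivity)
    _ = 6 * (α + |β|) / z ^ 2 := by ring

/-- Piece [D2]. -/
theorem p_D2 (hW1 : S_W1) : S_D2 := by
  intro κ ν d hκ hd hd1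
  have hB : 0 < BB 1 := (hW1 1 (Or.inl rfl)).1
  set α : ℝ := Real.sqrt 3 * κ * BB 1 with hα
  have hα0 : 0 < α := by positivity
  set β : ℝ := ν - Real.sqrt 3 / 2 * κ ^ 2 * BB 2 - 3 / 4 * d with hβ
  set a : ℕ → ℝ := fun m => α * d2y m + β / d2y m with ha
  have ha_top : Tendsto a atTop atTop := by
    have h1 : Tendsto (fun m => α * d2y m) atTop atTop := d2y_tendsto.const_mul_atTop hα0
    have h2 : Tendsto (fun m => β / d2y m) atTop (𝓝 0) :=
      d2y_tendsto.const_div_atTop β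
    exact h1.atTop_add h2
  set C : ℝ := 6 * (α + |β|) with hC
  have hC0 : 0 ≤ C := by positivity
  rw [Filter.frequently_atTop]
  intro n₀
  obtain ⟨M, hM⟩ := Filter.eventually_atTop.mp
    (d2y_tendsto.eventually_ge_atTop (8 * C / d + 1))
  set M' : ℕ := max (max M n₀) 1 with hM'
  obtain ⟨j, hj⟩ := exists_nat_gt (a M')
  have hj2 : a M' < (2 * j + 1) * Real.pi := by
    have h1 : (j : ℝ) ≤ (2 * j + 1) * Real.pi := by
      have hj0 : (0 : ℝ) ≤ j := Nat.cast_nonneg j
      nlinarith [Real.pi_gt_three]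
    exact hj.trans_le h1
  have hex : ∃ k : ℕ, (2 * j + 1) * Real.pi ≤ a (M' + k) := by
    obtain ⟨K, hK⟩ := Filter.eventually_atTop.mp
      (ha_top.eventually_ge_atTop ((2 * j + 1) * Real.pi))
    exact ⟨K, hK _ (by omega)⟩
  classical
  set k := Nat.find hex with hk
  have hk1 : (2 * j + 1) * Real.pi ≤ a (M' + k) := Nat.find_spec hex
  have hk0 : k ≠ 0 := by
    intro h0
    rw [h0, add_zero] at hk1
    linarith
  obtain ⟨k', hk'⟩ := Nat.exists_eq_succ_of_ne_zero hk0
  have hk2 : a (M' + k') < (2 * j + 1) * Real.pi := by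
    have := Nat.find_min hex (m := k') (by rw [← hk, hk']; exact Nat.lt_succ_self k')
    push Not at this
    exact this
  set m := M' + k' with hm
  have hmk : M' + k = m + 1 := by
    rw [hk', hm]
    omega
  rw [hmk] at hk1
  have hm1 : 1 ≤ m := by
    have : 1 ≤ M' := le_max_right _ _
    omega
  have hinc : a (m + 1) - a m ≤ C / d2y (m + 1) ^ 2 := d2_inc α β hα0.le m hm1
  set y : ℝ := d2y (m + 1) with hy
  have hy1 : 1 ≤ y := d2y_one (by omega)
  have hy0 : 0 < y := by linarith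
  have hyC : 8 * C / d + 1 ≤ y := hM (m + 1) (by
    have : M ≤ M' := (le_max_left _ _).trans (le_max_left _ _)
    omega)
  set r : ℝ := a (m + 1) - (2 * j + 1) * Real.pi with hr
  have hr0 : 0 ≤ r := by linarith
  have hr1 : r ≤ d / 8 / y := by
    have h1 : r ≤ C / y ^ 2 := by linarith
    refine h1.trans ?_
    rw [div_le_div_iff₀ (by positivity) hy0]
    have h2 : 8 * C ≤ d * y := by
      have h3 : 8 * C / d ≤ y := by linarith
      rw [div_le_iff₀ hd] at h3
      linarith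
    nlinarith
  set δ : ℝ := 3 / 4 * d / y + r with hδ
  have hδ0 : 3 / 4 * d / y ≤ δ := by linarith
  have hδ1 : δ ≤ d / y := by
    have h1 : d / y = 3 / 4 * d / y + d / 8 / y + d / 8 / y := by ring
    have h2 : 0 ≤ d / 8 / y := by positivity
    linarith
  have hdy : d / y < 1 := by
    rw [div_lt_one hy0]
    linarith
  have hδpos : 0 < δ := by
    have : 0 < 3 / 4 * d / y := by positivity
    linarith
  refine ⟨6 * (m + 1), ?_, ⟨3 * (m + 1), by ring⟩, ?_⟩
  · have : n₀ ≤ M' := (le_max_right _ _).trans (le_max_left _ _)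
    change n₀ ≤ 6 * (m + 1)
    omega
  have hpow : ((6 * (m + 1) : ℕ) : ℝ) ^ (-(1 / 3) : ℝ) = y⁻¹ := d2y_neg
  have hpow2 : ((6 * (m + 1) : ℕ) : ℝ) ^ (1 / 3 : ℝ) = y := rfl
  have hthet : thet κ (6 * (m + 1)) + ν * y⁻¹ =
      δ + Real.pi + ((j + 2 * (m + 1) : ℕ) : ℝ) * (2 * Real.pi) := by
    have h1 : a (m + 1) = α * y + β / y := rfl
    have h2 : r = α * y + β / y - (2 * j + 1) * Real.pi := by rw [hr, h1]
    unfold thet
    rw [hpow, hpow2, hδ, h2, hβ, hα]
    push_cast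
    field_simp
    ring
  have hDD : DD κ (ν : ℂ) (6 * (m + 1)) = 2 * Real.sin (δ / 2) := by
    unfold DD
    rw [hpow]
    have h1 : Complex.I * ((thet κ (6 * (m + 1)) : ℂ) + (ν : ℂ) * ((y⁻¹ : ℝ) : ℂ)) =
        Complex.I * (δ : ℂ) + Real.pi * Complex.I +
          ((j + 2 * (m + 1) : ℕ) : ℂ) * (2 * Real.pi * Complex.I) := by
      have h2 : ((thet κ (6 * (m + 1)) : ℂ) + (ν : ℂ) * ((y⁻¹ : ℝ) : ℂ)) =
          ((δ + Real.pi + ((j + 2 * (m + 1) : ℕ) : ℝ) * (2 * Real.pi) : ℝ) : ℂ) := by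
        rw [← hthet]
        push_cast
        ring
      rw [h2]
      push_cast
      ring
    rw [h1, Complex.exp_add, Complex.exp_add, Complex.exp_nat_mul_two_pi_mul_I, mul_one,
      Complex.exp_pi_mul_I]
    have h3 : (1 : ℂ) + Complex.exp (Complex.I * (δ : ℂ)) * -1 =
        -(Complex.exp (Complex.I * (δ : ℂ)) - 1) := by ring
    rw [h3, norm_neg, Complex.norm_exp_I_mul_ofReal_sub_one, Real.norm_eq_abs, abs_of_nonneg]
    have : 0 ≤ Real.sin (δ / 2) := by
      refine Real.sin_nonneg_of_nonneg_of_le_pi (by linarith) ?_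
      have := Real.pi_gt_three
      linarith
    linarith
  rw [hDD, hpow]
  have hsin1 : Real.sin (δ / 2) < δ / 2 := Real.sin_lt (by linarith)
  have hsin2 : δ / 2 - (δ / 2) ^ 3 / 6 < Real.sin (δ / 2) :=
    Real.sin_gt_sub_cube (by linarith)
  have hcube : (δ / 2) ^ 3 ≤ δ / 2 := by
    have h1 : 0 ≤ δ / 2 := by linarith
    have h2 : δ / 2 ≤ 1 := by linarith
    calc (δ / 2) ^ 3 ≤ (δ / 2) ^ 1 := pow_le_pow_of_le_one h1 h2 (by norm_num)
      _ = δ / 2 := pow_one _
  constructor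
  · have h1 : 3 / 4 * δ ≤ 2 * Real.sin (δ / 2) := by linarith
    refine le_trans ?_ h1
    have h2 : d / 2 * y⁻¹ ≤ 3 / 4 * (3 / 4 * d / y) := by
      have h3 : 3 / 4 * (3 / 4 * d / y) - d / 2 * y⁻¹ = 1 / 16 * (d * y⁻¹) := by
        field_simp
        ring
      have h4 : 0 ≤ d * y⁻¹ := by positivity
      linarith
    linarith
  · have h1 : d * y⁻¹ = d / y := by rw [div_eq_mul_inv]
    rw [h1]
    linarith

end HillRoots
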