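import Pool.Agent.Lib.MP_e63cf8_mp.H.StmW

/-! # Piece D3: comparison of the two cancelling factors -/

open Polynomial Filter Topology MeasureTheory Asymptotics

namespace HillRoots

private lemma D3_exp (z : ℂ) (hz : ‖z‖ ≤ 1 / 2) :
    ‖z‖ / 2 ≤ ‖1 - Complex.exp z‖ ∧ ‖1 - Complex.exp z‖ ≤ 2 * ‖z‖ ∧ ‖Complex.exp z‖ ≤ 2 := by
  have h1 := Complex.norm_exp_sub_one_sub_id_le (x := z) (by linarith)
  have h0 := norm_nonneg z
  have h2 : ‖z‖ ^ 2 ≤ ‖z‖ / 2 := by nlinarith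
  have h3 : ‖z‖ ≤ ‖1 - Complex.exp z‖ + ‖Complex.exp z - 1 - z‖ := by
    have e : z = -(1 - Complex.exp z) - (Complex.exp z - 1 - z) := by ring
    calc ‖z‖ = ‖-(1 - Complex.exp z) - (Complex.exp z - 1 - z)‖ := by rw [← e]
      _ ≤ ‖-(1 - Complex.exp z)‖ + ‖Complex.exp z - 1 - z‖ := norm_sub_le _ _
      _ = _ := by rw [norm_neg]
  have h4 : ‖1 - Complex.exp z‖ ≤ ‖Complex.exp z - 1 - z‖ + ‖z‖ := by
    have e : 1 - Complex.exp z = -((Complex.exp z - 1 - z) + z) := by ring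
    rw [e, norm_neg]
    exact norm_add_le _ _
  have h5 : ‖Complex.exp z‖ ≤ 1 + ‖1 - Complex.exp z‖ := by
    have e : Complex.exp z = 1 - (1 - Complex.exp z) := by ring
    calc ‖Complex.exp z‖ = ‖1 - (1 - Complex.exp z)‖ := by rw [← e]
      _ ≤ ‖(1 : ℂ)‖ + ‖1 - Complex.exp z‖ := norm_sub_le _ _
      _ = _ := by rw [norm_one]
  refine ⟨by linarith, by linarith, by linarith⟩

theorem p_D3 : S_D3 := by
  intro κ ν ν' hν
  have hd : 0 < ‖ν' - ν‖ := norm_pos_iff.2 (sub_ne_zero.2 (Ne.symm hν))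
  refine ⟨‖ν' - ν‖ / 8, ‖ν' - ν‖ / 4, 3 * ‖ν' - ν‖, by positivity, by positivity, by positivity, ?_⟩
  have ht : Tendsto (fun n : ℕ => ‖ν' - ν‖ * (n : ℝ) ^ (-(1 / 3) : ℝ)) atTop (𝓝 0) := by
    have h1 : Tendsto (fun n : ℕ => (n : ℝ) ^ (-(1 / 3) : ℝ)) atTop (𝓝 0) :=
      (tendsto_rpow_neg_atTop (by norm_num : (0 : ℝ) < 1 / 3)).comp tendsto_natCast_atTop_atTop
    simpa using h1.const_mul ‖ν' - ν‖
  have hev := ht.eventually (eventually_le_nhds (show (0 : ℝ) < 1 / 2 by norm_num))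
  filter_upwards [hev] with n hn hD
  unfold DD at hD ⊢
  set x : ℝ := (n : ℝ) ^ (-(1 / 3) : ℝ) with hx
  have hx0 : 0 ≤ x := by rw [hx]; positivity
  set z : ℂ := Complex.I * ((ν' - ν) * (x : ℂ)) with hz
  have hz1 : ‖z‖ = ‖ν' - ν‖ * x := by
    rw [hz, norm_mul, norm_mul, Complex.norm_I, one_mul, Complex.norm_real, Real.norm_eq_abs,
      abs_of_nonneg hx0]
  obtain ⟨h1, h2, h3⟩ := D3_exp z (by rw [hz1]; exact hn)
  rw [hz1] at h1 h2
  set e : ℂ := Complex.exp (Complex.I * ((thet κ n : ℂ) + ν * (x : ℂ))) with he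
  have e1 : Complex.exp (Complex.I * ((thet κ n : ℂ) + ν' * (x : ℂ))) = e * Complex.exp z := by
    rw [he, hz, ← Complex.exp_add]
    congr 1
    ring
  rw [e1]
  have h4 : ‖(1 + e) * Complex.exp z‖ ≤ ‖ν' - ν‖ / 8 * x * 2 := by
    rw [norm_mul]
    exact mul_le_mul hD h3 (norm_nonneg _) (by positivity)
  constructor
  · have e2 : 1 - Complex.exp z = (1 + e * Complex.exp z) - (1 + e) * Complex.exp z := by ring
    have h5 : ‖1 - Complex.exp z‖ ≤ ‖1 + e * Complex.exp z‖ + ‖(1 + e) * Complex.exp z‖ := by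
      rw [e2]
      exact norm_sub_le _ _
    linarith
  · have e2 : 1 + e * Complex.exp z = (1 - Complex.exp z) + (1 + e) * Complex.exp z := by ring
    have h5 : ‖1 + e * Complex.exp z‖ ≤ ‖1 - Complex.exp z‖ + ‖(1 + e) * Complex.exp z‖ := by
      rw [e2]
      exact norm_add_le _ _
    have h6 : 0 ≤ ‖ν' - ν‖ * x := by positivity
    linarith

end HillRoots
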