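import Pool.Agent.Lib.MP_e63cf8_mp.H.StmH

/-!
# Hill operators: the exceptional parameters (piece E0)
-/

open Polynomial Filter Topology MeasureTheory Asymptotics

namespace HillRoots

private theorem e0_repr (P : ℂ[X]) (h0 : P.coeff 0 = 0) (hd : P.natDegree = 2) :
    P = C (P.coeff 2) * X ^ 2 + C (P.coeff 1) * X := by
  have h := P.as_sum_range_C_mul_X_pow
  rw [hd] at h
  simp only [Finset.sum_range_succ, Finset.sum_range_zero, h0, map_zero, zero_mul, zero_add,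
    pow_one] at h
  rw [add_comm]
  exact h

private theorem e0_coeff2 (a b : ℂ) : (C a * X ^ 2 + C b * X : ℂ[X]).coeff 2 = a := by
  simp

private theorem e0_coeff1 (a b : ℂ) : (C a * X ^ 2 + C b * X : ℂ[X]).coeff 1 = b := by
  simp [coeff_X_pow]

private theorem e0_coeff0 (a b : ℂ) : (C a * X ^ 2 + C b * X : ℂ[X]).coeff 0 = 0 := by
  simp

private theorem e0_deg (a b : ℂ) (ha : a ≠ 0) : (C a * X ^ 2 + C b * X : ℂ[X]).natDegree = 2 := by
  compute_degree!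

private theorem e0_one (P : ℂ[X]) (h0 : P.coeff 0 = 0) (hd : P.natDegree = 2)
    (hl : ∃ l : ℤ, P.coeff 1 ^ 2 = -4 * (2 * (l : ℂ) + 1) ^ 2 * P.coeff 2) :
    ∃ (α : ℂ) (m : ℤ), ExcAt P α m := by
  obtain ⟨l, hl⟩ := hl
  have ha2 : P.coeff 2 ≠ 0 := by
    intro h
    have hne : P ≠ 0 := by
      intro h'
      rw [h'] at hd
      simp at hd
    have h2 : P.leadingCoeff ≠ 0 := leadingCoeff_ne_zero.mpr hne
    rw [leadingCoeff, hd] at h2
    exact h2 h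
  obtain ⟨α, hα⟩ := IsAlgClosed.exists_pow_nat_eq (-(P.coeff 2) / 4) (n := 2) (by norm_num)
  have hα0 : α ≠ 0 := by
    intro h
    rw [h] at hα
    apply ha2
    have h4 : -(P.coeff 2) / 4 = 0 := by
      rw [← hα]; norm_num
    have h5 : P.coeff 2 = -4 * (-(P.coeff 2) / 4) := by ring
    rw [h5, h4]; ring
  have hc2 : P.coeff 2 = -4 * α ^ 2 := by
    rw [hα]; ring
  have hsq : P.coeff 1 ^ 2 = (4 * (2 * (l : ℂ) + 1) * α) ^ 2 := by
    rw [hl, hc2]; ring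
  have hrep := e0_repr P h0 hd
  rcases sq_eq_sq_iff_eq_or_eq_neg.mp hsq with h | h
  · refine ⟨α, -l, hα0, ?_⟩
    have e1 : P.coeff 1 = 4 * α - 8 * α * ((-l : ℤ) : ℂ) := by
      rw [h]; push_cast; ring
    rw [← e1, ← hc2]
    exact hrep
  · refine ⟨-α, -l, neg_ne_zero.mpr hα0, ?_⟩
    have e1 : P.coeff 1 = 4 * (-α) - 8 * (-α) * ((-l : ℤ) : ℂ) := by
      rw [h]; push_cast; ring
    have e2 : P.coeff 2 = -4 * (-α) ^ 2 := by
      rw [hc2]; ring
    rw [← e1, ← e2]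
    exact hrep

theorem p_E0 : S_E0 := by
  refine ⟨e0_one, ?_, ?_⟩
  · rintro P α m ⟨hα, hP⟩
    refine ⟨neg_ne_zero.mpr hα, ?_⟩
    have e1 : 4 * (-α) - 8 * (-α) * ((1 - m : ℤ) : ℂ) = 4 * α - 8 * α * (m : ℂ) := by
      push_cast; ring
    have e2 : -4 * (-α) ^ 2 = -4 * α ^ 2 := by ring
    rw [e1, e2]
    exact hP
  · rintro P α m ⟨hα, hP⟩
    have ha : -4 * α ^ 2 ≠ 0 := mul_ne_zero (by norm_num) (pow_ne_zero 2 hα)
    subst hP
    refine ⟨e0_coeff0 _ _, e0_deg _ _ ha, -m, ?_⟩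
    rw [e0_coeff1, e0_coeff2]
    push_cast
    ring

end HillRoots
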