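import Pool.Agent.Lib.MP_e63cf8_mp.H.StmH

/-! [HL EG1] the exponential shift operators `eS a` form a one-parameter group. -/

namespace HillRoots

open Finset

private theorem eg1_coef (a b : ℂ) (n : ℕ) :
    ∑ p ∈ Finset.HasAntidiagonal.antidiagonal n, a ^ p.1 / (p.1.factorial : ℂ) * (b ^ p.2 / (p.2.factorial : ℂ))
      = (a + b) ^ n / (n.factorial : ℂ) := by
  rw [(Commute.all a b).add_pow', Finset.sum_div]
  refine Finset.sum_congr rfl fun p hp => ?_
  have h1 : p.1 + p.2 = n := Finset.HasAntidiagonal.mem_antidiagonal.1 hp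
  have hn : (n.factorial : ℂ) ≠ 0 := by exact_mod_cast n.factorial_ne_zero
  have h2 : (p.1.factorial : ℂ) ≠ 0 := by exact_mod_cast p.1.factorial_ne_zero
  have h3 : (p.2.factorial : ℂ) ≠ 0 := by exact_mod_cast p.2.factorial_ne_zero
  have h4 : (n.choose p.1 : ℂ) * (p.1.factorial : ℂ) * (p.2.factorial : ℂ) = (n.factorial : ℂ) := by
    have h5 := Nat.add_choose_mul_factorial_mul_factorial p.2 p.1
    rw [Nat.add_comm, h1, mul_assoc, Nat.mul_comm (p.2.factorial), ← mul_assoc] at h5
    exact_mod_cast h5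
  rw [nsmul_eq_mul, div_mul_div_comm, div_eq_div_iff (mul_ne_zero h2 h3) hn, ← h4]
  ring

private theorem eg1_summ (a b : ℂ) (x : ℤ → ℂ) (C : ℝ) (hC : ∀ s, ‖x s‖ ≤ C) (s : ℤ) :
    Summable fun p : ℕ × ℕ => a ^ p.1 / (p.1.factorial : ℂ) * (b ^ p.2 / (p.2.factorial : ℂ) * x (s - p.1 - p.2)) := by
  have ha := Real.summable_pow_div_factorial ‖a‖
  have hb := Real.summable_pow_div_factorial ‖b‖
  have hab : Summable fun p : ℕ × ℕ => ‖a‖ ^ p.1 / (p.1.factorial : ℝ) * (‖b‖ ^ p.2 / (p.2.factorial : ℝ)) :=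
    ha.mul_of_nonneg hb (fun n => by positivity) (fun n => by positivity)
  refine Summable.of_norm_bounded (hab.mul_right C) fun p => ?_
  rw [norm_mul, norm_mul, norm_div, norm_div, norm_pow, norm_pow, Complex.norm_natCast, Complex.norm_natCast,
    mul_assoc]
  refine mul_le_mul_of_nonneg_left ?_ (by positivity)
  exact mul_le_mul_of_nonneg_left (hC _) (by positivity)

theorem p_EG1 : S_EG1 := by
  refine ⟨?_, ?_, ?_⟩
  · rintro a b x ⟨C, hC⟩
    funext s
    have hs := eg1_summ a b x C hC s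
    set F : ℕ × ℕ → ℂ := fun p => a ^ p.1 / (p.1.factorial : ℂ) * (b ^ p.2 / (p.2.factorial : ℂ) * x (s - p.1 - p.2)) with hF
    have h1 : eS a (eS b x) s = ∑' p : ℕ × ℕ, F p := by
      rw [hs.tsum_prod]
      unfold eS
      refine tsum_congr fun m => ?_
      rw [← tsum_mul_left]
    have h2 : ∑' p : ℕ × ℕ, F p = ∑' n : ℕ, ∑ p ∈ Finset.HasAntidiagonal.antidiagonal n, F p := by
      conv_rhs => congr; ext; rw [← Finset.sum_finset_coe, ← tsum_fintype (L := .unconditional _)]
      rw [← Finset.HasAntidiagonal.sigmaAntidiagonalEquivProd.tsum_eq (F : ℕ × ℕ → ℂ)]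
      exact (Finset.HasAntidiagonal.sigmaAntidiagonalEquivProd.summable_iff.2 hs).tsum_sigma'
        (fun n => (hasSum_fintype _).summable)
    rw [h1, h2]
    unfold eS
    refine tsum_congr fun n => ?_
    rw [← eg1_coef, Finset.sum_mul]
    refine Finset.sum_congr rfl fun p hp => ?_
    have h3 : p.1 + p.2 = n := Finset.HasAntidiagonal.mem_antidiagonal.1 hp
    have h4 : s - (p.1 : ℤ) - (p.2 : ℤ) = s - (n : ℤ) := by
      rw [← h3]; push_cast; ring
    rw [hF]
    simp only [h4]
    ring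
  · intro x
    funext s
    unfold eS
    rw [tsum_eq_single 0]
    · simp
    · intro m hm
      simp [hm]
  · intro a
    funext s
    unfold eS
    simp

end HillRoots
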