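import Pool.Agent.Lib.MP_e63cf8_mp.H.StmH

/-!
# MP_e63cf8_mp, piece EG2: bounds for the gauge transform
-/

set_option autoImplicit false

open Polynomial Filter Topology MeasureTheory Asymptotics

namespace HillRoots

private theorem EG2_hasSum (r : ℝ) : HasSum (fun m : ℕ => r ^ m / (m.factorial : ℝ)) (Real.exp r) := by
  have h := NormedSpace.expSeries_div_hasSum_exp (r : ℝ)
  rw [← Real.exp_eq_exp_ℝ] at h
  exact h

private theorem EG2_norm (a : ℂ) (m : ℕ) :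
    ‖a ^ m / (m.factorial : ℂ)‖ = ‖a‖ ^ m / (m.factorial : ℝ) := by
  rw [norm_div, norm_pow, Complex.norm_natCast]

private theorem EG2_one (a : ℂ) (x : ℤ → ℂ) (C : ℝ) (hx : ∀ s, ‖x s‖ ≤ C) (s : ℤ) :
    Summable (fun m : ℕ => a ^ m / (m.factorial : ℂ) * x (s - m)) ∧
      ‖eS a x s‖ ≤ Real.exp ‖a‖ * C := by
  have h1 := (EG2_hasSum ‖a‖).mul_right C
  have h2 : ∀ m : ℕ, ‖a ^ m / (m.factorial : ℂ) * x (s - m)‖ ≤
      ‖a‖ ^ m / (m.factorial : ℝ) * C := by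
    intro m
    rw [norm_mul, EG2_norm]
    exact mul_le_mul_of_nonneg_left (hx _) (by positivity)
  exact ⟨Summable.of_norm_bounded h1.summable h2, tsum_of_norm_bounded h1 h2⟩

private theorem EG2_pow (p m : ℕ) :
    ((1 : ℝ) + m) ^ p ≤ (p.factorial : ℝ) * Real.exp 1 * Real.exp 1 ^ m := by
  have h0 : (0 : ℝ) ≤ 1 + m := by positivity
  have h1 := Real.pow_div_factorial_le_exp (x := (1 : ℝ) + m) h0 p
  have h2 : (0 : ℝ) < (p.factorial : ℝ) := by exact_mod_cast p.factorial_pos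
  rw [div_le_iff₀ h2] at h1
  have h3 : Real.exp ((1 : ℝ) + m) = Real.exp 1 * Real.exp 1 ^ m := by
    rw [Real.exp_add, ← Real.exp_nat_mul, mul_one]
  rw [h3] at h1
  refine h1.trans (le_of_eq ?_)
  ring

private theorem EG2_summ (r : ℝ) (hr : 0 ≤ r) (p : ℕ) :
    Summable (fun m : ℕ => r ^ m / (m.factorial : ℝ) * ((1 : ℝ) + m) ^ p) := by
  have h1 := ((Real.summable_pow_div_factorial (r * Real.exp 1)).mul_left
    ((p.factorial : ℝ) * Real.exp 1))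
  refine Summable.of_nonneg_of_le (fun m => by positivity) (fun m => ?_) h1
  have h2 : 0 ≤ r ^ m / (m.factorial : ℝ) := by positivity
  refine (mul_le_mul_of_nonneg_left (EG2_pow p m) h2).trans (le_of_eq ?_)
  rw [mul_pow]
  ring

private theorem EG2_bdd {x : ℤ → ℂ} (hx : Rap x) : ∃ C : ℝ, ∀ s, ‖x s‖ ≤ C := by
  obtain ⟨C, hC⟩ := hx 0
  refine ⟨C, fun s => ?_⟩
  have := hC s
  rwa [pow_zero, mul_one] at this

private theorem EG2_rap (a : ℂ) (x : ℤ → ℂ) (hx : Rap x) : Rap (eS a x) := by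
  intro p
  obtain ⟨C, hC⟩ := hx p
  obtain ⟨B, hB⟩ := EG2_bdd hx
  have hsum := EG2_summ ‖a‖ (norm_nonneg a) p
  refine ⟨(∑' m : ℕ, ‖a‖ ^ m / (m.factorial : ℝ) * ((1 : ℝ) + m) ^ p) * C, fun s => ?_⟩
  have hw : (0 : ℝ) ≤ (1 + |(s : ℝ)|) ^ p := by positivity
  have h2 : ∀ m : ℕ, ‖(((1 + |(s : ℝ)|) ^ p : ℝ) : ℂ) * (a ^ m / (m.factorial : ℂ) * x (s - m))‖ ≤
      ‖a‖ ^ m / (m.factorial : ℝ) * ((1 : ℝ) + m) ^ p * C := by
    intro m
    rw [norm_mul, norm_mul, EG2_norm, Complex.norm_real, Real.norm_eq_abs, abs_of_nonneg hw]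
    have h3 : 1 + |(s : ℝ)| ≤ (1 + |(((s - m : ℤ)) : ℝ)|) * (1 + m) := by
      have h4 : |(s : ℝ)| ≤ |(((s - m : ℤ)) : ℝ)| + m := by
        have h5 : (s : ℝ) = (((s - m : ℤ)) : ℝ) + m := by
          push_cast
          ring
        calc |(s : ℝ)| = |(((s - m : ℤ)) : ℝ) + m| := by rw [← h5]
          _ ≤ |(((s - m : ℤ)) : ℝ)| + |(m : ℝ)| := abs_add_le _ _
          _ = |(((s - m : ℤ)) : ℝ)| + m := by rw [Nat.abs_cast]
      have h6 : (0 : ℝ) ≤ |(((s - m : ℤ)) : ℝ)| := abs_nonneg _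
      have h7 : (0 : ℝ) ≤ (m : ℝ) := Nat.cast_nonneg m
      nlinarith [mul_nonneg h6 h7]
    have h8 : (1 + |(s : ℝ)|) ^ p ≤ (1 + |(((s - m : ℤ)) : ℝ)|) ^ p * (1 + m) ^ p := by
      rw [← mul_pow]
      exact pow_le_pow_left₀ (by positivity) h3 p
    have h9 := hC (s - m)
    have h10 : 0 ≤ ‖a‖ ^ m / (m.factorial : ℝ) := by positivity
    have h11 : (1 + |(s : ℝ)|) ^ p * ‖x (s - m)‖ ≤ ((1 : ℝ) + m) ^ p * C := by
      calc (1 + |(s : ℝ)|) ^ p * ‖x (s - m)‖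
          ≤ ((1 + |(((s - m : ℤ)) : ℝ)|) ^ p * (1 + m) ^ p) * ‖x (s - m)‖ :=
            mul_le_mul_of_nonneg_right h8 (norm_nonneg _)
        _ = (1 + (m : ℝ)) ^ p * (‖x (s - m)‖ * (1 + |(((s - m : ℤ)) : ℝ)|) ^ p) := by ring
        _ ≤ (1 + (m : ℝ)) ^ p * C := mul_le_mul_of_nonneg_left h9 (by positivity)
    calc (1 + |(s : ℝ)|) ^ p * (‖a‖ ^ m / (m.factorial : ℝ) * ‖x (s - m)‖)
        = ‖a‖ ^ m / (m.factorial : ℝ) * ((1 + |(s : ℝ)|) ^ p * ‖x (s - m)‖) := by ring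
      _ ≤ ‖a‖ ^ m / (m.factorial : ℝ) * (((1 : ℝ) + m) ^ p * C) :=
          mul_le_mul_of_nonneg_left h11 h10
      _ = ‖a‖ ^ m / (m.factorial : ℝ) * ((1 : ℝ) + m) ^ p * C := by ring
  have h4 := tsum_of_norm_bounded (hsum.hasSum.mul_right C) h2
  rw [tsum_mul_left, norm_mul, Complex.norm_real, Real.norm_eq_abs, abs_of_nonneg hw] at h4
  rw [mul_comm]
  exact h4

private theorem EG2_lin (a : ℂ) (x y : ℤ → ℂ) (t u : ℂ) (hx : ∃ C : ℝ, ∀ s, ‖x s‖ ≤ C)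
    (hy : ∃ C : ℝ, ∀ s, ‖y s‖ ≤ C) :
    eS a (fun s => t * x s + u * y s) = fun s => t * eS a x s + u * eS a y s := by
  obtain ⟨C, hC⟩ := hx
  obtain ⟨D, hD⟩ := hy
  funext s
  have h1 := (EG2_one a x C hC s).1
  have h2 := (EG2_one a y D hD s).1
  unfold eS
  rw [← tsum_mul_left, ← tsum_mul_left, ← (h1.mul_left t).tsum_add (h2.mul_left u)]
  refine tsum_congr fun m => ?_
  ring

private theorem EG2_mem (x : ℤ → ℂ) (hx : Rap x) : Memℓp x 2 := by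
  obtain ⟨C, hC⟩ := hx 1
  have hs : Summable (fun s : ℤ => C ^ 2 * (1 / (s : ℝ) ^ 2) + (if s = 0 then C ^ 2 else 0)) := by
    refine Summable.add ?_ ?_
    · exact (Real.summable_one_div_int_pow.2 (by norm_num)).mul_left _
    · exact (hasSum_ite_eq (0 : ℤ) (C ^ 2)).summable
  apply memℓp_gen
  refine Summable.of_nonneg_of_le (fun s => by positivity) (fun s => ?_) hs
  have h2 : ‖x s‖ ^ (2 : ENNReal).toReal = ‖x s‖ ^ 2 := by
    simp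
  rw [h2]
  have h1 := hC s
  rw [pow_one] at h1
  have h3 : 0 ≤ ‖x s‖ := norm_nonneg _
  have h4 : 0 ≤ |(s : ℝ)| := abs_nonneg _
  have hC2 : 0 ≤ C ^ 2 := sq_nonneg C
  by_cases h0 : s = 0
  · rw [if_pos h0]
    have h5 : ‖x s‖ ≤ C := by
      nlinarith [mul_nonneg h3 h4]
    have h6 : ‖x s‖ ^ 2 ≤ C ^ 2 := pow_le_pow_left₀ h3 h5 2
    have h7 : 0 ≤ C ^ 2 * (1 / (s : ℝ) ^ 2) := by positivity
    linarith
  · rw [if_neg h0, add_zero]
    have h5 : ‖x s‖ * |(s : ℝ)| ≤ C := by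
      nlinarith
    have h6 : (‖x s‖ * |(s : ℝ)|) ^ 2 ≤ C ^ 2 := pow_le_pow_left₀ (mul_nonneg h3 h4) h5 2
    rw [mul_pow, sq_abs] at h6
    have h7 : (0 : ℝ) < (s : ℝ) ^ 2 := by
      have : (s : ℝ) ≠ 0 := by exact_mod_cast h0
      positivity
    rw [mul_one_div, le_div_iff₀ h7]
    exact h6

theorem p_EG2 : S_EG2 :=
  ⟨EG2_one, EG2_rap, EG2_lin, EG2_mem⟩

end HillRoots
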