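import Pool.Agent.Lib.MP_e63cf8_mp.H.StmH

/-!
# MP_e63cf8_mp, piece [EG3]
-/

set_option autoImplicit false

open Polynomial Filter Topology MeasureTheory Asymptotics

namespace HillRoots

private lemma eg3_bdd {x : ℤ → ℂ} (h : Rap x) : ∃ C : ℝ, ∀ s, ‖x s‖ ≤ C := by
  obtain ⟨C, hC⟩ := h 0
  exact ⟨C, fun s => by simpa using hC s⟩

private lemma eg3_add {x y : ℤ → ℂ} (hx : Rap x) (hy : Rap y) : Rap (fun s => x s + y s) := by
  intro p
  obtain ⟨C, hC⟩ := hx p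
  obtain ⟨D, hD⟩ := hy p
  refine ⟨C + D, fun s => ?_⟩
  have h1 : ‖x s + y s‖ * (1 + |(s : ℝ)|) ^ p ≤ (‖x s‖ + ‖y s‖) * (1 + |(s : ℝ)|) ^ p :=
    mul_le_mul_of_nonneg_right (norm_add_le _ _) (by positivity)
  rw [add_mul] at h1
  exact h1.trans (add_le_add (hC s) (hD s))

private lemma eg3_smul {x : ℤ → ℂ} (c : ℂ) (hx : Rap x) : Rap (fun s => c * x s) := by
  intro p
  obtain ⟨C, hC⟩ := hx p
  refine ⟨‖c‖ * C, fun s => ?_⟩
  rw [norm_mul, mul_assoc]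
  exact mul_le_mul_of_nonneg_left (hC s) (norm_nonneg _)

private lemma eg3_shift {x : ℤ → ℂ} (j : ℤ) (hx : Rap x) : Rap (fun s => x (s + j)) := by
  intro p
  obtain ⟨C, hC⟩ := hx p
  refine ⟨C * (1 + |(j : ℝ)|) ^ p, fun s => ?_⟩
  have h1 : (1 + |(s : ℝ)|) ≤ (1 + |((s + j : ℤ) : ℝ)|) * (1 + |(j : ℝ)|) := by
    have h2 : |(s : ℝ)| ≤ |((s + j : ℤ) : ℝ)| + |(j : ℝ)| := by
      have h3 : (s : ℝ) = ((s + j : ℤ) : ℝ) - j := by push_cast; ring
      rw [h3]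
      exact abs_sub _ _
    nlinarith [abs_nonneg ((s + j : ℤ) : ℝ), abs_nonneg (j : ℝ)]
  have h2 : (1 + |(s : ℝ)|) ^ p ≤ (1 + |((s + j : ℤ) : ℝ)|) ^ p * (1 + |(j : ℝ)|) ^ p := by
    rw [← mul_pow]
    exact pow_le_pow_left₀ (by positivity) h1 p
  calc ‖x (s + j)‖ * (1 + |(s : ℝ)|) ^ p
      ≤ ‖x (s + j)‖ * ((1 + |((s + j : ℤ) : ℝ)|) ^ p * (1 + |(j : ℝ)|) ^ p) :=
        mul_le_mul_of_nonneg_left h2 (norm_nonneg _)
    _ = (‖x (s + j)‖ * (1 + |((s + j : ℤ) : ℝ)|) ^ p) * (1 + |(j : ℝ)|) ^ p := by ring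
    _ ≤ C * (1 + |(j : ℝ)|) ^ p := mul_le_mul_of_nonneg_right (hC _) (by positivity)

private lemma eg3_shift' {x : ℤ → ℂ} (j : ℤ) (hx : Rap x) : Rap (fun s => x (s - j)) := by
  simpa [sub_eq_add_neg] using eg3_shift (-j) hx

private lemma eg3_mul {x : ℤ → ℂ} (hx : Rap x) : Rap (fun s => (s : ℂ) * x s) := by
  intro p
  obtain ⟨C, hC⟩ := hx (p + 1)
  refine ⟨C, fun s => le_trans ?_ (hC s)⟩
  have h1 : ‖(s : ℂ) * x s‖ = |(s : ℝ)| * ‖x s‖ := by
    rw [norm_mul, Complex.norm_intCast]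
  rw [h1, pow_succ]
  have h2 : |(s : ℝ)| * ‖x s‖ * (1 + |(s : ℝ)|) ^ p ≤
      (1 + |(s : ℝ)|) * ‖x s‖ * (1 + |(s : ℝ)|) ^ p :=
    mul_le_mul_of_nonneg_right
      (mul_le_mul_of_nonneg_right (by linarith) (norm_nonneg _)) (by positivity)
  calc |(s : ℝ)| * ‖x s‖ * (1 + |(s : ℝ)|) ^ p
      ≤ (1 + |(s : ℝ)|) * ‖x s‖ * (1 + |(s : ℝ)|) ^ p := h2
    _ = ‖x s‖ * ((1 + |(s : ℝ)|) ^ p * (1 + |(s : ℝ)|)) := by ring

private lemma eg3_zero : Rap (fun _ => (0 : ℂ)) := fun _ => ⟨0, fun _ => by simp⟩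

private lemma eg3_sum (S : Finset ℕ) (f : ℕ → ℤ → ℂ) (hf : ∀ j, Rap (f j)) :
    Rap (fun s => ∑ j ∈ S, f j s) := by
  classical
  induction S using Finset.induction_on with
  | empty => simpa using eg3_zero
  | insert a S ha ih =>
    have h := eg3_add (hf a) ih
    have e : (fun s => ∑ j ∈ insert a S, f j s) = fun s => f a s + ∑ j ∈ S, f j s := by
      funext s
      rw [Finset.sum_insert ha]
    rw [e]
    exact h

private lemma eg3_top {P Q : ℂ[X]} {x : ℤ → ℂ} (hx : Rap x) : Rap (Top P Q x) := by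
  have h1 : Rap (fun s : ℤ => 4 * ((s : ℂ) * ((s : ℂ) * x s))) :=
    eg3_smul 4 (eg3_mul (eg3_mul hx))
  have h2 : Rap (fun s => ∑ j ∈ Finset.range (P.natDegree + 1), P.coeff j * x (s - j)) :=
    eg3_sum _ (fun j s => P.coeff j * x (s - j)) fun j => eg3_smul _ (eg3_shift' _ hx)
  have h3 : Rap (fun s => ∑ j ∈ Finset.range (Q.natDegree + 1), Q.coeff j * x (s + j)) :=
    eg3_sum _ (fun j s => Q.coeff j * x (s + j)) fun j => eg3_smul _ (eg3_shift _ hx)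
  have h4 := eg3_add h1 (eg3_add h2 h3)
  have e : Top P Q x = fun s : ℤ => 4 * ((s : ℂ) * ((s : ℂ) * x s)) +
      (∑ j ∈ Finset.range (P.natDegree + 1), P.coeff j * x (s - j) +
        ∑ j ∈ Finset.range (Q.natDegree + 1), Q.coeff j * x (s + j)) := by
    funext s
    simp only [Top, Vop]
    ring
  rw [e]
  exact h4

private lemma eg3_tgeq (Q : ℂ[X]) (a : ℂ) (m : ℤ) (x : ℤ → ℂ) : Tg Q a m x = fun s : ℤ =>
    4 * ((s : ℂ) * ((s : ℂ) * x s)) + (8 * a * (((s - 1 : ℤ) : ℂ) * x (s - 1)) +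
      (8 * a * (1 - m) * x (s - 1) +
        ∑ j ∈ Finset.range (Q.natDegree + 1), Q.coeff j * x (s + j))) := by
  funext s
  simp only [Tg]
  push_cast
  ring

private lemma eg3_tg {Q : ℂ[X]} {a : ℂ} {m : ℤ} {x : ℤ → ℂ} (hx : Rap x) : Rap (Tg Q a m x) := by
  rw [eg3_tgeq]
  exact eg3_add (eg3_smul 4 (eg3_mul (eg3_mul hx)))
    (eg3_add (eg3_smul _ (eg3_shift' 1 (eg3_mul hx)))
      (eg3_add (eg3_smul _ (eg3_shift' 1 hx))
        (eg3_sum _ (fun j s => Q.coeff j * x (s + j)) fun j => eg3_smul _ (eg3_shift _ hx))))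

private lemma eg3_eadd (h2 : S_EG2) (a : ℂ) {x y : ℤ → ℂ} (hx : Rap x) (hy : Rap y) (s : ℤ) :
    eS a (fun s => x s + y s) s = eS a x s + eS a y s := by
  have h := congrFun (h2.2.2.1 a x y 1 1 (eg3_bdd hx) (eg3_bdd hy)) s
  simpa using h

private lemma eg3_esmul (a c : ℂ) (x : ℤ → ℂ) (s : ℤ) :
    eS a (fun s => c * x s) s = c * eS a x s := by
  unfold eS
  rw [← tsum_mul_left]
  exact tsum_congr fun m => by ring

private lemma eg3_eshift (a : ℂ) (x : ℤ → ℂ) (j s : ℤ) :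
    eS a (fun s => x (s + j)) s = eS a x (s + j) := by
  unfold eS
  refine tsum_congr fun m => ?_
  have : s - (m : ℤ) + j = s + j - m := by ring
  simp only [this]

private lemma eg3_eshift' (a : ℂ) (x : ℤ → ℂ) (j s : ℤ) :
    eS a (fun s => x (s - j)) s = eS a x (s - j) := by
  have h := eg3_eshift a x (-j) s
  simpa [sub_eq_add_neg] using h

private lemma eg3_ezero (a : ℂ) (s : ℤ) : eS a (fun _ => (0 : ℂ)) s = 0 := by
  unfold eS
  simp

private lemma eg3_esum (h2 : S_EG2) (a : ℂ) (S : Finset ℕ) (f : ℕ → ℤ → ℂ)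
    (hf : ∀ j, Rap (f j)) (s : ℤ) :
    eS a (fun s => ∑ j ∈ S, f j s) s = ∑ j ∈ S, eS a (f j) s := by
  classical
  induction S using Finset.induction_on with
  | empty => simpa using eg3_ezero a s
  | insert i S hi ih =>
    have e : (fun s => ∑ j ∈ insert i S, f j s) = fun s => f i s + ∑ j ∈ S, f j s := by
      funext s
      rw [Finset.sum_insert hi]
    rw [e, eg3_eadd h2 a (hf i) (eg3_sum S f hf), ih, Finset.sum_insert hi]

private lemma eg3_key (h2 : S_EG2) (a : ℂ) {x : ℤ → ℂ} (hx : Rap x) (s : ℤ) :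
    (s : ℂ) * eS a x s = eS a (fun s => (s : ℂ) * x s) s + a * eS a x (s - 1) := by
  obtain ⟨C, hC⟩ := eg3_bdd hx
  obtain ⟨D, hD⟩ := eg3_bdd (eg3_mul hx)
  have s1 := (h2.1 a x C hC s).1
  have s2 := (h2.1 a (fun s => (s : ℂ) * x s) D hD s).1
  have s3 : Summable fun m : ℕ => (m : ℂ) * (a ^ m / (m.factorial : ℂ) * x (s - m)) := by
    have h := (s1.mul_left (s : ℂ)).sub s2
    refine h.congr fun m => ?_
    push_cast
    ring
  have e1 : (s : ℂ) * eS a x s = ∑' m : ℕ, (a ^ m / (m.factorial : ℂ) *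
      (((s - m : ℤ) : ℂ) * x (s - m)) + (m : ℂ) * (a ^ m / (m.factorial : ℂ) * x (s - m))) := by
    unfold eS
    rw [← tsum_mul_left]
    refine tsum_congr fun m => ?_
    push_cast
    ring
  rw [e1, s2.tsum_add s3]
  congr 1
  rw [s3.tsum_eq_zero_add]
  simp only [Nat.cast_zero, zero_mul, zero_add]
  unfold eS
  rw [← tsum_mul_left]
  refine tsum_congr fun m => ?_
  have h4 : ((m + 1 : ℕ) : ℂ) ≠ 0 := Nat.cast_ne_zero.2 (Nat.succ_ne_zero m)
  have h5 : (m.factorial : ℂ) ≠ 0 := Nat.cast_ne_zero.2 (Nat.factorial_ne_zero m)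
  have h6 : s - ((m + 1 : ℕ) : ℤ) = s - 1 - m := by push_cast; ring
  rw [h6, Nat.factorial_succ, Nat.cast_mul, pow_succ]
  field_simp

private lemma eg3_P {P : ℂ[X]} {a : ℂ} {m : ℤ} (h : ExcAt P a m) (y : ℤ → ℂ) (s : ℤ) :
    ∑ j ∈ Finset.range (P.natDegree + 1), P.coeff j * y (s - j) =
      (4 * a - 8 * a * m) * y (s - 1) + -4 * a ^ 2 * y (s - 2) := by
  obtain ⟨ha, hP⟩ := h
  have hd : P.natDegree = 2 := by
    rw [hP]
    have h4 : (-4 * a ^ 2 : ℂ) ≠ 0 := by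
      have := pow_ne_zero 2 ha
      simpa using this
    have := natDegree_quadratic (a := (-4 * a ^ 2 : ℂ)) (b := 4 * a - 8 * a * m) (c := 0) h4
    simpa using this
  rw [hd, Finset.sum_range_succ, Finset.sum_range_succ, Finset.sum_range_succ,
    Finset.sum_range_zero]
  have c0 : P.coeff 0 = 0 := by
    rw [hP, coeff_add, coeff_C_mul, coeff_C_mul, coeff_X_pow, coeff_X]
    norm_num
  have c1 : P.coeff 1 = 4 * a - 8 * a * m := by
    rw [hP, coeff_add, coeff_C_mul, coeff_C_mul, coeff_X_pow, coeff_X]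
    norm_num
  have c2 : P.coeff 2 = -4 * a ^ 2 := by
    rw [hP, coeff_add, coeff_C_mul, coeff_C_mul, coeff_X_pow, coeff_X]
    norm_num
  rw [c0, c1, c2]
  push_cast
  ring

private lemma eg3_one (h2 : S_EG2) (P Q : ℂ[X]) (a : ℂ) (m : ℤ) (x : ℤ → ℂ)
    (h : ExcAt P a m) (hx : Rap x) : Top P Q (eS a x) = eS a (Tg Q a m x) := by
  funext s
  have hx1 := eg3_mul hx
  have hx2 := eg3_mul hx1
  have r1 : Rap fun s => 4 * ((s : ℂ) * ((s : ℂ) * x s)) := eg3_smul 4 hx2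
  have r2 : Rap fun s => 8 * a * (((s - 1 : ℤ) : ℂ) * x (s - 1)) :=
    eg3_smul _ (eg3_shift' 1 hx1)
  have r3 : Rap fun s => 8 * a * (1 - m) * x (s - 1) := eg3_smul _ (eg3_shift' 1 hx)
  have r4 : Rap fun s => ∑ j ∈ Finset.range (Q.natDegree + 1), Q.coeff j * x (s + j) :=
    eg3_sum _ (fun j s => Q.coeff j * x (s + j)) fun j => eg3_smul _ (eg3_shift _ hx)
  have e4 : eS a (fun s => ∑ j ∈ Finset.range (Q.natDegree + 1), Q.coeff j * x (s + j)) s =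
      ∑ j ∈ Finset.range (Q.natDegree + 1), Q.coeff j * eS a x (s + j) := by
    rw [eg3_esum h2 a _ (fun j s => Q.coeff j * x (s + j))
      (fun j => eg3_smul _ (eg3_shift _ hx))]
    refine Finset.sum_congr rfl fun j _ => ?_
    rw [eg3_esmul, eg3_eshift]
  have e1 : eS a (fun s => 4 * ((s : ℂ) * ((s : ℂ) * x s))) s =
      4 * eS a (fun s => (s : ℂ) * ((s : ℂ) * x s)) s := eg3_esmul _ _ _ _
  have e2 : eS a (fun s => 8 * a * (((s - 1 : ℤ) : ℂ) * x (s - 1))) s =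
      8 * a * eS a (fun s => (s : ℂ) * x s) (s - 1) := by
    rw [← eg3_eshift' a (fun s => (s : ℂ) * x s) 1 s]
    exact eg3_esmul a (8 * a) (fun s => ((s - 1 : ℤ) : ℂ) * x (s - 1)) s
  have e3 : eS a (fun s => 8 * a * (1 - m) * x (s - 1)) s =
      8 * a * (1 - m) * eS a x (s - 1) := by
    rw [← eg3_eshift' a x 1 s]
    exact eg3_esmul a (8 * a * (1 - m)) (fun s => x (s - 1)) s
  rw [eg3_tgeq, eg3_eadd h2 a r1 (eg3_add r2 (eg3_add r3 r4)),
    eg3_eadd h2 a r2 (eg3_add r3 r4), eg3_eadd h2 a r3 r4, e1, e2, e3, e4]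
  simp only [Top, Vop]
  rw [eg3_P h (eS a x) s]
  have k1 := eg3_key h2 a hx s
  have k2 := eg3_key h2 a hx1 s
  have k3 := eg3_key h2 a hx (s - 1)
  have hs : s - 1 - 1 = s - 2 := by ring
  rw [hs] at k3
  push_cast at k3
  linear_combination (4 * (s : ℂ)) * k1 + 4 * k2 + 4 * a * k3

theorem p_EG3 (h1 : S_EG1) (h2 : S_EG2) : S_EG3 := by
  refine ⟨fun P Q a m x h hx => eg3_one h2 P Q a m x h hx, fun P Q a m x h hx => ?_,
    fun P Q a m x hx => ⟨eg3_top hx, eg3_tg hx⟩⟩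
  have hx' : Rap (eS (-a) x) := h2.2.1 (-a) x hx
  have e1 := eg3_one h2 P Q a m (eS (-a) x) h hx'
  have e2 : eS a (eS (-a) x) = x := by
    rw [h1.1 a (-a) x (eg3_bdd hx), add_neg_cancel, h1.2.1]
  rw [e2] at e1
  rw [e1, h1.1 (-a) a _ (eg3_bdd (eg3_tg hx')), neg_add_cancel, h1.2.1]

end HillRoots
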