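import Pool.Agent.Lib.MP_e63cf8_mp.H.StmH
import Pool.Agent.Lib.MP_e63cf8_mp.P.B0
import Pool.Agent.Lib.MP_e63cf8_mp.P.B1

/-! # Piece EK1: transposition of the compressed operator -/

open Polynomial Filter Topology MeasureTheory Asymptotics

namespace HillRoots

/-! ### compact multiplication operators -/

private lemma EK1_fin (g : ℤ → ℂ) (N : ℕ)
    (hN : ∀ i : ℤ, (N : ℤ) < |i| → g i = 0) (G : Hs →L[ℂ] Hs)
    (hG : ∀ (x : Hs) (i : ℤ), (G x : ℤ → ℂ) i = g i * x i) : IsCompactOperator G := by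
  have e : G = ∑ i ∈ Finset.Icc (-(N : ℤ)) N,
      (ContinuousLinearMap.toSpanSingleton ℂ (g i • ee i)) ∘L
        (lp.evalCLM ℂ (fun _ : ℤ => ℂ) 2 i) := by
    ext x t
    rw [hG]
    have e1 : (∑ i ∈ Finset.Icc (-(N : ℤ)) N,
      (ContinuousLinearMap.toSpanSingleton ℂ (g i • ee i)) ∘L
        (lp.evalCLM ℂ (fun _ : ℤ => ℂ) 2 i)) x =
        ∑ i ∈ Finset.Icc (-(N : ℤ)) N, (x i) • (g i • ee i) := by
      rw [sum_apply]
      refine Finset.sum_congr rfl fun i _ => ?_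
      rfl
    rw [e1, lp.coeFn_sum, Finset.sum_apply]
    have e2 : ∀ i ∈ Finset.Icc (-(N : ℤ)) N, ((x i) • (g i • ee i) : Hs) t =
        if t = i then g i * x i else 0 := by
      intro i _
      rw [lp.coeFn_smul, Pi.smul_apply, lp.coeFn_smul, Pi.smul_apply, p_B1_ee]
      split_ifs <;> simp [mul_comm]
    rw [Finset.sum_congr rfl e2, Finset.sum_ite_eq]
    split_ifs with h
    · rfl
    · have h1 : (N : ℤ) < |t| := by
        rw [Finset.mem_Icc, ← abs_le] at h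
        exact not_le.1 h
      rw [hN t h1, zero_mul]
  rw [e]
  have h1 : ∀ s : Finset ℤ, IsCompactOperator (∑ i ∈ s,
      (ContinuousLinearMap.toSpanSingleton ℂ (g i • ee i)) ∘L
        (lp.evalCLM ℂ (fun _ : ℤ => ℂ) 2 i) : Hs →L[ℂ] Hs) := by
    intro s
    classical
    induction s using Finset.induction_on with
    | empty => simpa using (isCompactOperator_zero : IsCompactOperator (0 : Hs → Hs))
    | insert a s ha ih =>
      rw [Finset.sum_insert ha]
      have h2 : IsCompactOperator ((ContinuousLinearMap.toSpanSingleton ℂ (g a • ee a)) ∘L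
        (lp.evalCLM ℂ (fun _ : ℤ => ℂ) 2 a) : Hs →L[ℂ] Hs) := by
        have h3 : IsCompactOperator (ContinuousLinearMap.toSpanSingleton ℂ (g a • ee a)) :=
          isCompactOperator_of_locallyCompactSpace_rng _
        exact h3.comp_clm _
      exact h2.add ih
  exact h1 _

private lemma EK1_cpt (g : ℤ → ℂ) (C : ℝ) (hg : ∀ i : ℤ, ‖g i‖ * (1 + |(i : ℝ)|) ≤ C) :
    ∃ G : Hs →L[ℂ] Hs, (∀ (x : Hs) (i : ℤ), (G x : ℤ → ℂ) i = g i * x i) ∧
      IsCompactOperator G := by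
  have hC : 0 ≤ C := le_trans (by positivity) (hg 0)
  have hg' : ∀ i, ‖g i‖ ≤ C := by
    intro i
    refine le_trans ?_ (hg i)
    nlinarith [norm_nonneg (g i), abs_nonneg (i : ℝ), mul_nonneg (norm_nonneg (g i)) (abs_nonneg (i : ℝ))]
  obtain ⟨G, hG, -⟩ := p_B1_mul g C hC hg'
  refine ⟨G, hG, ?_⟩
  have hT : ∀ N : ℕ, ∃ T : Hs →L[ℂ] Hs, IsCompactOperator T ∧ ‖T - G‖ ≤ C * (1 / ((N : ℝ) + 1)) := by
    intro N
    have h1 : ∀ i, ‖(fun i : ℤ => if (N : ℤ) < |i| then (0 : ℂ) else g i) i‖ ≤ C := by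
      intro i
      dsimp only
      split_ifs
      · simpa using hC
      · exact hg' i
    obtain ⟨T, hT, -⟩ := p_B1_mul (fun i : ℤ => if (N : ℤ) < |i| then (0 : ℂ) else g i) C hC h1
    have hC' : 0 ≤ C * (1 / ((N : ℝ) + 1)) := by positivity
    have h2 : ∀ i, ‖(fun i : ℤ => (if (N : ℤ) < |i| then (0 : ℂ) else g i) - g i) i‖ ≤
        C * (1 / ((N : ℝ) + 1)) := by
      intro i
      dsimp only
      split_ifs with h
      · rw [zero_sub, norm_neg, mul_one_div, le_div_iff₀ (by positivity)]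
        refine le_trans ?_ (hg i)
        have h3 : (N : ℝ) ≤ |(i : ℝ)| := by
          have : ((N : ℤ) : ℝ) ≤ ((|i| : ℤ) : ℝ) := by exact_mod_cast h.le
          simpa using this
        have h4 : (N : ℝ) + 1 ≤ 1 + |(i : ℝ)| := by linarith
        exact mul_le_mul_of_nonneg_left h4 (norm_nonneg _)
      · simpa using hC'
    obtain ⟨D, hD, hD'⟩ := p_B1_mul _ _ hC' h2
    refine ⟨T, ?_, ?_⟩
    · refine EK1_fin _ N ?_ T hT
      intro i hi
      simp [hi]
    · have e : T - G = D := by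
        ext x i
        rw [hD, sub_apply, lp.coeFn_sub, Pi.sub_apply, hT, hG]
        ring
      rw [e]
      exact D.opNorm_le_bound hC' hD'
  choose T hT1 hT2 using hT
  refine isCompactOperator_of_tendsto (l := atTop) (F := T) ?_ (Filter.Eventually.of_forall hT1)
  rw [tendsto_iff_norm_sub_tendsto_zero]
  refine squeeze_zero (fun _ => norm_nonneg _) hT2 ?_
  have := (tendsto_one_div_add_atTop_nhds_zero_nat (𝕜 := ℝ)).const_mul C
  simpa using this

/-! ### decay -/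

private def EKDec (p : ℕ) (y : ℤ → ℂ) : Prop := ∃ C : ℝ, ∀ s : ℤ, ‖y s‖ * (1 + |(s : ℝ)|) ^ p ≤ C

private lemma EK1_shift {p : ℕ} {y : ℤ → ℂ} (j : ℤ) (hy : EKDec p y) :
    EKDec p (fun s => y (s - j)) := by
  obtain ⟨C, hC⟩ := hy
  refine ⟨C * (1 + |(j : ℝ)|) ^ p, fun s => ?_⟩
  have h0 : 0 ≤ |((s - j : ℤ) : ℝ)| * |(j : ℝ)| := by positivity
  have h1 : (1 + |(s : ℝ)|) ≤ (1 + |((s - j : ℤ) : ℝ)|) * (1 + |(j : ℝ)|) := by
    have h2 : |(s : ℝ)| ≤ |((s - j : ℤ) : ℝ)| + |(j : ℝ)| := by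
      have h3 : (s : ℝ) = ((s - j : ℤ) : ℝ) + (j : ℝ) := by push_cast; ring
      calc |(s : ℝ)| = |((s - j : ℤ) : ℝ) + (j : ℝ)| := by rw [← h3]
        _ ≤ _ := abs_add_le _ _
    nlinarith [h0, h2]
  calc ‖y (s - j)‖ * (1 + |(s : ℝ)|) ^ p
      ≤ ‖y (s - j)‖ * ((1 + |((s - j : ℤ) : ℝ)|) * (1 + |(j : ℝ)|)) ^ p := by gcongr
    _ = ‖y (s - j)‖ * (1 + |((s - j : ℤ) : ℝ)|) ^ p * (1 + |(j : ℝ)|) ^ p := by
        rw [mul_pow]; ring
    _ ≤ C * (1 + |(j : ℝ)|) ^ p := by gcongr; exact hC (s - j)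

private lemma EK1_add {p : ℕ} {y z : ℤ → ℂ} (hy : EKDec p y) (hz : EKDec p z) :
    EKDec p (fun s => y s + z s) := by
  obtain ⟨C, hC⟩ := hy
  obtain ⟨D, hD⟩ := hz
  refine ⟨C + D, fun s => ?_⟩
  have h1 : 0 ≤ (1 + |(s : ℝ)|) ^ p := by positivity
  have h2 := mul_le_mul_of_nonneg_right (norm_add_le (y s) (z s)) h1
  have h3 := hC s
  have h4 := hD s
  rw [add_mul] at h2
  linarith

private lemma EK1_smul {p : ℕ} {y : ℤ → ℂ} (a : ℂ) (hy : EKDec p y) :
    EKDec p (fun s => a * y s) := by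
  obtain ⟨C, hC⟩ := hy
  refine ⟨‖a‖ * C, fun s => ?_⟩
  rw [norm_mul, mul_assoc]
  exact mul_le_mul_of_nonneg_left (hC s) (norm_nonneg a)

private lemma EK1_sum {p : ℕ} (F : ℕ → ℤ → ℂ) (h : ∀ j, EKDec p (F j)) (n : ℕ) :
    EKDec p (fun s => ∑ j ∈ Finset.range n, F j s) := by
  induction n with
  | zero => exact ⟨0, fun s => by simp⟩
  | succ n ih =>
    have h1 := EK1_add ih (h n)
    simpa only [Finset.sum_range_succ] using h1

private lemma EK1_int (s : ℤ) : ‖(s : ℂ)‖ = |(s : ℝ)| := by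
  have h5 : (s : ℂ) = ((s : ℝ) : ℂ) := by push_cast; rfl
  rw [h5, Complex.norm_real, Real.norm_eq_abs]

/-- one step of the bootstrap -/
private lemma EK1_step {p : ℕ} (Q : ℂ[X]) (a : ℂ) (m : ℤ) (μ : ℂ) {y : ℤ → ℂ}
    (hy : EKDec p y) (h : ∀ s, Tg Q a m y s = μ * y s) : EKDec (p + 1) y := by
  obtain ⟨A, hA⟩ := EK1_shift 1 hy
  obtain ⟨B, hB⟩ := EK1_sum (fun j s => Q.coeff j * y (s + j)) (fun j => by
    have h3 := EK1_smul (Q.coeff j) (EK1_shift (-(j : ℤ)) hy)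
    simpa only [sub_neg_eq_add] using h3) (Q.natDegree + 1)
  obtain ⟨C, hC⟩ := hy
  refine ⟨2 * C + (‖μ‖ * C + 8 * ‖a‖ * (1 + |(m : ℝ)|) * A + B), fun s => ?_⟩
  have hs0 : 0 ≤ |(s : ℝ)| := abs_nonneg _
  have hm0 : 0 ≤ |(m : ℝ)| := abs_nonneg _
  set w : ℝ := (1 + |(s : ℝ)|) ^ p with hw
  have hw0 : 0 ≤ w := by rw [hw]; positivity
  have h7 := hA s
  have h8 := hB s
  have h9 := hC s
  dsimp only at h7 h8
  rw [← hw] at h7 h8 h9
  set S : ℂ := ∑ j ∈ Finset.range (Q.natDegree + 1), Q.coeff j * y (s + j) with hS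
  have hA0 : 0 ≤ A := le_trans (by positivity) h7
  have hB0 : 0 ≤ B := le_trans (by positivity) h8
  have hC0 : 0 ≤ C := le_trans (by positivity) h9
  have h1 : (4 * (s : ℂ) ^ 2) * y s = μ * y s - 8 * a * ((s : ℂ) - m) * y (s - 1) - S := by
    have := h s
    rw [Tg, ← hS] at this
    linear_combination this
  have h2 : 4 * (s : ℝ) ^ 2 * ‖y s‖ ≤ ‖μ‖ * ‖y s‖ +
      8 * ‖a‖ * ((1 + |(s : ℝ)|) * (1 + |(m : ℝ)|)) * ‖y (s - 1)‖ + ‖S‖ := by
    have h3 : ‖(4 * (s : ℂ) ^ 2) * y s‖ = 4 * (s : ℝ) ^ 2 * ‖y s‖ := by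
      rw [norm_mul, norm_mul, norm_pow, EK1_int, sq_abs]; simp
    have h4 : ‖(s : ℂ) - m‖ ≤ (1 + |(s : ℝ)|) * (1 + |(m : ℝ)|) := by
      refine (norm_sub_le _ _).trans ?_
      rw [EK1_int, EK1_int]
      nlinarith [mul_nonneg hs0 hm0]
    rw [← h3, h1]
    calc ‖μ * y s - 8 * a * ((s : ℂ) - m) * y (s - 1) - S‖
        ≤ ‖μ * y s - 8 * a * ((s : ℂ) - m) * y (s - 1)‖ + ‖S‖ := norm_sub_le _ _
      _ ≤ ‖μ * y s‖ + ‖8 * a * ((s : ℂ) - m) * y (s - 1)‖ + ‖S‖ := by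
          gcongr
          exact norm_sub_le _ _
      _ = ‖μ‖ * ‖y s‖ + 8 * ‖a‖ * ‖(s : ℂ) - m‖ * ‖y (s - 1)‖ + ‖S‖ := by
          rw [norm_mul, norm_mul, norm_mul, norm_mul]
          simp
      _ ≤ _ := by gcongr
  have h5 : (1 + |(s : ℝ)|) ^ 2 ≤ 2 + 4 * (s : ℝ) ^ 2 := by
    have h6 := sq_abs (s : ℝ)
    nlinarith [sq_nonneg (1 - |(s : ℝ)|), h6, sq_nonneg (s : ℝ)]
  have h10 : ‖μ‖ * (‖y s‖ * w) ≤ ‖μ‖ * C := mul_le_mul_of_nonneg_left h9 (norm_nonneg μ)
  set D : ℝ := 2 * C + (‖μ‖ * C + 8 * ‖a‖ * (1 + |(m : ℝ)|) * A + B) with hD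
  have h11 : ‖y s‖ * w * (1 + |(s : ℝ)|) ^ 2 ≤ D * (1 + |(s : ℝ)|) := by
    calc ‖y s‖ * w * (1 + |(s : ℝ)|) ^ 2 ≤ ‖y s‖ * w * (2 + 4 * (s : ℝ) ^ 2) := by gcongr
      _ = 2 * (‖y s‖ * w) + (4 * (s : ℝ) ^ 2 * ‖y s‖) * w := by ring
      _ ≤ 2 * (‖y s‖ * w) + (‖μ‖ * ‖y s‖ +
          8 * ‖a‖ * ((1 + |(s : ℝ)|) * (1 + |(m : ℝ)|)) * ‖y (s - 1)‖ + ‖S‖) * w := by gcongr
      _ = 2 * (‖y s‖ * w) + (‖μ‖ * (‖y s‖ * w) +
          8 * ‖a‖ * ((1 + |(s : ℝ)|) * (1 + |(m : ℝ)|)) * (‖y (s - 1)‖ * w) + ‖S‖ * w) := by ring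
      _ ≤ 2 * C + (‖μ‖ * C +
          8 * ‖a‖ * ((1 + |(s : ℝ)|) * (1 + |(m : ℝ)|)) * A + B) := by gcongr
      _ ≤ D * (1 + |(s : ℝ)|) := by
          rw [hD]
          have t1 : 0 ≤ C * |(s : ℝ)| := by positivity
          have t2 : 0 ≤ ‖μ‖ * C * |(s : ℝ)| := by positivity
          have t3 : 0 ≤ B * |(s : ℝ)| := by positivity
          nlinarith [t1, t2, t3]
  have h12 : 0 < 1 + |(s : ℝ)| := by positivity
  have h13 : (‖y s‖ * (1 + |(s : ℝ)|) ^ (p + 1)) * (1 + |(s : ℝ)|) ≤ D * (1 + |(s : ℝ)|) := by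
    refine le_trans (le_of_eq ?_) h11
    rw [hw]; ring
  exact le_of_mul_le_mul_right h13 h12

private lemma EK1_rap (Q : ℂ[X]) (a : ℂ) (m : ℤ) (μ : ℂ) {y : ℤ → ℂ}
    (hy : EKDec 0 y) (h : ∀ s, Tg Q a m y s = μ * y s) : Rap y := by
  intro p
  induction p with
  | zero => exact hy
  | succ p ih => exact EK1_step Q a m μ ih h

private lemma EK1_summable {F : ℤ → ℂ} (hF : Rap F) : Summable (fun s => ‖F s‖) := by
  obtain ⟨C, hC⟩ := hF 2
  have h0 : Summable (fun n : ℕ => 1 / (1 + (n : ℝ)) ^ 2) := by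
    have h := (summable_nat_add_iff 1).2 (Real.summable_one_div_nat_pow.2 (by norm_num : 1 < 2))
    refine h.congr fun n => ?_
    push_cast
    rw [add_comm]
  have h1 : Summable (fun j : ℤ => 1 / (1 + |(j : ℝ)|) ^ 2) := by
    rw [summable_int_iff_summable_nat_and_neg]
    constructor
    · refine h0.congr fun n => ?_
      simp
    · refine h0.congr fun n => ?_
      simp
  refine Summable.of_nonneg_of_le (fun _ => norm_nonneg _) ?_ (h1.mul_left C)
  intro s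
  rw [mul_one_div, le_div_iff₀ (by positivity)]
  exact hC s

/-! ### the main argument -/

/-- `w_s = 4s² + 1` -/
private noncomputable def EKw (s : ℤ) : ℂ := 4 * (s : ℂ) ^ 2 + 1

private lemma EKw_real (s : ℤ) : EKw s = ((4 * (s : ℝ) ^ 2 + 1 : ℝ) : ℂ) := by
  unfold EKw; push_cast; ring

private lemma EKw_norm (s : ℤ) : ‖EKw s‖ = 4 * (s : ℝ) ^ 2 + 1 := by
  rw [EKw_real, Complex.norm_real, Real.norm_eq_abs, abs_of_nonneg (by positivity)]

private lemma EKw_ne (s : ℤ) : EKw s ≠ 0 := by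
  rw [← norm_ne_zero_iff, EKw_norm]
  positivity

private lemma EKw_bound (c : ℤ → ℂ) (D : ℝ) (hD : 0 ≤ D) (hc : ∀ s, ‖c s‖ ≤ D * (1 + |(s : ℝ)|)) (m : ℤ)
    (s : ℤ) : ‖(if m ≤ s then c s / EKw s else 0 : ℂ)‖ * (1 + |(s : ℝ)|) ≤ 2 * D := by
  split_ifs
  · have h6 := sq_abs (s : ℝ)
    have h5 : (1 + |(s : ℝ)|) ^ 2 ≤ 2 * (4 * (s : ℝ) ^ 2 + 1) := by
      nlinarith [sq_nonneg (1 - |(s : ℝ)|), h6, sq_nonneg (s : ℝ)]
    have hp : 0 < 4 * (s : ℝ) ^ 2 + 1 := by positivity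
    rw [norm_div, EKw_norm, div_mul_eq_mul_div, div_le_iff₀ hp]
    calc ‖c s‖ * (1 + |(s : ℝ)|) ≤ D * (1 + |(s : ℝ)|) * (1 + |(s : ℝ)|) := by
          gcongr
          exact hc s
      _ = D * (1 + |(s : ℝ)|) ^ 2 := by ring
      _ ≤ D * (2 * (4 * (s : ℝ) ^ 2 + 1)) := by gcongr
      _ = _ := by ring
  · simpa using hD

private lemma EK1_hasSum (f g : ℤ → ℂ) (hf : Summable (fun s => ‖f s‖)) (B : ℝ) (hg : ∀ s, ‖g s‖ ≤ B)
    (k : ℤ) : ∃ A : ℂ, HasSum (fun t => f t * g (t + k)) A ∧ HasSum (fun s => f (s - k) * g s) A := by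
  have h1 : Summable (fun t => f t * g (t + k)) := by
    refine Summable.of_norm_bounded (hf.mul_right B) fun t => ?_
    rw [norm_mul]
    exact mul_le_mul_of_nonneg_left (hg _) (norm_nonneg _)
  refine ⟨_, h1.hasSum, ?_⟩
  refine ((Equiv.addRight k).hasSum_iff (f := fun s => f (s - k) * g s)).1 ?_
  refine h1.hasSum.congr_fun ?_
  intro t
  simp

theorem p_EK1 : S_EK1 := by
  intro Q a m μ F hF hne hT
  -- the coefficients
  have hc1 : ∀ s : ℤ, ‖-(8 * a * ((s : ℂ) - m))‖ ≤ 8 * ‖a‖ * (1 + |(m : ℝ)|) * (1 + |(s : ℝ)|) := by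
    intro s
    rw [norm_neg, norm_mul, norm_mul]
    have h4 : ‖(s : ℂ) - m‖ ≤ (1 + |(m : ℝ)|) * (1 + |(s : ℝ)|) := by
      refine (norm_sub_le _ _).trans ?_
      rw [EK1_int, EK1_int]
      nlinarith [mul_nonneg (abs_nonneg (s : ℝ)) (abs_nonneg (m : ℝ))]
    have h8 : ‖(8 : ℂ)‖ = 8 := by simp
    rw [h8]
    calc 8 * ‖a‖ * ‖(s : ℂ) - m‖ ≤ 8 * ‖a‖ * ((1 + |(m : ℝ)|) * (1 + |(s : ℝ)|)) := by gcongr
      _ = _ := by ring
  set c1 : ℤ → ℂ := fun s : ℤ => if m ≤ s then (-(8 * a * ((s : ℂ) - m))) / EKw s else 0 with hdc1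
  set cj : ℕ → ℤ → ℂ := fun (j : ℕ) (s : ℤ) => if m ≤ s then (-Q.coeff j) / EKw s else 0 with hdcj
  set c0 : ℤ → ℂ := fun s : ℤ => if m ≤ s then (μ + 1) / EKw s else 0 with hdc0
  have hb1 : ∀ s : ℤ, ‖c1 s‖ * (1 + |(s : ℝ)|) ≤ 2 * (8 * ‖a‖ * (1 + |(m : ℝ)|)) := fun s =>
    EKw_bound (fun s : ℤ => -(8 * a * ((s : ℂ) - m))) _ (by positivity) hc1 m s
  have hbj : ∀ (j : ℕ) (s : ℤ), ‖cj j s‖ * (1 + |(s : ℝ)|) ≤ 2 * ‖Q.coeff j‖ := fun j s =>
    EKw_bound (fun _ : ℤ => -Q.coeff j) _ (norm_nonneg _) (fun s => by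
      rw [norm_neg]
      nlinarith [norm_nonneg (Q.coeff j), mul_nonneg (norm_nonneg (Q.coeff j)) (abs_nonneg (s : ℝ))]) m s
  have hb0 : ∀ s : ℤ, ‖c0 s‖ * (1 + |(s : ℝ)|) ≤ 2 * ‖μ + 1‖ := fun s =>
    EKw_bound (fun _ : ℤ => μ + 1) _ (norm_nonneg _) (fun s => by
      nlinarith [norm_nonneg (μ + 1), mul_nonneg (norm_nonneg (μ + 1)) (abs_nonneg (s : ℝ))]) m s
  have hbb : ∀ (c : ℤ → ℂ) (D : ℝ), (∀ s : ℤ, ‖c s‖ * (1 + |(s : ℝ)|) ≤ D) → ∀ s, ‖c s‖ ≤ D := by
    intro c D h s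
    refine le_trans ?_ (h s)
    nlinarith [norm_nonneg (c s), mul_nonneg (norm_nonneg (c s)) (abs_nonneg (s : ℝ))]
  obtain ⟨G1, hG1, hG1c⟩ := EK1_cpt c1 _ hb1
  have hGj : ∀ j : ℕ, ∃ G : Hs →L[ℂ] Hs, (∀ (x : Hs) (i : ℤ), (G x : ℤ → ℂ) i = cj j i * x i) ∧
      IsCompactOperator G := fun j => EK1_cpt (cj j) _ (hbj j)
  choose G hG hGc using hGj
  obtain ⟨G0, hG0, hG0c⟩ := EK1_cpt c0 _ hb0
  -- the operator
  set K : Hs →L[ℂ] Hs := (p_B0_sh 1) ∘L G1 +
    (∑ j ∈ Finset.range (Q.natDegree + 1), (p_B0_sh (-(j : ℤ))) ∘L G j + G0) with hK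
  have hKc : IsCompactOperator K := by
    have h1 : IsCompactOperator ((p_B0_sh 1) ∘L G1 : Hs →L[ℂ] Hs) := hG1c.clm_comp (p_B0_sh 1)
    have h2 : ∀ n : ℕ, IsCompactOperator
        (∑ j ∈ Finset.range n, (p_B0_sh (-(j : ℤ))) ∘L G j : Hs →L[ℂ] Hs) := by
      intro n
      induction n with
      | zero => simpa using (isCompactOperator_zero : IsCompactOperator (0 : Hs → Hs))
      | succ n ih =>
        rw [Finset.sum_range_succ]
        exact ih.add ((hGc n).clm_comp (p_B0_sh (-(n : ℤ))))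
    exact h1.add ((h2 _).add hG0c)
  have hKa : ∀ (x : Hs) (t : ℤ), (K x : ℤ → ℂ) t = c1 (t + 1) * x (t + 1) +
      (∑ j ∈ Finset.range (Q.natDegree + 1), cj j (t + -(j : ℤ)) * x (t + -(j : ℤ)) + c0 t * x t) := by
    intro x t
    have e : K x = p_B0_sh 1 (G1 x) +
        (∑ j ∈ Finset.range (Q.natDegree + 1), p_B0_sh (-(j : ℤ)) (G j x) + G0 x) := by
      rw [hK]
      simp
    rw [e, lp.coeFn_add, Pi.add_apply, lp.coeFn_add, Pi.add_apply, lp.coeFn_sum, Finset.sum_apply,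
      p_B0_sh_apply, hG1, hG0]
    congr 2
    refine Finset.sum_congr rfl fun j _ => ?_
    rw [p_B0_sh_apply, hG]
  rcases IsCompactOperator.hasEigenvalue_or_mem_resolventSet hKc (one_ne_zero : (1 : ℂ) ≠ 0) with
    hE | hR
  · -- an eigenvector
    obtain ⟨v, hv⟩ := hE.exists_hasEigenvector
    have hv0 : v ≠ 0 := hv.2
    have hv1 : K v = v := by
      have := hv.apply_eq_smul
      simpa using this
    have hv2 : ∀ t : ℤ, (v : ℤ → ℂ) t = c1 (t + 1) * v (t + 1) +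
      (∑ j ∈ Finset.range (Q.natDegree + 1), cj j (t + -(j : ℤ)) * v (t + -(j : ℤ)) + c0 t * v t) := by
      intro t
      rw [← hKa v t, hv1]
    have hv3 : ∀ t : ℤ, t < m → (v : ℤ → ℂ) t = 0 := by
      intro t ht
      rw [hv2 t]
      have h1 : c1 (t + 1) = 0 := by
        rw [hdc1]
        dsimp only
        split_ifs with h
        · have h2 : t + 1 = m := by omega
          rw [h2]; simp
        · rfl
      have h2 : c0 t = 0 := by
        rw [hdc0]
        dsimp only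
        rw [if_neg (by omega)]
      have h3 : ∀ j ∈ Finset.range (Q.natDegree + 1), cj j (t + -(j : ℤ)) * v (t + -(j : ℤ)) = 0 := by
        intro j _
        rw [hdcj]
        dsimp only
        rw [if_neg (by omega), zero_mul]
      rw [h1, h2, Finset.sum_eq_zero h3]
      ring
    set y : ℤ → ℂ := fun s => v s / EKw s with hy
    have hvy : ∀ s, (v : ℤ → ℂ) s = EKw s * y s := by
      intro s
      rw [hy]
      dsimp only
      rw [mul_div_cancel₀ _ (EKw_ne s)]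
    have hy0 : ∀ s, s < m → y s = 0 := by
      intro s hs
      rw [hy]
      dsimp only
      rw [hv3 s hs, zero_div]
    have hy1 : ∀ t : ℤ, EKw t * y t = -(8 * a * (((t + 1 : ℤ) : ℂ) - m)) * y (t + 1) +
        (∑ j ∈ Finset.range (Q.natDegree + 1), (-Q.coeff j) * y (t + -(j : ℤ)) + (μ + 1) * y t) := by
      intro t
      rw [← hvy t, hv2 t]
      have e1 : ∀ (d : ℤ → ℂ) (s : ℤ), (if m ≤ s then d s / EKw s else 0) * v s = d s * y s := by
        intro d s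
        split_ifs with h
        · rw [hy]
          dsimp only
          ring
        · rw [hy0 s (by omega), mul_zero, zero_mul]
      congr 1
      · exact e1 (fun s : ℤ => -(8 * a * ((s : ℂ) - m))) (t + 1)
      · congr 1
        · refine Finset.sum_congr rfl fun j _ => ?_
          exact e1 (fun _ => -Q.coeff j) (t + -(j : ℤ))
        · exact e1 (fun _ => μ + 1) t
    set Z : ℤ → ℂ := fun t => y (-t) with hZ
    have hZ1 : ∀ s, Tg Q (-a) (1 - m) Z s = μ * Z s := by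
      intro t
      have h1 := hy1 (-t)
      rw [Tg, hZ]
      dsimp only
      have e2 : -(t - 1) = -t + 1 := by ring
      have e3 : ∑ j ∈ Finset.range (Q.natDegree + 1), Q.coeff j * y (-(t + (j : ℤ))) =
          -∑ j ∈ Finset.range (Q.natDegree + 1), (-Q.coeff j) * y (-t + -(j : ℤ)) := by
        rw [← Finset.sum_neg_distrib]
        refine Finset.sum_congr rfl fun j _ => ?_
        have e4 : -(t + (j : ℤ)) = -t + -(j : ℤ) := by ring
        rw [e4]
        ring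
      rw [e2, e3]
      unfold EKw at h1
      push_cast at h1 ⊢
      linear_combination h1
    refine ⟨Z, ?_, ?_, ?_, hZ1⟩
    · intro h
      apply hv0
      ext s
      rw [hvy s]
      have := congrFun h (-s)
      rw [hZ] at this
      simp only [neg_neg, Pi.zero_apply] at this
      rw [this]
      simp
    · refine EK1_rap Q (-a) (1 - m) μ ⟨‖v‖, fun s => ?_⟩ hZ1
      rw [pow_zero, mul_one, hZ]
      dsimp only
      rw [hy]
      dsimp only
      rw [norm_div, EKw_norm]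
      have h1 : ‖(v : ℤ → ℂ) (-s)‖ ≤ ‖v‖ := lp.norm_apply_le_norm (by simp) v (-s)
      refine le_trans (div_le_self (norm_nonneg _) ?_) h1
      nlinarith [sq_nonneg (((-s : ℤ) : ℝ))]
    · intro s hs
      rw [hZ]
      exact hy0 (-s) (by omega)
  · -- surjectivity is impossible
    exfalso
    rw [spectrum.mem_resolventSet_iff] at hR
    obtain ⟨U, hU⟩ := hR
    have hsurj : ∀ u : Hs, ∃ v : Hs, v - K v = u := by
      intro u
      refine ⟨(↑U⁻¹ : Hs →L[ℂ] Hs) u, ?_⟩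
      have h1 : ((↑U * ↑U⁻¹ : Hs →L[ℂ] Hs)) u = u := by rw [Units.mul_inv]; rfl
      rw [hU] at h1
      simpa using h1
    set f : ℤ → ℂ := fun s => if m ≤ s then F s else 0 with hf
    have hfR : Rap f := by
      intro p
      obtain ⟨C, hC⟩ := hF p
      refine ⟨C, fun s => ?_⟩
      rw [hf]
      dsimp only
      split_ifs
      · exact hC s
      · have := hC 0
        have h2 : 0 ≤ C := le_trans (by positivity) this
        simpa using h2
    have hfs : Summable (fun s => ‖f s‖) := EK1_summable hfR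
    have hmem : Memℓp (fun s => (starRingEnd ℂ) (f s)) 2 := by
      refine (memℓp_gen_iff p_B0_two).2 ?_
      obtain ⟨C, hC⟩ := hfR 0
      refine Summable.of_nonneg_of_le (fun _ => by positivity) ?_ (hfs.mul_left C)
      intro s
      have h1 := hC s
      rw [pow_zero, mul_one] at h1
      have h2 : ‖(starRingEnd ℂ) (f s)‖ ^ (2 : ENNReal).toReal = ‖f s‖ * ‖f s‖ := by
        rw [RCLike.norm_conj]
        simp [pow_two]
      rw [h2]
      exact mul_le_mul_of_nonneg_right h1 (norm_nonneg _)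
    obtain ⟨v, hv⟩ := hsurj ⟨_, hmem⟩
    have hv1 : ∀ s, (starRingEnd ℂ) (f s) = v s - (K v : ℤ → ℂ) s := by
      intro s
      have h1 : ((v - K v : Hs) : ℤ → ℂ) s = (starRingEnd ℂ) (f s) := by rw [hv]
      rw [← h1, lp.coeFn_sub, Pi.sub_apply]
    have hvb : ∀ s, ‖(v : ℤ → ℂ) s‖ ≤ ‖v‖ := fun s => lp.norm_apply_le_norm (by simp) v s
    have hcb : ∀ (c : ℤ → ℂ) (D : ℝ), (∀ s : ℤ, ‖c s‖ * (1 + |(s : ℝ)|) ≤ D) →
        ∀ s, ‖c s * v s‖ ≤ D * ‖v‖ := by
      intro c D h s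
      have hD : 0 ≤ D := le_trans (by positivity) (h 0)
      rw [norm_mul]
      exact mul_le_mul (hbb c D h s) (hvb s) (norm_nonneg _) hD
    obtain ⟨A1, hA1, hA1'⟩ := EK1_hasSum f (fun s => c1 s * v s) hfs _ (hcb c1 _ hb1) 1
    have hAj : ∀ j : ℕ, ∃ A : ℂ, HasSum (fun t => f t * (cj j (t + -(j : ℤ)) * v (t + -(j : ℤ)))) A ∧
        HasSum (fun s => f (s - -(j : ℤ)) * (cj j s * v s)) A := fun j =>
      EK1_hasSum f (fun s => cj j s * v s) hfs _ (hcb (cj j) _ (hbj j)) (-(j : ℤ))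
    choose A hA hA' using hAj
    obtain ⟨A0, hA0, hA0'⟩ := EK1_hasSum f (fun s => c0 s * v s) hfs _ (hcb c0 _ hb0) 0
    have h1 : HasSum (fun t => f t * (K v : ℤ → ℂ) t)
        (A1 + (∑ j ∈ Finset.range (Q.natDegree + 1), A j + A0)) := by
      refine (hA1.add ((hasSum_sum (fun j _ => hA j)).add hA0)).congr_fun ?_
      intro t
      rw [hKa v t]
      simp only [add_zero, mul_add, Finset.mul_sum]
    have h2 : HasSum (fun t => f t * v t)
        (A1 + (∑ j ∈ Finset.range (Q.natDegree + 1), A j + A0)) := by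
      refine (hA1'.add ((hasSum_sum (fun j _ => hA' j)).add hA0')).congr_fun ?_
      intro s
      dsimp only
      by_cases hs : m ≤ s
      · have e1 : ∀ j : ℕ, f (s - -(j : ℤ)) = F (s + j) := by
          intro j
          rw [hf]
          dsimp only
          rw [if_pos (by omega), sub_neg_eq_add]
        have hw := EKw_ne s
        obtain ⟨r, hr⟩ : ∃ r : ℂ, (v : ℤ → ℂ) s = EKw s * r := ⟨v s / EKw s, by field_simp⟩
        have ec : ∀ d : ℂ, d / EKw s * v s = d * r := by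
          intro d
          rw [hr]
          field_simp
        have e2 : f (s - 1) * (c1 s * v s) = -(8 * a * ((s : ℂ) - m)) * F (s - 1) * r := by
          rw [hdc1]
          dsimp only
          rw [if_pos hs, ec]
          rcases eq_or_lt_of_le hs with h | h
          · rw [← h]; ring
          · rw [hf]
            dsimp only
            rw [if_pos (by omega)]
            ring
        have e3 : ∑ j ∈ Finset.range (Q.natDegree + 1), f (s - -(j : ℤ)) * (cj j s * v s) =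
            -(∑ j ∈ Finset.range (Q.natDegree + 1), Q.coeff j * F (s + j)) * r := by
          rw [← Finset.sum_neg_distrib, Finset.sum_mul]
          refine Finset.sum_congr rfl fun j _ => ?_
          rw [e1 j, hdcj]
          dsimp only
          rw [if_pos hs, ec]
          ring
        have e4 : f (s - 0) * (c0 s * v s) = (μ + 1) * F s * r := by
          rw [sub_zero, hdc0, hf]
          dsimp only
          rw [if_pos hs, if_pos hs, ec]
          ring
        have e5 : f s * v s = (4 * (s : ℂ) ^ 2 + 1) * F s * r := by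
          rw [hr, hf]
          dsimp only
          rw [if_pos hs]
          unfold EKw
          ring
        have e6 := hT s hs
        rw [Tg] at e6
        rw [e2, e3, e4, e5]
        linear_combination r * e6
      · have e0 : f s = 0 := by
          rw [hf]
          dsimp only
          rw [if_neg hs]
        have e1 : c1 s = 0 := by
          rw [hdc1]
          dsimp only
          rw [if_neg hs]
        have e2 : ∀ j, cj j s = 0 := by
          intro j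
          rw [hdcj]
          dsimp only
          rw [if_neg hs]
        have e3 : c0 s = 0 := by
          rw [hdc0]
          dsimp only
          rw [if_neg hs]
        rw [e0, e1, e3]
        simp [e2]
    have h3 := h2.sub h1
    rw [sub_self] at h3
    have h4 : HasSum (fun s => ((‖f s‖ ^ 2 : ℝ) : ℂ)) ((0 : ℝ) : ℂ) := by
      rw [Complex.ofReal_zero]
      refine h3.congr_fun ?_
      intro s
      rw [← mul_sub, ← hv1 s, Complex.mul_conj, Complex.normSq_eq_norm_sq]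
    rw [Complex.hasSum_ofReal] at h4
    have h5 := (hasSum_zero_iff_of_nonneg (fun s => by positivity)).1 h4
    obtain ⟨s, hs, hs'⟩ := hne
    apply hs'
    have h6 := congrFun h5 s
    simp only [Pi.zero_apply] at h6
    have h7 : f s = 0 := by
      rw [← norm_eq_zero]
      exact pow_eq_zero_iff (two_ne_zero) |>.1 h6
    rw [hf] at h7
    dsimp only at h7
    rwa [if_pos hs] at h7

end HillRoots
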