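import Pool.Agent.Lib.MP_e63cf8_mp.H.StmH

/-!
# MP_e63cf8_mp, piece EK10: simple eigenvalues from a nonvanishing off-diagonal entry
-/

open Polynomial Filter Topology MeasureTheory Asymptotics

namespace HillRoots

private theorem EK10_lin (P Q : ℂ[X]) (p q : ℂ) (x y : ℤ → ℂ) (t : ℤ) :
    Vop P Q (fun s => p * x s + q * y s) t = p * Vop P Q x t + q * Vop P Q y t := by
  unfold Vop
  simp only [mul_add, Finset.mul_sum, Finset.sum_add_distrib]
  have h : ∀ (R : ℂ[X]) (a : ℂ) (f : ℕ → ℂ) (n : ℕ),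
      ∑ j ∈ Finset.range n, R.coeff j * (a * f j) = ∑ j ∈ Finset.range n, a * (R.coeff j * f j) :=
    fun R a f n => Finset.sum_congr rfl fun j _ => by ring
  rw [h P p (fun j => x (t - j)), h P q (fun j => y (t - j)), h Q p (fun j => x (t + j)),
    h Q q (fun j => y (t + j))]
  ring

private theorem EK10_shift (P Q : ℂ[X]) (x : ℤ → ℂ) (k t : ℤ) :
    Vop P Q (fun s => x (s - k)) t = Vop P Q x (t - k) := by
  unfold Vop
  congr 1
  · refine Finset.sum_congr rfl fun j _ => ?_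
    show P.coeff j * x (t - (j : ℤ) - k) = _
    rw [show t - (j : ℤ) - k = t - k - j by ring]
  · refine Finset.sum_congr rfl fun j _ => ?_
    show Q.coeff j * x (t + (j : ℤ) - k) = _
    rw [show t + (j : ℤ) - k = t - k + j by ring]

private theorem EK10_refl (P Q : ℂ[X]) (x : ℤ → ℂ) (n t : ℤ) :
    Vop P Q (fun s => x (n - s)) t = Vop Q P x (n - t) := by
  unfold Vop
  rw [add_comm]
  congr 1
  · refine Finset.sum_congr rfl fun j _ => ?_
    show Q.coeff j * x (n - (t + (j : ℤ))) = _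
    rw [show n - (t + (j : ℤ)) = n - t - j by ring]
  · refine Finset.sum_congr rfl fun j _ => ?_
    show P.coeff j * x (n - (t - (j : ℤ))) = _
    rw [show n - (t - (j : ℤ)) = n - t + j by ring]

private theorem EK10_main (P Q : ℂ[X]) (n : ℕ) (z : ℂ) (hF2 : S_F2)
    (s1 : Sol P Q n z 1 0 0 (C0 P Q n z)) (s2 : Sol Q P n z 1 0 0 (C0 Q P n z))
    (u1 : ∀ x : ℤ → ℂ, Sol P Q n z 0 0 0 x → x = 0) (e3 : alpha P Q n z = alpha Q P n z)
    (c : ℤ → ℂ) (hb : ∃ C : ℝ, ∀ s, ‖c s‖ ≤ C)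
    (heq : ∀ s : ℤ, ((En n s : ℂ) + z) * c s = Vop P Q c s) :
    (z - alpha P Q n z) * c 0 = beta Q P n z * c n ∧
      (z - alpha P Q n z) * c n = beta P Q n z * c 0 := by
  have s3 := hF2 Q P n z 1 0 0 _ s2
  set y : ℤ → ℂ := fun s => c 0 * C0 P Q n z s + c n * C0 Q P n z (n - s) with hy
  have hV : ∀ t, Vop P Q y t = c 0 * Vop P Q (C0 P Q n z) t +
      c n * Vop Q P (C0 Q P n z) (n - t) := by
    intro t
    rw [hy, EK10_lin P Q (c 0) (c n) (C0 P Q n z) (fun s => C0 Q P n z (n - s)) t, EK10_refl]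
  have hd : Sol P Q n z 0 0 0 (fun s => 1 * c s + (-1) * y s) := by
    refine ⟨?_, ?_, ?_, ?_⟩
    · obtain ⟨B, hB⟩ := hb
      obtain ⟨B1, hB1⟩ := s1.bdd
      obtain ⟨B2, hB2⟩ := s3.bdd
      refine ⟨B + (‖c 0‖ * B1 + ‖c n‖ * B2), fun s => ?_⟩
      have h1 : ‖y s‖ ≤ ‖c 0‖ * B1 + ‖c n‖ * B2 := by
        simp only [hy]
        refine (norm_add_le _ _).trans ?_
        rw [norm_mul, norm_mul]
        exact add_le_add (mul_le_mul_of_nonneg_left (hB1 s) (norm_nonneg _))
          (mul_le_mul_of_nonneg_left (hB2 s) (norm_nonneg _))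
      have h2 : 1 * c s + (-1) * y s = c s - y s := by ring
      rw [h2]
      exact (norm_sub_le _ _).trans (add_le_add (hB s) h1)
    · have h0 := s3.zero
      simp only [hy]
      rw [s1.zero, h0]
      ring
    · have h0 := s3.top
      simp only [hy]
      rw [s1.top, h0]
      ring
    · intro s hs0 hsn
      have a1 := s1.eqn s hs0 hsn
      have a2 := s3.eqn s hs0 hsn
      rw [EK10_refl] at a2
      rw [EK10_lin, hV]
      simp only [hy]
      simp only [Pi.zero_apply, add_zero] at a1 a2 ⊢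
      linear_combination heq s - c 0 * a1 - c n * a2
  have h0 := u1 _ hd
  have hcy : c = y := by
    funext s
    have := congrFun h0 s
    simp only [Pi.zero_apply] at this
    linear_combination this
  have hVc : ∀ t, Vop P Q c t = c 0 * Vop P Q (C0 P Q n z) t +
      c n * Vop Q P (C0 Q P n z) (n - t) := by
    intro t
    rw [← hV t, ← hcy]
  have g0 := heq 0
  have gn := heq n
  rw [hVc] at g0 gn
  have z0 : (En n 0 : ℂ) = 0 := by simp [En]
  have zn : (En n n : ℂ) = 0 := by simp [En]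
  rw [z0, zero_add, sub_zero] at g0
  rw [zn, zero_add, sub_self] at gn
  have f1 : Vop P Q (C0 P Q n z) 0 = alpha P Q n z := rfl
  have f2 : Vop Q P (C0 Q P n z) n = beta Q P n z := rfl
  have f3 : Vop P Q (C0 P Q n z) n = beta P Q n z := rfl
  have f4 : Vop Q P (C0 Q P n z) 0 = alpha Q P n z := rfl
  rw [f1, f2] at g0
  rw [f3, f4, ← e3] at gn
  constructor
  · linear_combination g0
  · linear_combination gn

theorem p_EK10 (hF1 : S_F1) (hF2 : S_F2) (hF3 : S_F3) (hF4 : S_F4) : S_EK10 := by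
  intro P Q K' hP0 hQ0
  obtain ⟨n₁, K₁, hK₁, h1⟩ := hF1 P Q K'
  obtain ⟨n₂, K₂, hK₂, h2⟩ := hF1 Q P K'
  obtain ⟨n₃, h3⟩ := hF3 P Q K'
  obtain ⟨n₄, K₄, hK₄, h4⟩ := hF4 P Q K' hP0 hQ0
  obtain ⟨n₅, K₅, hK₅, h5⟩ := hF4 Q P K' hQ0 hP0
  obtain ⟨m, hm⟩ := exists_nat_ge (2 * (K₄ + K₅))
  refine ⟨n₁ + n₂ + n₃ + n₄ + n₅ + m, ?_⟩
  intro k hk hk1 hbeta μ x y hμ hx hTx hTy
  set n : ℕ := 2 * k with hn
  set z : ℂ := μ - 4 * (k : ℂ) ^ 2 with hz
  have hnR : (0 : ℝ) < n := by
    have : 0 < n := by omega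
    exact_mod_cast this
  obtain ⟨s1, -, u1⟩ := h1 n (by omega) z hμ
  obtain ⟨s2, -, -⟩ := h2 n (by omega) z hμ
  have e3 := h3 n (by omega) z hμ
  obtain ⟨a4, b4, -⟩ := h4 n (by omega) z z hμ hμ
  obtain ⟨-, b5, -⟩ := h5 n (by omega) z z hμ hμ
  have hmn : 2 * (K₄ + K₅) ≤ n := hm.trans (by
    have : m ≤ n := by omega
    exact_mod_cast this)
  -- the equation for eigenvectors
  have heq : ∀ w : Hs, (∀ s, Top P Q w s = μ * w s) →
      ∀ s : ℤ, ((En n s : ℂ) + z) * w (s - k) = Vop P Q (fun t => w (t - k)) s := by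
    intro w hw s
    rw [EK10_shift P Q w k s]
    have h6 := hw (s - k)
    unfold Top at h6
    have h7 : (En n s : ℂ) = 4 * (k : ℂ) ^ 2 - 4 * ((s - k : ℤ) : ℂ) ^ 2 := by
      have : (n : ℝ) = 2 * (k : ℝ) := by rw [hn]; push_cast; ring
      unfold En
      rw [this]
      push_cast
      ring
    rw [h7, hz]
    linear_combination -h6
  have hbd : ∀ w : Hs, ∃ C : ℝ, ∀ s : ℤ, ‖w (s - k)‖ ≤ C := fun w =>
    ⟨‖w‖, fun s => lp.norm_apply_le_norm (by norm_num) w (s - k)⟩
  have hmain : ∀ w : Hs, (∀ s, Top P Q w s = μ * w s) →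
      (z - alpha P Q n z) * w (0 - k) = beta Q P n z * w ((n : ℤ) - k) ∧
      (z - alpha P Q n z) * w ((n : ℤ) - k) = beta P Q n z * w (0 - k) := fun w hw =>
    EK10_main P Q n z hF2 s1 s2 u1 e3 (fun t => w (t - k)) (hbd w) (heq w hw)
  -- uniqueness
  have huni : ∀ w : Hs, (∀ s, Top P Q w s = μ * w s) → w (0 - k) = 0 → w ((n : ℤ) - k) = 0 →
      w = 0 := by
    intro w hw h6 h7
    have h8 : Sol P Q n z 0 0 0 (fun t => w (t - k)) := by
      refine ⟨hbd w, h6, h7, fun s _ _ => ?_⟩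
      rw [Pi.zero_apply, add_zero]
      exact heq w hw s
    have h9 := u1 _ h8
    ext s
    have h10 := congrFun h9 (s + k)
    simp only [Pi.zero_apply, add_sub_cancel_right] at h10
    rw [h10]
    rfl
  obtain ⟨m1, m2⟩ := hmain x hTx
  obtain ⟨m3, m4⟩ := hmain y hTy
  set p := x (0 - (k : ℤ)) with hp
  set q := x ((n : ℤ) - k) with hq
  set p' := y (0 - (k : ℤ)) with hp'
  set q' := y ((n : ℤ) - k) with hq'
  set A := z - alpha P Q n z with hA
  have hpq : p ≠ 0 ∨ q ≠ 0 := by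
    by_contra hcon
    push Not at hcon
    exact hx (huni x hTx hcon.1 hcon.2)
  -- size of `z`
  have hsq : A ^ 2 = beta Q P n z * beta P Q n z := by
    rcases hpq with h6 | h6
    · have : (A ^ 2 - beta Q P n z * beta P Q n z) * p = 0 := by
        linear_combination A * m1 + beta Q P n z * m2
      exact sub_eq_zero.1 ((mul_eq_zero.1 this).resolve_right h6)
    · have : (A ^ 2 - beta Q P n z * beta P Q n z) * q = 0 := by
        linear_combination A * m2 + beta P Q n z * m1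
      exact sub_eq_zero.1 ((mul_eq_zero.1 this).resolve_right h6)
  have hAn : ‖A‖ ≤ (K₄ + K₅) / n := by
    have h6 : ‖A‖ ^ 2 ≤ ((K₄ + K₅) / n) ^ 2 := by
      rw [← norm_pow, hsq, norm_mul, sq]
      refine mul_le_mul (b5.trans ?_) (b4.trans ?_) (norm_nonneg _) (by positivity)
      · exact div_le_div_of_nonneg_right (by linarith) hnR.le
      · exact div_le_div_of_nonneg_right (by linarith) hnR.le
    exact abs_le_of_sq_le_sq' h6 (by positivity) |>.2
  have hz1 : ‖z‖ ≤ 1 := by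
    have h6 : z = A + alpha P Q n z := by rw [hA]; ring
    have h7 : ‖z‖ ≤ (K₄ + K₅) / n + K₄ / n := by
      rw [h6]
      exact (norm_add_le _ _).trans (add_le_add hAn a4)
    have h8 : (K₄ + K₅) / n + K₄ / n ≤ 1 := by
      rw [← add_div, div_le_one hnR]
      linarith
    exact h7.trans h8
  -- the difference is an eigenvector
  have hdiff : ∀ t : ℂ, ∀ s, Top P Q ((y - t • x : Hs) : ℤ → ℂ) s = μ * (y - t • x : Hs) s := by
    intro t s
    have h6 : ((y - t • x : Hs) : ℤ → ℂ) = fun s => 1 * y s + (-t) * x s := by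
      funext s
      have : (y - t • x : Hs) s = y s - t * x s := rfl
      rw [this]
      ring
    have h7 := hTx s
    have h8 := hTy s
    unfold Top at h7 h8 ⊢
    rw [h6, EK10_lin]
    linear_combination h8 - t * h7
  have hfin : ∀ t : ℂ, p' = t * p → q' = t * q → ∃ t : ℂ, y = t • x := by
    intro t h6 h7
    refine ⟨t, sub_eq_zero.1 (huni _ (hdiff t) ?_ ?_)⟩
    · have : (y - t • x : Hs) (0 - (k : ℤ)) = p' - t * p := rfl
      rw [this, h6, sub_self]
    · have : (y - t • x : Hs) ((n : ℤ) - (k : ℤ)) = q' - t * q := rfl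
      rw [this, h7, sub_self]
  rcases hbeta z hz1 with h6 | h6
  · have hq0 : q ≠ 0 := by
      intro h7
      rw [h7, mul_zero] at m2
      have h8 : p = 0 := (mul_eq_zero.1 m2.symm).resolve_left h6
      rcases hpq with h9 | h9
      · exact h9 h8
      · exact h9 h7
    refine hfin (q' / q) ?_ ?_
    · have h7 : beta P Q n z * (p' * q - q' * p) = 0 := by
        linear_combination q' * m2 - q * m4
      have h8 := (mul_eq_zero.1 h7).resolve_left h6
      rw [div_mul_eq_mul_div, eq_div_iff hq0]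
      linear_combination h8
    · rw [div_mul_cancel₀ _ hq0]
  · have hp0 : p ≠ 0 := by
      intro h7
      rw [h7, mul_zero] at m1
      have h8 : q = 0 := (mul_eq_zero.1 m1.symm).resolve_left h6
      rcases hpq with h9 | h9
      · exact h9 h7
      · exact h9 h8
    refine hfin (p' / p) ?_ ?_
    · rw [div_mul_cancel₀ _ hp0]
    · have h7 : beta Q P n z * (q' * p - p' * q) = 0 := by
        linear_combination p' * m1 - p * m3
      have h8 := (mul_eq_zero.1 h7).resolve_left h6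
      rw [div_mul_eq_mul_div, eq_div_iff hp0]
      linear_combination h8

end HillRoots
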