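import Pool.Agent.Lib.MP_e63cf8_mp.H.StmH

/-!
# MP_e63cf8_mp, piece EK2: the eigenvector on the other side of an exceptional polynomial
-/

open Polynomial Filter Topology MeasureTheory Asymptotics

namespace HillRoots

private theorem ek2_bdd {x : ℤ → ℂ} (h : Rap x) : ∃ C : ℝ, ∀ s, ‖x s‖ ≤ C := by
  obtain ⟨C, hC⟩ := h 0
  exact ⟨C, fun s => by simpa using hC s⟩

theorem p_EK2 (hE0 : S_E0) (hEG1 : S_EG1) (hEG2 : S_EG2) (hEG3 : S_EG3) (hEK1 : S_EK1) :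
    S_EK2 := by
  intro P Q a m μ x y hP hx hy hxy hvan hne
  have hlin := hEG2.2.2.1
  have hF : Rap (eS (-a) x) := hEG2.2.1 (-a) x hx
  have hT : Top P Q x = fun s => 1 * y s + μ * x s := by
    funext s
    rw [← hxy s]
    ring
  have hTg : ∀ s : ℤ, m ≤ s → Tg Q a m (eS (-a) x) s = μ * eS (-a) x s := by
    intro s hs
    rw [← hEG3.2.1 P Q a m x hP hx, hT, hlin (-a) y x 1 μ (ek2_bdd hy) (ek2_bdd hx)]
    simp only [hvan s hs, mul_zero, zero_add]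
  obtain ⟨Z, hZ0, hZ, hZv, hZT⟩ := hEK1 Q a m μ (eS (-a) x) hF hne hTg
  have hback : eS a (eS (-a) Z) = Z := by
    rw [hEG1.1 a (-a) Z (ek2_bdd hZ), add_neg_cancel, hEG1.2.1]
  refine ⟨eS (-a) Z, fun h0 => hZ0 ?_, hEG2.2.1 (-a) Z hZ, fun s => ?_, fun s hs => ?_⟩
  · rw [← hback, h0, hEG1.2.2]
  · rw [hEG3.1 P Q (-a) (1 - m) Z (hE0.2.1 P a m hP) hZ]
    have h1 : Tg Q (-a) (1 - m) Z = fun s => μ * Z s + 0 * Z s := by
      funext t
      rw [hZT t]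
      ring
    rw [h1, hlin (-a) Z Z μ 0 (ek2_bdd hZ) (ek2_bdd hZ)]
    ring
  · rw [hback]
    exact hZv s (by omega)

end HillRoots
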