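import Pool.Agent.Lib.MP_e63cf8_mp.H.StmH

/-!
# MP_e63cf8_mp, piece EK3: the two kinds exclude each other
-/

open Polynomial Filter Topology MeasureTheory Asymptotics

namespace HillRoots

/-- the bound for the tail of the exponential series -/
private theorem EK3_tail (b : ℂ) (B : ℝ) (M : ℕ) (v : ℕ → ℂ) (hv : ∀ i, ‖v i‖ ≤ B) :
    ‖∑' i : ℕ, b ^ (i + (M + 1)) / ((i + (M + 1)).factorial : ℂ) * v i‖ ≤
      B * (‖b‖ ^ (M + 1) / ((M + 1).factorial : ℝ)) * Real.exp ‖b‖ := by
  have hB : 0 ≤ B := (norm_nonneg _).trans (hv 0)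
  have h1 : HasSum (fun i : ℕ => B * (‖b‖ ^ (M + 1) / ((M + 1).factorial : ℝ)) *
      (‖b‖ ^ i / (i.factorial : ℝ))) (B * (‖b‖ ^ (M + 1) / ((M + 1).factorial : ℝ)) *
      Real.exp ‖b‖) := by
    rw [Real.exp_eq_exp_ℝ]
    exact (NormedSpace.expSeries_div_hasSum_exp ‖b‖).mul_left _
  refine tsum_of_norm_bounded h1 fun i => ?_
  rw [norm_mul, norm_div, norm_pow, Complex.norm_natCast]
  have h2 : ((M + 1).factorial : ℝ) * (i.factorial : ℝ) ≤ ((i + (M + 1)).factorial : ℝ) := by
    have h3 : (M + 1).factorial * i.factorial ≤ (i + (M + 1)).factorial := by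
      have h4 := Nat.le_of_dvd (Nat.factorial_pos _)
        (Nat.factorial_mul_factorial_dvd_factorial_add (M + 1) i)
      rwa [add_comm (M + 1) i] at h4
    exact_mod_cast h3
  have h5 : (0 : ℝ) < ((M + 1).factorial : ℝ) := by exact_mod_cast Nat.factorial_pos _
  have h6 : (0 : ℝ) < (i.factorial : ℝ) := by exact_mod_cast Nat.factorial_pos _
  have h7 : ‖b‖ ^ (i + (M + 1)) / ((i + (M + 1)).factorial : ℝ) ≤
      ‖b‖ ^ (i + (M + 1)) / (((M + 1).factorial : ℝ) * (i.factorial : ℝ)) :=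
    div_le_div_of_nonneg_left (by positivity) (by positivity) h2
  calc ‖b‖ ^ (i + (M + 1)) / ((i + (M + 1)).factorial : ℝ) * ‖v i‖
      ≤ ‖b‖ ^ (i + (M + 1)) / (((M + 1).factorial : ℝ) * (i.factorial : ℝ)) * B :=
        mul_le_mul h7 (hv i) (norm_nonneg _) (by positivity)
    _ = B * (‖b‖ ^ (M + 1) / ((M + 1).factorial : ℝ)) * (‖b‖ ^ i / (i.factorial : ℝ)) := by
        rw [pow_add]
        field_simp

theorem p_EK3 : S_EG1 → S_EG2 → S_EK3 := by
  intro hG1 hG2 a m x ha hx h1 h2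
  obtain ⟨C, hC⟩ := hx
  have hub : ∀ s, ‖eS (-a) x s‖ ≤ Real.exp ‖-a‖ * C := fun s => (hG2.1 (-a) x C hC s).2
  generalize hu : eS (-a) x = u at h1 hub
  generalize hB : Real.exp ‖-a‖ * C = B at hub
  have h3 : eS (2 * a) u = eS a x := by
    rw [← hu, hG1.1 (2 * a) (-a) x ⟨C, hC⟩]
    congr 1
    ring
  have hb : (2 * a : ℂ) ≠ 0 := mul_ne_zero two_ne_zero ha
  generalize hbdef : (2 * a : ℂ) = b at h3 hb
  have hB0 : 0 ≤ B := (norm_nonneg _).trans (hub 0)
  have hbn : 0 < ‖b‖ := norm_pos_iff.2 hb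
  -- the main claim
  have key : ∀ r : ℕ, u (m - 1 - r) = 0 := by
    intro r₀
    induction r₀ using Nat.strong_induction_on with
    | _ r₀ ih =>
      -- the bound for all large `N`
      have h4 : ∀ N : ℕ, (2 - 2 * m).toNat ≤ N →
          ‖u (m - 1 - r₀)‖ ≤ B * ‖b‖ * Real.exp ‖b‖ * (1 / ((N : ℝ) + 1)) := by
        intro N hN
        have hs : 1 - m ≤ (N : ℤ) + m - 1 := by omega
        have h5 : eS b u ((N : ℤ) + m - 1) = 0 := by
          rw [h3]
          exact h2 _ hs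
        have h6 : Summable (fun j : ℕ => b ^ j / (j.factorial : ℂ) *
            u ((N : ℤ) + m - 1 - j)) := (hG2.1 b u B hub _).1
        have h7 := h6.sum_add_tsum_nat_add (N + r₀ + 1)
        have h8 : ∑' j : ℕ, b ^ j / (j.factorial : ℂ) * u ((N : ℤ) + m - 1 - j) = 0 := h5
        rw [h8, Finset.sum_range_succ, Finset.sum_eq_zero, zero_add] at h7
        · have h9 : (N : ℤ) + m - 1 - ((N + r₀ : ℕ) : ℤ) = m - 1 - r₀ := by
            push_cast
            ring
          rw [h9] at h7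
          have h10 := EK3_tail b B (N + r₀)
            (fun i => u ((N : ℤ) + m - 1 - ((i + (N + r₀ + 1) : ℕ) : ℤ))) (fun i => hub _)
          have h11 : ‖b ^ (N + r₀) / ((N + r₀).factorial : ℂ) * u (m - 1 - r₀)‖ ≤
              B * (‖b‖ ^ (N + r₀ + 1) / ((N + r₀ + 1).factorial : ℝ)) * Real.exp ‖b‖ := by
            rw [eq_neg_of_add_eq_zero_left h7, norm_neg]
            exact h10
          rw [norm_mul, norm_div, norm_pow, Complex.norm_natCast, Nat.factorial_succ] at h11
          have h12 : (0 : ℝ) < ((N + r₀).factorial : ℝ) := by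
            exact_mod_cast Nat.factorial_pos _
          have h13 : (0 : ℝ) < ‖b‖ ^ (N + r₀) := pow_pos hbn _
          have h14 : (0 : ℝ) < (N : ℝ) + r₀ + 1 := by positivity
          have h15 : ‖u (m - 1 - r₀)‖ ≤ B * ‖b‖ * Real.exp ‖b‖ * (1 / ((N : ℝ) + r₀ + 1)) := by
            have h16 : ‖b‖ ^ (N + r₀) / ((N + r₀).factorial : ℝ) * ‖u (m - 1 - r₀)‖ ≤
                ‖b‖ ^ (N + r₀) / ((N + r₀).factorial : ℝ) *
                  (B * ‖b‖ * Real.exp ‖b‖ * (1 / ((N : ℝ) + r₀ + 1))) := by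
              refine h11.trans (le_of_eq ?_)
              push_cast
              rw [pow_succ]
              field_simp
            exact le_of_mul_le_mul_left h16 (div_pos h13 h12)
          refine h15.trans ?_
          refine mul_le_mul_of_nonneg_left ?_ (by positivity)
          refine one_div_le_one_div_of_le (by positivity) ?_
          have : (0 : ℝ) ≤ (r₀ : ℝ) := Nat.cast_nonneg _
          linarith
        · intro j hj
          rw [Finset.mem_range] at hj
          by_cases hjN : j < N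
          · rw [h1 _ (by omega), mul_zero]
          · have h9 : (N : ℤ) + m - 1 - (j : ℤ) = m - 1 - ((j - N : ℕ) : ℤ) := by
              omega
            rw [h9, ih (j - N) (by omega), mul_zero]
      have h5 : Tendsto (fun N : ℕ => B * ‖b‖ * Real.exp ‖b‖ * (1 / ((N : ℝ) + 1))) atTop
          (𝓝 (B * ‖b‖ * Real.exp ‖b‖ * 0)) :=
        tendsto_one_div_add_atTop_nhds_zero_nat.const_mul _
      have h6 : ‖u (m - 1 - r₀)‖ ≤ B * ‖b‖ * Real.exp ‖b‖ * 0 :=
        ge_of_tendsto h5 (Filter.eventually_atTop.2 ⟨(2 - 2 * m).toNat, h4⟩)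
      rw [mul_zero] at h6
      exact norm_le_zero_iff.1 h6
  have hu0 : u = 0 := by
    funext s
    by_cases hs : m ≤ s
    · exact h1 s hs
    · have h4 := key (m - 1 - s).toNat
      have h5 : m - 1 - (((m - 1 - s).toNat : ℕ) : ℤ) = s := by omega
      rwa [h5] at h4
  have h4 : eS a (eS (-a) x) = eS (a + -a) x := hG1.1 a (-a) x ⟨C, hC⟩
  rw [hu, hu0, hG1.2.2, add_neg_cancel, hG1.2.1] at h4
  exact h4.symm

end HillRoots
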