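import Pool.Agent.Lib.MP_e63cf8_mp.H.StmH

/-!
# MP_e63cf8_mp, piece EK4
-/

open Polynomial Filter Topology MeasureTheory Asymptotics

namespace HillRoots

private theorem ek4_ee (j s : ℤ) : (ee j : ℤ → ℂ) s = if s = j then 1 else 0 := by
  unfold ee
  by_cases h : s = j
  · subst h
    rw [if_pos rfl, lp.single_apply_self]
  · rw [if_neg h, lp.single_apply_ne _ _ _ h]

private theorem ek4_exp (t : ℝ) :
    HasSum (fun m : ℕ => t ^ m / (m.factorial : ℝ)) (Real.exp t) := by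
  rw [Real.exp_eq_exp_ℝ]
  exact NormedSpace.expSeries_div_hasSum_exp t

private theorem ek4_tail (b : ℂ) (r : ℤ → ℂ) (R : ℝ) (hr : ∀ s, ‖r s‖ ≤ R) (k : ℤ) :
    Summable (fun m : ℕ => b ^ m / (m.factorial : ℂ) * r (k - m)) ∧
      ‖∑' m : ℕ, b ^ m / (m.factorial : ℂ) * r (k - m)‖ ≤ Real.exp ‖b‖ * R := by
  have h1 : HasSum (fun m : ℕ => ‖b‖ ^ m / (m.factorial : ℝ) * R) (Real.exp ‖b‖ * R) :=
    (ek4_exp ‖b‖).mul_right R
  have h2 : ∀ m : ℕ, ‖b ^ m / (m.factorial : ℂ) * r (k - m)‖ ≤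
      ‖b‖ ^ m / (m.factorial : ℝ) * R := by
    intro m
    rw [norm_mul, norm_div, norm_pow, Complex.norm_natCast]
    exact mul_le_mul_of_nonneg_left (hr _) (by positivity)
  have h3 : Summable (fun m : ℕ => ‖b ^ m / (m.factorial : ℂ) * r (k - m)‖) :=
    Summable.of_nonneg_of_le (fun m => norm_nonneg _) h2 h1.summable
  refine ⟨h3.of_norm, ?_⟩
  calc ‖∑' m : ℕ, b ^ m / (m.factorial : ℂ) * r (k - m)‖
      ≤ ∑' m : ℕ, ‖b ^ m / (m.factorial : ℂ) * r (k - m)‖ := norm_tsum_le_tsum_norm h3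
    _ ≤ ∑' m : ℕ, ‖b‖ ^ m / (m.factorial : ℝ) * R := h3.tsum_le_tsum h2 h1.summable
    _ = Real.exp ‖b‖ * R := h1.tsum_eq

private theorem ek4_fac (t : ℝ) (ht : 0 ≤ t) (k : ℕ) (hk : 1 ≤ k) :
    t ^ (2 * k) / ((2 * k).factorial : ℝ) ≤ t * Real.exp t / 2 / k := by
  obtain ⟨j, rfl⟩ : ∃ j, k = j + 1 := ⟨k - 1, by omega⟩
  have h1 : t ^ (2 * j + 1) / ((2 * j + 1).factorial : ℝ) ≤ Real.exp t :=
    Real.pow_div_factorial_le_exp t ht _
  have h2 : t ^ (2 * (j + 1)) / ((2 * (j + 1)).factorial : ℝ) =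
      t / (2 * ((j + 1 : ℕ) : ℝ)) * (t ^ (2 * j + 1) / ((2 * j + 1).factorial : ℝ)) := by
    have e1 : 2 * (j + 1) = (2 * j + 1) + 1 := by ring
    rw [e1, pow_succ, Nat.factorial_succ]
    push_cast
    have h3 : ((2 * j + 1).factorial : ℝ) ≠ 0 := by
      exact_mod_cast Nat.factorial_ne_zero _
    have h4 : (2 * (j : ℝ) + 1 + 1) ≠ 0 := by positivity
    have h5 : (2 * ((j : ℝ) + 1)) ≠ 0 := by positivity
    field_simp
    ring
  rw [h2]
  have h6 : (0 : ℝ) < ((j + 1 : ℕ) : ℝ) := by exact_mod_cast Nat.succ_pos j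
  calc t / (2 * ((j + 1 : ℕ) : ℝ)) * (t ^ (2 * j + 1) / ((2 * j + 1).factorial : ℝ))
      ≤ t / (2 * ((j + 1 : ℕ) : ℝ)) * Real.exp t :=
        mul_le_mul_of_nonneg_left h1 (by positivity)
    _ = t * Real.exp t / 2 / ((j + 1 : ℕ) : ℝ) := by
        field_simp

/-- vectors near the block with a vanishing coordinate of the gauge transform -/
theorem p_EK4 : S_EK4 := by
  intro b K
  set A : ℝ := Real.exp ‖b‖ with hA
  have hA0 : 0 < A := Real.exp_pos _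
  have hK0 : 0 ≤ |K| := abs_nonneg K
  refine ⟨‖b‖ * A + 2 * |K| * A + 1, ⌈2 * |K| * A⌉₊, by positivity, ?_⟩
  intro k hk0 hk1 x p q hx hzero
  have hk : (0 : ℝ) < k := by exact_mod_cast hk1
  have hkK : 2 * |K| * A ≤ k := (Nat.le_ceil _).trans (by exact_mod_cast hk0)
  -- the remainder
  obtain ⟨r, hr⟩ : ∃ r : Hs, r = x - p • ee (-(k : ℤ)) - q • ee k := ⟨_, rfl⟩
  rw [← hr] at hx
  set M : ℝ := |K| / k * (‖p‖ + ‖q‖) with hM
  have hrM : ‖r‖ ≤ M := by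
    refine hx.trans ?_
    refine mul_le_mul_of_nonneg_right ?_ (by positivity)
    exact div_le_div_of_nonneg_right (le_abs_self K) hk.le
  have hrs : ∀ s, ‖(r : ℤ → ℂ) s‖ ≤ M := fun s =>
    (lp.norm_apply_le_norm (by norm_num) r s).trans hrM
  have hxs : ∀ s : ℤ, (x : ℤ → ℂ) s = p * (if s = -(k : ℤ) then 1 else 0) +
      q * (if s = (k : ℤ) then 1 else 0) + (r : ℤ → ℂ) s := by
    intro s
    have h1 : x = p • ee (-(k : ℤ)) + q • ee k + r := by
      rw [hr]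
      abel
    rw [h1, lp.coeFn_add, lp.coeFn_add, lp.coeFn_smul, lp.coeFn_smul, Pi.add_apply, Pi.add_apply,
      Pi.smul_apply, Pi.smul_apply, ek4_ee, ek4_ee, smul_eq_mul, smul_eq_mul]
  obtain ⟨hsum, hbd⟩ := ek4_tail b r M hrs k
  -- the two single terms
  have hs1 : HasSum (fun m : ℕ => b ^ m / (m.factorial : ℂ) *
      (p * (if (k : ℤ) - m = -(k : ℤ) then 1 else 0)))
      (b ^ (2 * k) / ((2 * k).factorial : ℂ) * p) := by
    have h1 := hasSum_single (f := fun m : ℕ => b ^ m / (m.factorial : ℂ) *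
      (p * (if (k : ℤ) - m = -(k : ℤ) then 1 else 0))) (2 * k) (by
        intro m hm
        rw [if_neg, mul_zero, mul_zero]
        intro h
        apply hm
        omega)
    have h2 : (k : ℤ) - ((2 * k : ℕ) : ℤ) = -(k : ℤ) := by
      push_cast
      ring
    simp only [h2, if_true, mul_one] at h1
    exact h1
  have hs2 : HasSum (fun m : ℕ => b ^ m / (m.factorial : ℂ) *
      (q * (if (k : ℤ) - m = (k : ℤ) then 1 else 0))) q := by
    have h1 := hasSum_single (f := fun m : ℕ => b ^ m / (m.factorial : ℂ) *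
      (q * (if (k : ℤ) - m = (k : ℤ) then 1 else 0))) 0 (by
        intro m hm
        rw [if_neg, mul_zero, mul_zero]
        intro h
        apply hm
        omega)
    simp only [pow_zero, Nat.factorial_zero, Nat.cast_one, div_one, one_mul, Nat.cast_zero,
      sub_zero, if_true, mul_one] at h1
    exact h1
  have htot := (hs1.add hs2).add hsum.hasSum
  have heq : eS b x k = b ^ (2 * k) / ((2 * k).factorial : ℂ) * p + q +
      ∑' m : ℕ, b ^ m / (m.factorial : ℂ) * (r : ℤ → ℂ) ((k : ℤ) - m) := by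
    unfold eS
    rw [← htot.tsum_eq]
    refine tsum_congr fun m => ?_
    rw [hxs]
    ring
  rw [hzero] at heq
  have hq : q = -(b ^ (2 * k) / ((2 * k).factorial : ℂ) * p) -
      ∑' m : ℕ, b ^ m / (m.factorial : ℂ) * (r : ℤ → ℂ) ((k : ℤ) - m) := by
    linear_combination -heq
  have hq1 : ‖q‖ ≤ ‖b‖ ^ (2 * k) / ((2 * k).factorial : ℝ) * ‖p‖ + A * M := by
    calc ‖q‖ = ‖-(b ^ (2 * k) / ((2 * k).factorial : ℂ) * p) -
        ∑' m : ℕ, b ^ m / (m.factorial : ℂ) * (r : ℤ → ℂ) ((k : ℤ) - m)‖ := by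
          rw [← hq]
      _ ≤ ‖-(b ^ (2 * k) / ((2 * k).factorial : ℂ) * p)‖ +
        ‖∑' m : ℕ, b ^ m / (m.factorial : ℂ) * (r : ℤ → ℂ) ((k : ℤ) - m)‖ := norm_sub_le _ _
      _ ≤ ‖b‖ ^ (2 * k) / ((2 * k).factorial : ℝ) * ‖p‖ + A * M := by
          refine add_le_add (le_of_eq ?_) hbd
          rw [norm_neg, norm_mul, norm_div, norm_pow, Complex.norm_natCast]
  have hf := ek4_fac ‖b‖ (norm_nonneg b) k hk1
  have hq2 : ‖q‖ ≤ ‖b‖ * A / 2 / k * ‖p‖ + A * (|K| / k * (‖p‖ + ‖q‖)) := by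
    refine hq1.trans ?_
    exact add_le_add (mul_le_mul_of_nonneg_right hf (norm_nonneg p)) le_rfl
  have hhalf : A * (|K| / k) ≤ 1 / 2 := by
    rw [← mul_div_assoc, div_le_iff₀ hk]
    linarith
  have hq3 : A * (|K| / k * (‖p‖ + ‖q‖)) ≤ A * |K| / k * ‖p‖ + 1 / 2 * ‖q‖ := by
    have h1 : A * (|K| / k * (‖p‖ + ‖q‖)) = A * |K| / k * ‖p‖ + A * (|K| / k) * ‖q‖ := by
      ring
    rw [h1]
    exact add_le_add le_rfl (mul_le_mul_of_nonneg_right hhalf (norm_nonneg q))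
  have hq4 : ‖q‖ ≤ (‖b‖ * A + 2 * |K| * A) / k * ‖p‖ := by
    have h1 : (‖b‖ * A + 2 * |K| * A) / k * ‖p‖ =
        2 * (‖b‖ * A / 2 / k * ‖p‖) + 2 * (A * |K| / k * ‖p‖) := by
      ring
    rw [h1]
    linarith
  refine hq4.trans ?_
  refine mul_le_mul_of_nonneg_right ?_ (norm_nonneg p)
  exact div_le_div_of_nonneg_right (by linarith) hk.le

end HillRoots
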