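import Pool.Agent.Lib.MP_e63cf8_mp.H.StmH

/-!
# MP_e63cf8_mp: piece EK6, every eigenvalue near `4k²` has an eigenvector close to `e_{-k}`
-/

set_option autoImplicit false

open Polynomial Filter Topology MeasureTheory Asymptotics

namespace HillRoots

private theorem ek6_smul (P Q : ℂ[X]) (μ t : ℂ) (x : Hs)
    (h : ∀ s, Top P Q x s = μ * x s) (s : ℤ) : Top P Q ((t • x : Hs) : ℤ → ℂ) s = μ * (t • x : Hs) s := by
  have e : ∀ r : ℤ, ((t • x : Hs) : ℤ → ℂ) r = t * x r := fun r => by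
    rw [lp.coeFn_smul]; rfl
  have e2 : Top P Q ((t • x : Hs) : ℤ → ℂ) s = t * Top P Q x s := by
    simp only [Top, Vop, e, mul_add, Finset.mul_sum]
    congr 1
    · ring
    · congr 1 <;> exact Finset.sum_congr rfl fun j _ => by ring
  rw [e2, h s, e]
  ring

private theorem ek6_root (P Q : ℂ[X]) (μ : ℂ) (x : Hs)
    (h : ∀ s, Top P Q x s = μ * x s) : x ∈ seqRoot P Q μ := by
  have h1 : Tsh P Q μ x = 0 := by
    funext s
    simp only [Tsh, h s, sub_self, Pi.zero_apply]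
  have h0 : Tsh P Q μ 0 = 0 := by
    funext s
    simp [Tsh, Top, Vop]
  have h2 : ∀ i : ℕ, (Tsh P Q μ)^[i] 0 = 0 := fun i => by
    induction i with
    | zero => rfl
    | succ i ih => rw [Function.iterate_succ_apply, h0, ih]
  refine ⟨fun i => ?_, 1, h1⟩
  cases i with
  | zero => exact lp.memℓp x
  | succ i =>
    rw [Function.iterate_succ_apply, h1, h2]
    exact zero_memℓp

private theorem ek6_norm_ee (j : ℤ) : ‖ee j‖ = 1 := by
  rw [ee, lp.norm_single (by norm_num)]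
  exact norm_one

private theorem ek6_core (P Q : ℂ[X]) (μ : ℂ) (K C₀ : ℝ) (hK : 0 < K) (hC₀ : 0 < C₀) (k : ℕ)
    (hk : 1 ≤ k) (x : Hs) (p q : ℂ) (hx : x ≠ 0) (h : ∀ s, Top P Q x s = μ * x s)
    (h1 : ‖x - p • ee (-(k : ℤ)) - q • ee k‖ ≤ K / k * (‖p‖ + ‖q‖)) (h2 : ‖q‖ ≤ C₀ / k * ‖p‖) :
    ∃ x' : Hs, (∀ s, Top P Q x' s = μ * x' s) ∧
      ‖x' - ee (-(k : ℤ))‖ ≤ (K * (1 + C₀) + C₀) / k := by
  have hk0 : (1 : ℝ) ≤ k := by exact_mod_cast hk
  have hk1 : (0 : ℝ) < k := by linarith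
  have hp : p ≠ 0 := by
    rintro rfl
    have hq : q = 0 := by
      rw [norm_zero, mul_zero] at h2
      exact norm_le_zero_iff.1 h2
    subst hq
    rw [norm_zero, add_zero, mul_zero, zero_smul, zero_smul, sub_zero, sub_zero] at h1
    exact hx (norm_le_zero_iff.1 h1)
  have hp' : 0 < ‖p‖ := norm_pos_iff.2 hp
  refine ⟨p⁻¹ • x, ek6_smul P Q μ p⁻¹ x h, ?_⟩
  have e : p⁻¹ • x - ee (-(k : ℤ)) =
      p⁻¹ • ((x - p • ee (-(k : ℤ)) - q • ee k) + q • ee k) := by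
    rw [sub_add_cancel, smul_sub, inv_smul_smul₀ hp]
  have hCk : C₀ / k ≤ C₀ := div_le_self hC₀.le hk0
  have h3 : ‖q‖ ≤ C₀ * ‖p‖ := h2.trans (mul_le_mul_of_nonneg_right hCk hp'.le)
  rw [e, norm_smul, norm_inv, inv_mul_le_iff₀ hp']
  calc ‖(x - p • ee (-(k : ℤ)) - q • ee k) + q • ee k‖
      ≤ K / k * (‖p‖ + ‖q‖) + ‖q‖ := by
        refine (norm_add_le _ _).trans (add_le_add h1 ?_)
        rw [norm_smul, ek6_norm_ee, mul_one]
    _ ≤ K / k * (‖p‖ + C₀ * ‖p‖) + C₀ / k * ‖p‖ := by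
        refine add_le_add (mul_le_mul_of_nonneg_left ?_ (div_nonneg hK.le hk1.le)) h2
        linarith
    _ = ‖p‖ * ((K * (1 + C₀) + C₀) / k) := by
        field_simp

/-- [EK6] -/
theorem p_EK6 (_ : S_E0) (h2 : S_EK2) (h4 : S_EK4) (h5 : S_EK5) (hg : S_EG2) : S_EK6 := by
  intro P Q α m K' hE
  obtain ⟨-, -, -, hmem⟩ := hg
  obtain ⟨K, hK, h5⟩ := h5 P Q
  obtain ⟨k₁, h5⟩ := h5 K'
  obtain ⟨C₁, k₂, hC₁, h41⟩ := h4 (-α) K
  obtain ⟨C₂, k₃, hC₂, h42⟩ := h4 α K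
  have hC₀ : 0 < max C₁ C₂ := lt_max_of_lt_left hC₁
  refine ⟨K * (1 + max C₁ C₂) + max C₁ C₂, max (max k₁ k₂) (max k₃ (m.natAbs + 1)), by positivity,
    fun k hk hk1 μ x hμ hx hT => ?_⟩
  have a1 : k₁ ≤ k := (le_max_left _ _).trans ((le_max_left _ _).trans hk)
  have a2 : k₂ ≤ k := (le_max_right _ _).trans ((le_max_left _ _).trans hk)
  have a3 : k₃ ≤ k := (le_max_left _ _).trans ((le_max_right _ _).trans hk)
  have a4 : m.natAbs + 1 ≤ k := (le_max_right _ _).trans ((le_max_right _ _).trans hk)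
  obtain ⟨U, -, hrap, -, hnear, -, hroot, -⟩ := h5 k a1 hk1
  have hxU : x ∈ U := hroot μ x (ek6_root P Q μ x hT) hx hμ
  have hkpos : (0 : ℝ) < k := by exact_mod_cast hk1
  by_cases hc : ∀ s : ℤ, m ≤ s → eS (-α) x s = 0
  · obtain ⟨p, q, hpq⟩ := hnear x hxU
    have h6 := h41 k a2 hk1 x p q hpq (hc k (by omega))
    refine ek6_core P Q μ K _ hK hC₀ k hk1 x p q hx hT hpq (h6.trans ?_)
    exact mul_le_mul_of_nonneg_right (div_le_div_of_nonneg_right (le_max_left _ _) hkpos.le)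
      (norm_nonneg _)
  · push Not at hc
    obtain ⟨x', hx'0, hx'r, hx'T, hx's⟩ := h2 P Q α m μ x 0 hE (hrap x hxU)
      (fun p => ⟨0, fun s => by simp⟩) (fun s => by rw [hT s, sub_self]; rfl)
      (fun s _ => by simp [eS]) hc
    let z : Hs := ⟨x', hmem x' hx'r⟩
    have hz0 : z ≠ 0 := fun h => hx'0 (by
      have : (z : ℤ → ℂ) = 0 := by rw [h]; rfl
      exact this)
    have hzT : ∀ s, Top P Q z s = μ * z s := hx'T
    have hzU : z ∈ U := hroot μ z (ek6_root P Q μ z hzT) hz0 hμ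
    obtain ⟨p, q, hpq⟩ := hnear z hzU
    have h6 := h42 k a3 hk1 z p q hpq (hx's k (by omega))
    refine ek6_core P Q μ K _ hK hC₀ k hk1 z p q hz0 hzT hpq (h6.trans ?_)
    exact mul_le_mul_of_nonneg_right (div_le_div_of_nonneg_right (le_max_right _ _) hkpos.le)
      (norm_nonneg _)

end HillRoots
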