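import Pool.Agent.Lib.MP_e63cf8_mp.H.StmH

/-!
# MP_e63cf8_mp, project HL: piece EK7 (helper57)
-/

open Polynomial Filter Topology MeasureTheory Asymptotics

namespace HillRoots

private lemma ek7_Vop_lin (P Q : ℂ[X]) (t u : ℂ) (x y : ℤ → ℂ) (s : ℤ) :
    Vop P Q (fun s => t * x s + u * y s) s = t * Vop P Q x s + u * Vop P Q y s := by
  have h1 : ∑ j ∈ Finset.range (P.natDegree + 1), P.coeff j * (t * x (s - j) + u * y (s - j)) =
      t * ∑ j ∈ Finset.range (P.natDegree + 1), P.coeff j * x (s - j) +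
        u * ∑ j ∈ Finset.range (P.natDegree + 1), P.coeff j * y (s - j) := by
    rw [Finset.mul_sum, Finset.mul_sum, ← Finset.sum_add_distrib]
    exact Finset.sum_congr rfl fun j _ => by ring
  have h2 : ∑ j ∈ Finset.range (Q.natDegree + 1), Q.coeff j * (t * x (s + j) + u * y (s + j)) =
      t * ∑ j ∈ Finset.range (Q.natDegree + 1), Q.coeff j * x (s + j) +
        u * ∑ j ∈ Finset.range (Q.natDegree + 1), Q.coeff j * y (s + j) := by
    rw [Finset.mul_sum, Finset.mul_sum, ← Finset.sum_add_distrib]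
    exact Finset.sum_congr rfl fun j _ => by ring
  simp only [Vop]
  rw [h1, h2]
  ring

private lemma ek7_Top_lin (P Q : ℂ[X]) (t u : ℂ) (x y : ℤ → ℂ) (s : ℤ) :
    Top P Q (fun s => t * x s + u * y s) s = t * Top P Q x s + u * Top P Q y s := by
  simp only [Top]
  rw [ek7_Vop_lin]
  ring

private lemma ek7_coe_comb (t u : ℂ) (x y : Hs) :
    ((t • x + u • y : Hs) : ℤ → ℂ) = fun s => t * x s + u * y s := by
  funext s
  simp

private lemma ek7_coe_smul (t : ℂ) (x : Hs) :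
    ((t • x : Hs) : ℤ → ℂ) = fun s => t * x s + 0 * x s := by
  funext s
  simp

private lemma ek7_bdd (x : Hs) : ∃ C : ℝ, ∀ s, ‖x s‖ ≤ C :=
  ⟨‖x‖, fun s => lp.norm_apply_le_norm (by norm_num) x s⟩

private lemma ek7_claim (h2 : S_EK2) (h3 : S_EK3) (hg2 : S_EG2) (P Q : ℂ[X]) (a : ℂ) (m : ℤ)
    (K C : ℝ) (k : ℕ) (hkm : m ≤ k) (hexc : ExcAt P a m)
    (h4 : ∀ (x : Hs) (p q : ℂ), ‖x - p • ee (-(k : ℤ)) - q • ee k‖ ≤ K / k * (‖p‖ + ‖q‖) →
      eS (-a) x k = 0 → ‖q‖ ≤ C / k * ‖p‖) (μ : ℂ)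
    (hgeo : ∀ x y : Hs, x ≠ 0 → (∀ s, Top P Q x s = μ * x s) → (∀ s, Top P Q y s = μ * y s) →
      ∃ t : ℂ, y = t • x) (x v : Hs) (hx0 : x ≠ 0) (hxe : ∀ s, Top P Q x s = μ * x s)
    (hv : ∀ s, Top P Q v s - μ * v s = x s) (hRx : Rap (x : ℤ → ℂ)) (hRv : Rap (v : ℤ → ℂ))
    (U : Submodule ℂ Hs) (hspan : ∀ w ∈ U, ∃ c d : ℂ, w = c • x + d • v)
    (h5 : ∀ p q : ℂ, ∃ w ∈ U, ‖w - p • ee (-(k : ℤ)) - q • ee k‖ ≤ K / k * (‖p‖ + ‖q‖))
    (hz : ∀ s : ℤ, m ≤ s → eS (-a) x s = 0) : False := by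
  obtain ⟨-, -, hlin, hmem⟩ := hg2
  by_cases hvz : ∃ s : ℤ, m ≤ s ∧ eS (-a) v s ≠ 0
  · obtain ⟨x', hx'0, hRx', hx'e, hx'z⟩ := h2 P Q a m μ v x hexc hRv hRx hv hz hvz
    obtain ⟨t, ht⟩ := hgeo x ⟨x', hmem x' hRx'⟩ hx0 hxe hx'e
    have hcoe : x' = fun s => t * x s + 0 * x s := by
      have h := congrArg (fun z : Hs => (z : ℤ → ℂ)) ht
      simp only at h
      rw [ek7_coe_smul] at h
      exact h
    have ht0 : t ≠ 0 := by
      rintro rfl
      apply hx'0
      rw [hcoe]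
      funext s
      simp
    have hx'' : ∀ s : ℤ, 1 - m ≤ s → eS a x s = 0 := by
      intro s hs
      have h := hx'z s hs
      rw [hcoe, hlin a x x t 0 (ek7_bdd x) (ek7_bdd x)] at h
      simp only [zero_mul, add_zero] at h
      exact (mul_eq_zero.mp h).resolve_left ht0
    have := h3 a m x hexc.1 (ek7_bdd x) hz hx''
    apply hx0
    ext s
    rw [this]
    simp
  · push Not at hvz
    obtain ⟨w, hwU, hw⟩ := h5 0 1
    obtain ⟨c, d, hcd⟩ := hspan w hwU
    have hwz : eS (-a) w k = 0 := by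
      rw [hcd, ek7_coe_comb, hlin (-a) x v c d (ek7_bdd x) (ek7_bdd v)]
      simp only
      rw [hz k hkm, hvz k hkm]
      simp
    have := h4 w 0 1 hw hwz
    simp at this
    linarith

private lemma ek7_root (P Q : ℂ[X]) (μ : ℂ) (x : Hs) (hx : ∀ s, Top P Q x s = μ * x s) :
    x ∈ seqRoot P Q μ := by
  have h0 : Tsh P Q μ (x : ℤ → ℂ) = 0 := by
    funext s
    simp [Tsh, hx s]
  have hT0 : Tsh P Q μ 0 = 0 := by
    funext s
    simp [Tsh, Top, Vop]
  have hi : ∀ i : ℕ, (Tsh P Q μ)^[i] (0 : ℤ → ℂ) = 0 := by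
    intro i
    induction i with
    | zero => rfl
    | succ i ih => rw [Function.iterate_succ_apply, hT0, ih]
  refine ⟨fun i => ?_, 1, ?_⟩
  · cases i with
    | zero => exact lp.memℓp x
    | succ i =>
      rw [Function.iterate_succ_apply, h0, hi]
      exact zero_memℓp
  · rw [Function.iterate_one, h0]

theorem p_EK7 (hE0 : S_E0) (h2 : S_EK2) (h3 : S_EK3) (h4 : S_EK4) (h5 : S_EK5) (h6 : S_EK6)
    (hg1 : S_EG1) (hg2 : S_EG2) : S_EK7 := by
  intro P Q α m hexc hgeo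
  obtain ⟨K, hK0, hK⟩ := h5 P Q
  obtain ⟨k5, hk5⟩ := hK K
  obtain ⟨C6, k6, hC6, hk6⟩ := h6 P Q α m K hexc
  obtain ⟨C4, k4, hC4, hk4⟩ := h4 (-α) K
  obtain ⟨C4', k4', hC4', hk4'⟩ := h4 (- -α) K
  have hexc' : ExcAt P (-α) (1 - m) := hE0.2.1 P α m hexc
  refine ⟨K, fun ε hε => ?_⟩
  obtain ⟨k, hkg, hkb⟩ := ((hgeo K).and_eventually (eventually_ge_atTop
    (max (max (max k5 k6) (max k4 k4')) (max (max 1 ⌈1 / ε⌉₊) (max ⌈C6 / ε⌉₊
      (m.natAbs + 1)))))).exists
  simp only [ge_iff_le, max_le_iff] at hkb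
  obtain ⟨⟨⟨hk5', hk6'⟩, hk4a, hk4b⟩, ⟨hk1, hke⟩, hkc, hkm⟩ := hkb
  have hkpos : (0 : ℝ) < k := by exact_mod_cast hk1
  have hke' : 1 / ε ≤ k := (Nat.le_ceil _).trans (by exact_mod_cast hke)
  have hkc' : C6 / k ≤ ε := by
    have : C6 / ε ≤ k := (Nat.le_ceil _).trans (by exact_mod_cast hkc)
    rw [div_le_iff₀ hε] at this
    rw [div_le_iff₀ hkpos]
    linarith
  have hkm1 : m ≤ k := by omega
  have hkm2 : 1 - m ≤ k := by omega
  obtain ⟨U, hdim, hrap, hTop, -, hsurj, -, heig⟩ := hk5 k hk5' hk1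
  -- the induced map
  have hT : ∀ u : U, ∃ y : U, ∀ s, Top P Q (u : Hs) s = (y : Hs) s := by
    intro u
    obtain ⟨y, hy, hy'⟩ := hTop u u.2
    exact ⟨⟨y, hy⟩, hy'⟩
  choose f hf using hT
  let T : Module.End ℂ U :=
    { toFun := f
      map_add' := by
        intro u w
        apply Subtype.ext
        ext s
        have h1 : (((u + w : U) : Hs) : ℤ → ℂ) = fun s => 1 * (u : Hs) s + 1 * (w : Hs) s := by
          funext s
          simp
        have h2 := hf (u + w) s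
        rw [h1, ek7_Top_lin, hf u s, hf w s] at h2
        rw [← h2]
        simp
      map_smul' := by
        intro t u
        apply Subtype.ext
        ext s
        have h1 : (((t • u : U) : Hs) : ℤ → ℂ) = fun s => t * (u : Hs) s + 0 * (u : Hs) s := by
          funext s
          simp
        have h2 := hf (t • u) s
        rw [h1, ek7_Top_lin, hf u s] at h2
        rw [← h2]
        simp }
  have hTf : ∀ u : U, ∀ s, Top P Q (u : Hs) s = ((T u : U) : Hs) s := hf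
  haveI : FiniteDimensional ℂ U := FiniteDimensional.of_finrank_pos (by rw [hdim]; norm_num)
  haveI : Nontrivial U := Module.nontrivial_of_finrank_pos (R := ℂ) (by rw [hdim]; norm_num)
  obtain ⟨μ, hμ⟩ := Module.End.exists_eigenvalue T
  obtain ⟨x₀, hx₀⟩ := hμ.exists_hasEigenvector
  have hx₀T : T x₀ = μ • x₀ := hx₀.apply_eq_smul
  have hx₀0 : (x₀ : Hs) ≠ 0 := by
    intro h
    exact hx₀.2 (Subtype.ext h)
  have hconv : ∀ (u : U) (c : ℂ), T u = c • u → ∀ s, Top P Q (u : Hs) s = c * (u : Hs) s := by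
    intro u c h s
    rw [hTf, h]
    simp
  have hμb : ‖μ - 4 * (k : ℂ) ^ 2‖ ≤ K := heig μ x₀ x₀.2 hx₀0 (hconv x₀ μ hx₀T)
  -- a vector outside the line of `x₀`
  obtain ⟨v, hv⟩ : ∃ v : U, ∀ t : ℂ, v ≠ t • x₀ := by
    by_contra hcon
    push Not at hcon
    have hle : Module.finrank ℂ U ≤ 1 :=
      finrank_le_one x₀ fun w => by
        obtain ⟨t, ht⟩ := hcon w
        exact ⟨t, ht.symm⟩
    omega
  have hli : LinearIndependent ℂ ![x₀, v] := by
    rw [LinearIndependent.pair_iff' hx₀.2]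
    intro a h
    exact hv a h.symm
  have hspan : ∀ w : U, ∃ c d : ℂ, w = c • x₀ + d • v := by
    intro w
    have htop : Submodule.span ℂ (Set.range ![x₀, v]) = ⊤ :=
      hli.span_eq_top_of_card_eq_finrank' (by simp [hdim])
    have hw : w ∈ Submodule.span ℂ (Set.range ![x₀, v]) := by
      rw [htop]
      exact Submodule.mem_top
    rw [Matrix.range_cons, Matrix.range_cons, Matrix.range_empty, Set.union_empty,
      Set.singleton_union, Submodule.mem_span_pair] at hw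
    obtain ⟨c, d, h⟩ := hw
    exact ⟨c, d, h.symm⟩
  set x : U := T v - μ • v with hx
  have hx0 : (x : Hs) ≠ 0 := by
    intro h
    have h1 : T v = μ • v := by
      have : x = 0 := Subtype.ext h
      rwa [hx, sub_eq_zero] at this
    obtain ⟨t, ht⟩ := hkg μ x₀ v hμb hx₀0 (hconv x₀ μ hx₀T) (hconv v μ h1)
    exact hv t (Subtype.ext ht)
  obtain ⟨c, d, hcd⟩ := hspan x
  have hTx : T x = (μ + d) • x := by
    have h1 : T x - μ • x = d • x := by
      have h2 : T x = c • T x₀ + d • T v := by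
        conv_lhs => rw [hcd]
        rw [map_add, map_smul, map_smul]
      have h3 : μ • x = c • (μ • x₀) + d • (μ • v) := by
        conv_lhs => rw [hcd]
        rw [smul_add, smul_smul, smul_smul, smul_smul, smul_smul, mul_comm μ c, mul_comm μ d]
      rw [h2, h3, hx₀T]
      rw [show c • μ • x₀ + d • T v - (c • μ • x₀ + d • μ • v) = d • (T v - μ • v) by
        rw [smul_sub]; abel]
    rw [add_smul, ← h1]
    abel
  by_cases hd : d = 0
  · -- Jordan block: impossible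
    exfalso
    rw [hd, add_zero] at hTx
    have hxe := hconv x μ hTx
    have hvx : ∀ s, Top P Q (v : Hs) s - μ * (v : Hs) s = (x : Hs) s := by
      intro s
      rw [hTf, hx]
      simp
    have hc0 : c ≠ 0 := by
      intro hc
      apply hx0
      rw [hcd, hc, hd]
      simp
    have hspan' : ∀ w ∈ U, ∃ c d : ℂ, w = c • (x : Hs) + d • (v : Hs) := by
      intro w hw
      obtain ⟨c', d', h⟩ := hspan ⟨w, hw⟩
      refine ⟨c' * c⁻¹, d', ?_⟩
      have h1 : (x : Hs) = c • (x₀ : Hs) := by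
        rw [hcd, hd]
        simp
      have h2 := congrArg (fun z : U => (z : Hs)) h
      simp only [Submodule.coe_add, Submodule.coe_smul] at h2
      rw [h1, smul_smul, mul_assoc, inv_mul_cancel₀ hc0, mul_one]
      exact h2
    have hgeo' : ∀ x y : Hs, x ≠ 0 → (∀ s, Top P Q x s = μ * x s) →
        (∀ s, Top P Q y s = μ * y s) → ∃ t : ℂ, y = t • x :=
      fun x y h1 h2 h3 => hkg μ x y hμb h1 h2 h3
    by_cases hz : ∃ s : ℤ, m ≤ s ∧ eS (-α) (x : Hs) s ≠ 0
    · have hR0 : Rap (0 : ℤ → ℂ) := by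
        intro p
        exact ⟨0, fun s => by simp⟩
      obtain ⟨x', hx'0, hRx', hx'e, hx'z⟩ := h2 P Q α m μ (x : Hs) 0 hexc (hrap x x.2) hR0
        (fun s => by rw [hxe s]; simp) (fun s _ => by rw [hg1.2.2]; rfl) hz
      obtain ⟨t, ht⟩ := hgeo' x ⟨x', hg2.2.2.2 x' hRx'⟩ hx0 hxe hx'e
      have hcoe : x' = fun s => t * (x : Hs) s + 0 * (x : Hs) s := by
        have h := congrArg (fun z : Hs => (z : ℤ → ℂ)) ht
        simp only at h
        rw [ek7_coe_smul] at h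
        exact h
      have ht0 : t ≠ 0 := by
        rintro rfl
        apply hx'0
        rw [hcoe]
        funext s
        simp
      have hx'' : ∀ s : ℤ, 1 - m ≤ s → eS (- -α) (x : Hs) s = 0 := by
        intro s hs
        have h := hx'z s hs
        rw [hcoe, hg2.2.2.1 α (x : Hs) (x : Hs) t 0 (ek7_bdd x) (ek7_bdd x)] at h
        simp only [zero_mul, add_zero] at h
        rw [neg_neg]
        exact (mul_eq_zero.mp h).resolve_left ht0
      exact ek7_claim h2 h3 hg2 P Q (-α) (1 - m) K C4' k hkm2 hexc' (hk4' k hk4b hk1) μ hgeo'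
        x v hx0 hxe hvx (hrap x x.2) (hrap v v.2) U hspan' hsurj hx''
    · push Not at hz
      exact ek7_claim h2 h3 hg2 P Q α m K C4 k hkm1 hexc (hk4 k hk4a hk1) μ hgeo'
        x v hx0 hxe hvx (hrap x x.2) (hrap v v.2) U hspan' hsurj hz
  · -- two different eigenvalues
    have hxe := hconv x (μ + d) hTx
    have hμb2 : ‖μ + d - 4 * (k : ℂ) ^ 2‖ ≤ K := heig (μ + d) x x.2 hx0 hxe
    obtain ⟨f₁, hf1, hf1'⟩ := hk6 k hk6' hk1 μ x₀ hμb hx₀0 (hconv x₀ μ hx₀T)
    obtain ⟨f₂, hf2, hf2'⟩ := hk6 k hk6' hk1 (μ + d) x hμb2 hx0 hxe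
    refine ⟨k, f₁, f₂, μ, μ + d, -(k : ℤ), hke', ?_, hμb, hμb2, ek7_root P Q μ f₁ hf1,
      ek7_root P Q _ f₂ hf2, hf1'.trans hkc', hf2'.trans hkc'⟩
    intro h
    apply hd
    have : μ + 0 = μ + d := by rw [add_zero]; exact h
    exact (add_left_cancel this).symm

end HillRoots
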