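import Pool.Agent.Lib.MP_e63cf8_mp.H.StmH

/-!
# MP_e63cf8_mp, piece EK8: reflection
-/

open Polynomial Filter Topology MeasureTheory Asymptotics

namespace HillRoots

private theorem ek8_top (P Q : ℂ[X]) (x : ℤ → ℂ) (s : ℤ) :
    Top Q P (fun t => x (-t)) s = Top P Q x (-s) := by
  unfold Top Vop
  have e1 : ∀ j : ℕ, x (-(s - (j : ℤ))) = x (-s + j) := fun j => by congr 1; ring
  have e2 : ∀ j : ℕ, x (-(s + (j : ℤ))) = x (-s - j) := fun j => by congr 1; ring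
  simp only [e1, e2]
  push_cast
  ring

private theorem ek8_tsh (P Q : ℂ[X]) (μ : ℂ) (x : ℤ → ℂ) :
    Tsh Q P μ (fun t => x (-t)) = fun s => Tsh P Q μ x (-s) := by
  funext s
  unfold Tsh
  rw [ek8_top]

private theorem ek8_iter (P Q : ℂ[X]) (μ : ℂ) (x : ℤ → ℂ) (i : ℕ) :
    (Tsh Q P μ)^[i] (fun t => x (-t)) = fun s => (Tsh P Q μ)^[i] x (-s) := by
  induction i with
  | zero => rfl
  | succ i ih => rw [Function.iterate_succ_apply', ih, ek8_tsh, Function.iterate_succ_apply']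

private theorem ek8_mem {x : ℤ → ℂ} (h : Memℓp x 2) : Memℓp (fun s : ℤ => x (-s)) 2 := by
  rw [memℓp_gen_iff (by norm_num)] at h ⊢
  exact h.comp_injective neg_injective

/-- the reflection -/
private noncomputable def ek8_R (x : Hs) : Hs := ⟨fun s => x (-s), ek8_mem (lp.memℓp x)⟩

private theorem ek8_R_apply (x : Hs) (s : ℤ) : (ek8_R x : ℤ → ℂ) s = x (-s) := rfl

private theorem ek8_norm (x : Hs) : ‖ek8_R x‖ = ‖x‖ := by
  rw [lp.norm_eq_tsum_rpow (by norm_num), lp.norm_eq_tsum_rpow (by norm_num)]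
  congr 1
  exact (Equiv.neg ℤ).tsum_eq (fun i => ‖x i‖ ^ (2 : ENNReal).toReal)

private theorem ek8_sub (x y : Hs) : ek8_R (x - y) = ek8_R x - ek8_R y := rfl

private theorem ek8_smul (c : ℂ) (x : Hs) : ek8_R (c • x) = c • ek8_R x := rfl

private theorem ek8_ee (j i : ℤ) : (ee j : ℤ → ℂ) i = if i = j then 1 else 0 := by
  unfold ee
  rw [lp.single_apply, Pi.single_apply]

private theorem ek8_R_ee (j : ℤ) : ek8_R (ee j) = ee (-j) := by
  apply lp.ext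
  funext s
  rw [ek8_R_apply, ek8_ee, ek8_ee]
  by_cases h : s = -j
  · rw [if_pos h, if_pos (by rw [h, neg_neg])]
  · rw [if_neg h, if_neg (fun h' => h (by rw [← h', neg_neg]))]

private theorem ek8_root {P Q : ℂ[X]} {μ : ℂ} {x : Hs} (h : x ∈ seqRoot P Q μ) :
    ek8_R x ∈ seqRoot Q P μ := by
  obtain ⟨h1, N, h2⟩ := h
  refine ⟨fun i => ?_, N, ?_⟩
  · have : (Tsh Q P μ)^[i] (ek8_R x : ℤ → ℂ) = fun s => (Tsh P Q μ)^[i] x (-s) :=
      ek8_iter P Q μ x i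
    rw [this]
    exact ek8_mem (h1 i)
  · have : (Tsh Q P μ)^[N] (ek8_R x : ℤ → ℂ) = fun s => (Tsh P Q μ)^[N] x (-s) :=
      ek8_iter P Q μ x N
    rw [this, h2]
    rfl

private theorem ek8_dist (x : Hs) (j : ℤ) : ‖ek8_R x - ee (-j)‖ = ‖x - ee j‖ := by
  rw [← ek8_R_ee, ← ek8_sub, ek8_norm]

private theorem ek8_dist2 (x : Hs) (p q : ℂ) (k : ℕ) :
    ‖ek8_R x - q • ee (-(k : ℤ)) - p • ee k‖ = ‖x - p • ee (-(k : ℤ)) - q • ee k‖ := by
  rw [← ek8_norm (x - p • ee (-(k : ℤ)) - q • ee k), ek8_sub, ek8_sub, ek8_smul, ek8_smul,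
    ek8_R_ee, ek8_R_ee, neg_neg, sub_right_comm]

theorem p_EK8 : S_EK8 := by
  refine ⟨fun P Q x s => ek8_top P Q x s, ?_, ?_, ?_⟩
  · rintro P Q ⟨K, h⟩
    refine ⟨K, fun ε hε => ?_⟩
    obtain ⟨k, f, g, a, b, j, h1, h2, h3, h4, h5, h6, h7, h8⟩ := h ε hε
    refine ⟨k, ek8_R f, ek8_R g, a, b, -j, h1, h2, h3, h4, ek8_root h5, ek8_root h6, ?_, ?_⟩
    · rw [ek8_dist]
      exact h7
    · rw [ek8_dist]
      exact h8
  · rintro P Q ⟨k₀, K, hK, h⟩
    refine ⟨k₀, K, hK, fun k hk hk1 => ?_⟩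
    obtain ⟨f, g, a, b, p, q, p', q', h1, h2, h3, h4, h5, h6, h7, h8, h9, h10, h11⟩ := h k hk hk1
    refine ⟨ek8_R f, ek8_R g, a, b, q, p, q', p', ek8_root h1, ek8_root h2, h3, h4, ?_, ?_,
      h8, h7, h10, h9, ?_⟩
    · rw [ek8_dist2]
      exact h5
    · rw [ek8_dist2]
      exact h6
    · rw [norm_sub_rev, mul_comm q' p, mul_comm q p']
      exact h11
  · intro P Q μ x h
    refine ⟨ek8_R x, fun s => rfl, fun s => ?_, fun j => ?_⟩
    · have : Top Q P (ek8_R x : ℤ → ℂ) s = Top P Q x (-s) := ek8_top P Q x s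
      rw [this, h (-s)]
      rfl
    · have := ek8_dist x (-j)
      rwa [neg_neg] at this

end HillRoots
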