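import Pool.Agent.Lib.MP_e63cf8_mp.H.StmH

/-!
# MP_e63cf8_mp, piece EK9: two exceptional sides, good pairs
-/

open Polynomial Filter Topology MeasureTheory Asymptotics

namespace HillRoots

private theorem p_EK9_Top_lin (P Q : ℂ[X]) (x y : ℤ → ℂ) (c : ℂ) (s : ℤ) :
    Top P Q (fun t => c * x t + y t) s = c * Top P Q x s + Top P Q y s := by
  simp only [Top, Vop]
  have h1 : ∀ (R : ℂ[X]) (f : ℕ → ℤ), ∑ j ∈ Finset.range (R.natDegree + 1),
      R.coeff j * (c * x (f j) + y (f j)) =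
      c * ∑ j ∈ Finset.range (R.natDegree + 1), R.coeff j * x (f j) +
        ∑ j ∈ Finset.range (R.natDegree + 1), R.coeff j * y (f j) := by
    intro R f
    rw [Finset.mul_sum, ← Finset.sum_add_distrib]
    refine Finset.sum_congr rfl fun j _ => ?_
    ring
  rw [h1 P (fun j => s - j), h1 Q (fun j => s + j)]
  ring

private theorem p_EK9_Tsh_zero (P Q : ℂ[X]) (μ : ℂ) : Tsh P Q μ 0 = 0 := by
  funext s
  simp [Tsh, Top, Vop]

private theorem p_EK9_mem (P Q : ℂ[X]) (μ : ℂ) (x : Hs) (h : ∀ s, Top P Q x s = μ * x s) :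
    x ∈ seqRoot P Q μ := by
  have h0 : Tsh P Q μ x = 0 := by
    funext s
    simp only [Tsh, h s, sub_self, Pi.zero_apply]
  have hz : ∀ i : ℕ, (Tsh P Q μ)^[i] 0 = 0 := by
    intro i
    induction i with
    | zero => rfl
    | succ i ih => rw [Function.iterate_succ_apply, p_EK9_Tsh_zero, ih]
  refine ⟨fun i => ?_, 1, h0⟩
  cases i with
  | zero => exact lp.memℓp x
  | succ i =>
    rw [Function.iterate_succ_apply, h0, hz]
    exact zero_memℓp

theorem p_EK9 (hEK5 : S_EK5) (hEK6 : S_EK6) (hEK8 : S_EK8) : S_EK9 := by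
  intro P Q α β m m' hα hβ
  obtain ⟨K, hK, h5⟩ := hEK5 P Q
  obtain ⟨k5, h5⟩ := h5 K
  obtain ⟨C1, k1, hC1, h61⟩ := hEK6 P Q α m K hα
  obtain ⟨C2, k2, hC2, h62⟩ := hEK6 Q P β m' K hβ
  obtain ⟨_, _, _, h8⟩ := hEK8
  refine ⟨max k5 (max k1 k2), K + C1 + C2 + 1, by positivity, fun k hk hk1 => ?_⟩
  have hk5 : k5 ≤ k := le_trans (le_max_left _ _) hk
  have hkk1 : k1 ≤ k := le_trans (le_trans (le_max_left _ _) (le_max_right _ _)) hk
  have hkk2 : k2 ≤ k := le_trans (le_trans (le_max_right _ _) (le_max_right _ _)) hk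
  obtain ⟨U, hU2, _, hU3, _, _, _, hU7⟩ := h5 k hk5 hk1
  have hkpos : (0 : ℝ) < k := by exact_mod_cast hk1
  -- the induced endomorphism
  choose! T hTU hT using hU3
  let L : U →ₗ[ℂ] U :=
    { toFun := fun x => ⟨T x, hTU x x.2⟩
      map_add' := by
        intro x y
        apply Subtype.ext
        apply lp.ext
        funext s
        have e1 := hT (x + y : Hs) (U.add_mem x.2 y.2) s
        have e2 := p_EK9_Top_lin P Q (x : Hs) (y : Hs) 1 s
        have e3 : (fun t => 1 * (x : Hs) t + (y : Hs) t) = (((x : Hs) + (y : Hs) : Hs) : ℤ → ℂ) := by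
          funext t
          rw [one_mul]
          rfl
        rw [e3] at e2
        have e4 := hT x x.2 s
        have e5 := hT y y.2 s
        change T ((x : Hs) + (y : Hs)) s = T (x : Hs) s + T (y : Hs) s
        rw [← e1, e2, e4, e5, one_mul]
      map_smul' := by
        intro c x
        apply Subtype.ext
        apply lp.ext
        funext s
        have e1 := hT (c • (x : Hs)) (U.smul_mem c x.2) s
        have e2 := p_EK9_Top_lin P Q (x : Hs) 0 c s
        have e3 : (fun t => c * (x : Hs) t + (0 : ℤ → ℂ) t) = ((c • (x : Hs) : Hs) : ℤ → ℂ) := by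
          funext t
          change c * (x : Hs) t + 0 = c * (x : Hs) t
          rw [add_zero]
        rw [e3] at e2
        have e4 := hT x x.2 s
        have e5 : Top P Q (0 : ℤ → ℂ) s = 0 := by simp [Top, Vop]
        change T (c • (x : Hs)) s = c * T (x : Hs) s
        rw [← e1, e2, e4, e5, add_zero] }
  have hfd : FiniteDimensional ℂ U := Module.finite_of_finrank_pos (by rw [hU2]; norm_num)
  have hnt : Nontrivial U := Module.nontrivial_of_finrank_pos (R := ℂ) (by rw [hU2]; norm_num)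
  obtain ⟨μ, hμ⟩ := Module.End.exists_eigenvalue L
  obtain ⟨x, hx⟩ := hμ.exists_hasEigenvector
  have hx0 : (x : Hs) ≠ 0 := fun h => hx.2 (Subtype.ext h)
  have hxT : ∀ s, Top P Q (x : Hs) s = μ * (x : Hs) s := by
    intro s
    rw [hT x x.2 s]
    have h1 : L x = μ • x := hx.apply_eq_smul
    have h2 : T (x : Hs) = μ • (x : Hs) := congrArg Subtype.val h1
    rw [h2]
    rfl
  have hμK : ‖μ - 4 * (k : ℂ) ^ 2‖ ≤ K := hU7 μ x x.2 hx0 hxT
  obtain ⟨f, hf, hf2⟩ := h61 k hkk1 hk1 μ x hμK hx0 hxT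
  obtain ⟨x'', hx1, hx2, _⟩ := h8 P Q μ x hxT
  have hx''0 : x'' ≠ 0 := by
    intro h
    apply hx0
    apply lp.ext
    funext s
    have h1 := hx1 (-s)
    rw [neg_neg, h] at h1
    exact h1.symm
  obtain ⟨g', hg, hg2⟩ := h62 k hkk2 hk1 μ x'' hμK hx''0 hx2
  obtain ⟨g, _, hgT, hgn⟩ := h8 Q P μ g' hg
  have hg3 : ‖g - ee k‖ ≤ C2 / k := by
    rw [hgn]
    exact hg2
  have hm1 : C1 / k ≤ (K + C1 + C2 + 1) / k :=
    div_le_div_of_nonneg_right (by linarith) hkpos.le
  have hm2 : C2 / k ≤ (K + C1 + C2 + 1) / k :=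
    div_le_div_of_nonneg_right (by linarith) hkpos.le
  refine ⟨f, g, μ, μ, 1, 0, 0, 1, p_EK9_mem P Q μ f hf, p_EK9_mem P Q μ g hgT, by linarith,
    by linarith, ?_, ?_, ?_, ?_, ?_, ?_, ?_⟩
  · rw [one_smul, zero_smul, sub_zero]
    exact hf2.trans hm1
  · rw [one_smul, zero_smul, sub_zero]
    exact hg3.trans hm2
  · rw [norm_one]; linarith
  · rw [norm_zero]; linarith
  · rw [norm_zero]; linarith
  · rw [norm_one]; linarith
  · rw [one_mul, zero_mul, sub_zero, norm_one]
    rw [div_le_one (by linarith)]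
    linarith

end HillRoots
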