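import Pool.Agent.Lib.MP_e63cf8_mp.H.StmI

/-!
# MP_e63cf8_mp, piece I1: the rate of the forcing in the normalised recursion
-/

open Polynomial Filter Topology MeasureTheory Asymptotics

namespace HillRoots

private theorem I1_prod {b : ℕ → ℝ} {n : ℕ} (hb : ∀ k, k < n → 1 / 2 ≤ b k ∧ b k ≤ 2) :
    (∀ s, s < n → 0 < ∏ i ∈ Finset.Icc 1 s, b i) ∧
    (∀ s, s < n → 1 ≤ 2 ^ s * ∏ i ∈ Finset.Icc 1 s, b i) ∧
    ∀ j s, s + j < n → (∏ i ∈ Finset.Icc 1 (s + j), b i) ≤ 2 ^ j * ∏ i ∈ Finset.Icc 1 s, b i ∧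
      (∏ i ∈ Finset.Icc 1 s, b i) ≤ 2 ^ j * ∏ i ∈ Finset.Icc 1 (s + j), b i := by
  have hpos : ∀ s, s < n → 0 < ∏ i ∈ Finset.Icc 1 s, b i := by
    intro s hs
    refine Finset.prod_pos fun i hi => ?_
    have := (hb i (lt_of_le_of_lt (Finset.mem_Icc.1 hi).2 hs)).1
    linarith
  have hstep : ∀ s, ∏ i ∈ Finset.Icc 1 (s + 1), b i = (∏ i ∈ Finset.Icc 1 s, b i) * b (s + 1) :=
    fun s => Finset.prod_Icc_succ_top (by omega) _
  refine ⟨hpos, ?_, ?_⟩
  · intro s
    induction s with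
    | zero => intro _; simp
    | succ s ih =>
      intro hs
      have h1 := ih (by omega)
      have h2 := (hb (s + 1) hs).1
      rw [hstep]
      have h3 : 0 < 2 ^ s * ∏ i ∈ Finset.Icc 1 s, b i := by linarith
      calc (1 : ℝ) ≤ 2 ^ s * ∏ i ∈ Finset.Icc 1 s, b i := h1
        _ ≤ (2 ^ s * ∏ i ∈ Finset.Icc 1 s, b i) * (2 * b (s + 1)) :=
            le_mul_of_one_le_right h3.le (by linarith)
        _ = _ := by ring
  · intro j
    induction j with
    | zero => intro s _; simp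
    | succ j ih =>
      intro s hs
      obtain ⟨h1, h2⟩ := ih s (by omega)
      obtain ⟨h3, h4⟩ := hb (s + j + 1) (by omega)
      have e : s + (j + 1) = s + j + 1 := by omega
      rw [e, hstep]
      have h5 := hpos (s + j) (by omega)
      have h6 := hpos s (by omega)
      constructor
      · calc (∏ i ∈ Finset.Icc 1 (s + j), b i) * b (s + j + 1)
            ≤ (∏ i ∈ Finset.Icc 1 (s + j), b i) * 2 := mul_le_mul_of_nonneg_left h4 h5.le
          _ ≤ (2 ^ j * ∏ i ∈ Finset.Icc 1 s, b i) * 2 := mul_le_mul_of_nonneg_right h1 (by norm_num)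
          _ = _ := by ring
      · calc ∏ i ∈ Finset.Icc 1 s, b i ≤ 2 ^ j * ∏ i ∈ Finset.Icc 1 (s + j), b i := h2
          _ ≤ (2 ^ j * ∏ i ∈ Finset.Icc 1 (s + j), b i) * (2 * b (s + j + 1)) :=
            le_mul_of_one_le_right (by positivity) (by linarith)
          _ = _ := by ring

private theorem I1_sum (n : ℕ) (hn : 3 ≤ n) :
    ∑ k ∈ Finset.Icc 1 (n - 1), 1 / En n k ≤ Real.log n / n := by
  have hn0 : (0 : ℝ) < n := by
    have : 0 < n := by omega
    exact_mod_cast this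
  have h1 : ∀ k ∈ Finset.Icc 1 (n - 1), 1 / En n k =
      1 / (4 * (n : ℝ)) * ((k : ℝ)⁻¹ + ((n - k : ℕ) : ℝ)⁻¹) := by
    intro k hk
    obtain ⟨hk1, hk2⟩ := Finset.mem_Icc.1 hk
    have hk0 : (0 : ℝ) < k := by exact_mod_cast hk1
    have hnk : (0 : ℝ) < (n : ℝ) - k := by
      have : (k : ℝ) < n := by exact_mod_cast (by omega : k < n)
      linarith
    rw [Nat.cast_sub (by omega)]
    have : En n k = 4 * (k : ℝ) * ((n : ℝ) - k) := by
      unfold En
      push_cast
      ring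
    rw [this]
    field_simp
    ring
  rw [Finset.sum_congr rfl h1, ← Finset.mul_sum, Finset.sum_add_distrib]
  have h2 : ∑ k ∈ Finset.Icc 1 (n - 1), ((n - k : ℕ) : ℝ)⁻¹ =
      ∑ k ∈ Finset.Icc 1 (n - 1), (k : ℝ)⁻¹ := by
    refine Finset.sum_bij' (fun k _ => n - k) (fun k _ => n - k) ?_ ?_ ?_ ?_ ?_
    · intro k hk
      obtain ⟨hk1, hk2⟩ := Finset.mem_Icc.1 hk
      exact Finset.mem_Icc.2 ⟨by omega, by omega⟩
    · intro k hk
      obtain ⟨hk1, hk2⟩ := Finset.mem_Icc.1 hk
      exact Finset.mem_Icc.2 ⟨by omega, by omega⟩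
    · intro k hk
      obtain ⟨hk1, hk2⟩ := Finset.mem_Icc.1 hk
      omega
    · intro k hk
      obtain ⟨hk1, hk2⟩ := Finset.mem_Icc.1 hk
      omega
    · intro k hk
      rfl
  have h3 : ∑ k ∈ Finset.Icc 1 (n - 1), (k : ℝ)⁻¹ = ((harmonic (n - 1) : ℚ) : ℝ) := by
    rw [harmonic_eq_sum_Icc]
    push_cast
    rfl
  have h4 : ((harmonic (n - 1) : ℚ) : ℝ) ≤ 1 + Real.log ((n - 1 : ℕ) : ℝ) :=
    harmonic_le_one_add_log (n - 1)
  have h5 : Real.log ((n - 1 : ℕ) : ℝ) ≤ Real.log n := by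
    apply Real.log_le_log
    · exact_mod_cast (by omega : 0 < n - 1)
    · exact_mod_cast (by omega : n - 1 ≤ n)
  have h6 : (1 : ℝ) ≤ Real.log n := by
    rw [Real.le_log_iff_exp_le hn0]
    have h7 : Real.exp 1 < 2.7182818286 := Real.exp_one_lt_d9
    have h8 : (3 : ℝ) ≤ n := by exact_mod_cast hn
    linarith
  rw [h2, h3]
  calc 1 / (4 * (n : ℝ)) * (((harmonic (n - 1) : ℚ) : ℝ) + ((harmonic (n - 1) : ℚ) : ℝ))
      ≤ 1 / (4 * (n : ℝ)) * (4 * Real.log n) := by
        apply mul_le_mul_of_nonneg_left _ (by positivity)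
        linarith
    _ = Real.log n / n := by
        field_simp

theorem p_I1 (hH1 : S_H1) (hH3 : S_H3) (hU1 : S_U1) (hA1 : S_A1) : S_I1 := by
  intro P Q c g τ₀ K δ Z hP0 hQ0 hB
  obtain ⟨M, hMd⟩ : ∃ M, M = P.natDegree := ⟨_, rfl⟩
  obtain ⟨J, hJd⟩ : ∃ J, J = Q.natDegree := ⟨_, rfl⟩
  have hM : 1 ≤ M := hMd ▸ hB.ld.hM
  obtain ⟨C₃, hC₃, hH⟩ := hH3 M J c hM hB.c0
  obtain ⟨C₁, hC₁, hA⟩ := hA1 P Q c g τ₀ K δ Z hB
  obtain ⟨Sa, hSa⟩ : ∃ Sa, Sa = ∑ j ∈ Finset.range (M + 1), ‖P.coeff j‖ := ⟨_, rfl⟩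
  obtain ⟨Sb, hSb⟩ : ∃ Sb, Sb = ∑ j ∈ Finset.range (J + 1), ‖Q.coeff j‖ := ⟨_, rfl⟩
  have hSa0 : 0 ≤ Sa := hSa ▸ Finset.sum_nonneg fun _ _ => norm_nonneg _
  have hSb0 : 0 ≤ Sb := hSb ▸ Finset.sum_nonneg fun _ _ => norm_nonneg _
  obtain ⟨c1, hc1⟩ : ∃ c1, c1 = C₁ * C₃ * 2 ^ M := ⟨_, rfl⟩
  obtain ⟨c2, hc2⟩ : ∃ c2, c2 = (2 * C₃) ^ J + C₁ * C₃ * 2 ^ (J + M) := ⟨_, rfl⟩
  obtain ⟨Ct, hCt⟩ : ∃ Ct, Ct = |Z| + Sa * c1 + Sb * c2 + 1 := ⟨_, rfl⟩
  have hc10 : 0 ≤ c1 := by rw [hc1]; positivity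
  have hc20 : 0 ≤ c2 := by rw [hc2]; positivity
  have hCt0 : 0 ≤ Ct := by rw [hCt]; positivity
  refine ⟨Ct, by rw [hCt]; positivity, ?_⟩
  filter_upwards [hH, hA, hU1 M τ₀ hM hB.ld.ht, eventually_ge_atTop (M + 1),
    eventually_ge_atTop 3] with n h3 ha hu hn hn3
  intro z γ Φ A φ x hz hΦ hA0 hsol hforc hwbd
  obtain ⟨hneg, hpos⟩ := ha z γ Φ A φ x hz hΦ hA0 hsol hforc hwbd
  obtain ⟨h31, h32, h33, h34⟩ := h3
  obtain ⟨_, hne, hrec⟩ := hH1 M n c hM hB.c0 (by omega)
  rw [← hMd] at hpos ⊢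
  have hn0 : (0 : ℝ) < n := by
    have : 0 < n := by omega
    exact_mod_cast this
  -- the branch products
  obtain ⟨hGpos, hGlow, hGstep⟩ := I1_prod (b := fun k => ‖br M c g 0 (tau M n k)‖) (n := n)
    fun k hk => by
      have h := hu k hk
      have e1 := hB.ld.low 0 (by rw [← hMd]; omega) (tau M n k) h
      have e2 := hB.ld.upp 0 (by rw [← hMd]; omega) (tau M n k) h
      rw [← hMd] at e1 e2
      exact ⟨e1, e2⟩
  have hG : ∀ s, ∏ i ∈ Finset.Icc 1 s, ‖br M c g 0 (tau M n i)‖ = GG M c g n s := fun s => rfl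
  simp only [hG] at hGpos hGlow hGstep
  -- the weights
  have hhstep : ∀ j s, s + j < n → ‖hh M c n (s + j)‖ ≤ C₃ ^ j * ‖hh M c n s‖ := by
    intro j
    induction j with
    | zero => intro s _; simp
    | succ j ih =>
      intro s hs
      have e : s + (j + 1) = s + j + 1 := by omega
      rw [e]
      calc ‖hh M c n (s + j + 1)‖ ≤ C₃ * ‖hh M c n (s + j)‖ := h31 (s + j) (by omega)
        _ ≤ C₃ * (C₃ ^ j * ‖hh M c n s‖) :=
            mul_le_mul_of_nonneg_left (ih s (by omega)) (by linarith)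
        _ = _ := by ring
  obtain ⟨u, hud⟩ : ∃ u : ℤ → ℂ, u = fun s => if 0 ≤ s then x s / hh M c n s.toNat else 0 :=
    ⟨_, rfl⟩
  have hu0 : ∀ s : ℤ, s < 0 → u s = 0 := fun s hs => by
    rw [hud]
    exact if_neg (by omega)
  have hu1 : ∀ s : ℕ, u s = x s / hh M c n s := fun s => by
    rw [hud]
    simp
  obtain ⟨r, hr⟩ : ∃ r : ℕ → ℂ, r = fun s : ℕ => u s - u ((s : ℤ) - M) -
    ∑ j ∈ Finset.Ico 1 M, ff P c n s j * u ((s : ℤ) - j) := ⟨_, rfl⟩
  refine ⟨u, r, hu0, fun s _ => hu1 s, fun s _ _ => by rw [hr]; ring, ?_⟩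
  have hmain : ∀ s ∈ Finset.Icc 1 (n - 1), ‖r s‖ / GG M c g n s ≤ Ct * (1 / En n s) * (A + Φ) := by
    intro s hs
    obtain ⟨hs1, hs2⟩ := Finset.mem_Icc.1 hs
    have hsn : s < n := by omega
    have hEpos : 0 < En n s := by
      have h1 : (1 : ℝ) ≤ s := by exact_mod_cast hs1
      have h2 : (s : ℝ) < n := by exact_mod_cast hsn
      have h4 : (0 : ℝ) < (n : ℝ) - s := by linarith
      have : En n s = 4 * (s : ℝ) * ((n : ℝ) - s) := by
        unfold En
        push_cast
        ring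
      rw [this]
      positivity
    have hh0 : hh M c n s ≠ 0 := hne s hsn
    have hHpos : 0 < ‖hh M c n s‖ := norm_pos_iff.2 hh0
    have hGs := hGpos s hsn
    obtain ⟨Wt, hWt⟩ : ∃ Wt, Wt = ‖hh M c n s‖ * GG M c g n s := ⟨_, rfl⟩
    have hWt0 : 0 < Wt := hWt ▸ mul_pos hHpos hGs
    obtain ⟨e, he⟩ : ∃ e : ℂ, e = (En n s : ℂ) * hh M c n s := ⟨_, rfl⟩
    have hEc : (En n s : ℂ) ≠ 0 := by exact_mod_cast hEpos.ne'
    have he0 : e ≠ 0 := he ▸ mul_ne_zero hEc hh0
    have heqn := hsol.eqn s (by omega) (by omega)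
    have hVop : Vop P Q x s = ∑ j ∈ Finset.range (M + 1), P.coeff j * x ((s : ℤ) - j) +
        ∑ j ∈ Finset.range (J + 1), Q.coeff j * x ((s : ℤ) + j) := by
      rw [hMd, hJd]
      rfl
    -- the first sum
    have hfirst : ∑ j ∈ Finset.range (M + 1), P.coeff j * x ((s : ℤ) - j) =
        e * (u ((s : ℤ) - M) + ∑ j ∈ Finset.Ico 1 M, ff P c n s j * u ((s : ℤ) - j)) +
        ∑ j ∈ Finset.range (M + 1), (if s < j then P.coeff j * x ((s : ℤ) - j) else 0) := by
      have hterm : ∀ j, 1 ≤ j → j < M → P.coeff j * x ((s : ℤ) - j) =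
          e * (ff P c n s j * u ((s : ℤ) - j)) +
            (if s < j then P.coeff j * x ((s : ℤ) - j) else 0) := by
        intro j hj1 hj2
        by_cases hsj : s < j
        · rw [if_pos hsj, hu0 _ (by omega)]
          ring
        · have e1 : ((s : ℤ) - j) = ((s - j : ℕ) : ℤ) := by omega
          have h5 : hh M c n (s - j) ≠ 0 := hne (s - j) (by omega)
          rw [if_neg hsj, e1, hu1, ff, if_pos (by omega), ← hMd, ← he]
          field_simp
          ring
      have hlast : P.coeff M * x ((s : ℤ) - M) = e * u ((s : ℤ) - M) +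
          (if s < M then P.coeff M * x ((s : ℤ) - M) else 0) := by
        by_cases hsj : s < M
        · rw [if_pos hsj, hu0 _ (by omega)]
          ring
        · have e1 : ((s : ℤ) - M) = ((s - M : ℕ) : ℤ) := by omega
          have h5 : hh M c n (s - M) ≠ 0 := hne (s - M) (by omega)
          have h6 : P.coeff M = c ^ M := by
            rw [hMd, hB.hc]
            rfl
          rw [if_neg hsj, e1, hu1, he, ← hrec s (by omega) hsn, h6]
          field_simp
          ring
      have h0 : P.coeff 0 * x ((s : ℤ) - (0 : ℕ)) = 0 := by rw [hP0, zero_mul]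
      have hsplit : ∀ F : ℕ → ℂ, ∑ j ∈ Finset.range (M + 1), F j =
          F 0 + ∑ j ∈ Finset.Ico 1 M, F j + F M := by
        intro F
        rw [Finset.sum_range_succ, Finset.range_eq_Ico,
          Finset.sum_eq_sum_Ico_succ_bot (by omega : 0 < M)]
      have hsum : ∑ j ∈ Finset.Ico 1 M, P.coeff j * x ((s : ℤ) - j) =
          e * ∑ j ∈ Finset.Ico 1 M, ff P c n s j * u ((s : ℤ) - j) +
            ∑ j ∈ Finset.Ico 1 M, (if s < j then P.coeff j * x ((s : ℤ) - j) else 0) := by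
        rw [Finset.sum_congr rfl fun j hj => hterm j (Finset.mem_Ico.1 hj).1
          (Finset.mem_Ico.1 hj).2, Finset.sum_add_distrib, ← Finset.mul_sum]
      have h0' : (if s < 0 then P.coeff 0 * x ((s : ℤ) - (0 : ℕ)) else 0) = 0 :=
        if_neg (by omega)
      rw [hsplit, hsplit]
      linear_combination h0 + hsum + hlast - h0'
    have her : e * r s = -z * x s +
        ∑ j ∈ Finset.range (M + 1), (if s < j then P.coeff j * x ((s : ℤ) - j) else 0) +
        ∑ j ∈ Finset.range (J + 1), Q.coeff j * x ((s : ℤ) + j) + φ s := by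
      have h7 : e * u s = (En n s : ℂ) * x s := by
        rw [hu1, he]
        field_simp
      have h8 : e * r s = e * u s - e * (u ((s : ℤ) - M) +
          ∑ j ∈ Finset.Ico 1 M, ff P c n s j * u ((s : ℤ) - j)) := by
        rw [hr]
        ring
      rw [h8, h7]
      rw [hVop, hfirst] at heqn
      linear_combination heqn
    -- the bounds
    have hxs : ‖x s‖ ≤ A * Wt := by
      have := hwbd s hsn
      rwa [← hMd, ← hWt] at this
    have hAΦ : 0 ≤ A + Φ := by linarith
    have b1 : ‖-z * x s‖ ≤ |Z| * (A + Φ) * Wt := by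
      rw [norm_mul, norm_neg]
      have h1 : ‖z‖ ≤ |Z| := hz.trans (le_abs_self Z)
      calc ‖z‖ * ‖x s‖ ≤ |Z| * (A * Wt) :=
            mul_le_mul h1 hxs (norm_nonneg _) (abs_nonneg _)
        _ ≤ |Z| * ((A + Φ) * Wt) := mul_le_mul_of_nonneg_left
            (mul_le_mul_of_nonneg_right (by linarith) hWt0.le) (abs_nonneg _)
        _ = _ := by ring
    have b2 : ‖∑ j ∈ Finset.range (M + 1), (if s < j then P.coeff j * x ((s : ℤ) - j) else 0)‖ ≤
        Sa * c1 * (A + Φ) * Wt := by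
      refine (norm_sum_le _ _).trans ?_
      have h1 : ∀ j ∈ Finset.range (M + 1), ‖(if s < j then P.coeff j * x ((s : ℤ) - j) else 0)‖ ≤
          ‖P.coeff j‖ * (c1 * (A + Φ) * Wt) := by
        intro j hj
        rw [Finset.mem_range] at hj
        by_cases hsj : s < j
        · rw [if_pos hsj, norm_mul]
          refine mul_le_mul_of_nonneg_left ?_ (norm_nonneg _)
          have h2 := hneg ((s : ℤ) - j) (by omega)
          have h4 := h34 s (by omega)
          have h5 : 1 ≤ 2 ^ M * GG M c g n s := by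
            refine (hGlow s hsn).trans (mul_le_mul_of_nonneg_right ?_ hGs.le)
            exact pow_le_pow_right₀ (by norm_num) (by omega)
          calc ‖x ((s : ℤ) - j)‖ ≤ C₁ / n * (A + Φ) := h2
            _ ≤ C₁ / n * (A + Φ) * (C₃ * n * ‖hh M c n s‖) :=
                le_mul_of_one_le_right (by positivity) h4
            _ ≤ C₁ / n * (A + Φ) * (C₃ * n * ‖hh M c n s‖) * (2 ^ M * GG M c g n s) :=
                le_mul_of_one_le_right (by positivity) h5
            _ = c1 * (A + Φ) * Wt := by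
                rw [hc1, hWt]
                field_simp
        · rw [if_neg hsj, norm_zero]
          positivity
      refine (Finset.sum_le_sum h1).trans (le_of_eq ?_)
      rw [← Finset.sum_mul, ← hSa]
      ring
    have b3 : ‖∑ j ∈ Finset.range (J + 1), Q.coeff j * x ((s : ℤ) + j)‖ ≤
        Sb * c2 * (A + Φ) * Wt := by
      refine (norm_sum_le _ _).trans ?_
      have h1 : ∀ j ∈ Finset.range (J + 1), ‖Q.coeff j * x ((s : ℤ) + j)‖ ≤
          ‖Q.coeff j‖ * (c2 * (A + Φ) * Wt) := by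
        intro j hj
        rw [Finset.mem_range] at hj
        rw [norm_mul]
        refine mul_le_mul_of_nonneg_left ?_ (norm_nonneg _)
        have hc2a : (2 * C₃) ^ J ≤ c2 := by
          rw [hc2]
          exact le_add_of_nonneg_right (by positivity)
        have hc2b : C₁ * C₃ * 2 ^ (J + M) ≤ c2 := by
          rw [hc2]
          exact le_add_of_nonneg_left (by positivity)
        rcases lt_trichotomy (s + j) n with hlt | heq | hgt
        · have h2 := hwbd (s + j) hlt
          rw [← hMd] at h2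
          have e1 : (s : ℤ) + j = ((s + j : ℕ) : ℤ) := by push_cast; ring
          rw [e1]
          have h4 := hhstep j s hlt
          have h5 := (hGstep j s hlt).1
          calc ‖x ((s + j : ℕ) : ℤ)‖ ≤ A * (‖hh M c n (s + j)‖ * GG M c g n (s + j)) := h2
            _ ≤ A * ((C₃ ^ j * ‖hh M c n s‖) * (2 ^ j * GG M c g n s)) :=
                mul_le_mul_of_nonneg_left (mul_le_mul h4 h5 (hGpos _ hlt).le (by positivity)) hA0
            _ = (2 * C₃) ^ j * A * Wt := by
                rw [hWt, mul_pow]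
                ring
            _ ≤ c2 * (A + Φ) * Wt := by
                refine mul_le_mul_of_nonneg_right ?_ hWt0.le
                refine mul_le_mul ?_ (by linarith) hA0 hc20
                exact (pow_le_pow_right₀ (by linarith) (by omega)).trans hc2a
        · have e1 : (s : ℤ) + j = (n : ℤ) := by omega
          rw [e1, hsol.top, norm_zero]
          positivity
        · have h2 := hpos ((s : ℤ) + j) (by omega)
          have h4 := h33 s (by omega) hsn
          have h5 : GG M c g n (n - M) ≤ 2 ^ (J + M) * GG M c g n s := by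
            by_cases hc : s ≤ n - M
            · obtain ⟨i, hi⟩ := Nat.exists_eq_add_of_le hc
              have h6 := (hGstep i s (by omega)).1
              rw [hi]
              refine h6.trans (mul_le_mul_of_nonneg_right ?_ hGs.le)
              exact pow_le_pow_right₀ (by norm_num) (by omega)
            · obtain ⟨i, hi⟩ := Nat.exists_eq_add_of_le (le_of_not_ge hc)
              have h6 := (hGstep i (n - M) (by omega)).2
              rw [← hi] at h6
              refine h6.trans (mul_le_mul_of_nonneg_right ?_ hGs.le)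
              exact pow_le_pow_right₀ (by norm_num) (by omega)
          calc ‖x ((s : ℤ) + j)‖
              ≤ C₁ / n * (A + Φ) * (‖hh M c n (n - M)‖ * GG M c g n (n - M)) := h2
            _ ≤ C₁ / n * (A + Φ) * ((C₃ * n * ‖hh M c n s‖) * (2 ^ (J + M) * GG M c g n s)) := by
                refine mul_le_mul_of_nonneg_left ?_ (by positivity)
                exact mul_le_mul h4 h5 (hGpos _ (by omega)).le (by positivity)
            _ = C₁ * C₃ * 2 ^ (J + M) * (A + Φ) * Wt := by
                rw [hWt]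
                field_simp
            _ ≤ c2 * (A + Φ) * Wt := mul_le_mul_of_nonneg_right
                (mul_le_mul_of_nonneg_right hc2b hAΦ) hWt0.le
      refine (Finset.sum_le_sum h1).trans (le_of_eq ?_)
      rw [← Finset.sum_mul, ← hSb]
      ring
    have b4 : ‖φ s‖ ≤ 1 * (A + Φ) * Wt := by
      have h1 := hforc.1 s hs1 hsn
      rw [← hMd, ← hWt] at h1
      refine h1.trans (mul_le_mul_of_nonneg_right (by linarith) hWt0.le)
    have hnorm : ‖e * r s‖ ≤ Ct * (A + Φ) * Wt := by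
      rw [her, hCt]
      refine (norm_add_le _ _).trans ?_
      have h1 := norm_add_le (-z * x s +
        ∑ j ∈ Finset.range (M + 1), (if s < j then P.coeff j * x ((s : ℤ) - j) else 0))
        (∑ j ∈ Finset.range (J + 1), Q.coeff j * x ((s : ℤ) + j))
      have h2 := norm_add_le (-z * x s)
        (∑ j ∈ Finset.range (M + 1), (if s < j then P.coeff j * x ((s : ℤ) - j) else 0))
      nlinarith [h1, h2, b1, b2, b3, b4]
    have hen : ‖e‖ = En n s * ‖hh M c n s‖ := by
      rw [he, norm_mul, Complex.norm_real, Real.norm_of_nonneg hEpos.le]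
    rw [norm_mul, hen, hWt] at hnorm
    rw [div_le_iff₀ hGs]
    have h9 : 0 < En n s * ‖hh M c n s‖ := mul_pos hEpos hHpos
    refine le_of_mul_le_mul_left ?_ h9
    refine hnorm.trans (le_of_eq ?_)
    field_simp
  refine (Finset.sum_le_sum hmain).trans ?_
  rw [← Finset.sum_mul, ← Finset.mul_sum]
  exact mul_le_mul_of_nonneg_right (mul_le_mul_of_nonneg_left (I1_sum n hn3) hCt0) (by linarith)

end HillRoots
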