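import Pool.Agent.Lib.MP_e63cf8_mp.H.StmI

/-!
# MP_e63cf8_mp, piece I2: comparison with the one-sided recursion
-/

open Polynomial Filter Topology MeasureTheory Asymptotics

namespace HillRoots

namespace I2pf

lemma GG0 (M : ℕ) (c : ℂ) (g : ℂ → ℂ) (n s : ℕ) : 0 ≤ GG M c g n s :=
  Finset.prod_nonneg fun _ _ => norm_nonneg _

/-- the average of the branch products is at most the dominating product -/
lemma yyle (M : ℕ) (A : ℕ → ℂ) (c : ℂ) (g : ℂ → ℂ) (τ₀ K δ : ℝ)
    (h : LDat M A (br M c g) τ₀ K δ) (n s : ℕ) (hs : s < n)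
    (ht : ∀ k < n, tau M n k ∈ Set.Icc 0 τ₀) : ‖yy M c g n s‖ ≤ GG M c g n s := by
  have hM : (0 : ℝ) < M := by exact_mod_cast h.hM
  unfold yy
  rw [norm_mul, norm_div, norm_one, Complex.norm_natCast]
  have h1 : ‖∑ l ∈ Finset.range M, ∏ i ∈ Finset.Icc 1 s, br M c g l (tau M n i)‖ ≤
      M * GG M c g n s := by
    calc ‖∑ l ∈ Finset.range M, ∏ i ∈ Finset.Icc 1 s, br M c g l (tau M n i)‖
        ≤ ∑ l ∈ Finset.range M, ‖∏ i ∈ Finset.Icc 1 s, br M c g l (tau M n i)‖ :=
          norm_sum_le _ _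
      _ ≤ ∑ l ∈ Finset.range M, GG M c g n s := by
          refine Finset.sum_le_sum fun l hl => ?_
          rw [norm_prod]
          unfold GG
          refine Finset.prod_le_prod (fun _ _ => norm_nonneg _) fun i hi => ?_
          rw [Finset.mem_Icc] at hi
          exact h.dom l (Finset.mem_range.1 hl) _ (ht i (by omega))
      _ = M * GG M c g n s := by
          rw [Finset.sum_const, Finset.card_range, nsmul_eq_mul]
  calc 1 / (M : ℝ) * ‖∑ l ∈ Finset.range M, ∏ i ∈ Finset.Icc 1 s, br M c g l (tau M n i)‖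
      ≤ 1 / (M : ℝ) * (M * GG M c g n s) := mul_le_mul_of_nonneg_left h1 (by positivity)
    _ = GG M c g n s := by
        field_simp

/-- the products grow at most like powers of two -/
lemma GGle (M : ℕ) (A : ℕ → ℂ) (c : ℂ) (g : ℂ → ℂ) (τ₀ K δ : ℝ)
    (h : LDat M A (br M c g) τ₀ K δ) (n s : ℕ)
    (ht : ∀ k < n, tau M n k ∈ Set.Icc 0 τ₀) (i : ℕ) (hi : s + i < n) :
    GG M c g n (s + i) ≤ 2 ^ i * GG M c g n s := by
  induction i with
  | zero => simp
  | succ i ih =>
    have h1 := ih (by omega)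
    have h2 : GG M c g n (s + (i + 1)) =
        GG M c g n (s + i) * ‖br M c g 0 (tau M n (s + i + 1))‖ := by
      unfold GG
      rw [← add_assoc, Finset.prod_Icc_succ_top (by omega)]
    rw [h2]
    have h3 := h.upp 0 (by have := h.hM; omega) _ (ht (s + i + 1) (by omega))
    calc GG M c g n (s + i) * ‖br M c g 0 (tau M n (s + i + 1))‖
        ≤ (2 ^ i * GG M c g n s) * 2 :=
          mul_le_mul h1 h3 (norm_nonneg _) (mul_nonneg (by positivity) (GG0 _ _ _ _ _))
      _ = 2 ^ (i + 1) * GG M c g n s := by ring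

/-- reflection of the sum in `xP` and `betaP` -/
lemma refl_sum (P : ℂ[X]) (hP : P.coeff 0 = 0) (f : ℕ → ℂ) (s : ℕ) :
    ∑ i ∈ Finset.range s, P.coeff (s - i) * f i =
      ∑ j ∈ Finset.range (P.natDegree + 1), if j ≤ s then P.coeff j * f (s - j) else 0 := by
  have h1 : ∑ i ∈ Finset.range s, P.coeff (s - i) * f i =
      ∑ j ∈ Finset.range s, P.coeff (j + 1) * f (s - (j + 1)) := by
    rw [← Finset.sum_range_reflect (fun i => P.coeff (s - i) * f i) s]
    refine Finset.sum_congr rfl fun j hj => ?_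
    rw [Finset.mem_range] at hj
    have e1 : s - (s - 1 - j) = j + 1 := by omega
    have e2 : s - 1 - j = s - (j + 1) := by omega
    simp only [e1]
    rw [e2]
  have h2 : ∑ j ∈ Finset.range (s + 1), P.coeff j * f (s - j) =
      ∑ j ∈ Finset.range s, P.coeff (j + 1) * f (s - (j + 1)) := by
    rw [Finset.sum_range_succ', hP]
    simp
  have h3 : ∑ j ∈ Finset.range (s + 1), P.coeff j * f (s - j) =
      ∑ j ∈ Finset.range (s + 1), if j ≤ s then P.coeff j * f (s - j) else 0 := by
    refine Finset.sum_congr rfl fun j hj => ?_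
    rw [Finset.mem_range] at hj
    rw [if_pos (by omega)]
  have h4 : ∑ j ∈ Finset.range (s + 1), (if j ≤ s then P.coeff j * f (s - j) else 0) =
      ∑ j ∈ Finset.range (s + P.natDegree + 1), if j ≤ s then P.coeff j * f (s - j) else 0 := by
    refine Finset.sum_subset (Finset.range_mono (by omega)) fun j _ hj => ?_
    rw [Finset.mem_range] at hj
    rw [if_neg (by omega)]
  have h5 : ∑ j ∈ Finset.range (P.natDegree + 1), (if j ≤ s then P.coeff j * f (s - j) else 0) =
      ∑ j ∈ Finset.range (s + P.natDegree + 1), if j ≤ s then P.coeff j * f (s - j) else 0 := by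
    refine Finset.sum_subset (Finset.range_mono (by omega)) fun j _ hj => ?_
    rw [Finset.mem_range] at hj
    rw [Polynomial.coeff_eq_zero_of_natDegree_lt (by omega), zero_mul, ite_self]
  rw [h1, ← h2, h3, h4, h5]

lemma xP_eq (P : ℂ[X]) (n s : ℕ) (hs : 1 ≤ s) (hE : (En n s : ℂ) ≠ 0) :
    (En n s : ℂ) * xP P n s = ∑ i ∈ Finset.range s, P.coeff (s - i) * xP P n i := by
  obtain ⟨m, rfl⟩ : ∃ m, s = m + 1 := ⟨s - 1, by omega⟩
  have e : ((m + 1 : ℕ) : ℤ) = (m : ℤ) + 1 := by push_cast; rfl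
  rw [e] at hE ⊢
  rw [xP, mul_div_cancel₀ _ hE, Finset.sum_range (fun i => P.coeff (m + 1 - i) * xP P n i)]

/-- the normalised one-sided solution -/
noncomputable def up (P : ℂ[X]) (c : ℂ) (n : ℕ) (s : ℤ) : ℂ :=
  if 0 ≤ s then xP P n s.toNat / hh P.natDegree c n s.toNat else 0

lemma up_neg (P : ℂ[X]) (c : ℂ) (n : ℕ) (s : ℤ) (hs : s < 0) : up P c n s = 0 := by
  unfold up
  rw [if_neg (by omega)]

lemma up_nat (P : ℂ[X]) (c : ℂ) (n : ℕ) (s : ℕ) : up P c n s = xP P n s / hh P.natDegree c n s := by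
  unfold up
  rw [if_pos (by omega), Int.toNat_natCast]

lemma En_ne (n s : ℕ) (h1 : 1 ≤ s) (h2 : s < n) : (En n s : ℂ) ≠ 0 := by
  have h3 : (1 : ℝ) ≤ s := by exact_mod_cast h1
  have h4 : (s : ℝ) < n := by exact_mod_cast h2
  have h5 : (0 : ℝ) < (n : ℝ) - s := by linarith
  have h6 : En n s = 4 * (s : ℝ) * ((n : ℝ) - s) := by
    unfold En
    push_cast
    ring
  have h7 : En n s ≠ 0 := by
    rw [h6]
    positivity
  exact_mod_cast h7

lemma up_rec (hH1 : S_H1) (P : ℂ[X]) (c : ℂ) (n s : ℕ) (hP : P.coeff 0 = 0)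
    (hM : 1 ≤ P.natDegree) (hc : c ^ P.natDegree = P.leadingCoeff) (hc0 : c ≠ 0)
    (h1 : 1 ≤ s) (h2 : s < n) :
    up P c n s = up P c n ((s : ℤ) - P.natDegree) +
      ∑ j ∈ Finset.Ico 1 P.natDegree, ff P c n s j * up P c n ((s : ℤ) - j) := by
  obtain ⟨-, hne, hrec⟩ := hH1 P.natDegree n c hM hc0 (by omega)
  have hE := En_ne n s h1 h2
  have hh0 := hne s h2
  set T : ℕ → ℂ := fun j => if j ≤ s then P.coeff j * xP P n (s - j) else 0 with hT
  have hx : (En n s : ℂ) * xP P n s = ∑ j ∈ Finset.range (P.natDegree + 1), T j := by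
    rw [xP_eq P n s h1 hE, refl_sum P hP]
  have hT0 : T 0 = 0 := by
    simp only [hT]
    rw [hP, zero_mul, ite_self]
  have hx2 : (En n s : ℂ) * xP P n s = ∑ j ∈ Finset.Ico 1 P.natDegree, T j + T P.natDegree := by
    rw [hx, Finset.sum_range_succ, Finset.range_eq_Ico, Finset.sum_eq_sum_Ico_succ_bot (by omega), hT0,
      zero_add]
  have hD : (En n s : ℂ) * hh P.natDegree c n s ≠ 0 := mul_ne_zero hE hh0
  have e1 : up P c n s = ((En n s : ℂ) * xP P n s) / ((En n s : ℂ) * hh P.natDegree c n s) := by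
    rw [up_nat, mul_div_mul_left _ _ hE]
  have e2 : up P c n ((s : ℤ) - P.natDegree) = T P.natDegree / ((En n s : ℂ) * hh P.natDegree c n s) := by
    rcases Nat.lt_or_ge s P.natDegree with h | h
    · rw [up_neg P c n _ (by omega)]
      simp only [hT]
      rw [if_neg (by omega), zero_div]
    · have e3 : (s : ℤ) - P.natDegree = ((s - P.natDegree : ℕ) : ℤ) := by omega
      rw [e3, up_nat]
      simp only [hT]
      rw [if_pos h]
      have h3 := hrec s h h2
      have h4 := hne (s - P.natDegree) (by omega)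
      rw [← h3]
      have h5 : P.coeff P.natDegree = c ^ P.natDegree := hc.symm
      rw [h5]
      have h6 : c ^ P.natDegree ≠ 0 := pow_ne_zero _ hc0
      rw [mul_div_mul_left _ _ h6]
  have e4 : ∀ j ∈ Finset.Ico 1 P.natDegree, ff P c n s j * up P c n ((s : ℤ) - j) =
      T j / ((En n s : ℂ) * hh P.natDegree c n s) := by
    intro j hj
    rw [Finset.mem_Ico] at hj
    rcases Nat.lt_or_ge s j with h | h
    · rw [up_neg P c n _ (by omega)]
      simp only [hT]
      rw [if_neg (by omega), zero_div, mul_zero]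
    · have e3 : (s : ℤ) - j = ((s - j : ℕ) : ℤ) := by omega
      rw [e3, up_nat]
      simp only [hT]
      unfold ff
      rw [if_pos h, if_pos h]
      have h4 := hne (s - j) (by omega)
      field_simp
  rw [e1, e2, Finset.sum_congr rfl e4, ← Finset.sum_div, hx2]
  ring

end I2pf

open I2pf in
theorem p_I2 (hH1 : S_H1) (hH3 : S_H3) (hH4 : S_H4) (hU1 : S_U1) (hU2 : S_U2) (hL2 : S_L2) (hA1 : S_A1)
    (hA3 : S_A3) (hI1 : S_I1) : S_I2 := by
  intro P Q c g τ₀ K δ Z hP0 hQ0 hB
  have hM : 1 ≤ P.natDegree := hB.ld.hM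
  obtain ⟨CL, hCL, hL⟩ := hL2 _ _ _ _ _ _ hB.ld
  obtain ⟨C1, hC1, hA1'⟩ := hA1 P Q c g τ₀ K δ Z hB
  obtain ⟨ρ, hρ, hA3'⟩ := hA3 P Q c g τ₀ K δ Z hP0 hQ0 hB
  obtain ⟨CI, hCI, hI1'⟩ := hI1 P Q c g τ₀ K δ Z hP0 hQ0 hB
  obtain ⟨CH, hCH, hH3'⟩ := hH3 P.natDegree 0 c hM hB.c0
  have hVt := hU2 P.natDegree hM
  have hDt := hH4 P c hB.c0
  have hlc : P.leadingCoeff ≠ 0 := by
    rw [← hB.hc]
    exact pow_ne_zero _ hB.c0
  have ha : 0 < ‖P.leadingCoeff‖ := norm_pos_iff.2 hlc
  set SP : ℝ := ∑ j ∈ Finset.range (P.natDegree + 1), ‖P.coeff j‖ with hSP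
  set SQ : ℝ := ∑ j ∈ Finset.range (Q.natDegree + 1), ‖Q.coeff j‖ with hSQ
  have hSP0 : 0 ≤ SP := Finset.sum_nonneg fun _ _ => norm_nonneg _
  have hSQ0 : 0 ≤ SQ := Finset.sum_nonneg fun _ _ => norm_nonneg _
  set Ca : ℝ := 3 * CL * CI with hCa
  have hCa0 : 0 < Ca := by positivity
  have hCH0 : 0 < CH := by linarith
  set Cb : ℝ := (SP * (Ca * (CH * 2 ^ P.natDegree)) + SQ * (3 * C1)) / ‖P.leadingCoeff‖ with hCb
  have hCb0 : 0 ≤ Cb := by positivity
  refine ⟨Ca + 3 * C1 + Cb, by positivity, ?_⟩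
  filter_upwards [hρ.eventually (Iio_mem_nhds one_pos), hVt.eventually_lt_const one_pos,
    hDt.eventually_lt_const one_pos, hA1', hA3', hI1', hH3', hU1 P.natDegree τ₀ hM hB.ld.ht,
    eventually_ge_atTop (P.natDegree + 3)] with n hρn hV hD hA1n hA3n hI1n hH3n ht hn
  intro z γ Φ φ x hz hΦ hS hF
  obtain ⟨h1a, h1b, -⟩ := hH1 P.natDegree n c hM hB.c0 (by omega)
  obtain ⟨q1, q2, q3⟩ := hA3n z γ Φ φ x hz hΦ hS hF
  set E : ℝ := ‖γ‖ + Φ with hE
  have hE0 : 0 ≤ E := by positivity
  have hn0 : (0 : ℝ) < n := by exact_mod_cast (show 0 < n by omega)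
  have hlog : 1 ≤ Real.log n := by
    rw [Real.le_log_iff_exp_le hn0]
    have := Real.exp_one_lt_d9
    have h3 : (3 : ℝ) ≤ (n : ℝ) := by exact_mod_cast (show 3 ≤ n by omega)
    linarith
  have hG0 : ∀ s, 0 ≤ GG P.natDegree c g n s := fun s => GG0 _ _ _ _ _
  have hw0 : ∀ s, 0 ≤ ‖hh P.natDegree c n s‖ * GG P.natDegree c g n s := fun s =>
    mul_nonneg (norm_nonneg _) (hG0 s)
  have hW : Wbd P c g n (2 * E) x := by
    intro s hs
    have h1 := q1 s hs
    have h2 := yyle P.natDegree _ c g τ₀ K δ hB.ld n s hs ht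
    have h3 : ‖γ * hh P.natDegree c n s * yy P.natDegree c g n s‖ ≤
        ‖γ‖ * (‖hh P.natDegree c n s‖ * GG P.natDegree c g n s) := by
      rw [norm_mul, norm_mul, mul_assoc]
      gcongr
    have h4 : ‖x (s : ℤ)‖ ≤ ‖x s - γ * hh P.natDegree c n s * yy P.natDegree c g n s‖ +
        ‖γ * hh P.natDegree c n s * yy P.natDegree c g n s‖ := by
      have := norm_add_le (x s - γ * hh P.natDegree c n s * yy P.natDegree c g n s)
        (γ * hh P.natDegree c n s * yy P.natDegree c g n s)
      rwa [sub_add_cancel] at this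
    have h5 : ρ n * E * (‖hh P.natDegree c n s‖ * GG P.natDegree c g n s) ≤
        1 * E * (‖hh P.natDegree c n s‖ * GG P.natDegree c g n s) := by
      have h6 : ρ n ≤ 1 := le_of_lt hρn
      have := hw0 s
      gcongr
    have h7 : ‖γ‖ * (‖hh P.natDegree c n s‖ * GG P.natDegree c g n s) ≤
        E * (‖hh P.natDegree c n s‖ * GG P.natDegree c g n s) := by
      have := hw0 s
      refine mul_le_mul_of_nonneg_right ?_ this
      linarith
    have h8 : 2 * E * (‖hh P.natDegree c n s‖ * GG P.natDegree c g n s) =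
        1 * E * (‖hh P.natDegree c n s‖ * GG P.natDegree c g n s) +
        E * (‖hh P.natDegree c n s‖ * GG P.natDegree c g n s) := by ring
    linarith
  have hAE : 2 * E + Φ ≤ 3 * E := by
    have := norm_nonneg γ
    linarith
  obtain ⟨n1, n2⟩ := hA1n z γ Φ (2 * E) φ x hz hΦ (by positivity) hS hF hW
  obtain ⟨u, r, hu0, hu, hrec, hr⟩ := hI1n z γ Φ (2 * E) φ x hz hΦ (by positivity) hS hF hW
  -- the difference
  have hdiff : ∀ s : ℕ, s < n → ‖x s - γ * xP P n s‖ ≤
      Ca * (Real.log n / n) * E * (‖hh P.natDegree c n s‖ * GG P.natDegree c g n s) := by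
    intro s hs
    have hL' := hL (n - 1) (tau P.natDegree n) (ff P c n) (fun s => u s - γ * up P c n s) r
      (by
        unfold tau
        rw [Nat.cast_zero, mul_zero, zero_mul]
        refine Real.zero_rpow ?_
        have : (0 : ℝ) < P.natDegree := by exact_mod_cast hM
        have h2 : 0 < 1 / (P.natDegree : ℝ) := by positivity
        linarith)
      (fun k hk => ht k (by omega)) hV.le hD.le
      (by
        intro s hs
        rcases lt_or_eq_of_le hs with h | h
        · rw [hu0 s h, up_neg P c n s h, mul_zero, sub_zero]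
        · subst h
          have e1 := hu 0 (by omega)
          have e2 := up_nat P c n 0
          rw [h1a, div_one] at e1 e2
          have e3 : x ((0 : ℕ) : ℤ) = γ := by
            have := hS.zero
            exact_mod_cast this
          have e4 : xP P n 0 = 1 := by rw [xP]
          rw [e3] at e1
          rw [e4] at e2
          change u 0 - γ * up P c n 0 = 0
          have e5 : u 0 = γ := by exact_mod_cast e1
          have e6 : up P c n 0 = 1 := by exact_mod_cast e2
          rw [e5, e6]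
          ring)
      (by
        intro k hk1 hk2
        have e1 := hrec k hk1 (by omega)
        have e2 := up_rec hH1 P c n k hP0 hM hB.hc hB.c0 hk1 (by omega)
        change u k - γ * up P c n k = (u ((k : ℤ) - P.natDegree) - γ * up P c n ((k : ℤ) - P.natDegree)) +
          ∑ j ∈ Finset.Ico 1 P.natDegree, ff P c n k j * (u ((k : ℤ) - j) - γ * up P c n ((k : ℤ) - j)) + r k
        have e3 : ∑ j ∈ Finset.Ico 1 P.natDegree, ff P c n k j * (u ((k : ℤ) - j) - γ * up P c n ((k : ℤ) - j)) =
            ∑ j ∈ Finset.Ico 1 P.natDegree, ff P c n k j * u ((k : ℤ) - j) -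
            γ * ∑ j ∈ Finset.Ico 1 P.natDegree, ff P c n k j * up P c n ((k : ℤ) - j) := by
          rw [Finset.mul_sum, ← Finset.sum_sub_distrib]
          refine Finset.sum_congr rfl fun j _ => ?_
          ring
        rw [e3, e1]
        rw [e2]
        ring)
      s (by omega)
    change ‖u s - γ * up P c n s‖ ≤ CL * GG P.natDegree c g n s *
      ∑ i ∈ Finset.Icc 1 s, ‖r i‖ / GG P.natDegree c g n i at hL'
    have h2 : ∑ i ∈ Finset.Icc 1 s, ‖r i‖ / GG P.natDegree c g n i ≤
        ∑ i ∈ Finset.Icc 1 (n - 1), ‖r i‖ / GG P.natDegree c g n i := by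
      refine Finset.sum_le_sum_of_subset_of_nonneg ?_ ?_
      · intro i hi
        rw [Finset.mem_Icc] at hi ⊢
        omega
      · intro i _ _
        exact div_nonneg (norm_nonneg _) (hG0 i)
    have h3 : ∑ i ∈ Finset.Icc 1 s, ‖r i‖ / GG P.natDegree c g n i ≤ CI * (Real.log n / n) * (3 * E) := by
      refine (h2.trans hr).trans ?_
      refine mul_le_mul_of_nonneg_left hAE ?_
      have : 0 ≤ Real.log n / n := by positivity
      positivity
    have h4 : x s - γ * xP P n s = hh P.natDegree c n s * (u s - γ * up P c n s) := by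
      rw [hu s hs, up_nat]
      have := h1b s hs
      field_simp
    rw [h4, norm_mul]
    calc ‖hh P.natDegree c n s‖ * ‖u s - γ * up P c n s‖
        ≤ ‖hh P.natDegree c n s‖ * (CL * GG P.natDegree c g n s * (CI * (Real.log n / n) * (3 * E))) := by
          refine mul_le_mul_of_nonneg_left (hL'.trans ?_) (norm_nonneg _)
          exact mul_le_mul_of_nonneg_left h3 (mul_nonneg hCL.le (hG0 s))
      _ = Ca * (Real.log n / n) * E * (‖hh P.natDegree c n s‖ * GG P.natDegree c g n s) := by
          rw [hCa]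
          ring
  have hLn : 0 ≤ Real.log n / n := by positivity
  have hnn : 1 / (n : ℝ) ≤ Real.log n / n := div_le_div_of_nonneg_right hlog hn0.le
  refine ⟨?_, ?_, ?_, ?_⟩
  · intro s hs
    refine (hdiff s hs).trans ?_
    refine mul_le_mul_of_nonneg_right ?_ (hw0 s)
    refine mul_le_mul_of_nonneg_right ?_ hE0
    refine mul_le_mul_of_nonneg_right ?_ hLn
    linarith
  · intro s hs
    refine (n1 s hs).trans ?_
    calc C1 / n * (2 * E + Φ) ≤ C1 / n * (3 * E) := by gcongr
      _ = (3 * C1) / n * E := by ring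
      _ ≤ _ := by
        gcongr
        linarith
  · intro s hs
    refine (n2 s hs).trans ?_
    refine mul_le_mul_of_nonneg_right ?_ (hw0 _)
    calc C1 / n * (2 * E + Φ) ≤ C1 / n * (3 * E) := by gcongr
      _ = (3 * C1) / n * E := by ring
      _ ≤ _ := by
        gcongr
        linarith
  · obtain ⟨-, w2, -, -⟩ := hH3n
    set W : ℝ := ‖hh P.natDegree c n (n - P.natDegree)‖ * GG P.natDegree c g n (n - P.natDegree) with hWd
    have hW0 : 0 ≤ W := hw0 _
    have hwj : ∀ j, 1 ≤ j → j ≤ P.natDegree →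
        ‖hh P.natDegree c n (n - j)‖ * GG P.natDegree c g n (n - j) ≤ CH * 2 ^ P.natDegree * W := by
      intro j hj1 hj2
      rcases lt_or_eq_of_le hj2 with h | h
      · have hhn : ‖hh P.natDegree c n (n - j)‖ ≤ CH * ‖hh P.natDegree c n (n - P.natDegree)‖ := by
          refine (w2 j hj1 h).trans ?_
          refine mul_le_mul_of_nonneg_right ?_ (norm_nonneg _)
          have h1 : (n : ℝ) ^ (-(1 / (P.natDegree : ℝ))) ≤ 1 := by
            refine Real.rpow_le_one_of_one_le_of_nonpos ?_ ?_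
            · exact_mod_cast (show 1 ≤ n by omega)
            · have : (0 : ℝ) ≤ 1 / (P.natDegree : ℝ) := by positivity
              linarith
          calc CH * (n : ℝ) ^ (-(1 / (P.natDegree : ℝ))) ≤ CH * 1 := mul_le_mul_of_nonneg_left h1 hCH0.le
            _ = CH := mul_one _
        have hGn : GG P.natDegree c g n (n - j) ≤ 2 ^ P.natDegree * GG P.natDegree c g n (n - P.natDegree) := by
          have h5 := GGle P.natDegree _ c g τ₀ K δ hB.ld n (n - P.natDegree) ht (P.natDegree - j) (by omega)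
          rw [show n - P.natDegree + (P.natDegree - j) = n - j by omega] at h5
          refine h5.trans (mul_le_mul_of_nonneg_right ?_ (hG0 _))
          exact pow_le_pow_right₀ (by norm_num) (by omega)
        have e5 := mul_le_mul hhn hGn (hG0 _) ((norm_nonneg _).trans hhn)
        refine e5.trans (le_of_eq ?_)
        rw [hWd]
        ring
      · rw [h]
        have h2 : (1 : ℝ) ≤ 2 ^ P.natDegree := one_le_pow₀ (by norm_num)
        calc W = 1 * 1 * W := by ring
          _ ≤ CH * 2 ^ P.natDegree * W := by gcongr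
    have hdec : Vop P Q x n - γ * betaP P n =
        ∑ j ∈ Finset.range (P.natDegree + 1), P.coeff j * (x ((n : ℤ) - j) - γ * xP P n (n - j)) +
        ∑ j ∈ Finset.range (Q.natDegree + 1), Q.coeff j * x ((n : ℤ) + j) := by
      unfold Vop betaP
      rw [refl_sum P hP0]
      have e1 : ∑ j ∈ Finset.range (P.natDegree + 1), (if j ≤ n then P.coeff j * xP P n (n - j) else 0) =
          ∑ j ∈ Finset.range (P.natDegree + 1), P.coeff j * xP P n (n - j) := by
        refine Finset.sum_congr rfl fun j hj => ?_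
        rw [Finset.mem_range] at hj
        rw [if_pos (by omega)]
      rw [e1]
      have e2 : ∑ j ∈ Finset.range (P.natDegree + 1), P.coeff j * (x ((n : ℤ) - j) - γ * xP P n (n - j)) =
          ∑ j ∈ Finset.range (P.natDegree + 1), P.coeff j * x ((n : ℤ) - j) -
          γ * ∑ j ∈ Finset.range (P.natDegree + 1), P.coeff j * xP P n (n - j) := by
        rw [Finset.mul_sum, ← Finset.sum_sub_distrib]
        refine Finset.sum_congr rfl fun j _ => ?_
        ring
      rw [e2]
      ring
    have t1 : ∀ j ∈ Finset.range (P.natDegree + 1), ‖P.coeff j * (x ((n : ℤ) - j) - γ * xP P n (n - j))‖ ≤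
        ‖P.coeff j‖ * (Ca * (Real.log n / n) * E * (CH * 2 ^ P.natDegree * W)) := by
      intro j hj
      rw [Finset.mem_range] at hj
      rcases Nat.eq_zero_or_pos j with h0 | h0
      · subst h0
        rw [hP0]
        simp
      · rw [norm_mul]
        refine mul_le_mul_of_nonneg_left ?_ (norm_nonneg _)
        have hcast : (n : ℤ) - j = ((n - j : ℕ) : ℤ) := by omega
        rw [hcast]
        refine (hdiff (n - j) (by omega)).trans ?_
        exact mul_le_mul_of_nonneg_left (hwj j h0 (by omega)) (by positivity)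
    have t2 : ‖∑ j ∈ Finset.range (P.natDegree + 1), P.coeff j * (x ((n : ℤ) - j) - γ * xP P n (n - j))‖ ≤
        SP * (Ca * (Real.log n / n) * E * (CH * 2 ^ P.natDegree * W)) := by
      rw [hSP, Finset.sum_mul]
      exact (norm_sum_le _ _).trans (Finset.sum_le_sum t1)
    have t3 : ∀ j ∈ Finset.range (Q.natDegree + 1), ‖Q.coeff j * x ((n : ℤ) + j)‖ ≤
        ‖Q.coeff j‖ * ((3 * C1) * (Real.log n / n) * E * W) := by
      intro j hj
      rcases Nat.eq_zero_or_pos j with h0 | h0
      · subst h0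
        rw [hQ0]
        simp
      · rw [norm_mul]
        refine mul_le_mul_of_nonneg_left ?_ (norm_nonneg _)
        refine (n2 ((n : ℤ) + j) (by omega)).trans ?_
        refine mul_le_mul_of_nonneg_right ?_ hW0
        calc C1 / n * (2 * E + Φ) ≤ C1 / n * (3 * E) := by gcongr
          _ = (3 * C1) * (1 / n) * E := by ring
          _ ≤ (3 * C1) * (Real.log n / n) * E := by
            refine mul_le_mul_of_nonneg_right ?_ hE0
            exact mul_le_mul_of_nonneg_left hnn (by positivity)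
    have t4 : ‖∑ j ∈ Finset.range (Q.natDegree + 1), Q.coeff j * x ((n : ℤ) + j)‖ ≤
        SQ * ((3 * C1) * (Real.log n / n) * E * W) := by
      rw [hSQ, Finset.sum_mul]
      exact (norm_sum_le _ _).trans (Finset.sum_le_sum t3)
    rw [hdec]
    refine (norm_add_le _ _).trans ((add_le_add t2 t4).trans ?_)
    have hR : RR P c g n = ‖P.leadingCoeff‖ * W := by
      unfold RR
      rw [hWd]
      ring
    have t5 : SP * (Ca * (Real.log n / n) * E * (CH * 2 ^ P.natDegree * W)) +
        SQ * ((3 * C1) * (Real.log n / n) * E * W) = Cb * (Real.log n / n) * E * RR P c g n := by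
      rw [hR, hCb]
      field_simp
    rw [t5]
    have hR0 : 0 ≤ RR P c g n := by
      rw [hR]
      positivity
    refine mul_le_mul_of_nonneg_right ?_ hR0
    refine mul_le_mul_of_nonneg_right ?_ hE0
    refine mul_le_mul_of_nonneg_right ?_ hLn
    have : 0 < Ca + 3 * C1 := by positivity
    linarith

end HillRoots
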