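import Pool.Agent.Lib.MP_e63cf8_mp.H.StmI

/-!
# I3: comparison of `beta` with `betaP`
-/

set_option autoImplicit false

open Polynomial Filter Topology

namespace HillRoots

private lemma p_I3_tau (M : ℕ) (ε : ℝ) (hM : 1 ≤ M) (hε : 0 < ε) :
    ∀ᶠ n : ℕ in atTop, ∀ k : ℕ, k < n → tau M n k ∈ Set.Icc 0 ε := by
  have hMr : (0 : ℝ) < (M : ℝ) := by exact_mod_cast hM
  have hy : (0 : ℝ) < 1 / (M : ℝ) := by positivity
  have t0 : Tendsto (fun E : ℝ => E ^ (-(1 / (M : ℝ)))) atTop (𝓝 0) := tendsto_rpow_neg_atTop hy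
  have t1 : Tendsto (fun n : ℕ => (4 * ((n : ℝ) - 1))) atTop atTop :=
    (tendsto_atTop_add_const_right atTop (-1 : ℝ) tendsto_natCast_atTop_atTop).const_mul_atTop
      (by norm_num)
  have t2 := (t0.comp t1).eventually (Iio_mem_nhds hε)
  filter_upwards [t2] with n hn k hk
  change (4 * ((n : ℝ) - 1)) ^ (-(1 / (M : ℝ))) < ε at hn
  unfold tau
  rcases Nat.eq_zero_or_pos k with h0 | h0
  · subst h0
    have : (4 * ((0 : ℕ) : ℝ) * ((n : ℝ) - ((0 : ℕ) : ℝ))) = 0 := by simp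
    rw [this, Real.zero_rpow (by linarith)]
    exact ⟨le_refl _, hε.le⟩
  · have hk1 : (1 : ℝ) ≤ k := by exact_mod_cast h0
    have hkn : (k : ℝ) + 1 ≤ n := by exact_mod_cast hk
    have hE : 4 * ((n : ℝ) - 1) ≤ 4 * (k : ℝ) * ((n : ℝ) - k) := by
      nlinarith [mul_nonneg (sub_nonneg.mpr hk1) (sub_nonneg.mpr hkn)]
    have hpos : 0 < 4 * ((n : ℝ) - 1) := by linarith
    exact ⟨Real.rpow_nonneg (hpos.le.trans hE) _,
      (Real.rpow_le_rpow_of_nonpos hpos hE (by linarith)).trans hn.le⟩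

private lemma p_I3_GG_nonneg (M : ℕ) (c : ℂ) (g : ℂ → ℂ) (n k : ℕ) : 0 ≤ GG M c g n k :=
  Finset.prod_nonneg fun _ _ => norm_nonneg _

private lemma p_I3_yy {M : ℕ} {c : ℂ} {g : ℂ → ℂ} {τ₀ : ℝ} {n s : ℕ} (hM : 1 ≤ M)
    (hdom : ∀ l < M, ∀ t ∈ Set.Icc 0 τ₀, ‖br M c g l t‖ ≤ ‖br M c g 0 t‖)
    (ht : ∀ i ∈ Finset.Icc 1 s, tau M n i ∈ Set.Icc 0 τ₀) : ‖yy M c g n s‖ ≤ GG M c g n s := by
  have hMr : (0 : ℝ) < (M : ℝ) := by exact_mod_cast hM
  unfold yy GG
  rw [norm_mul, norm_div, norm_one, RCLike.norm_natCast]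
  have h1 : ‖∑ l ∈ Finset.range M, ∏ i ∈ Finset.Icc 1 s, br M c g l (tau M n i)‖ ≤
      ∑ _l ∈ Finset.range M, ∏ i ∈ Finset.Icc 1 s, ‖br M c g 0 (tau M n i)‖ := by
    refine (norm_sum_le _ _).trans (Finset.sum_le_sum fun l hl => ?_)
    rw [norm_prod]
    exact Finset.prod_le_prod (fun _ _ => norm_nonneg _)
      fun i hi => hdom l (Finset.mem_range.mp hl) _ (ht i hi)
  rw [Finset.sum_const, Finset.card_range, nsmul_eq_mul] at h1
  calc 1 / (M : ℝ) * ‖∑ l ∈ Finset.range M, ∏ i ∈ Finset.Icc 1 s, br M c g l (tau M n i)‖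
      ≤ 1 / (M : ℝ) * (M * ∏ i ∈ Finset.Icc 1 s, ‖br M c g 0 (tau M n i)‖) := by gcongr
    _ = ∏ i ∈ Finset.Icc 1 s, ‖br M c g 0 (tau M n i)‖ := by field_simp

private lemma p_I3_sub (P Q : ℂ[X]) (x y : ℤ → ℂ) (s : ℤ) :
    Vop P Q (fun s => x s - y s) s = Vop P Q x s - Vop P Q y s := by
  unfold Vop
  simp only [mul_sub, Finset.sum_sub_distrib]
  ring

theorem p_I3 (hF1 : S_F1) (hA3 : S_A3) (hI2 : S_I2) : S_I3 := by
  intro P Q c g τ₀ K δ hP hQ hB
  have hM : 1 ≤ P.natDegree := hB.ld.hM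
  obtain ⟨n₀, K₁, hK₁, hF⟩ := hF1 P Q 1
  obtain ⟨ρ₃, hρ₃, h3⟩ := hA3 P Q c g τ₀ K δ 1 hP hQ hB
  obtain ⟨C, hC, h4⟩ := hI2 P Q c g τ₀ K δ 1 hP hQ hB
  refine ⟨2 * C, by positivity, ?_⟩
  filter_upwards [h3, h4, eventually_ge_atTop n₀, eventually_ge_atTop 1,
    hρ₃.eventually (Iio_mem_nhds one_pos), p_I3_tau P.natDegree τ₀ hM hB.ld.ht]
    with n a3 a4 hn hn1 r3 ht z z' hz hz'
  have hL : 0 ≤ Real.log n / n := div_nonneg (Real.log_natCast_nonneg n) (Nat.cast_nonneg n)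
  have hRR : 0 ≤ RR P c g n := by
    unfold RR
    have := p_I3_GG_nonneg P.natDegree c g n (n - P.natDegree)
    positivity
  have hForc0 : Forc P c g n 0 0 := by
    refine ⟨fun s _ _ => ?_, fun s _ => ?_, fun s _ => ?_⟩ <;> simp
  have hs := (hF n hn z hz).1
  have hs' := (hF n hn z' hz').1
  refine ⟨?_, ?_⟩
  · have h := (a4 z 1 0 0 (C0 P Q n z) hz le_rfl hs hForc0).2.2.2
    rw [one_mul, norm_one, add_zero, mul_one] at h
    change ‖beta P Q n z - betaP P n‖ ≤ _ at h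
    refine h.trans (mul_le_mul_of_nonneg_right ?_ hRR)
    exact mul_le_mul_of_nonneg_right (by linarith) hL
  · -- the difference
    obtain ⟨b1, b2, b3⟩ := a3 z' 1 0 0 (C0 P Q n z') hz' le_rfl hs' hForc0
    have hr3 : ρ₃ n < 1 := r3
    have hhG : ∀ s, 0 ≤ ‖hh P.natDegree c n s‖ * GG P.natDegree c g n s := fun s =>
      mul_nonneg (norm_nonneg _) (p_I3_GG_nonneg _ _ _ _ _)
    have hForc : Forc P c g n (2 * ‖z - z'‖) (fun s => -(z - z') * C0 P Q n z' s) := by
      refine ⟨fun s hs1 hs2 => ?_, fun s hs1 => ?_, fun s hs1 => ?_⟩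
      · have e1 := b1 s hs2
        rw [one_mul, norm_one, add_zero, mul_one] at e1
        have e2 : ‖hh P.natDegree c n s * yy P.natDegree c g n s‖ ≤
            ‖hh P.natDegree c n s‖ * GG P.natDegree c g n s := by
          rw [norm_mul]
          refine mul_le_mul_of_nonneg_left ?_ (norm_nonneg _)
          refine p_I3_yy hM hB.ld.dom fun i hi => ht i ?_
          rw [Finset.mem_Icc] at hi
          omega
        have e3 : ‖C0 P Q n z' s‖ ≤ 2 * (‖hh P.natDegree c n s‖ * GG P.natDegree c g n s) := by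
          have e4 := norm_add_le (C0 P Q n z' s - hh P.natDegree c n s * yy P.natDegree c g n s)
            (hh P.natDegree c n s * yy P.natDegree c g n s)
          rw [sub_add_cancel] at e4
          have e5 := mul_le_mul_of_nonneg_right hr3.le (hhG s)
          linarith
        change ‖-(z - z') * C0 P Q n z' s‖ ≤ _
        rw [norm_mul, norm_neg]
        calc ‖z - z'‖ * ‖C0 P Q n z' s‖
            ≤ ‖z - z'‖ * (2 * (‖hh P.natDegree c n s‖ * GG P.natDegree c g n s)) := by gcongr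
          _ = 2 * ‖z - z'‖ * (‖hh P.natDegree c n s‖ * GG P.natDegree c g n s) := by ring
      · have e1 := b2 s hs1
        rw [norm_one, add_zero, mul_one] at e1
        change ‖-(z - z') * C0 P Q n z' s‖ ≤ _
        rw [norm_mul, norm_neg]
        calc ‖z - z'‖ * ‖C0 P Q n z' s‖ ≤ ‖z - z'‖ * 2 := by
              refine mul_le_mul_of_nonneg_left ?_ (norm_nonneg _)
              linarith
          _ = 2 * ‖z - z'‖ := by ring
      · have e1 := b3 s hs1
        rw [norm_one, add_zero, mul_one] at e1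
        have e5 := mul_le_mul_of_nonneg_right hr3.le (hhG (n - P.natDegree))
        have e6 := hhG (n - P.natDegree)
        change ‖-(z - z') * C0 P Q n z' s‖ ≤ _
        rw [norm_mul, norm_neg]
        calc ‖z - z'‖ * ‖C0 P Q n z' s‖ ≤ ‖z - z'‖ * (2 * (‖hh P.natDegree c n (n - P.natDegree)‖ *
              GG P.natDegree c g n (n - P.natDegree))) := by
              refine mul_le_mul_of_nonneg_left ?_ (norm_nonneg _)
              linarith
          _ = 2 * ‖z - z'‖ * (‖hh P.natDegree c n (n - P.natDegree)‖ *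
              GG P.natDegree c g n (n - P.natDegree)) := by ring
    have hSol : Sol P Q n z 0 0 (fun s => -(z - z') * C0 P Q n z' s)
        (fun s => C0 P Q n z s - C0 P Q n z' s) := by
      obtain ⟨B, hBd⟩ := hs.bdd
      obtain ⟨B', hBd'⟩ := hs'.bdd
      refine ⟨⟨B + B', fun s => ?_⟩, ?_, ?_, fun s h1 h2 => ?_⟩
      · exact (norm_sub_le _ _).trans (add_le_add (hBd s) (hBd' s))
      · change C0 P Q n z 0 - C0 P Q n z' 0 = 0
        rw [hs.zero, hs'.zero, sub_self]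
      · change C0 P Q n z n - C0 P Q n z' n = 0
        rw [hs.top, hs'.top, sub_self]
      · have q1 := hs.eqn s h1 h2
        have q2 := hs'.eqn s h1 h2
        rw [p_I3_sub]
        simp only [Pi.zero_apply, add_zero] at q1 q2
        change ((En n s : ℂ) + z) * (C0 P Q n z s - C0 P Q n z' s) =
          Vop P Q (C0 P Q n z) s - Vop P Q (C0 P Q n z') s + -(z - z') * C0 P Q n z' s
        rw [← q1, ← q2]
        ring
    have h := (a4 z 0 (2 * ‖z - z'‖) _ _ hz (by positivity) hSol hForc).2.2.2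
    rw [zero_mul, sub_zero, norm_zero, zero_add, p_I3_sub] at h
    change ‖Vop P Q (C0 P Q n z) n - Vop P Q (C0 P Q n z') n‖ ≤ _
    refine h.trans (le_of_eq ?_)
    ring

end HillRoots
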