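import Pool.Agent.Lib.MP_e63cf8_mp.H.StmI

/-!
# MP_e63cf8_mp, piece I4: the Gamma weights for `M = 3`
-/

set_option autoImplicit false

open Polynomial Filter Topology MeasureTheory Asymptotics

namespace HillRoots

/-- the real factor of `hh 3 c n s` -/
private noncomputable def i4_r (n s : ℕ) : ℝ :=
  (36 : ℝ) ^ (-((s : ℝ) / 3)) * Real.Gamma (((n : ℝ) - s) / 3) /
    (Real.Gamma ((n : ℝ) / 3) * Real.Gamma (1 + (s : ℝ) / 3))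

private theorem i4_hh (c : ℂ) (n s : ℕ) : hh 3 c n s = c ^ s * (i4_r n s : ℂ) := by
  unfold hh i4_r
  have e1 : (4 * (((3 : ℕ) : ℝ)) ^ 2) = (36 : ℝ) := by norm_num
  have e2 : ((3 : ℕ) : ℝ) = (3 : ℝ) := by norm_num
  rw [e1, e2]

private theorem i4_a (j n s : ℕ) (h1 : 1 ≤ s) (h2 : j ≤ s) (h3 : s < n) (h5 : j ≤ 2) :
    i4_r n (s - j) = ph j n s * En n s * i4_r n s := by
  have hs : (0 : ℝ) < (s : ℝ) / 3 := by
    have : (0 : ℝ) < (s : ℝ) := by exact_mod_cast h1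
    positivity
  have hns : (0 : ℝ) < ((n : ℝ) - s) / 3 := by
    have : (s : ℝ) < (n : ℝ) := by exact_mod_cast h3
    have : (0 : ℝ) < (n : ℝ) - s := by linarith
    positivity
  have hn : (0 : ℝ) < (n : ℝ) / 3 := by
    have : (0 : ℝ) < (n : ℝ) := by
      have : 0 < n := by omega
      exact_mod_cast this
    positivity
  have hj5 : (j : ℝ) ≤ 2 := by exact_mod_cast h5
  have hj : (0 : ℝ) < (s : ℝ) / 3 + (1 - (j : ℝ) / 3) := by linarith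
  have hcast : ((s - j : ℕ) : ℝ) = (s : ℝ) - j := Nat.cast_sub h2
  have G1 : Real.Gamma (((n : ℝ) - s) / 3 + 1) = ((n : ℝ) - s) / 3 * Real.Gamma (((n : ℝ) - s) / 3) :=
    Real.Gamma_add_one hns.ne'
  have G2 : Real.Gamma (1 + (s : ℝ) / 3) = (s : ℝ) / 3 * Real.Gamma ((s : ℝ) / 3) := by
    rw [add_comm]
    exact Real.Gamma_add_one hs.ne'
  have p1 : Real.Gamma (((n : ℝ) - s) / 3) ≠ 0 := (Real.Gamma_pos_of_pos hns).ne'
  have p2 : Real.Gamma ((s : ℝ) / 3) ≠ 0 := (Real.Gamma_pos_of_pos hs).ne'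
  have p3 : Real.Gamma ((n : ℝ) / 3) ≠ 0 := (Real.Gamma_pos_of_pos hn).ne'
  have p4 : Real.Gamma ((s : ℝ) / 3 + (1 - (j : ℝ) / 3)) ≠ 0 := (Real.Gamma_pos_of_pos hj).ne'
  have q1 : ((n : ℝ) - s) ≠ 0 := by
    intro h
    rw [h] at hns
    norm_num at hns
  have q2 : (s : ℝ) ≠ 0 := by
    intro h
    rw [h] at hs
    norm_num at hs
  have e36 : (36 : ℝ) ^ (-(((s : ℝ) - j) / 3)) =
      (36 : ℝ) ^ (-(1 - (j : ℝ) / 3)) * (36 : ℝ) ^ (-((s : ℝ) / 3)) * 36 := by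
    rw [← Real.rpow_add (by norm_num : (0 : ℝ) < 36)]
    have : (36 : ℝ) ^ (-(1 - (j : ℝ) / 3) + -((s : ℝ) / 3)) * 36 =
        (36 : ℝ) ^ (-(1 - (j : ℝ) / 3) + -((s : ℝ) / 3)) * (36 : ℝ) ^ (1 : ℝ) := by
      rw [Real.rpow_one]
    rw [this, ← Real.rpow_add (by norm_num : (0 : ℝ) < 36)]
    congr 1
    ring
  have a1 : ((n : ℝ) - ((s : ℝ) - j)) / 3 = ((n : ℝ) - s) / 3 + (j : ℝ) / 3 := by ring
  have a2 : 1 + ((s : ℝ) - j) / 3 = (s : ℝ) / 3 + (1 - (j : ℝ) / 3) := by ring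
  unfold i4_r ph En
  rw [hcast, e36, a1, a2, G1, G2]
  rw [show (((s : ℤ) : ℝ)) = (s : ℝ) from by norm_num]
  field_simp
  ring

private theorem i4_b (j n : ℕ) (h3 : 3 ≤ n) (h4 : 1 ≤ j) (h5 : j ≤ 2) :
    i4_r n (n - j) = ph j n n * i4_r n (n - 3) := by
  have hn0 : (0 : ℝ) < (n : ℝ) := by
    have : 0 < n := by omega
    exact_mod_cast this
  have hn : (0 : ℝ) < (n : ℝ) / 3 := by positivity
  have hj5 : (j : ℝ) ≤ 2 := by exact_mod_cast h5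
  have hj : (0 : ℝ) < (n : ℝ) / 3 + (1 - (j : ℝ) / 3) := by linarith
  have c1 : ((n - j : ℕ) : ℝ) = (n : ℝ) - j := Nat.cast_sub (by omega)
  have c2 : ((n - 3 : ℕ) : ℝ) = (n : ℝ) - 3 := by
    rw [Nat.cast_sub h3]
    norm_num
  have p3 : Real.Gamma ((n : ℝ) / 3) ≠ 0 := (Real.Gamma_pos_of_pos hn).ne'
  have p4 : Real.Gamma ((n : ℝ) / 3 + (1 - (j : ℝ) / 3)) ≠ 0 := (Real.Gamma_pos_of_pos hj).ne'
  have a1 : ((n : ℝ) - ((n : ℝ) - j)) / 3 = (j : ℝ) / 3 := by ring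
  have a2 : 1 + ((n : ℝ) - j) / 3 = (n : ℝ) / 3 + (1 - (j : ℝ) / 3) := by ring
  have a3 : ((n : ℝ) - ((n : ℝ) - 3)) / 3 = 1 := by ring
  have a4 : 1 + ((n : ℝ) - 3) / 3 = (n : ℝ) / 3 := by ring
  have a5 : ((n : ℝ) - n) / 3 + (j : ℝ) / 3 = (j : ℝ) / 3 := by ring
  have a6 : ((n : ℝ) - n) / 3 + 1 = 1 := by ring
  have e36 : (36 : ℝ) ^ (-(((n : ℝ) - j) / 3)) =
      (36 : ℝ) ^ (-(1 - (j : ℝ) / 3)) * (36 : ℝ) ^ (-(((n : ℝ) - 3) / 3)) := by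
    rw [← Real.rpow_add (by norm_num : (0 : ℝ) < 36)]
    congr 1
    ring
  unfold i4_r ph
  rw [c1, c2, a1, a2, a3, a4, a5, a6, Real.Gamma_one, e36]
  field_simp

private theorem i4_quot (h0 : S_H0) (x θ : ℝ) (hx : 1 / 3 ≤ x) (h1 : 0 ≤ θ) (h2 : θ ≤ 1) :
    x ^ (-θ) ≤ Real.Gamma x / Real.Gamma (x + θ) ∧
      Real.Gamma x / Real.Gamma (x + θ) ≤ 4 * x ^ (-θ) := by
  have hx0 : 0 < x := by linarith
  have hg : 0 < Real.Gamma (x + θ) := Real.Gamma_pos_of_pos (by linarith)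
  obtain ⟨u1, u2⟩ := h0 x θ hx0 h1 h2
  constructor
  · rw [le_div_iff₀ hg]
    exact u1
  · rw [div_le_iff₀ hg]
    have hp : 0 < x ^ (-θ) := Real.rpow_pos_of_pos hx0 _
    have h3 : 1 / x ≤ 3 := by
      rw [div_le_iff₀ hx0]
      linarith
    have h4 : x ^ (-θ) * (1 + 1 / x) ≤ 4 * x ^ (-θ) := by
      nlinarith
    exact u2.trans (mul_le_mul_of_nonneg_right h4 hg.le)

private theorem i4_c (h0 : S_H0) (j n s : ℕ) (h1 : 1 ≤ s) (h2 : s ≤ n) (h4 : 1 ≤ j)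
    (h5 : j ≤ 2) :
    (8 * (s : ℝ) * ((n : ℝ) - s + 1)) ^ (-(1 - (j : ℝ) / 3)) ≤ ph j n s ∧
      ph j n s ≤ 16 * (4 * (s : ℝ) * ((n : ℝ) - s + 1)) ^ (-(1 - (j : ℝ) / 3)) := by
  have hs : (1 : ℝ) ≤ (s : ℝ) := by exact_mod_cast h1
  have hns : (s : ℝ) ≤ (n : ℝ) := by exact_mod_cast h2
  have hj4 : (1 : ℝ) ≤ (j : ℝ) := by exact_mod_cast h4
  have hj5 : (j : ℝ) ≤ 2 := by exact_mod_cast h5
  have hθ0 : (0 : ℝ) ≤ 1 - (j : ℝ) / 3 := by linarith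
  have hθ1 : 1 - (j : ℝ) / 3 ≤ 1 := by linarith
  have hx : (1 : ℝ) / 3 ≤ (s : ℝ) / 3 := by linarith
  have hy : (1 : ℝ) / 3 ≤ ((n : ℝ) - s) / 3 + (j : ℝ) / 3 := by linarith
  have hx0 : (0 : ℝ) < (s : ℝ) / 3 := by linarith
  have hy0 : (0 : ℝ) < ((n : ℝ) - s) / 3 + (j : ℝ) / 3 := by linarith
  obtain ⟨x1, x2⟩ := i4_quot h0 _ _ hx hθ0 hθ1
  obtain ⟨y1, y2⟩ := i4_quot h0 _ _ hy hθ0 hθ1
  have ey : ((n : ℝ) - s) / 3 + (j : ℝ) / 3 + (1 - (j : ℝ) / 3) = ((n : ℝ) - s) / 3 + 1 := by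
    ring
  rw [ey] at y1 y2
  have hA : (0 : ℝ) < (36 : ℝ) ^ (-(1 - (j : ℝ) / 3)) :=
    Real.rpow_pos_of_pos (by norm_num) _
  have hX : (0 : ℝ) < ((s : ℝ) / 3) ^ (-(1 - (j : ℝ) / 3)) := Real.rpow_pos_of_pos hx0 _
  have hY : (0 : ℝ) < (((n : ℝ) - s) / 3 + (j : ℝ) / 3) ^ (-(1 - (j : ℝ) / 3)) :=
    Real.rpow_pos_of_pos hy0 _
  have hprod : (36 : ℝ) ^ (-(1 - (j : ℝ) / 3)) *
      ((((n : ℝ) - s) / 3 + (j : ℝ) / 3) ^ (-(1 - (j : ℝ) / 3)) *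
        ((s : ℝ) / 3) ^ (-(1 - (j : ℝ) / 3))) =
      (4 * (s : ℝ) * ((n : ℝ) - s + j)) ^ (-(1 - (j : ℝ) / 3)) := by
    rw [← Real.mul_rpow hy0.le hx0.le, ← Real.mul_rpow (by norm_num) (by positivity)]
    congr 1
    ring
  have hphl : (4 * (s : ℝ) * ((n : ℝ) - s + j)) ^ (-(1 - (j : ℝ) / 3)) ≤ ph j n s := by
    rw [← hprod]
    unfold ph
    rw [mul_assoc]
    refine mul_le_mul_of_nonneg_left ?_ hA.le
    exact mul_le_mul y1 x1 hX.le (hY.le.trans y1)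
  have hphu : ph j n s ≤ 16 * (4 * (s : ℝ) * ((n : ℝ) - s + j)) ^ (-(1 - (j : ℝ) / 3)) := by
    rw [← hprod]
    unfold ph
    rw [mul_assoc]
    have h6 := mul_le_mul y2 x2 (hX.le.trans x1) (by positivity)
    calc (36 : ℝ) ^ (-(1 - (j : ℝ) / 3)) *
          ((Real.Gamma (((n : ℝ) - s) / 3 + (j : ℝ) / 3) / Real.Gamma (((n : ℝ) - s) / 3 + 1)) *
            (Real.Gamma ((s : ℝ) / 3) / Real.Gamma ((s : ℝ) / 3 + (1 - (j : ℝ) / 3))))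
        ≤ (36 : ℝ) ^ (-(1 - (j : ℝ) / 3)) *
          (4 * (((n : ℝ) - s) / 3 + (j : ℝ) / 3) ^ (-(1 - (j : ℝ) / 3)) *
            (4 * ((s : ℝ) / 3) ^ (-(1 - (j : ℝ) / 3)))) := mul_le_mul_of_nonneg_left h6 hA.le
      _ = _ := by ring
  have hb0 : (0 : ℝ) < 4 * (s : ℝ) * ((n : ℝ) - s + 1) := by
    have : (0 : ℝ) < (n : ℝ) - s + 1 := by linarith
    have : (0 : ℝ) < (s : ℝ) := by linarith
    positivity
  have hb1 : (0 : ℝ) < 4 * (s : ℝ) * ((n : ℝ) - s + j) := by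
    have : (0 : ℝ) < (n : ℝ) - s + j := by linarith
    have : (0 : ℝ) < (s : ℝ) := by linarith
    positivity
  constructor
  · refine le_trans ?_ hphl
    refine Real.rpow_le_rpow_of_nonpos hb1 ?_ (by linarith)
    nlinarith
  · refine hphu.trans (mul_le_mul_of_nonneg_left ?_ (by norm_num))
    refine Real.rpow_le_rpow_of_nonpos hb0 ?_ (by linarith)
    nlinarith

private theorem i4_ne (c : ℂ) (hc : c ≠ 0) (n s : ℕ) (h : s < n) : hh 3 c n s ≠ 0 := by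
  rw [i4_hh]
  refine mul_ne_zero (pow_ne_zero _ hc) ?_
  rw [Complex.ofReal_ne_zero]
  unfold i4_r
  have h1 : (s : ℝ) < (n : ℝ) := by exact_mod_cast h
  have h2 : (0 : ℝ) ≤ (s : ℝ) := Nat.cast_nonneg s
  have g1 : 0 < Real.Gamma (((n : ℝ) - s) / 3) := Real.Gamma_pos_of_pos (by linarith)
  have g2 : 0 < Real.Gamma ((n : ℝ) / 3) := Real.Gamma_pos_of_pos (by linarith)
  have g3 : 0 < Real.Gamma (1 + (s : ℝ) / 3) := Real.Gamma_pos_of_pos (by linarith)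
  have g4 : (0 : ℝ) < (36 : ℝ) ^ (-((s : ℝ) / 3)) := Real.rpow_pos_of_pos (by norm_num) _
  exact (div_pos (mul_pos g4 g1) (mul_pos g2 g3)).ne'

theorem p_I4 (h0 : S_H0) : S_I4 := by
  intro c j n s hc hj1 hj2 hs1 hsn hn3
  have ha : j ≤ s → s < n →
      c ^ j * hh 3 c n (s - j) = (ph j n s : ℂ) * (En n s : ℂ) * hh 3 c n s := by
    intro hjs hlt
    rw [i4_hh, i4_hh, i4_a j n s hs1 hjs hlt hj2, Complex.ofReal_mul, Complex.ofReal_mul]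
    have e1 : c ^ s = c ^ j * c ^ (s - j) := by
      rw [← pow_add]
      congr 1
      omega
    rw [e1]
    ring
  refine ⟨ha, ?_, (i4_c h0 j n s hs1 hsn hj1 hj2).1, (i4_c h0 j n s hs1 hsn hj1 hj2).2, ?_⟩
  · rw [i4_hh, i4_hh, i4_b j n hn3 hj1 hj2, Complex.ofReal_mul]
    have e1 : c ^ j * c ^ (n - j) = c ^ 3 * c ^ (n - 3) := by
      rw [← pow_add, ← pow_add]
      congr 1
      omega
    calc c ^ j * (c ^ (n - j) * ((ph j n n : ℂ) * (i4_r n (n - 3) : ℂ)))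
        = (c ^ j * c ^ (n - j)) * ((ph j n n : ℂ) * (i4_r n (n - 3) : ℂ)) := by ring
      _ = _ := by
        rw [e1]
        ring
  · intro P hP hjs hlt
    have hcj : c ^ j ≠ 0 := pow_ne_zero _ hc
    have hE : (En n s : ℂ) ≠ 0 := by
      rw [Complex.ofReal_ne_zero]
      unfold En
      have h1 : (s : ℝ) < (n : ℝ) := by exact_mod_cast hlt
      have h2 : (0 : ℝ) < (s : ℝ) := by exact_mod_cast hs1
      have h3 : (((s : ℤ)) : ℝ) = (s : ℝ) := by norm_num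
      rw [h3]
      have h4 : (0 : ℝ) < (n : ℝ) - s := by linarith
      positivity
    have hh0 := i4_ne c hc n s hlt
    have h7 := ha hjs hlt
    unfold ff
    rw [if_pos hjs, hP]
    rw [div_eq_iff (mul_ne_zero hE hh0), div_mul_eq_mul_div, div_mul_eq_mul_div, eq_div_iff hcj]
    calc P.coeff j * hh 3 c n (s - j) * c ^ j = P.coeff j * (c ^ j * hh 3 c n (s - j)) := by ring
      _ = _ := by
        rw [h7]
        ring

end HillRoots
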