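import Pool.Agent.Lib.MP_e63cf8_mp.H.StmI

/-!
# MP_e63cf8_mp, piece I6: the size of `betaP` for a cubic side without quadratic term
-/

open Polynomial Filter Topology MeasureTheory Asymptotics

namespace HillRoots

namespace I6

/-- one step of the estimate -/
private theorem st {a p u : ℂ} {X f g : ℝ} (ha : ‖a‖ ≤ X * f) (hu : ‖u‖ ≤ X) (hX : 0 ≤ X)
    (hg : f + ‖p‖ ≤ g) : ‖a + p * u‖ ≤ X * g := by
  have h1 : ‖a + p * u‖ ≤ ‖a‖ + ‖p‖ * ‖u‖ := by
    rw [← norm_mul]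
    exact norm_add_le _ _
  have h2 : ‖p‖ * ‖u‖ ≤ ‖p‖ * X := mul_le_mul_of_nonneg_left hu (norm_nonneg _)
  have h3 : X * (f + ‖p‖) ≤ X * g := mul_le_mul_of_nonneg_left hg hX
  nlinarith

/-- the recursion with small coefficients -/
private theorem core (n : ℕ) (U ψ : ℕ → ℂ) (F : ℝ) (hF : ∑ t ∈ Finset.range n, ‖ψ (t + 1)‖ ≤ F)
    (hF2 : F ≤ 1 / 2) (h0 : U 0 = 1) (h1 : 1 ≤ n → U 1 = ψ 1 * U 0)
    (h2 : 2 ≤ n → U 2 = ψ 2 * U 1)
    (h3 : ∀ s, s + 3 ≤ n → U (s + 3) = U s + ψ (s + 3) * U (s + 2)) (k : ℕ) :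
    (3 * k ≤ n → ‖U (3 * k) - 1‖ ≤ 2 * F ^ 2 * ∑ t ∈ Finset.range (3 * k), ‖ψ (t + 1)‖) ∧
    (3 * k + 1 ≤ n → ‖U (3 * k + 1)‖ ≤ 2 * ∑ t ∈ Finset.range (3 * k + 1), ‖ψ (t + 1)‖ ∧
      ‖U (3 * k + 1) - ∑ l ∈ Finset.range (k + 1), ψ (3 * l + 1)‖ ≤
        2 * F ^ 3 * ∑ t ∈ Finset.range (3 * k + 1), ‖ψ (t + 1)‖) ∧
    (3 * k + 2 ≤ n → ‖U (3 * k + 2)‖ ≤ 2 * F * ∑ t ∈ Finset.range (3 * k + 2), ‖ψ (t + 1)‖ ∧
      ‖U (3 * k + 2) - ∑ l ∈ Finset.range (k + 1), ψ (3 * l + 2) *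
        ∑ l' ∈ Finset.range (l + 1), ψ (3 * l' + 1)‖ ≤
        2 * F ^ 4 * ∑ t ∈ Finset.range (3 * k + 2), ‖ψ (t + 1)‖) := by
  have hnn : ∀ m, 0 ≤ ∑ t ∈ Finset.range m, ‖ψ (t + 1)‖ := fun m =>
    Finset.sum_nonneg fun _ _ => norm_nonneg _
  have hle : ∀ m, m ≤ n → ∑ t ∈ Finset.range m, ‖ψ (t + 1)‖ ≤ F := by
    intro m hm
    refine le_trans ?_ hF
    exact Finset.sum_le_sum_of_subset_of_nonneg (Finset.range_subset_range.mpr hm)
      fun _ _ _ => norm_nonneg _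
  have hF0 : 0 ≤ F := le_trans (hnn 0) (hle 0 (Nat.zero_le _))
  induction k with
  | zero =>
    refine ⟨?_, ?_, ?_⟩
    · intro _
      simp [h0]
    · intro h
      have e1 : U 1 = ψ 1 := by rw [h1 (by omega), h0, mul_one]
      simp only [mul_zero, zero_add, Finset.sum_range_one, e1, sub_self, norm_zero]
      have := norm_nonneg (ψ 1)
      exact ⟨by linarith, by positivity⟩
    · intro h
      have e1 : U 1 = ψ 1 := by rw [h1 (by omega), h0, mul_one]
      have e2 : U 2 = ψ 2 * ψ 1 := by rw [h2 (by omega), e1]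
      have e3 := hle 2 (by omega)
      have e4 := hle 1 (by omega)
      simp only [mul_zero, zero_add, Finset.sum_range_succ, Finset.range_zero,
        Finset.sum_empty, e2, sub_self, norm_zero, norm_mul] at e3 e4 ⊢
      norm_num at e3 e4 ⊢
      have := norm_nonneg (ψ 1)
      have := norm_nonneg (ψ 2)
      refine ⟨?_, by positivity⟩
      nlinarith [mul_nonneg hF0 (norm_nonneg (ψ 1)), mul_nonneg hF0 (norm_nonneg (ψ 2)),
        mul_le_mul_of_nonneg_left e4 (norm_nonneg (ψ 2))]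
  | succ k ih =>
    obtain ⟨ia, ib, ic⟩ := ih
    have fs : ∀ m, ∑ t ∈ Finset.range (m + 1), ‖ψ (t + 1)‖ =
        ∑ t ∈ Finset.range m, ‖ψ (t + 1)‖ + ‖ψ (m + 1)‖ := fun m => Finset.sum_range_succ _ _
    have f3 : ∀ m, ∑ t ∈ Finset.range m, ‖ψ (t + 1)‖ + ‖ψ (m + 3)‖ ≤
        ∑ t ∈ Finset.range (m + 3), ‖ψ (t + 1)‖ := by
      intro m
      rw [fs (m + 2), fs (m + 1), fs m]
      have := norm_nonneg (ψ (m + 1))
      have := norm_nonneg (ψ (m + 1 + 1))
      have e : m + 2 + 1 = m + 3 := rfl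
      rw [e]
      linarith
    have A : 3 * (k + 1) ≤ n → ‖U (3 * (k + 1)) - 1‖ ≤
        2 * F ^ 2 * ∑ t ∈ Finset.range (3 * (k + 1)), ‖ψ (t + 1)‖ := by
      intro h
      have e : 3 * (k + 1) = 3 * k + 3 := by ring
      rw [e] at h ⊢
      rw [h3 (3 * k) h]
      have e2 : U (3 * k) + ψ (3 * k + 3) * U (3 * k + 2) - 1 =
          (U (3 * k) - 1) + ψ (3 * k + 3) * U (3 * k + 2) := by ring
      rw [e2]
      refine st (ia (by omega)) ?_ (by positivity) (f3 _)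
      refine le_trans (ic (by omega)).1 ?_
      have := hle (3 * k + 2) (by omega)
      nlinarith
    have A' : 3 * (k + 1) ≤ n → ‖U (3 * (k + 1)) - 1‖ ≤ 2 * F ^ 3 := by
      intro h
      refine le_trans (A h) ?_
      have := mul_le_mul_of_nonneg_left (hle _ h) (by positivity : 0 ≤ 2 * F ^ 2)
      nlinarith
    have A2 : 3 * (k + 1) ≤ n → ‖U (3 * (k + 1))‖ ≤ 2 := by
      intro h
      have e1 := A' h
      have e2 : ‖U (3 * (k + 1))‖ ≤ ‖U (3 * (k + 1)) - 1‖ + ‖(1 : ℂ)‖ := by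
        have := norm_add_le (U (3 * (k + 1)) - 1) 1
        rwa [sub_add_cancel] at this
      rw [norm_one] at e2
      have e3 : F ^ 3 ≤ (1 / 2) ^ 3 := pow_le_pow_left₀ hF0 hF2 3
      linarith
    have B : 3 * (k + 1) + 1 ≤ n → ‖U (3 * (k + 1) + 1)‖ ≤
        2 * ∑ t ∈ Finset.range (3 * (k + 1) + 1), ‖ψ (t + 1)‖ ∧
      ‖U (3 * (k + 1) + 1) - ∑ l ∈ Finset.range (k + 1 + 1), ψ (3 * l + 1)‖ ≤
        2 * F ^ 3 * ∑ t ∈ Finset.range (3 * (k + 1) + 1), ‖ψ (t + 1)‖ := by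
      intro h
      have hA' := A' (by omega)
      have hA2 := A2 (by omega)
      have e : 3 * (k + 1) + 1 = 3 * k + 1 + 3 := by ring
      have e' : 3 * (k + 1) = 3 * k + 1 + 2 := by ring
      rw [Finset.sum_range_succ _ (k + 1)]
      rw [e] at h ⊢
      rw [e'] at hA' hA2
      rw [h3 (3 * k + 1) h]
      refine ⟨st (ib (by omega)).1 hA2 (by norm_num) (f3 _), ?_⟩
      have e2 : U (3 * k + 1) + ψ (3 * k + 1 + 3) * U (3 * k + 1 + 2) -
          (∑ l ∈ Finset.range (k + 1), ψ (3 * l + 1) + ψ (3 * k + 1 + 3)) =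
          (U (3 * k + 1) - ∑ l ∈ Finset.range (k + 1), ψ (3 * l + 1)) +
            ψ (3 * k + 1 + 3) * (U (3 * k + 1 + 2) - 1) := by ring
      rw [e2]
      exact st (ib (by omega)).2 hA' (by positivity) (f3 _)
    refine ⟨A, B, ?_⟩
    intro h
    obtain ⟨B1, B2⟩ := B (by omega)
    have hB1 : ‖U (3 * (k + 1) + 1)‖ ≤ 2 * F := by
      refine le_trans B1 ?_
      have := hle (3 * (k + 1) + 1) (by omega)
      linarith
    have hB2 : ‖U (3 * (k + 1) + 1) - ∑ l ∈ Finset.range (k + 1 + 1), ψ (3 * l + 1)‖ ≤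
        2 * F ^ 4 := by
      refine le_trans B2 ?_
      have := mul_le_mul_of_nonneg_left (hle (3 * (k + 1) + 1) (by omega))
        (by positivity : 0 ≤ 2 * F ^ 3)
      nlinarith
    have e : 3 * (k + 1) + 2 = 3 * k + 2 + 3 := by ring
    have e' : 3 * (k + 1) + 1 = 3 * k + 2 + 2 := by ring
    rw [Finset.sum_range_succ _ (k + 1)]
    rw [e] at h ⊢
    rw [e'] at hB1 hB2
    rw [h3 (3 * k + 2) h]
    refine ⟨st (ic (by omega)).1 hB1 (by positivity) (f3 _), ?_⟩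
    have e2 : U (3 * k + 2) + ψ (3 * k + 2 + 3) * U (3 * k + 2 + 2) -
        (∑ l ∈ Finset.range (k + 1), ψ (3 * l + 2) *
          ∑ l' ∈ Finset.range (l + 1), ψ (3 * l' + 1) +
          ψ (3 * k + 2 + 3) * ∑ l' ∈ Finset.range (k + 1 + 1), ψ (3 * l' + 1)) =
        (U (3 * k + 2) - ∑ l ∈ Finset.range (k + 1), ψ (3 * l + 2) *
          ∑ l' ∈ Finset.range (l + 1), ψ (3 * l' + 1)) +
          ψ (3 * k + 2 + 3) * (U (3 * k + 2 + 2) -
            ∑ l' ∈ Finset.range (k + 1 + 1), ψ (3 * l' + 1)) := by ring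
    rw [e2]
    exact st (ic (by omega)).2 hB2 (by positivity) (f3 _)

/-- `∑ m^{-2/3} ≤ 3 n^{1/3}` -/
private theorem sumrp (n : ℕ) : ∑ t ∈ Finset.range n, ((t : ℝ) + 1) ^ (-(2 / 3) : ℝ) ≤
    3 * (n : ℝ) ^ (1 / 3 : ℝ) := by
  induction n with
  | zero => simp
  | succ n ih =>
    rw [Finset.sum_range_succ]
    have hn : (0 : ℝ) < (n : ℝ) + 1 := by positivity
    have h1 : (n : ℝ) ^ (1 / 3 : ℝ) ≤ ((n : ℝ) + 1) ^ (1 / 3 : ℝ) *
        (1 - 1 / 3 * (1 / ((n : ℝ) + 1))) := by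
      have h2 : (n : ℝ) = ((n : ℝ) + 1) * (1 + -(1 / ((n : ℝ) + 1))) := by
        field_simp
        ring
      have h3 : 1 / ((n : ℝ) + 1) ≤ 1 := by
        rw [div_le_one hn]
        linarith [(Nat.cast_nonneg n : (0 : ℝ) ≤ n)]
      have h4 := rpow_one_add_le_one_add_mul_self (s := -(1 / ((n : ℝ) + 1)))
        (by linarith) (p := 1 / 3) (by norm_num) (by norm_num)
      calc (n : ℝ) ^ (1 / 3 : ℝ) = (((n : ℝ) + 1) * (1 + -(1 / ((n : ℝ) + 1)))) ^ (1 / 3 : ℝ) := by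
            rw [← h2]
        _ = ((n : ℝ) + 1) ^ (1 / 3 : ℝ) * (1 + -(1 / ((n : ℝ) + 1))) ^ (1 / 3 : ℝ) :=
            Real.mul_rpow hn.le (by linarith)
        _ ≤ ((n : ℝ) + 1) ^ (1 / 3 : ℝ) * (1 + 1 / 3 * -(1 / ((n : ℝ) + 1))) :=
            mul_le_mul_of_nonneg_left h4 (by positivity)
        _ = _ := by ring
    have h5 : ((n : ℝ) + 1) ^ (-(2 / 3) : ℝ) = ((n : ℝ) + 1) ^ (1 / 3 : ℝ) * (1 / ((n : ℝ) + 1)) := by
      have : (-(2 / 3) : ℝ) = 1 / 3 - 1 := by norm_num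
      rw [this, Real.rpow_sub_one hn.ne']
      ring
    push_cast
    rw [h5]
    nlinarith

/-- the sum of the upper bounds for `φ` -/
private theorem sumph (n : ℕ) (hn : 1 ≤ n) :
    ∑ t ∈ Finset.range n, (4 * (((t + 1 : ℕ) : ℝ)) * ((n : ℝ) - ((t + 1 : ℕ) : ℝ) + 1)) ^
      (-(2 / 3) : ℝ) ≤ 6 * (n : ℝ) ^ (-(1 / 3) : ℝ) := by
  have hn0 : (0 : ℝ) < n := by exact_mod_cast hn
  have key : ∀ t ∈ Finset.range n, (4 * (((t + 1 : ℕ) : ℝ)) *
      ((n : ℝ) - ((t + 1 : ℕ) : ℝ) + 1)) ^ (-(2 / 3) : ℝ) ≤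
      (n : ℝ) ^ (-(2 / 3) : ℝ) * (((t : ℝ) + 1) ^ (-(2 / 3) : ℝ) +
        (((n - 1 - t : ℕ) : ℝ) + 1) ^ (-(2 / 3) : ℝ)) := by
    intro t ht
    have ht' : t + 1 ≤ n := Finset.mem_range.mp ht
    have e1 : (((n - 1 - t : ℕ) : ℝ) + 1) = (n : ℝ) - t := by
      have : n - 1 - t + 1 = n - t := by omega
      have h2 : ((n - 1 - t + 1 : ℕ) : ℝ) = ((n - t : ℕ) : ℝ) := by rw [this]
      rw [Nat.cast_sub (by omega)] at h2
      push_cast at h2
      exact h2
    have e2 : (n : ℝ) - ((t + 1 : ℕ) : ℝ) + 1 = (n : ℝ) - t := by push_cast; ring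
    rw [e1, e2]
    push_cast
    have ht2 : (t : ℝ) + 1 ≤ n := by exact_mod_cast ht'
    have ht0 : (0 : ℝ) ≤ t := Nat.cast_nonneg t
    have p1 : (0 : ℝ) < (t : ℝ) + 1 := by linarith
    have p2 : (0 : ℝ) < (n : ℝ) - t := by linarith
    have q1 : 0 ≤ ((t : ℝ) + 1) ^ (-(2 / 3) : ℝ) := by positivity
    have q2 : 0 ≤ ((n : ℝ) - t) ^ (-(2 / 3) : ℝ) := Real.rpow_nonneg p2.le _
    have q3 : 0 ≤ (n : ℝ) ^ (-(2 / 3) : ℝ) := by positivity
    rcases le_total ((t : ℝ) + 1) ((n : ℝ) - t) with h | h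
    · have h1 : (4 * ((t : ℝ) + 1) * ((n : ℝ) - t)) ^ (-(2 / 3) : ℝ) ≤
          ((n : ℝ) * ((t : ℝ) + 1)) ^ (-(2 / 3) : ℝ) := by
        refine Real.rpow_le_rpow_of_nonpos (by positivity) ?_ (by norm_num)
        nlinarith
      rw [Real.mul_rpow hn0.le p1.le] at h1
      nlinarith [mul_nonneg q3 q2]
    · have h1 : (4 * ((t : ℝ) + 1) * ((n : ℝ) - t)) ^ (-(2 / 3) : ℝ) ≤
          ((n : ℝ) * ((n : ℝ) - t)) ^ (-(2 / 3) : ℝ) := by
        refine Real.rpow_le_rpow_of_nonpos (by positivity) ?_ (by norm_num)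
        nlinarith
      rw [Real.mul_rpow hn0.le p2.le] at h1
      nlinarith [mul_nonneg q3 q1]
  refine le_trans (Finset.sum_le_sum key) ?_
  rw [← Finset.mul_sum, Finset.sum_add_distrib,
    Finset.sum_range_reflect (fun t => ((t : ℝ) + 1) ^ (-(2 / 3) : ℝ)) n]
  have h := sumrp n
  have h1 : (n : ℝ) ^ (-(1 / 3) : ℝ) = (n : ℝ) ^ (-(2 / 3) : ℝ) * (n : ℝ) ^ (1 / 3 : ℝ) := by
    rw [← Real.rpow_add hn0]
    norm_num
  rw [h1]
  have q3 : 0 ≤ (n : ℝ) ^ (-(2 / 3) : ℝ) := by positivity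
  nlinarith

private theorem sum3 (P : ℂ[X]) (h3 : P.natDegree = 3) (h2 : P.coeff 2 = 0) (x : ℕ → ℂ) (m : ℕ) :
    ∑ i ∈ Finset.range (m + 3), P.coeff (m + 3 - i) * x i =
      P.coeff 3 * x m + P.coeff 1 * x (m + 2) := by
  rw [Finset.sum_range_succ, Finset.sum_range_succ, Finset.sum_range_succ,
    Finset.sum_eq_zero, show m + 3 - m = 3 by omega, show m + 3 - (m + 1) = 2 by omega,
    show m + 3 - (m + 2) = 1 by omega, h2]
  · ring
  · intro i hi
    have := Finset.mem_range.mp hi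
    rw [coeff_eq_zero_of_natDegree_lt (by omega), zero_mul]

private theorem xPs (P : ℂ[X]) (n s : ℕ) : xP P n (s + 1) =
    (∑ i ∈ Finset.range (s + 1), P.coeff (s + 1 - i) * xP P n i) / (En n ((s + 1 : ℕ) : ℤ) : ℂ) := by
  rw [xP, ← Fin.sum_univ_eq_sum_range (fun i => P.coeff (s + 1 - i) * xP P n i)]
  push_cast
  rfl

private theorem alg {a₁ c x h h' E p : ℂ} (hc : c ≠ 0) (hh' : h' ≠ 0) (hh : h ≠ 0) (hE : E ≠ 0)
    (he : c ^ 1 * h' = p * E * h) : a₁ * x / (E * h) = a₁ / c * p * (x / h') := by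
  rw [pow_one] at he
  field_simp
  linear_combination (a₁ * x) * he

end I6

open I6 in
theorem p_I6 (hH1 : S_H1) (hI4 : S_I4) : S_I6 := by
  intro P c hP0 hP3 hP2 hP1 hc3
  have hlc : P.leadingCoeff = P.coeff 3 := by rw [leadingCoeff, hP3]
  have hPne : P ≠ 0 := by
    rintro rfl
    simp at hP1
  have hc : c ≠ 0 := by
    rintro rfl
    have : P.leadingCoeff = 0 := by rw [← hc3]; simp
    exact hPne (leadingCoeff_eq_zero.mp this)
  set A : ℂ := P.coeff 1 / c with hA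
  have hAne : A ≠ 0 := div_ne_zero hP1 hc
  have hA0 : 0 < ‖A‖ := norm_pos_iff.mpr hAne
  set C : ℝ := 96 * ‖A‖ with hC
  have hC0 : 0 < C := by positivity
  refine ⟨min (1 / 2) (min (‖A‖ / 24) (‖A‖ ^ 2 / 576)), max 2 (max (2 * C) (2 * C ^ 2)),
    by positivity, by positivity, ?_⟩
  have hlim : Tendsto (fun n : ℕ => (n : ℝ) ^ (-(1 / 3) : ℝ)) atTop (𝓝 0) :=
    (tendsto_rpow_neg_atTop (by norm_num : (0 : ℝ) < 1 / 3)).comp tendsto_natCast_atTop_atTop
  set δ : ℝ := min (1 / (2 * C)) (min 1 (min (‖A‖ / (48 * C ^ 4)) (‖A‖ ^ 2 / (1152 * C ^ 5))))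
    with hδ
  have hδ0 : 0 < δ := by positivity
  filter_upwards [hlim.eventually (gt_mem_nhds hδ0), eventually_ge_atTop 4] with n hν hn
  set ν : ℝ := (n : ℝ) ^ (-(1 / 3) : ℝ) with hνd
  have hn0 : (0 : ℝ) < n := by
    have : 0 < n := by omega
    exact_mod_cast this
  have hν0 : 0 < ν := by positivity
  have hν1 : ν ≤ 1 / (2 * C) := hν.le.trans (min_le_left _ _)
  have hν2 : ν ≤ 1 := hν.le.trans ((min_le_right _ _).trans (min_le_left _ _))
  have hν3 : ν ≤ ‖A‖ / (48 * C ^ 4) :=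
    hν.le.trans ((min_le_right _ _).trans ((min_le_right _ _).trans (min_le_left _ _)))
  have hν4 : ν ≤ ‖A‖ ^ 2 / (1152 * C ^ 5) :=
    hν.le.trans ((min_le_right _ _).trans ((min_le_right _ _).trans (min_le_right _ _)))
  rw [le_div_iff₀ (by positivity)] at hν1 hν3 hν4
  have hnν : (n : ℝ) * ν ^ 3 = 1 := by
    have h1 : ν ^ 3 = (n : ℝ)⁻¹ := by
      rw [hνd, ← Real.rpow_natCast, ← Real.rpow_mul hn0.le, ← Real.rpow_neg_one]
      norm_num
    rw [h1, mul_inv_cancel₀ hn0.ne']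
  obtain ⟨hh0, hhne, hh3⟩ := hH1 3 n c (by norm_num) hc (by omega)
  -- the coefficients
  have hexp : (-(1 - ((1 : ℕ) : ℝ) / 3) : ℝ) = -(2 / 3) := by norm_num
  have hup : ∀ s, 1 ≤ s → s ≤ n → ph 1 n s ≤
      16 * (4 * (s : ℝ) * ((n : ℝ) - s + 1)) ^ (-(2 / 3) : ℝ) := by
    intro s h1 h2
    have := (hI4 c 1 n s hc le_rfl (by norm_num) h1 h2 (by omega)).2.2.2.1
    rwa [hexp] at this
  have hlo : ∀ s, 1 ≤ s → s ≤ n → 1 / 4 * ν ^ 4 ≤ ph 1 n s := by
    intro s h1 h2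
    have h3 := (hI4 c 1 n s hc le_rfl (by norm_num) h1 h2 (by omega)).2.2.1
    rw [hexp] at h3
    refine le_trans ?_ h3
    have hs1 : (1 : ℝ) ≤ s := by exact_mod_cast h1
    have hs2 : (s : ℝ) ≤ n := by exact_mod_cast h2
    have h4 : (8 * (n : ℝ) ^ 2) ^ (-(2 / 3) : ℝ) ≤
        (8 * (s : ℝ) * ((n : ℝ) - s + 1)) ^ (-(2 / 3) : ℝ) := by
      refine Real.rpow_le_rpow_of_nonpos ?_ ?_ (by norm_num)
      · have : 0 < (n : ℝ) - s + 1 := by linarith
        positivity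
      · nlinarith
    refine le_trans (le_of_eq ?_) h4
    rw [Real.mul_rpow (by norm_num) (by positivity), ← Real.rpow_natCast (n : ℝ) 2,
      ← Real.rpow_mul hn0.le, hνd, ← Real.rpow_natCast _ 4, ← Real.rpow_mul hn0.le]
    have h8 : (8 : ℝ) ^ (-(2 / 3) : ℝ) = 1 / 4 := by
      rw [show (8 : ℝ) = 2 ^ (3 : ℝ) by norm_num, ← Real.rpow_mul (by norm_num)]
      norm_num
    rw [h8]
    norm_num
  have hφ0 : ∀ s, 1 ≤ s → s ≤ n → 0 ≤ ph 1 n s := fun s h1 h2 =>
    le_trans (by positivity) (hlo s h1 h2)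
  set ψ : ℕ → ℂ := fun s => A * (ph 1 n s : ℂ) with hψ
  have hψn : ∀ s, 1 ≤ s → s ≤ n → ‖ψ s‖ = ‖A‖ * ph 1 n s := by
    intro s h1 h2
    simp only [hψ]
    rw [norm_mul, Complex.norm_real, Real.norm_of_nonneg (hφ0 s h1 h2)]
  have hF : ∑ t ∈ Finset.range n, ‖ψ (t + 1)‖ ≤ C * ν := by
    have h1 : ∀ t ∈ Finset.range n, ‖ψ (t + 1)‖ ≤ ‖A‖ * (16 * (4 * (((t + 1 : ℕ) : ℝ)) *
        ((n : ℝ) - ((t + 1 : ℕ) : ℝ) + 1)) ^ (-(2 / 3) : ℝ)) := by
      intro t ht
      have := Finset.mem_range.mp ht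
      rw [hψn (t + 1) (by omega) (by omega)]
      exact mul_le_mul_of_nonneg_left (hup (t + 1) (by omega) (by omega)) hA0.le
    refine le_trans (Finset.sum_le_sum h1) ?_
    rw [← Finset.mul_sum, ← Finset.mul_sum]
    have h2 := sumph n (by omega)
    rw [← hνd] at h2
    have h3 := mul_le_mul_of_nonneg_left h2 (by positivity : 0 ≤ ‖A‖ * 16)
    rw [hC]
    linarith
  have hF2 : C * ν ≤ 1 / 2 := by linarith
  -- the normalised sequence
  set U : ℕ → ℂ := fun s => if s < n then xP P n s / hh 3 c n s else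
    betaP P n / (c ^ 3 * hh 3 c n (n - 3)) with hU
  have hUlt : ∀ s, s < n → U s = xP P n s / hh 3 c n s := by
    intro s hs
    simp only [hU]
    rw [if_pos hs]
  have hUn : U n = betaP P n / (c ^ 3 * hh 3 c n (n - 3)) := by
    simp only [hU]
    rw [if_neg (lt_irrefl n)]
  have hEne : ∀ s : ℕ, 1 ≤ s → s < n → (En n (s : ℤ) : ℂ) ≠ 0 := by
    intro s h1 h2
    have h1' : (0 : ℝ) < s := by exact_mod_cast h1
    have h2' : (s : ℝ) < n := by exact_mod_cast h2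
    have : En n (s : ℤ) ≠ 0 := by
      unfold En
      push_cast
      have : 0 < (n : ℝ) - s := by linarith
      positivity
    exact_mod_cast this
  have hU0 : U 0 = 1 := by
    rw [hUlt 0 (by omega), hh0, xP]
    simp
  have hα : ∀ s, s + 1 < n → P.coeff 1 * xP P n s / ((En n ((s + 1 : ℕ) : ℤ) : ℂ) *
      hh 3 c n (s + 1)) = ψ (s + 1) * U s := by
    intro s hs
    rw [hUlt s (by omega)]
    have h := (hI4 c 1 n (s + 1) hc le_rfl (by norm_num) (by omega) (by omega) (by omega)).1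
      (by omega) hs
    rw [Nat.add_sub_cancel] at h
    exact alg hc (hhne s (by omega)) (hhne (s + 1) hs) (hEne (s + 1) (by omega) hs) h
  have hU1 : U 1 = ψ 1 * U 0 := by
    rw [← hα 0 (by omega), hUlt 1 (by omega), xPs P n 0]
    simp only [zero_add, Finset.sum_range_one, Nat.sub_zero]
    rw [div_div]
  have hU2 : U 2 = ψ 2 * U 1 := by
    rw [← hα 1 (by omega), hUlt 2 (by omega), xPs P n 1]
    simp only [Finset.sum_range_succ, Finset.range_zero, Finset.sum_empty]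
    norm_num
    rw [hP2, zero_mul, zero_add, div_div]
  have hU3 : ∀ s, s + 3 ≤ n → U (s + 3) = U s + ψ (s + 3) * U (s + 2) := by
    intro s hs
    rcases lt_or_eq_of_le hs with hs' | hs'
    · have h1 := hα (s + 2) hs'
      have h2 := hh3 (s + 3) (by omega) hs'
      rw [Nat.add_sub_cancel] at h2
      have e1 : s + 2 + 1 = s + 3 := rfl
      rw [e1] at h1
      rw [← h1, hUlt (s + 3) hs', hUlt s (by omega), xPs P n (s + 2), e1,
        sum3 P hP3 hP2 (xP P n) s, ← hlc, ← hc3]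
      have n1 := hhne s (by omega)
      have n2 := hhne (s + 3) hs'
      have n3 := hEne (s + 3) (by omega) hs'
      rw [div_div, add_div]
      congr 1
      rw [← h2, mul_div_mul_left _ _ (pow_ne_zero 3 hc)]
    · have h2 := (hI4 c 1 n 1 hc le_rfl (by norm_num) le_rfl (by omega) (by omega)).2.1
      have hb : betaP P n = P.coeff 3 * xP P n s + P.coeff 1 * xP P n (s + 2) := by
        unfold betaP
        rw [← hs']
        exact sum3 P hP3 hP2 (xP P (s + 3)) s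
      have e1 : n - 3 = s := by omega
      have e2 : n - 1 = s + 2 := by omega
      rw [e1, e2] at h2
      have h3 : U (s + 3) = U n := by rw [hs']
      rw [h3, hUn, hb, hUlt s (by omega), hUlt (s + 2) (by omega), hs', e1, ← hlc, ← hc3, add_div,
        mul_div_mul_left _ _ (pow_ne_zero 3 hc)]
      congr 1
      refine alg hc (hhne (s + 2) (by omega)) (hhne s (by omega)) (pow_ne_zero 3 hc) ?_
      rw [h2]
  have hcore := core n U ψ (C * ν) hF hF2 hU0 (fun _ => hU1) (fun _ => hU2) hU3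
  have hFn : ∀ m, m ≤ n → ∑ t ∈ Finset.range m, ‖ψ (t + 1)‖ ≤ C * ν := by
    intro m hm
    refine le_trans ?_ hF
    exact Finset.sum_le_sum_of_subset_of_nonneg (Finset.range_subset_range.mpr hm)
      fun _ _ _ => norm_nonneg _
  -- the value
  have hbn : ‖betaP P n‖ = ‖U n‖ * (‖P.leadingCoeff‖ * ‖hh 3 c n (n - 3)‖) := by
    have n1 := hhne (n - 3) (by omega)
    rw [hUn, hc3, norm_div, norm_mul, div_mul_cancel₀]
    rw [← hc3]
    have : c ^ 3 ≠ 0 := pow_ne_zero 3 hc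
    positivity
  have hpow : (n : ℝ) ^ (-(((n % 3 : ℕ) : ℝ) / 3)) = ν ^ (n % 3) := by
    rw [hνd, ← Real.rpow_natCast, ← Real.rpow_mul hn0.le]
    congr 1
    ring
  have hmain : min (1 / 2) (min (‖A‖ / 24) (‖A‖ ^ 2 / 576)) * ν ^ (n % 3) ≤ ‖U n‖ ∧
      ‖U n‖ ≤ max 2 (max (2 * C) (2 * C ^ 2)) * ν ^ (n % 3) := by
    have hCν : 0 < C * ν := by positivity
    have hk := Nat.div_add_mod n 3
    obtain ⟨ka, kb, kc⟩ := hcore (n / 3)
    have hmod : n % 3 = 0 ∨ n % 3 = 1 ∨ n % 3 = 2 := by omega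
    rcases hmod with h | h | h
    · rw [h, add_zero] at hk
      rw [hk] at ka
      have h1 := ka le_rfl
      have h2 := mul_le_mul_of_nonneg_left hF (by positivity : 0 ≤ 2 * (C * ν) ^ 2)
      have h3 : (C * ν) ^ 3 ≤ (1 / 2) ^ 3 := pow_le_pow_left₀ hCν.le hF2 3
      have h4 : ‖U n - 1‖ ≤ 1 / 4 := by nlinarith
      have h5 : ‖U n‖ ≤ ‖U n - 1‖ + ‖(1 : ℂ)‖ := by
        have := norm_add_le (U n - 1) 1
        rwa [sub_add_cancel] at this
      have h6 : ‖(1 : ℂ)‖ ≤ ‖U n - 1‖ + ‖U n‖ := by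
        have := norm_sub_le (U n) (U n - 1)
        rw [sub_sub_cancel] at this
        linarith
      rw [norm_one] at h5 h6
      rw [h, pow_zero, mul_one, mul_one]
      constructor
      · exact (min_le_left _ _).trans (by linarith)
      · exact le_trans (by linarith) (le_max_left _ _)
    · rw [h] at hk
      rw [hk] at kb
      obtain ⟨h1, h2⟩ := kb le_rfl
      rw [h, pow_one]
      constructor
      · have h3 := mul_le_mul_of_nonneg_left hF (by positivity : 0 ≤ 2 * (C * ν) ^ 3)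
        have h4 : ∑ l ∈ Finset.range (n / 3 + 1), ψ (3 * l + 1) =
            A * ((∑ l ∈ Finset.range (n / 3 + 1), ph 1 n (3 * l + 1) : ℝ) : ℂ) := by
          push_cast
          rw [Finset.mul_sum]
        have h5 : ((n / 3 + 1 : ℕ) : ℝ) * (1 / 4 * ν ^ 4) ≤
            ∑ l ∈ Finset.range (n / 3 + 1), ph 1 n (3 * l + 1) := by
          have : ∀ l ∈ Finset.range (n / 3 + 1), 1 / 4 * ν ^ 4 ≤ ph 1 n (3 * l + 1) := by
            intro l hl
            have := Finset.mem_range.mp hl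
            exact hlo _ (by omega) (by omega)
          have h6 := Finset.sum_le_sum this
          rwa [Finset.sum_const, Finset.card_range, nsmul_eq_mul] at h6
        have h6 : (n : ℝ) / 3 ≤ ((n / 3 + 1 : ℕ) : ℝ) := by
          have : n ≤ 3 * (n / 3 + 1) := by omega
          have : (n : ℝ) ≤ ((3 * (n / 3 + 1) : ℕ) : ℝ) := by exact_mod_cast this
          push_cast at this ⊢
          linarith
        have h7 : 1 / 12 * ν ≤ ∑ l ∈ Finset.range (n / 3 + 1), ph 1 n (3 * l + 1) := by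
          refine le_trans ?_ h5
          have h8 := mul_le_mul_of_nonneg_right h6 (by positivity : 0 ≤ 1 / 4 * ν ^ 4)
          refine le_trans (le_of_eq ?_) h8
          linear_combination (-(1 / 12) * ν) * hnν
        have h8 : ‖A‖ * (1 / 12 * ν) ≤ ‖∑ l ∈ Finset.range (n / 3 + 1), ψ (3 * l + 1)‖ := by
          rw [h4, norm_mul, Complex.norm_real]
          exact mul_le_mul_of_nonneg_left (h7.trans (le_abs_self _)) hA0.le
        have h9 : ‖∑ l ∈ Finset.range (n / 3 + 1), ψ (3 * l + 1)‖ ≤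
            ‖U n - ∑ l ∈ Finset.range (n / 3 + 1), ψ (3 * l + 1)‖ + ‖U n‖ := by
          have := norm_sub_le (U n) (U n - ∑ l ∈ Finset.range (n / 3 + 1), ψ (3 * l + 1))
          rw [sub_sub_cancel] at this
          linarith
        have h10 : 2 * (C * ν) ^ 3 * (C * ν) ≤ ‖A‖ / 24 * ν := by
          have e1 : ν ^ 3 ≤ ν := by
            have := pow_le_pow_of_le_one hν0.le hν2 (show 1 ≤ 3 by norm_num)
            simpa using this
          have e2 : 2 * (C * ν) ^ 3 * (C * ν) = 2 * C ^ 4 * ν * ν ^ 3 := by ring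
          rw [e2]
          have e3 := mul_le_mul_of_nonneg_left e1 (by positivity : 0 ≤ 2 * C ^ 4 * ν)
          have e4 := mul_le_mul_of_nonneg_right hν3 hν0.le
          nlinarith
        have h11 : min (1 / 2) (min (‖A‖ / 24) (‖A‖ ^ 2 / 576)) ≤ ‖A‖ / 24 :=
          (min_le_right _ _).trans (min_le_left _ _)
        have h12 := mul_le_mul_of_nonneg_right h11 hν0.le
        linarith
      · have h3 : 2 * C ≤ max 2 (max (2 * C) (2 * C ^ 2)) :=
          (le_max_left _ _).trans (le_max_right _ _)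
        have h4 := mul_le_mul_of_nonneg_right h3 hν0.le
        linarith
    · rw [h] at hk
      rw [hk] at kc
      obtain ⟨h1, h2⟩ := kc le_rfl
      rw [h]
      constructor
      · have h3 := mul_le_mul_of_nonneg_left hF (by positivity : 0 ≤ 2 * (C * ν) ^ 4)
        have h4 : ∑ l ∈ Finset.range (n / 3 + 1), ψ (3 * l + 2) *
            ∑ l' ∈ Finset.range (l + 1), ψ (3 * l' + 1) =
            A ^ 2 * ((∑ l ∈ Finset.range (n / 3 + 1), ph 1 n (3 * l + 2) *
              ∑ l' ∈ Finset.range (l + 1), ph 1 n (3 * l' + 1) : ℝ) : ℂ) := by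
          push_cast
          rw [Finset.mul_sum]
          refine Finset.sum_congr rfl fun l _ => ?_
          simp only [hψ]
          rw [← Finset.mul_sum]
          ring
        have h5 : ∀ l ∈ Finset.range (n / 3 + 1), 1 / 4 * ν ^ 4 * (((l : ℝ) + 1) * (1 / 4 * ν ^ 4)) ≤
            ph 1 n (3 * l + 2) * ∑ l' ∈ Finset.range (l + 1), ph 1 n (3 * l' + 1) := by
          intro l hl
          have hl' := Finset.mem_range.mp hl
          have a1 : ∀ l' ∈ Finset.range (l + 1), 1 / 4 * ν ^ 4 ≤ ph 1 n (3 * l' + 1) := by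
            intro l' hl2
            have := Finset.mem_range.mp hl2
            exact hlo _ (by omega) (by omega)
          have a2 := Finset.sum_le_sum a1
          rw [Finset.sum_const, Finset.card_range, nsmul_eq_mul] at a2
          push_cast at a2
          exact mul_le_mul (hlo _ (by omega) (by omega)) a2 (by positivity)
            (hφ0 _ (by omega) (by omega))
        have h6 : ∑ l ∈ Finset.range (n / 3 + 1), ((l : ℝ) + 1) =
            ((n / 3 : ℕ) + 1 : ℝ) * ((n / 3 : ℕ) + 2) / 2 := by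
          generalize n / 3 = k
          induction k with
          | zero => simp
          | succ k ih =>
            rw [Finset.sum_range_succ, ih]
            push_cast
            ring
        have h6' : (n : ℝ) ^ 2 / 18 ≤ ∑ l ∈ Finset.range (n / 3 + 1), ((l : ℝ) + 1) := by
          rw [h6]
          have : n ≤ 3 * (n / 3 + 1) := by omega
          have h7 : (n : ℝ) ≤ ((3 * (n / 3 + 1) : ℕ) : ℝ) := by exact_mod_cast this
          push_cast at h7
          have h8 : (0 : ℝ) ≤ ((n / 3 : ℕ) : ℝ) := Nat.cast_nonneg _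
          nlinarith
        have h7 : 1 / 288 * ν ^ 2 ≤ ∑ l ∈ Finset.range (n / 3 + 1), ph 1 n (3 * l + 2) *
              ∑ l' ∈ Finset.range (l + 1), ph 1 n (3 * l' + 1) := by
          refine le_trans ?_ (Finset.sum_le_sum h5)
          have e1 : ∑ l ∈ Finset.range (n / 3 + 1), 1 / 4 * ν ^ 4 *
              (((l : ℝ) + 1) * (1 / 4 * ν ^ 4)) = 1 / 16 * ν ^ 8 *
                ∑ l ∈ Finset.range (n / 3 + 1), ((l : ℝ) + 1) := by
            rw [Finset.mul_sum]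
            refine Finset.sum_congr rfl fun l _ => ?_
            ring
          rw [e1]
          have h8 := mul_le_mul_of_nonneg_left h6' (by positivity : 0 ≤ 1 / 16 * ν ^ 8)
          refine le_trans (le_of_eq ?_) h8
          linear_combination (-(1 / 288) * ν ^ 2 * ((n : ℝ) * ν ^ 3 + 1)) * hnν
        have h8 : ‖A‖ ^ 2 * (1 / 288 * ν ^ 2) ≤ ‖∑ l ∈ Finset.range (n / 3 + 1), ψ (3 * l + 2) *
            ∑ l' ∈ Finset.range (l + 1), ψ (3 * l' + 1)‖ := by
          rw [h4, norm_mul, Complex.norm_real, norm_pow]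
          exact mul_le_mul_of_nonneg_left (h7.trans (le_abs_self _)) (by positivity)
        have h9 : ‖∑ l ∈ Finset.range (n / 3 + 1), ψ (3 * l + 2) *
            ∑ l' ∈ Finset.range (l + 1), ψ (3 * l' + 1)‖ ≤
            ‖U n - ∑ l ∈ Finset.range (n / 3 + 1), ψ (3 * l + 2) *
              ∑ l' ∈ Finset.range (l + 1), ψ (3 * l' + 1)‖ + ‖U n‖ := by
          have := norm_sub_le (U n) (U n - ∑ l ∈ Finset.range (n / 3 + 1), ψ (3 * l + 2) *
              ∑ l' ∈ Finset.range (l + 1), ψ (3 * l' + 1))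
          rw [sub_sub_cancel] at this
          linarith
        have h10 : 2 * (C * ν) ^ 4 * (C * ν) ≤ ‖A‖ ^ 2 / 576 * ν ^ 2 := by
          have e1 : ν ^ 4 ≤ ν ^ 2 := pow_le_pow_of_le_one hν0.le hν2 (by norm_num)
          have e2 : 2 * (C * ν) ^ 4 * (C * ν) = 2 * C ^ 5 * ν * ν ^ 4 := by ring
          rw [e2]
          have e3 := mul_le_mul_of_nonneg_left e1 (by positivity : 0 ≤ 2 * C ^ 5 * ν)
          have e4 := mul_le_mul_of_nonneg_right hν4 (by positivity : 0 ≤ ν ^ 2)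
          nlinarith
        have h11 : min (1 / 2) (min (‖A‖ / 24) (‖A‖ ^ 2 / 576)) ≤ ‖A‖ ^ 2 / 576 :=
          (min_le_right _ _).trans (min_le_right _ _)
        have h12 := mul_le_mul_of_nonneg_right h11 (by positivity : 0 ≤ ν ^ 2)
        linarith
      · have h3 : 2 * C ^ 2 ≤ max 2 (max (2 * C) (2 * C ^ 2)) :=
          (le_max_right _ _).trans (le_max_right _ _)
        have h4 := mul_le_mul_of_nonneg_right h3 (by positivity : 0 ≤ ν ^ 2)
        have h5 := mul_le_mul_of_nonneg_left hF (by positivity : 0 ≤ 2 * (C * ν))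
        nlinarith
  have hH : 0 ≤ ‖P.leadingCoeff‖ * ‖hh 3 c n (n - 3)‖ := by positivity
  rw [hpow, hbn]
  exact ⟨mul_le_mul_of_nonneg_right hmain.1 hH, mul_le_mul_of_nonneg_right hmain.2 hH⟩

end HillRoots
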