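import Pool.Agent.Lib.MP_e63cf8_mp.H.StmI
import Pool.Agent.Lib.MP_e63cf8_mp.P.F4
import Pool.Agent.Lib.MP_e63cf8_mp.P.F6

set_option autoImplicit false

open Polynomial Filter Topology MeasureTheory Asymptotics

namespace HillRoots

/-- Lipschitz bound for the solutions -/
private theorem I8_lip (hF1 : S_F1) (P Q : ℂ[X]) (Z : ℝ) (hP : P.coeff 0 = 0) (hQ : Q.coeff 0 = 0) :
    ∃ (n₀ : ℕ) (K : ℝ), 0 < K ∧ ∀ n : ℕ, n₀ ≤ n → ∀ z z' : ℂ, ‖z‖ ≤ Z → ‖z'‖ ≤ Z → ∀ s : ℤ,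
      ‖Vop P Q (C0 P Q n z) s - Vop P Q (C0 P Q n z') s‖ ≤ K / n * ‖z - z'‖ := by
  obtain ⟨n₁, K, hK, H⟩ := hF1 P Q Z
  have hν0 : 0 ≤ nu P Q := add_nonneg (Finset.sum_nonneg fun _ _ => norm_nonneg _)
    (Finset.sum_nonneg fun _ _ => norm_nonneg _)
  obtain ⟨N, hN⟩ := exists_nat_ge (max (2 * nu P Q) (Z + 4))
  refine ⟨max n₁ (max 1 N), 2 * K * (nu P Q + 1), by positivity, ?_⟩
  intro n hn z z' hz hz' s₀
  have hn1 : n₁ ≤ n := (le_max_left _ _).trans hn
  have hn11 : 1 ≤ n := (le_max_left _ _).trans ((le_max_right _ _).trans hn)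
  have hnN : N ≤ n := (le_max_right _ _).trans ((le_max_right _ _).trans hn)
  have hnN' : (N : ℝ) ≤ n := by exact_mod_cast hnN
  have hn2 : 2 * nu P Q ≤ n := (le_max_left _ _).trans (hN.trans hnN')
  have hnZ : Z + 4 ≤ n := (le_max_right _ _).trans (hN.trans hnN')
  have hnpos : (0 : ℝ) < n := by exact_mod_cast (by omega : 0 < n)
  set w : ℤ → ℂ := fun s => C0 P Q n z s - C0 P Q n z' s with hw
  have S1 := (H n hn1 z hz).1
  have S2 := (H n hn1 z' hz').1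
  obtain ⟨B1, hB1⟩ := S1.bdd
  obtain ⟨B2, hB2⟩ := S2.bdd
  have hwb : ∀ s, ‖w s‖ ≤ B1 + B2 := fun s =>
    (norm_sub_le _ _).trans (add_le_add (hB1 s) (hB2 s))
  have hsup := p_F4_sup w (K * ‖z - z'‖ / n) _ hwb (by
    intro B hB s
    have hB0 : 0 ≤ B := (norm_nonneg _).trans (hB 0)
    have hc0 : 0 ≤ K * ‖z - z'‖ / n := by positivity
    by_cases hs0 : s = 0
    · have : w s = 0 := by
        rw [hs0, hw]
        simp only
        rw [S1.zero, S2.zero, sub_self]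
      rw [this, norm_zero]
      linarith
    by_cases hsn : s = n
    · have : w s = 0 := by
        rw [hsn, hw]
        simp only
        rw [S1.top, S2.top, sub_self]
      rw [this, norm_zero]
      linarith
    have e1 := S1.eqn s hs0 hsn
    have e2 := S2.eqn s hs0 hsn
    have e3 := p_F4_sub P Q (C0 P Q n z) (C0 P Q n z') s
    simp only [Pi.zero_apply, add_zero] at e1 e2
    have e : ((En n s : ℂ) + z) * w s = Vop P Q w s - (z - z') * C0 P Q n z' s := by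
      rw [hw, ← e3]
      simp only
      linear_combination e1 - e2
    have hE : (n : ℝ) ≤ ‖(En n s : ℂ) + z‖ := by
      have h1 : ‖(En n s : ℂ)‖ = 4 * (|(s : ℝ)| * |(n : ℝ) - s|) := by
        rw [Complex.norm_real, En, Real.norm_eq_abs, abs_mul, abs_mul, abs_of_pos (by norm_num : (0:ℝ) < 4)]
        ring
      have h2 := p_F4_En n s hs0 hsn
      have h3 : ‖(En n s : ℂ)‖ ≤ ‖(En n s : ℂ) + z‖ + ‖z‖ := by
        have := norm_sub_le ((En n s : ℂ) + z) z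
        rwa [add_sub_cancel_right] at this
      linarith
    have h4 : ‖((En n s : ℂ) + z) * w s‖ ≤ nu P Q * B + ‖z - z'‖ * K := by
      rw [e]
      refine (norm_sub_le _ _).trans (add_le_add ?_ ?_)
      · exact p_F4_Vop P Q w s B hP hQ fun t _ _ => hB t
      · rw [norm_mul]
        refine mul_le_mul_of_nonneg_left ?_ (norm_nonneg _)
        refine ((H n hn1 z' hz').2.1 s hs0 hsn).trans ?_
        refine div_le_self hK.le ?_
        have h1 : (1 : ℝ) ≤ |(n : ℝ) - s| := by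
          have : (1 : ℤ) ≤ |(n : ℤ) - s| := Int.one_le_abs (by omega)
          exact_mod_cast this
        have h2 : (1 : ℝ) ≤ |(s : ℝ)| := by exact_mod_cast Int.one_le_abs hs0
        nlinarith
    rw [norm_mul] at h4
    have h5 : (n : ℝ) * ‖w s‖ ≤ nu P Q * B + ‖z - z'‖ * K :=
      (mul_le_mul_of_nonneg_right hE (norm_nonneg _)).trans h4
    have h6 : nu P Q * B ≤ n * (B / 2) := by nlinarith
    have h7 : (n : ℝ) * (B / 2 + K * ‖z - z'‖ / n) = n * (B / 2) + ‖z - z'‖ * K := by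
      field_simp
    refine le_of_mul_le_mul_left ?_ hnpos
    rw [h7]
    linarith)
  rw [p_F4_sub]
  refine (p_F4_Vop P Q w s₀ _ hP hQ fun t _ _ => hsup t).trans ?_
  rw [div_mul_eq_mul_div, mul_div_assoc', mul_div_assoc', div_le_div_iff_of_pos_right hnpos]
  have := norm_nonneg (z - z')
  have := mul_nonneg hK.le this
  nlinarith

private theorem I8_deg (P Q : ℂ[X]) (w : ℂ) (hw : w ≠ 0) (h : ∀ j, Q.coeff j = w ^ j * P.coeff j) :
    Q.natDegree = P.natDegree := by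
  have hs : Q.support = P.support := by
    ext j
    rw [mem_support_iff, mem_support_iff, h j, mul_ne_zero_iff]
    exact ⟨fun h => h.2, fun h => ⟨pow_ne_zero j hw, h⟩⟩
  refine natDegree_eq_of_degree_eq ?_
  unfold degree
  rw [hs]

private theorem I8_vop (P Q : ℂ[X]) (w : ℂ) (hw : w ≠ 0) (h : ∀ j, Q.coeff j = w ^ j * P.coeff j)
    (x : ℤ → ℂ) (s : ℤ) : Vop Q P (fun t => w ^ t * x t) s = w ^ s * Vop P Q x s := by
  have hd := I8_deg P Q w hw h
  unfold Vop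
  rw [hd, mul_add, Finset.mul_sum, Finset.mul_sum]
  congr 1
  · refine Finset.sum_congr rfl fun j _ => ?_
    beta_reduce
    rw [h j, zpow_sub₀ hw, zpow_natCast]
    field_simp
  · refine Finset.sum_congr rfl fun j _ => ?_
    beta_reduce
    rw [h j, zpow_add₀ hw, zpow_natCast]
    ring

private theorem I8_sol (hF1 : S_F1) (P Q : ℂ[X]) (w : ℂ) (hw : ‖w‖ = 1) (h : ∀ j, Q.coeff j = w ^ j * P.coeff j) (Z : ℝ) :
    ∃ n₀ : ℕ, ∀ n : ℕ, n₀ ≤ n → ∀ z : ℂ, ‖z‖ ≤ Z → beta Q P n z = w ^ n * beta P Q n z := by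
  have hw0 : w ≠ 0 := by
    intro h0
    rw [h0, norm_zero] at hw
    exact zero_ne_one hw
  obtain ⟨n₁, K₁, hK₁, H₁⟩ := hF1 P Q Z
  obtain ⟨n₂, K₂, hK₂, H₂⟩ := hF1 Q P Z
  refine ⟨max n₁ n₂, fun n hn z hz => ?_⟩
  have S1 := (H₁ n ((le_max_left _ _).trans hn) z hz).1
  obtain ⟨S2, -, huniq⟩ := H₂ n ((le_max_right _ _).trans hn) z hz
  obtain ⟨B1, hB1⟩ := S1.bdd
  obtain ⟨B2, hB2⟩ := S2.bdd
  have hy : Sol Q P n z 0 0 0 (fun s => w ^ s * C0 P Q n z s - C0 Q P n z s) := by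
    refine ⟨⟨B1 + B2, fun s => ?_⟩, ?_, ?_, ?_⟩
    · refine (norm_sub_le _ _).trans (add_le_add ?_ (hB2 s))
      rw [norm_mul, norm_zpow, hw, one_zpow, one_mul]
      exact hB1 s
    · rw [S1.zero, S2.zero, zpow_zero, one_mul, sub_self]
    · rw [S1.top, S2.top, mul_zero, sub_self]
    · intro s hs0 hsn
      have e1 := S1.eqn s hs0 hsn
      have e2 := S2.eqn s hs0 hsn
      have e3 := I8_vop P Q w hw0 h (C0 P Q n z) s
      have e4 := p_F4_sub Q P (fun t => w ^ t * C0 P Q n z t) (C0 Q P n z) s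
      rw [← e4, e3]
      simp only [Pi.zero_apply, add_zero] at e1 e2 ⊢
      linear_combination w ^ s * e1 - e2
  have h0 := huniq _ hy
  have h1 : C0 Q P n z = fun s => w ^ s * C0 P Q n z s := by
    funext s
    have := congrFun h0 s
    simp only [Pi.zero_apply] at this
    exact (sub_eq_zero.1 this).symm
  unfold beta
  rw [h1, I8_vop P Q w hw0 h, zpow_natCast]

theorem p_I8 (hF1 : S_F1) (hF4 : S_F4) (hF5 : S_F5) : S_I8 := by
  intro P Q w hP hQ hw h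
  have hw0 : w ≠ 0 := by
    intro h0
    rw [h0, norm_zero] at hw
    exact zero_ne_one hw
  obtain ⟨n₁, K₁, hK₁, H₁⟩ := I8_lip hF1 P Q 1 hP hQ
  obtain ⟨n₂, H₂⟩ := I8_sol hF1 P Q w hw h 1
  obtain ⟨n₃, K₃, hK₃, H₃⟩ := hF4 P Q 1 hP hQ
  obtain ⟨n₄, K₄, hK₄, H₄⟩ := hF5 P Q 1
  obtain ⟨N, hN⟩ := exists_nat_ge (2 * K₁ + 2 * K₃)
  refine ⟨n₁ + n₂ + n₃ + n₄ + N + 1, 2 * K₄ + 2, by positivity, fun k hk hk1 => ?_⟩
  have hkR : (0 : ℝ) < k := by exact_mod_cast hk1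
  have hNk : (N : ℝ) ≤ k := by exact_mod_cast (by omega : N ≤ k)
  have hKk : 2 * K₁ + 2 * K₃ ≤ k := hN.trans hNk
  have h2k : ((2 * k : ℕ) : ℝ) = 2 * k := by push_cast; ring
  have hK1n : K₁ / ((2 * k : ℕ) : ℝ) ≤ 1 / 4 := by
    rw [h2k, div_le_iff₀ (by positivity)]
    linarith
  have hK3n : K₃ / ((2 * k : ℕ) : ℝ) ≤ 1 / 4 := by
    rw [h2k, div_le_iff₀ (by positivity)]
    linarith
  -- fixed points
  have fixpt : ∀ ε : ℂ, ‖ε‖ = 1 → ∃ z : ℂ, ‖z‖ ≤ 1 ∧
      alpha P Q (2 * k) z + ε * beta P Q (2 * k) z = z := by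
    intro ε hε
    refine p_F6_fix (fun z => alpha P Q (2 * k) z + ε * beta P Q (2 * k) z) ?_ ?_
    · intro z hz
      obtain ⟨ha, hb, -⟩ := H₃ (2 * k) (by omega) z z hz hz
      refine (norm_add_le _ _).trans ?_
      rw [norm_mul, hε, one_mul]
      linarith
    · intro z z' hz hz'
      have l1 := H₁ (2 * k) (by omega) z z' hz hz' 0
      have l2 := H₁ (2 * k) (by omega) z z' hz hz' ((2 * k : ℕ) : ℤ)
      have e : alpha P Q (2 * k) z + ε * beta P Q (2 * k) z - (alpha P Q (2 * k) z' + ε * beta P Q (2 * k) z') =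
          (Vop P Q (C0 P Q (2 * k) z) 0 - Vop P Q (C0 P Q (2 * k) z') 0) +
          ε * (Vop P Q (C0 P Q (2 * k) z) ((2 * k : ℕ) : ℤ) - Vop P Q (C0 P Q (2 * k) z') ((2 * k : ℕ) : ℤ)) := by
        unfold alpha beta
        ring
      rw [e]
      refine (norm_add_le _ _).trans ?_
      rw [norm_mul, hε, one_mul]
      have := norm_nonneg (z - z')
      nlinarith
  have hwk : ‖w ^ k‖ = 1 := by rw [norm_pow, hw, one_pow]
  have hwk0 : w ^ k ≠ 0 := pow_ne_zero k hw0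
  have hwki : ‖(w ^ k)⁻¹‖ = 1 := by rw [norm_inv, hwk, inv_one]
  have hw2 : w ^ (2 * k) = w ^ k * w ^ k := by rw [← pow_add]; congr 1; ring
  obtain ⟨z, hz, hfz⟩ := fixpt (w ^ k) hwk
  obtain ⟨z', hz', hfz'⟩ := fixpt (-(w ^ k)) (by rw [norm_neg, hwk])
  have hβ := H₂ (2 * k) (by omega) z hz
  have hβ' := H₂ (2 * k) (by omega) z' hz'
  obtain ⟨f, hf, -, hfn⟩ := H₄ k (by omega) hk1 z 1 (w ^ k)⁻¹ hz
    (by
      rw [hβ, hw2]
      field_simp
      linear_combination -hfz)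
    (by
      have : z - alpha P Q (2 * k) z = w ^ k * beta P Q (2 * k) z := by linear_combination -hfz
      rw [this]
      field_simp)
  obtain ⟨g, hg, -, hgn⟩ := H₄ k (by omega) hk1 z' 1 (-(w ^ k)⁻¹) hz'
    (by
      have : z' - alpha P Q (2 * k) z' = -(w ^ k) * beta P Q (2 * k) z' := by linear_combination -hfz'
      rw [this, hβ', hw2]
      field_simp)
    (by
      have : z' - alpha P Q (2 * k) z' = -(w ^ k) * beta P Q (2 * k) z' := by linear_combination -hfz'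
      rw [this]
      field_simp)
  have hone : ‖(1 : ℂ)‖ = 1 := norm_one
  refine ⟨f, g, 4 * (k : ℂ) ^ 2 + z, 4 * (k : ℂ) ^ 2 + z', 1, (w ^ k)⁻¹, 1, -(w ^ k)⁻¹, hf, hg, ?_, ?_, ?_, ?_, ?_, ?_, ?_, ?_, ?_⟩
  · rw [add_sub_cancel_left]
    linarith
  · rw [add_sub_cancel_left]
    linarith
  · refine hfn.trans ?_
    rw [hone, hwki, div_mul_eq_mul_div, div_le_div_iff_of_pos_right hkR]
    linarith
  · refine hgn.trans ?_
    rw [hone, norm_neg, hwki, div_mul_eq_mul_div, div_le_div_iff_of_pos_right hkR]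
    linarith
  · rw [hone]; linarith
  · rw [hwki]; linarith
  · rw [hone]; linarith
  · rw [norm_neg, hwki]; linarith
  · have e : (1 : ℂ) * -(w ^ k)⁻¹ - 1 * (w ^ k)⁻¹ = -2 * (w ^ k)⁻¹ := by ring
    rw [e, norm_mul, hwki, mul_one, norm_neg, RCLike.norm_ofNat]
    rw [div_le_iff₀ (by positivity)]
    linarith

end HillRoots
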