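import Pool.Agent.Lib.MP_e63cf8_mp.H.StmI

/-!
# MP_e63cf8_mp, piece J1: Vandermonde and the sizes of the binomial coefficients
-/

open Polynomial Filter Topology MeasureTheory Asymptotics

namespace HillRoots

private theorem J1_qsucc (j : ℕ) : qj (j + 1) = qj j * (((j : ℝ) - 1 / 3) / ((j : ℝ) + 1)) := by
  unfold qj
  rw [Finset.prod_range_succ, Nat.factorial_succ]
  push_cast
  have h1 : ((j.factorial : ℕ) : ℝ) ≠ 0 := by exact_mod_cast j.factorial_ne_zero
  have h2 : (j : ℝ) + 1 ≠ 0 := by positivity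
  generalize ∏ i ∈ Finset.range j, ((i : ℝ) - 1 / 3) = t₁
  field_simp

private theorem J1_rsucc (j : ℕ) : rj (j + 1) = rj j * (((j : ℝ) - 2 / 3) / ((j : ℝ) + 1)) := by
  unfold rj
  rw [Finset.prod_range_succ, Nat.factorial_succ]
  push_cast
  have h1 : ((j.factorial : ℕ) : ℝ) ≠ 0 := by exact_mod_cast j.factorial_ne_zero
  have h2 : (j : ℝ) + 1 ≠ 0 := by positivity
  generalize ∏ i ∈ Finset.range j, ((i : ℝ) - 2 / 3) = t₁
  field_simp

private theorem J1_q0 : qj 0 = 1 := by simp [qj]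
private theorem J1_r0 : rj 0 = 1 := by simp [rj]

private theorem J1_q1 : qj 1 = -(1 / 3) := by
  have := J1_qsucc 0
  rw [J1_q0] at this
  rw [this]
  norm_num

private theorem J1_r1 : rj 1 = -(2 / 3) := by
  have := J1_rsucc 0
  rw [J1_r0] at this
  rw [this]
  norm_num

private theorem J1_vand (K : ℕ) :
    ∑ p ∈ Finset.HasAntidiagonal.antidiagonal K, qj p.1 * qj p.2 = rj K := by
  induction K with
  | zero => simp [J1_q0, J1_r0]
  | succ K ih =>
    have hK : ((K : ℝ) + 1) ≠ 0 := by positivity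
    have h1 : ((K : ℝ) + 1) * ∑ p ∈ Finset.HasAntidiagonal.antidiagonal (K + 1), qj p.1 * qj p.2 =
        2 * ∑ p ∈ Finset.HasAntidiagonal.antidiagonal (K + 1), (p.1 : ℝ) * (qj p.1 * qj p.2) := by
      have hsw : ∑ p ∈ Finset.HasAntidiagonal.antidiagonal (K + 1), (p.2 : ℝ) * (qj p.1 * qj p.2) =
          ∑ p ∈ Finset.HasAntidiagonal.antidiagonal (K + 1), (p.1 : ℝ) * (qj p.1 * qj p.2) := by
        rw [← Finset.Nat.sum_antidiagonal_swap]
        refine Finset.sum_congr rfl fun p _ => ?_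
        simp only [Prod.fst_swap, Prod.snd_swap]
        ring
      have h2 : ((K : ℝ) + 1) * ∑ p ∈ Finset.HasAntidiagonal.antidiagonal (K + 1), qj p.1 * qj p.2 =
          ∑ p ∈ Finset.HasAntidiagonal.antidiagonal (K + 1), ((p.1 : ℝ) * (qj p.1 * qj p.2) +
            (p.2 : ℝ) * (qj p.1 * qj p.2)) := by
        rw [Finset.mul_sum]
        refine Finset.sum_congr rfl fun p hp => ?_
        have h3 : (p.1 : ℝ) + p.2 = (K : ℝ) + 1 := by
          have := Finset.HasAntidiagonal.mem_antidiagonal.1 hp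
          exact_mod_cast this
        rw [← h3]
        ring
      rw [h2, Finset.sum_add_distrib, hsw]
      ring
    have h4 : ∑ p ∈ Finset.HasAntidiagonal.antidiagonal (K + 1), (p.1 : ℝ) * (qj p.1 * qj p.2) =
        ∑ p ∈ Finset.HasAntidiagonal.antidiagonal K, ((p.1 : ℝ) - 1 / 3) * (qj p.1 * qj p.2) := by
      rw [Finset.Nat.sum_antidiagonal_succ]
      simp only [Nat.cast_zero, zero_mul, zero_add]
      refine Finset.sum_congr rfl fun p _ => ?_
      have h5 : ((p.1 : ℝ) + 1) ≠ 0 := by positivity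
      rw [J1_qsucc]
      push_cast
      field_simp
    have h6 : 2 * ∑ p ∈ Finset.HasAntidiagonal.antidiagonal K, ((p.1 : ℝ) - 1 / 3) * (qj p.1 * qj p.2) =
        ((K : ℝ) - 2 / 3) * ∑ p ∈ Finset.HasAntidiagonal.antidiagonal K, qj p.1 * qj p.2 := by
      have hsw : ∑ p ∈ Finset.HasAntidiagonal.antidiagonal K, ((p.2 : ℝ) - 1 / 3) * (qj p.1 * qj p.2) =
          ∑ p ∈ Finset.HasAntidiagonal.antidiagonal K, ((p.1 : ℝ) - 1 / 3) * (qj p.1 * qj p.2) := by
        rw [← Finset.Nat.sum_antidiagonal_swap]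
        refine Finset.sum_congr rfl fun p _ => ?_
        simp only [Prod.fst_swap, Prod.snd_swap]
        ring
      have h7 : ((K : ℝ) - 2 / 3) * ∑ p ∈ Finset.HasAntidiagonal.antidiagonal K, qj p.1 * qj p.2 =
          ∑ p ∈ Finset.HasAntidiagonal.antidiagonal K, (((p.1 : ℝ) - 1 / 3) * (qj p.1 * qj p.2) +
            ((p.2 : ℝ) - 1 / 3) * (qj p.1 * qj p.2)) := by
        rw [Finset.mul_sum]
        refine Finset.sum_congr rfl fun p hp => ?_
        have h3 : (p.1 : ℝ) + p.2 = (K : ℝ) := by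
          have := Finset.HasAntidiagonal.mem_antidiagonal.1 hp
          exact_mod_cast this
        rw [← h3]
        ring
      rw [h7, Finset.sum_add_distrib, hsw]
      ring
    rw [h4, h6, ih] at h1
    have h8 : ∑ p ∈ Finset.HasAntidiagonal.antidiagonal (K + 1), qj p.1 * qj p.2 =
        ((K : ℝ) - 2 / 3) * rj K / ((K : ℝ) + 1) := by
      rw [eq_div_iff hK, ← h1]
      ring
    rw [h8, J1_rsucc]
    ring

/-- upper bound, `p = 4/3` or `5/3` -/
private theorem J1_upper (p : ℝ) (hp : 1 ≤ p) (hp2 : p ≤ 2) (f : ℕ → ℝ)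
    (h1 : |f 1| ≤ 1) (hs : ∀ j : ℕ, 1 ≤ j → |f (j + 1)| = |f j| * (1 - p / ((j : ℝ) + 1)))
    (j : ℕ) (hj : 1 ≤ j) : |f j| ≤ 4 * ((j : ℝ) + 1) ^ (-p) := by
  induction j, hj using Nat.le_induction with
  | base =>
    have e0 : (((1 : ℕ) : ℝ) + 1) = 2 := by norm_num
    have h3 : (2 : ℝ) ^ (-2 : ℝ) ≤ (2 : ℝ) ^ (-p) :=
      Real.rpow_le_rpow_of_exponent_le (by norm_num) (by linarith)
    have h4 : (2 : ℝ) ^ (-2 : ℝ) = 1 / 4 := by
      have : (-2 : ℝ) = ((-2 : ℤ) : ℝ) := by norm_num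
      rw [this, Real.rpow_intCast]
      norm_num
    rw [h4] at h3
    rw [e0]
    generalize (2 : ℝ) ^ (-p) = t at h3 ⊢
    linarith
  | succ j hj ih =>
    rw [hs j hj]
    have hj0 : (0 : ℝ) < (j : ℝ) + 1 := by positivity
    have hj2 : (0 : ℝ) < (j : ℝ) + 2 := by positivity
    have hj1 : (1 : ℝ) ≤ j := by exact_mod_cast hj
    have h5 : 0 ≤ 1 - p / ((j : ℝ) + 1) := by
      rw [sub_nonneg, div_le_one hj0]
      linarith
    have h6 : 1 - p / ((j : ℝ) + 1) ≤ (((j : ℝ) + 1) / ((j : ℝ) + 2)) ^ p := by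
      have hB := one_add_mul_self_le_rpow_one_add (s := -(1 / ((j : ℝ) + 2))) (by
        rw [neg_le_neg_iff, div_le_one hj2]
        linarith) hp
      have e1 : 1 + -(1 / ((j : ℝ) + 2)) = ((j : ℝ) + 1) / ((j : ℝ) + 2) := by
        field_simp
        ring
      rw [e1] at hB
      refine le_trans ?_ hB
      have h7 : p / ((j : ℝ) + 2) ≤ p / ((j : ℝ) + 1) :=
        div_le_div_of_nonneg_left (by linarith) hj0 (by linarith)
      have h8 : p * -(1 / ((j : ℝ) + 2)) = -(p / ((j : ℝ) + 2)) := by ring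
      rw [h8]
      linarith
    have h9 : (((j : ℝ) + 1) / ((j : ℝ) + 2)) ^ p =
        ((j : ℝ) + 2) ^ (-p) / ((j : ℝ) + 1) ^ (-p) := by
      rw [Real.div_rpow hj0.le hj2.le, Real.rpow_neg hj0.le, Real.rpow_neg hj2.le]
      have h10 : 0 < ((j : ℝ) + 1) ^ p := Real.rpow_pos_of_pos hj0 p
      have h11 : 0 < ((j : ℝ) + 2) ^ p := Real.rpow_pos_of_pos hj2 p
      field_simp
    have h12 : 0 < ((j : ℝ) + 1) ^ (-p) := Real.rpow_pos_of_pos hj0 _
    have h13 : 0 < ((j : ℝ) + 2) ^ (-p) := Real.rpow_pos_of_pos hj2 _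
    calc |f j| * (1 - p / ((j : ℝ) + 1))
        ≤ (4 * ((j : ℝ) + 1) ^ (-p)) * (((j : ℝ) + 2) ^ (-p) / ((j : ℝ) + 1) ^ (-p)) :=
          mul_le_mul ih (h6.trans h9.le) h5 (by positivity)
      _ = 4 * ((j : ℝ) + 2) ^ (-p) := by field_simp
      _ = 4 * (((j + 1 : ℕ) : ℝ) + 1) ^ (-p) := by
          push_cast
          ring_nf

private theorem J1_qabs (j : ℕ) (hj : 1 ≤ j) :
    |qj (j + 1)| = |qj j| * (1 - (4 / 3) / ((j : ℝ) + 1)) := by
  have hj0 : (0 : ℝ) < (j : ℝ) + 1 := by positivity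
  have hj1 : (1 : ℝ) ≤ j := by exact_mod_cast hj
  rw [J1_qsucc, abs_mul, abs_of_nonneg (div_nonneg (by linarith) hj0.le)]
  congr 1
  field_simp
  ring

private theorem J1_rabs (j : ℕ) (hj : 1 ≤ j) :
    |rj (j + 1)| = |rj j| * (1 - (5 / 3) / ((j : ℝ) + 1)) := by
  have hj0 : (0 : ℝ) < (j : ℝ) + 1 := by positivity
  have hj1 : (1 : ℝ) ≤ j := by exact_mod_cast hj
  rw [J1_rsucc, abs_mul, abs_of_nonneg (div_nonneg (by linarith) hj0.le)]
  congr 1
  field_simp
  ring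

private theorem J1_qle (j : ℕ) : |qj j| ≤ 4 * ((j : ℝ) + 1) ^ (-(4 / 3) : ℝ) := by
  rcases Nat.eq_zero_or_pos j with h | h
  · subst h
    rw [J1_q0]
    simp
  · exact J1_upper (4 / 3) (by norm_num) (by norm_num) qj
      (by rw [J1_q1]; norm_num [abs_of_pos]) J1_qabs j h

private theorem J1_rle (j : ℕ) : |rj j| ≤ 4 * ((j : ℝ) + 1) ^ (-(5 / 3) : ℝ) := by
  rcases Nat.eq_zero_or_pos j with h | h
  · subst h
    rw [J1_r0]
    simp
  · exact J1_upper (5 / 3) (by norm_num) (by norm_num) rj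
      (by rw [J1_r1]; norm_num [abs_of_pos]) J1_rabs j h

private theorem J1_rlow (j : ℕ) (hj : 1 ≤ j) :
    ((j : ℝ) - 2 / 3) ^ (-(5 / 3) : ℝ) ≤ 14 * |rj j| := by
  induction j, hj using Nat.le_induction with
  | base =>
    rw [J1_r1]
    have h1 : (((1 : ℕ) : ℝ) - 2 / 3) ^ (-(5 / 3) : ℝ) = (3 : ℝ) ^ (5 / 3 : ℝ) := by
      have : (((1 : ℕ) : ℝ) - 2 / 3) = (3 : ℝ)⁻¹ := by norm_num
      rw [this, Real.inv_rpow (by norm_num), Real.rpow_neg (by norm_num), inv_inv]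
    have h2 : (3 : ℝ) ^ (5 / 3 : ℝ) ≤ (3 : ℝ) ^ (2 : ℝ) :=
      Real.rpow_le_rpow_of_exponent_le (by norm_num) (by norm_num)
    have h3 : (3 : ℝ) ^ (2 : ℝ) = 9 := by
      have : (2 : ℝ) = ((2 : ℕ) : ℝ) := by norm_num
      rw [this, Real.rpow_natCast]
      norm_num
    have h4 : |(-(2 / 3) : ℝ)| = 2 / 3 := by
      rw [abs_neg, abs_of_pos (by norm_num)]
    rw [h1, h4]
    linarith
  | succ j hj ih =>
    have hj1 : (1 : ℝ) ≤ j := by exact_mod_cast hj
    have ha : (0 : ℝ) < (j : ℝ) - 2 / 3 := by linarith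
    have hb : (0 : ℝ) < (j : ℝ) + 1 / 3 := by linarith
    have hc : (0 : ℝ) < (j : ℝ) + 1 := by linarith
    have e0 : (((j + 1 : ℕ) : ℝ) - 2 / 3) = (j : ℝ) + 1 / 3 := by
      push_cast
      ring
    rw [e0, J1_rabs j hj]
    have hρ : 1 - (5 / 3) / ((j : ℝ) + 1) = ((j : ℝ) - 2 / 3) / ((j : ℝ) + 1) := by
      field_simp
      ring
    rw [hρ]
    -- Bernoulli
    have hB := one_add_mul_self_le_rpow_one_add (s := 1 / ((j : ℝ) - 2 / 3)) (by
      have : 0 < 1 / ((j : ℝ) - 2 / 3) := by positivity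
      linarith) (p := 5 / 3) (by norm_num)
    have e1 : 1 + 1 / ((j : ℝ) - 2 / 3) = ((j : ℝ) + 1 / 3) / ((j : ℝ) - 2 / 3) := by
      rw [eq_div_iff ha.ne', add_mul, one_div, inv_mul_cancel₀ ha.ne']
      ring
    have e2 : 1 + 5 / 3 * (1 / ((j : ℝ) - 2 / 3)) = ((j : ℝ) + 1) / ((j : ℝ) - 2 / 3) := by
      rw [eq_div_iff ha.ne', add_mul, one_div, mul_assoc, inv_mul_cancel₀ ha.ne']
      ring
    rw [e1, e2, Real.div_rpow hb.le ha.le] at hB
    have hA : 0 < ((j : ℝ) - 2 / 3) ^ (5 / 3 : ℝ) := Real.rpow_pos_of_pos ha _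
    have hBp : 0 < ((j : ℝ) + 1 / 3) ^ (5 / 3 : ℝ) := Real.rpow_pos_of_pos hb _
    rw [Real.rpow_neg ha.le] at ih
    rw [Real.rpow_neg hb.le]
    rw [div_le_div_iff₀ ha hA] at hB
    have h5 : (((j : ℝ) + 1 / 3) ^ (5 / 3 : ℝ))⁻¹ ≤
        (((j : ℝ) - 2 / 3) ^ (5 / 3 : ℝ))⁻¹ * (((j : ℝ) - 2 / 3) / ((j : ℝ) + 1)) := by
      rw [inv_eq_one_div, inv_mul_eq_div, div_div, div_le_div_iff₀ hBp (by positivity)]
      linarith
    calc (((j : ℝ) + 1 / 3) ^ (5 / 3 : ℝ))⁻¹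
        ≤ (((j : ℝ) - 2 / 3) ^ (5 / 3 : ℝ))⁻¹ * (((j : ℝ) - 2 / 3) / ((j : ℝ) + 1)) := h5
      _ ≤ (14 * |rj j|) * (((j : ℝ) - 2 / 3) / ((j : ℝ) + 1)) :=
          mul_le_mul_of_nonneg_right ih (by positivity)
      _ = 14 * (|rj j| * (((j : ℝ) - 2 / 3) / ((j : ℝ) + 1))) := by ring

private theorem J1_rlow' (j : ℕ) : ((j : ℝ) + 1) ^ (-(5 / 3) : ℝ) ≤ 14 * |rj j| := by
  rcases Nat.eq_zero_or_pos j with h | h
  · subst h
    rw [J1_r0]
    simp
  · have hj1 : (1 : ℝ) ≤ j := by exact_mod_cast h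
    refine le_trans ?_ (J1_rlow j h)
    exact Real.rpow_le_rpow_of_nonpos (by linarith) (by linarith) (by norm_num)

private theorem J1_qneg (j : ℕ) (hj : 1 ≤ j) : qj j ≤ 0 := by
  induction j, hj using Nat.le_induction with
  | base => rw [J1_q1]; norm_num
  | succ j hj ih =>
    have hj1 : (1 : ℝ) ≤ j := by exact_mod_cast hj
    rw [J1_qsucc]
    exact mul_nonpos_of_nonpos_of_nonneg ih (div_nonneg (by linarith) (by linarith))

theorem p_J1 : S_J1 := by
  have hV : ∀ K : ℕ, ∑ j ∈ Finset.range (K + 1), qj j * qj (K - j) = rj K := by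
    intro K
    rw [← J1_vand K, Finset.Nat.sum_antidiagonal_eq_sum_range_succ (fun a b => qj a * qj b)]
  refine ⟨hV, 20, by norm_num, ?_, ?_, ?_⟩
  · intro j
    have h1 : 0 < ((j : ℝ) + 1) ^ (-(4 / 3) : ℝ) := Real.rpow_pos_of_pos (by positivity) _
    linarith [J1_qle j]
  · intro K
    have h1 : 0 < ((K : ℝ) + 1) ^ (-(5 / 3) : ℝ) := Real.rpow_pos_of_pos (by positivity) _
    constructor
    · have := J1_rlow' K
      have h2 := abs_nonneg (rj K)
      linarith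
    · linarith [J1_rle K]
  · intro K
    have hterm : ∀ j ∈ Finset.range (K + 1), |qj j| * |qj (K - j)| ≤
        qj j * qj (K - j) + (if j = 0 then 2 * |qj K| else 0) +
          (if j = K then 2 * |qj K| else 0) := by
      intro j hj
      have hjK : j ≤ K := by
        have := Finset.mem_range.1 hj
        omega
      have hK0 := abs_nonneg (qj K)
      have hKn := neg_abs_le (qj K)
      by_cases h0 : j = 0
      · subst h0
        rw [if_pos rfl, Nat.sub_zero, J1_q0, abs_one, one_mul, one_mul]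
        split_ifs <;> linarith
      · by_cases h1 : j = K
        · subst h1
          rw [if_neg h0, if_pos rfl, Nat.sub_self, J1_q0, abs_one, mul_one, mul_one]
          linarith
        · rw [if_neg h0, if_neg h1, add_zero, add_zero, ← abs_mul]
          apply le_of_eq
          exact abs_of_nonneg (mul_nonneg_of_nonpos_of_nonpos (J1_qneg j (by omega))
            (J1_qneg (K - j) (by omega)))
    refine (Finset.sum_le_sum hterm).trans ?_
    rw [Finset.sum_add_distrib, Finset.sum_add_distrib, hV, Finset.sum_ite_eq',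
      Finset.sum_ite_eq']
    simp only [Finset.mem_range, Nat.succ_pos', Nat.lt_succ_self, if_true]
    have h2 : rj K ≤ 4 * ((K : ℝ) + 1) ^ (-(5 / 3) : ℝ) := (le_abs_self _).trans (J1_rle K)
    have h3 : ((K : ℝ) + 1) ^ (-(5 / 3) : ℝ) ≤ ((K : ℝ) + 1) ^ (-(4 / 3) : ℝ) :=
      Real.rpow_le_rpow_of_exponent_le (by
        have : (0 : ℝ) ≤ K := Nat.cast_nonneg K
        linarith) (by norm_num)
    have h4 := J1_qle K
    linarith

end HillRoots
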