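import Pool.Agent.Lib.MP_e63cf8_mp.H.StmI

/-! Piece J2: the products for a cubic monomial -/

open Polynomial Filter Topology MeasureTheory Asymptotics

namespace HillRoots

private lemma p_J2_cast (K : ℕ) (hK : 2 ≤ K) : ((3 * K - 1 : ℕ) : ℝ) = 3 * (K : ℝ) - 1 := by
  rw [Nat.cast_sub (by omega)]
  push_cast
  ring

private lemma p_J2_E0 (K l : ℕ) (hK : 2 ≤ K) :
    En (3 * K - 1) (3 * (l : ℤ)) = 36 * (l : ℝ) * ((K : ℝ) - 1 / 3 - l) := by
  unfold En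
  rw [p_J2_cast K hK]
  push_cast
  ring

private lemma p_J2_E1 (K l : ℕ) (hK : 2 ≤ K) :
    En (3 * K - 1) (3 * (l : ℤ) - 1) = 36 * ((l : ℝ) - 1 / 3) * ((K : ℝ) - l) := by
  unfold En
  rw [p_J2_cast K hK]
  push_cast
  ring

private lemma p_J2_ne (j : ℕ) : (j : ℝ) - 1 / 3 ≠ 0 := by
  intro h
  have h3 : (3 * (j : ℝ)) = 1 := by linarith
  have h4 : 3 * j = 1 := by exact_mod_cast h3
  omega

private lemma p_J2_P (K : ℕ) (hK : 1 ≤ K) : ∏ i ∈ Finset.range K, ((i : ℝ) - 1 / 3) =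
    -(1 / 3) * (Real.Gamma ((K : ℝ) - 1 / 3) / Real.Gamma (2 / 3)) := by
  have hg : Real.Gamma (2 / 3) ≠ 0 := (Real.Gamma_pos_of_pos (by norm_num)).ne'
  induction K, hK using Nat.le_induction with
  | base =>
    rw [Finset.prod_range_one]
    have h : (((1 : ℕ) : ℝ) - 1 / 3) = 2 / 3 := by norm_num
    rw [h, div_self hg]
    norm_num
  | succ K hK ih =>
    rw [Finset.prod_range_succ, ih]
    have h : (((K + 1 : ℕ) : ℝ) - 1 / 3) = ((K : ℝ) - 1 / 3) + 1 := by push_cast; ring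
    rw [h, Real.Gamma_add_one (p_J2_ne K)]
    ring

private lemma p_J2_Pne (K : ℕ) : ∏ i ∈ Finset.range K, ((i : ℝ) - 1 / 3) ≠ 0 :=
  Finset.prod_ne_zero_iff.2 fun i _ => p_J2_ne i

private lemma p_J2_q (j : ℕ) : qj (j + 1) = qj j * (((j : ℝ) - 1 / 3) / ((j : ℝ) + 1)) := by
  unfold qj
  rw [Finset.prod_range_succ, Nat.factorial_succ]
  push_cast
  rw [mul_comm ((j : ℝ) + 1)]
  exact mul_div_mul_comm _ _ _ _

private lemma p_J2_q0 : qj 0 = 1 := by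
  unfold qj
  simp

/-- the identity of (b) over the complex numbers, with the explicit factors -/
private lemma p_J2_b0 (b : ℂ) (K : ℕ) (hK : 2 ≤ K) :
    PiJ b K 0 = DJ b K * ((qj 0 * qj K : ℝ) : ℂ) := by
  have hP : ((∏ i ∈ Finset.range K, ((i : ℝ) - 1 / 3) : ℝ) : ℂ) ≠ 0 := by
    exact_mod_cast p_J2_Pne K
  have hF : ((K.factorial : ℝ) : ℂ) ≠ 0 := by
    exact_mod_cast K.factorial_ne_zero
  have h1 : PiJ b K 0 = ∏ i ∈ Finset.range K,
      (b / 36) / ((((i : ℝ) - 1 / 3 : ℝ) : ℂ) * (((K : ℝ) - i : ℝ) : ℂ)) := by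
    unfold PiJ
    rw [← Finset.range_eq_Ico]
    refine Finset.prod_congr rfl fun i _ => ?_
    rw [p_J2_E1 K i hK]
    push_cast
    rw [div_div]
    congr 1
    ring
  have h2 : ∏ i ∈ Finset.range K, (((K : ℝ) - i : ℝ) : ℂ) = ((K.factorial : ℝ) : ℂ) := by
    rw [← Finset.prod_range_reflect]
    rw [← Finset.prod_range_add_one_eq_factorial]
    push_cast
    refine Finset.prod_congr rfl fun i hi => ?_
    have hi' : i < K := Finset.mem_range.1 hi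
    have h3 : ((K - 1 - i : ℕ) : ℂ) = (K : ℂ) - 1 - i := by
      rw [Nat.cast_sub (by omega), Nat.cast_sub (by omega)]
      simp
    rw [h3]
    ring
  rw [h1, Finset.prod_div_distrib, Finset.prod_const, Finset.card_range, Finset.prod_mul_distrib, h2,
    ← Complex.ofReal_prod, p_J2_q0, one_mul]
  unfold DJ qj
  rw [Complex.ofReal_div]
  generalize ((∏ i ∈ Finset.range K, ((i : ℝ) - 1 / 3) : ℝ) : ℂ) = Q at hP ⊢
  generalize ((K.factorial : ℝ) : ℂ) = R at hF ⊢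
  field_simp

theorem p_J2 (hH1 : S_H1) : S_J2 := by
  intro b c hcb hb
  have hc : c ≠ 0 := by
    rintro rfl
    apply hb
    rw [← hcb]
    norm_num
  have hA : ∀ K l : ℕ, 2 ≤ K → l < K → hh 3 c (3 * K - 1) (3 * l) =
      ∏ i ∈ Finset.Icc 1 l, b / (En (3 * K - 1) (3 * (i : ℤ)) : ℂ) := by
    intro K l hK
    obtain ⟨h0, _, hrec⟩ := hH1 3 (3 * K - 1) c (by norm_num) hc (by omega)
    induction l with
    | zero =>
      intro _
      rw [Nat.mul_zero, h0]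
      simp
    | succ l ih =>
      intro hl
      have h1 := hrec (3 * (l + 1)) (by omega) (by omega)
      have h2 : 3 * (l + 1) - 3 = 3 * l := by omega
      rw [h2, hcb, ih (by omega)] at h1
      have hE : (En (3 * K - 1) ((3 * (l + 1) : ℕ) : ℤ) : ℂ) ≠ 0 := by
        have h3 : (((3 * (l + 1) : ℕ) : ℤ)) = 3 * ((l + 1 : ℕ) : ℤ) := by push_cast; ring
        rw [h3, p_J2_E0 K (l + 1) hK, Complex.ofReal_ne_zero]
        have h4 : ((l + 1 : ℕ) : ℝ) ≤ (K : ℝ) - 1 := by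
          have : (l + 1 + 1 : ℕ) ≤ K := by omega
          have h5 : ((l + 1 + 1 : ℕ) : ℝ) ≤ (K : ℝ) := by exact_mod_cast this
          push_cast at h5 ⊢
          linarith
        have h6 : (0 : ℝ) < ((l + 1 : ℕ) : ℝ) := by exact_mod_cast Nat.succ_pos l
        have h7 : (0 : ℝ) < (K : ℝ) - 1 / 3 - ((l + 1 : ℕ) : ℝ) := by linarith
        positivity
      rw [Finset.prod_Icc_succ_top (by omega)]
      have h3 : (((3 * (l + 1) : ℕ) : ℤ)) = 3 * ((l + 1 : ℕ) : ℤ) := by push_cast; ring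
      rw [← h3]
      rw [mul_div_assoc', eq_div_iff hE, mul_comm _ b, h1]
      ring
  have hB : ∀ K l : ℕ, 2 ≤ K → l < K → PiJ b K l * hh 3 c (3 * K - 1) (3 * l) =
      DJ b K * ((qj l * qj (K - l) : ℝ) : ℂ) := by
    intro K l hK hl
    rw [hA K l hK hl]
    induction l with
    | zero =>
      rw [Nat.sub_zero, ← p_J2_b0 b K hK]
      simp
    | succ l ih =>
      have hl' : l < K := by omega
      have ih' := ih hl'
      have hPi : PiJ b K l = b / (En (3 * K - 1) (3 * (l : ℤ) - 1) : ℂ) * PiJ b K (l + 1) := by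
        unfold PiJ
        rw [Finset.prod_eq_prod_Ico_succ_bot hl']
      rw [Finset.prod_Icc_succ_top (by omega)]
      rw [hPi, p_J2_E1 K l hK] at ih'
      rw [p_J2_E0 K (l + 1) hK, p_J2_q l]
      obtain ⟨m, rfl⟩ : ∃ m, K = l + 1 + m + 1 := ⟨K - l - 2, by omega⟩
      have e1 : l + 1 + m + 1 - l = (m + 1) + 1 := by omega
      have e2 : l + 1 + m + 1 - (l + 1) = m + 1 := by omega
      rw [e1, p_J2_q (m + 1)] at ih'
      rw [e2]
      have n1 : ((l : ℂ) - 1 / 3) ≠ 0 := by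
        have := p_J2_ne l
        have h : (((l : ℝ) - 1 / 3 : ℝ) : ℂ) ≠ 0 := by exact_mod_cast this
        push_cast at h
        exact h
      have n2 : ((m : ℂ) + 1 - 1 / 3) ≠ 0 := by
        have := p_J2_ne (m + 1)
        have h : ((((m + 1 : ℕ) : ℝ) - 1 / 3 : ℝ) : ℂ) ≠ 0 := by exact_mod_cast this
        push_cast at h
        exact h
      have n3 : ((m : ℂ) + 1 + 1) ≠ 0 := by exact_mod_cast Nat.succ_ne_zero (m + 1)
      have n4 : ((l : ℂ) + 1) ≠ 0 := by exact_mod_cast Nat.succ_ne_zero l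
      push_cast at ih' ⊢
      set X : ℂ := PiJ b (l + 1 + m + 1) (l + 1) with hX
      set Y : ℂ := ∏ i ∈ Finset.Icc 1 l, b / (En (3 * (l + 1 + m + 1) - 1) (3 * (i : ℤ)) : ℂ) with hY
      set D : ℂ := DJ b (l + 1 + m + 1) with hD
      have g1 : ((l : ℂ) + 1 + m + 1 - l) = (m : ℂ) + 1 + 1 := by ring
      have g2 : ((l : ℂ) + 1 + m + 1 - 1 / 3 - (l + 1)) = (m : ℂ) + 1 - 1 / 3 := by ring
      rw [g1] at ih'
      rw [g2]
      generalize (l : ℂ) - 1 / 3 = A1 at ih' n1 ⊢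
      generalize (m : ℂ) + 1 - 1 / 3 = A2 at ih' n2 ⊢
      generalize (m : ℂ) + 1 + 1 = A3 at ih' n3 ⊢
      generalize (l : ℂ) + 1 = A4 at n4 ⊢
      have key : X * Y * b = D * ((qj l : ℂ) * ((qj (m + 1) : ℂ) * (A2 / A3))) *
          (36 * A1 * A3) := by
        rw [← ih']
        field_simp
      have e : X * (Y * (b / (36 * A4 * A2))) =
          (X * Y * b) / (36 * A4 * A2) := by ring
      rw [e, key]
      field_simp
  refine ⟨hA, hB, ?_, ?_⟩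
  · intro K hK
    obtain ⟨m, rfl⟩ : ∃ m, K = m + 1 + 1 := ⟨K - 2, by omega⟩
    have h1 := hB (m + 1 + 1) (m + 1) hK (by omega)
    have e1 : m + 1 + 1 - (m + 1) = 0 + 1 := by omega
    have e2 : 3 * (m + 1 + 1) - 3 = 3 * (m + 1) := by omega
    have e3 : PiJ b (m + 1 + 1) (m + 1) = b / (En (3 * (m + 1 + 1) - 1) (3 * ((m + 1 : ℕ) : ℤ) - 1) : ℂ) := by
      unfold PiJ
      rw [Finset.prod_eq_prod_Ico_succ_bot (by omega)]
      simp
    rw [e1, e3, p_J2_E1 _ _ hK, p_J2_q 0, p_J2_q0] at h1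
    rw [e2, p_J2_E0 _ _ hK, p_J2_q (m + 1), p_J2_q0]
    have n2 : ((m : ℂ) + 1 - 1 / 3) ≠ 0 := by
      have := p_J2_ne (m + 1)
      have h : ((((m + 1 : ℕ) : ℝ) - 1 / 3 : ℝ) : ℂ) ≠ 0 := by exact_mod_cast this
      push_cast at h
      exact h
    have n3 : ((m : ℂ) + 1 + 1) ≠ 0 := by exact_mod_cast Nat.succ_ne_zero (m + 1)
    push_cast at h1 ⊢
    set H : ℂ := hh 3 c (3 * (m + 1 + 1) - 1) (3 * (m + 1)) with hH
    set D : ℂ := DJ b (m + 1 + 1) with hD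
    have g1 : ((m : ℂ) + 1 + 1 - (m + 1)) = 1 := by ring
    have g2 : ((m : ℂ) + 1 + 1 - 1 / 3 - (m + 1 + 1)) = -(1 / 3) := by ring
    rw [g1] at h1
    rw [g2]
    generalize (m : ℂ) + 1 - 1 / 3 = A2 at h1 n2 ⊢
    generalize (m : ℂ) + 1 + 1 = A3 at n3 ⊢
    have key : b * H = D * ((qj (m + 1) : ℂ) * (1 * ((0 - 1 / 3) / (0 + 1)))) *
        (36 * A2 * 1) := by
      rw [← h1]
      field_simp
    rw [key]
    field_simp
    ring
  · have hG : 0 < Real.Gamma (2 / 3) := Real.Gamma_pos_of_pos (by norm_num)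
    have hcn : 0 < ‖c‖ := norm_pos_iff.2 hc
    refine ⟨‖c‖ * 9 * Real.Gamma (2 / 3) ^ 2 * (36 : ℝ) ^ (-(4 / 3) : ℝ), by positivity, ?_⟩
    intro K hK
    have hK' : (2 : ℝ) ≤ K := by exact_mod_cast hK
    have hgK : 0 < Real.Gamma ((K : ℝ) - 1 / 3) := Real.Gamma_pos_of_pos (by linarith)
    have hn : ((3 * K - 1 : ℕ) : ℝ) = 3 * (K : ℝ) - 1 := p_J2_cast K hK
    have hs : ((3 * K - 1 - 3 : ℕ) : ℝ) = 3 * (K : ℝ) - 4 := by
      rw [Nat.cast_sub (by omega), hn]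
      push_cast
      ring
    have hhn : ‖hh 3 c (3 * K - 1) (3 * K - 1 - 3)‖ = ‖c‖ ^ (3 * K - 1 - 3) *
        ((36 : ℝ) ^ (-((K : ℝ) - 4 / 3)) / Real.Gamma ((K : ℝ) - 1 / 3) ^ 2) := by
      unfold hh
      rw [hn, hs, norm_mul, norm_pow, Complex.norm_real, Real.norm_eq_abs]
      have a1 : ((3 * (K : ℝ) - 1) - (3 * (K : ℝ) - 4)) / ((3 : ℕ) : ℝ) = 1 := by push_cast; ring
      have a2 : (3 * (K : ℝ) - 1) / ((3 : ℕ) : ℝ) = (K : ℝ) - 1 / 3 := by push_cast; ring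
      have a3 : 1 + (3 * (K : ℝ) - 4) / ((3 : ℕ) : ℝ) = (K : ℝ) - 1 / 3 := by push_cast; ring
      have a4 : -((3 * (K : ℝ) - 4) / ((3 : ℕ) : ℝ)) = -((K : ℝ) - 4 / 3) := by push_cast; ring
      have a5 : (4 * ((3 : ℕ) : ℝ) ^ 2) = 36 := by norm_num
      rw [a1, a2, a3, a4, a5, Real.Gamma_one, mul_one, abs_of_pos (by positivity)]
      congr 2
      ring
    have hD : ‖DJ b K‖ = (‖b‖ / 36) ^ K * (9 * Real.Gamma (2 / 3) ^ 2 / Real.Gamma ((K : ℝ) - 1 / 3) ^ 2) := by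
      unfold DJ
      rw [norm_div, norm_pow, norm_pow, norm_div, Complex.norm_real, p_J2_P K (by omega)]
      have a1 : ‖(36 : ℂ)‖ = 36 := by norm_num
      rw [a1, Real.norm_eq_abs, sq_abs]
      field_simp
      ring
    rw [hhn, hD]
    have hbc : ‖b‖ = ‖c‖ ^ 3 := by rw [← hcb, norm_pow]
    rw [hbc]
    have h36 : (36 : ℝ) ^ (-((K : ℝ) - 4 / 3)) = (1 / 36) ^ K * (36 : ℝ) ^ (4 / 3 : ℝ) := by
      rw [show -((K : ℝ) - 4 / 3) = -(K : ℝ) + 4 / 3 by ring, Real.rpow_add (by norm_num),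
        Real.rpow_neg (by norm_num), Real.rpow_natCast, one_div, inv_pow]
    have h36' : (36 : ℝ) ^ (-(4 / 3) : ℝ) * (36 : ℝ) ^ (4 / 3 : ℝ) = 1 := by
      rw [← Real.rpow_add (by norm_num)]
      norm_num
    obtain ⟨m, rfl⟩ : ∃ m, K = m + 2 := ⟨K - 2, by omega⟩
    have hexp : 3 * (m + 2) - 1 - 3 = 3 * m + 2 := by omega
    rw [h36, hexp]
    have hfin : ∀ u v w x : ℝ, u * v = 1 → ‖c‖ * 9 * w * u * (‖c‖ ^ 3 * (‖c‖ ^ (3 * m + 2) * ((1 / 36) ^ (m + 2) * v / x))) =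
        (u * v) * (‖c‖ * 9 * w * (‖c‖ ^ 3 * (‖c‖ ^ (3 * m + 2) * ((1 / 36) ^ (m + 2) / x)))) := by
      intro u v w x _
      ring
    rw [hfin _ _ _ _ h36', h36']
    ring

end HillRoots
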