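import Pool.Agent.Lib.MP_e63cf8_mp.H.StmI

/-!
# MP_e63cf8_mp, piece J3: the class `s ≡ n ≡ 2 mod 3`
-/

open Polynomial Filter Topology MeasureTheory Asymptotics

namespace HillRoots

namespace J3pf

lemma vop_eq (F B : ℂ[X]) (h : JHyp F B) (x : ℤ → ℂ) (s : ℤ) :
    Vop F B x s = F.leadingCoeff * x (s - 3) + B.coeff 1 * x (s + 1) + B.leadingCoeff * x (s + 3) := by
  obtain ⟨h1, h2, h3, h4, h5, h6, h7, h8⟩ := h
  unfold Vop
  rw [h3, h6, Polynomial.leadingCoeff, Polynomial.leadingCoeff, h3, h6]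
  simp only [Finset.sum_range_succ, Finset.sum_range_zero, h1, h2, h4, h5, h7]
  push_cast
  ring

lemma En_val (K : ℕ) (hK : 1 ≤ K) (i : ℕ) :
    En (3 * K - 1) (3 * (i : ℤ) - 1) = 12 * (3 * (i : ℝ) - 1) * ((K : ℝ) - i) := by
  unfold En
  have h : ((3 * K - 1 : ℕ) : ℝ) = 3 * K - 1 := by
    rw [Nat.cast_sub (show 1 ≤ 3 * K by omega)]
    push_cast
    ring
  rw [h]
  push_cast
  ring

lemma En_abs_zero (K : ℕ) (hK : 1 ≤ K) : |En (3 * K - 1) (3 * ((0 : ℕ) : ℤ) - 1)| = 12 * (K : ℝ) := by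
  rw [En_val K hK 0]
  have hK' : (0 : ℝ) ≤ K := Nat.cast_nonneg K
  have : (12 * (3 * ((0 : ℕ) : ℝ) - 1) * ((K : ℝ) - ((0 : ℕ) : ℝ))) = -(12 * (K : ℝ)) := by
    push_cast
    ring
  rw [this, abs_neg, abs_of_nonneg (by positivity)]

lemma En_abs_ge (K : ℕ) (hK : 1 ≤ K) (i : ℕ) (h1 : 1 ≤ i) (h2 : i < K) :
    24 * (i : ℝ) * ((K : ℝ) - i) ≤ |En (3 * K - 1) (3 * (i : ℤ) - 1)| := by
  rw [En_val K hK i]
  have hi : (1 : ℝ) ≤ i := by exact_mod_cast h1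
  have hi2 : (i : ℝ) + 1 ≤ K := by exact_mod_cast h2
  rw [abs_of_nonneg (mul_nonneg (mul_nonneg (by norm_num) (by linarith)) (by linarith))]
  have : (0 : ℝ) ≤ (K : ℝ) - i := by linarith
  nlinarith [mul_nonneg (sub_nonneg.2 hi) this]

lemma En_abs_one (K : ℕ) (hK : 1 ≤ K) (i : ℕ) (h2 : i < K) :
    1 ≤ |En (3 * K - 1) (3 * (i : ℤ) - 1)| := by
  rcases Nat.eq_zero_or_pos i with h | h
  · subst h
    rw [En_abs_zero K hK]
    have : (1 : ℝ) ≤ K := by exact_mod_cast hK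
    linarith
  · refine le_trans ?_ (En_abs_ge K hK i h h2)
    have hi : (1 : ℝ) ≤ i := by exact_mod_cast h
    have hi2 : (i : ℝ) + 1 ≤ K := by exact_mod_cast h2
    have h3 : (1 : ℝ) ≤ (K : ℝ) - i := by linarith
    nlinarith [mul_le_mul hi h3 (by norm_num) (by linarith)]

/-- `∑_{l<K} 1/|E_{3l-1}| ≤ log K / K` -/
lemma sum_E (K : ℕ) (hK : 3 ≤ K) :
    ∑ l ∈ Finset.range K, |En (3 * K - 1) (3 * (l : ℤ) - 1)|⁻¹ ≤ Real.log K / K := by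
  obtain ⟨m, rfl⟩ : ∃ m, K = m + 1 := ⟨K - 1, by omega⟩
  have hK0 : (0 : ℝ) < ((m + 1 : ℕ) : ℝ) := by positivity
  rw [Finset.sum_range_succ', En_abs_zero (m + 1) (by omega)]
  have h1 : ∀ i ∈ Finset.range m, |En (3 * (m + 1) - 1) (3 * ((i + 1 : ℕ) : ℤ) - 1)|⁻¹ ≤
      (24 * ((m + 1 : ℕ) : ℝ))⁻¹ * (((i : ℝ) + 1)⁻¹ + (((m - 1 - i : ℕ) : ℝ) + 1)⁻¹) := by
    intro i hi
    have him : i < m := Finset.mem_range.1 hi
    have h2 := En_abs_ge (m + 1) (by omega) (i + 1) (by omega) (by omega)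
    have h3 : ((m - 1 - i : ℕ) : ℝ) + 1 = (m : ℝ) - i := by
      rw [Nat.cast_sub (by omega), Nat.cast_sub (by omega)]
      push_cast
      ring
    have h4 : (0 : ℝ) < (m : ℝ) - i := by
      have : (i : ℝ) < m := by exact_mod_cast him
      linarith
    have h5 : (0 : ℝ) < (i : ℝ) + 1 := by positivity
    have h6 : 24 * (((i + 1 : ℕ) : ℝ)) * (((m + 1 : ℕ) : ℝ) - ((i + 1 : ℕ) : ℝ)) =
        24 * ((i : ℝ) + 1) * ((m : ℝ) - i) := by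
      push_cast
      ring
    rw [h6] at h2
    have h7 : (0 : ℝ) < 24 * ((i : ℝ) + 1) * ((m : ℝ) - i) := by positivity
    refine (inv_anti₀ h7 h2).trans (le_of_eq ?_)
    rw [h3]
    have h8 : (0 : ℝ) < (m : ℝ) + 1 := by positivity
    push_cast
    field_simp
    ring
  refine (add_le_add (Finset.sum_le_sum h1) le_rfl).trans ?_
  rw [← Finset.mul_sum, Finset.sum_add_distrib,
    Finset.sum_range_reflect (fun j : ℕ => ((j : ℝ) + 1)⁻¹) m]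
  have h9 : ∑ j ∈ Finset.range m, ((j : ℝ) + 1)⁻¹ ≤ 1 + Real.log ((m + 1 : ℕ) : ℝ) := by
    have h := harmonic_le_one_add_log m
    have h' : ((harmonic m : ℚ) : ℝ) = ∑ j ∈ Finset.range m, ((j : ℝ) + 1)⁻¹ := by
      simp [harmonic]
    rw [h'] at h
    refine h.trans ?_
    have hm : (0 : ℝ) < m := by
      have : 0 < m := by omega
      exact_mod_cast this
    have : Real.log m ≤ Real.log ((m + 1 : ℕ) : ℝ) :=
      Real.log_le_log hm (by push_cast; linarith)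
    linarith
  have hlog : 1 ≤ Real.log ((m + 1 : ℕ) : ℝ) := by
    rw [Real.le_log_iff_exp_le hK0]
    have := Real.exp_one_lt_d9
    have h3 : (3 : ℝ) ≤ ((m + 1 : ℕ) : ℝ) := by exact_mod_cast hK
    linarith
  have h10 : (24 * ((m + 1 : ℕ) : ℝ))⁻¹ * (∑ j ∈ Finset.range m, ((j : ℝ) + 1)⁻¹ + ∑ j ∈ Finset.range m, ((j : ℝ) + 1)⁻¹) +
      (12 * ((m + 1 : ℕ) : ℝ))⁻¹ =
      ((∑ j ∈ Finset.range m, ((j : ℝ) + 1)⁻¹ + 1) / 12) / ((m + 1 : ℕ) : ℝ) := by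
    field_simp
    ring
  rw [h10]
  refine div_le_div_of_nonneg_right ?_ hK0.le
  linarith

lemma PiJ_succ (b : ℂ) (K l : ℕ) (h : l < K) :
    PiJ b K l = b / (En (3 * K - 1) (3 * (l : ℤ) - 1) : ℂ) * PiJ b K (l + 1) := by
  unfold PiJ
  rw [Finset.prod_eq_prod_Ico_succ_bot h]

end J3pf

open J3pf in
theorem p_J3 (hJ1 : S_J1) (hJ2 : S_J2) : S_J3 := by
  intro F B c Z hFB hc
  obtain ⟨-, CJ, hCJ, hq, -, hsumq⟩ := hJ1
  have hb : F.leadingCoeff ≠ 0 := by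
    have h3 := hFB.2.2.1
    intro h0
    rw [Polynomial.leadingCoeff_eq_zero] at h0
    rw [h0] at h3
    simp at h3
  obtain ⟨ha, hbb, -, -⟩ := hJ2 F.leadingCoeff c hc hb
  set b := F.leadingCoeff with hbdef
  set a1 := B.coeff 1 with ha1
  set a3 := B.leadingCoeff with ha3
  have hbpos : 0 < ‖b‖ := norm_pos_iff.2 hb
  set C1 : ℝ := CJ * (1 + ‖a1‖ / ‖b‖) with hC1
  have hC1pos : 0 < C1 := by positivity
  refine ⟨2 * C1 + 2, by positivity, ?_⟩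
  have hlim : Tendsto (fun K : ℕ => Real.log K / K * (‖a3‖ * ‖b‖ + |Z|)) atTop (𝓝 0) := by
    have h := (Real.isLittleO_log_id_atTop.tendsto_div_nhds_zero).comp tendsto_natCast_atTop_atTop
    have h2 := h.mul_const (‖a3‖ * ‖b‖ + |Z|)
    simpa using h2
  filter_upwards [eventually_ge_atTop 3, hlim.eventually (gt_mem_nhds (show (0 : ℝ) < 1 / 2 by norm_num))]
    with K hK hK2
  intro z γ T Φ φ x hz hT hΦ hsol hx3 hx4 hφ
  have hK1 : 1 ≤ K := by omega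
  have hKpos : (0 : ℝ) < K := by exact_mod_cast (show 0 < K by omega)
  -- the equation
  have hEq : ∀ l : ℕ, l < K → (En (3 * K - 1) (3 * (l : ℤ) - 1) : ℂ) * x (3 * (l : ℤ) - 1) =
      b * x (3 * (l : ℤ) - 1 - 3) + (a1 * x (3 * (l : ℤ)) + a3 * x (3 * ((l + 1 : ℕ) : ℤ) - 1)
        - z * x (3 * (l : ℤ) - 1) + φ (3 * (l : ℤ) - 1)) := by
    intro l hl
    have h := hsol.eqn (3 * (l : ℤ) - 1) (by omega) (by
      intro h
      have : ((3 * K - 1 : ℕ) : ℤ) = 3 * (K : ℤ) - 1 := by omega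
      rw [this] at h
      omega)
    rw [vop_eq F B hFB] at h
    have e1 : (3 * (l : ℤ) - 1 + 1) = 3 * (l : ℤ) := by ring
    have e2 : (3 * (l : ℤ) - 1 + 3) = 3 * ((l + 1 : ℕ) : ℤ) - 1 := by push_cast; ring
    rw [e1, e2] at h
    linear_combination h
  have hE0 : ∀ l : ℕ, l < K → (En (3 * K - 1) (3 * (l : ℤ) - 1) : ℂ) ≠ 0 := by
    intro l hl h
    have h1 := En_abs_one K hK1 l hl
    have h2 : En (3 * K - 1) (3 * (l : ℤ) - 1) = 0 := by exact_mod_cast h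
    rw [h2] at h1
    norm_num at h1
  set ψ : ℕ → ℂ := fun l => a1 * x (3 * (l : ℤ)) + a3 * x (3 * ((l + 1 : ℕ) : ℤ) - 1)
        - z * x (3 * (l : ℤ) - 1) + φ (3 * (l : ℤ) - 1) with hψ
  have hstep : ∀ l : ℕ, l < K → b * x (3 * (l : ℤ) - 1) * PiJ b K (l + 1) =
      b * x (3 * (l : ℤ) - 1 - 3) * PiJ b K l + PiJ b K l * ψ l := by
    intro l hl
    have h := hEq l hl
    have h0 := hE0 l hl
    rw [PiJ_succ b K l hl]
    have h1 : b / (En (3 * K - 1) (3 * (l : ℤ) - 1) : ℂ) * ((En (3 * K - 1) (3 * (l : ℤ) - 1) : ℂ) * x (3 * (l : ℤ) - 1)) =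
        b * x (3 * (l : ℤ) - 1) := by
      field_simp
    rw [← h1, h]
    simp only [hψ]
    ring
  have htel : ∀ l : ℕ, l < K → b * x (3 * (l : ℤ) - 1) * PiJ b K (l + 1) =
      b * x (-4) * PiJ b K 0 + ∑ i ∈ Finset.range (l + 1), PiJ b K i * ψ i := by
    intro l
    induction l with
    | zero =>
      intro h0
      have h := hstep 0 h0
      rw [h]
      simp
    | succ l ih =>
      intro hl
      have h := hstep (l + 1) hl
      rw [h, Finset.sum_range_succ, ← add_assoc, ← ih (by omega)]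
      have e : 3 * ((l + 1 : ℕ) : ℤ) - 1 - 3 = 3 * (l : ℤ) - 1 := by push_cast; ring
      rw [e]
  set v : ℕ → ℝ := fun l => ‖x (3 * (l : ℤ) - 1)‖ * ‖PiJ b K (l + 1)‖ with hv
  obtain ⟨l₀, hl₀, hmax⟩ := Finset.exists_max_image (Finset.range K) v ⟨0, Finset.mem_range.2 (by omega)⟩
  have hl₀' : l₀ < K := Finset.mem_range.1 hl₀
  have hmax' : ∀ l, l < K → v l ≤ v l₀ := fun l hl => hmax l (Finset.mem_range.2 hl)
  have hv0 : 0 ≤ v l₀ := by positivity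
  set e : ℕ → ℝ := fun l => |En (3 * K - 1) (3 * (l : ℤ) - 1)|⁻¹ with he
  have he0 : ∀ l, 0 ≤ e l := fun l => by positivity
  have hPi : ∀ l, l < K → ‖PiJ b K l‖ = ‖b‖ * e l * ‖PiJ b K (l + 1)‖ := by
    intro l hl
    rw [PiJ_succ b K l hl, norm_mul, norm_div, Complex.norm_real, Real.norm_eq_abs]
    simp only [he]
    ring
  -- the bound of one term
  have hterm : ∀ l, l < K → ‖PiJ b K l * ψ l‖ ≤ ‖a1‖ * T * ‖PiJ b K l * hh 3 c (3 * K - 1) (3 * l)‖ +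
      e l * ((‖a3‖ * ‖b‖ + |Z|) * (‖b‖ * v l₀) + ‖b‖ * Φ) := by
    intro l hl
    have h1 : ‖PiJ b K l‖ * ‖a1 * x (3 * (l : ℤ))‖ ≤ ‖a1‖ * T * ‖PiJ b K l * hh 3 c (3 * K - 1) (3 * l)‖ := by
      rw [norm_mul, norm_mul]
      calc ‖PiJ b K l‖ * (‖a1‖ * ‖x (3 * (l : ℤ))‖)
          ≤ ‖PiJ b K l‖ * (‖a1‖ * (T * ‖hh 3 c (3 * K - 1) (3 * l)‖)) := by
            gcongr
            exact hx3 l hl
        _ = _ := by ring
    have h2 : ‖PiJ b K l‖ * ‖a3 * x (3 * ((l + 1 : ℕ) : ℤ) - 1)‖ ≤ e l * (‖a3‖ * ‖b‖ * (‖b‖ * v l₀)) := by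
      rcases Nat.lt_or_ge (l + 1) K with h | h
      · rw [hPi l hl, hPi (l + 1) h, norm_mul]
        have h3 : e (l + 1) ≤ 1 := by
          simp only [he]
          exact inv_le_one_of_one_le₀ (En_abs_one K hK1 (l + 1) h)
        have h4 := hmax' (l + 1) h
        simp only [hv] at h4 ⊢
        calc ‖b‖ * e l * (‖b‖ * e (l + 1) * ‖PiJ b K (l + 1 + 1)‖) * (‖a3‖ * ‖x (3 * ((l + 1 : ℕ) : ℤ) - 1)‖)
            = e l * (‖a3‖ * ‖b‖ * (‖b‖ * (e (l + 1) * (‖x (3 * ((l + 1 : ℕ) : ℤ) - 1)‖ * ‖PiJ b K (l + 1 + 1)‖)))) := by ring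
          _ ≤ e l * (‖a3‖ * ‖b‖ * (‖b‖ * (1 * (‖x (3 * (l₀ : ℤ) - 1)‖ * ‖PiJ b K (l₀ + 1)‖)))) := by
            have := he0 l
            gcongr
          _ = _ := by ring
      · have hlK : l + 1 = K := by omega
        have h3 : (3 * ((l + 1 : ℕ) : ℤ) - 1) = ((3 * K - 1 : ℕ) : ℤ) := by
          rw [hlK]
          omega
        rw [h3, hsol.top, mul_zero, norm_zero, mul_zero]
        have := he0 l
        positivity
    have h3 : ‖PiJ b K l‖ * ‖z * x (3 * (l : ℤ) - 1)‖ ≤ e l * (|Z| * (‖b‖ * v l₀)) := by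
      rw [hPi l hl, norm_mul]
      have h4 := hmax' l hl
      have hz' : ‖z‖ ≤ |Z| := hz.trans (le_abs_self Z)
      simp only [hv] at h4 ⊢
      calc ‖b‖ * e l * ‖PiJ b K (l + 1)‖ * (‖z‖ * ‖x (3 * (l : ℤ) - 1)‖)
          = e l * (‖z‖ * (‖b‖ * (‖x (3 * (l : ℤ) - 1)‖ * ‖PiJ b K (l + 1)‖))) := by ring
        _ ≤ _ := by
          have := he0 l
          gcongr
    have h4 : ‖PiJ b K l‖ * ‖φ (3 * (l : ℤ) - 1)‖ ≤ e l * (‖b‖ * Φ) := by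
      rw [hPi l hl]
      calc ‖b‖ * e l * ‖PiJ b K (l + 1)‖ * ‖φ (3 * (l : ℤ) - 1)‖
          = e l * (‖b‖ * (‖φ (3 * (l : ℤ) - 1)‖ * ‖PiJ b K (l + 1)‖)) := by ring
        _ ≤ _ := by
          have := he0 l
          gcongr
          exact hφ l hl
    have h5 : ‖ψ l‖ ≤ ‖a1 * x (3 * (l : ℤ))‖ + ‖a3 * x (3 * ((l + 1 : ℕ) : ℤ) - 1)‖ +
        ‖z * x (3 * (l : ℤ) - 1)‖ + ‖φ (3 * (l : ℤ) - 1)‖ := by
      simp only [hψ]
      refine (norm_add_le _ _).trans (add_le_add ?_ le_rfl)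
      refine (norm_sub_le _ _).trans (add_le_add ?_ le_rfl)
      exact norm_add_le _ _
    rw [norm_mul]
    calc ‖PiJ b K l‖ * ‖ψ l‖ ≤ ‖PiJ b K l‖ * (‖a1 * x (3 * (l : ℤ))‖ + ‖a3 * x (3 * ((l + 1 : ℕ) : ℤ) - 1)‖ +
        ‖z * x (3 * (l : ℤ) - 1)‖ + ‖φ (3 * (l : ℤ) - 1)‖) := by gcongr
      _ = ‖PiJ b K l‖ * ‖a1 * x (3 * (l : ℤ))‖ + ‖PiJ b K l‖ * ‖a3 * x (3 * ((l + 1 : ℕ) : ℤ) - 1)‖ +
        ‖PiJ b K l‖ * ‖z * x (3 * (l : ℤ) - 1)‖ + ‖PiJ b K l‖ * ‖φ (3 * (l : ℤ) - 1)‖ := by ring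
      _ ≤ ‖a1‖ * T * ‖PiJ b K l * hh 3 c (3 * K - 1) (3 * l)‖ + e l * (‖a3‖ * ‖b‖ * (‖b‖ * v l₀)) +
        e l * (|Z| * (‖b‖ * v l₀)) + e l * (‖b‖ * Φ) := by
          exact add_le_add (add_le_add (add_le_add h1 h2) h3) h4
      _ = _ := by ring
  have hprod : ∀ l, l < K → ‖PiJ b K l * hh 3 c (3 * K - 1) (3 * l)‖ = ‖DJ b K‖ * (|qj l| * |qj (K - l)|) := by
    intro l hl
    rw [hbb K l (by omega) hl, norm_mul, Complex.norm_real, Real.norm_eq_abs, abs_mul]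
  have hKr : ((K : ℝ) + 1) ^ (-(4 / 3) : ℝ) ≤ (K : ℝ) ^ (-(4 / 3) : ℝ) :=
    Real.rpow_le_rpow_of_nonpos hKpos (by linarith) (by norm_num)
  have hsum1 : ∑ l ∈ Finset.range K, ‖PiJ b K l * hh 3 c (3 * K - 1) (3 * l)‖ ≤
      ‖DJ b K‖ * (CJ * (K : ℝ) ^ (-(4 / 3) : ℝ)) := by
    rw [Finset.sum_congr rfl fun l hl => hprod l (Finset.mem_range.1 hl), ← Finset.mul_sum]
    refine mul_le_mul_of_nonneg_left ?_ (norm_nonneg _)
    calc ∑ l ∈ Finset.range K, |qj l| * |qj (K - l)| ≤ ∑ l ∈ Finset.range (K + 1), |qj l| * |qj (K - l)| :=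
          Finset.sum_le_sum_of_subset_of_nonneg (Finset.range_mono (by omega))
            fun i _ _ => by positivity
      _ ≤ CJ * ((K : ℝ) + 1) ^ (-(4 / 3) : ℝ) := hsumq K
      _ ≤ _ := by gcongr
  have hPi0 : ‖PiJ b K 0‖ ≤ ‖DJ b K‖ * (CJ * (K : ℝ) ^ (-(4 / 3) : ℝ)) := by
    have h0 := hprod 0 (by omega)
    have h1 := ha K 0 (by omega) (by omega)
    have h2 : qj 0 = 1 := by simp [qj]
    rw [h1, h2] at h0
    simp only [Finset.Icc_eq_empty_of_lt (show (0 : ℕ) < 1 by omega), Finset.prod_empty, mul_one,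
      abs_one, one_mul, Nat.sub_zero] at h0
    rw [h0]
    refine mul_le_mul_of_nonneg_left ((hq K).trans ?_) (norm_nonneg _)
    gcongr
  have hS := sum_E K hK
  have hmain : ‖b‖ * v l₀ ≤ ‖b‖ * (T * (‖DJ b K‖ * (CJ * (K : ℝ) ^ (-(4 / 3) : ℝ)))) +
      ‖a1‖ * T * (‖DJ b K‖ * (CJ * (K : ℝ) ^ (-(4 / 3) : ℝ))) +
      Real.log K / K * ((‖a3‖ * ‖b‖ + |Z|) * (‖b‖ * v l₀) + ‖b‖ * Φ) := by
    have h := congrArg norm (htel l₀ hl₀')
    rw [norm_mul, norm_mul] at h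
    have h1 : ‖b‖ * v l₀ = ‖b‖ * ‖x (3 * (l₀ : ℤ) - 1)‖ * ‖PiJ b K (l₀ + 1)‖ := by
      simp only [hv]
      ring
    refine (le_of_eq (h1.trans h)).trans ?_
    refine (norm_add_le _ _).trans ?_
    rw [add_assoc]
    refine add_le_add ?_ ?_
    · rw [norm_mul, norm_mul, mul_assoc]
      gcongr
    · refine (norm_sum_le _ _).trans ?_
      calc ∑ i ∈ Finset.range (l₀ + 1), ‖PiJ b K i * ψ i‖ ≤ ∑ i ∈ Finset.range K, ‖PiJ b K i * ψ i‖ :=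
            Finset.sum_le_sum_of_subset_of_nonneg (Finset.range_mono (by omega))
              fun i _ _ => norm_nonneg _
        _ ≤ ∑ i ∈ Finset.range K, (‖a1‖ * T * ‖PiJ b K i * hh 3 c (3 * K - 1) (3 * i)‖ +
              e i * ((‖a3‖ * ‖b‖ + |Z|) * (‖b‖ * v l₀) + ‖b‖ * Φ)) :=
            Finset.sum_le_sum fun i hi => hterm i (Finset.mem_range.1 hi)
        _ = ‖a1‖ * T * ∑ i ∈ Finset.range K, ‖PiJ b K i * hh 3 c (3 * K - 1) (3 * i)‖ +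
              (∑ i ∈ Finset.range K, e i) * ((‖a3‖ * ‖b‖ + |Z|) * (‖b‖ * v l₀) + ‖b‖ * Φ) := by
            rw [Finset.sum_add_distrib, Finset.mul_sum, Finset.sum_mul]
        _ ≤ _ := by
            refine add_le_add ?_ ?_
            · exact mul_le_mul_of_nonneg_left hsum1 (by positivity)
            · exact mul_le_mul_of_nonneg_right hS (by positivity)
  have hfin : v l₀ ≤ (2 * C1 + 2) * (‖DJ b K‖ * (K : ℝ) ^ (-(4 / 3) : ℝ) * T + Real.log K / K * Φ) := by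
    set R : ℝ := (K : ℝ) ^ (-(4 / 3) : ℝ) with hR
    have hR0 : 0 ≤ R := by positivity
    set L : ℝ := Real.log K / K with hL
    have hL0 : 0 ≤ L := by
      have : 0 ≤ Real.log K := Real.log_nonneg (by exact_mod_cast hK1)
      positivity
    have h1 : L * ((‖a3‖ * ‖b‖ + |Z|) * (‖b‖ * v l₀) + ‖b‖ * Φ) ≤ 1 / 2 * (‖b‖ * v l₀) + L * (‖b‖ * Φ) := by
      have h2 : (L * (‖a3‖ * ‖b‖ + |Z|)) * (‖b‖ * v l₀) ≤ 1 / 2 * (‖b‖ * v l₀) :=
        mul_le_mul_of_nonneg_right hK2.le (by positivity)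
      calc L * ((‖a3‖ * ‖b‖ + |Z|) * (‖b‖ * v l₀) + ‖b‖ * Φ)
          = (L * (‖a3‖ * ‖b‖ + |Z|)) * (‖b‖ * v l₀) + L * (‖b‖ * Φ) := by ring
        _ ≤ _ := by linarith
    have h3 : ‖b‖ * v l₀ ≤ ‖b‖ * (2 * (C1 * (‖DJ b K‖ * R * T) + L * Φ)) := by
      have h4 : ‖b‖ * (C1 * (‖DJ b K‖ * R * T)) = ‖b‖ * (T * (‖DJ b K‖ * (CJ * R))) +
          ‖a1‖ * T * (‖DJ b K‖ * (CJ * R)) := by
        rw [hC1]
        field_simp
      nlinarith [hmain, h1, h4]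
    have h5 : v l₀ ≤ 2 * (C1 * (‖DJ b K‖ * R * T) + L * Φ) := le_of_mul_le_mul_left h3 hbpos
    have h6 : 0 ≤ ‖DJ b K‖ * R * T := by positivity
    have h7 : 0 ≤ L * Φ := by positivity
    have h8 : 0 ≤ C1 * (L * Φ) := by positivity
    nlinarith
  intro l hl
  exact (hmax' l hl).trans hfin

end HillRoots
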