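import Pool.Agent.Lib.MP_e63cf8_mp.H.StmI

/-!
# MP_e63cf8_mp, piece J4: the size of `beta F B` for `n ≡ 2 mod 3`
-/

set_option autoImplicit false

open Polynomial Filter Topology MeasureTheory Asymptotics

namespace HillRoots

/-! ### Algebra -/

private theorem J4_coeff (F B : ℂ[X]) (hJ : JHyp F B) (j : ℕ) (hj : j ≠ 3) : F.coeff j = 0 := by
  obtain ⟨h0, -, hd, h1, h2, -, -, -⟩ := hJ
  rcases lt_or_ge 3 j with h | h
  · exact Polynomial.coeff_eq_zero_of_natDegree_lt (by omega)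
  · interval_cases j
    · exact h0
    · exact h1
    · exact h2
    · exact absurd rfl hj

private theorem J4_lead (F B : ℂ[X]) (hJ : JHyp F B) : F.leadingCoeff = F.coeff 3 := by
  rw [Polynomial.leadingCoeff, hJ.2.2.1]

private theorem J4_lead_ne (F B : ℂ[X]) (hJ : JHyp F B) : F.leadingCoeff ≠ 0 := by
  intro h
  have h1 : F = 0 := Polynomial.leadingCoeff_eq_zero.mp h
  have h2 := hJ.2.2.1
  rw [h1] at h2
  simp at h2

private theorem J4_vop (F B : ℂ[X]) (hJ : JHyp F B) (x : ℤ → ℂ) (s : ℤ) :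
    Vop F B x s = F.leadingCoeff * x (s - 3) + B.coeff 1 * x (s + 1) + B.coeff 3 * x (s + 3) := by
  rw [J4_lead F B hJ]
  obtain ⟨h0, h0', hd, h1, h2, hd', h2', -⟩ := hJ
  unfold Vop
  rw [hd, hd']
  simp only [Finset.sum_range_succ, Finset.sum_range_zero, h0, h0', h1, h2, h2']
  push_cast
  ring

private theorem J4_sub (P Q : ℂ[X]) (x y : ℤ → ℂ) (s : ℤ) :
    Vop P Q (fun s => x s - y s) s = Vop P Q x s - Vop P Q y s := by
  unfold Vop
  simp only [mul_sub, Finset.sum_sub_distrib]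
  ring

private theorem J4_GG (F B : ℂ[X]) (hJ : JHyp F B) (c : ℂ) (g : ℂ → ℂ) (τ₀ K' δ : ℝ)
    (hB : Branch F c g τ₀ K' δ) (n : ℕ) (ht : ∀ k : ℕ, k < n → tau 3 n k ∈ Set.Icc 0 τ₀)
    (k : ℕ) (hk : k < n) : GG 3 c g n k = 1 := by
  unfold GG
  refine Finset.prod_eq_one fun i hi => ?_
  rw [Finset.mem_Icc] at hi
  have h1 := ht i (by omega)
  unfold br
  rw [pow_zero, one_mul, mul_one]
  set x : ℂ := c * (tau 3 n i : ℂ) with hx
  have hx1 : ‖x‖ ≤ ‖c‖ * τ₀ := by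
    rw [hx, norm_mul, Complex.norm_real, Real.norm_eq_abs, abs_of_nonneg h1.1]
    exact mul_le_mul_of_nonneg_left h1.2 (norm_nonneg _)
  have h2 := hB.eqn x hx1
  have hd : F.natDegree = 3 := hJ.2.2.1
  have hl := J4_lead F B hJ
  have hne := J4_lead_ne F B hJ
  rw [hd] at h2
  have h3 : ∑ j ∈ Finset.Icc 1 3, F.coeff j / F.leadingCoeff * (x * g x) ^ (3 - j) = 1 := by
    rw [Finset.sum_eq_single 3]
    · rw [← hl, div_self hne]
      simp
    · intro j _ hj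
      rw [J4_coeff F B hJ j hj]
      simp
    · intro h
      exact absurd (Finset.mem_Icc.mpr ⟨by norm_num, le_refl 3⟩) h
  rw [h3] at h2
  have h4 : ‖g x‖ ^ 3 = 1 := by
    rw [← norm_pow, h2, norm_one]
  exact (pow_eq_one_iff_of_nonneg (norm_nonneg _) (by norm_num)).mp h4

private theorem J4_En_ne (n s : ℕ) (h1 : 1 ≤ s) (h2 : s < n) : (En n (s : ℤ) : ℂ) ≠ 0 := by
  have h3 : (0 : ℝ) < s := by exact_mod_cast h1
  have h4 : (s : ℝ) < n := by exact_mod_cast h2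
  have h5 : En n (s : ℤ) ≠ 0 := by
    unfold En
    push_cast
    have : 0 < 4 * (s : ℝ) * ((n : ℝ) - s) := by
      have := sub_pos.mpr h4
      positivity
    exact this.ne'
  exact_mod_cast h5

private theorem J4_xP (hH1 : S_H1) (F B : ℂ[X]) (hJ : JHyp F B) (c : ℂ) (hc : c ^ 3 = F.leadingCoeff)
    (c0 : c ≠ 0) (n : ℕ) (hn : 1 ≤ n) :
    ∀ s : ℕ, s < n → xP F n s = if 3 ∣ s then hh 3 c n s else 0 := by
  obtain ⟨e0, -, e2⟩ := hH1 3 n c (by norm_num) c0 hn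
  intro s
  induction s using Nat.strong_induction_on with
  | _ s ih =>
    intro hs
    rcases s with _ | s
    · rw [xP]
      simp [e0]
    · rw [xP]
      rw [Fin.sum_univ_eq_sum_range (fun i => F.coeff (s + 1 - i) * xP F n i) (s + 1)]
      rcases Nat.lt_or_ge (s + 1) 3 with h | h
      · have h1 : ¬ (3 ∣ (s + 1)) := by omega
        rw [if_neg h1]
        have h2 : ∑ i ∈ Finset.range (s + 1), F.coeff (s + 1 - i) * xP F n i = 0 := by
          refine Finset.sum_eq_zero fun i hi => ?_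
          rw [J4_coeff F B hJ (s + 1 - i) (by omega), zero_mul]
        rw [h2, zero_div]
      · have h2 : ∑ i ∈ Finset.range (s + 1), F.coeff (s + 1 - i) * xP F n i =
            F.leadingCoeff * xP F n (s + 1 - 3) := by
          rw [Finset.sum_eq_single (s + 1 - 3)]
          · rw [J4_lead F B hJ]
            congr 2
            omega
          · intro i hi hi2
            rw [Finset.mem_range] at hi
            rw [J4_coeff F B hJ (s + 1 - i) (by omega), zero_mul]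
          · intro h3
            exact absurd (Finset.mem_range.mpr (by omega)) h3
        rw [h2, ih (s + 1 - 3) (by omega) (by omega)]
        have hE : (En n ((s : ℤ) + 1) : ℂ) ≠ 0 := by
          have := J4_En_ne n (s + 1) (by omega) hs
          push_cast at this
          exact this
        by_cases h3 : 3 ∣ (s + 1)
        · rw [if_pos h3, if_pos (by omega), ← hc, e2 (s + 1) h hs]
          push_cast
          field_simp
        · rw [if_neg h3, if_neg (by omega), mul_zero, zero_div]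

/-! ### The products -/

private theorem J4_Enm (K l : ℕ) (hl : l < K) :
    En (3 * K - 1) (3 * (l : ℤ) - 1) = 12 * (3 * (l : ℝ) - 1) * ((K : ℝ) - l) := by
  unfold En
  rw [Nat.cast_sub (by omega)]
  push_cast
  ring

private theorem J4_Enm_ge (K l : ℕ) (hl : l < K) :
    ((l : ℝ) + 1) * ((K : ℝ) - l) ≤ |En (3 * K - 1) (3 * (l : ℤ) - 1)| := by
  rw [J4_Enm K l hl]
  have h1 : (l : ℝ) + 1 ≤ K := by exact_mod_cast hl
  have h2 : 0 < (K : ℝ) - l := by linarith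
  rw [abs_mul, abs_of_pos h2]
  refine mul_le_mul_of_nonneg_right ?_ h2.le
  rcases Nat.eq_zero_or_pos l with h | h
  · subst h
    norm_num
  · have h3 : (1 : ℝ) ≤ l := by exact_mod_cast h
    rw [abs_of_pos (by nlinarith)]
    nlinarith

private theorem J4_Enm_one (K l : ℕ) (hl : l < K) :
    1 ≤ |En (3 * K - 1) (3 * (l : ℤ) - 1)| := by
  refine le_trans ?_ (J4_Enm_ge K l hl)
  have h1 : (l : ℝ) + 1 ≤ K := by exact_mod_cast hl
  have h2 : (0 : ℝ) ≤ l := Nat.cast_nonneg _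
  nlinarith

private theorem J4_Enm_ne (K l : ℕ) (hl : l < K) :
    (En (3 * K - 1) (3 * (l : ℤ) - 1) : ℂ) ≠ 0 := by
  have h := J4_Enm_one K l hl
  intro h2
  have h3 : En (3 * K - 1) (3 * (l : ℤ) - 1) = 0 := by exact_mod_cast h2
  rw [h3] at h
  norm_num at h

private theorem J4_Pi_succ (b : ℂ) (K l : ℕ) (hl : l < K) :
    PiJ b K l = b / (En (3 * K - 1) (3 * (l : ℤ) - 1) : ℂ) * PiJ b K (l + 1) := by
  unfold PiJ
  rw [Finset.prod_eq_prod_Ico_succ_bot hl]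

private theorem J4_Pi_top (b : ℂ) (K : ℕ) : PiJ b K K = 1 := by
  unfold PiJ
  simp

private theorem J4_tele (F B : ℂ[X]) (hJ : JHyp F B) (K : ℕ) (z γ : ℂ) (φ x : ℤ → ℂ)
    (hS : Sol F B (3 * K - 1) z γ 0 φ x) (hK : 1 ≤ K) :
    ∀ m : ℕ, m ≤ K → F.leadingCoeff * x (3 * (m : ℤ) - 4) * PiJ F.leadingCoeff K m =
      F.leadingCoeff * x (-4) * PiJ F.leadingCoeff K 0 +
      ∑ l ∈ Finset.range m, (B.coeff 1 * x (3 * (l : ℤ)) + B.coeff 3 * x (3 * (l : ℤ) + 2) -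
        z * x (3 * (l : ℤ) - 1) + φ (3 * (l : ℤ) - 1)) * PiJ F.leadingCoeff K l := by
  intro m
  induction m with
  | zero => intro _; simp
  | succ m ih =>
    intro hm
    have hmK : m < K := by omega
    rw [Finset.sum_range_succ, ← add_assoc, ← ih (by omega)]
    have hE := J4_Enm_ne K m hmK
    have h1 := hS.eqn (3 * (m : ℤ) - 1) (by omega) (by
      rw [Nat.cast_sub (by omega)]
      push_cast
      omega)
    rw [J4_vop F B hJ] at h1
    have e1 : 3 * ((m : ℤ)) - 1 - 3 = 3 * (m : ℤ) - 4 := by ring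
    have e2 : 3 * ((m : ℤ)) - 1 + 1 = 3 * (m : ℤ) := by ring
    have e3 : 3 * ((m : ℤ)) - 1 + 3 = 3 * (m : ℤ) + 2 := by ring
    have e4 : 3 * (((m + 1 : ℕ) : ℤ)) - 4 = 3 * (m : ℤ) - 1 := by push_cast; ring
    rw [e1, e2, e3] at h1
    rw [e4, J4_Pi_succ _ K m hmK]
    set E : ℂ := (En (3 * K - 1) (3 * (m : ℤ) - 1) : ℂ) with hEd
    have h2 : E * x (3 * (m : ℤ) - 1) = F.leadingCoeff * x (3 * (m : ℤ) - 4) +
        (B.coeff 1 * x (3 * (m : ℤ)) + B.coeff 3 * x (3 * (m : ℤ) + 2) -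
        z * x (3 * (m : ℤ) - 1) + φ (3 * (m : ℤ) - 1)) := by
      linear_combination h1
    have h3 : F.leadingCoeff * x (3 * (m : ℤ) - 1) * PiJ F.leadingCoeff K (m + 1) =
        (E * x (3 * (m : ℤ) - 1)) * (F.leadingCoeff / E * PiJ F.leadingCoeff K (m + 1)) := by
      field_simp
    rw [h3, h2]
    ring

private theorem J4_sumE (K : ℕ) (hK : 1 ≤ K) :
    ∑ l ∈ Finset.range K, 1 / |En (3 * K - 1) (3 * (l : ℤ) - 1)| ≤ 2 * ((1 + Real.log K) / K) := by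
  have hK0 : (0 : ℝ) < K := by exact_mod_cast hK
  have h1 : ∀ l ∈ Finset.range K, 1 / |En (3 * K - 1) (3 * (l : ℤ) - 1)| ≤
      (1 / K) * (1 / ((l : ℝ) + 1) + 1 / ((K : ℝ) - l)) := by
    intro l hl
    rw [Finset.mem_range] at hl
    have h1 : (l : ℝ) + 1 ≤ K := by exact_mod_cast hl
    have h2 : 0 < (K : ℝ) - l := by linarith
    have h3 : (0 : ℝ) < (l : ℝ) + 1 := by positivity
    have h4 : 1 / |En (3 * K - 1) (3 * (l : ℤ) - 1)| ≤ 1 / (((l : ℝ) + 1) * ((K : ℝ) - l)) :=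
      one_div_le_one_div_of_le (by positivity) (J4_Enm_ge K l hl)
    refine h4.trans ?_
    rw [div_add_div _ _ h3.ne' h2.ne', div_mul_div_comm, div_le_div_iff₀ (by positivity) (by positivity)]
    have h5 : 0 < ((l : ℝ) + 1) * ((K : ℝ) - l) := by positivity
    nlinarith
  refine (Finset.sum_le_sum h1).trans ?_
  rw [← Finset.mul_sum, Finset.sum_add_distrib]
  have h2 : ∑ l ∈ Finset.range K, 1 / ((l : ℝ) + 1) ≤ 1 + Real.log K := by
    have h := harmonic_le_one_add_log K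
    unfold harmonic at h
    push_cast at h
    simpa [one_div] using h
  have h3 : ∑ l ∈ Finset.range K, 1 / ((K : ℝ) - l) = ∑ l ∈ Finset.range K, 1 / ((l : ℝ) + 1) := by
    rw [← Finset.sum_range_reflect]
    refine Finset.sum_congr rfl fun l hl => ?_
    rw [Finset.mem_range] at hl
    rw [Nat.cast_sub (by omega), Nat.cast_sub (by omega)]
    congr 1
    push_cast
    ring
  rw [h3]
  have h4 : (1 / (K : ℝ)) * (∑ l ∈ Finset.range K, 1 / ((l : ℝ) + 1) +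
      ∑ l ∈ Finset.range K, 1 / ((l : ℝ) + 1)) ≤ (1 / (K : ℝ)) * ((1 + Real.log K) + (1 + Real.log K)) := by
    gcongr
  refine h4.trans (le_of_eq ?_)
  ring

private theorem J4_logn (K : ℕ) (hK : 1 ≤ K) :
    Real.log ((3 * K - 1 : ℕ) : ℝ) / ((3 * K - 1 : ℕ) : ℝ) ≤ (1 + Real.log K) / K := by
  have hK0 : (1 : ℝ) ≤ K := by exact_mod_cast hK
  rw [Nat.cast_sub (by omega)]
  push_cast
  have h1 : Real.log (3 * (K : ℝ) - 1) ≤ 2 * (1 + Real.log K) := by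
    have h2 : Real.log (3 * (K : ℝ) - 1) ≤ Real.log (3 * K) :=
      Real.log_le_log (by linarith) (by linarith)
    rw [Real.log_mul (by norm_num) (by linarith)] at h2
    have h3 : Real.log 3 ≤ 3 - 1 := Real.log_le_sub_one_of_pos (by norm_num)
    have h4 : 0 ≤ Real.log K := Real.log_nonneg hK0
    linarith
  have h2 : 2 * (K : ℝ) ≤ 3 * K - 1 := by linarith
  calc Real.log (3 * (K : ℝ) - 1) / (3 * K - 1) ≤ 2 * (1 + Real.log K) / (2 * K) := by
        have h4 : 0 ≤ Real.log K := Real.log_nonneg hK0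
        gcongr
    _ = (1 + Real.log K) / K := by
        rw [mul_div_mul_left _ _ (by norm_num)]

private theorem J4_step (F B : ℂ[X]) (hJ : JHyp F B) (n : ℕ) (z γ : ℂ) (φ x : ℤ → ℂ)
    (hS : Sol F B n z γ 0 φ x) (hz : ‖z‖ ≤ 1) (hn : 1 ≤ n) (s : ℤ) (h0 : s ≠ 0) (h1 : s ≠ n)
    (hE : (n : ℝ) + 1 ≤ |En n s|) :
    ‖x s‖ ≤ (‖F.leadingCoeff‖ * ‖x (s - 3)‖ + ‖B.coeff 1‖ * ‖x (s + 1)‖ +
      ‖B.coeff 3‖ * ‖x (s + 3)‖ + ‖φ s‖) / n := by
  have hn0 : (0 : ℝ) < n := by exact_mod_cast hn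
  have h2 := hS.eqn s h0 h1
  rw [J4_vop F B hJ] at h2
  have h3 : (n : ℝ) ≤ ‖(En n s : ℂ) + z‖ := by
    have h4 : ‖(En n s : ℂ)‖ - ‖z‖ ≤ ‖(En n s : ℂ) + z‖ := by
      have := norm_sub_norm_le (En n s : ℂ) (-z)
      rw [norm_neg, sub_neg_eq_add] at this
      exact this
    rw [Complex.norm_real, Real.norm_eq_abs] at h4
    linarith
  have h4 : ‖(En n s : ℂ) + z‖ * ‖x s‖ ≤ ‖F.leadingCoeff‖ * ‖x (s - 3)‖ + ‖B.coeff 1‖ * ‖x (s + 1)‖ +
      ‖B.coeff 3‖ * ‖x (s + 3)‖ + ‖φ s‖ := by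
    rw [← norm_mul, h2]
    refine (norm_add_le _ _).trans (add_le_add ?_ le_rfl)
    refine (norm_add_le _ _).trans (add_le_add ?_ (norm_mul_le _ _))
    exact (norm_add_le _ _).trans (add_le_add (norm_mul_le _ _) (norm_mul_le _ _))
  rw [le_div_iff₀ hn0]
  calc ‖x s‖ * n ≤ ‖x s‖ * ‖(En n s : ℂ) + z‖ := by gcongr
    _ = ‖(En n s : ℂ) + z‖ * ‖x s‖ := mul_comm _ _
    _ ≤ _ := h4

/-! ### Bounds outside and near the end points -/

private theorem J4_castn (K : ℕ) (hK : 2 ≤ K) : (((3 * K - 1 : ℕ)) : ℤ) = 3 * (K : ℤ) - 1 := by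
  rw [Nat.cast_sub (by omega)]
  push_cast
  ring

private theorem J4_castnR (K : ℕ) (hK : 2 ≤ K) : (((3 * K - 1 : ℕ)) : ℝ) = 3 * (K : ℝ) - 1 := by
  rw [Nat.cast_sub (by omega)]
  push_cast
  ring

private theorem J4_outer (F B : ℂ[X]) (hJ : JHyp F B) (K : ℕ) (hK : 2 ≤ K) (z γ : ℂ) (φ x : ℤ → ℂ)
    (hS : Sol F B (3 * K - 1) z γ 0 φ x) (hz : ‖z‖ ≤ 1) (S₁ S₂ S₃ : ℝ)
    (h1 : ∀ s : ℤ, s < 0 → ‖x s‖ ≤ S₁) (h2 : ∀ s : ℤ, 3 * (K : ℤ) - 1 < s → ‖x s‖ ≤ S₂)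
    (h3 : ‖x (3 * (K : ℤ) - 3)‖ ≤ S₃) (f1 : ∀ s : ℤ, s < 0 → ‖φ s‖ ≤ S₁)
    (f2 : ∀ s : ℤ, 3 * (K : ℤ) - 1 < s → ‖φ s‖ ≤ S₂) :
    ‖x (-4)‖ ≤ (‖F.leadingCoeff‖ + ‖B.coeff 1‖ + ‖B.coeff 3‖ + 1) * S₁ / K ∧
    ‖x (3 * (K : ℤ))‖ ≤ (‖F.leadingCoeff‖ * S₃ + (‖B.coeff 1‖ + ‖B.coeff 3‖ + 1) * S₂) / K ∧
    ‖x (3 * (K : ℤ) + 2)‖ ≤ (‖F.leadingCoeff‖ + ‖B.coeff 1‖ + ‖B.coeff 3‖ + 1) * S₂ / K := by
  have hK0 : (2 : ℝ) ≤ K := by exact_mod_cast hK
  have hKp : (0 : ℝ) < K := by linarith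
  have hnZ := J4_castn K hK
  have hnR := J4_castnR K hK
  have hKn : (K : ℝ) ≤ ((3 * K - 1 : ℕ) : ℝ) := by rw [hnR]; linarith
  have S1 : 0 ≤ S₁ := (norm_nonneg _).trans (h1 (-1) (by norm_num))
  have S2 : 0 ≤ S₂ := (norm_nonneg _).trans (h2 (3 * (K : ℤ)) (by omega))
  have S3 : 0 ≤ S₃ := (norm_nonneg _).trans h3
  have hn1 : 1 ≤ 3 * K - 1 := by omega
  have key : ∀ X : ℝ, 0 ≤ X → X / ((3 * K - 1 : ℕ) : ℝ) ≤ X / K := fun X hX =>
    div_le_div_of_nonneg_left hX hKp hKn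
  have nb := norm_nonneg F.leadingCoeff
  have na := norm_nonneg (B.coeff 1)
  have n3 := norm_nonneg (B.coeff 3)
  refine ⟨?_, ?_, ?_⟩
  · have e := J4_step F B hJ (3 * K - 1) z γ φ x hS hz hn1 (-4) (by norm_num) (by omega) (by
      unfold En
      rw [hnR]
      push_cast
      rw [abs_of_nonpos (by nlinarith)]
      nlinarith)
    refine e.trans ((key _ (by positivity)).trans ?_)
    refine div_le_div_of_nonneg_right ?_ hKp.le
    have a1 := mul_le_mul_of_nonneg_left (h1 (-4 - 3) (by norm_num)) nb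
    have a2 := mul_le_mul_of_nonneg_left (h1 (-4 + 1) (by norm_num)) na
    have a3 := mul_le_mul_of_nonneg_left (h1 (-4 + 3) (by norm_num)) n3
    have a4 := f1 (-4) (by norm_num)
    linarith
  · have e := J4_step F B hJ (3 * K - 1) z γ φ x hS hz hn1 (3 * (K : ℤ)) (by omega) (by omega) (by
      unfold En
      rw [hnR]
      push_cast
      rw [abs_of_nonpos (by nlinarith)]
      nlinarith)
    refine e.trans ((key _ (by positivity)).trans ?_)
    refine div_le_div_of_nonneg_right ?_ hKp.le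
    have a1 := mul_le_mul_of_nonneg_left h3 nb
    have a2 := mul_le_mul_of_nonneg_left (h2 (3 * (K : ℤ) + 1) (by omega)) na
    have a3 := mul_le_mul_of_nonneg_left (h2 (3 * (K : ℤ) + 3) (by omega)) n3
    have a4 := f2 (3 * (K : ℤ)) (by omega)
    linarith
  · have e := J4_step F B hJ (3 * K - 1) z γ φ x hS hz hn1 (3 * (K : ℤ) + 2) (by omega) (by omega) (by
      unfold En
      rw [hnR]
      push_cast
      rw [abs_of_nonpos (by nlinarith)]
      nlinarith)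
    refine e.trans ((key _ (by positivity)).trans ?_)
    refine div_le_div_of_nonneg_right ?_ hKp.le
    have e1 : 3 * (K : ℤ) + 2 - 3 = ((3 * K - 1 : ℕ) : ℤ) := by rw [hnZ]; ring
    have a1 : ‖F.leadingCoeff‖ * ‖x (3 * (K : ℤ) + 2 - 3)‖ ≤ ‖F.leadingCoeff‖ * S₂ := by
      rw [e1, hS.top, norm_zero, mul_zero]
      positivity
    have a2 := mul_le_mul_of_nonneg_left (h2 (3 * (K : ℤ) + 2 + 1) (by omega)) na
    have a3 := mul_le_mul_of_nonneg_left (h2 (3 * (K : ℤ) + 2 + 3) (by omega)) n3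
    have a4 := f2 (3 * (K : ℤ) + 2) (by omega)
    linarith

private theorem J4_E5 (F B : ℂ[X]) (hJ : JHyp F B) (K : ℕ) (hK : 2 ≤ K) (z γ h : ℂ) (x : ℤ → ℂ)
    (hS : Sol F B (3 * K - 1) z γ 0 0 x) (hz : ‖z‖ ≤ 1) (S₂ S₃ : ℝ)
    (h2 : ∀ s : ℤ, 3 * (K : ℤ) - 1 < s → ‖x s‖ ≤ S₂) (h3 : ‖x (3 * (K : ℤ) - 3) - h‖ ≤ S₃) :
    ‖x (3 * (K : ℤ)) - F.leadingCoeff * h / (En (3 * K - 1) (3 * (K : ℤ)) : ℂ)‖ ≤
      (‖F.leadingCoeff‖ * S₃ + (‖B.coeff 1‖ + ‖B.coeff 3‖ + 1) * S₂) / K := by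
  have hK0 : (2 : ℝ) ≤ K := by exact_mod_cast hK
  have hKp : (0 : ℝ) < K := by linarith
  have hnZ := J4_castn K hK
  have hnR := J4_castnR K hK
  have S2 : 0 ≤ S₂ := (norm_nonneg _).trans (h2 (3 * (K : ℤ)) (by omega))
  have nb := norm_nonneg F.leadingCoeff
  have na := norm_nonneg (B.coeff 1)
  have n3 := norm_nonneg (B.coeff 3)
  have e := hS.eqn (3 * (K : ℤ)) (by omega) (by omega)
  rw [J4_vop F B hJ] at e
  have hE : (K : ℝ) ≤ ‖(En (3 * K - 1) (3 * (K : ℤ)) : ℂ)‖ := by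
    rw [Complex.norm_real, Real.norm_eq_abs]
    unfold En
    rw [hnR]
    push_cast
    rw [abs_of_nonpos (by nlinarith)]
    nlinarith
  set E : ℂ := (En (3 * K - 1) (3 * (K : ℤ)) : ℂ) with hEd
  have hE0 : E ≠ 0 := by
    intro h0
    rw [h0, norm_zero] at hE
    linarith
  simp only [Pi.zero_apply, add_zero] at e
  have h4 : E * (x (3 * (K : ℤ)) - F.leadingCoeff * h / E) = F.leadingCoeff * (x (3 * (K : ℤ) - 3) - h) +
      B.coeff 1 * x (3 * (K : ℤ) + 1) + B.coeff 3 * x (3 * (K : ℤ) + 3) - z * x (3 * (K : ℤ)) := by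
    have h5 : E * (x (3 * (K : ℤ)) - F.leadingCoeff * h / E) = E * x (3 * (K : ℤ)) - F.leadingCoeff * h := by
      field_simp
    rw [h5]
    linear_combination e
  have h5 : ‖E‖ * ‖x (3 * (K : ℤ)) - F.leadingCoeff * h / E‖ ≤
      ‖F.leadingCoeff‖ * S₃ + (‖B.coeff 1‖ + ‖B.coeff 3‖ + 1) * S₂ := by
    rw [← norm_mul, h4]
    have a1 := mul_le_mul_of_nonneg_left h3 nb
    have a2 := mul_le_mul_of_nonneg_left (h2 (3 * (K : ℤ) + 1) (by omega)) na
    have a3 := mul_le_mul_of_nonneg_left (h2 (3 * (K : ℤ) + 3) (by omega)) n3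
    have a4 := h2 (3 * (K : ℤ)) (by omega)
    have a5 : ‖z‖ * ‖x (3 * (K : ℤ))‖ ≤ 1 * S₂ :=
      mul_le_mul hz a4 (norm_nonneg _) zero_le_one
    rw [← norm_mul] at a1 a2 a3 a5
    have b1 := norm_sub_le (F.leadingCoeff * (x (3 * (K : ℤ) - 3) - h) +
      B.coeff 1 * x (3 * (K : ℤ) + 1) + B.coeff 3 * x (3 * (K : ℤ) + 3)) (z * x (3 * (K : ℤ)))
    have b2 := norm_add_le (F.leadingCoeff * (x (3 * (K : ℤ) - 3) - h) +
      B.coeff 1 * x (3 * (K : ℤ) + 1)) (B.coeff 3 * x (3 * (K : ℤ) + 3))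
    have b3 := norm_add_le (F.leadingCoeff * (x (3 * (K : ℤ) - 3) - h)) (B.coeff 1 * x (3 * (K : ℤ) + 1))
    linarith
  rw [le_div_iff₀ hKp]
  calc ‖x (3 * (K : ℤ)) - F.leadingCoeff * h / E‖ * K
      ≤ ‖x (3 * (K : ℤ)) - F.leadingCoeff * h / E‖ * ‖E‖ := by gcongr
    _ = ‖E‖ * ‖x (3 * (K : ℤ)) - F.leadingCoeff * h / E‖ := mul_comm _ _
    _ ≤ _ := h5

/-! ### The sum -/

private theorem J4_term (b a₃ z : ℂ) (K : ℕ) (hz : ‖z‖ ≤ 1) (x : ℤ → ℂ) (V : ℝ) (hV : 0 ≤ V)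
    (hv : ∀ l : ℕ, l < K → ‖x (3 * (l : ℤ) - 1)‖ * ‖PiJ b K (l + 1)‖ ≤ V)
    (htop : x (3 * (K : ℤ) - 1) = 0) (l : ℕ) (hl : l < K) :
    ‖a₃ * x (3 * (l : ℤ) + 2) - z * x (3 * (l : ℤ) - 1)‖ * ‖PiJ b K l‖ ≤
      (‖a₃‖ * ‖b‖ ^ 2 + ‖b‖) * V * (1 / |En (3 * K - 1) (3 * (l : ℤ) - 1)|) := by
  have e1 := J4_Enm_one K l hl
  have hE0 : 0 < |En (3 * K - 1) (3 * (l : ℤ) - 1)| := by linarith
  have p1 : ‖PiJ b K l‖ = ‖b‖ * (1 / |En (3 * K - 1) (3 * (l : ℤ) - 1)|) * ‖PiJ b K (l + 1)‖ := by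
    rw [J4_Pi_succ b K l hl, norm_mul, norm_div, Complex.norm_real, Real.norm_eq_abs]
    ring
  set ι : ℝ := 1 / |En (3 * K - 1) (3 * (l : ℤ) - 1)| with hι
  have hι0 : 0 < ι := by positivity
  have t1 : ‖x (3 * (l : ℤ) + 2)‖ * ‖PiJ b K (l + 1)‖ ≤ ‖b‖ * V := by
    rcases Nat.lt_or_ge (l + 1) K with h | h
    · have e2 := J4_Enm_one K (l + 1) h
      have hE1 : 0 < |En (3 * K - 1) (3 * ((l + 1 : ℕ) : ℤ) - 1)| := by linarith
      have e3 := hv (l + 1) h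
      have e4 : 3 * ((l + 1 : ℕ) : ℤ) - 1 = 3 * (l : ℤ) + 2 := by push_cast; ring
      rw [J4_Pi_succ b K (l + 1) h, norm_mul, norm_div, Complex.norm_real, Real.norm_eq_abs]
      rw [e4] at e3 e2 hE1 ⊢
      have e5 : ‖b‖ / |En (3 * K - 1) (3 * (l : ℤ) + 2)| ≤ ‖b‖ :=
        div_le_self (norm_nonneg _) e2
      calc ‖x (3 * (l : ℤ) + 2)‖ * (‖b‖ / |En (3 * K - 1) (3 * (l : ℤ) + 2)| * ‖PiJ b K (l + 1 + 1)‖)
          = ‖b‖ / |En (3 * K - 1) (3 * (l : ℤ) + 2)| * (‖x (3 * (l : ℤ) + 2)‖ * ‖PiJ b K (l + 1 + 1)‖) := by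
            ring
        _ ≤ ‖b‖ * V := by gcongr
    · have e4 : 3 * (l : ℤ) + 2 = 3 * (K : ℤ) - 1 := by omega
      rw [e4, htop, norm_zero, zero_mul]
      positivity
  have t2 := hv l hl
  have b1 := norm_sub_le (a₃ * x (3 * (l : ℤ) + 2)) (z * x (3 * (l : ℤ) - 1))
  rw [norm_mul, norm_mul] at b1
  rw [p1]
  have n3 := norm_nonneg a₃
  have nb := norm_nonneg b
  have nP := norm_nonneg (PiJ b K (l + 1))
  calc ‖a₃ * x (3 * (l : ℤ) + 2) - z * x (3 * (l : ℤ) - 1)‖ * (‖b‖ * ι * ‖PiJ b K (l + 1)‖)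
      ≤ (‖a₃‖ * ‖x (3 * (l : ℤ) + 2)‖ + 1 * ‖x (3 * (l : ℤ) - 1)‖) * (‖b‖ * ι * ‖PiJ b K (l + 1)‖) := by
        refine mul_le_mul_of_nonneg_right (b1.trans ?_) (by positivity)
        gcongr
    _ = ‖b‖ * ι * (‖a₃‖ * (‖x (3 * (l : ℤ) + 2)‖ * ‖PiJ b K (l + 1)‖) +
          ‖x (3 * (l : ℤ) - 1)‖ * ‖PiJ b K (l + 1)‖) := by ring
    _ ≤ ‖b‖ * ι * (‖a₃‖ * (‖b‖ * V) + V) := by gcongr
    _ = (‖a₃‖ * ‖b‖ ^ 2 + ‖b‖) * V * ι := by ring

private theorem J4_core (F B : ℂ[X]) (hJ : JHyp F B) (K : ℕ) (hK : 2 ≤ K) (z D : ℂ) (h : ℕ → ℂ)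
    (x : ℤ → ℂ) (hS : Sol F B (3 * K - 1) z 1 0 0 x) (hz : ‖z‖ ≤ 1) (ρ V : ℝ) (hV : 0 ≤ V)
    (b1 : ∀ l : ℕ, l < K → ‖x (3 * (l : ℤ)) - h l‖ ≤ ρ * ‖h l‖)
    (hv : ∀ l : ℕ, l < K → ‖x (3 * (l : ℤ) - 1)‖ * ‖PiJ F.leadingCoeff K (l + 1)‖ ≤ V)
    (p1 : ∀ l : ℕ, l < K → PiJ F.leadingCoeff K l * h l = D * ((qj l * qj (K - l) : ℝ) : ℂ))
    (p2 : F.leadingCoeff * h (K - 1) / (En (3 * K - 1) (3 * (K : ℤ)) : ℂ) = D * ((qj K * qj 0 : ℝ) : ℂ))
    (van : ∑ j ∈ Finset.range (K + 1), qj j * qj (K - j) = rj K) (hρ : 0 ≤ ρ) :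
    ‖Vop F B x ((3 * K - 1 : ℕ) : ℤ) - B.coeff 1 * (D * (rj K : ℂ))‖ ≤
      ‖F.leadingCoeff‖ * ‖x (-4)‖ * ‖PiJ F.leadingCoeff K 0‖ +
      ‖B.coeff 1‖ * ρ * ‖D‖ * (∑ j ∈ Finset.range (K + 1), |qj j| * |qj (K - j)|) +
      (‖B.coeff 3‖ * ‖F.leadingCoeff‖ ^ 2 + ‖F.leadingCoeff‖) * V * (2 * ((1 + Real.log K) / K)) +
      ‖B.coeff 1‖ * ‖x (3 * (K : ℤ)) - F.leadingCoeff * h (K - 1) / (En (3 * K - 1) (3 * (K : ℤ)) : ℂ)‖ +
      ‖B.coeff 3‖ * ‖x (3 * (K : ℤ) + 2)‖ := by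
  have hnZ := J4_castn K hK
  have htop : x (3 * (K : ℤ) - 1) = 0 := by
    have := hS.top
    rwa [hnZ] at this
  have tele := J4_tele F B hJ K z 1 0 x hS (by omega) K le_rfl
  rw [J4_Pi_top, mul_one] at tele
  rw [J4_vop F B hJ, hnZ]
  have e1 : 3 * (K : ℤ) - 1 - 3 = 3 * (K : ℤ) - 4 := by ring
  have e2 : 3 * (K : ℤ) - 1 + 1 = 3 * (K : ℤ) := by ring
  have e3 : 3 * (K : ℤ) - 1 + 3 = 3 * (K : ℤ) + 2 := by ring
  rw [e1, e2, e3, tele]
  have main : D * (rj K : ℂ) = ∑ l ∈ Finset.range K, PiJ F.leadingCoeff K l * h l +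
      F.leadingCoeff * h (K - 1) / (En (3 * K - 1) (3 * (K : ℤ)) : ℂ) := by
    rw [← van, Finset.sum_range_succ, p2, Nat.sub_self]
    push_cast
    rw [mul_add, Finset.mul_sum]
    congr 1
    refine Finset.sum_congr rfl fun l hl => ?_
    rw [p1 l (Finset.mem_range.mp hl)]
    push_cast
    ring
  have split : ∑ l ∈ Finset.range K, (B.coeff 1 * x (3 * (l : ℤ)) + B.coeff 3 * x (3 * (l : ℤ) + 2) -
        z * x (3 * (l : ℤ) - 1) + (0 : ℤ → ℂ) (3 * (l : ℤ) - 1)) * PiJ F.leadingCoeff K l =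
      B.coeff 1 * ∑ l ∈ Finset.range K, PiJ F.leadingCoeff K l * h l +
      (B.coeff 1 * ∑ l ∈ Finset.range K, (x (3 * (l : ℤ)) - h l) * PiJ F.leadingCoeff K l +
      ∑ l ∈ Finset.range K, (B.coeff 3 * x (3 * (l : ℤ) + 2) - z * x (3 * (l : ℤ) - 1)) *
        PiJ F.leadingCoeff K l) := by
    rw [Finset.mul_sum, Finset.mul_sum, ← Finset.sum_add_distrib, ← Finset.sum_add_distrib]
    refine Finset.sum_congr rfl fun l _ => ?_
    simp only [Pi.zero_apply]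
    ring
  rw [split, main]
  have s1 : ‖∑ l ∈ Finset.range K, (x (3 * (l : ℤ)) - h l) * PiJ F.leadingCoeff K l‖ ≤
      ρ * ‖D‖ * (∑ j ∈ Finset.range (K + 1), |qj j| * |qj (K - j)|) := by
    have a1 : ‖∑ l ∈ Finset.range K, (x (3 * (l : ℤ)) - h l) * PiJ F.leadingCoeff K l‖ ≤
        ∑ l ∈ Finset.range K, ρ * ‖D‖ * (|qj l| * |qj (K - l)|) := by
      refine (norm_sum_le _ _).trans (Finset.sum_le_sum fun l hl => ?_)
      rw [Finset.mem_range] at hl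
      have a2 : ‖h l‖ * ‖PiJ F.leadingCoeff K l‖ = ‖D‖ * (|qj l| * |qj (K - l)|) := by
        have a3 := congrArg norm (p1 l hl)
        rw [norm_mul, norm_mul, Complex.norm_real, Real.norm_eq_abs, abs_mul] at a3
        rw [← a3]
        ring
      rw [norm_mul]
      calc ‖x (3 * (l : ℤ)) - h l‖ * ‖PiJ F.leadingCoeff K l‖
          ≤ ρ * ‖h l‖ * ‖PiJ F.leadingCoeff K l‖ :=
            mul_le_mul_of_nonneg_right (b1 l hl) (norm_nonneg _)
        _ = ρ * (‖h l‖ * ‖PiJ F.leadingCoeff K l‖) := by ring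
        _ = ρ * ‖D‖ * (|qj l| * |qj (K - l)|) := by rw [a2]; ring
    refine a1.trans ?_
    rw [← Finset.mul_sum]
    refine mul_le_mul_of_nonneg_left ?_ (by positivity)
    rw [Finset.sum_range_succ]
    have : 0 ≤ |qj K| * |qj (K - K)| := by positivity
    linarith
  have s2 : ‖∑ l ∈ Finset.range K, (B.coeff 3 * x (3 * (l : ℤ) + 2) - z * x (3 * (l : ℤ) - 1)) *
        PiJ F.leadingCoeff K l‖ ≤
      (‖B.coeff 3‖ * ‖F.leadingCoeff‖ ^ 2 + ‖F.leadingCoeff‖) * V * (2 * ((1 + Real.log K) / K)) := by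
    have a1 : ‖∑ l ∈ Finset.range K, (B.coeff 3 * x (3 * (l : ℤ) + 2) - z * x (3 * (l : ℤ) - 1)) *
        PiJ F.leadingCoeff K l‖ ≤
        ∑ l ∈ Finset.range K, (‖B.coeff 3‖ * ‖F.leadingCoeff‖ ^ 2 + ‖F.leadingCoeff‖) * V *
          (1 / |En (3 * K - 1) (3 * (l : ℤ) - 1)|) := by
      refine (norm_sum_le _ _).trans (Finset.sum_le_sum fun l hl => ?_)
      rw [norm_mul]
      exact J4_term F.leadingCoeff (B.coeff 3) z K hz x V hV hv htop l (Finset.mem_range.mp hl)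
    refine a1.trans ?_
    rw [← Finset.mul_sum]
    exact mul_le_mul_of_nonneg_left (J4_sumE K (by omega)) (by positivity)
  set S₁ := ∑ l ∈ Finset.range K, (x (3 * (l : ℤ)) - h l) * PiJ F.leadingCoeff K l with hS1
  set S₂ := ∑ l ∈ Finset.range K, (B.coeff 3 * x (3 * (l : ℤ) + 2) - z * x (3 * (l : ℤ) - 1)) *
        PiJ F.leadingCoeff K l with hS2
  set S₀ := ∑ l ∈ Finset.range K, PiJ F.leadingCoeff K l * h l with hS0
  set W := F.leadingCoeff * h (K - 1) / (En (3 * K - 1) (3 * (K : ℤ)) : ℂ) with hW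
  have e4 : F.leadingCoeff * x (-4) * PiJ F.leadingCoeff K 0 +
      (B.coeff 1 * S₀ + (B.coeff 1 * S₁ + S₂)) + B.coeff 1 * x (3 * (K : ℤ)) +
      B.coeff 3 * x (3 * (K : ℤ) + 2) - B.coeff 1 * (S₀ + W) =
      F.leadingCoeff * x (-4) * PiJ F.leadingCoeff K 0 + B.coeff 1 * S₁ + S₂ +
      B.coeff 1 * (x (3 * (K : ℤ)) - W) + B.coeff 3 * x (3 * (K : ℤ) + 2) := by ring
  rw [e4]
  refine (norm_add_le _ _).trans (add_le_add ?_ (norm_mul_le _ _))
  refine (norm_add_le _ _).trans (add_le_add ?_ (norm_mul_le _ _))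
  refine (norm_add_le _ _).trans (add_le_add ?_ s2)
  refine (norm_add_le _ _).trans (add_le_add ?_ ?_)
  · rw [norm_mul, norm_mul]
  · rw [norm_mul]
    calc ‖B.coeff 1‖ * ‖S₁‖ ≤ ‖B.coeff 1‖ * (ρ * ‖D‖ * (∑ j ∈ Finset.range (K + 1), |qj j| * |qj (K - j)|)) :=
          mul_le_mul_of_nonneg_left s1 (norm_nonneg _)
      _ = _ := by ring

/-! ### Real estimates -/

private theorem J4_log (η : ℝ) (hη : 0 < η) :
    ∀ᶠ K : ℕ in atTop, 1 + Real.log K ≤ η * (K : ℝ) ^ (1 / 3 : ℝ) := by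
  have h1 : Tendsto (fun x : ℝ => x ^ (1 / 3 : ℝ)) atTop atTop := tendsto_rpow_atTop (by norm_num)
  have h2 := (isLittleO_log_rpow_atTop (show (0 : ℝ) < 1 / 3 by norm_num)).bound (half_pos hη)
  have h3 := h1.eventually (eventually_ge_atTop (2 / η))
  have h4 := (h2.and (h3.and (eventually_ge_atTop (1 : ℝ))))
  filter_upwards [tendsto_natCast_atTop_atTop.eventually h4] with K hK
  obtain ⟨a1, a2, a3⟩ := hK
  have a4 : 0 ≤ Real.log (K : ℝ) := Real.log_nonneg a3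
  have a5 : 0 ≤ (K : ℝ) ^ (1 / 3 : ℝ) := by positivity
  rw [Real.norm_of_nonneg a4, Real.norm_of_nonneg a5] at a1
  have a6 : 1 ≤ η / 2 * (K : ℝ) ^ (1 / 3 : ℝ) := by
    have := mul_le_mul_of_nonneg_left a2 (half_pos hη).le
    have e : η / 2 * (2 / η) = 1 := by field_simp
    linarith
  linarith

private theorem J4_lam (K : ℕ) (hK : 1 ≤ K) (η : ℝ) (hη : 0 < η)
    (h : 1 + Real.log K ≤ η * (K : ℝ) ^ (1 / 3 : ℝ)) :
    (1 + Real.log K) / K ≤ η ∧ (1 + Real.log K) / K / K ≤ η * (K : ℝ) ^ (-(5 / 3) : ℝ) := by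
  have hK1 : (1 : ℝ) ≤ K := by exact_mod_cast hK
  have hK0 : (0 : ℝ) < K := by linarith
  constructor
  · rw [div_le_iff₀ hK0]
    refine h.trans (mul_le_mul_of_nonneg_left ?_ hη.le)
    calc (K : ℝ) ^ (1 / 3 : ℝ) ≤ (K : ℝ) ^ (1 : ℝ) :=
          Real.rpow_le_rpow_of_exponent_le hK1 (by norm_num)
      _ = K := Real.rpow_one _
  · rw [div_div, div_le_iff₀ (by positivity)]
    refine h.trans (le_of_eq ?_)
    have e1 : (K : ℝ) * K = (K : ℝ) ^ (2 : ℝ) := by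
      rw [Real.rpow_two]
      ring
    rw [e1, mul_assoc, ← Real.rpow_add hK0]
    norm_num

private theorem J4_pow (K : ℕ) (hK : 1 ≤ K) :
    (K : ℝ) ^ (-(4 / 3) : ℝ) ≤ 1 / K ∧ ((K : ℝ) + 1) ^ (-(4 / 3) : ℝ) ≤ 1 / K ∧
    ((K : ℝ) + 1) ^ (-(5 / 3) : ℝ) ≤ (K : ℝ) ^ (-(5 / 3) : ℝ) ∧
    1 / 4 * (K : ℝ) ^ (-(5 / 3) : ℝ) ≤ ((K : ℝ) + 1) ^ (-(5 / 3) : ℝ) ∧
    (K : ℝ) ^ (-2 : ℝ) = 1 / K / K := by
  have hK1 : (1 : ℝ) ≤ K := by exact_mod_cast hK
  have hK0 : (0 : ℝ) < K := by linarith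
  have e1 : (K : ℝ) ^ (-(4 / 3) : ℝ) ≤ 1 / K := by
    have h1 : (K : ℝ) ^ (-(4 / 3) : ℝ) ≤ (K : ℝ) ^ (-1 : ℝ) :=
      Real.rpow_le_rpow_of_exponent_le hK1 (by norm_num)
    rwa [Real.rpow_neg_one, inv_eq_one_div] at h1
  refine ⟨e1, ?_, ?_, ?_, ?_⟩
  · refine le_trans ?_ e1
    exact Real.rpow_le_rpow_of_nonpos hK0 (by linarith) (by norm_num)
  · exact Real.rpow_le_rpow_of_nonpos hK0 (by linarith) (by norm_num)
  · have h1 : (2 * (K : ℝ)) ^ (-(5 / 3) : ℝ) ≤ ((K : ℝ) + 1) ^ (-(5 / 3) : ℝ) :=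
      Real.rpow_le_rpow_of_nonpos (by positivity) (by linarith) (by norm_num)
    refine le_trans ?_ h1
    rw [Real.mul_rpow (by norm_num) hK0.le]
    refine mul_le_mul_of_nonneg_right ?_ (by positivity)
    have h2 : (2 : ℝ) ^ (-2 : ℝ) ≤ (2 : ℝ) ^ (-(5 / 3) : ℝ) :=
      Real.rpow_le_rpow_of_exponent_le (by norm_num) (by norm_num)
    have h3 : (2 : ℝ) ^ (-2 : ℝ) = 1 / 4 := by
      rw [Real.rpow_neg (by norm_num), Real.rpow_two]
      norm_num
    rwa [h3] at h2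
  · rw [Real.rpow_neg hK0.le, Real.rpow_two]
    field_simp

/-! ### The theorem -/

theorem p_J4 (hF1 : S_F1) (hA3 : S_A3) (hI2 : S_I2) (hH1 : S_H1) (hH3 : S_H3) (hJ1 : S_J1)
    (hJ2 : S_J2) (hJ3 : S_J3) (hU1 : S_U1) : S_J4 := by
  intro F B c g τ₀ K' δ hJ hB
  have hd : F.natDegree = 3 := hJ.2.2.1
  have hc : c ^ 3 = F.leadingCoeff := by
    have := hB.hc
    rwa [hd] at this
  have c0 : c ≠ 0 := hB.c0
  have hb : F.leadingCoeff ≠ 0 := J4_lead_ne F B hJ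
  have ha : B.coeff 1 ≠ 0 := hJ.2.2.2.2.2.2.2
  obtain ⟨n₀, K₁, -, hF⟩ := hF1 F B 1
  obtain ⟨CI, hCI, hI⟩ := hI2 F B c g τ₀ K' δ 1 hJ.1 hJ.2.1 hB
  obtain ⟨CH, hCH, hH⟩ := hH3 3 0 c (by norm_num) c0
  obtain ⟨van, C1, hC1, hq, hr, hqq⟩ := hJ1
  obtain ⟨-, j2b, j2c, κ, hκ, j2d⟩ := hJ2 F.leadingCoeff c hc hb
  obtain ⟨CJ, hCJ, hJ3'⟩ := hJ3 F B c 1 hJ hc
  have hT := hU1 3 τ₀ (by norm_num) hB.ld.ht
  rw [hd] at hI
  set nb : ℝ := ‖F.leadingCoeff‖ with hnb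
  set na : ℝ := ‖B.coeff 1‖ with hna
  set n3 : ℝ := ‖B.coeff 3‖ with hn3
  have nb0 : 0 < nb := norm_pos_iff.mpr hb
  have na0 : 0 < na := norm_pos_iff.mpr ha
  have n30 : 0 ≤ n3 := norm_nonneg _
  set ν : ℝ := nb + na + n3 + 1 with hν
  have ν0 : 0 < ν := by positivity
  set CE : ℝ := nb * (ν * CI) * (C1 * C1) * (κ * nb) + na * CI * (κ * nb) * C1 +
    (n3 * nb ^ 2 + nb) * (2 * CJ * (κ * nb)) * 2 + na * (nb * (CI * CH) + ν * CI) + n3 * (ν * CI) with hCE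
  have CE0 : 0 < CE := by positivity
  set CL : ℝ := nb * (CJ * (2 * CI + 2 * CJ) * (κ * nb)) + na * (nb * (2 * CI * CH) + ν * (2 * CI)) +
    n3 * (ν * (2 * CI)) with hCL
  have CL0 : 0 < CL := by positivity
  set c₁ : ℝ := na * κ / (8 * C1) with hc1
  have c10 : 0 < c₁ := by positivity
  refine ⟨c₁, na * κ * C1 + c₁ + CL / nb, c10, by positivity, ?_⟩
  have t3 : Tendsto (fun K : ℕ => 3 * K - 1) atTop atTop :=
    tendsto_atTop_mono (fun K => by show K - 1 ≤ 3 * K - 1; omega) (tendsto_sub_atTop_nat 1)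
  filter_upwards [t3.eventually hI, t3.eventually hH, hJ3', t3.eventually hT, eventually_ge_atTop 2,
    t3.eventually (eventually_ge_atTop n₀), J4_log (1 / CI) (by positivity),
    J4_log (c₁ * nb / CE) (by positivity)] with K hI hH hJ3 hT hK hn hl1 hl2
  have hK1 : 1 ≤ K := by omega
  have hKr : (2 : ℝ) ≤ K := by exact_mod_cast hK
  have hK0 : (0 : ℝ) < K := by linarith
  have hnZ := J4_castn K hK
  have hnR := J4_castnR K hK
  have lam1 := (J4_lam K hK1 _ (by positivity) hl1).1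
  have lam2 := (J4_lam K hK1 _ (by positivity) hl2).2
  obtain ⟨w1, w2, w3, w4, w5⟩ := J4_pow K hK1
  set lam : ℝ := (1 + Real.log K) / K with hlam
  set n : ℕ := 3 * K - 1 with hndef
  have hlog : Real.log n / n ≤ lam := J4_logn K hK1
  have hlogK : 0 ≤ Real.log K := Real.log_nonneg (by linarith)
  have iK : 1 / (K : ℝ) ≤ lam := by
    rw [hlam]
    gcongr
    linarith
  have lam0 : 0 < lam := lt_of_lt_of_le (by positivity) iK
  have ikn : 1 / (n : ℝ) ≤ 1 / K := by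
    refine one_div_le_one_div_of_le hK0 ?_
    rw [hnR]
    linarith
  have hCIlam : CI * lam ≤ 1 := by
    have := mul_le_mul_of_nonneg_left lam1 hCI.le
    rwa [mul_one_div_cancel hCI.ne'] at this
  have hG := J4_GG F B hJ c g τ₀ K' δ hB n hT
  have hG3 : GG 3 c g n (n - 3) = 1 := hG (n - 3) (by omega)
  obtain ⟨hh0, -, -⟩ := hH1 3 n c (by norm_num) c0 (by omega)
  have hxP := J4_xP hH1 F B hJ c hc c0 n (by omega)
  set hs : ℝ := ‖hh 3 c n (n - 3)‖ with hhs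
  have hs0 : 0 ≤ hs := norm_nonneg _
  have hD : ‖DJ F.leadingCoeff K‖ = κ * (nb * hs) := j2d K hK
  have hD0 : 0 ≤ ‖DJ F.leadingCoeff K‖ := norm_nonneg _
  have hhK : ‖hh 3 c n (3 * K - 3)‖ ≤ CH * hs := by
    have h1 := hH.1 (n - 3) (by omega)
    have h2 : n - 3 + 1 = 3 * K - 3 := by omega
    rwa [h2] at h1
  -- general bounds
  have A : ∀ (z γ : ℂ) (Φ : ℝ) (φ x : ℤ → ℂ), ‖z‖ ≤ 1 → 0 ≤ Φ → Sol F B n z γ 0 φ x →
      Forc F c g n Φ φ →
      (∀ s : ℕ, s < n → ‖x s - γ * xP F n s‖ ≤ CI * lam * (‖γ‖ + Φ) * ‖hh 3 c n s‖) ∧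
      (∀ s : ℤ, s < 0 → ‖x s‖ ≤ CI * (1 / K) * (‖γ‖ + Φ)) ∧
      (∀ s : ℤ, 3 * (K : ℤ) - 1 < s → ‖x s‖ ≤ CI * (1 / K) * (‖γ‖ + Φ) * hs) := by
    intro z γ Φ φ x hz hΦ hS hf
    obtain ⟨i1, i2, i3, -⟩ := hI z γ Φ φ x hz hΦ hS hf
    have e0 : CI / (n : ℝ) ≤ CI * (1 / K) := by
      rw [div_eq_mul_one_div]
      exact mul_le_mul_of_nonneg_left ikn hCI.le
    refine ⟨fun s hs => ?_, fun s hs => ?_, fun s hs => ?_⟩
    · have h1 := i1 s hs
      rw [hG s hs, mul_one] at h1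
      refine h1.trans ?_
      gcongr
    · refine (i2 s hs).trans ?_
      gcongr
    · have h1 := i3 s (by omega)
      rw [hG3, mul_one] at h1
      refine h1.trans ?_
      gcongr
  have hForc0 : Forc F c g n 0 0 := by
    refine ⟨fun s _ _ => ?_, fun s _ => ?_, fun s _ => ?_⟩ <;> simp
  -- bounds for `C0`
  have X : ∀ z : ℂ, ‖z‖ ≤ 1 → Sol F B n z 1 0 0 (C0 F B n z) ∧
      (∀ s : ℕ, s < n → ‖C0 F B n z s - xP F n s‖ ≤ CI * lam * ‖hh 3 c n s‖) ∧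
      (∀ s : ℤ, s < 0 → ‖C0 F B n z s‖ ≤ CI * (1 / K)) ∧
      (∀ s : ℤ, 3 * (K : ℤ) - 1 < s → ‖C0 F B n z s‖ ≤ CI * (1 / K) * hs) ∧
      (∀ s : ℕ, s < n → ‖C0 F B n z s‖ ≤ 2 * ‖hh 3 c n s‖) ∧
      (∀ l : ℕ, l < K → ‖C0 F B n z (3 * (l : ℤ) - 1)‖ * ‖PiJ F.leadingCoeff K (l + 1)‖ ≤
        2 * CJ * (‖DJ F.leadingCoeff K‖ * (1 / K))) := by
    intro z hz
    have hS := (hF n hn z hz).1
    obtain ⟨a1, a2, a3⟩ := A z 1 0 0 _ hz le_rfl hS hForc0
    simp only [norm_one, add_zero, mul_one, one_mul] at a1 a2 a3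
    have a4 : ∀ s : ℕ, s < n → ‖C0 F B n z s‖ ≤ 2 * ‖hh 3 c n s‖ := by
      intro s hs
      have h1 := a1 s hs
      have h2 : ‖xP F n s‖ ≤ ‖hh 3 c n s‖ := by
        rw [hxP s hs]
        split_ifs
        · exact le_rfl
        · rw [norm_zero]; exact norm_nonneg _
      have h3 := norm_add_le (C0 F B n z s - xP F n s) (xP F n s)
      rw [sub_add_cancel] at h3
      have h4 : CI * lam * ‖hh 3 c n s‖ ≤ 1 * ‖hh 3 c n s‖ :=
        mul_le_mul_of_nonneg_right hCIlam (norm_nonneg _)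
      linarith
    refine ⟨hS, a1, a2, a3, a4, ?_⟩
    intro l hl
    have h1 := hJ3 z 1 2 0 0 (C0 F B n z) hz (by norm_num) le_rfl hS (fun l hl => by
      have := a4 (3 * l) (by omega)
      push_cast at this
      exact this) (by
      have := a2 (-4) (by norm_num)
      have h2 : CI * (1 / K) ≤ CI * lam := mul_le_mul_of_nonneg_left iK hCI.le
      linarith) (fun l _ => by simp) l hl
    refine h1.trans ?_
    rw [mul_zero, add_zero]
    have h2 : ‖DJ F.leadingCoeff K‖ * (K : ℝ) ^ (-(4 / 3) : ℝ) ≤ ‖DJ F.leadingCoeff K‖ * (1 / K) :=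
      mul_le_mul_of_nonneg_left w1 hD0
    calc CJ * (‖DJ F.leadingCoeff K‖ * (K : ℝ) ^ (-(4 / 3) : ℝ) * 2)
        ≤ CJ * (‖DJ F.leadingCoeff K‖ * (1 / K) * 2) := by gcongr
      _ = _ := by ring
  -- the main estimate
  have M : ∀ z : ℂ, ‖z‖ ≤ 1 →
      ‖beta F B n z - B.coeff 1 * (DJ F.leadingCoeff K * (rj K : ℂ))‖ ≤ CE * (lam / K) * hs := by
    intro z hz
    obtain ⟨hS, x1, x2, x3, x4, x5⟩ := X z hz
    set x : ℤ → ℂ := C0 F B n z with hx
    have hV0 : 0 ≤ 2 * CJ * (‖DJ F.leadingCoeff K‖ * (1 / K)) := by positivity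
    have hρ0 : 0 ≤ CI * lam := by positivity
    have core := J4_core F B hJ K hK z (DJ F.leadingCoeff K) (fun l => hh 3 c n (3 * l)) x hS hz
      (CI * lam) (2 * CJ * (‖DJ F.leadingCoeff K‖ * (1 / K))) hV0 (fun l hl => by
        have h1 := x1 (3 * l) (by omega)
        rw [hxP (3 * l) (by omega), if_pos (Dvd.intro _ rfl)] at h1
        push_cast at h1
        exact h1) x5 (fun l hl => j2b K l hK hl) (by
        have h1 := j2c K hK
        have h2 : 3 * (K - 1) = 3 * K - 3 := by omega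
        show F.leadingCoeff * hh 3 c n (3 * (K - 1)) / (En (3 * K - 1) (3 * (K : ℤ)) : ℂ) = _
        rw [h2]
        exact h1) (van K) hρ0
    have hx3 : ‖x (3 * (K : ℤ) - 3) - hh 3 c n (3 * (K - 1))‖ ≤ CI * lam * (CH * hs) := by
      have h1 := x1 (3 * (K - 1)) (by omega)
      rw [hxP (3 * (K - 1)) (by omega), if_pos (Dvd.intro _ rfl)] at h1
      have h2 : ((3 * (K - 1) : ℕ) : ℤ) = 3 * (K : ℤ) - 3 := by
        rw [show 3 * (K - 1) = 3 * K - 3 by omega, Nat.cast_sub (by omega)]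
        push_cast
        ring
      rw [h2] at h1
      refine h1.trans ?_
      refine mul_le_mul_of_nonneg_left ?_ hρ0
      rw [show 3 * (K - 1) = 3 * K - 3 by omega]
      exact hhK
    have hx33 : ‖x (3 * (K : ℤ) - 3)‖ ≤ 2 * (CH * hs) := by
      have h1 := x4 (3 * (K - 1)) (by omega)
      have h2 : ((3 * (K - 1) : ℕ) : ℤ) = 3 * (K : ℤ) - 3 := by
        rw [show 3 * (K - 1) = 3 * K - 3 by omega, Nat.cast_sub (by omega)]
        push_cast
        ring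
      rw [h2] at h1
      refine h1.trans ?_
      refine mul_le_mul_of_nonneg_left ?_ (by norm_num)
      rw [show 3 * (K - 1) = 3 * K - 3 by omega]
      exact hhK
    obtain ⟨o1, -, o3⟩ := J4_outer F B hJ K hK z 1 0 x hS hz _ _ _ x2 x3 hx33
      (fun s _ => by simp only [Pi.zero_apply, norm_zero]; positivity)
      (fun s _ => by simp only [Pi.zero_apply, norm_zero]; positivity)
    have o4 := J4_E5 F B hJ K hK z 1 (hh 3 c n (3 * (K - 1))) x hS hz _ _ x3 hx3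
    change ‖beta F B n z - _‖ ≤ _ at core
    refine core.trans ?_
    have hP0 : ‖PiJ F.leadingCoeff K 0‖ ≤ κ * (nb * hs) * (C1 * C1) := by
      have h1 := congrArg norm (j2b K 0 hK (by omega))
      rw [mul_zero, hh0, mul_one, norm_mul, Complex.norm_real, Real.norm_eq_abs, abs_mul, hD,
        Nat.sub_zero] at h1
      rw [h1]
      have hq1 : ∀ j : ℕ, |qj j| ≤ C1 := by
        intro j
        refine (hq j).trans ?_
        have h3 : ((j : ℝ) + 1) ^ (-(4 / 3) : ℝ) ≤ 1 :=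
          Real.rpow_le_one_of_one_le_of_nonpos (by
            have : (0 : ℝ) ≤ j := Nat.cast_nonneg _
            linarith) (by norm_num)
        calc C1 * ((j : ℝ) + 1) ^ (-(4 / 3) : ℝ) ≤ C1 * 1 := by gcongr
          _ = C1 := mul_one _
      have h2 : |qj 0| * |qj K| ≤ C1 * C1 := mul_le_mul (hq1 0) (hq1 K) (abs_nonneg _) hC1.le
      exact mul_le_mul_of_nonneg_left h2 (by positivity)
    have T1 : nb * ‖x (-4)‖ * ‖PiJ F.leadingCoeff K 0‖ ≤
        nb * (ν * CI) * (C1 * C1) * (κ * nb) * (lam / K) * hs := by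
      calc nb * ‖x (-4)‖ * ‖PiJ F.leadingCoeff K 0‖
          ≤ nb * (ν * (CI * (1 / K)) / K) * (κ * (nb * hs) * (C1 * C1)) := by gcongr
        _ = nb * (ν * CI) * (C1 * C1) * (κ * nb) * ((1 / K) / K) * hs := by ring
        _ ≤ _ := by gcongr
    have T2 : na * (CI * lam) * ‖DJ F.leadingCoeff K‖ *
        (∑ j ∈ Finset.range (K + 1), |qj j| * |qj (K - j)|) ≤
        na * CI * (κ * nb) * C1 * (lam / K) * hs := by
      rw [hD]
      calc na * (CI * lam) * (κ * (nb * hs)) * (∑ j ∈ Finset.range (K + 1), |qj j| * |qj (K - j)|)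
          ≤ na * (CI * lam) * (κ * (nb * hs)) * (C1 * (1 / K)) := by
            refine mul_le_mul_of_nonneg_left ((hqq K).trans ?_) (by positivity)
            exact mul_le_mul_of_nonneg_left w2 hC1.le
        _ = _ := by ring
    have T3 : (n3 * nb ^ 2 + nb) * (2 * CJ * (‖DJ F.leadingCoeff K‖ * (1 / K))) * (2 * lam) =
        (n3 * nb ^ 2 + nb) * (2 * CJ * (κ * nb)) * 2 * (lam / K) * hs := by
      rw [hD]
      ring
    have T4 : na * ((nb * (CI * lam * (CH * hs)) + (na + n3 + 1) * (CI * (1 / K) * hs)) / K) ≤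
        na * (nb * (CI * CH) + ν * CI) * (lam / K) * hs := by
      calc na * ((nb * (CI * lam * (CH * hs)) + (na + n3 + 1) * (CI * (1 / K) * hs)) / K)
          ≤ na * ((nb * (CI * lam * (CH * hs)) + ν * (CI * lam * hs)) / K) := by
            have : na + n3 + 1 ≤ ν := by rw [hν]; linarith
            gcongr
        _ = _ := by ring
    have T5 : n3 * (ν * (CI * (1 / K) * hs) / K) ≤ n3 * (ν * CI) * (lam / K) * hs := by
      calc n3 * (ν * (CI * (1 / K) * hs) / K) ≤ n3 * (ν * (CI * lam * hs) / K) := by gcongr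
        _ = _ := by ring
    have T4' := mul_le_mul_of_nonneg_left o4 na0.le
    have T5' := mul_le_mul_of_nonneg_left o3 n30
    have fin : CE * (lam / K) * hs = nb * (ν * CI) * (C1 * C1) * (κ * nb) * (lam / K) * hs +
        na * CI * (κ * nb) * C1 * (lam / K) * hs +
        (n3 * nb ^ 2 + nb) * (2 * CJ * (κ * nb)) * 2 * (lam / K) * hs +
        na * (nb * (CI * CH) + ν * CI) * (lam / K) * hs + n3 * (ν * CI) * (lam / K) * hs := by
      rw [hCE]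
      ring
    rw [fin]
    refine add_le_add (add_le_add (add_le_add (add_le_add T1 T2) T3.le) (T4'.trans T4)) (T5'.trans T5)
  intro z z' hz hz'
  have hL : ‖beta F B n z - beta F B n z'‖ ≤ CL * (lam / K) * ‖z - z'‖ * hs := by
    obtain ⟨hS, -⟩ := X z hz
    obtain ⟨hS', y1, y2, y3, y4, y5⟩ := X z' hz'
    set ζ : ℝ := ‖z - z'‖ with hζ
    have ζ0 : 0 ≤ ζ := norm_nonneg _
    have hφ : ∀ s : ℤ, ‖(fun s => -(z - z') * C0 F B n z' s) s‖ = ζ * ‖C0 F B n z' s‖ := by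
      intro s
      change ‖-(z - z') * C0 F B n z' s‖ = _
      rw [norm_mul, norm_neg]
    have hForc : Forc F c g n (2 * ζ) (fun s => -(z - z') * C0 F B n z' s) := by
      refine ⟨fun s hs1 hs2 => ?_, fun s hs1 => ?_, fun s hs1 => ?_⟩
      · rw [hφ, hd, hG s hs2, mul_one]
        calc ζ * ‖C0 F B n z' s‖ ≤ ζ * (2 * ‖hh 3 c n s‖) :=
              mul_le_mul_of_nonneg_left (y4 s hs2) ζ0
          _ = _ := by ring
      · rw [hφ]
        have h1 : CI * (1 / K) ≤ CI * lam := mul_le_mul_of_nonneg_left iK hCI.le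
        calc ζ * ‖C0 F B n z' s‖ ≤ ζ * 2 := by
              refine mul_le_mul_of_nonneg_left ?_ ζ0
              have := y2 s hs1
              linarith
          _ = _ := by ring
      · rw [hφ, hd, hG3, mul_one]
        have h1 : CI * (1 / K) ≤ CI * lam := mul_le_mul_of_nonneg_left iK hCI.le
        calc ζ * ‖C0 F B n z' s‖ ≤ ζ * (2 * hs) := by
              refine mul_le_mul_of_nonneg_left ?_ ζ0
              refine (y3 s (by omega)).trans ?_
              refine mul_le_mul_of_nonneg_right ?_ hs0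
              linarith
          _ = _ := by ring
    have hSol : Sol F B n z 0 0 (fun s => -(z - z') * C0 F B n z' s)
        (fun s => C0 F B n z s - C0 F B n z' s) := by
      obtain ⟨Bd, hBd⟩ := hS.bdd
      obtain ⟨Bd', hBd'⟩ := hS'.bdd
      refine ⟨⟨Bd + Bd', fun s => ?_⟩, ?_, ?_, fun s h1 h2 => ?_⟩
      · exact (norm_sub_le _ _).trans (add_le_add (hBd s) (hBd' s))
      · change C0 F B n z 0 - C0 F B n z' 0 = 0
        rw [hS.zero, hS'.zero, sub_self]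
      · change C0 F B n z n - C0 F B n z' n = 0
        rw [hS.top, hS'.top, sub_self]
      · have q1 := hS.eqn s h1 h2
        have q2 := hS'.eqn s h1 h2
        rw [J4_sub]
        simp only [Pi.zero_apply, add_zero] at q1 q2
        change ((En n s : ℂ) + z) * (C0 F B n z s - C0 F B n z' s) =
          Vop F B (C0 F B n z) s - Vop F B (C0 F B n z') s + -(z - z') * C0 F B n z' s
        rw [← q1, ← q2]
        ring
    have hbeta : beta F B n z - beta F B n z' =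
        Vop F B (fun s => C0 F B n z s - C0 F B n z' s) n := by
      rw [J4_sub]
      rfl
    rw [hbeta]
    set w : ℤ → ℂ := fun s => C0 F B n z s - C0 F B n z' s with hw
    obtain ⟨a1, a2, a3⟩ := A z 0 (2 * ζ) _ w hz (by positivity) hSol hForc
    simp only [norm_zero, zero_add, zero_mul, sub_zero] at a1 a2 a3
    have hw3 : ‖w (3 * (K : ℤ) - 3)‖ ≤ CI * lam * (2 * ζ) * (CH * hs) := by
      have h1 := a1 (3 * (K - 1)) (by omega)
      have h2 : ((3 * (K - 1) : ℕ) : ℤ) = 3 * (K : ℤ) - 3 := by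
        rw [show 3 * (K - 1) = 3 * K - 3 by omega, Nat.cast_sub (by omega)]
        push_cast
        ring
      rw [h2] at h1
      refine h1.trans ?_
      refine mul_le_mul_of_nonneg_left ?_ (by positivity)
      rw [show 3 * (K - 1) = 3 * K - 3 by omega]
      exact hhK
    obtain ⟨-, o2, o3⟩ := J4_outer F B hJ K hK z 0 _ w hSol hz _ _ _ a2 a3 hw3
      (fun s hs1 => by
        rw [hφ]
        calc ζ * ‖C0 F B n z' s‖ ≤ ζ * (CI * (1 / K)) := mul_le_mul_of_nonneg_left (y2 s hs1) ζ0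
          _ ≤ CI * (1 / K) * (2 * ζ) := by
            have : 0 ≤ ζ * (CI * (1 / K)) := by positivity
            linarith)
      (fun s hs1 => by
        rw [hφ]
        calc ζ * ‖C0 F B n z' s‖ ≤ ζ * (CI * (1 / K) * hs) := mul_le_mul_of_nonneg_left (y3 s hs1) ζ0
          _ ≤ CI * (1 / K) * (2 * ζ) * hs := by
            have : 0 ≤ ζ * (CI * (1 / K) * hs) := by positivity
            linarith)
    have J := hJ3 z 0 (CI * lam * (2 * ζ)) (ζ * (2 * CJ * (‖DJ F.leadingCoeff K‖ * (1 / K)))) _ w hz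
      (by positivity) (by positivity) hSol (fun l hl => by
        have := a1 (3 * l) (by omega)
        push_cast at this
        exact this) (by
        refine (a2 (-4) (by norm_num)).trans ?_
        gcongr) (fun l hl => by
        rw [hφ, mul_assoc]
        exact mul_le_mul_of_nonneg_left (y5 l hl) ζ0) (K - 1) (by omega)
    have e1 : 3 * ((K - 1 : ℕ) : ℤ) - 1 = (n : ℤ) - 3 := by
      rw [hnZ, Nat.cast_sub (by omega)]
      push_cast
      ring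
    have e2 : K - 1 + 1 = K := by omega
    rw [e1, e2, J4_Pi_top, norm_one, mul_one] at J
    have J2 : ‖w ((n : ℤ) - 3)‖ ≤ CJ * (2 * CI + 2 * CJ) * (κ * nb) * (lam / K) * ζ * hs := by
      refine J.trans ?_
      have h1 : Real.log K / K ≤ lam := by
        rw [hlam]
        gcongr
        linarith
      calc CJ * (‖DJ F.leadingCoeff K‖ * (K : ℝ) ^ (-(4 / 3) : ℝ) * (CI * lam * (2 * ζ)) +
            Real.log K / K * (ζ * (2 * CJ * (‖DJ F.leadingCoeff K‖ * (1 / K)))))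
          ≤ CJ * (‖DJ F.leadingCoeff K‖ * (1 / K) * (CI * lam * (2 * ζ)) +
            lam * (ζ * (2 * CJ * (‖DJ F.leadingCoeff K‖ * (1 / K))))) := by gcongr
        _ = _ := by rw [hD]; ring
    rw [J4_vop F B hJ]
    have e3 : (n : ℤ) + 1 = 3 * (K : ℤ) := by rw [hnZ]; ring
    have e4 : (n : ℤ) + 3 = 3 * (K : ℤ) + 2 := by rw [hnZ]; ring
    rw [e3, e4]
    have b1 : ‖w (3 * (K : ℤ))‖ ≤ (nb * (2 * CI * CH) + ν * (2 * CI)) * (lam / K) * ζ * hs := by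
      refine o2.trans ?_
      calc (nb * (CI * lam * (2 * ζ) * (CH * hs)) + (na + n3 + 1) * (CI * (1 / K) * (2 * ζ) * hs)) / K
          ≤ (nb * (CI * lam * (2 * ζ) * (CH * hs)) + ν * (CI * lam * (2 * ζ) * hs)) / K := by
            have : na + n3 + 1 ≤ ν := by rw [hν]; linarith
            gcongr
        _ = _ := by ring
    have b2 : ‖w (3 * (K : ℤ) + 2)‖ ≤ ν * (2 * CI) * (lam / K) * ζ * hs := by
      refine o3.trans ?_
      calc ν * (CI * (1 / K) * (2 * ζ) * hs) / K ≤ ν * (CI * lam * (2 * ζ) * hs) / K := by gcongr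
        _ = _ := by ring
    have b3 := mul_le_mul_of_nonneg_left J2 nb0.le
    have b4 := mul_le_mul_of_nonneg_left b1 na0.le
    have b5 := mul_le_mul_of_nonneg_left b2 n30
    have fin : CL * (lam / K) * ζ * hs = nb * (CJ * (2 * CI + 2 * CJ) * (κ * nb) * (lam / K) * ζ * hs) +
        na * ((nb * (2 * CI * CH) + ν * (2 * CI)) * (lam / K) * ζ * hs) +
        n3 * (ν * (2 * CI) * (lam / K) * ζ * hs) := by
      rw [hCL]
      ring
    rw [fin]
    refine (norm_add_le _ _).trans (add_le_add ((norm_add_le _ _).trans (add_le_add ?_ ?_)) ?_)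
    · rw [norm_mul]; exact b3
    · rw [norm_mul]; exact b4
    · rw [norm_mul]; exact b5
  have hM := M z hz
  have hCE2 : CE * (lam / K) * hs ≤ c₁ * (K : ℝ) ^ (-(5 / 3) : ℝ) * (nb * hs) := by
    have h1 : CE * (lam / K) ≤ c₁ * nb * (K : ℝ) ^ (-(5 / 3) : ℝ) := by
      have h2 := mul_le_mul_of_nonneg_left lam2 CE0.le
      refine h2.trans (le_of_eq ?_)
      field_simp
    calc CE * (lam / K) * hs ≤ c₁ * nb * (K : ℝ) ^ (-(5 / 3) : ℝ) * hs := by gcongr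
      _ = _ := by ring
  have hmain : ‖B.coeff 1 * (DJ F.leadingCoeff K * (rj K : ℂ))‖ = na * κ * (nb * hs) * |rj K| := by
    rw [norm_mul, norm_mul, hD, Complex.norm_real, Real.norm_eq_abs]
    ring
  have hlow : 2 * c₁ * (K : ℝ) ^ (-(5 / 3) : ℝ) * (nb * hs) ≤
      ‖B.coeff 1 * (DJ F.leadingCoeff K * (rj K : ℂ))‖ := by
    rw [hmain]
    have h1 : 1 / 4 * (K : ℝ) ^ (-(5 / 3) : ℝ) ≤ C1 * |rj K| := w4.trans (hr K).1
    have h2 : 2 * c₁ * (K : ℝ) ^ (-(5 / 3) : ℝ) ≤ na * κ * |rj K| := by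
      have h3 : 2 * c₁ * (K : ℝ) ^ (-(5 / 3) : ℝ) = na * κ / C1 * (1 / 4 * (K : ℝ) ^ (-(5 / 3) : ℝ)) := by
        rw [hc1]
        field_simp
        norm_num
      rw [h3]
      calc na * κ / C1 * (1 / 4 * (K : ℝ) ^ (-(5 / 3) : ℝ)) ≤ na * κ / C1 * (C1 * |rj K|) := by gcongr
        _ = na * κ * |rj K| := by field_simp
    calc 2 * c₁ * (K : ℝ) ^ (-(5 / 3) : ℝ) * (nb * hs) ≤ na * κ * |rj K| * (nb * hs) := by gcongr
      _ = _ := by ring
  have hupp : ‖B.coeff 1 * (DJ F.leadingCoeff K * (rj K : ℂ))‖ ≤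
      na * κ * C1 * (K : ℝ) ^ (-(5 / 3) : ℝ) * (nb * hs) := by
    rw [hmain]
    have h1 : |rj K| ≤ C1 * (K : ℝ) ^ (-(5 / 3) : ℝ) :=
      (hr K).2.trans (mul_le_mul_of_nonneg_left w3 hC1.le)
    calc na * κ * (nb * hs) * |rj K| ≤ na * κ * (nb * hs) * (C1 * (K : ℝ) ^ (-(5 / 3) : ℝ)) := by gcongr
      _ = _ := by ring
  set Mn := B.coeff 1 * (DJ F.leadingCoeff K * (rj K : ℂ)) with hMn
  refine ⟨?_, ?_, ?_⟩
  · have h1 := norm_sub_norm_le Mn (Mn - beta F B n z)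
    rw [sub_sub_cancel, norm_sub_rev Mn (beta F B n z)] at h1
    linarith
  · have h1 := norm_add_le (beta F B n z - Mn) Mn
    rw [sub_add_cancel] at h1
    have h2 : 0 ≤ CL / nb * (K : ℝ) ^ (-(5 / 3) : ℝ) * (nb * hs) := by positivity
    linarith
  · refine hL.trans ?_
    rw [w5]
    have h1 : CL * (lam / K) * ‖z - z'‖ * hs = CL / nb * (1 / K / K) * (1 + Real.log K) * ‖z - z'‖ * (nb * hs) := by
      rw [hlam]
      field_simp
    rw [h1]
    have h2 : CL / nb ≤ na * κ * C1 + c₁ + CL / nb := by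
      have : 0 ≤ na * κ * C1 + c₁ := by positivity
      linarith
    have h3 : 0 ≤ 1 + Real.log K := by linarith
    gcongr

end HillRoots
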