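import Pool.Agent.Lib.MP_e63cf8_mp.H.StmI

/-!
# J5: bad pairs for a cubic side without quadratic term against a cubic monomial
-/

set_option autoImplicit false

open Polynomial Filter Topology MeasureTheory Asymptotics

namespace HillRoots

/-- the size `‖a₃‖‖h_{n-3}‖` -/
private noncomputable def p_J5_H (P : ℂ[X]) (c : ℂ) (n : ℕ) : ℝ :=
  ‖P.leadingCoeff‖ * ‖hh 3 c n (n - 3)‖

/-- the power `n^{-(n mod 3)/3}` -/
private noncomputable def p_J5_r (n : ℕ) : ℝ := (n : ℝ) ^ (-(((n % 3 : ℕ) : ℝ) / 3))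

private lemma p_J5_log (κ : ℝ) (hκ : 0 < κ) :
    ∀ᶠ n : ℕ in atTop, Real.log n / n ≤ κ * p_J5_r n := by
  have h1 : (fun x : ℝ => Real.log x) =o[atTop] fun x : ℝ => x ^ (1 / 3 : ℝ) :=
    isLittleO_log_rpow_atTop (by norm_num)
  have h2 := h1.bound hκ
  have h3 := tendsto_natCast_atTop_atTop.eventually h2
  filter_upwards [h3, eventually_ge_atTop 1] with n hn hn1
  have hn1r : (1 : ℝ) ≤ n := by exact_mod_cast hn1
  have hn0 : (0 : ℝ) < n := by linarith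
  have hlog : Real.log n ≤ κ * (n : ℝ) ^ (1 / 3 : ℝ) := by
    have e1 : ‖Real.log (n : ℝ)‖ ≤ κ * ‖(n : ℝ) ^ (1 / 3 : ℝ)‖ := hn
    rw [Real.norm_eq_abs, Real.norm_eq_abs, abs_of_nonneg (Real.rpow_nonneg hn0.le _)] at e1
    exact (le_abs_self _).trans e1
  have hr : (n : ℝ) ^ (-(2 / 3) : ℝ) ≤ p_J5_r n := by
    unfold p_J5_r
    refine Real.rpow_le_rpow_of_exponent_le hn1r ?_
    have h4 : n % 3 ≤ 2 := by omega
    have h5 : ((n % 3 : ℕ) : ℝ) ≤ 2 := by exact_mod_cast h4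
    linarith
  have hpow : (n : ℝ) ^ (1 / 3 : ℝ) / n = (n : ℝ) ^ (-(2 / 3) : ℝ) := by
    rw [show (-(2 / 3) : ℝ) = 1 / 3 - 1 by norm_num, Real.rpow_sub hn0, Real.rpow_one]
  calc Real.log n / n ≤ κ * (n : ℝ) ^ (1 / 3 : ℝ) / n := by gcongr
    _ = κ * (n : ℝ) ^ (-(2 / 3) : ℝ) := by rw [mul_div_assoc, hpow]
    _ ≤ κ * p_J5_r n := by gcongr

private lemma p_J5_reg (hI3 : S_I3) (hI5 : S_I5) (hI6 : S_I6) (hH1 : S_H1)
    (P Q : ℂ[X]) (hP : P.coeff 0 = 0) (hQ : Q.coeff 0 = 0) (hdP : P.natDegree = 3)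
    (h2P : P.coeff 2 = 0) (h1P : P.coeff 1 ≠ 0) (c : ℂ) (g : ℂ → ℂ) (τ₀ K δ : ℝ)
    (hB : Branch P c g τ₀ K δ) :
    ∃ c₂ : ℝ, 0 < c₂ ∧ ∀ S : Set ℕ,
      Reg (beta P Q) (fun n => c₂ * (p_J5_r n * p_J5_H P c n)) S := by
  have hc3 : c ^ 3 = P.leadingCoeff := by rw [← hdP]; exact hB.hc
  have hlc : P.leadingCoeff ≠ 0 := by
    rw [← hc3]; exact pow_ne_zero _ hB.c0
  obtain ⟨c₁, c₂, hc₁, hc₂, h6⟩ := hI6 P c hP hdP h2P h1P hc3
  obtain ⟨C, hC, h3⟩ := hI3 P Q c g τ₀ K δ hP hQ hB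
  have h5 := hI5 P c g τ₀ K δ hP hdP h2P hB
  refine ⟨c₂, hc₂, fun S => ⟨c₁ / (2 * c₂), by positivity, fun η hη => ?_⟩⟩
  -- the small constant
  obtain ⟨κ, hκ, k1, k2, k3⟩ : ∃ κ : ℝ, 0 < κ ∧ 2 * C * κ ≤ c₁ / 2 ∧ 2 * C * κ ≤ c₂ ∧
      2 * C * κ ≤ η * c₂ := by
    refine ⟨min (c₁ / 2) (min c₂ (η * c₂)) / (2 * C), by positivity, ?_, ?_, ?_⟩ <;>
      rw [mul_div_cancel₀ _ (by positivity : (2 * C) ≠ 0)]
    · exact min_le_left _ _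
    · exact (min_le_right _ _).trans (min_le_left _ _)
    · exact (min_le_right _ _).trans (min_le_right _ _)
  have hev := (h6.and (h3.and (h5.and ((p_J5_log κ hκ).and (eventually_ge_atTop 3)))))
  obtain ⟨n₀, hn₀⟩ := eventually_atTop.mp hev
  refine ⟨n₀, fun n _ hn => ?_⟩
  obtain ⟨e6, e3, e5, elog, hn3⟩ := hn₀ n hn
  have hn0 : (0 : ℝ) < n := by
    have : 0 < n := by omega
    exact_mod_cast this
  have hH : 0 < p_J5_H P c n := by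
    unfold p_J5_H
    have h7 := (hH1 3 n c (by norm_num) hB.c0 (by omega)).2.1 (n - 3) (by omega)
    exact mul_pos (norm_pos_iff.mpr hlc) (norm_pos_iff.mpr h7)
  have hr : 0 < p_J5_r n := Real.rpow_pos_of_pos hn0 _
  have hRR : RR P c g n ≤ 2 * p_J5_H P c n := by
    unfold RR
    rw [hdP]
    have := mul_le_mul_of_nonneg_left e5.2 hH.le
    unfold p_J5_H at this ⊢
    linarith
  have hlogn : 0 ≤ Real.log n / n := by
    have : 0 ≤ Real.log (n : ℝ) := Real.log_natCast_nonneg n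
    positivity
  have hrH : 0 < p_J5_r n * p_J5_H P c n := mul_pos hr hH
  have key : C * (Real.log n / n) * RR P c g n ≤ 2 * C * κ * (p_J5_r n * p_J5_H P c n) := by
    calc C * (Real.log n / n) * RR P c g n
        ≤ C * (Real.log n / n) * (2 * p_J5_H P c n) := by gcongr
      _ ≤ C * (κ * p_J5_r n) * (2 * p_J5_H P c n) := by gcongr
      _ = 2 * C * κ * (p_J5_r n * p_J5_H P c n) := by ring
  have key1 := key.trans (mul_le_mul_of_nonneg_right k1 hrH.le)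
  have key2 := key.trans (mul_le_mul_of_nonneg_right k2 hrH.le)
  have key3 := key.trans (mul_le_mul_of_nonneg_right k3 hrH.le)
  refine ⟨mul_pos hc₂ hrH, fun z z' hz hz' => ?_⟩
  obtain ⟨a1, a2⟩ := e3 z z' hz hz'
  have b1 : c₁ * (p_J5_r n * p_J5_H P c n) ≤ ‖betaP P n‖ := by
    have := e6.1
    unfold p_J5_r p_J5_H
    rw [← mul_assoc]
    exact this
  have b2 : ‖betaP P n‖ ≤ c₂ * (p_J5_r n * p_J5_H P c n) := by
    have := e6.2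
    unfold p_J5_r p_J5_H
    rw [← mul_assoc]
    exact this
  have t1 : ‖betaP P n‖ ≤ ‖beta P Q n z‖ + ‖beta P Q n z - betaP P n‖ := by
    have := norm_sub_le (beta P Q n z) (beta P Q n z - betaP P n)
    rwa [sub_sub_cancel] at this
  have t2 : ‖beta P Q n z‖ ≤ ‖beta P Q n z - betaP P n‖ + ‖betaP P n‖ := by
    have := norm_add_le (beta P Q n z - betaP P n) (betaP P n)
    rwa [sub_add_cancel] at this
  refine ⟨?_, ?_, ?_⟩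
  · have e : c₁ / (2 * c₂) * (c₂ * (p_J5_r n * p_J5_H P c n)) =
        c₁ / 2 * (p_J5_r n * p_J5_H P c n) := by
      field_simp
    show c₁ / (2 * c₂) * (c₂ * (p_J5_r n * p_J5_H P c n)) ≤ _
    rw [e]
    linarith
  · show ‖beta P Q n z‖ ≤ 2 * (c₂ * (p_J5_r n * p_J5_H P c n))
    linarith
  · show ‖beta P Q n z - beta P Q n z'‖ ≤ η * ‖z - z'‖ * (c₂ * (p_J5_r n * p_J5_H P c n))
    calc ‖beta P Q n z - beta P Q n z'‖
        ≤ C * (Real.log n / n) * ‖z - z'‖ * RR P c g n := a2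
      _ = ‖z - z'‖ * (C * (Real.log n / n) * RR P c g n) := by ring
      _ ≤ ‖z - z'‖ * (η * c₂ * (p_J5_r n * p_J5_H P c n)) := by gcongr
      _ = η * ‖z - z'‖ * (c₂ * (p_J5_r n * p_J5_H P c n)) := by ring

private lemma p_J5_hh (c c' : ℂ) (h : ‖c‖ = ‖c'‖) (M n s : ℕ) : ‖hh M c n s‖ = ‖hh M c' n s‖ := by
  unfold hh
  rw [norm_mul, norm_mul, norm_pow, norm_pow, h]

private lemma p_J5_small (η : ℝ) (hη : 0 < η) :
    ∀ᶠ K : ℕ in atTop, (K : ℝ) ^ (-2 : ℝ) * (1 + Real.log K) ≤ η * (K : ℝ) ^ (-(5 / 3) : ℝ) := by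
  have h1 : (fun x : ℝ => Real.log x) =o[atTop] fun x : ℝ => x ^ (1 / 3 : ℝ) :=
    isLittleO_log_rpow_atTop (by norm_num)
  have h2 : (fun _ : ℝ => (1 : ℝ)) =o[atTop] fun x : ℝ => x ^ (1 / 3 : ℝ) := by
    refine isLittleO_const_left.mpr (Or.inr ?_)
    exact tendsto_norm_atTop_atTop.comp (tendsto_rpow_atTop (by norm_num))
  have h3 := (h2.add h1).bound hη
  have h4 := tendsto_natCast_atTop_atTop.eventually h3
  filter_upwards [h4, eventually_ge_atTop 1] with K hK hK1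
  have hK1r : (1 : ℝ) ≤ K := by exact_mod_cast hK1
  have hK0 : (0 : ℝ) < K := by linarith
  have e1 : ‖1 + Real.log (K : ℝ)‖ ≤ η * ‖(K : ℝ) ^ (1 / 3 : ℝ)‖ := hK
  rw [Real.norm_eq_abs, Real.norm_eq_abs, abs_of_nonneg (Real.rpow_nonneg hK0.le _)] at e1
  have e2 : 1 + Real.log (K : ℝ) ≤ η * (K : ℝ) ^ (1 / 3 : ℝ) := (le_abs_self _).trans e1
  have e3 : (K : ℝ) ^ (-2 : ℝ) * (K : ℝ) ^ (1 / 3 : ℝ) = (K : ℝ) ^ (-(5 / 3) : ℝ) := by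
    rw [← Real.rpow_add hK0]; norm_num
  calc (K : ℝ) ^ (-2 : ℝ) * (1 + Real.log K)
      ≤ (K : ℝ) ^ (-2 : ℝ) * (η * (K : ℝ) ^ (1 / 3 : ℝ)) := by gcongr
    _ = η * (K : ℝ) ^ (-(5 / 3) : ℝ) := by rw [← e3]; ring

private lemma p_J5_reg' (hJ4 : S_J4) (hH1 : S_H1) (P Q : ℂ[X]) (hJ : JHyp Q P) (c : ℂ) (g : ℂ → ℂ)
    (τ₀ K' δ : ℝ) (hB : Branch Q c g τ₀ K' δ) :
    ∃ d₂ : ℝ, 0 < d₂ ∧ Reg (beta Q P)
      (fun n => d₂ * ((((n : ℝ) + 1) / 3) ^ (-(5 / 3) : ℝ) * p_J5_H Q c n)) {n | Even n ∧ n % 3 = 2} := by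
  have hdQ : Q.natDegree = 3 := hJ.2.2.1
  have hlc : Q.leadingCoeff ≠ 0 := by
    rw [← hB.hc]; exact pow_ne_zero _ hB.c0
  obtain ⟨c₁, c₂, hc₁, hc₂, h4⟩ := hJ4 Q P c g τ₀ K' δ hJ hB
  refine ⟨c₂, hc₂, c₁ / c₂, by positivity, fun η hη => ?_⟩
  obtain ⟨K₀, hK₀⟩ := eventually_atTop.mp (h4.and ((p_J5_small η hη).and (eventually_ge_atTop 2)))
  refine ⟨3 * K₀, fun n hn hn0 => ?_⟩
  obtain ⟨-, hn3⟩ := hn
  obtain ⟨K, hK⟩ : ∃ K : ℕ, n = 3 * K - 1 := ⟨(n + 1) / 3, by omega⟩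
  have hK1 : 1 ≤ K := by omega
  have hKK : K₀ ≤ K := by omega
  obtain ⟨e4, es, hK2⟩ := hK₀ K hKK
  have hK0 : (0 : ℝ) < K := by exact_mod_cast hK1
  have hcast : ((n : ℝ) + 1) / 3 = K := by
    have : n + 1 = 3 * K := by omega
    have h : (n : ℝ) + 1 = 3 * K := by exact_mod_cast this
    rw [h]; field_simp
  have hHn : ‖Q.leadingCoeff‖ * ‖hh 3 c (3 * K - 1) (3 * K - 1 - 3)‖ = p_J5_H Q c n := by
    unfold p_J5_H; rw [hK]
  have hH : 0 < p_J5_H Q c n := by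
    unfold p_J5_H
    have h7 := (hH1 3 n c (by norm_num) hB.c0 (by omega)).2.1 (n - 3) (by omega)
    exact mul_pos (norm_pos_iff.mpr hlc) (norm_pos_iff.mpr h7)
  have hr : 0 < (K : ℝ) ^ (-(5 / 3) : ℝ) := Real.rpow_pos_of_pos hK0 _
  have hrH : 0 < (K : ℝ) ^ (-(5 / 3) : ℝ) * p_J5_H Q c n := mul_pos hr hH
  dsimp only
  rw [hcast]
  refine ⟨mul_pos hc₂ hrH, fun z z' hz hz' => ?_⟩
  obtain ⟨a1, a2, a3⟩ := e4 z z' hz hz'
  rw [hHn] at a1 a2 a3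
  rw [← hK] at a1 a2 a3
  refine ⟨?_, ?_, ?_⟩
  · calc c₁ / c₂ * (c₂ * ((K : ℝ) ^ (-(5 / 3) : ℝ) * p_J5_H Q c n))
        = c₁ * (K : ℝ) ^ (-(5 / 3) : ℝ) * p_J5_H Q c n := by field_simp
      _ ≤ ‖beta Q P n z‖ := a1
  · calc ‖beta Q P n z‖ ≤ c₂ * (K : ℝ) ^ (-(5 / 3) : ℝ) * p_J5_H Q c n := a2
      _ ≤ 2 * (c₂ * ((K : ℝ) ^ (-(5 / 3) : ℝ) * p_J5_H Q c n)) := by
          have := mul_pos hc₂ hrH
          linarith
  · calc ‖beta Q P n z - beta Q P n z'‖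
        ≤ c₂ * (K : ℝ) ^ (-2 : ℝ) * (1 + Real.log K) * ‖z - z'‖ * p_J5_H Q c n := a3
      _ = ((K : ℝ) ^ (-2 : ℝ) * (1 + Real.log K)) * (c₂ * ‖z - z'‖ * p_J5_H Q c n) := by ring
      _ ≤ (η * (K : ℝ) ^ (-(5 / 3) : ℝ)) * (c₂ * ‖z - z'‖ * p_J5_H Q c n) := by
          gcongr
      _ = η * ‖z - z'‖ * (c₂ * ((K : ℝ) ^ (-(5 / 3) : ℝ) * p_J5_H Q c n)) := by ring

private lemma p_J5_inf : ({n : ℕ | Even n ∧ n % 3 = 2} : Set ℕ).Infinite := by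
  refine Set.infinite_of_injective_forall_mem (f := fun k : ℕ => 6 * k + 2) ?_ ?_
  · intro a b h
    simp only at h
    omega
  · intro k
    exact ⟨⟨3 * k + 1, by ring⟩, by omega⟩

theorem p_J5 (hR3 : S_R3) (hI3 : S_I3) (hI5 : S_I5) (hI6 : S_I6) (hJ4 : S_J4) (hH1 : S_H1)
    (hF12 : S_F12) : S_J5 := by
  intro P Q hJ hlc
  obtain ⟨hQ, hP, hdQ, h1Q, h2Q, hdP, h2P, h1P⟩ := id hJ
  obtain ⟨c, g, τ₀, K, δ, hB⟩ := hR3 P (by omega)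
  obtain ⟨c', g', τ₀', K', δ', hB'⟩ := hR3 Q (by omega)
  have hcc : ‖c‖ = ‖c'‖ := by
    have e1 : ‖c‖ ^ 3 = ‖c'‖ ^ 3 := by
      have u1 := hB.hc
      have u2 := hB'.hc
      rw [hdP] at u1
      rw [hdQ] at u2
      rw [← norm_pow, ← norm_pow, u1, u2, hlc]
    exact (pow_left_inj₀ (norm_nonneg _) (norm_nonneg _) (by norm_num)).mp e1
  obtain ⟨c₂, hc₂, hreg⟩ := p_J5_reg hI3 hI5 hI6 hH1 P Q hP hQ hdP h2P h1P c g τ₀ K δ hB
  obtain ⟨d₂, hd₂, hreg'⟩ := p_J5_reg' hJ4 hH1 P Q hJ c' g' τ₀' K' δ' hB'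
  have hregS : Reg (beta P Q) (fun n => c₂ * ((n : ℝ) ^ (-(2 / 3) : ℝ) * p_J5_H P c n))
      {n | Even n ∧ n % 3 = 2} := by
    obtain ⟨ε, hε, h⟩ := hreg {n | Even n ∧ n % 3 = 2}
    refine ⟨ε, hε, fun η hη => ?_⟩
    obtain ⟨n₀, hn₀⟩ := h η hη
    refine ⟨n₀, fun n hn hnn => ?_⟩
    have e := hn₀ n hn hnn
    have hr : p_J5_r n = (n : ℝ) ^ (-(2 / 3) : ℝ) := by
      unfold p_J5_r
      rw [hn.2]
      norm_num
    dsimp only at e ⊢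
    rw [hr] at e
    exact e
  refine hF12 P Q _ _ _ hP hQ p_J5_inf (fun n hn => hn.1) hregS hreg' ?_
  have hlog : Tendsto (fun n : ℕ => Real.log n + (Real.log (c₂ / d₂) - 5 / 3 * Real.log 3)) atTop atTop :=
    tendsto_atTop_add_const_right _ _ (Real.tendsto_log_atTop.comp tendsto_natCast_atTop_atTop)
  refine tendsto_atTop_mono' _ ?_ hlog
  filter_upwards [eventually_ge_atTop 3] with n hn3
  have hn0 : (0 : ℝ) < n := by
    have : 0 < n := by omega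
    exact_mod_cast this
  have hlcP : P.leadingCoeff ≠ 0 := by
    rw [← hB.hc]; exact pow_ne_zero _ hB.c0
  have hH : 0 < p_J5_H P c n := by
    unfold p_J5_H
    have h7 := (hH1 3 n c (by norm_num) hB.c0 (by omega)).2.1 (n - 3) (by omega)
    exact mul_pos (norm_pos_iff.mpr hlcP) (norm_pos_iff.mpr h7)
  have hHH : p_J5_H Q c' n = p_J5_H P c n := by
    unfold p_J5_H
    rw [hlc, p_J5_hh c c' hcc]
  show _ ≤ |Real.log (c₂ * ((n : ℝ) ^ (-(2 / 3) : ℝ) * p_J5_H P c n) /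
    (d₂ * ((((n : ℝ) + 1) / 3) ^ (-(5 / 3) : ℝ) * p_J5_H Q c' n)))|
  rw [hHH]
  have hm : (0 : ℝ) < ((n : ℝ) + 1) / 3 := by positivity
  have ha : (0 : ℝ) < (n : ℝ) ^ (-(2 / 3) : ℝ) := Real.rpow_pos_of_pos hn0 _
  have hb : (0 : ℝ) < (((n : ℝ) + 1) / 3) ^ (-(5 / 3) : ℝ) := Real.rpow_pos_of_pos hm _
  have e1 : c₂ * ((n : ℝ) ^ (-(2 / 3) : ℝ) * p_J5_H P c n) /
      (d₂ * ((((n : ℝ) + 1) / 3) ^ (-(5 / 3) : ℝ) * p_J5_H P c n)) =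
      (c₂ / d₂) * ((n : ℝ) ^ (-(2 / 3) : ℝ) / (((n : ℝ) + 1) / 3) ^ (-(5 / 3) : ℝ)) := by
    have h1 := hd₂.ne'
    have h2 := hH.ne'
    have h3 := hb.ne'
    field_simp
  have e3 : Real.log (((n : ℝ) + 1) / 3) = Real.log ((n : ℝ) + 1) - Real.log 3 :=
    Real.log_div (by positivity) (by norm_num)
  rw [e1, Real.log_mul (div_pos hc₂ hd₂).ne' (div_pos ha hb).ne', Real.log_div ha.ne' hb.ne',
    Real.log_rpow hn0, Real.log_rpow hm, e3]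
  have e2 : Real.log n ≤ Real.log ((n : ℝ) + 1) := Real.log_le_log hn0 (by linarith)
  refine le_trans ?_ (le_abs_self _)
  linarith

end HillRoots
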