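import Pool.Agent.Lib.MP_e63cf8_mp.H.StmW

/-!
# MP_e63cf8_mp, piece W1: the integrals `Th` and `BB`
-/

open Filter Topology MeasureTheory Set

namespace HillRoots

private theorem w1_meas (α N : ℝ) : Measurable fun t : ℝ => (4 * t * (N - t)) ^ (-α) := by
  fun_prop

private theorem w1_nonneg {α N t : ℝ} (h0 : 0 ≤ t) (h1 : t ≤ N) :
    0 ≤ (4 * t * (N - t)) ^ (-α) :=
  Real.rpow_nonneg (mul_nonneg (by linarith) (by linarith)) _

private theorem w1_int {α N : ℝ} (h0 : 0 < α) (h1 : α < 1) (hN : 1 ≤ N) :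
    IntervalIntegrable (fun t : ℝ => (4 * t * (N - t)) ^ (-α)) volume 0 N := by
  have hA : IntervalIntegrable (fun t : ℝ => t ^ (-α)) volume 0 N :=
    intervalIntegral.intervalIntegrable_rpow' (by linarith)
  have hB : IntervalIntegrable (fun t : ℝ => (N - t) ^ (-α)) volume 0 N := by
    have h2 := (hA.comp_sub_left N).symm
    simpa using h2
  refine (hA.add hB).mono_fun (w1_meas α N).aestronglyMeasurable ?_
  refine (ae_restrict_iff' measurableSet_uIoc).2 (Eventually.of_forall fun t ht => ?_)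
  rw [uIoc_of_le (by linarith)] at ht
  obtain ⟨ht0, htN⟩ := ht
  have e1 : 0 ≤ t ^ (-α) := Real.rpow_nonneg ht0.le _
  have e2 : 0 ≤ (N - t) ^ (-α) := Real.rpow_nonneg (by linarith) _
  change ‖(4 * t * (N - t)) ^ (-α)‖ ≤ ‖t ^ (-α) + (N - t) ^ (-α)‖
  rw [Real.norm_of_nonneg (w1_nonneg ht0.le htN), Real.norm_of_nonneg (add_nonneg e1 e2)]
  rcases eq_or_lt_of_le htN with h | h
  · have h3 : 4 * t * (N - t) = 0 := by rw [h]; ring
    rw [h3, Real.zero_rpow (by linarith)]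
    exact add_nonneg e1 e2
  · have hNt : 0 < N - t := by linarith
    rcases le_total t (N / 2) with h4 | h4
    · have h5 : t ≤ 4 * t * (N - t) := by nlinarith
      have h6 := Real.rpow_le_rpow_of_nonpos ht0 h5 (by linarith : -α ≤ 0)
      linarith
    · have h5 : N - t ≤ 4 * t * (N - t) := by nlinarith
      have h6 := Real.rpow_le_rpow_of_nonpos hNt h5 (by linarith : -α ≤ 0)
      linarith

private theorem w1_int' {α N a b : ℝ} (h0 : 0 < α) (h1 : α < 1) (hN : 1 ≤ N) (ha : 0 ≤ a)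
    (haN : a ≤ N) (hb : 0 ≤ b) (hbN : b ≤ N) :
    IntervalIntegrable (fun t : ℝ => (4 * t * (N - t)) ^ (-α)) volume a b := by
  refine (w1_int h0 h1 hN).mono_set ?_
  rw [uIcc_of_le (by linarith : (0 : ℝ) ≤ N)]
  intro x hx
  rw [mem_uIcc] at hx
  rcases hx with hx | hx
  · exact ⟨by linarith, by linarith⟩
  · exact ⟨by linarith, by linarith⟩

private theorem w1_pos {α : ℝ} (h0 : 0 < α) (h1 : α < 1) :
    0 < ∫ u in (0 : ℝ)..1, (4 * u * (1 - u)) ^ (-α) := by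
  refine intervalIntegral.intervalIntegral_pos_of_pos_on (w1_int h0 h1 le_rfl) ?_ one_pos
  intro x hx
  exact Real.rpow_pos_of_pos (mul_pos (by linarith [hx.1]) (by linarith [hx.2])) _

private theorem w1_total {α N : ℝ} (hN : 1 ≤ N) :
    ∫ t in (0 : ℝ)..N, (4 * t * (N - t)) ^ (-α) =
      (∫ u in (0 : ℝ)..1, (4 * u * (1 - u)) ^ (-α)) * N ^ (1 - 2 * α) := by
  have hN0 : 0 < N := by linarith
  have h2 := intervalIntegral.integral_comp_mul_left (a := 0) (b := 1)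
    (fun t : ℝ => (4 * t * (N - t)) ^ (-α)) hN0.ne'
  have h3 : ∫ u in (0 : ℝ)..1, (4 * (N * u) * (N - N * u)) ^ (-α) =
      N ^ (-(2 * α)) * ∫ u in (0 : ℝ)..1, (4 * u * (1 - u)) ^ (-α) := by
    rw [← intervalIntegral.integral_const_mul]
    refine intervalIntegral.integral_congr fun u hu => ?_
    rw [uIcc_of_le (zero_le_one' ℝ)] at hu
    have h4 : 4 * (N * u) * (N - N * u) = (N ^ 2) * (4 * u * (1 - u)) := by ring
    have h5 : 0 ≤ 4 * u * (1 - u) := mul_nonneg (by linarith [hu.1]) (by linarith [hu.2])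
    change (4 * (N * u) * (N - N * u)) ^ (-α) = N ^ (-(2 * α)) * (4 * u * (1 - u)) ^ (-α)
    rw [h4, Real.mul_rpow (by positivity) h5, ← Real.rpow_natCast N 2, ← Real.rpow_mul hN0.le]
    congr 2
    push_cast
    ring
  simp only [mul_zero, mul_one, smul_eq_mul] at h2
  rw [h3] at h2
  have h6 : ∫ t in (0 : ℝ)..N, (4 * t * (N - t)) ^ (-α) =
      N * (N ^ (-(2 * α)) * ∫ u in (0 : ℝ)..1, (4 * u * (1 - u)) ^ (-α)) := by
    rw [h2, ← mul_assoc, mul_inv_cancel₀ hN0.ne', one_mul]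
  have h7 : N ^ (1 - 2 * α) = N * N ^ (-(2 * α)) := by
    rw [sub_eq_add_neg, Real.rpow_add hN0, Real.rpow_one]
  rw [h6, h7]
  ring

private theorem w1_refl {α N s : ℝ} :
    ∫ t in (0 : ℝ)..(N - s), (4 * t * (N - t)) ^ (-α) =
      ∫ t in s..N, (4 * t * (N - t)) ^ (-α) := by
  have h2 := intervalIntegral.integral_comp_sub_left (a := 0) (b := N - s)
    (fun t : ℝ => (4 * t * (N - t)) ^ (-α)) N
  simp only [sub_zero, sub_sub_cancel] at h2
  rw [← h2]
  refine intervalIntegral.integral_congr fun t _ => ?_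
  change (4 * t * (N - t)) ^ (-α) = (4 * (N - t) * t) ^ (-α)
  congr 1
  ring

private theorem w1_q {α q x : ℝ} (h0 : 0 < α) (h1 : α < 1) (hq : 1 / 4 ≤ q)
    (hq1 : q ≤ 1 + 6 * x) (hq2 : 1 - 3 * x ≤ q) (hx : 0 ≤ x) : |q ^ (-α) - 1| ≤ 12 * x := by
  have hq0 : 0 < q := by linarith
  have hinv : q ^ (-1 : ℝ) = q⁻¹ := by rw [Real.rpow_neg_one]
  rcases le_total q 1 with h | h
  · have e1 : 1 ≤ q ^ (-α) := Real.one_le_rpow_of_pos_of_le_one_of_nonpos hq0 h (by linarith)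
    have e2 : q ^ (-α) ≤ q ^ (-1 : ℝ) :=
      Real.rpow_le_rpow_of_exponent_ge hq0 h (by linarith)
    rw [hinv] at e2
    have e3 : q⁻¹ - 1 ≤ 4 * (1 - q) := by
      have e4 : q⁻¹ ≤ 4 := by
        rw [inv_le_comm₀ hq0 (by norm_num)]
        linarith
      have e5 : q⁻¹ - 1 = q⁻¹ * (1 - q) := by
        rw [mul_sub, mul_one, inv_mul_cancel₀ hq0.ne']
      rw [e5]
      exact mul_le_mul_of_nonneg_right e4 (by linarith)
    rw [abs_of_nonneg (by linarith)]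
    linarith
  · have e1 : q ^ (-α) ≤ 1 := Real.rpow_le_one_of_one_le_of_nonpos h (by linarith)
    have e2 : q ^ (-1 : ℝ) ≤ q ^ (-α) :=
      Real.rpow_le_rpow_of_exponent_le h (by linarith)
    rw [hinv] at e2
    have e3 : 1 - q⁻¹ ≤ q - 1 := by
      have e4 : q⁻¹ ≤ 1 := inv_le_one_of_one_le₀ h
      have e5 : 1 - q⁻¹ = q⁻¹ * (q - 1) := by
        rw [mul_sub, mul_one, inv_mul_cancel₀ hq0.ne']
      rw [e5]
      have := mul_le_mul_of_nonneg_right e4 (by linarith : 0 ≤ q - 1)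
      linarith
    rw [abs_of_nonpos (by linarith)]
    linarith

private theorem w1_diff {α N s t : ℝ} (h0 : 0 < α) (h1 : α < 1) (hs : 4 ≤ s)
    (hsN : 3 * s ≤ 2 * N) (ht : s - 3 ≤ t) (hts : t ≤ s) :
    |(4 * t * (N - t)) ^ (-α) - (4 * s * (N - s)) ^ (-α)| ≤
      12 * (4 * s * (N - s)) ^ (-α) / s := by
  have hs0 : 0 < s := by linarith
  have hNs : s / 2 ≤ N - s := by linarith
  have hNs0 : 0 < N - s := by linarith
  have hE : 0 < 4 * s * (N - s) := mul_pos (by linarith) hNs0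
  have hF : 0 ≤ (4 * s * (N - s)) ^ (-α) := Real.rpow_nonneg hE.le _
  set q : ℝ := (t * (N - t)) / (s * (N - s)) with hq
  have hsp : 0 < s * (N - s) := mul_pos hs0 hNs0
  have hmul : 4 * t * (N - t) = (4 * s * (N - s)) * q := by
    rw [hq]
    field_simp
  have hx : 0 ≤ 1 / s := by positivity
  have hq1 : 1 / 4 ≤ q := by
    rw [hq, le_div_iff₀ hsp]
    have e1 : s / 4 ≤ t := by linarith
    nlinarith [mul_le_mul e1 (by linarith : N - s ≤ N - t) hNs0.le (by linarith : 0 ≤ t)]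
  have hq2 : q ≤ 1 + 6 * (1 / s) := by
    rw [hq, div_le_iff₀ hsp]
    have e2 : (1 + 6 * (1 / s)) * (s * (N - s)) = (s + 6) * (N - s) := by
      field_simp
    rw [e2]
    nlinarith
  have hq3 : 1 - 3 * (1 / s) ≤ q := by
    rw [hq, le_div_iff₀ hsp]
    have e2 : (1 - 3 * (1 / s)) * (s * (N - s)) = (s - 3) * (N - s) := by
      field_simp
    rw [e2]
    nlinarith
  have hq0 : 0 ≤ q := by linarith
  have key := w1_q h0 h1 hq1 hq2 hq3 hx
  have e3 : (4 * t * (N - t)) ^ (-α) - (4 * s * (N - s)) ^ (-α) =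
      (4 * s * (N - s)) ^ (-α) * (q ^ (-α) - 1) := by
    rw [hmul, Real.mul_rpow hE.le hq0]
    ring
  rw [e3, abs_mul, abs_of_nonneg hF]
  have e4 : 12 * (4 * s * (N - s)) ^ (-α) / s = (4 * s * (N - s)) ^ (-α) * (12 * (1 / s)) := by
    ring
  rw [e4]
  exact mul_le_mul_of_nonneg_left key hF

theorem p_W1 : S_W1 := by
  intro r hr
  have h0 : (0 : ℝ) < (r : ℝ) / 3 := by
    rcases hr with rfl | rfl <;> norm_num
  have h1 : (r : ℝ) / 3 < 1 := by
    rcases hr with rfl | rfl <;> norm_num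
  have hmono : ∀ (n : ℕ) (s s' : ℝ), 1 ≤ n → 0 ≤ s → s ≤ s' → s' ≤ n →
      Th r n s' = Th r n s + ∫ t in s..s', (4 * t * ((n : ℝ) - t)) ^ (-((r : ℝ) / 3)) := by
    intro n s s' hn hs hss hs'
    have hN : (1 : ℝ) ≤ n := by exact_mod_cast hn
    unfold Th
    rw [intervalIntegral.integral_add_adjacent_intervals
      (w1_int' h0 h1 hN le_rfl (by linarith) hs (by linarith))
      (w1_int' h0 h1 hN hs (by linarith) (by linarith) hs')]
  have hnn : ∀ (n : ℕ) (s s' : ℝ), 0 ≤ s → s ≤ s' → s' ≤ n →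
      0 ≤ ∫ t in s..s', (4 * t * ((n : ℝ) - t)) ^ (-((r : ℝ) / 3)) := by
    intro n s s' hs hss hs'
    refine intervalIntegral.integral_nonneg hss fun u hu => w1_nonneg ?_ ?_
    · linarith [hu.1]
    · linarith [hu.2]
  have hTh0 : ∀ (n : ℕ) (s : ℝ), 0 ≤ s → s ≤ n → 0 ≤ Th r n s := fun n s hs hsn =>
    hnn n 0 s le_rfl hs hsn
  have hsum : ∀ (n : ℕ) (s : ℝ), 1 ≤ n → 0 ≤ s → s ≤ n →
      Th r n s + Th r n ((n : ℝ) - s) = BB r * (n : ℝ) ^ (1 - 2 * (r : ℝ) / 3) := by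
    intro n s hn hs hsn
    have hN : (1 : ℝ) ≤ n := by exact_mod_cast hn
    have e1 : Th r n ((n : ℝ) - s) = ∫ t in s..(n : ℝ), (4 * t * ((n : ℝ) - t)) ^ (-((r : ℝ) / 3)) :=
      w1_refl
    rw [e1, ← hmono n s n hn hs hsn le_rfl]
    have e2 : (1 : ℝ) - 2 * (r : ℝ) / 3 = 1 - 2 * ((r : ℝ) / 3) := by ring
    rw [e2]
    exact w1_total hN
  refine ⟨w1_pos h0 h1, fun n s hn hs hsn => ⟨hsum n s hn hs hsn, hTh0 n s hs hsn, ?_⟩, ?_, ?_⟩
  · have e1 := hsum n s hn hs hsn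
    have e2 := hTh0 n ((n : ℝ) - s) (by linarith) (by linarith)
    linarith
  · intro n s s' hn hs hss hs'
    have e1 := hmono n s s' hn hs hss hs'
    have e2 := hnn n s s' hs hss hs'
    linarith
  · refine ⟨36, by norm_num, fun n s j hn hs hsn hj1 hj3 => ?_⟩
    have hN : (1 : ℝ) ≤ n := by exact_mod_cast hn
    have hs4 : (4 : ℝ) ≤ s := by exact_mod_cast hs
    have hs2 : 3 * (s : ℝ) ≤ 2 * n := by exact_mod_cast hsn
    have hj : (1 : ℝ) ≤ j := by exact_mod_cast hj1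
    have hj' : (j : ℝ) ≤ 3 := by exact_mod_cast hj3
    have hEn : En n s = 4 * (s : ℝ) * ((n : ℝ) - s) := by
      unfold En
      push_cast
      ring
    rw [hEn]
    have e1 := hmono n ((s : ℝ) - j) s hn (by linarith) (by linarith) (by linarith)
    have e2 : (∫ t in ((s : ℝ) - j)..(s : ℝ), ((4 * t * ((n : ℝ) - t)) ^ (-((r : ℝ) / 3)) -
        (4 * (s : ℝ) * ((n : ℝ) - s)) ^ (-((r : ℝ) / 3)))) =
        (∫ t in ((s : ℝ) - j)..(s : ℝ), (4 * t * ((n : ℝ) - t)) ^ (-((r : ℝ) / 3))) -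
        (j : ℝ) * (4 * (s : ℝ) * ((n : ℝ) - s)) ^ (-((r : ℝ) / 3)) := by
      rw [intervalIntegral.integral_sub
        (w1_int' h0 h1 hN (by linarith) (by linarith) (by linarith) (by linarith))
        intervalIntegrable_const, intervalIntegral.integral_const, smul_eq_mul]
      congr 2
      ring
    have e3 : Th r n s - Th r n ((s : ℝ) - j) -
        j * (4 * (s : ℝ) * ((n : ℝ) - s)) ^ (-((r : ℝ) / 3)) =
        ∫ t in ((s : ℝ) - j)..(s : ℝ), ((4 * t * ((n : ℝ) - t)) ^ (-((r : ℝ) / 3)) -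
        (4 * (s : ℝ) * ((n : ℝ) - s)) ^ (-((r : ℝ) / 3))) := by
      rw [e2, e1]
      ring
    rw [e3]
    have e4 := intervalIntegral.norm_integral_le_of_norm_le_const (a := (s : ℝ) - j)
      (b := (s : ℝ)) (C := 12 * (4 * (s : ℝ) * ((n : ℝ) - s)) ^ (-((r : ℝ) / 3)) / s)
      (f := fun t : ℝ => (4 * t * ((n : ℝ) - t)) ^ (-((r : ℝ) / 3)) -
        (4 * (s : ℝ) * ((n : ℝ) - s)) ^ (-((r : ℝ) / 3))) ?_
    · rw [Real.norm_eq_abs] at e4
      refine e4.trans ?_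
      have e5 : |(s : ℝ) - ((s : ℝ) - j)| = j := by
        rw [sub_sub_cancel, abs_of_nonneg (by linarith)]
      rw [e5]
      have hF : 0 ≤ 12 * (4 * (s : ℝ) * ((n : ℝ) - s)) ^ (-((r : ℝ) / 3)) / s := by
        have := w1_nonneg (α := (r : ℝ) / 3) (N := n) (t := s) (by linarith) (by linarith)
        positivity
      calc 12 * (4 * (s : ℝ) * ((n : ℝ) - s)) ^ (-((r : ℝ) / 3)) / s * (j : ℝ)
          ≤ 12 * (4 * (s : ℝ) * ((n : ℝ) - s)) ^ (-((r : ℝ) / 3)) / s * 3 :=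
            mul_le_mul_of_nonneg_left hj' hF
        _ = 36 * (4 * (s : ℝ) * ((n : ℝ) - s)) ^ (-((r : ℝ) / 3)) / s := by ring
    · intro t ht
      rw [uIoc_of_le (by linarith)] at ht
      rw [Real.norm_eq_abs]
      exact w1_diff h0 h1 hs4 hs2 (by linarith [ht.1]) ht.2

end HillRoots
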