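import Pool.Agent.Lib.MP_e63cf8_mp.H.StmW
import Pool.Agent.Lib.MP_e63cf8_mp.P.X12

/-!
# MP_e63cf8_mp, piece W2: the products `G` for cubic sides
-/

open Polynomial Filter Topology MeasureTheory Asymptotics

namespace HillRoots

/-- the largest exponent is the one of the branch `0` -/
private theorem w2_le (P : ℂ[X]) (c : ℂ) (g : ℂ → ℂ) (τ₀ K δ : ℝ) (hdeg : P.natDegree = 3)
    (hB : Branch P c g τ₀ K δ) (d : ℂ) (hg : AnalyticAt ℂ g 0) (hd : HasDerivAt g d 0) :
    ∀ l < 3, (d * (c * om 3 ^ l)).re ≤ (d * c).re := by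
  have hτ : 0 < τ₀ := hB.ld.ht
  have hlim : ∀ x : ℂ, Tendsto (fun t : ℝ => Real.log ‖g (x * t)‖ / t) (𝓝[>] 0) (𝓝 (d * x).re) := by
    intro x
    have hO := (p_X12_exp g hg hB.one d hd x).mono (nhdsWithin_le_nhds (s := Set.Ioi 0))
    have h1 : (fun t : ℝ => Real.log ‖g (x * t)‖ / t - (d * x).re) =O[𝓝[>] 0] (fun t : ℝ => t) := by
      have h2 := hO.mul (isBigO_refl (fun t : ℝ => t⁻¹) (𝓝[>] 0))
      refine h2.congr' ?_ ?_
      · filter_upwards [self_mem_nhdsWithin] with t ht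
        have ht' : t ≠ 0 := ne_of_gt ht
        field_simp
      · filter_upwards [self_mem_nhdsWithin] with t ht
        have ht' : t ≠ 0 := ne_of_gt ht
        field_simp
    have h3 : Tendsto (fun t : ℝ => t) (𝓝[>] 0) (𝓝 0) := tendsto_nhdsWithin_of_tendsto_nhds tendsto_id
    have h4 := h1.trans_tendsto h3
    have h5 := h4.add_const ((d * x).re)
    simpa using h5
  intro l hl
  have ha := hlim (c * om 3 ^ l)
  have hb := hlim c
  refine le_of_tendsto_of_tendsto ha hb ?_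
  have hnear : ∀ x : ℂ, ∀ᶠ t : ℝ in 𝓝[>] 0, 0 < ‖g (x * t)‖ := by
    intro x
    have hcont : ContinuousAt (fun t : ℝ => ‖g (x * (t : ℂ))‖) 0 := by
      have h1 : ContinuousAt g (x * ((0 : ℝ) : ℂ)) := by
        simpa using hg.continuousAt
      have h2 : ContinuousAt (fun t : ℝ => x * (t : ℂ)) 0 := by fun_prop
      exact (ContinuousAt.comp (f := fun t : ℝ => x * (t : ℂ)) h1 h2).norm
    have h3 : (0 : ℝ) < ‖g (x * ((0 : ℝ) : ℂ))‖ := by simp [hB.one]
    exact (hcont.eventually_const_lt h3).filter_mono nhdsWithin_le_nhds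
  have hIoo : Set.Ioc (0 : ℝ) τ₀ ∈ 𝓝[>] (0 : ℝ) := Ioc_mem_nhdsGT hτ
  filter_upwards [self_mem_nhdsWithin, hIoo, hnear (c * om 3 ^ l), hnear c] with t ht htI h1 h2
  have hdom := hB.ld.dom l (by rw [hdeg]; exact hl) t ⟨htI.1.le, htI.2⟩
  rw [p_X12_brnorm, p_X12_brnorm, hdeg] at hdom
  have : c * om 3 ^ 0 = c := by simp
  rw [this] at hdom
  have ht0 : (0 : ℝ) < t := ht
  exact div_le_div_of_nonneg_right (Real.log_le_log h1 hdom) ht0.le

/-- `1 + ω + ω² = 0` -/
private theorem w2_om : (1 : ℂ) + om 3 + om 3 ^ 2 = 0 := by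
  have hpr : IsPrimitiveRoot (om 3) 3 := by
    have := Complex.isPrimitiveRoot_exp 3 (by norm_num)
    simpa [om] using this
  have h := hpr.geom_sum_eq_zero (by norm_num)
  simpa [Finset.sum_range_succ] using h

theorem p_W2 (hV : S_V1c) (hU : S_U1) (hW1 : S_W1) (hW1b : S_W1b) : S_W2 := by
  intro P c g τ₀ K δ hP0 hdeg hB
  obtain ⟨hg, hd⟩ := p_X12_deriv P c g τ₀ K δ (by omega) hB
  set d : ℂ := P.coeff (P.natDegree - 1) / (P.natDegree * P.leadingCoeff) with hdd
  have hxi : ∀ l, xi P c l = d * (c * om 3 ^ l) := by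
    intro l
    unfold xi
    rw [hdd, hdeg]
    norm_num
  have hxi0 : xi P c 0 = d * c := by
    rw [hxi, pow_zero, mul_one]
  have hle : ∀ l < 3, (xi P c l).re ≤ (xi P c 0).re := by
    intro l hl
    rw [hxi l, hxi0]
    exact w2_le P c g τ₀ K δ hdeg hB d hg hd l hl
  refine ⟨hle, ?_, ?_⟩
  · have hsum : xi P c 0 + xi P c 1 + xi P c 2 = 0 := by
      rw [hxi, hxi, hxi]
      have := w2_om
      linear_combination d * c * this
    have h1 := congrArg Complex.re hsum
    simp only [Complex.add_re, Complex.zero_re] at h1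
    have h2 := hle 1 (by norm_num)
    have h3 := hle 2 (by norm_num)
    linarith
  · have hτ₀ : 0 < τ₀ := hB.ld.ht
    obtain ⟨C₁, hC₁⟩ := (p_X12_exp g hg hB.one d hd c).bound
    obtain ⟨τ₁, hτ₁, hb⟩ := Metric.eventually_nhds_iff.1 hC₁
    obtain ⟨C₂, hC₂, hb2⟩ := hW1b.2.2
    set ε : ℝ := min τ₀ (τ₁ / 2) with hε
    have hε0 : 0 < ε := lt_min hτ₀ (by positivity)
    set D : ℝ := |C₁| + |(xi P c 0).re| * C₂ with hD
    refine ⟨Real.exp D, Real.exp_pos _, ?_⟩
    have hV' := hV (2 / 3) 1 (by norm_num) (by norm_num)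
    have hsmall : ∀ᶠ n : ℕ in atTop,
        ∑ k ∈ Finset.Icc 1 (n - 1), (En n k) ^ (-(2 / 3) : ℝ) < 1 :=
      hV'.eventually_lt_const (by norm_num)
    filter_upwards [hsmall, hU 3 ε (by norm_num) hε0, eventually_ge_atTop 2] with n h1 h2 hn s hs
    have hEnn : ∀ k : ℕ, k < n → 0 ≤ En n k := by
      intro k hk
      have hkn : (k : ℝ) ≤ n := by exact_mod_cast hk.le
      have h3 : (0 : ℝ) ≤ (n : ℝ) - k := by linarith
      unfold En
      push_cast
      positivity
    have htau1 : ∀ k : ℕ, k < n → tau 3 n k = (En n k) ^ (-(1 / 3) : ℝ) := by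
      intro k hk
      unfold tau En
      norm_num
    have htau2 : ∀ k : ℕ, k < n → tau 3 n k ^ 2 = (En n k) ^ (-(2 / 3) : ℝ) := by
      intro k hk
      rw [htau1 k hk, ← Real.rpow_natCast, ← Real.rpow_mul (hEnn k hk)]
      norm_num
    have hmem : ∀ k : ℕ, k < n → tau 3 n k ∈ Set.Icc 0 ε := h2
    have hpos : ∀ k : ℕ, k < n → 0 < ‖br 3 c g 0 (tau 3 n k)‖ := by
      intro k hk
      have h3 := hB.ld.low 0 (by rw [hdeg]; norm_num) (tau 3 n k)
        ⟨(hmem k hk).1, (hmem k hk).2.trans (min_le_left _ _)⟩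
      rw [hdeg] at h3
      linarith
    have hGG : 0 < GG 3 c g n s := by
      unfold GG
      refine Finset.prod_pos fun k hk => ?_
      rw [Finset.mem_Icc] at hk
      exact hpos k (by omega)
    have hlogG : Real.log (GG 3 c g n s) =
        ∑ k ∈ Finset.Icc 1 s, Real.log ‖br 3 c g 0 (tau 3 n k)‖ := by
      unfold GG
      refine Real.log_prod fun k hk => ?_
      rw [Finset.mem_Icc] at hk
      exact (hpos k (by omega)).ne'
    have hone : ∀ k ∈ Finset.Icc 1 s,
        |Real.log ‖br 3 c g 0 (tau 3 n k)‖ - tau 3 n k * (d * c).re| ≤ |C₁| * tau 3 n k ^ 2 := by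
      intro k hk
      rw [Finset.mem_Icc] at hk
      have hkn : k < n := by omega
      have h3 := hmem k hkn
      have h4 : dist (tau 3 n k) 0 < τ₁ := by
        rw [Real.dist_eq, sub_zero, abs_of_nonneg h3.1]
        have : ε ≤ τ₁ / 2 := min_le_right _ _
        linarith [h3.2]
      have h5 := hb h4
      rw [Real.norm_eq_abs, Real.norm_eq_abs, abs_of_nonneg (sq_nonneg (tau 3 n k))] at h5
      have h6 : ‖br 3 c g 0 (tau 3 n k)‖ = ‖g (c * (tau 3 n k : ℂ))‖ := by
        rw [p_X12_brnorm, pow_zero, mul_one]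
      rw [h6]
      refine h5.trans ?_
      exact mul_le_mul_of_nonneg_right (le_abs_self _) (sq_nonneg _)
    have hsum1 : |Real.log (GG 3 c g n s) - (d * c).re * ∑ k ∈ Finset.Icc 1 s, tau 3 n k| ≤ |C₁| := by
      rw [hlogG, Finset.mul_sum, ← Finset.sum_sub_distrib]
      refine (Finset.abs_sum_le_sum_abs _ _).trans ?_
      have h3 : ∀ k ∈ Finset.Icc 1 s,
          |Real.log ‖br 3 c g 0 (tau 3 n k)‖ - (d * c).re * tau 3 n k| ≤ |C₁| * tau 3 n k ^ 2 := by
        intro k hk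
        rw [mul_comm (d * c).re]
        exact hone k hk
      refine (Finset.sum_le_sum h3).trans ?_
      rw [← Finset.mul_sum]
      have h4 : ∑ k ∈ Finset.Icc 1 s, tau 3 n k ^ 2 ≤ 1 := by
        have h5 : ∑ k ∈ Finset.Icc 1 s, tau 3 n k ^ 2 ≤ ∑ k ∈ Finset.Icc 1 (n - 1), tau 3 n k ^ 2 := by
          refine Finset.sum_le_sum_of_subset_of_nonneg ?_ fun k _ _ => sq_nonneg _
          intro k hk
          rw [Finset.mem_Icc] at hk ⊢
          omega
        have h6 : ∑ k ∈ Finset.Icc 1 (n - 1), tau 3 n k ^ 2 =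
            ∑ k ∈ Finset.Icc 1 (n - 1), (En n k) ^ (-(2 / 3) : ℝ) := by
          refine Finset.sum_congr rfl fun k hk => ?_
          rw [Finset.mem_Icc] at hk
          exact htau2 k (by omega)
        linarith
      have h7 := abs_nonneg C₁
      nlinarith
    have hsum2 : |∑ k ∈ Finset.Icc 1 s, tau 3 n k - Th 1 n s| ≤ C₂ := by
      have h3 : ∑ k ∈ Finset.Icc 1 s, tau 3 n k = ∑ k ∈ Finset.Icc 1 s, (En n k) ^ (-(1 / 3) : ℝ) := by
        refine Finset.sum_congr rfl fun k hk => ?_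
        rw [Finset.mem_Icc] at hk
        exact htau1 k (by omega)
      rw [h3]
      refine (hb2 n s hn hs).trans ?_
      have h4 : (n : ℝ) ^ (-(1 / 3) : ℝ) ≤ 1 := by
        refine Real.rpow_le_one_of_one_le_of_nonpos ?_ (by norm_num)
        have : 1 ≤ n := by omega
        exact_mod_cast this
      nlinarith
    have hmain : |Real.log (GG 3 c g n s) - (xi P c 0).re * Th 1 n s| ≤ D := by
      have h3 : Real.log (GG 3 c g n s) - (xi P c 0).re * Th 1 n s =
          (Real.log (GG 3 c g n s) - (d * c).re * ∑ k ∈ Finset.Icc 1 s, tau 3 n k) +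
          (xi P c 0).re * (∑ k ∈ Finset.Icc 1 s, tau 3 n k - Th 1 n s) := by
        rw [hxi0]
        ring
      rw [h3]
      refine (abs_add_le _ _).trans ?_
      rw [abs_mul, hD]
      have h4 := mul_le_mul_of_nonneg_left hsum2 (abs_nonneg (xi P c 0).re)
      linarith
    have hG : GG 3 c g n s = Real.exp (Real.log (GG 3 c g n s)) := (Real.exp_log hGG).symm
    obtain ⟨h3, h4⟩ := abs_le.1 hmain
    constructor
    · rw [hG, ← Real.exp_add]
      refine Real.exp_le_exp.2 ?_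
      linarith
    · rw [hG, ← Real.exp_add]
      refine Real.exp_le_exp.2 ?_
      linarith

end HillRoots
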