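import Pool.Agent.Lib.MP_e63cf8_mp.H.StmW

/-!
# Project HL (MP_e63cf8_mp), piece W3: the approximate solution satisfies the recursion up to a
small error
-/

open Polynomial Filter Topology MeasureTheory Asymptotics

namespace HillRoots

private theorem W3_exp1 (x : ℂ) : ‖Complex.exp x - 1‖ ≤ ‖x‖ * Real.exp ‖x‖ := by
  have h := Complex.norm_exp_sub_sum_le_norm_mul_exp x 1
  simpa using h

private theorem W3_exp2 (x : ℂ) : ‖Complex.exp x - (1 + x)‖ ≤ ‖x‖ ^ 2 * Real.exp ‖x‖ := by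
  have h := Complex.norm_exp_sub_sum_le_norm_mul_exp x 2
  simpa [Finset.sum_range_succ] using h

private theorem W3_exp3 (x : ℂ) :
    ‖Complex.exp x - (1 + x + x ^ 2 / 2)‖ ≤ ‖x‖ ^ 3 * Real.exp ‖x‖ := by
  have h := Complex.norm_exp_sub_sum_le_norm_mul_exp x 3
  simpa [Finset.sum_range_succ, Nat.factorial] using h

/-- the Taylor expansion -/
private theorem W3_core (a b : ℂ) (K : ℝ) (hK : 0 ≤ K) : ∃ C : ℝ, 0 < C ∧
    ∀ (e t : ℝ) (X₁ X₂ X₃ F₁ F₂ : ℂ), 0 ≤ e → e ≤ 1 → 0 ≤ t → t ≤ 1 →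
      ‖X₁ - (a * e + b * e ^ 2)‖ ≤ K * (e * t) →
      ‖X₂ - 2 * (a * e + b * e ^ 2)‖ ≤ K * (e * t) →
      ‖X₃ - 3 * (a * e + b * e ^ 2)‖ ≤ K * (e * t) →
      ‖F₂ - 3 * a * e‖ ≤ K * (e * t) →
      ‖F₁ - (3 * b + 3 / 2 * a ^ 2) * e ^ 2‖ ≤ K * (e * t) →
      ‖1 - Complex.exp (-X₃) - F₂ * Complex.exp (-X₂) - F₁ * Complex.exp (-X₁)‖ ≤
        C * (e ^ 3 + e * t) := by
  set L : ℝ := 3 * (‖a‖ + ‖b‖) + K with hL
  have hL0 : 0 ≤ L := by positivity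
  set G : ℂ := 3 * b + 3 / 2 * a ^ 2 with hG
  set EL : ℝ := Real.exp L with hEL
  have hEL0 : 0 < EL := Real.exp_pos L
  refine ⟨K + L * (3 * ‖b‖ + K) + L ^ 3 * EL + K * EL + 3 * ‖a‖ * (L ^ 2 * EL + 2 * ‖b‖ + K) +
    K * EL + ‖G‖ * (L * EL) + 1, by positivity, ?_⟩
  intro e t X₁ X₂ X₃ F₁ F₂ he0 he1 ht0 ht1 h1 h2 h3 hF2 hF1
  have he2 : e ^ 2 ≤ e := by nlinarith
  have het : e * t ≤ e := by nlinarith
  have het0 : 0 ≤ e * t := mul_nonneg he0 ht0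
  have hne : ‖(e : ℂ)‖ = e := by rw [Complex.norm_real, Real.norm_of_nonneg he0]
  have hbound : ∀ (j : ℝ) (X : ℂ), 0 ≤ j → j ≤ 3 → ‖X - j * (a * e + b * e ^ 2)‖ ≤ K * (e * t) →
      ‖X‖ ≤ L * e := by
    intro j X hj0 hj3 hX
    have e1 : X = (X - j * (a * e + b * e ^ 2)) + (j * a * e + j * b * e ^ 2) := by ring
    have e2 : ‖(j : ℂ) * a * e + j * b * e ^ 2‖ ≤ 3 * (‖a‖ + ‖b‖) * e := by
      refine (norm_add_le _ _).trans ?_
      rw [norm_mul, norm_mul, norm_mul, norm_mul, norm_pow, hne, Complex.norm_real,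
        Real.norm_of_nonneg hj0]
      have q1 : j * ‖a‖ * e ≤ 3 * ‖a‖ * e := by gcongr
      have q2 : j * ‖b‖ * e ^ 2 ≤ 3 * ‖b‖ * e := by gcongr
      linarith
    calc ‖X‖ = ‖(X - j * (a * e + b * e ^ 2)) + (j * a * e + j * b * e ^ 2)‖ := by rw [← e1]
      _ ≤ K * (e * t) + 3 * (‖a‖ + ‖b‖) * e := (norm_add_le _ _).trans (add_le_add hX e2)
      _ ≤ L * e := by rw [hL]; nlinarith
  have hX1 : ‖X₁‖ ≤ L * e := hbound 1 X₁ (by norm_num) (by norm_num) (by simpa using h1)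
  have hX2 : ‖X₂‖ ≤ L * e := hbound 2 X₂ (by norm_num) (by norm_num) (by simpa using h2)
  have hX3 : ‖X₃‖ ≤ L * e := hbound 3 X₃ (by norm_num) (by norm_num) (by simpa using h3)
  have hLe : L * e ≤ L := by nlinarith
  have hexpb : ∀ X : ℂ, ‖X‖ ≤ L * e → Real.exp ‖X‖ ≤ EL := fun X hX =>
    Real.exp_le_exp.2 (hX.trans hLe)
  have hexpn : ∀ X : ℂ, ‖X‖ ≤ L * e → ‖Complex.exp (-X)‖ ≤ EL := by
    intro X hX
    rw [Complex.norm_exp]
    refine Real.exp_le_exp.2 ?_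
    calc (-X).re ≤ ‖-X‖ := Complex.re_le_norm _
      _ = ‖X‖ := norm_neg _
      _ ≤ L := hX.trans hLe
  have he3 : 0 ≤ e ^ 3 := by positivity
  -- the seven pieces
  set p1 : ℂ := X₃ - 3 * (a * e + b * e ^ 2) with hp1
  set p2 : ℂ := (X₃ - 3 * a * e) * (X₃ + 3 * a * e) / 2 with hp2
  set p3 : ℂ := Complex.exp (-X₃) - (1 + -X₃ + (-X₃) ^ 2 / 2) with hp3
  set p4 : ℂ := (F₂ - 3 * a * e) * Complex.exp (-X₂) with hp4
  set p5 : ℂ := 3 * a * e * ((Complex.exp (-X₂) - (1 + -X₂)) - (X₂ - 2 * a * e)) with hp5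
  set p6 : ℂ := (F₁ - G * e ^ 2) * Complex.exp (-X₁) with hp6
  set p7 : ℂ := G * e ^ 2 * (Complex.exp (-X₁) - 1) with hp7
  have hsum : 1 - Complex.exp (-X₃) - F₂ * Complex.exp (-X₂) - F₁ * Complex.exp (-X₁) =
      p1 - p2 - p3 - p4 - p5 - p6 - p7 := by
    rw [hp1, hp2, hp3, hp4, hp5, hp6, hp7, hG]
    ring
  have b1 : ‖p1‖ ≤ K * (e * t) := h3
  have c2 : ‖X₃ - 3 * a * e‖ ≤ 3 * ‖b‖ * e ^ 2 + K * (e * t) := by
    have q : X₃ - 3 * a * e = 3 * b * e ^ 2 + (X₃ - 3 * (a * e + b * e ^ 2)) := by ring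
    rw [q]
    refine (norm_add_le _ _).trans (add_le_add ?_ h3)
    rw [norm_mul, norm_mul, norm_pow, hne]
    norm_num
  have c2' : ‖X₂ - 2 * a * e‖ ≤ 2 * ‖b‖ * e ^ 2 + K * (e * t) := by
    have q : X₂ - 2 * a * e = 2 * b * e ^ 2 + (X₂ - 2 * (a * e + b * e ^ 2)) := by ring
    rw [q]
    refine (norm_add_le _ _).trans (add_le_add ?_ h2)
    rw [norm_mul, norm_mul, norm_pow, hne]
    norm_num
  have b2 : ‖p2‖ ≤ L * (3 * ‖b‖ + K) * (e ^ 3 + e * t) := by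
    have q1 : ‖X₃ + 3 * a * e‖ ≤ 2 * L * e := by
      refine (norm_add_le _ _).trans ?_
      rw [norm_mul, norm_mul, hne]
      have q2 : ‖(3 : ℂ)‖ = 3 := by norm_num
      rw [q2]
      have q3 : 3 * ‖a‖ * e ≤ L * e := by
        have : 3 * ‖a‖ ≤ L := by rw [hL]; nlinarith [norm_nonneg a, norm_nonneg b]
        gcongr
      linarith
    rw [hp2, norm_div, norm_mul]
    have q2 : ‖(2 : ℂ)‖ = 2 := by norm_num
    rw [q2]
    have q3 : ‖X₃ - 3 * a * e‖ * ‖X₃ + 3 * a * e‖ ≤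
        (3 * ‖b‖ * e ^ 2 + K * (e * t)) * (2 * L * e) := by gcongr
    have q4 : (3 * ‖b‖ * e ^ 2 + K * (e * t)) * (2 * L * e) / 2 =
        L * (3 * ‖b‖ * e ^ 3 + K * (e * t) * e) := by ring
    have q5 : K * (e * t) * e ≤ K * (e * t) := by
      have : 0 ≤ K * (e * t) := by positivity
      nlinarith
    have q6 : 3 * ‖b‖ * e ^ 3 + K * (e * t) ≤ (3 * ‖b‖ + K) * (e ^ 3 + e * t) := by
      have r1 : 0 ≤ ‖b‖ * (e * t) := by positivity
      have r2 : 0 ≤ K * e ^ 3 := by positivity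
      nlinarith
    calc ‖X₃ - 3 * a * e‖ * ‖X₃ + 3 * a * e‖ / 2 ≤
        (3 * ‖b‖ * e ^ 2 + K * (e * t)) * (2 * L * e) / 2 := by gcongr
      _ = L * (3 * ‖b‖ * e ^ 3 + K * (e * t) * e) := q4
      _ ≤ L * ((3 * ‖b‖ + K) * (e ^ 3 + e * t)) := by
        gcongr
        linarith
      _ = L * (3 * ‖b‖ + K) * (e ^ 3 + e * t) := by ring
  have b3 : ‖p3‖ ≤ L ^ 3 * EL * e ^ 3 := by
    have q := W3_exp3 (-X₃)
    rw [norm_neg] at q
    refine q.trans ?_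
    calc ‖X₃‖ ^ 3 * Real.exp ‖X₃‖ ≤ (L * e) ^ 3 * EL := by
          gcongr
          exact hexpb X₃ hX3
      _ = L ^ 3 * EL * e ^ 3 := by ring
  have b4 : ‖p4‖ ≤ K * (e * t) * EL := by
    rw [hp4, norm_mul]
    have := hexpn X₂ hX2
    gcongr
  have b5 : ‖p5‖ ≤ 3 * ‖a‖ * (L ^ 2 * EL + 2 * ‖b‖ + K) * (e ^ 3 + e * t) := by
    have q1 : ‖(Complex.exp (-X₂) - (1 + -X₂)) - (X₂ - 2 * a * e)‖ ≤
        (L * e) ^ 2 * EL + (2 * ‖b‖ * e ^ 2 + K * (e * t)) := by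
      refine (norm_sub_le _ _).trans (add_le_add ?_ c2')
      have q := W3_exp2 (-X₂)
      rw [norm_neg] at q
      refine q.trans ?_
      have := hexpb X₂ hX2
      gcongr
    rw [hp5, norm_mul, norm_mul, norm_mul, hne]
    have q2 : ‖(3 : ℂ)‖ = 3 := by norm_num
    rw [q2]
    calc 3 * ‖a‖ * e * ‖(Complex.exp (-X₂) - (1 + -X₂)) - (X₂ - 2 * a * e)‖ ≤
        3 * ‖a‖ * e * ((L * e) ^ 2 * EL + (2 * ‖b‖ * e ^ 2 + K * (e * t))) := by gcongr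
      _ = 3 * ‖a‖ * (L ^ 2 * EL * e ^ 3 + 2 * ‖b‖ * e ^ 3 + K * (e * t) * e) := by ring
      _ ≤ 3 * ‖a‖ * ((L ^ 2 * EL + 2 * ‖b‖ + K) * (e ^ 3 + e * t)) := by
        have q5 : K * (e * t) * e ≤ K * (e * t) := by
          have : 0 ≤ K * (e * t) := by positivity
          nlinarith
        have r1 : 0 ≤ ‖b‖ * (e * t) := by positivity
        have r2 : 0 ≤ K * e ^ 3 := by positivity
        have r3 : 0 ≤ L ^ 2 * EL * (e * t) := by positivity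
        gcongr
        nlinarith
      _ = _ := by ring
  have b6 : ‖p6‖ ≤ K * (e * t) * EL := by
    rw [hp6, norm_mul]
    have := hexpn X₁ hX1
    gcongr
  have b7 : ‖p7‖ ≤ ‖G‖ * (L * EL) * e ^ 3 := by
    have q := W3_exp1 (-X₁)
    rw [norm_neg] at q
    have q' : ‖Complex.exp (-X₁) - 1‖ ≤ L * e * EL := by
      refine q.trans ?_
      have := hexpb X₁ hX1
      gcongr
    rw [hp7, norm_mul, norm_mul, norm_pow, hne]
    calc ‖G‖ * e ^ 2 * ‖Complex.exp (-X₁) - 1‖ ≤ ‖G‖ * e ^ 2 * (L * e * EL) := by gcongr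
      _ = ‖G‖ * (L * EL) * e ^ 3 := by ring
  have htot : ‖p1 - p2 - p3 - p4 - p5 - p6 - p7‖ ≤
      ‖p1‖ + ‖p2‖ + ‖p3‖ + ‖p4‖ + ‖p5‖ + ‖p6‖ + ‖p7‖ := by
    have q1 := norm_sub_le (p1 - p2 - p3 - p4 - p5 - p6) p7
    have q2 := norm_sub_le (p1 - p2 - p3 - p4 - p5) p6
    have q3 := norm_sub_le (p1 - p2 - p3 - p4) p5
    have q4 := norm_sub_le (p1 - p2 - p3) p4
    have q5 := norm_sub_le (p1 - p2) p3
    have q6 := norm_sub_le p1 p2
    linarith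
  rw [hsum]
  refine htot.trans ?_
  set T : ℝ := e ^ 3 + e * t with hT
  have hT1 : e ^ 3 ≤ T := by rw [hT]; linarith
  have hT2 : e * t ≤ T := by rw [hT]; linarith
  have hT0 : 0 ≤ T := le_trans he3 hT1
  have d1 : ‖p1‖ ≤ K * T := b1.trans (by gcongr)
  have d3 : ‖p3‖ ≤ L ^ 3 * EL * T := b3.trans (by gcongr)
  have d4 : ‖p4‖ ≤ K * EL * T := by
    refine b4.trans ?_
    have : K * (e * t) * EL = K * EL * (e * t) := by ring
    rw [this]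
    gcongr
  have d6 : ‖p6‖ ≤ K * EL * T := by
    refine b6.trans ?_
    have : K * (e * t) * EL = K * EL * (e * t) := by ring
    rw [this]
    gcongr
  have d7 : ‖p7‖ ≤ ‖G‖ * (L * EL) * T := b7.trans (by gcongr)
  calc ‖p1‖ + ‖p2‖ + ‖p3‖ + ‖p4‖ + ‖p5‖ + ‖p6‖ + ‖p7‖ ≤
      K * T + L * (3 * ‖b‖ + K) * T + L ^ 3 * EL * T + K * EL * T +
        3 * ‖a‖ * (L ^ 2 * EL + 2 * ‖b‖ + K) * T + K * EL * T + ‖G‖ * (L * EL) * T := by
        gcongr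
    _ ≤ _ := by nlinarith

private theorem W3_om3 : om 3 ^ 3 = 1 := by
  unfold om
  rw [← Complex.exp_nat_mul]
  have h : ((3 : ℕ) : ℂ) * (2 * Real.pi * Complex.I / ((3 : ℕ) : ℂ)) = 2 * Real.pi * Complex.I := by
    push_cast
    ring
  rw [h, Complex.exp_two_pi_mul_I]

private theorem W3_omn : ‖om 3‖ = 1 := by
  have h : ‖om 3‖ ^ 3 = 1 := by rw [← norm_pow, W3_om3, norm_one]
  have h0 := norm_nonneg (om 3)
  nlinarith [sq_nonneg (‖om 3‖ - 1), sq_nonneg (‖om 3‖ + 1)]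

private theorem W3_ompow (l s j : ℕ) (hj : j ≤ s) :
    om 3 ^ (l * (s - j)) = om 3 ^ (l * s) * om 3 ^ (2 * l * j) := by
  have h1 : l * s + 2 * l * j = l * (s - j) + 3 * (l * j) := by
    obtain ⟨d, rfl⟩ := Nat.exists_eq_add_of_le hj
    rw [Nat.add_sub_cancel_left]
    ring
  rw [← pow_add, h1, pow_add, pow_mul (om 3) 3, W3_om3, one_pow, mul_one]

theorem p_W3 : S_H2 → S_W1 → S_W3 := by
  intro hH2 hW1 P c hP0 hPd hc hxi
  have hP : P ≠ 0 := by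
    rintro rfl
    simp at hPd
  have hlc : P.leadingCoeff ≠ 0 := leadingCoeff_ne_zero.2 hP
  have hc0 : c ≠ 0 := by
    rintro rfl
    apply hlc
    rw [← hc]
    simp
  obtain ⟨hB1, hT1, -, C1, hC1, hD1⟩ := hW1 1 (Or.inl rfl)
  obtain ⟨hB2, hT2, -, C2, hC2, hD2⟩ := hW1 2 (Or.inr rfl)
  set A₂ : ℂ := P.coeff 2 / c ^ 2 with hA₂
  set A₁ : ℂ := P.coeff 1 / c ^ 1 with hA₁
  have hcore := fun l : ℕ => W3_core (xi P c l) (zet P c l)
    (‖xi P c l‖ * C1 + ‖zet P c l‖ * C2 + 9 * ‖A₂‖ + 9 * ‖A₁‖) (by positivity)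
  choose Cf hCf0 hCf using hcore
  refine ⟨1 / 3 * ∑ l ∈ Finset.range 3, Cf l * Real.exp (‖zet P c l‖ * BB 2), ?_, ?_⟩
  · have : 0 < ∑ l ∈ Finset.range 3, Cf l * Real.exp (‖zet P c l‖ * BB 2) :=
      Finset.sum_pos (fun l _ => mul_pos (hCf0 l) (Real.exp_pos _)) ⟨0, by simp⟩
    linarith
  filter_upwards [eventually_ge_atTop 1] with n hn s hs hsn
  have hsR : (7 : ℝ) ≤ s := by exact_mod_cast hs
  have hsnR : 3 * (s : ℝ) ≤ 2 * n := by exact_mod_cast hsn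
  have hs0 : (0 : ℝ) < s := by linarith
  have hn0 : (0 : ℝ) < n := by linarith
  have hn1 : (1 : ℝ) ≤ n := by linarith
  have hsltn : s < n := by omega
  have hE : En n (s : ℤ) = 4 * (s : ℝ) * ((n : ℝ) - s) := by simp [En]
  set E : ℝ := En n (s : ℤ) with hEdef
  have hEns : (n : ℝ) * s ≤ E := by rw [hE]; nlinarith
  have hns1 : (1 : ℝ) ≤ (n : ℝ) * s := by nlinarith
  have hE1 : 1 ≤ E := hns1.trans hEns
  have hE0 : 0 < E := by linarith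
  set e : ℝ := E ^ (-(1 / 3) : ℝ) with he
  have he0 : 0 < e := Real.rpow_pos_of_pos hE0 _
  have he1 : e ≤ 1 := Real.rpow_le_one_of_one_le_of_nonpos hE1 (by norm_num)
  have hee : e ^ 2 = E ^ (-(2 / 3) : ℝ) := by
    rw [he, ← Real.rpow_natCast, ← Real.rpow_mul hE0.le]
    norm_num
  have he3 : e ^ 3 = E⁻¹ := by
    rw [he, ← Real.rpow_natCast, ← Real.rpow_mul hE0.le]
    have : (-(1 / 3) : ℝ) * ((3 : ℕ) : ℝ) = -1 := by norm_num
    rw [this, Real.rpow_neg_one]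
  set t : ℝ := 1 / (s : ℝ) with ht
  have ht0 : 0 < t := by positivity
  have ht1 : t ≤ 1 := by
    rw [ht, div_le_one hs0]
    linarith
  have hr1 : (-(((1 : ℕ) : ℝ) / 3)) = (-(1 / 3) : ℝ) := by norm_num
  have hr2 : (-(((2 : ℕ) : ℝ) / 3)) = (-(2 / 3) : ℝ) := by norm_num
  -- the exponents
  set Λ : ℕ → ℝ → ℂ := fun l x => xi P c l * (Th 1 n x : ℂ) + zet P c l * (Th 2 n x : ℂ) with hΛ
  have hX : ∀ (l j : ℕ), 1 ≤ j → j ≤ 3 → ‖(Λ l s - Λ l ((s : ℝ) - j)) -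
      (j : ℂ) * (xi P c l * e + zet P c l * e ^ 2)‖ ≤
      (‖xi P c l‖ * C1 + ‖zet P c l‖ * C2 + 9 * ‖A₂‖ + 9 * ‖A₁‖) * (e * t) := by
    intro l j hj1 hj3
    have g1 := hD1 n s j hn (by omega) hsn hj1 hj3
    have g2 := hD2 n s j hn (by omega) hsn hj1 hj3
    rw [← hEdef, hr1, ← he] at g1
    rw [← hEdef, hr2, ← hee] at g2
    have q1 : (Λ l s - Λ l ((s : ℝ) - j)) - (j : ℂ) * (xi P c l * e + zet P c l * e ^ 2) =
        xi P c l * ((Th 1 n s - Th 1 n ((s : ℝ) - j) - j * e : ℝ) : ℂ) +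
        zet P c l * ((Th 2 n s - Th 2 n ((s : ℝ) - j) - j * e ^ 2 : ℝ) : ℂ) := by
      simp only [hΛ]
      push_cast
      ring
    rw [q1]
    refine (norm_add_le _ _).trans ?_
    rw [norm_mul, norm_mul, Complex.norm_real, Complex.norm_real, Real.norm_eq_abs,
      Real.norm_eq_abs]
    have q2 : C1 * e / s = C1 * (e * t) := by rw [ht]; ring
    have q3 : C2 * e ^ 2 / s ≤ C2 * (e * t) := by
      have : C2 * e ^ 2 / s = C2 * (e ^ 2 * t) := by rw [ht]; ring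
      rw [this]
      have : e ^ 2 ≤ e := by nlinarith
      gcongr
    rw [q2] at g1
    have g2' := g2.trans q3
    have r1 : ‖xi P c l‖ * |Th 1 n s - Th 1 n ((s : ℝ) - j) - j * e| ≤
        ‖xi P c l‖ * (C1 * (e * t)) := by gcongr
    have r2 : ‖zet P c l‖ * |Th 2 n s - Th 2 n ((s : ℝ) - j) - j * e ^ 2| ≤
        ‖zet P c l‖ * (C2 * (e * t)) := by gcongr
    have r3 : 0 ≤ (9 * ‖A₂‖ + 9 * ‖A₁‖) * (e * t) := by positivity
    nlinarith
  -- the coefficients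
  have hdn : ((P.natDegree : ℕ) : ℝ) = 3 := by rw [hPd]; norm_num
  have htau : tau P.natDegree n s = e := by
    rw [tau, hPd, he, hE]
    norm_num
  have hfrac : 1 / (s : ℝ) + 1 / ((n : ℝ) - s) ≤ 3 * t := by
    have q : 1 / ((n : ℝ) - s) ≤ 2 * t := by
      rw [ht, mul_one_div, div_le_div_iff₀ (by linarith) hs0]
      linarith
    rw [← ht]
    linarith
  have hns' : 0 < 1 / (s : ℝ) + 1 / ((n : ℝ) - s) := by
    have q : 0 < (n : ℝ) - s := by linarith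
    positivity
  have hf2 : ‖ff P c n s 2 - A₂ * e‖ ≤ 9 * ‖A₂‖ * (e * t) := by
    have g := hH2 P c n s 2 hc0 (by norm_num) (by omega) (by omega) hsltn
    rw [← hEdef, htau, hdn] at g
    have q1 : P.natDegree - 2 = 1 := by omega
    have q2 : (-(1 - ((2 : ℕ) : ℝ) / 3)) = (-(1 / 3) : ℝ) := by norm_num
    rw [q1, pow_one, q2, ← he, ← hA₂] at g
    refine g.trans ?_
    calc ‖A₂‖ * 3 * e * (1 / (s : ℝ) + 1 / ((n : ℝ) - s)) ≤ ‖A₂‖ * 3 * e * (3 * t) := by gcongr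
      _ = 9 * ‖A₂‖ * (e * t) := by ring
  have hf1 : ‖ff P c n s 1 - A₁ * e ^ 2‖ ≤ 9 * ‖A₁‖ * (e * t) := by
    have g := hH2 P c n s 1 hc0 (by norm_num) (by omega) (by omega) hsltn
    rw [← hEdef, htau, hdn] at g
    have q1 : P.natDegree - 1 = 2 := by omega
    have q2 : (-(1 - ((1 : ℕ) : ℝ) / 3)) = (-(2 / 3) : ℝ) := by norm_num
    rw [q1, q2, ← hee, ← hA₁] at g
    refine g.trans ?_
    have q3 : e ^ 2 ≤ e := by nlinarith
    calc ‖A₁‖ * 3 * e ^ 2 * (1 / (s : ℝ) + 1 / ((n : ℝ) - s)) ≤ ‖A₁‖ * 3 * e * (3 * t) := by gcongr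
      _ = 9 * ‖A₁‖ * (e * t) := by ring
  have homl : ∀ k : ℕ, ‖om 3 ^ k‖ = 1 := fun k => by rw [norm_pow, W3_omn, one_pow]
  have hF2 : ∀ l : ℕ, ‖ff P c n s 2 * om 3 ^ l - 3 * xi P c l * e‖ ≤
      (‖xi P c l‖ * C1 + ‖zet P c l‖ * C2 + 9 * ‖A₂‖ + 9 * ‖A₁‖) * (e * t) := by
    intro l
    have q1 : 3 * xi P c l = A₂ * om 3 ^ l := by
      rw [xi, hA₂, ← hc]
      field_simp
    have q2 : ff P c n s 2 * om 3 ^ l - 3 * xi P c l * e = (ff P c n s 2 - A₂ * e) * om 3 ^ l := by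
      rw [q1]
      ring
    rw [q2, norm_mul, homl, mul_one]
    refine hf2.trans ?_
    have r3 : 0 ≤ (‖xi P c l‖ * C1 + ‖zet P c l‖ * C2 + 9 * ‖A₁‖) * (e * t) := by positivity
    nlinarith
  have hF1 : ∀ l : ℕ, ‖ff P c n s 1 * om 3 ^ (2 * l) -
      (3 * zet P c l + 3 / 2 * xi P c l ^ 2) * e ^ 2‖ ≤
      (‖xi P c l‖ * C1 + ‖zet P c l‖ * C2 + 9 * ‖A₂‖ + 9 * ‖A₁‖) * (e * t) := by
    intro l
    have q1 : 3 * zet P c l + 3 / 2 * xi P c l ^ 2 = A₁ * om 3 ^ (2 * l) := by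
      rw [zet, xi, hA₁, ← hc, mul_comm 2 l, pow_mul (om 3) l 2]
      field_simp
      ring
    have q2 : ff P c n s 1 * om 3 ^ (2 * l) -
        (3 * zet P c l + 3 / 2 * xi P c l ^ 2) * e ^ 2 =
        (ff P c n s 1 - A₁ * e ^ 2) * om 3 ^ (2 * l) := by
      rw [q1]
      ring
    rw [q2, norm_mul, homl, mul_one]
    refine hf1.trans ?_
    have r3 : 0 ≤ (‖xi P c l‖ * C1 + ‖zet P c l‖ * C2 + 9 * ‖A₂‖) * (e * t) := by positivity
    nlinarith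
  -- the bracket
  set Br : ℕ → ℂ := fun l => 1 - Complex.exp (-(Λ l s - Λ l ((s : ℝ) - (3 : ℕ)))) -
    (ff P c n s 2 * om 3 ^ l) * Complex.exp (-(Λ l s - Λ l ((s : ℝ) - (2 : ℕ)))) -
    (ff P c n s 1 * om 3 ^ (2 * l)) * Complex.exp (-(Λ l s - Λ l ((s : ℝ) - (1 : ℕ)))) with hBr
  have hBrb : ∀ l, ‖Br l‖ ≤ Cf l * (e ^ 3 + e * t) := by
    intro l
    refine hCf l e t _ _ _ _ _ he0.le he1 ht0.le ht1 ?_ ?_ ?_ (hF2 l) (hF1 l)
    · have := hX l 1 (by norm_num) (by norm_num)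
      simpa using this
    · have := hX l 2 (by norm_num) (by norm_num)
      simpa using this
    · have := hX l 3 (by norm_num) (by norm_num)
      simpa using this
  have hcast : ∀ j : ℕ, j ≤ 3 → (((s - j : ℕ) : ℝ)) = (s : ℝ) - (j : ℕ) := by
    intro j hj
    rw [Nat.cast_sub (by omega)]
  have hWW : ∀ j : ℕ, j ≤ 3 → WW P c n (s - j) = (1 / 3 : ℂ) * ∑ l ∈ Finset.range 3,
      om 3 ^ (l * s) * om 3 ^ (2 * l * j) * Complex.exp (Λ l ((s : ℝ) - (j : ℕ))) := by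
    intro j hj
    rw [WW]
    congr 1
    refine Finset.sum_congr rfl fun l _ => ?_
    rw [W3_ompow l s j (by omega), hcast j hj]
  have hmain : WW P c n s - WW P c n (s - 3) - ff P c n s 2 * WW P c n (s - 2) -
      ff P c n s 1 * WW P c n (s - 1) =
      (1 / 3 : ℂ) * ∑ l ∈ Finset.range 3, om 3 ^ (l * s) * Complex.exp (Λ l s) * Br l := by
    have h0 : WW P c n s = (1 / 3 : ℂ) * ∑ l ∈ Finset.range 3,
        om 3 ^ (l * s) * Complex.exp (Λ l s) := rfl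
    rw [h0, hWW 3 le_rfl, hWW 2 (by norm_num), hWW 1 (by norm_num)]
    have hsum : ∀ (f : ℂ) (G : ℕ → ℂ), f * ((1 / 3 : ℂ) * ∑ l ∈ Finset.range 3, G l) =
        (1 / 3 : ℂ) * ∑ l ∈ Finset.range 3, f * G l := by
      intro f G
      rw [← Finset.mul_sum]
      ring
    rw [hsum, hsum, ← mul_sub, ← Finset.sum_sub_distrib, ← mul_sub, ← Finset.sum_sub_distrib,
      ← mul_sub, ← Finset.sum_sub_distrib]
    congr 1
    refine Finset.sum_congr rfl fun l _ => ?_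
    have e3 : om 3 ^ (2 * l * 3) = 1 := by
      have : 2 * l * 3 = 3 * (2 * l) := by ring
      rw [this, pow_mul, W3_om3, one_pow]
    have e2 : om 3 ^ (2 * l * 2) = om 3 ^ l := by
      have : 2 * l * 2 = 3 * l + l := by ring
      rw [this, pow_add, pow_mul, W3_om3, one_pow, one_mul]
    have e1 : om 3 ^ (2 * l * 1) = om 3 ^ (2 * l) := by rw [mul_one]
    rw [e3, e2, e1]
    simp only [hBr]
    have hx : ∀ x : ℝ, Complex.exp (Λ l s) * Complex.exp (-(Λ l s - Λ l x)) =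
        Complex.exp (Λ l x) := by
      intro x
      rw [← Complex.exp_add]
      congr 1
      ring
    rw [← hx ((s : ℝ) - (3 : ℕ)), ← hx ((s : ℝ) - (2 : ℕ)), ← hx ((s : ℝ) - (1 : ℕ))]
    ring
  rw [hmain, norm_mul]
  have hthird : ‖(1 / 3 : ℂ)‖ = 1 / 3 := by norm_num
  rw [hthird]
  -- size of the exponentials
  have hTh1 := (hT1 n s hn hs0.le (by linarith)).2.1
  have hTh2 := (hT2 n s hn hs0.le (by linarith)).2.1
  have hTh2' : Th 2 n s ≤ BB 2 := by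
    refine (hT2 n s hn hs0.le (by linarith)).2.2.trans ?_
    have : (n : ℝ) ^ (1 - 2 * ((2 : ℕ) : ℝ) / 3) ≤ 1 :=
      Real.rpow_le_one_of_one_le_of_nonpos hn1 (by norm_num)
    nlinarith
  have hexp : ∀ l < 3, ‖Complex.exp (Λ l s)‖ ≤
      Real.exp (‖zet P c l‖ * BB 2) * Real.exp ((xi P c 0).re * Th 1 n s) := by
    intro l hl
    rw [Complex.norm_exp, ← Real.exp_add]
    refine Real.exp_le_exp.2 ?_
    simp only [hΛ, Complex.add_re, Complex.re_mul_ofReal]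
    have q1 : (xi P c l).re * Th 1 n s ≤ (xi P c 0).re * Th 1 n s :=
      mul_le_mul_of_nonneg_right (hxi l hl) hTh1
    have q2 : (zet P c l).re * Th 2 n s ≤ ‖zet P c l‖ * BB 2 := by
      calc (zet P c l).re * Th 2 n s ≤ ‖zet P c l‖ * Th 2 n s :=
            mul_le_mul_of_nonneg_right (Complex.re_le_norm _) hTh2
        _ ≤ ‖zet P c l‖ * BB 2 := mul_le_mul_of_nonneg_left hTh2' (norm_nonneg _)
    linarith
  -- the error
  have herr : e ^ 3 + e * t ≤ (n : ℝ) ^ (-(1 / 3) : ℝ) * (s : ℝ) ^ (-(4 / 3) : ℝ) +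
      1 / ((n : ℝ) * s) := by
    have q1 : e ^ 3 ≤ 1 / ((n : ℝ) * s) := by
      rw [he3, ← one_div]
      exact one_div_le_one_div_of_le (by positivity) hEns
    have q2 : e ≤ (n : ℝ) ^ (-(1 / 3) : ℝ) * (s : ℝ) ^ (-(1 / 3) : ℝ) := by
      rw [he, ← Real.mul_rpow hn0.le hs0.le]
      exact Real.rpow_le_rpow_of_nonpos (by positivity) hEns (by norm_num)
    have q3 : (s : ℝ) ^ (-(1 / 3) : ℝ) * t = (s : ℝ) ^ (-(4 / 3) : ℝ) := by
      have : t = (s : ℝ) ^ (-1 : ℝ) := by rw [ht, Real.rpow_neg_one, one_div]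
      rw [this, ← Real.rpow_add hs0]
      norm_num
    have q4 : e * t ≤ (n : ℝ) ^ (-(1 / 3) : ℝ) * (s : ℝ) ^ (-(4 / 3) : ℝ) := by
      calc e * t ≤ ((n : ℝ) ^ (-(1 / 3) : ℝ) * (s : ℝ) ^ (-(1 / 3) : ℝ)) * t := by gcongr
        _ = (n : ℝ) ^ (-(1 / 3) : ℝ) * ((s : ℝ) ^ (-(1 / 3) : ℝ) * t) := by ring
        _ = _ := by rw [q3]
    linarith
  have het0 : 0 ≤ e ^ 3 + e * t := by positivity
  set R : ℝ := (n : ℝ) ^ (-(1 / 3) : ℝ) * (s : ℝ) ^ (-(4 / 3) : ℝ) + 1 / ((n : ℝ) * s) with hR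
  set X : ℝ := Real.exp ((xi P c 0).re * Th 1 n s) with hXdef
  calc 1 / 3 * ‖∑ l ∈ Finset.range 3, om 3 ^ (l * s) * Complex.exp (Λ l s) * Br l‖ ≤
      1 / 3 * ∑ l ∈ Finset.range 3, ‖om 3 ^ (l * s) * Complex.exp (Λ l s) * Br l‖ := by
        gcongr
        exact norm_sum_le _ _
    _ ≤ 1 / 3 * ∑ l ∈ Finset.range 3, (Cf l * Real.exp (‖zet P c l‖ * BB 2)) * (X * R) := by
        refine mul_le_mul_of_nonneg_left (Finset.sum_le_sum fun l hl => ?_) (by norm_num)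
        rw [norm_mul, norm_mul, homl, one_mul]
        have g1 := hexp l (Finset.mem_range.1 hl)
        have g2 := (hBrb l).trans (mul_le_mul_of_nonneg_left herr (hCf0 l).le)
        calc ‖Complex.exp (Λ l s)‖ * ‖Br l‖ ≤
            (Real.exp (‖zet P c l‖ * BB 2) * X) * (Cf l * R) := by
              refine mul_le_mul g1 g2 (norm_nonneg _) ?_
              positivity
          _ = (Cf l * Real.exp (‖zet P c l‖ * BB 2)) * (X * R) := by ring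
    _ = 1 / 3 * (∑ l ∈ Finset.range 3, Cf l * Real.exp (‖zet P c l‖ * BB 2)) * X * R := by
        rw [← Finset.sum_mul]
        ring

end HillRoots
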