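import Pool.Agent.Lib.MP_e63cf8_mp.H.StmW

/-!
# W4: the beginning of the recursion, to second order
-/

set_option autoImplicit false

open Polynomial Filter Topology MeasureTheory Asymptotics

namespace HillRoots

/-! ### cube roots of unity -/

private lemma p_W4_om3 : om 3 ^ 3 = 1 := by
  unfold om
  rw [← Complex.exp_nat_mul]
  rw [show ((3 : ℕ) : ℂ) * (2 * Real.pi * Complex.I / ((3 : ℕ) : ℂ)) = 2 * Real.pi * Complex.I by
    push_cast; field_simp]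
  exact Complex.exp_two_pi_mul_I

private lemma p_W4_om_sum : 1 + om 3 + om 3 ^ 2 = 0 := by
  have h1 : om 3 ≠ 1 := by
    have := Complex.isPrimitiveRoot_exp 3 (by norm_num)
    unfold om
    exact this.ne_one (by norm_num)
  have h2 : (om 3 - 1) * (1 + om 3 + om 3 ^ 2) = 0 := by
    have := p_W4_om3
    linear_combination this
  rcases mul_eq_zero.mp h2 with h | h
  · exact absurd (sub_eq_zero.mp h) h1
  · exact h

private lemma p_W4_sum_om (s : ℕ) :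
    ∑ l ∈ Finset.range 3, om 3 ^ (l * s) = if s % 3 = 0 then 3 else 0 := by
  have h3 := p_W4_om3
  have h1 := p_W4_om_sum
  have hk : ∀ k : ℕ, om 3 ^ (3 * k) = 1 := fun k => by rw [pow_mul, h3, one_pow]
  rw [Finset.sum_range_succ, Finset.sum_range_succ, Finset.sum_range_succ, Finset.sum_range_zero]
  have hs : s = 3 * (s / 3) + s % 3 := (Nat.div_add_mod s 3).symm
  have hlt : s % 3 < 3 := Nat.mod_lt _ (by norm_num)
  generalize s / 3 = k at hs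
  interval_cases h : s % 3
  · rw [if_pos rfl, hs]
    rw [show 1 * (3 * k + 0) = 3 * k by ring, show 2 * (3 * k + 0) = 3 * (2 * k) by ring, hk, hk]
    norm_num
  · rw [if_neg (by norm_num), hs]
    rw [show 1 * (3 * k + 1) = 3 * k + 1 by ring, show 2 * (3 * k + 1) = 3 * (2 * k) + 2 by ring,
      pow_add, pow_add, hk, hk]
    simp only [zero_mul, pow_zero, one_mul, pow_one, zero_add]
    exact h1
  · rw [if_neg (by norm_num), hs]
    rw [show 1 * (3 * k + 2) = 3 * k + 2 by ring, show 2 * (3 * k + 2) = 3 * (2 * k + 1) + 1 by ring,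
      pow_add, pow_add, hk, hk]
    simp only [zero_mul, pow_zero, one_mul, pow_one, zero_add]
    linear_combination h1

/-! ### limits of the weights -/

private lemma p_W4_gam (hH0 : S_H0) (s : ℕ) :
    Tendsto (fun n : ℕ => (n : ℝ) ^ (1 / 3 : ℝ) *
      (Real.Gamma (((n : ℝ) - s) / 3 + 2 / 3) / Real.Gamma (((n : ℝ) - s) / 3 + 1)))
      atTop (𝓝 ((3 : ℝ) ^ (1 / 3 : ℝ))) := by
  have hn : Tendsto (fun n : ℕ => ((n : ℝ))⁻¹) atTop (𝓝 0) :=
    tendsto_inv_atTop_zero.comp tendsto_natCast_atTop_atTop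
  have hx : Tendsto (fun n : ℕ => ((n : ℝ) - s) / 3 + 2 / 3) atTop atTop := by
    apply tendsto_atTop_add_const_right
    apply Tendsto.atTop_div_const (by norm_num)
    exact tendsto_atTop_add_const_right _ _ tendsto_natCast_atTop_atTop
  have h1 : Tendsto (fun n : ℕ => (((n : ℝ) - s) / 3 + 2 / 3) / n) atTop (𝓝 (1 / 3)) := by
    have h2 : Tendsto (fun n : ℕ => 1 / 3 + (2 / 3 - (s : ℝ) / 3) * ((n : ℝ))⁻¹) atTop
        (𝓝 (1 / 3 + (2 / 3 - (s : ℝ) / 3) * 0)) := (hn.const_mul _).const_add _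
    rw [mul_zero, add_zero] at h2
    refine h2.congr' ?_
    filter_upwards [eventually_gt_atTop 0] with n hn0
    have : (n : ℝ) ≠ 0 := by exact_mod_cast hn0.ne'
    field_simp
    ring
  have h3 : Tendsto (fun n : ℕ => ((n : ℝ) / (((n : ℝ) - s) / 3 + 2 / 3)) ^ (1 / 3 : ℝ)) atTop
      (𝓝 ((3 : ℝ) ^ (1 / 3 : ℝ))) := by
    have h4 := h1.inv₀ (by norm_num)
    have h5 : Tendsto (fun n : ℕ => (n : ℝ) / (((n : ℝ) - s) / 3 + 2 / 3)) atTop (𝓝 3) := by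
      have e : ((1 / 3 : ℝ))⁻¹ = 3 := by norm_num
      rw [e] at h4
      refine h4.congr fun n => ?_
      rw [inv_div]
    exact h5.rpow_const (Or.inl (by norm_num))
  have h6 : Tendsto (fun n : ℕ => ((n : ℝ) / (((n : ℝ) - s) / 3 + 2 / 3)) ^ (1 / 3 : ℝ) *
      (1 + 1 / (((n : ℝ) - s) / 3 + 2 / 3))) atTop (𝓝 ((3 : ℝ) ^ (1 / 3 : ℝ))) := by
    have h7 : Tendsto (fun n : ℕ => 1 + 1 / (((n : ℝ) - s) / 3 + 2 / 3)) atTop (𝓝 (1 + 0)) := by
      apply Tendsto.const_add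
      simp only [one_div]
      exact tendsto_inv_atTop_zero.comp hx
    have h8 := h3.mul h7
    simpa using h8
  have hpos : ∀ᶠ n : ℕ in atTop, 0 < ((n : ℝ) - s) / 3 + 2 / 3 := hx.eventually_gt_atTop 0
  refine tendsto_of_tendsto_of_tendsto_of_le_of_le' h3 h6 ?_ ?_
  · filter_upwards [hpos] with n hxn
    obtain ⟨g1, -⟩ := hH0 (((n : ℝ) - s) / 3 + 2 / 3) (1 / 3) hxn (by norm_num) (by norm_num)
    rw [show ((n : ℝ) - s) / 3 + 2 / 3 + 1 / 3 = ((n : ℝ) - s) / 3 + 1 by ring] at g1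
    have hG : 0 < Real.Gamma (((n : ℝ) - s) / 3 + 1) := Real.Gamma_pos_of_pos (by linarith)
    rw [Real.div_rpow (Nat.cast_nonneg n) hxn.le, div_eq_mul_inv, ← Real.rpow_neg hxn.le]
    refine mul_le_mul_of_nonneg_left ?_ (Real.rpow_nonneg (Nat.cast_nonneg n) _)
    rw [le_div_iff₀ hG]
    exact g1
  · filter_upwards [hpos] with n hxn
    obtain ⟨-, g1⟩ := hH0 (((n : ℝ) - s) / 3 + 2 / 3) (1 / 3) hxn (by norm_num) (by norm_num)
    rw [show ((n : ℝ) - s) / 3 + 2 / 3 + 1 / 3 = ((n : ℝ) - s) / 3 + 1 by ring] at g1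
    have hG : 0 < Real.Gamma (((n : ℝ) - s) / 3 + 1) := Real.Gamma_pos_of_pos (by linarith)
    rw [Real.div_rpow (Nat.cast_nonneg n) hxn.le, div_eq_mul_inv ((n : ℝ) ^ (1 / 3 : ℝ)),
      ← Real.rpow_neg hxn.le, mul_assoc]
    refine mul_le_mul_of_nonneg_left ?_ (Real.rpow_nonneg (Nat.cast_nonneg n) _)
    rw [div_le_iff₀ hG]
    exact g1

private lemma p_W4_ph2 (hH0 : S_H0) (s : ℕ) :
    Tendsto (fun n : ℕ => (n : ℝ) ^ (1 / 3 : ℝ) * ph 2 n s) atTop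
      (𝓝 ((12 : ℝ) ^ (-(1 / 3) : ℝ) *
        (Real.Gamma ((s : ℝ) / 3) / Real.Gamma ((s : ℝ) / 3 + 1 / 3)))) := by
  have h := ((p_W4_gam hH0 s).const_mul ((36 : ℝ) ^ (-(1 / 3) : ℝ))).mul_const
    (Real.Gamma ((s : ℝ) / 3) / Real.Gamma ((s : ℝ) / 3 + 1 / 3))
  have e : (36 : ℝ) ^ (-(1 / 3) : ℝ) * (3 : ℝ) ^ (1 / 3 : ℝ) = (12 : ℝ) ^ (-(1 / 3) : ℝ) := by
    rw [show (36 : ℝ) = 12 * 3 by norm_num, Real.mul_rpow (by norm_num) (by norm_num), mul_assoc,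
      ← Real.rpow_add (by norm_num)]
    norm_num
  rw [e] at h
  refine h.congr fun n => ?_
  unfold ph
  rw [show (-(1 - ((2 : ℕ) : ℝ) / 3)) = (-(1 / 3) : ℝ) by norm_num,
    show ((s : ℝ) / 3 + (1 - ((2 : ℕ) : ℝ) / 3)) = (s : ℝ) / 3 + 1 / 3 by push_cast; ring]
  push_cast
  ring

private lemma p_W4_ph1 (hI4 : S_I4) (s : ℕ) (hs : 1 ≤ s) :
    Tendsto (fun n : ℕ => (n : ℝ) ^ (1 / 3 : ℝ) * ph 1 n s) atTop (𝓝 0) := by
  have h0 : Tendsto (fun n : ℕ => 16 * (n : ℝ) ^ (-(1 / 3) : ℝ)) atTop (𝓝 0) := by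
    have h1 : Tendsto (fun x : ℝ => x ^ (-(1 / 3) : ℝ)) atTop (𝓝 0) :=
      tendsto_rpow_neg_atTop (by norm_num)
    simpa using (h1.comp tendsto_natCast_atTop_atTop).const_mul 16
  refine tendsto_of_tendsto_of_tendsto_of_le_of_le' tendsto_const_nhds h0 ?_ ?_
  · filter_upwards [eventually_ge_atTop (2 * s + 3)] with n hn
    obtain ⟨-, -, g, -, -⟩ := hI4 1 1 n s one_ne_zero le_rfl (by norm_num) hs (by omega) (by omega)
    have hs0 : (1 : ℝ) ≤ s := by exact_mod_cast hs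
    have hns : (s : ℝ) ≤ n := by
      have : s ≤ n := by omega
      exact_mod_cast this
    have g0 : (0 : ℝ) ≤ (8 * (s : ℝ) * ((n : ℝ) - s + 1)) ^ (-(1 - ((1 : ℕ) : ℝ) / 3)) := by
      apply Real.rpow_nonneg
      have : 0 ≤ (n : ℝ) - s + 1 := by linarith
      positivity
    exact mul_nonneg (Real.rpow_nonneg (Nat.cast_nonneg n) _) (g0.trans g)
  · filter_upwards [eventually_ge_atTop (2 * s + 3)] with n hn
    obtain ⟨-, -, -, g, -⟩ := hI4 1 1 n s one_ne_zero le_rfl (by norm_num) hs (by omega) (by omega)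
    have hs0 : (1 : ℝ) ≤ s := by exact_mod_cast hs
    have hns : 2 * (s : ℝ) + 3 ≤ n := by exact_mod_cast hn
    have hn0 : (0 : ℝ) < n := by linarith
    have e1 : (n : ℝ) ≤ 4 * (s : ℝ) * ((n : ℝ) - s + 1) := by
      have : (n : ℝ) ≤ 2 * ((n : ℝ) - s + 1) := by linarith
      have h2 : 0 ≤ (n : ℝ) - s + 1 := by linarith
      nlinarith
    have e2 : (4 * (s : ℝ) * ((n : ℝ) - s + 1)) ^ (-(1 - ((1 : ℕ) : ℝ) / 3)) ≤
        (n : ℝ) ^ (-(2 / 3) : ℝ) := by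
      rw [show (-(1 - ((1 : ℕ) : ℝ) / 3)) = (-(2 / 3) : ℝ) by norm_num]
      exact Real.rpow_le_rpow_of_nonpos hn0 e1 (by norm_num)
    calc (n : ℝ) ^ (1 / 3 : ℝ) * ph 1 n s
        ≤ (n : ℝ) ^ (1 / 3 : ℝ) * (16 * (n : ℝ) ^ (-(2 / 3) : ℝ)) := by
          refine mul_le_mul_of_nonneg_left (g.trans ?_) (Real.rpow_nonneg hn0.le _)
          linarith
      _ = 16 * ((n : ℝ) ^ (1 / 3 : ℝ) * (n : ℝ) ^ (-(2 / 3) : ℝ)) := by ring
      _ = 16 * (n : ℝ) ^ (-(1 / 3) : ℝ) := by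
          rw [← Real.rpow_add hn0]
          norm_num

/-! ### the recursion -/

private lemma p_W4_E {n s : ℕ} (h1 : 1 ≤ s) (h2 : s < n) : (En n s : ℂ) ≠ 0 := by
  unfold En
  have a1 : (0 : ℝ) < s := by exact_mod_cast h1
  have a2 : (s : ℝ) < n := by exact_mod_cast h2
  have : (4 * (((s : ℕ) : ℤ) : ℝ) * ((n : ℝ) - (((s : ℕ) : ℤ) : ℝ))) ≠ 0 := by
    push_cast
    have : 0 < (n : ℝ) - s := by linarith
    positivity
  exact_mod_cast this

private lemma p_W4_xP (P : ℂ[X]) (n s : ℕ) : xP P n (s + 1) =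
    (∑ i ∈ Finset.range (s + 1), P.coeff (s + 1 - i) * xP P n i) / (En n ((s + 1 : ℕ) : ℤ) : ℂ) := by
  rw [xP, Finset.sum_range]
  push_cast
  rfl

private lemma p_W4_x3 (P : ℂ[X]) (hd : P.natDegree = 3) (n t : ℕ) : xP P n (t + 3) =
    (P.coeff 3 * xP P n t + P.coeff 2 * xP P n (t + 1) + P.coeff 1 * xP P n (t + 2)) /
      (En n ((t + 3 : ℕ) : ℤ) : ℂ) := by
  rw [show t + 3 = (t + 2) + 1 by ring, p_W4_xP]
  congr 1
  rw [Finset.sum_range_succ, Finset.sum_range_succ, Finset.sum_range_succ]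
  rw [show t + 2 + 1 - t = 3 by omega, show t + 2 + 1 - (t + 1) = 2 by omega,
    show t + 2 + 1 - (t + 2) = 1 by omega]
  rw [Finset.sum_eq_zero, zero_add]
  intro i hi
  rw [Finset.mem_range] at hi
  rw [Polynomial.coeff_eq_zero_of_natDegree_lt (by omega), zero_mul]

private lemma p_W4_x2 (P : ℂ[X]) (n : ℕ) : xP P n 2 =
    (P.coeff 2 * xP P n 0 + P.coeff 1 * xP P n 1) / (En n ((2 : ℕ) : ℤ) : ℂ) := by
  rw [show (2 : ℕ) = 1 + 1 by rfl, p_W4_xP]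
  congr 1
  rw [Finset.sum_range_succ, Finset.sum_range_succ, Finset.sum_range_zero, zero_add]

private lemma p_W4_x1 (P : ℂ[X]) (n : ℕ) : xP P n 1 =
    (P.coeff 1 * xP P n 0) / (En n ((1 : ℕ) : ℤ) : ℂ) := by
  rw [show (1 : ℕ) = 0 + 1 by rfl, p_W4_xP]
  congr 1
  rw [Finset.sum_range_succ, Finset.sum_range_zero, zero_add]

/-- one step -/
private lemma p_W4_step (hH1 : S_H1) (hI4 : S_I4) {c : ℂ} (hc : c ≠ 0) {n s j : ℕ} (hj : 1 ≤ j)
    (hj2 : j ≤ 2) (hjs : j ≤ s) (hsn : s < n) (hn : 3 ≤ n) (a x : ℂ) :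
    a * x / (En n s : ℂ) / hh 3 c n s = a / c ^ j * (ph j n s : ℂ) * (x / hh 3 c n (s - j)) := by
  have h1 := (hI4 c j n s hc hj hj2 (by omega) hsn.le hn).1 hjs hsn
  have hE := p_W4_E (n := n) (s := s) (by omega) hsn
  have hs := (hH1 3 n c (by norm_num) hc (by omega)).2.1 s hsn
  have hs' := (hH1 3 n c (by norm_num) hc (by omega)).2.1 (s - j) (by omega)
  have hcj : c ^ j ≠ 0 := pow_ne_zero _ hc
  rw [div_div, div_mul_eq_mul_div, mul_div_assoc' _ x, div_mul_eq_mul_div, div_div,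
    div_eq_div_iff (mul_ne_zero hE hs) (mul_ne_zero hcj hs')]
  linear_combination (a * x) * h1


/-- `[3 ∣ s]` -/
private noncomputable def p_W4_chi (s : ℕ) : ℂ := if s % 3 = 0 then 1 else 0

/-- the limits -/
private noncomputable def p_W4_del (A : ℂ) (s : ℕ) : ℂ :=
  if s % 3 = 2 then A * (((12 : ℝ) ^ (-(1 / 3) : ℝ) * (3 / 2 *
    (Real.Gamma ((s : ℝ) / 3 + 1) / Real.Gamma ((s : ℝ) / 3 + 1 / 3))) : ℝ) : ℂ) else 0

private lemma p_W4_rinv : Tendsto (fun n : ℕ => (((n : ℝ) ^ (-(1 / 3) : ℝ) : ℝ) : ℂ)) atTop (𝓝 0) := by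
  have h1 : Tendsto (fun x : ℝ => x ^ (-(1 / 3) : ℝ)) atTop (𝓝 0) :=
    tendsto_rpow_neg_atTop (by norm_num)
  have h2 : Tendsto (fun n : ℕ => (((n : ℝ) ^ (-(1 / 3) : ℝ) : ℝ) : ℂ)) atTop (𝓝 ((0 : ℝ) : ℂ)) :=
    (Complex.continuous_ofReal.tendsto 0).comp (h1.comp tendsto_natCast_atTop_atTop)
  rwa [Complex.ofReal_zero] at h2

private lemma p_W4_r (n : ℕ) (hn : 0 < n) :
    (((n : ℝ) ^ (-(1 / 3) : ℝ) : ℝ) : ℂ) * (((n : ℝ) ^ (1 / 3 : ℝ) : ℝ) : ℂ) = 1 := by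
  have hn0 : (0 : ℝ) < n := by exact_mod_cast hn
  rw [← Complex.ofReal_mul, ← Real.rpow_add hn0]
  norm_num

/-- from the second order to the first order -/
private lemma p_W4_first (f : ℕ → ℂ) (x L : ℂ)
    (h : Tendsto (fun n : ℕ => (((n : ℝ) ^ (1 / 3 : ℝ) : ℝ) : ℂ) * (f n - x)) atTop (𝓝 L)) :
    Tendsto f atTop (𝓝 x) := by
  have h1 := (p_W4_rinv.mul h).add_const x
  rw [zero_mul, zero_add] at h1
  refine h1.congr' ?_
  filter_upwards [eventually_gt_atTop 0] with n hn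
  rw [← mul_assoc, p_W4_r n hn]
  ring

private lemma p_W4_del_step (A : ℂ) (t : ℕ) :
    p_W4_del A t + A * (((12 : ℝ) ^ (-(1 / 3) : ℝ) *
      (Real.Gamma (((t + 3 : ℕ) : ℝ) / 3) / Real.Gamma (((t + 3 : ℕ) : ℝ) / 3 + 1 / 3)) : ℝ) : ℂ) *
      p_W4_chi (t + 1) = p_W4_del A (t + 3) := by
  unfold p_W4_del p_W4_chi
  by_cases h : t % 3 = 2
  · rw [if_pos h, if_pos (by omega), if_pos (by omega), mul_one, ← mul_add, ← Complex.ofReal_add]
    congr 2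
    rw [← mul_add]
    congr 1
    push_cast
    have e1 : ((t : ℝ) + 3) / 3 = (t : ℝ) / 3 + 1 := by ring
    rw [e1]
    have g1 : Real.Gamma ((t : ℝ) / 3 + 1 + 1) = ((t : ℝ) / 3 + 1) * Real.Gamma ((t : ℝ) / 3 + 1) :=
      Real.Gamma_add_one (by positivity)
    have g2 : Real.Gamma ((t : ℝ) / 3 + 1 + 1 / 3) =
        ((t : ℝ) / 3 + 1 / 3) * Real.Gamma ((t : ℝ) / 3 + 1 / 3) := by
      rw [show (t : ℝ) / 3 + 1 + 1 / 3 = ((t : ℝ) / 3 + 1 / 3) + 1 by ring]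
      exact Real.Gamma_add_one (by positivity)
    rw [g1, g2]
    have p1 : Real.Gamma ((t : ℝ) / 3 + 1 / 3) ≠ 0 := (Real.Gamma_pos_of_pos (by positivity)).ne'
    have p2 : ((t : ℝ) / 3 + 1 / 3) ≠ 0 := by positivity
    have p3 : ((t : ℝ) + 1) ≠ 0 := by positivity
    field_simp
    ring
  · rw [if_neg h, if_neg (by omega), if_neg (by omega), mul_zero, zero_add]

private lemma p_W4_main (hH0 : S_H0) (hH1 : S_H1) (hI4 : S_I4) (P : ℂ[X]) (c : ℂ)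
    (hd : P.natDegree = 3) (hc3 : c ^ 3 = P.leadingCoeff) (hc : c ≠ 0) (s : ℕ) :
    Tendsto (fun n : ℕ => (((n : ℝ) ^ (1 / 3 : ℝ) : ℝ) : ℂ) *
      (xP P n s / hh 3 c n s - p_W4_chi s)) atTop (𝓝 (p_W4_del (P.coeff 2 / c ^ 2) s)) := by
  have hc3' : P.coeff 3 = c ^ 3 := by rw [hc3, Polynomial.leadingCoeff, hd]
  have ph2 : ∀ s : ℕ, Tendsto (fun n : ℕ => (((n : ℝ) ^ (1 / 3 : ℝ) : ℝ) : ℂ) * (ph 2 n s : ℂ)) atTop
      (𝓝 (((12 : ℝ) ^ (-(1 / 3) : ℝ) *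
        (Real.Gamma ((s : ℝ) / 3) / Real.Gamma ((s : ℝ) / 3 + 1 / 3)) : ℝ) : ℂ)) := by
    intro s
    have := (Complex.continuous_ofReal.tendsto _).comp (p_W4_ph2 hH0 s)
    refine this.congr fun n => ?_
    simp only [Function.comp_apply, Complex.ofReal_mul]
  have ph1 : ∀ s : ℕ, 1 ≤ s → Tendsto (fun n : ℕ => (((n : ℝ) ^ (1 / 3 : ℝ) : ℝ) : ℂ) *
      (ph 1 n s : ℂ)) atTop (𝓝 0) := by
    intro s hs
    have := (Complex.continuous_ofReal.tendsto _).comp (p_W4_ph1 hI4 s hs)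
    rw [Complex.ofReal_zero] at this
    refine this.congr fun n => ?_
    simp only [Function.comp_apply, Complex.ofReal_mul]
  induction s using Nat.strong_induction_on with
  | _ s ih =>
  rcases s with _ | _ | _ | t
  · -- s = 0
    have : p_W4_del (P.coeff 2 / c ^ 2) 0 = 0 := by unfold p_W4_del; rw [if_neg (by norm_num)]
    rw [this]
    refine tendsto_const_nhds.congr' ?_
    filter_upwards [eventually_ge_atTop 1] with n hn
    rw [(hH1 3 n c (by norm_num) hc hn).1]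
    unfold p_W4_chi
    rw [xP]
    simp
  · -- s = 1
    have hdel : p_W4_del (P.coeff 2 / c ^ 2) (0 + 1) = 0 := by
      unfold p_W4_del; rw [if_neg (by norm_num)]
    rw [hdel]
    have h0 := p_W4_first _ _ _ (ih 0 (by norm_num))
    have h1 := ((ph1 1 le_rfl).const_mul (P.coeff 1 / c ^ 1)).mul h0
    rw [mul_zero, zero_mul] at h1
    refine h1.congr' ?_
    filter_upwards [eventually_ge_atTop 3] with n hn
    have e := p_W4_step hH1 hI4 hc (n := n) (s := 1) (j := 1) le_rfl (by norm_num) le_rfl (by omega)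
      hn (P.coeff 1) (xP P n 0)
    rw [show (0 + 1 : ℕ) = 1 by rfl, p_W4_x1, e]
    unfold p_W4_chi
    rw [if_neg (by norm_num)]
    simp only [Nat.sub_self]
    ring
  · -- s = 2
    have h0 := p_W4_first _ _ _ (ih 0 (by norm_num))
    have h1 := p_W4_first _ _ _ (ih 1 (by norm_num))
    have k1 := ((ph1 2 (by norm_num)).const_mul (P.coeff 1 / c ^ 1)).mul h1
    have k2 := ((ph2 2).const_mul (P.coeff 2 / c ^ 2)).mul h0
    have k := k2.add k1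
    have hdel : p_W4_del (P.coeff 2 / c ^ 2) (0 + 1 + 1) = P.coeff 2 / c ^ 2 *
        (((12 : ℝ) ^ (-(1 / 3) : ℝ) * (Real.Gamma (((2 : ℕ) : ℝ) / 3) /
          Real.Gamma (((2 : ℕ) : ℝ) / 3 + 1 / 3)) : ℝ) : ℂ) * p_W4_chi 0 +
        P.coeff 1 / c ^ 1 * 0 * p_W4_chi 1 := by
      unfold p_W4_del p_W4_chi
      rw [if_pos (by norm_num), if_pos (by norm_num), mul_zero, zero_mul, add_zero, mul_one]
      congr 2
      congr 1
      push_cast
      rw [Real.Gamma_add_one (by norm_num)]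
      ring
    rw [hdel]
    refine k.congr' ?_
    filter_upwards [eventually_ge_atTop 3] with n hn
    have e1 := p_W4_step hH1 hI4 hc (n := n) (s := 2) (j := 1) le_rfl (by norm_num) (by norm_num)
      (by omega) hn (P.coeff 1) (xP P n 1)
    have e2 := p_W4_step hH1 hI4 hc (n := n) (s := 2) (j := 2) (by norm_num) le_rfl le_rfl
      (by omega) hn (P.coeff 2) (xP P n 0)
    rw [show (0 + 1 + 1 : ℕ) = 2 by rfl, p_W4_x2, add_div, add_div, e1, e2]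
    unfold p_W4_chi
    rw [if_neg (by norm_num)]
    simp only [Nat.sub_self]
    norm_num
    ring
  · -- s = t + 3
    have i0 := ih t (by omega)
    have i1 := p_W4_first _ _ _ (ih (t + 1) (by omega))
    have i2 := p_W4_first _ _ _ (ih (t + 2) (by omega))
    have k2 := ((ph2 (t + 3)).const_mul (P.coeff 2 / c ^ 2)).mul i1
    have k1 := ((ph1 (t + 3) (by omega)).const_mul (P.coeff 1 / c ^ 1)).mul i2
    have k := (i0.add k2).add k1
    rw [mul_zero, zero_mul, add_zero, p_W4_del_step] at k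
    rw [show t + 1 + 1 + 1 = t + 3 by ring]
    refine k.congr' ?_
    filter_upwards [eventually_gt_atTop (t + 3)] with n hn
    have hE := p_W4_E (n := n) (s := t + 3) (by omega) hn
    obtain ⟨-, hne, hrec⟩ := hH1 3 n c (by norm_num) hc (by omega)
    have hs := hne (t + 3) hn
    have ht := hne t (by omega)
    have hr := hrec (t + 3) (by omega) hn
    rw [show t + 3 - 3 = t by omega] at hr
    have e1 := p_W4_step hH1 hI4 hc (n := n) (s := t + 3) (j := 1) le_rfl (by norm_num) (by omega)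
      hn (by omega) (P.coeff 1) (xP P n (t + 2))
    have e2 := p_W4_step hH1 hI4 hc (n := n) (s := t + 3) (j := 2) (by norm_num) le_rfl (by omega)
      hn (by omega) (P.coeff 2) (xP P n (t + 1))
    rw [show t + 3 - 1 = t + 2 by omega] at e1
    rw [show t + 3 - 2 = t + 1 by omega] at e2
    have e3 : P.coeff 3 * xP P n t / (En n ((t + 3 : ℕ) : ℤ) : ℂ) / hh 3 c n (t + 3) =
        xP P n t / hh 3 c n t := by
      rw [hc3', div_div, div_eq_div_iff (mul_ne_zero hE hs) ht]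
      linear_combination (xP P n t) * hr
    rw [p_W4_x3 P hd, add_div, add_div, add_div, add_div, e1, e2, e3]
    have hchi : p_W4_chi (t + 3) = p_W4_chi t := by
      unfold p_W4_chi
      rw [Nat.add_mod_right]
    rw [hchi]
    ring


/-! ### the approximate solution -/

private lemma p_W4_exp (f : ℕ → ℂ) (L : ℂ)
    (h : Tendsto (fun n : ℕ => (((n : ℝ) ^ (1 / 3 : ℝ) : ℝ) : ℂ) * f n) atTop (𝓝 L)) :
    Tendsto (fun n : ℕ => (((n : ℝ) ^ (1 / 3 : ℝ) : ℝ) : ℂ) * (Complex.exp (f n) - 1)) atTop (𝓝 L) := by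
  have hf : Tendsto f atTop (𝓝 0) := by
    apply p_W4_first f 0 L
    simpa only [sub_zero] using h
  have hD : Tendsto (fun n : ℕ => (((n : ℝ) ^ (1 / 3 : ℝ) : ℝ) : ℂ) *
      (Complex.exp (f n) - 1 - f n)) atTop (𝓝 0) := by
    have h1 := h.norm.mul hf.norm
    rw [norm_zero, mul_zero] at h1
    refine squeeze_zero_norm' ?_ h1
    have hf1 : ∀ᶠ n : ℕ in atTop, ‖f n‖ < 1 :=
      hf.norm.eventually_lt_const (by rw [norm_zero]; exact one_pos)
    filter_upwards [hf1] with n hn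
    have e := Complex.norm_exp_sub_one_sub_id_le hn.le
    rw [norm_mul, norm_mul, mul_assoc]
    refine mul_le_mul_of_nonneg_left ?_ (norm_nonneg _)
    rw [← pow_two]
    exact e
  have h2 := h.add hD
  rw [add_zero] at h2
  refine h2.congr fun n => ?_
  ring

/-- the limits for the approximate solution -/
private noncomputable def p_W4_lw (A : ℂ) (s : ℕ) : ℂ :=
  if s % 3 = 2 then A * ((1 / 3 * ((4 : ℝ) ^ (-(1 / 3) : ℝ) * (3 / 2) * (s : ℝ) ^ (2 / 3 : ℝ)) : ℝ) : ℂ)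
  else 0

private lemma p_W4_WW (hW : S_W1b) (P : ℂ[X]) (c : ℂ)
    (hc3 : c ^ 3 = P.leadingCoeff) (hc : c ≠ 0) (s : ℕ) :
    Tendsto (fun n : ℕ => (((n : ℝ) ^ (1 / 3 : ℝ) : ℝ) : ℂ) * (WW P c n s - p_W4_chi s)) atTop
      (𝓝 (p_W4_lw (P.coeff 2 / c ^ 2) s)) := by
  obtain ⟨hT1, hT2, -⟩ := hW
  have t1 : Tendsto (fun n : ℕ => (((n : ℝ) ^ (1 / 3 : ℝ) : ℝ) : ℂ) * (Th 1 n s : ℂ)) atTop
      (𝓝 (((4 : ℝ) ^ (-(1 / 3) : ℝ) * (3 / 2) * (s : ℝ) ^ (2 / 3 : ℝ) : ℝ) : ℂ)) := by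
    have := (Complex.continuous_ofReal.tendsto _).comp (hT1 s)
    refine this.congr fun n => ?_
    simp only [Function.comp_apply, Complex.ofReal_mul]
  have t2 : Tendsto (fun n : ℕ => (((n : ℝ) ^ (1 / 3 : ℝ) : ℝ) : ℂ) * (Th 2 n s : ℂ)) atTop
      (𝓝 0) := by
    have := (Complex.continuous_ofReal.tendsto _).comp (hT2 s)
    rw [Complex.ofReal_zero] at this
    refine this.congr fun n => ?_
    simp only [Function.comp_apply, Complex.ofReal_mul]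
  set T : ℝ := (4 : ℝ) ^ (-(1 / 3) : ℝ) * (3 / 2) * (s : ℝ) ^ (2 / 3 : ℝ) with hT
  have hl : ∀ l ∈ Finset.range 3, Tendsto (fun n : ℕ => om 3 ^ (l * s) *
      ((((n : ℝ) ^ (1 / 3 : ℝ) : ℝ) : ℂ) *
        (Complex.exp (xi P c l * (Th 1 n s : ℂ) + zet P c l * (Th 2 n s : ℂ)) - 1))) atTop
      (𝓝 (om 3 ^ (l * s) * (xi P c l * (T : ℂ)))) := by
    intro l _
    apply Tendsto.const_mul
    apply p_W4_exp
    have h1 := (t1.const_mul (xi P c l)).add (t2.const_mul (zet P c l))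
    rw [mul_zero, add_zero] at h1
    refine h1.congr fun n => ?_
    ring
  have hsum := (tendsto_finset_sum _ hl).const_mul (1 / 3 : ℂ)
  have hlim : (1 / 3 : ℂ) * ∑ l ∈ Finset.range 3, om 3 ^ (l * s) * (xi P c l * (T : ℂ)) =
      p_W4_lw (P.coeff 2 / c ^ 2) s := by
    have e1 : ∀ l ∈ Finset.range 3, om 3 ^ (l * s) * (xi P c l * (T : ℂ)) =
        om 3 ^ (l * (s + 1)) * (P.coeff 2 / c ^ 2 * (1 / 3) * (T : ℂ)) := by
      intro l _
      unfold xi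
      rw [← hc3, mul_add l s 1, mul_one, pow_add]
      field_simp
    rw [Finset.sum_congr rfl e1, ← Finset.sum_mul, p_W4_sum_om]
    unfold p_W4_lw
    by_cases h : s % 3 = 2
    · rw [if_pos (by omega), if_pos h, hT]
      push_cast
      ring
    · rw [if_neg (by omega), if_neg h]
      ring
  rw [hlim] at hsum
  refine hsum.congr fun n => ?_
  have hchi : p_W4_chi s = (1 / 3 : ℂ) * ∑ l ∈ Finset.range 3, om 3 ^ (l * s) := by
    rw [p_W4_sum_om]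
    unfold p_W4_chi
    split_ifs <;> norm_num
  rw [hchi, WW, ← mul_sub, ← Finset.sum_sub_distrib, Finset.mul_sum, Finset.mul_sum, Finset.mul_sum]
  refine Finset.sum_congr rfl fun l _ => ?_
  ring

/-! ### the difference of the limits -/

private lemma p_W4_R (hH0 : S_H0) (s : ℕ) :
    |Real.Gamma ((s : ℝ) / 3 + 1) / Real.Gamma ((s : ℝ) / 3 + 1 / 3) - ((s : ℝ) / 3) ^ (2 / 3 : ℝ)| ≤
      ((s : ℝ) / 3 + 1 / 3) ^ (-(1 / 3) : ℝ) := by
  set x : ℝ := (s : ℝ) / 3 + 1 / 3 with hx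
  have hx0 : 0 < x := by positivity
  have hy : (s : ℝ) / 3 = x - 1 / 3 := by rw [hx]; ring
  have hy0 : 0 ≤ (s : ℝ) / 3 := by positivity
  obtain ⟨g1, g2⟩ := hH0 x (2 / 3) hx0 (by norm_num) (by norm_num)
  rw [show (s : ℝ) / 3 + 1 = x + 2 / 3 by rw [hx]; ring]
  have hG : 0 < Real.Gamma x := Real.Gamma_pos_of_pos hx0
  have hG2 : 0 < Real.Gamma (x + 2 / 3) := Real.Gamma_pos_of_pos (by linarith)
  have hp : 0 < x ^ (2 / 3 : ℝ) := Real.rpow_pos_of_pos hx0 _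
  have hpp : x ^ (2 / 3 : ℝ) * x ^ (-(2 / 3) : ℝ) = 1 := by
    rw [← Real.rpow_add hx0]; norm_num
  set R : ℝ := Real.Gamma (x + 2 / 3) / Real.Gamma x with hR
  have hRG : Real.Gamma (x + 2 / 3) = R * Real.Gamma x := by rw [hR]; field_simp
  have hR0 : 0 < R := div_pos hG2 hG
  have hq : 0 < x ^ (-(2 / 3) : ℝ) := Real.rpow_pos_of_pos hx0 _
  -- upper bound
  have u1 : R ≤ x ^ (2 / 3 : ℝ) := by
    rw [hRG, ← mul_assoc] at g1
    have g3 : x ^ (-(2 / 3) : ℝ) * R ≤ 1 := by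
      by_contra hcon
      push Not at hcon
      have := mul_lt_mul_of_pos_right hcon hG
      linarith
    calc R = x ^ (2 / 3 : ℝ) * (x ^ (-(2 / 3) : ℝ) * R) := by rw [← mul_assoc, hpp, one_mul]
      _ ≤ x ^ (2 / 3 : ℝ) * 1 := by gcongr
      _ = _ := mul_one _
  have u2 : x ^ (2 / 3 : ℝ) ≤ (1 + 1 / x) * R := by
    rw [hRG, ← mul_assoc] at g2
    have g3 : 1 ≤ x ^ (-(2 / 3) : ℝ) * (1 + 1 / x) * R := by
      by_contra hcon
      push Not at hcon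
      have := mul_lt_mul_of_pos_right hcon hG
      linarith
    calc x ^ (2 / 3 : ℝ) = x ^ (2 / 3 : ℝ) * 1 := (mul_one _).symm
      _ ≤ x ^ (2 / 3 : ℝ) * (x ^ (-(2 / 3) : ℝ) * (1 + 1 / x) * R) := by gcongr
      _ = (x ^ (2 / 3 : ℝ) * x ^ (-(2 / 3) : ℝ)) * ((1 + 1 / x) * R) := by ring
      _ = _ := by rw [hpp, one_mul]
  have hxi : 0 < 1 / x := by positivity
  have u3 : x ^ (2 / 3 : ℝ) - x ^ (2 / 3 : ℝ) * (1 / x) ≤ R := by
    have h1 : (x ^ (2 / 3 : ℝ) - x ^ (2 / 3 : ℝ) * (1 / x)) * (1 + 1 / x) ≤ R * (1 + 1 / x) := by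
      have h2 : 0 ≤ x ^ (2 / 3 : ℝ) * (1 / x) ^ 2 := by positivity
      nlinarith
    exact le_of_mul_le_mul_right h1 (by linarith)
  have hpow : x ^ (2 / 3 : ℝ) * (1 / x) = x ^ (-(1 / 3) : ℝ) := by
    rw [one_div, ← Real.rpow_neg_one x, ← Real.rpow_add hx0]
    norm_num
  -- the power
  have v1 : ((s : ℝ) / 3) ^ (2 / 3 : ℝ) ≤ x ^ (2 / 3 : ℝ) :=
    Real.rpow_le_rpow hy0 (by rw [hy]; linarith) (by norm_num)
  have v2 : x ^ (2 / 3 : ℝ) - x ^ (2 / 3 : ℝ) * (1 / x) ≤ ((s : ℝ) / 3) ^ (2 / 3 : ℝ) := by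
    have h1 : (s : ℝ) / 3 = x * (((s : ℝ) / 3) / x) := by field_simp
    have h2 : 0 ≤ ((s : ℝ) / 3) / x := by positivity
    have h3 : ((s : ℝ) / 3) / x ≤ 1 := by
      rw [div_le_one hx0, hy]; linarith
    have h4 : ((s : ℝ) / 3) / x ≤ (((s : ℝ) / 3) / x) ^ (2 / 3 : ℝ) := by
      conv_lhs => rw [← Real.rpow_one (((s : ℝ) / 3) / x)]
      exact Real.rpow_le_rpow_of_exponent_ge' h2 h3 (by norm_num) (by norm_num)
    have h5 : 1 - 1 / x ≤ ((s : ℝ) / 3) / x := by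
      rw [hy, sub_div, div_self hx0.ne']
      have : (1 / 3 : ℝ) / x ≤ 1 / x := by
        apply div_le_div_of_nonneg_right (by norm_num) hx0.le
      linarith
    calc x ^ (2 / 3 : ℝ) - x ^ (2 / 3 : ℝ) * (1 / x) = x ^ (2 / 3 : ℝ) * (1 - 1 / x) := by ring
      _ ≤ x ^ (2 / 3 : ℝ) * (((s : ℝ) / 3) / x) ^ (2 / 3 : ℝ) := by
          apply mul_le_mul_of_nonneg_left (h5.trans h4) hp.le
      _ = (x * (((s : ℝ) / 3) / x)) ^ (2 / 3 : ℝ) := (Real.mul_rpow hx0.le h2).symm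
      _ = ((s : ℝ) / 3) ^ (2 / 3 : ℝ) := by rw [← h1]
  rw [hpow] at u3 v2
  rw [abs_le]
  constructor <;> linarith

private lemma p_W4_diff (hH0 : S_H0) (A : ℂ) (s : ℕ) :
    ‖p_W4_del A s - p_W4_lw A s‖ ≤
      ‖A‖ * ((12 : ℝ) ^ (-(1 / 3) : ℝ) * (3 / 2)) * ((s : ℝ) / 3 + 1 / 3) ^ (-(1 / 3) : ℝ) := by
  have hb : (0 : ℝ) < (12 : ℝ) ^ (-(1 / 3) : ℝ) := Real.rpow_pos_of_pos (by norm_num) _
  unfold p_W4_del p_W4_lw
  by_cases h : s % 3 = 2
  · rw [if_pos h, if_pos h, ← mul_sub, ← Complex.ofReal_sub, norm_mul, Complex.norm_real,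
      Real.norm_eq_abs, mul_assoc ‖A‖]
    refine mul_le_mul_of_nonneg_left ?_ (norm_nonneg A)
    have e : (1 / 3 : ℝ) * ((4 : ℝ) ^ (-(1 / 3) : ℝ) * (3 / 2) * (s : ℝ) ^ (2 / 3 : ℝ)) =
        (12 : ℝ) ^ (-(1 / 3) : ℝ) * (3 / 2) * ((s : ℝ) / 3) ^ (2 / 3 : ℝ) := by
      rw [show (12 : ℝ) = 4 * 3 by norm_num, Real.mul_rpow (by norm_num) (by norm_num),
        Real.div_rpow (Nat.cast_nonneg s) (by norm_num)]
      have h3 : (3 : ℝ) ^ (-(1 / 3) : ℝ) = 1 / 3 * (3 : ℝ) ^ (2 / 3 : ℝ) := by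
        rw [show (1 / 3 : ℝ) * (3 : ℝ) ^ (2 / 3 : ℝ) = (3 : ℝ) ^ (-1 : ℝ) * (3 : ℝ) ^ (2 / 3 : ℝ) by
          rw [Real.rpow_neg_one]; norm_num, ← Real.rpow_add (by norm_num)]
        norm_num
      have h4 : (3 : ℝ) ^ (2 / 3 : ℝ) ≠ 0 := (Real.rpow_pos_of_pos (by norm_num) _).ne'
      rw [h3]
      field_simp
    rw [e]
    have e2 : (12 : ℝ) ^ (-(1 / 3) : ℝ) * (3 / 2 *
        (Real.Gamma ((s : ℝ) / 3 + 1) / Real.Gamma ((s : ℝ) / 3 + 1 / 3))) -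
        (12 : ℝ) ^ (-(1 / 3) : ℝ) * (3 / 2) * ((s : ℝ) / 3) ^ (2 / 3 : ℝ) =
        (12 : ℝ) ^ (-(1 / 3) : ℝ) * (3 / 2) *
          (Real.Gamma ((s : ℝ) / 3 + 1) / Real.Gamma ((s : ℝ) / 3 + 1 / 3) -
            ((s : ℝ) / 3) ^ (2 / 3 : ℝ)) := by ring
    rw [e2, abs_mul, abs_of_pos (by positivity)]
    exact mul_le_mul_of_nonneg_left (p_W4_R hH0 s) (by positivity)
  · rw [if_neg h, if_neg h, sub_zero, norm_zero]
    positivity

theorem p_W4 (hH0 : S_H0) (hH1 : S_H1) (hI4 : S_I4) (hW : S_W1b) : S_W4 := by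
  intro P c _ hd hc3 ε hε
  have hc : c ≠ 0 := by
    rintro rfl
    have h1 : P.leadingCoeff = 0 := by rw [← hc3]; norm_num
    rw [Polynomial.leadingCoeff_eq_zero] at h1
    rw [h1] at hd
    simp at hd
  have hlim : Tendsto (fun s : ℕ => ‖P.coeff 2 / c ^ 2‖ * ((12 : ℝ) ^ (-(1 / 3) : ℝ) * (3 / 2)) *
      ((s : ℝ) / 3 + 1 / 3) ^ (-(1 / 3) : ℝ)) atTop (𝓝 0) := by
    have h1 : Tendsto (fun x : ℝ => x ^ (-(1 / 3) : ℝ)) atTop (𝓝 0) :=
      tendsto_rpow_neg_atTop (by norm_num)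
    have h2 : Tendsto (fun s : ℕ => (s : ℝ) / 3 + 1 / 3) atTop atTop := by
      apply tendsto_atTop_add_const_right
      exact Tendsto.atTop_div_const (by norm_num) tendsto_natCast_atTop_atTop
    have h3 := (h1.comp h2).const_mul (‖P.coeff 2 / c ^ 2‖ * ((12 : ℝ) ^ (-(1 / 3) : ℝ) * (3 / 2)))
    rw [mul_zero] at h3
    exact h3
  obtain ⟨S₀, hS₀⟩ := eventually_atTop.mp (hlim.eventually_lt_const hε)
  refine ⟨S₀, fun s hs => ?_⟩
  have hsm : ‖p_W4_del (P.coeff 2 / c ^ 2) s - p_W4_lw (P.coeff 2 / c ^ 2) s‖ < ε :=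
    (p_W4_diff hH0 _ s).trans_lt (hS₀ s hs)
  have t := ((p_W4_main hH0 hH1 hI4 P c hd hc3 hc s).sub (p_W4_WW hW P c hc3 hc s)).norm
  filter_upwards [t.eventually_lt_const hsm, eventually_gt_atTop 0] with n hn hn0
  have hn0r : (0 : ℝ) < n := by exact_mod_cast hn0
  rw [← mul_sub, sub_sub_sub_cancel_right, norm_mul, Complex.norm_real, Real.norm_eq_abs,
    abs_of_nonneg (Real.rpow_nonneg hn0r.le _)] at hn
  have hr : (n : ℝ) ^ (-(1 / 3) : ℝ) * (n : ℝ) ^ (1 / 3 : ℝ) = 1 := by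
    rw [← Real.rpow_add hn0r]; norm_num
  have hrp : 0 < (n : ℝ) ^ (-(1 / 3) : ℝ) := Real.rpow_pos_of_pos hn0r _
  calc ‖xP P n s / hh 3 c n s - WW P c n s‖
      = (n : ℝ) ^ (-(1 / 3) : ℝ) * ((n : ℝ) ^ (1 / 3 : ℝ) *
        ‖xP P n s / hh 3 c n s - WW P c n s‖) := by rw [← mul_assoc, hr, one_mul]
    _ ≤ (n : ℝ) ^ (-(1 / 3) : ℝ) * ε := mul_le_mul_of_nonneg_left hn.le hrp.le
    _ = ε * (n : ℝ) ^ (-(1 / 3) : ℝ) := mul_comm _ _

end HillRoots
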