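import Pool.Agent.Lib.MP_e63cf8_mp.H.StmW

/-!
# MP_e63cf8_mp: piece W5 (propagation)
-/

open Polynomial Filter Topology MeasureTheory Asymptotics

namespace HillRoots

private theorem p_W5_x {P : ℂ[X]} (hd : P.natDegree = 3) (n m : ℕ)
    (hE : (En n ((m + 3 : ℕ) : ℤ) : ℂ) ≠ 0) :
    (En n ((m + 3 : ℕ) : ℤ) : ℂ) * xP P n (m + 3) =
      P.coeff 3 * xP P n m + P.coeff 2 * xP P n (m + 1) + P.coeff 1 * xP P n (m + 2) := by
  have e1 : (((m + 2 : ℕ) : ℤ) + 1) = ((m + 3 : ℕ) : ℤ) := by push_cast; ring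
  have e2 : xP P n (m + 3) = (∑ i : Fin (m + 3), P.coeff (m + 3 - (i : ℕ)) * xP P n i) /
      (En n ((m + 3 : ℕ) : ℤ) : ℂ) := by
    rw [show m + 3 = (m + 2) + 1 from rfl, xP, ← e1]
  rw [e2, mul_div_cancel₀ _ hE, Fin.sum_univ_eq_sum_range (fun i => P.coeff (m + 3 - i) * xP P n i),
    Finset.sum_range_succ, Finset.sum_range_succ, Finset.sum_range_succ]
  have e3 : ∑ i ∈ Finset.range m, P.coeff (m + 3 - i) * xP P n i = 0 := by
    refine Finset.sum_eq_zero fun i hi => ?_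
    rw [Finset.mem_range] at hi
    rw [Polynomial.coeff_eq_zero_of_natDegree_lt (by omega), zero_mul]
  rw [e3, show m + 3 - m = 3 by omega, show m + 3 - (m + 1) = 2 by omega,
    show m + 3 - (m + 2) = 1 by omega, zero_add]

private theorem p_W5_E {n k : ℕ} (h1 : 1 ≤ k) (hk : k < n) : (En n (k : ℤ) : ℂ) ≠ 0 := by
  have h2 : (0 : ℝ) < (k : ℝ) := by exact_mod_cast h1
  have h3 : (k : ℝ) < (n : ℝ) := by exact_mod_cast hk
  have h4 : En n (k : ℤ) ≠ 0 := by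
    unfold En
    have : (0 : ℝ) < 4 * ((k : ℤ) : ℝ) * ((n : ℝ) - ((k : ℤ) : ℝ)) := by
      have e : (((k : ℤ)) : ℝ) = (k : ℝ) := by norm_cast
      rw [e]
      have : (0 : ℝ) < (n : ℝ) - k := by linarith
      positivity
    exact this.ne'
  exact_mod_cast h4

private theorem p_W5_rec (hH1 : S_H1) {P : ℂ[X]} {c : ℂ} (hc0 : c ≠ 0)
    (hd : P.natDegree = 3) (hc : c ^ 3 = P.leadingCoeff) {n k : ℕ} (h3 : 3 ≤ k) (hk : k < n) :
    xP P n k / hh 3 c n k = xP P n (k - 3) / hh 3 c n (k - 3) +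
      (ff P c n k 2 * (xP P n (k - 2) / hh 3 c n (k - 2)) +
        ff P c n k 1 * (xP P n (k - 1) / hh 3 c n (k - 1))) := by
  obtain ⟨m, rfl⟩ : ∃ m, k = m + 3 := ⟨k - 3, by omega⟩
  have hE := p_W5_E (n := n) (k := m + 3) (by omega) hk
  have hx := p_W5_x hd n m hE
  obtain ⟨_, hne, hq⟩ := hH1 3 n c (by norm_num) hc0 (by omega)
  have hq' := hq (m + 3) (by omega) hk
  have hlc : P.leadingCoeff = P.coeff 3 := by rw [Polynomial.leadingCoeff, hd]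
  rw [show m + 3 - 3 = m by omega] at hq' ⊢
  rw [show m + 3 - 2 = m + 1 by omega, show m + 3 - 1 = m + 2 by omega]
  have n3 := hne (m + 3) hk
  have n2 := hne (m + 2) (by omega)
  have n1 := hne (m + 1) (by omega)
  have n0 := hne m (by omega)
  have f2 : ff P c n (m + 3) 2 = P.coeff 2 * hh 3 c n (m + 1) /
      ((En n ((m + 3 : ℕ) : ℤ) : ℂ) * hh 3 c n (m + 3)) := by
    unfold ff
    rw [if_pos (by omega), hd, show m + 3 - 2 = m + 1 by omega]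
  have f1 : ff P c n (m + 3) 1 = P.coeff 1 * hh 3 c n (m + 2) /
      ((En n ((m + 3 : ℕ) : ℤ) : ℂ) * hh 3 c n (m + 3)) := by
    unfold ff
    rw [if_pos (by omega), hd, show m + 3 - 1 = m + 2 by omega]
  rw [f2, f1]
  have e1 : P.coeff 2 * hh 3 c n (m + 1) / ((En n ((m + 3 : ℕ) : ℤ) : ℂ) * hh 3 c n (m + 3)) *
      (xP P n (m + 1) / hh 3 c n (m + 1)) =
      P.coeff 2 * xP P n (m + 1) / ((En n ((m + 3 : ℕ) : ℤ) : ℂ) * hh 3 c n (m + 3)) := by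
    field_simp
  have e2 : P.coeff 1 * hh 3 c n (m + 2) / ((En n ((m + 3 : ℕ) : ℤ) : ℂ) * hh 3 c n (m + 3)) *
      (xP P n (m + 2) / hh 3 c n (m + 2)) =
      P.coeff 1 * xP P n (m + 2) / ((En n ((m + 3 : ℕ) : ℤ) : ℂ) * hh 3 c n (m + 3)) := by
    field_simp
  have e3 : xP P n m / hh 3 c n m =
      P.coeff 3 * xP P n m / ((En n ((m + 3 : ℕ) : ℤ) : ℂ) * hh 3 c n (m + 3)) := by
    rw [← hq', hc, hlc, div_eq_div_iff n0 (mul_ne_zero _ n0)]
    · ring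
    · rw [← hlc, ← hc]
      exact pow_ne_zero _ hc0
  rw [e1, e2, e3, ← add_div, ← add_div, div_eq_div_iff n3 (mul_ne_zero hE n3)]
  linear_combination hh 3 c n (m + 3) * hx

private theorem p_W5_Th {n s : ℕ} (hs : s ≤ n) : 0 ≤ Th 1 n s := by
  unfold Th
  refine intervalIntegral.integral_nonneg (by positivity) fun t ht => ?_
  obtain ⟨h1, h2⟩ := ht
  refine Real.rpow_nonneg ?_ _
  have : (s : ℝ) ≤ n := by exact_mod_cast hs
  have h3 : 0 ≤ (n : ℝ) - t := by linarith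
  positivity

private theorem p_W5_tail {ε : ℝ} (hε : 0 < ε) : ∃ S : ℕ, ∀ k : ℕ,
    ∑ i ∈ Finset.Icc S k, (i : ℝ) ^ (-(4 / 3) : ℝ) ≤ ε := by
  have hs : Summable (fun i : ℕ => (i : ℝ) ^ (-(4 / 3) : ℝ)) :=
    Real.summable_nat_rpow.mpr (by norm_num)
  obtain ⟨s, hs⟩ := (summable_iff_vanishing_norm.mp hs) ε hε
  refine ⟨s.sup id + 1, fun k => ?_⟩
  have h1 := hs (Finset.Icc (s.sup id + 1) k) ?_
  · exact (le_abs_self _).trans h1.le
  · rw [Finset.disjoint_left]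
    intro i hi his
    rw [Finset.mem_Icc] at hi
    have := Finset.le_sup (f := id) his
    simp only [id] at this
    omega

private theorem p_W5_brk {n i : ℕ} (h1 : 1 ≤ i) (hi : i ≤ n) :
    (n : ℝ) ^ (-(1 / 3) : ℝ) * (i : ℝ) ^ (-(4 / 3) : ℝ) + 1 / ((n : ℝ) * i) ≤
      2 * ((n : ℝ) ^ (-(1 / 3) : ℝ) * (i : ℝ) ^ (-(4 / 3) : ℝ)) := by
  have hi0 : (0 : ℝ) < i := by exact_mod_cast h1
  have hn1 : (1 : ℝ) ≤ n := by exact_mod_cast h1.trans hi
  have hn0 : (0 : ℝ) < n := by linarith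
  have hin : (i : ℝ) ≤ n := by exact_mod_cast hi
  have h2 : 1 / ((n : ℝ) * i) ≤ (n : ℝ) ^ (-(1 / 3) : ℝ) * (i : ℝ) ^ (-(4 / 3) : ℝ) := by
    have e1 : 1 / ((n : ℝ) * i) = (n : ℝ) ^ (-1 : ℝ) * ((i : ℝ) ^ (1 / 3 : ℝ) *
        (i : ℝ) ^ (-(4 / 3) : ℝ)) := by
      rw [← Real.rpow_add hi0, Real.rpow_neg_one, one_div, mul_inv]
      congr 1
      rw [show (1 / 3 + -(4 / 3) : ℝ) = -1 by norm_num, Real.rpow_neg_one]
    rw [e1, ← mul_assoc]
    refine mul_le_mul_of_nonneg_right ?_ (Real.rpow_nonneg hi0.le _)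
    calc (n : ℝ) ^ (-1 : ℝ) * (i : ℝ) ^ (1 / 3 : ℝ)
        ≤ (n : ℝ) ^ (-1 : ℝ) * (n : ℝ) ^ (1 / 3 : ℝ) :=
          mul_le_mul_of_nonneg_left (Real.rpow_le_rpow hi0.le hin (by norm_num))
            (Real.rpow_nonneg hn0.le _)
      _ = (n : ℝ) ^ (-(2 / 3) : ℝ) := by
          rw [← Real.rpow_add hn0]
          norm_num
      _ ≤ (n : ℝ) ^ (-(1 / 3) : ℝ) := Real.rpow_le_rpow_of_exponent_le hn1 (by norm_num)
  linarith

theorem p_W5 (hH1 : S_H1) (hH4 : S_H4) (hU1 : S_U1) (hU2 : S_U2) (hL2 : S_L2) (hW2 : S_W2)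
    (hW3 : S_W3) (hW4 : S_W4) : S_W5 := by
  intro P c g τ₀ K δ h0 hdeg hB η hη
  have hc0 := hB.c0
  have hc : c ^ 3 = P.leadingCoeff := by rw [← hB.hc, hdeg]
  have hL : LDat 3 (fun j => P.coeff j / c ^ j) (br 3 c g) τ₀ K δ := by
    have := hB.ld
    rwa [hdeg] at this
  obtain ⟨C₂, hC₂, hL2'⟩ := hL2 3 _ _ τ₀ K δ hL
  obtain ⟨hxi, hxi0, C₁, hC₁, hW2'⟩ := hW2 P c g τ₀ K δ h0 hdeg hB
  obtain ⟨C₃, hC₃, hW3'⟩ := hW3 P c h0 hdeg hc hxi
  obtain ⟨ε, hε⟩ : ∃ ε : ℝ, ε = η / (C₂ * C₁ * (12 + 2 * C₃)) := ⟨_, rfl⟩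
  have hε0 : 0 < ε := by rw [hε]; positivity
  obtain ⟨S₁, hS₁⟩ := hW4 P c h0 hdeg hc ε hε0
  obtain ⟨S₂, hS₂⟩ := p_W5_tail hε0
  obtain ⟨S₀, hS₀⟩ : ∃ S₀ : ℕ, S₀ = max 7 (max S₁ S₂) := ⟨_, rfl⟩
  have h7 : 7 ≤ S₀ := by rw [hS₀]; exact le_max_left _ _
  have hS1 : S₁ ≤ S₀ := by rw [hS₀]; exact (le_max_left _ _).trans (le_max_right _ _)
  have hS2 : S₂ ≤ S₀ := by rw [hS₀]; exact (le_max_right _ _).trans (le_max_right _ _)
  refine ⟨S₀, ?_⟩
  -- the small parameter for the coefficients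
  obtain ⟨ε₁, hε₁⟩ : ∃ ε₁ : ℝ, ε₁ = 1 / (2 * (1 + ‖P.coeff 1 / c ^ 1‖ + ‖P.coeff 2 / c ^ 2‖)) :=
    ⟨_, rfl⟩
  have hε₁0 : 0 < ε₁ := by rw [hε₁]; positivity
  have hH4' : ∀ᶠ n : ℕ in atTop, ∑ s ∈ Finset.Icc 1 (n - 1), ∑ j ∈ Finset.Ico 1 3,
      ‖ff P c n s j - P.coeff j / c ^ j * (tau 3 n s : ℂ) ^ (3 - j)‖ ≤ 1 / 2 := by
    have := hH4 P c hc0
    rw [hdeg] at this
    exact (this.eventually (gt_mem_nhds (show (0 : ℝ) < 1 / 2 by norm_num))).mono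
      fun n hn => hn.le
  have hU2' : ∀ᶠ n : ℕ in atTop, ∑ k ∈ Finset.Icc 1 (n - 1), |tau 3 n k - tau 3 n (k - 1)| ≤ 1 :=
    ((hU2 3 (by norm_num)).eventually (gt_mem_nhds one_pos)).mono fun n hn => hn.le
  filter_upwards [hW2', hW3', hS₁ S₀ hS1, hS₁ (S₀ + 1) (by omega), hS₁ (S₀ + 2) (by omega), hH4',
    hU2', hU1 3 τ₀ (by norm_num) hL.ht, hU1 3 ε₁ (by norm_num) hε₁0,
    eventually_ge_atTop (3 * S₀ + 10)] with n w2 w3 w4a w4b w4c h4 u2 u1 u1' hn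
  obtain ⟨N, hN⟩ : ∃ N : ℕ, N = 2 * n / 3 := ⟨_, rfl⟩
  have hNn : N < n := by omega
  have hN3 : 3 * N ≤ 2 * n := by omega
  have hNS : S₀ + 2 ≤ N := by omega
  obtain ⟨p, hp⟩ : ∃ p : ℝ, p = (n : ℝ) ^ (-(1 / 3) : ℝ) := ⟨_, rfl⟩
  have hp0 : 0 ≤ p := by rw [hp]; exact Real.rpow_nonneg (by positivity) _
  -- the coefficients are at most one
  have hf : ∀ k j : ℕ, 1 ≤ k → k < n → (j = 1 ∨ j = 2) → ‖ff P c n k j‖ ≤ 1 := by
    intro k j hk1 hkn hj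
    have hj' : j ∈ Finset.Ico 1 3 := by
      rw [Finset.mem_Ico]
      omega
    have h5 : ‖ff P c n k j - P.coeff j / c ^ j * (tau 3 n k : ℂ) ^ (3 - j)‖ ≤ 1 / 2 := by
      refine le_trans ?_ h4
      refine le_trans ?_ (Finset.single_le_sum (f := fun s => ∑ j ∈ Finset.Ico 1 3,
        ‖ff P c n s j - P.coeff j / c ^ j * (tau 3 n s : ℂ) ^ (3 - j)‖)
        (fun s _ => Finset.sum_nonneg fun j _ => norm_nonneg _)
        (Finset.mem_Icc.mpr ⟨hk1, (by omega : k ≤ n - 1)⟩))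
      exact Finset.single_le_sum (f := fun j =>
        ‖ff P c n k j - P.coeff j / c ^ j * (tau 3 n k : ℂ) ^ (3 - j)‖)
        (fun j _ => norm_nonneg _) hj'
    obtain ⟨t0, t1⟩ := u1' k hkn
    have hε1 : ε₁ ≤ 1 := by
      rw [hε₁, div_le_one (by positivity)]
      have := norm_nonneg (P.coeff 1 / c ^ 1)
      have := norm_nonneg (P.coeff 2 / c ^ 2)
      linarith
    have h6 : ‖P.coeff j / c ^ j * (tau 3 n k : ℂ) ^ (3 - j)‖ ≤ 1 / 2 := by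
      rw [norm_mul, norm_pow, Complex.norm_real, Real.norm_of_nonneg t0]
      have h7 : tau 3 n k ^ (3 - j) ≤ ε₁ := by
        rcases hj with rfl | rfl
        · calc tau 3 n k ^ (3 - 1) = tau 3 n k * tau 3 n k := by ring
            _ ≤ ε₁ * 1 := mul_le_mul t1 (t1.trans hε1) t0 hε₁0.le
            _ = ε₁ := mul_one _
        · calc tau 3 n k ^ (3 - 2) = tau 3 n k := by ring
            _ ≤ ε₁ := t1
      have h8 : ‖P.coeff j / c ^ j‖ ≤ 1 + ‖P.coeff 1 / c ^ 1‖ + ‖P.coeff 2 / c ^ 2‖ := by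
        have := norm_nonneg (P.coeff 1 / c ^ 1)
        have := norm_nonneg (P.coeff 2 / c ^ 2)
        rcases hj with rfl | rfl <;> linarith
      calc ‖P.coeff j / c ^ j‖ * tau 3 n k ^ (3 - j)
          ≤ (1 + ‖P.coeff 1 / c ^ 1‖ + ‖P.coeff 2 / c ^ 2‖) * ε₁ :=
            mul_le_mul h8 h7 (pow_nonneg t0 _) (by positivity)
        _ = 1 / 2 := by
            rw [hε₁]
            have : 1 + ‖P.coeff 1 / c ^ 1‖ + ‖P.coeff 2 / c ^ 2‖ ≠ 0 := by positivity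
            field_simp
    have e : ff P c n k j = (ff P c n k j - P.coeff j / c ^ j * (tau 3 n k : ℂ) ^ (3 - j)) +
        P.coeff j / c ^ j * (tau 3 n k : ℂ) ^ (3 - j) := by ring
    rw [e]
    refine (norm_add_le _ _).trans ?_
    linarith
  -- the difference
  obtain ⟨v, hv⟩ : ∃ v : ℕ → ℂ, v = fun s => xP P n s / hh 3 c n s - WW P c n s := ⟨_, rfl⟩
  obtain ⟨d, hd⟩ : ∃ d : ℤ → ℂ, d = fun s => if (S₀ : ℤ) ≤ s ∧ s ≤ N then v s.toNat else 0 :=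
    ⟨_, rfl⟩
  have hd1 : ∀ k : ℕ, S₀ ≤ k → k ≤ N → d k = v k := by
    intro k h1 h2
    rw [hd]
    simp only
    rw [if_pos ⟨by exact_mod_cast h1, by exact_mod_cast h2⟩, Int.toNat_natCast]
  have hd0 : ∀ s : ℤ, s < S₀ → d s = 0 := by
    intro s hs
    rw [hd]
    simp only
    rw [if_neg (fun h => by omega)]
  obtain ⟨r, hr⟩ : ∃ r : ℕ → ℂ, r = fun k : ℕ => d (k : ℤ) - d ((k : ℤ) - (3 : ℕ)) -
      ∑ j ∈ Finset.Ico 1 3, ff P c n k j * d ((k : ℤ) - (j : ℕ)) := ⟨_, rfl⟩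
  have hrk : ∀ k : ℕ, r k = d k - d ((k : ℤ) - 3) - (ff P c n k 1 * d ((k : ℤ) - 1) +
      ff P c n k 2 * d ((k : ℤ) - 2)) := by
    intro k
    rw [hr]
    simp only
    rw [show Finset.Ico 1 3 = {1, 2} from rfl, Finset.sum_pair (by norm_num)]
    push_cast
    rfl
  have hvS : ∀ k : ℕ, S₀ ≤ k → k ≤ S₀ + 2 → ‖v k‖ ≤ ε * p := by
    intro k h1 h2
    rw [hv, hp]
    simp only
    have : k = S₀ ∨ k = S₀ + 1 ∨ k = S₀ + 2 := by omega
    rcases this with rfl | rfl | rfl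
    · exact w4a
    · exact w4b
    · exact w4c
  have hds : ∀ s : ℤ, s ≤ S₀ + 2 → ‖d s‖ ≤ ε * p := by
    intro s hs
    by_cases h : s < S₀
    · rw [hd0 s h, norm_zero]
      positivity
    · obtain ⟨k, rfl⟩ := Int.eq_ofNat_of_zero_le (by omega : (0 : ℤ) ≤ s)
      have h1 : S₀ ≤ k := by
        have : (S₀ : ℤ) ≤ (k : ℤ) := by
          have := not_lt.mp h
          exact_mod_cast this
        exact_mod_cast this
      have h2 : k ≤ S₀ + 2 := by exact_mod_cast hs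
      have h3 := hd1 k h1 (by omega)
      change ‖d (k : ℤ)‖ ≤ _
      rw [h3]
      exact hvS k h1 h2
  -- bounds of the forcing
  have hG : ∀ i, i ≤ N → 0 < GG 3 c g n i ∧ 1 / GG 3 c g n i ≤ C₁ ∧
      Real.exp ((xi P c 0).re * Th 1 n i) / GG 3 c g n i ≤ C₁ := by
    intro i hi
    obtain ⟨a, _⟩ := w2 i (by omega)
    have h1 : 1 ≤ Real.exp ((xi P c 0).re * Th 1 n i) :=
      Real.one_le_exp (mul_nonneg hxi0 (p_W5_Th (by omega)))
    have h2 : 0 < GG 3 c g n i := by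
      have h3 : 0 < C₁ * GG 3 c g n i := lt_of_lt_of_le (by positivity) a
      exact (mul_pos_iff_of_pos_left hC₁).mp h3
    refine ⟨h2, ?_, ?_⟩
    · rw [div_le_iff₀ h2]
      exact h1.trans a
    · rw [div_le_iff₀ h2]
      exact a
  have hr0 : ∀ i : ℕ, i < S₀ → r i = 0 := by
    intro i hi
    rw [hrk, hd0 _ (by omega), hd0 _ (by omega), hd0 _ (by omega), hd0 _ (by omega)]
    ring
  have hr1 : ∀ i : ℕ, S₀ ≤ i → i ≤ S₀ + 2 → ‖r i‖ / GG 3 c g n i ≤ 4 * ε * p * C₁ := by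
    intro i h1 h2
    obtain ⟨g1, g2, _⟩ := hG i (by omega)
    have h3 : ‖r i‖ ≤ 4 * ε * p := by
      rw [hrk]
      have a0 := hds i (by exact_mod_cast h2)
      have a3 := hds ((i : ℤ) - 3) (by omega)
      have a1 := hds ((i : ℤ) - 1) (by omega)
      have a2 := hds ((i : ℤ) - 2) (by omega)
      have b1 := hf i 1 (by omega) (by omega) (Or.inl rfl)
      have b2 := hf i 2 (by omega) (by omega) (Or.inr rfl)
      have c1 : ‖ff P c n i 1 * d ((i : ℤ) - 1)‖ ≤ ε * p := by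
        rw [norm_mul]
        calc _ ≤ 1 * (ε * p) := mul_le_mul b1 a1 (norm_nonneg _) zero_le_one
          _ = _ := one_mul _
      have c2 : ‖ff P c n i 2 * d ((i : ℤ) - 2)‖ ≤ ε * p := by
        rw [norm_mul]
        calc _ ≤ 1 * (ε * p) := mul_le_mul b2 a2 (norm_nonneg _) zero_le_one
          _ = _ := one_mul _
      calc ‖d i - d ((i : ℤ) - 3) - (ff P c n i 1 * d ((i : ℤ) - 1) +
            ff P c n i 2 * d ((i : ℤ) - 2))‖
          ≤ ‖d i - d ((i : ℤ) - 3)‖ + ‖ff P c n i 1 * d ((i : ℤ) - 1) +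
            ff P c n i 2 * d ((i : ℤ) - 2)‖ := norm_sub_le _ _
        _ ≤ (‖d i‖ + ‖d ((i : ℤ) - 3)‖) + (‖ff P c n i 1 * d ((i : ℤ) - 1)‖ +
            ‖ff P c n i 2 * d ((i : ℤ) - 2)‖) := add_le_add (norm_sub_le _ _) (norm_add_le _ _)
        _ ≤ 4 * ε * p := by linarith
    calc ‖r i‖ / GG 3 c g n i = ‖r i‖ * (1 / GG 3 c g n i) := by ring
      _ ≤ 4 * ε * p * C₁ := mul_le_mul h3 g2 (by positivity) (by positivity)
  have hr2 : ∀ i : ℕ, S₀ + 3 ≤ i → i ≤ N →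
      ‖r i‖ / GG 3 c g n i ≤ 2 * C₃ * C₁ * p * (i : ℝ) ^ (-(4 / 3) : ℝ) := by
    intro i h1 h2
    obtain ⟨g1, _, g3⟩ := hG i h2
    have e3 : (i : ℤ) - 3 = ((i - 3 : ℕ) : ℤ) := by omega
    have e2 : (i : ℤ) - 2 = ((i - 2 : ℕ) : ℤ) := by omega
    have e1 : (i : ℤ) - 1 = ((i - 1 : ℕ) : ℤ) := by omega
    have h3 : r i = -(WW P c n i - WW P c n (i - 3) - ff P c n i 2 * WW P c n (i - 2) -
        ff P c n i 1 * WW P c n (i - 1)) := by
      rw [hrk, e3, e2, e1, hd1 i (by omega) h2, hd1 (i - 3) (by omega) (by omega),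
        hd1 (i - 2) (by omega) (by omega), hd1 (i - 1) (by omega) (by omega), hv]
      simp only
      have := p_W5_rec hH1 hc0 hdeg hc (n := n) (k := i) (by omega) (by omega)
      linear_combination this
    have h4 := w3 i (by omega) (by omega)
    have h5 := p_W5_brk (n := n) (i := i) (by omega) (by omega)
    rw [h3, norm_neg]
    have hex : 0 ≤ Real.exp ((xi P c 0).re * Th 1 n i) := (Real.exp_pos _).le
    calc ‖WW P c n i - WW P c n (i - 3) - ff P c n i 2 * WW P c n (i - 2) -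
          ff P c n i 1 * WW P c n (i - 1)‖ / GG 3 c g n i
        ≤ (C₃ * Real.exp ((xi P c 0).re * Th 1 n i) * ((n : ℝ) ^ (-(1 / 3) : ℝ) *
          (i : ℝ) ^ (-(4 / 3) : ℝ) + 1 / ((n : ℝ) * i))) / GG 3 c g n i :=
          div_le_div_of_nonneg_right h4 g1.le
      _ ≤ (C₃ * Real.exp ((xi P c 0).re * Th 1 n i) * (2 * ((n : ℝ) ^ (-(1 / 3) : ℝ) *
          (i : ℝ) ^ (-(4 / 3) : ℝ)))) / GG 3 c g n i :=
          div_le_div_of_nonneg_right (mul_le_mul_of_nonneg_left h5 (by positivity)) g1.le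
      _ = 2 * C₃ * (Real.exp ((xi P c 0).re * Th 1 n i) / GG 3 c g n i) *
          ((n : ℝ) ^ (-(1 / 3) : ℝ) * (i : ℝ) ^ (-(4 / 3) : ℝ)) := by ring
      _ ≤ 2 * C₃ * C₁ * ((n : ℝ) ^ (-(1 / 3) : ℝ) * (i : ℝ) ^ (-(4 / 3) : ℝ)) := by
          refine mul_le_mul_of_nonneg_right (mul_le_mul_of_nonneg_left g3 (by positivity)) ?_
          positivity
      _ = 2 * C₃ * C₁ * p * (i : ℝ) ^ (-(4 / 3) : ℝ) := by rw [hp]; ring
  -- the recursion lemma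
  have ht0 : tau 3 n 0 = 0 := by
    unfold tau
    rw [Nat.cast_zero, mul_zero, zero_mul, Real.zero_rpow (by norm_num)]
  have hkey := hL2' N (fun k => tau 3 n k) (fun k j => ff P c n k j) d r ht0
    (fun k hk => u1 k (by omega))
    (le_trans (Finset.sum_le_sum_of_subset_of_nonneg
      (Finset.Icc_subset_Icc le_rfl (by omega)) fun _ _ _ => abs_nonneg _) u2)
    (le_trans (Finset.sum_le_sum_of_subset_of_nonneg
      (Finset.Icc_subset_Icc le_rfl (by omega : N ≤ n - 1)) fun _ _ _ =>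
        Finset.sum_nonneg fun _ _ => norm_nonneg _) (h4.trans (by norm_num)))
    (fun s hs => hd0 s (by omega))
    (fun k _ _ => by
      rw [hr]
      simp only
      ring)
  intro s hs hs3
  have hsN : s ≤ N := by omega
  have h1 := hkey s hsN
  rw [hd1 s hs hsN, hv] at h1
  simp only at h1
  refine h1.trans ?_
  change C₂ * GG 3 c g n s * ∑ i ∈ Finset.Icc 1 s, ‖r i‖ / GG 3 c g n i ≤ _
  rw [← hp]
  have hGs := (hG s hsN).1
  -- the sum
  have hsum : ∑ i ∈ Finset.Icc 1 s, ‖r i‖ / GG 3 c g n i ≤ (12 + 2 * C₃) * C₁ * ε * p := by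
    have hpt : ∀ i ∈ Finset.Icc 1 s, ‖r i‖ / GG 3 c g n i ≤
        (if S₀ ≤ i ∧ i ≤ S₀ + 2 then 4 * ε * p * C₁ else 0) +
        (if S₀ ≤ i then 2 * C₃ * C₁ * p * (i : ℝ) ^ (-(4 / 3) : ℝ) else 0) := by
      intro i hi
      rw [Finset.mem_Icc] at hi
      have hnn : 0 ≤ 2 * C₃ * C₁ * p * (i : ℝ) ^ (-(4 / 3) : ℝ) := by positivity
      have hnn2 : 0 ≤ 4 * ε * p * C₁ := by positivity
      by_cases a : S₀ ≤ i
      · by_cases b : i ≤ S₀ + 2
        · rw [if_pos ⟨a, b⟩, if_pos a]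
          have := hr1 i a b
          linarith
        · rw [if_neg (fun h => b h.2), if_pos a, zero_add]
          exact hr2 i (by omega) (by omega)
      · rw [hr0 i (by omega), norm_zero, zero_div, if_neg (fun h => a h.1), if_neg a, add_zero]
    refine (Finset.sum_le_sum hpt).trans ?_
    rw [Finset.sum_add_distrib, ← Finset.sum_filter, ← Finset.sum_filter, Finset.sum_const,
      nsmul_eq_mul, ← Finset.mul_sum]
    have hcard : (((Finset.Icc 1 s).filter (fun i => S₀ ≤ i ∧ i ≤ S₀ + 2)).card : ℝ) ≤ 3 := by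
      have : ((Finset.Icc 1 s).filter (fun i => S₀ ≤ i ∧ i ≤ S₀ + 2)).card ≤
          (Finset.Icc S₀ (S₀ + 2)).card := by
        refine Finset.card_le_card fun i hi => ?_
        rw [Finset.mem_filter] at hi
        exact Finset.mem_Icc.mpr hi.2
      rw [Nat.card_Icc] at this
      have h3 : ((Finset.Icc 1 s).filter (fun i => S₀ ≤ i ∧ i ≤ S₀ + 2)).card ≤ 3 := by omega
      exact_mod_cast h3
    have htail : ∑ i ∈ (Finset.Icc 1 s).filter (fun i => S₀ ≤ i), (i : ℝ) ^ (-(4 / 3) : ℝ) ≤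
        ε := by
      refine le_trans (Finset.sum_le_sum_of_subset_of_nonneg ?_ fun _ _ _ => by positivity)
        (hS₂ s)
      intro i hi
      rw [Finset.mem_filter, Finset.mem_Icc] at hi
      rw [Finset.mem_Icc]
      omega
    have hA : (((Finset.Icc 1 s).filter (fun i => S₀ ≤ i ∧ i ≤ S₀ + 2)).card : ℝ) *
        (4 * ε * p * C₁) ≤ 3 * (4 * ε * p * C₁) :=
      mul_le_mul_of_nonneg_right hcard (by positivity)
    have hBt : 2 * C₃ * C₁ * p * ∑ i ∈ (Finset.Icc 1 s).filter (fun i => S₀ ≤ i),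
        (i : ℝ) ^ (-(4 / 3) : ℝ) ≤ 2 * C₃ * C₁ * p * ε :=
      mul_le_mul_of_nonneg_left htail (by positivity)
    calc _ ≤ 3 * (4 * ε * p * C₁) + 2 * C₃ * C₁ * p * ε := add_le_add hA hBt
      _ = (12 + 2 * C₃) * C₁ * ε * p := by ring
  calc C₂ * GG 3 c g n s * ∑ i ∈ Finset.Icc 1 s, ‖r i‖ / GG 3 c g n i
      ≤ C₂ * GG 3 c g n s * ((12 + 2 * C₃) * C₁ * ε * p) :=
        mul_le_mul_of_nonneg_left hsum (by positivity)
    _ = η * p * GG 3 c g n s := by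
        rw [hε]
        have h5 : C₂ ≠ 0 := hC₂.ne'
        have h6 : C₁ ≠ 0 := hC₁.ne'
        have h7 : 12 + 2 * C₃ ≠ 0 := by positivity
        field_simp

end HillRoots
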