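import Pool.Agent.Lib.MP_e63cf8_mp.H.StmW

/-!
# MP_e63cf8_mp, piece W6: cutting the paths at `m`
-/

open Polynomial Filter Topology MeasureTheory Asymptotics

namespace HillRoots

namespace W6

private theorem xrec (P : ℂ[X]) (n s : ℕ) (h1 : 1 ≤ s) (h2 : s < n) :
    ∑ i ∈ Finset.range s, P.coeff (s - i) * xP P n i = (En n (s : ℤ) : ℂ) * xP P n s := by
  obtain ⟨k, rfl⟩ : ∃ k, s = k + 1 := ⟨s - 1, by omega⟩
  have hE : (En n ((k + 1 : ℕ) : ℤ) : ℂ) ≠ 0 := by
    have h1' : (0 : ℝ) < ((k + 1 : ℕ) : ℝ) := by exact_mod_cast h1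
    have h2' : ((k + 1 : ℕ) : ℝ) < n := by exact_mod_cast h2
    have : En n ((k + 1 : ℕ) : ℤ) ≠ 0 := by
      unfold En
      have h3 : 0 < (n : ℝ) - ((k + 1 : ℕ) : ℝ) := by linarith
      rw [Int.cast_natCast]
      positivity
    exact_mod_cast this
  have hx : xP P n (k + 1) =
      (∑ i ∈ Finset.range (k + 1), P.coeff (k + 1 - i) * xP P n i) /
        (En n ((k + 1 : ℕ) : ℤ) : ℂ) := by
    rw [xP, ← Fin.sum_univ_eq_sum_range (fun i => P.coeff (k + 1 - i) * xP P n i)]
    push_cast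
    rfl
  rw [hx, mul_div_cancel₀ _ hE]

private theorem En_symm (n m : ℕ) (h : m ≤ n) : En n ((n - m : ℕ) : ℤ) = En n (m : ℤ) := by
  unfold En
  rw [Int.cast_natCast, Int.cast_natCast, Nat.cast_sub h]
  ring

private theorem refl (P : ℂ[X]) (n m : ℕ) (h : m < n) :
    ∑ t ∈ Finset.Icc (m + 1) n, P.coeff (t - m) * xP P n (n - t) =
      ∑ i ∈ Finset.range (n - m), P.coeff (n - m - i) * xP P n i := by
  refine Finset.sum_nbij' (fun t => n - t) (fun i => n - i) ?_ ?_ ?_ ?_ ?_
  · intro t ht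
    rw [Finset.mem_Icc] at ht
    rw [Finset.mem_range]
    omega
  · intro i hi
    rw [Finset.mem_range] at hi
    rw [Finset.mem_Icc]
    omega
  · intro t ht
    rw [Finset.mem_Icc] at ht
    omega
  · intro i hi
    rw [Finset.mem_range] at hi
    omega
  · intro t ht
    rw [Finset.mem_Icc] at ht
    have : n - m - (n - t) = t - m := by omega
    rw [this]

private theorem step (P : ℂ[X]) (n m : ℕ) (h1 : 1 ≤ m) (h2 : m < n) :
    ∑ s ∈ Finset.range (m + 1), ∑ t ∈ Finset.Icc (m + 1) n,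
      P.coeff (t - s) * xP P n s * xP P n (n - t) =
    ∑ s ∈ Finset.range m, ∑ t ∈ Finset.Icc m n, P.coeff (t - s) * xP P n s * xP P n (n - t) := by
  have ha : ∀ s, ∑ t ∈ Finset.Icc m n, P.coeff (t - s) * xP P n s * xP P n (n - t) =
      P.coeff (m - s) * xP P n s * xP P n (n - m) +
        ∑ t ∈ Finset.Icc (m + 1) n, P.coeff (t - s) * xP P n s * xP P n (n - t) := by
    intro s
    have : Finset.Icc m n = insert m (Finset.Icc (m + 1) n) := by
      ext t
      simp only [Finset.mem_Icc, Finset.mem_insert]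
      omega
    rw [this, Finset.sum_insert]
    simp
  rw [Finset.sum_range_succ, Finset.sum_congr rfl fun s _ => ha s, Finset.sum_add_distrib,
    add_comm]
  congr 1
  have e1 : ∑ t ∈ Finset.Icc (m + 1) n, P.coeff (t - m) * xP P n m * xP P n (n - t) =
      xP P n m * ∑ t ∈ Finset.Icc (m + 1) n, P.coeff (t - m) * xP P n (n - t) := by
    rw [Finset.mul_sum]
    refine Finset.sum_congr rfl fun t _ => ?_
    ring
  rw [e1, refl P n m h2, xrec P n (n - m) (by omega) (by omega), En_symm n m h2.le,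
    ← Finset.sum_mul, xrec P n m h1 h2]
  ring

end W6

open W6 in
theorem p_W6 : S_W6 := by
  intro P n m h1 h2
  obtain ⟨d, rfl⟩ : ∃ d, n = m + d := ⟨n - m, by omega⟩
  clear h2
  revert h1
  suffices h : ∀ (d n m : ℕ), 1 ≤ m → n = m + d → betaP P n =
      ∑ s ∈ Finset.range m, ∑ t ∈ Finset.Icc m n, P.coeff (t - s) * xP P n s * xP P n (n - t) from
    fun h1 => h d (m + d) m h1 rfl
  intro d
  induction d with
  | zero =>
    intro n m h1 h
    rw [add_zero] at h
    subst h
    unfold betaP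
    refine Finset.sum_congr rfl fun s _ => ?_
    rw [Finset.Icc_self, Finset.sum_singleton, Nat.sub_self, xP, mul_one]
  | succ d ih =>
    intro n m h1 h
    rw [ih n (m + 1) (by omega) (by omega)]
    exact step P n m h1 (by omega)

end HillRoots
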