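import Pool.Agent.Lib.MP_e63cf8_mp.H.StmW

/-! [HL W7] second order asymptotics of `betaP`. -/ 

open Polynomial Filter Topology MeasureTheory Asymptotics

namespace HillRoots

private theorem w7_om : IsPrimitiveRoot (om 3) 3 := by
  have h := Complex.isPrimitiveRoot_exp 3 (by norm_num)
  unfold om
  exact_mod_cast h

private theorem w7_om3 : om 3 ^ 3 = 1 := w7_om.pow_eq_one

private theorem w7_omsum : 1 + om 3 + om 3 ^ 2 = 0 := by
  have h := w7_om.geom_sum_eq_zero (by norm_num)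
  simpa [Finset.sum_range_succ] using h

private theorem w7_omn : ‖om 3‖ = 1 := w7_om.norm'_eq_one (by norm_num)

private theorem w7_split (h6 : S_W6) (P : ℂ[X]) (hd : P.natDegree = 3) (k q : ℕ) :
    betaP P (k + q + 5) =
      P.coeff 3 * (xP P (k + q + 5) k * xP P (k + q + 5) (q + 2) +
        xP P (k + q + 5) (k + 1) * xP P (k + q + 5) (q + 1) +
        xP P (k + q + 5) (k + 2) * xP P (k + q + 5) q) +
      P.coeff 2 * (xP P (k + q + 5) (k + 1) * xP P (k + q + 5) (q + 2) +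
        xP P (k + q + 5) (k + 2) * xP P (k + q + 5) (q + 1)) +
      P.coeff 1 * (xP P (k + q + 5) (k + 2) * xP P (k + q + 5) (q + 2)) := by
  have hc : ∀ j, 4 ≤ j → P.coeff j = 0 := fun j hj => coeff_eq_zero_of_natDegree_lt (by omega)
  rw [h6 P (k + q + 5) (k + 3) (by omega) (by omega)]
  have h0 : ∑ s ∈ Finset.range k, ∑ t ∈ Finset.Icc (k + 3) (k + q + 5),
      P.coeff (t - s) * xP P (k + q + 5) s * xP P (k + q + 5) (k + q + 5 - t) = 0 := by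
    refine Finset.sum_eq_zero fun s hs => Finset.sum_eq_zero fun t ht => ?_
    rw [Finset.mem_range] at hs
    rw [Finset.mem_Icc] at ht
    rw [hc (t - s) (by omega), zero_mul, zero_mul]
  have h1 : ∀ s, s ≤ k + 2 → ∑ t ∈ Finset.Icc (k + 3) (k + q + 5),
      P.coeff (t - s) * xP P (k + q + 5) s * xP P (k + q + 5) (k + q + 5 - t) =
      P.coeff (k + 3 - s) * xP P (k + q + 5) s * xP P (k + q + 5) (q + 2) +
      P.coeff (k + 4 - s) * xP P (k + q + 5) s * xP P (k + q + 5) (q + 1) +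
      P.coeff (k + 5 - s) * xP P (k + q + 5) s * xP P (k + q + 5) q := by
    intro s hs
    have h2 : ∑ t ∈ ({k + 3, k + 4, k + 5} : Finset ℕ),
        P.coeff (t - s) * xP P (k + q + 5) s * xP P (k + q + 5) (k + q + 5 - t) =
        ∑ t ∈ Finset.Icc (k + 3) (k + q + 5),
        P.coeff (t - s) * xP P (k + q + 5) s * xP P (k + q + 5) (k + q + 5 - t) := by
      refine Finset.sum_subset ?_ ?_
      · intro t ht
        simp only [Finset.mem_insert, Finset.mem_singleton] at ht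
        rw [Finset.mem_Icc]
        omega
      · intro t ht ht'
        simp only [Finset.mem_insert, Finset.mem_singleton] at ht'
        rw [Finset.mem_Icc] at ht
        rw [hc (t - s) (by omega), zero_mul, zero_mul]
    rw [← h2, Finset.sum_insert (by simp), Finset.sum_insert (by simp), Finset.sum_singleton,
      show k + q + 5 - (k + 3) = q + 2 by omega, show k + q + 5 - (k + 4) = q + 1 by omega,
      show k + q + 5 - (k + 5) = q by omega]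
    ring
  rw [Finset.sum_range_succ, Finset.sum_range_succ, Finset.sum_range_succ, h0, h1 k (by omega),
    h1 (k + 1) (by omega), h1 (k + 2) (by omega), show k + 3 - k = 3 by omega,
    show k + 4 - k = 4 by omega, show k + 5 - k = 5 by omega, show k + 3 - (k + 1) = 2 by omega,
    show k + 4 - (k + 1) = 3 by omega, show k + 5 - (k + 1) = 4 by omega,
    show k + 3 - (k + 2) = 1 by omega, show k + 4 - (k + 2) = 2 by omega,
    show k + 5 - (k + 2) = 3 by omega, hc 4 (by norm_num), hc 5 (by norm_num)]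
  ring

private theorem w7_hh (c : ℂ) (s t n : ℕ) (hn : s + t + 3 = n) :
    hh 3 c n s * hh 3 c n t = hh 3 c n (n - 3) := by
  have e0 : n - 3 = s + t := by omega
  have hn' : (n : ℝ) = s + t + 3 := by rw [← hn]; push_cast; ring
  rw [e0]
  unfold hh
  have e1 : ((n : ℝ) - s) / (3 : ℕ) = 1 + (t : ℝ) / (3 : ℕ) := by
    rw [hn']; push_cast; ring
  have e2 : ((n : ℝ) - t) / (3 : ℕ) = 1 + (s : ℝ) / (3 : ℕ) := by
    rw [hn']; push_cast; ring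
  have e3 : ((n : ℝ) - ((s + t : ℕ) : ℝ)) / (3 : ℕ) = 1 := by
    rw [hn']; push_cast; ring
  have e4 : 1 + ((s + t : ℕ) : ℝ) / (3 : ℕ) = (n : ℝ) / (3 : ℕ) := by
    rw [hn']; push_cast; ring
  have e5 : ((4 : ℝ) * ((3 : ℕ) : ℝ) ^ 2) ^ (-(((s + t : ℕ) : ℝ) / (3 : ℕ))) =
      (4 * ((3 : ℕ) : ℝ) ^ 2) ^ (-((s : ℝ) / (3 : ℕ))) * (4 * ((3 : ℕ) : ℝ) ^ 2) ^ (-((t : ℝ) / (3 : ℕ))) := by
    rw [← Real.rpow_add (by positivity)]
    congr 1
    push_cast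
    ring
  have hs : 0 < Real.Gamma (1 + (s : ℝ) / (3 : ℕ)) := Real.Gamma_pos_of_pos (by positivity)
  have ht : 0 < Real.Gamma (1 + (t : ℝ) / (3 : ℕ)) := Real.Gamma_pos_of_pos (by positivity)
  have hg : 0 < Real.Gamma ((n : ℝ) / (3 : ℕ)) := by
    refine Real.Gamma_pos_of_pos ?_
    rw [hn']
    positivity
  rw [e1, e2, e3, e4, e5, Real.Gamma_one, pow_add]
  have e6 : ∀ a b : ℝ, a * Real.Gamma (1 + (t : ℝ) / (3 : ℕ)) /
      (Real.Gamma ((n : ℝ) / (3 : ℕ)) * Real.Gamma (1 + (s : ℝ) / (3 : ℕ))) *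
      (b * Real.Gamma (1 + (s : ℝ) / (3 : ℕ)) /
      (Real.Gamma ((n : ℝ) / (3 : ℕ)) * Real.Gamma (1 + (t : ℝ) / (3 : ℕ)))) =
      a * b * 1 / (Real.Gamma ((n : ℝ) / (3 : ℕ)) * Real.Gamma ((n : ℝ) / (3 : ℕ))) := by
    intro a b
    field_simp
  rw [← e6]
  push_cast
  ring

private theorem w7_alg (w a b x0 x1 x2 y0 y1 y2 : ℂ) (h : 1 + w + w ^ 2 = 0) :
    ((1 / 3 : ℂ) * (x0 + a * x1 + a ^ 2 * x2)) * ((1 / 3 : ℂ) * (y0 + b * w ^ 2 * y1 + (b * w ^ 2) ^ 2 * y2)) +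
    ((1 / 3 : ℂ) * (x0 + a * w * x1 + (a * w) ^ 2 * x2)) * ((1 / 3 : ℂ) * (y0 + b * w * y1 + (b * w) ^ 2 * y2)) +
    ((1 / 3 : ℂ) * (x0 + a * w ^ 2 * x1 + (a * w ^ 2) ^ 2 * x2)) * ((1 / 3 : ℂ) * (y0 + b * y1 + b ^ 2 * y2)) =
    (1 / 3 : ℂ) * (x0 * y0 + a * b * w ^ 5 * (x1 * y1) + (a * b * w ^ 5) ^ 2 * (x2 * y2)) := by
  linear_combination (1 / 9 : ℂ) * (x0 * y1 * b + x0 * y2 * b ^ 2 * (w ^ 2 - w + 1) + x1 * y0 * a +
    x1 * y1 * (3 * a * b * w ^ 2 * (1 - w)) + x1 * y2 * (a * b ^ 2 * w ^ 2) +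
    x2 * y0 * (a ^ 2 * (w ^ 2 - w + 1)) + x2 * y1 * (a ^ 2 * b * w ^ 2) +
    x2 * y2 * (3 * a ^ 2 * b ^ 2 * w ^ 4 * (1 - w) * (1 + w ^ 3))) * h

/-- the exponents -/
private noncomputable def w7L (P : ℂ[X]) (c : ℂ) (n l : ℕ) (s : ℝ) : ℂ :=
  xi P c l * (Th 1 n s : ℂ) + zet P c l * (Th 2 n s : ℂ)

/-- frozen approximate solution -/
private noncomputable def w7T (P : ℂ[X]) (c : ℂ) (n : ℕ) (m : ℝ) (s : ℕ) : ℂ :=
  (1 / 3 : ℂ) * ∑ l ∈ Finset.range 3, om 3 ^ (l * s) * Complex.exp (w7L P c n l m)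

private theorem w7_main (P : ℂ[X]) (c : ℂ) (n k q : ℕ) (hn : k + q + 5 = n) (m m' : ℝ) (B1 B2 : ℝ)
    (h1 : Th 1 n m + Th 1 n m' = B1) (h2 : Th 2 n m + Th 2 n m' = B2) :
    w7T P c n m k * w7T P c n m' (q + 2) + w7T P c n m (k + 1) * w7T P c n m' (q + 1) +
      w7T P c n m (k + 2) * w7T P c n m' q =
    (1 / 3 : ℂ) * ∑ l ∈ Finset.range 3, om 3 ^ (l * n) *
      Complex.exp (xi P c l * (B1 : ℂ) + zet P c l * (B2 : ℂ)) := by
  have e : ∀ l, Complex.exp (xi P c l * (B1 : ℂ) + zet P c l * (B2 : ℂ)) =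
      Complex.exp (w7L P c n l m) * Complex.exp (w7L P c n l m') := by
    intro l
    rw [← Complex.exp_add, ← h1, ← h2]
    congr 1
    unfold w7L
    push_cast
    ring
  have h := w7_alg (om 3) (om 3 ^ k) (om 3 ^ q) (Complex.exp (w7L P c n 0 m)) (Complex.exp (w7L P c n 1 m))
    (Complex.exp (w7L P c n 2 m)) (Complex.exp (w7L P c n 0 m')) (Complex.exp (w7L P c n 1 m'))
    (Complex.exp (w7L P c n 2 m')) w7_omsum
  simp only [e]
  unfold w7T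
  simp only [Finset.sum_range_succ, Finset.sum_range_zero, zero_add, zero_mul, pow_zero, one_mul]
  have p1 : ∀ i, om 3 ^ (2 * i) = (om 3 ^ i) ^ 2 := fun i => by rw [mul_comm, pow_mul]
  simp only [p1]
  rw [show om 3 ^ (q + 2) = om 3 ^ q * om 3 ^ 2 by rw [pow_add], show om 3 ^ (q + 1) = om 3 ^ q * om 3 by rw [pow_succ],
    show om 3 ^ (k + 2) = om 3 ^ k * om 3 ^ 2 by rw [pow_add], show om 3 ^ (k + 1) = om 3 ^ k * om 3 by rw [pow_succ],
    show om 3 ^ n = om 3 ^ k * om 3 ^ q * om 3 ^ 5 by rw [← hn, pow_add, pow_add]]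
  exact h

/-- products of close numbers -/
private theorem w7_prod {u w u' w' : ℂ} {δ C a a' E : ℝ} (hδ : 0 ≤ δ) (hC : 0 ≤ C) (ha : 0 ≤ a)
    (h1 : ‖u - w‖ ≤ δ * a) (h2 : ‖u' - w'‖ ≤ δ * a') (h3 : ‖w‖ ≤ C * a) (h4 : ‖w'‖ ≤ C * a')
    (hE : a * a' ≤ E) : ‖u * u' - w * w'‖ ≤ (2 * C * δ + δ ^ 2) * E := by
  have e1 : u * u' - w * w' = w * (u' - w') + (u - w) * w' + (u - w) * (u' - w') := by ring
  have f1 : ‖w * (u' - w')‖ ≤ (C * a) * (δ * a') := by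
    rw [norm_mul]
    exact mul_le_mul h3 h2 (norm_nonneg _) (by positivity)
  have f2 : ‖(u - w) * w'‖ ≤ (δ * a) * (C * a') := by
    rw [norm_mul]
    exact mul_le_mul h1 h4 (norm_nonneg _) (by positivity)
  have f3 : ‖(u - w) * (u' - w')‖ ≤ (δ * a) * (δ * a') := by
    rw [norm_mul]
    exact mul_le_mul h1 h2 (norm_nonneg _) (by positivity)
  rw [e1]
  refine (norm_add₃_le).trans ?_
  calc _ ≤ (C * a) * (δ * a') + (δ * a) * (C * a') + (δ * a) * (δ * a') := by linarith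
    _ = (2 * C * δ + δ ^ 2) * (a * a') := by ring
    _ ≤ _ := mul_le_mul_of_nonneg_left hE (by positivity)

private theorem w7_prod1 {u u' : ℂ} {C a a' E : ℝ} (hC : 0 ≤ C) (ha : 0 ≤ a)
    (h3 : ‖u‖ ≤ C * a) (h4 : ‖u'‖ ≤ C * a')
    (hE : a * a' ≤ E) : ‖u * u'‖ ≤ C ^ 2 * E := by
  rw [norm_mul]
  calc _ ≤ (C * a) * (C * a') := mul_le_mul h3 h4 (norm_nonneg _) (by positivity)
    _ = C ^ 2 * (a * a') := by ring
    _ ≤ _ := mul_le_mul_of_nonneg_left hE (by positivity)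

/-- the weights of the short steps -/
private theorem w7_hh2 (h4 : S_I4) (c : ℂ) (hc : c ≠ 0) (j s t n : ℕ) (hj : 1 ≤ j) (hj2 : j ≤ 2)
    (hn : s + t + j = n) (ht : n ≤ 3 * t) (ht2 : 3 * t ≤ 2 * n) (hs : 2 ≤ s) (ht3 : 2 ≤ t) (hj3 : 3 - j ≤ t) :
    ‖hh 3 c n s * hh 3 c n t‖ ≤ 9 * (‖c‖ + ‖c‖ ^ 2) * (n : ℝ) ^ (-(2 / 3) : ℝ) * ‖hh 3 c n (n - 3)‖ := by
  obtain ⟨i1, -, i3, -, -⟩ := h4 c (3 - j) n t hc (by omega) (by omega) (by omega) (by omega) (by omega)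
  have i1' := i1 hj3 (by omega)
  have e1 := w7_hh c s (t - (3 - j)) n (by omega)
  have hn0 : (0 : ℝ) < n := by exact_mod_cast (show 0 < n by omega)
  have htn : (n : ℝ) ≤ 3 * t := by exact_mod_cast ht
  have htn2 : 3 * (t : ℝ) ≤ 2 * n := by exact_mod_cast ht2
  have hEn : (4 / 9 : ℝ) * n ^ 2 ≤ En n t := by
    unfold En
    push_cast
    nlinarith
  have ht0 : (2 : ℝ) ≤ t := by exact_mod_cast ht3
  have hph : (1 / 4 : ℝ) * (n : ℝ) ^ (-(4 / 3) : ℝ) ≤ ph (3 - j) n t := by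
    refine le_trans ?_ i3
    have hX1 : (1 : ℝ) ≤ 8 * (t : ℝ) * ((n : ℝ) - t + 1) := by nlinarith
    have hX2 : 8 * (t : ℝ) * ((n : ℝ) - t + 1) ≤ 8 * (n : ℝ) ^ 2 := by nlinarith
    have hex : (-(2 / 3) : ℝ) ≤ -(1 - ((3 - j : ℕ) : ℝ) / 3) := by
      rw [Nat.cast_sub (by omega)]
      have : (j : ℝ) ≤ 2 := by exact_mod_cast hj2
      push_cast
      linarith
    refine le_trans ?_ (Real.rpow_le_rpow_of_exponent_le hX1 hex)
    refine le_trans ?_ (Real.rpow_le_rpow_of_nonpos (by linarith) hX2 (by norm_num))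
    rw [Real.mul_rpow (by norm_num) (by positivity)]
    have e2 : (8 : ℝ) ^ (-(2 / 3) : ℝ) = 1 / 4 := by
      rw [show (8 : ℝ) = (2 : ℝ) ^ (3 : ℝ) by norm_num, ← Real.rpow_mul (by norm_num)]
      norm_num
    have e3 : ((n : ℝ) ^ 2) ^ (-(2 / 3) : ℝ) = (n : ℝ) ^ (-(4 / 3) : ℝ) := by
      rw [← Real.rpow_natCast, ← Real.rpow_mul hn0.le]
      norm_num
    rw [e2, e3]
  have hphE : (1 / 9 : ℝ) * (n : ℝ) ^ (2 / 3 : ℝ) ≤ ph (3 - j) n t * En n t := by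
    have e4 : (n : ℝ) ^ (-(4 / 3) : ℝ) * (n : ℝ) ^ 2 = (n : ℝ) ^ (2 / 3 : ℝ) := by
      rw [← Real.rpow_natCast, ← Real.rpow_add hn0]
      norm_num
    calc (1 / 9 : ℝ) * (n : ℝ) ^ (2 / 3 : ℝ) = ((1 / 4 : ℝ) * (n : ℝ) ^ (-(4 / 3) : ℝ)) * ((4 / 9 : ℝ) * n ^ 2) := by
          rw [← e4]; ring
      _ ≤ _ := mul_le_mul hph hEn (by positivity) (le_trans (by positivity) hph)
  have hpos : 0 < ph (3 - j) n t := lt_of_lt_of_le (by positivity) hph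
  have hEpos : 0 < En n t := lt_of_lt_of_le (by positivity) hEn
  have e5 : c ^ (3 - j) * hh 3 c n (n - 3) =
      ((ph (3 - j) n t * En n t : ℝ) : ℂ) * (hh 3 c n s * hh 3 c n t) := by
    rw [← e1]
    push_cast
    linear_combination (hh 3 c n s) * i1'
  have e6 := congrArg norm e5
  rw [norm_mul, norm_mul, norm_pow, Complex.norm_real, Real.norm_of_nonneg (by positivity)] at e6
  have e7 : ‖c‖ ^ (3 - j) ≤ ‖c‖ + ‖c‖ ^ 2 := by
    interval_cases j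
    · simp
    · simp
  have e8 : (n : ℝ) ^ (2 / 3 : ℝ) * (n : ℝ) ^ (-(2 / 3) : ℝ) = 1 := by
    rw [← Real.rpow_add hn0]
    norm_num
  have e9 : (1 / 9 : ℝ) * (n : ℝ) ^ (2 / 3 : ℝ) * ‖hh 3 c n s * hh 3 c n t‖ ≤
      (‖c‖ + ‖c‖ ^ 2) * ‖hh 3 c n (n - 3)‖ := by
    calc _ ≤ (ph (3 - j) n t * En n t) * ‖hh 3 c n s * hh 3 c n t‖ :=
          mul_le_mul_of_nonneg_right hphE (norm_nonneg _)
      _ = ‖c‖ ^ (3 - j) * ‖hh 3 c n (n - 3)‖ := e6.symm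
      _ ≤ _ := mul_le_mul_of_nonneg_right e7 (norm_nonneg _)
  calc ‖hh 3 c n s * hh 3 c n t‖ = 9 * (n : ℝ) ^ (-(2 / 3) : ℝ) *
        ((1 / 9 : ℝ) * (n : ℝ) ^ (2 / 3 : ℝ) * ‖hh 3 c n s * hh 3 c n t‖) := by
        linear_combination (-‖hh 3 c n s * hh 3 c n t‖) * e8
    _ ≤ 9 * (n : ℝ) ^ (-(2 / 3) : ℝ) * ((‖c‖ + ‖c‖ ^ 2) * ‖hh 3 c n (n - 3)‖) :=
        mul_le_mul_of_nonneg_left e9 (by positivity)
    _ = _ := by ring

private theorem w7_E {n m : ℕ} (hn : 3 ≤ n) (h1 : n ≤ 3 * m) (h2 : 3 * m ≤ 2 * n) :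
    1 ≤ En n m ∧ (En n m) ^ (-(1 / 3) : ℝ) ≤ 2 * (n : ℝ) ^ (-(2 / 3) : ℝ) := by
  have hn0 : (3 : ℝ) ≤ n := by exact_mod_cast hn
  have htn : (n : ℝ) ≤ 3 * m := by exact_mod_cast h1
  have htn2 : 3 * (m : ℝ) ≤ 2 * n := by exact_mod_cast h2
  have hEn : (1 / 8 : ℝ) * n ^ 2 ≤ En n m := by
    unfold En
    push_cast
    nlinarith
  refine ⟨by nlinarith, ?_⟩
  refine (Real.rpow_le_rpow_of_nonpos (by positivity) hEn (by norm_num)).trans (le_of_eq ?_)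
  rw [Real.mul_rpow (by norm_num) (by positivity)]
  have e2 : (1 / 8 : ℝ) ^ (-(1 / 3) : ℝ) = 2 := by
    rw [show (1 / 8 : ℝ) = (2 : ℝ) ^ (-3 : ℝ) by norm_num, ← Real.rpow_mul (by norm_num)]
    norm_num
  have e3 : ((n : ℝ) ^ 2) ^ (-(1 / 3) : ℝ) = (n : ℝ) ^ (-(2 / 3) : ℝ) := by
    rw [← Real.rpow_natCast, ← Real.rpow_mul (by positivity)]
    norm_num
  rw [e2, e3]

private theorem w7_re (P : ℂ[X]) (c : ℂ) (n l : ℕ) (s : ℝ) :
    (w7L P c n l s).re = (xi P c l).re * Th 1 n s + (zet P c l).re * Th 2 n s := by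
  unfold w7L
  simp

private theorem w7_near (h1 : S_W1) (P : ℂ[X]) (c : ℂ) (hxi : ∀ l < 3, (xi P c l).re ≤ (xi P c 0).re) :
    ∃ C3 C6 : ℝ, 0 < C3 ∧ 0 < C6 ∧ ∀ᶠ n : ℕ in atTop,
      (∀ s : ℕ, s ≤ n → ∀ l < 3, ‖Complex.exp (w7L P c n l s)‖ ≤ C3 * Real.exp ((xi P c 0).re * Th 1 n s)) ∧
      (∀ m j : ℕ, 4 ≤ m → 3 * m ≤ 2 * n → n ≤ 3 * m → j ≤ 3 → ∀ l < 3,
        ‖Complex.exp (w7L P c n l ((m - j : ℕ) : ℝ)) - Complex.exp (w7L P c n l m)‖ ≤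
          C6 * (n : ℝ) ^ (-(2 / 3) : ℝ) * Real.exp ((xi P c 0).re * Th 1 n m)) := by
  obtain ⟨hB1, hT1, hM1, C1, hC1, hS1⟩ := h1 1 (Or.inl rfl)
  obtain ⟨hB2, hT2, hM2, C2, hC2, hS2⟩ := h1 2 (Or.inr rfl)
  have hZ : ∀ l < 3, ‖zet P c l‖ ≤ ∑ l ∈ Finset.range 3, ‖zet P c l‖ := fun l hl =>
    Finset.single_le_sum (f := fun l => ‖zet P c l‖) (fun _ _ => norm_nonneg _) (Finset.mem_range.2 hl)
  have hX : ∀ l < 3, ‖xi P c l‖ ≤ ∑ l ∈ Finset.range 3, ‖xi P c l‖ := fun l hl =>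
    Finset.single_le_sum (f := fun l => ‖xi P c l‖) (fun _ _ => norm_nonneg _) (Finset.mem_range.2 hl)
  set Zs := ∑ l ∈ Finset.range 3, ‖zet P c l‖ with hZs
  set Xs := ∑ l ∈ Finset.range 3, ‖xi P c l‖ with hXs
  have hZ0 : 0 ≤ Zs := Finset.sum_nonneg fun _ _ => norm_nonneg _
  have hX0 : 0 ≤ Xs := Finset.sum_nonneg fun _ _ => norm_nonneg _
  set K2 := 2 * (Xs * (3 + C1) + Zs * (3 + C2)) with hK2
  have hK20 : 0 ≤ K2 := by positivity
  refine ⟨Real.exp (Zs * BB 2), 2 * Real.exp (Zs * BB 2) * K2 + 1, Real.exp_pos _, by positivity, ?_⟩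
  have hlim : Tendsto (fun n : ℕ => K2 * (n : ℝ) ^ (-(2 / 3) : ℝ)) atTop (𝓝 (K2 * 0)) :=
    ((tendsto_rpow_neg_atTop (by norm_num)).comp tendsto_natCast_atTop_atTop).const_mul K2
  rw [mul_zero] at hlim
  filter_upwards [hlim.eventually_le_const (show (0 : ℝ) < 1 by norm_num), eventually_ge_atTop 3] with n hn hn3
  have hn1 : (1 : ℝ) ≤ n := by exact_mod_cast (show 1 ≤ n by omega)
  have part1 : ∀ s : ℕ, s ≤ n → ∀ l < 3, ‖Complex.exp (w7L P c n l s)‖ ≤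
      Real.exp (Zs * BB 2) * Real.exp ((xi P c 0).re * Th 1 n s) := by
    intro s hs l hl
    have hs' : (s : ℝ) ≤ n := by exact_mod_cast hs
    obtain ⟨-, f1, -⟩ := hT1 n s (by omega) (Nat.cast_nonneg _) hs'
    obtain ⟨-, f2, f3⟩ := hT2 n s (by omega) (Nat.cast_nonneg _) hs'
    have f4 : Th 2 n s ≤ BB 2 := by
      refine f3.trans ?_
      have : (n : ℝ) ^ (1 - 2 * ((2 : ℕ) : ℝ) / 3) ≤ 1 :=
        Real.rpow_le_one_of_one_le_of_nonpos hn1 (by norm_num)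
      calc BB 2 * (n : ℝ) ^ (1 - 2 * ((2 : ℕ) : ℝ) / 3) ≤ BB 2 * 1 :=
            mul_le_mul_of_nonneg_left this hB2.le
        _ = BB 2 := mul_one _
    rw [Complex.norm_exp, ← Real.exp_add, w7_re]
    refine Real.exp_le_exp.2 ?_
    have g1 : (xi P c l).re * Th 1 n s ≤ (xi P c 0).re * Th 1 n s :=
      mul_le_mul_of_nonneg_right (hxi l hl) f1
    have g2 : (zet P c l).re * Th 2 n s ≤ Zs * BB 2 :=
      (mul_le_mul_of_nonneg_right ((Complex.re_le_norm _).trans (hZ l hl)) f2).trans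
        (mul_le_mul_of_nonneg_left f4 hZ0)
    linarith
  refine ⟨part1, ?_⟩
  intro m j hm hm2 hm3 hj l hl
  obtain ⟨E1, E2⟩ := w7_E hn3 hm3 hm2
  have hn0 : (0 : ℝ) < (n : ℝ) ^ (-(2 / 3) : ℝ) := Real.rpow_pos_of_pos (by linarith) _
  have hm1 : (1 : ℝ) ≤ m := by exact_mod_cast (show 1 ≤ m by omega)
  have key : ∀ (r : ℕ) (C : ℝ), 0 < C → (1 ≤ r) →
      (∀ n s j : ℕ, 1 ≤ n → 4 ≤ s → 3 * s ≤ 2 * n → 1 ≤ j → j ≤ 3 →
        |Th r n s - Th r n ((s : ℝ) - j) - j * (En n s) ^ (-((r : ℝ) / 3))| ≤ C * (En n s) ^ (-((r : ℝ) / 3)) / s) →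
      |Th r n ((m - j : ℕ) : ℝ) - Th r n m| ≤ 2 * (3 + C) * (n : ℝ) ^ (-(2 / 3) : ℝ) := by
    intro r C hC hr hS
    rcases Nat.eq_zero_or_pos j with hj0 | hj0
    · subst hj0
      rw [Nat.sub_zero, sub_self, abs_zero]
      positivity
    · have g1 := hS n m j (by omega) hm hm2 hj0 hj
      rw [Nat.cast_sub (by omega)]
      have g2 : (En n m) ^ (-((r : ℝ) / 3)) ≤ 2 * (n : ℝ) ^ (-(2 / 3) : ℝ) := by
        refine le_trans (Real.rpow_le_rpow_of_exponent_le E1 ?_) E2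
        have : (1 : ℝ) ≤ r := by exact_mod_cast hr
        linarith
      have g3 : 0 < (En n m) ^ (-((r : ℝ) / 3)) := Real.rpow_pos_of_pos (by linarith) _
      have g4 : C * (En n m) ^ (-((r : ℝ) / 3)) / m ≤ C * (En n m) ^ (-((r : ℝ) / 3)) :=
        div_le_self (by positivity) hm1
      have g5 : (j : ℝ) * (En n m) ^ (-((r : ℝ) / 3)) ≤ 3 * (En n m) ^ (-((r : ℝ) / 3)) :=
        mul_le_mul_of_nonneg_right (by exact_mod_cast hj) g3.le
      have g6 : 0 ≤ (j : ℝ) * (En n m) ^ (-((r : ℝ) / 3)) := by positivity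
      have g7 : (3 + C) * (En n m) ^ (-((r : ℝ) / 3)) ≤ (3 + C) * (2 * (n : ℝ) ^ (-(2 / 3) : ℝ)) :=
        mul_le_mul_of_nonneg_left g2 (by positivity)
      rw [abs_le] at g1 ⊢
      constructor
      · nlinarith [g1.1, g1.2]
      · nlinarith [g1.1, g1.2]
  have k1 := key 1 C1 hC1 le_rfl hS1
  have k2 := key 2 C2 hC2 (by norm_num) hS2
  have hd : ‖w7L P c n l ((m - j : ℕ) : ℝ) - w7L P c n l m‖ ≤ K2 * (n : ℝ) ^ (-(2 / 3) : ℝ) := by
    have e1 : w7L P c n l ((m - j : ℕ) : ℝ) - w7L P c n l m =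
        xi P c l * ((Th 1 n ((m - j : ℕ) : ℝ) - Th 1 n m : ℝ) : ℂ) +
        zet P c l * ((Th 2 n ((m - j : ℕ) : ℝ) - Th 2 n m : ℝ) : ℂ) := by
      unfold w7L
      push_cast
      ring
    rw [e1]
    refine (norm_add_le _ _).trans ?_
    rw [norm_mul, norm_mul, Complex.norm_real, Complex.norm_real, Real.norm_eq_abs, Real.norm_eq_abs]
    calc _ ≤ Xs * (2 * (3 + C1) * (n : ℝ) ^ (-(2 / 3) : ℝ)) + Zs * (2 * (3 + C2) * (n : ℝ) ^ (-(2 / 3) : ℝ)) :=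
          add_le_add (mul_le_mul (hX l hl) k1 (abs_nonneg _) hX0) (mul_le_mul (hZ l hl) k2 (abs_nonneg _) hZ0)
      _ = _ := by rw [hK2]; ring
  have e2 : Complex.exp (w7L P c n l ((m - j : ℕ) : ℝ)) - Complex.exp (w7L P c n l m) =
      Complex.exp (w7L P c n l m) * (Complex.exp (w7L P c n l ((m - j : ℕ) : ℝ) - w7L P c n l m) - 1) := by
    rw [mul_sub, ← Complex.exp_add, mul_one]
    congr 2
    ring
  rw [e2, norm_mul]
  calc _ ≤ (Real.exp (Zs * BB 2) * Real.exp ((xi P c 0).re * Th 1 n m)) * (2 * (K2 * (n : ℝ) ^ (-(2 / 3) : ℝ))) := by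
        refine mul_le_mul (part1 m (by omega) l hl) ?_ (norm_nonneg _) (by positivity)
        refine (Complex.norm_exp_sub_one_le (hd.trans hn)).trans ?_
        linarith
    _ ≤ _ := by
        have : 0 < Real.exp ((xi P c 0).re * Th 1 n m) := Real.exp_pos _
        nlinarith [mul_pos hn0 this]


private theorem w7_WW (P : ℂ[X]) (c : ℂ) (n s : ℕ) : WW P c n s = w7T P c n s s := rfl

private theorem w7_Tb (P : ℂ[X]) (c : ℂ) (n s : ℕ) (m B : ℝ)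
    (h : ∀ l < 3, ‖Complex.exp (w7L P c n l m)‖ ≤ B) : ‖w7T P c n m s‖ ≤ B := by
  unfold w7T
  rw [norm_mul]
  have h1 : ‖∑ l ∈ Finset.range 3, om 3 ^ (l * s) * Complex.exp (w7L P c n l m)‖ ≤
      ∑ l ∈ Finset.range 3, B := by
    refine (norm_sum_le _ _).trans (Finset.sum_le_sum fun l hl => ?_)
    rw [norm_mul, norm_pow, w7_omn, one_pow, one_mul]
    exact h l (Finset.mem_range.1 hl)
  rw [Finset.sum_const, Finset.card_range, nsmul_eq_mul] at h1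
  have h2 : ‖(1 / 3 : ℂ)‖ = 1 / 3 := by norm_num
  rw [h2]
  push_cast at h1
  linarith

private theorem w7_Td (P : ℂ[X]) (c : ℂ) (n s : ℕ) (m m' B : ℝ)
    (h : ∀ l < 3, ‖Complex.exp (w7L P c n l m) - Complex.exp (w7L P c n l m')‖ ≤ B) :
    ‖w7T P c n m s - w7T P c n m' s‖ ≤ B := by
  unfold w7T
  rw [← mul_sub, ← Finset.sum_sub_distrib, norm_mul]
  have h1 : ‖∑ l ∈ Finset.range 3, (om 3 ^ (l * s) * Complex.exp (w7L P c n l m) -
      om 3 ^ (l * s) * Complex.exp (w7L P c n l m'))‖ ≤ ∑ l ∈ Finset.range 3, B := by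
    refine (norm_sum_le _ _).trans (Finset.sum_le_sum fun l hl => ?_)
    rw [← mul_sub, norm_mul, norm_pow, w7_omn, one_pow, one_mul]
    exact h l (Finset.mem_range.1 hl)
  rw [Finset.sum_const, Finset.card_range, nsmul_eq_mul] at h1
  have h2 : ‖(1 / 3 : ℂ)‖ = 1 / 3 := by norm_num
  rw [h2]
  push_cast at h1
  linarith

theorem p_W7 (hH1 : S_H1) (hI4 : S_I4) (hW1 : S_W1) (hW2 : S_W2) (hW5 : S_W5) (hW6 : S_W6) : S_W7 := by
  intro P c g τ₀ K δ hP0 hd hB η hη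
  have hc3 : c ^ 3 = P.leadingCoeff := by
    have h := hB.hc
    rwa [hd] at h
  have hc0 := hB.c0
  obtain ⟨hxi, hρ, C2, hC2, hG⟩ := hW2 P c g τ₀ K δ hP0 hd hB
  obtain ⟨hB1, hT1, hM1, -⟩ := hW1 1 (Or.inl rfl)
  obtain ⟨hB2, hT2, -, -⟩ := hW1 2 (Or.inr rfl)
  obtain ⟨C3, C6, hC3, hC6, hnear⟩ := w7_near hW1 P c hxi
  have hlead : P.coeff 3 = P.leadingCoeff := by rw [leadingCoeff, hd]
  have ha3 : P.leadingCoeff ≠ 0 := by rw [← hc3]; exact pow_ne_zero _ hc0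
  have ha3' : 0 < ‖P.leadingCoeff‖ := norm_pos_iff.2 ha3
  set η' := min 1 (η / (6 * (2 * C3 * C2 + C2 ^ 2))) with hη'
  have hη'0 : 0 < η' := by positivity
  have hη'1 : η' ≤ 1 := min_le_left _ _
  have hη'2 : 3 * (2 * C3 * C2 + C2 ^ 2) * η' ≤ η / 2 := by
    have h1 : η' ≤ η / (6 * (2 * C3 * C2 + C2 ^ 2)) := min_le_right _ _
    rw [le_div_iff₀ (by positivity)] at h1
    linarith
  obtain ⟨S₀, hW5'⟩ := hW5 P c g τ₀ K δ hP0 hd hB η' hη'0
  set K7 := (2 * ‖P.coeff 2‖ + ‖P.coeff 1‖) * (9 * (‖c‖ + ‖c‖ ^ 2)) * (C3 + C2) ^ 2 / ‖P.leadingCoeff‖ with hK7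
  have hK70 : 0 ≤ K7 := by positivity
  have hlim : Tendsto (fun n : ℕ => (3 * (2 * C3 * C6 + C6 ^ 2) + K7) * (n : ℝ) ^ (-(1 / 3) : ℝ)) atTop
      (𝓝 ((3 * (2 * C3 * C6 + C6 ^ 2) + K7) * 0)) :=
    ((tendsto_rpow_neg_atTop (by norm_num)).comp tendsto_natCast_atTop_atTop).const_mul _
  rw [mul_zero] at hlim
  filter_upwards [hG, hnear, hW5', hlim.eventually_le_const (show (0 : ℝ) < η / 2 by positivity),
    eventually_ge_atTop (2 * S₀ + 40)] with n hG hnear hW5 hsm hn40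
  obtain ⟨hexp, hnr⟩ := hnear
  -- the splitting
  obtain ⟨k, q, hkq, hk1, hk2, hk3, hk4⟩ : ∃ k q : ℕ, k + q + 5 = n ∧ 2 * (k + 3) ≤ n ∧ n ≤ 2 * (k + 3) + 1 ∧
      10 ≤ k ∧ 10 ≤ q := ⟨n / 2 - 3, n - n / 2 - 2, by omega, by omega, by omega, by omega, by omega⟩
  have hn1 : (1 : ℝ) ≤ n := by exact_mod_cast (show 1 ≤ n by omega)
  set r := (n : ℝ) ^ (-(1 / 3) : ℝ) with hr
  have hr0 : 0 < r := Real.rpow_pos_of_pos (by linarith) _
  have hr1 : r ≤ 1 := Real.rpow_le_one_of_one_le_of_nonpos hn1 (by norm_num)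
  have hr2 : (n : ℝ) ^ (-(2 / 3) : ℝ) = r ^ 2 := by
    rw [hr, ← Real.rpow_natCast, ← Real.rpow_mul (by linarith)]
    norm_num
  rw [hr2] at hnr
  set ρ := (xi P c 0).re with hρd
  set E := Real.exp (ρ * (BB 1 * (n : ℝ) ^ (1 / 3 : ℝ))) with hE
  have hE0 : 0 < E := Real.exp_pos _
  set a := Real.exp (ρ * Th 1 n ((k + 3 : ℕ) : ℝ)) with ha
  set a' := Real.exp (ρ * Th 1 n ((q + 2 : ℕ) : ℝ)) with ha'
  have ha0 : 0 < a := Real.exp_pos _
  have ha'0 : 0 < a' := Real.exp_pos _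
  have hnm : (n : ℝ) - ((k + 3 : ℕ) : ℝ) = ((q + 2 : ℕ) : ℝ) := by
    rw [← hkq]; push_cast; ring
  have hs1 : Th 1 n ((k + 3 : ℕ) : ℝ) + Th 1 n ((q + 2 : ℕ) : ℝ) = BB 1 * (n : ℝ) ^ (1 / 3 : ℝ) := by
    have h := (hT1 n ((k + 3 : ℕ) : ℝ) (by omega) (Nat.cast_nonneg _) (by exact_mod_cast (by omega : k + 3 ≤ n))).1
    rw [hnm] at h
    rw [h]
    norm_num
  have hs2 : Th 2 n ((k + 3 : ℕ) : ℝ) + Th 2 n ((q + 2 : ℕ) : ℝ) = BB 2 * r := by
    have h := (hT2 n ((k + 3 : ℕ) : ℝ) (by omega) (Nat.cast_nonneg _) (by exact_mod_cast (by omega : k + 3 ≤ n))).1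
    rw [hnm] at h
    rw [h, hr]
    norm_num
  have haa : a * a' ≤ E := by
    rw [ha, ha', hE, ← Real.exp_add, ← mul_add, hs1]
  -- monotonicity
  have hmono : ∀ s t : ℕ, s ≤ t → t ≤ n → Real.exp (ρ * Th 1 n s) ≤ Real.exp (ρ * Th 1 n t) := by
    intro s t hst htn
    refine Real.exp_le_exp.2 (mul_le_mul_of_nonneg_left ?_ hρ)
    exact hM1 n s t (by omega) (Nat.cast_nonneg _) (by exact_mod_cast hst) (by exact_mod_cast htn)
  -- the quotients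
  have hu : ∀ s t : ℕ, s ≤ t → S₀ ≤ s → 3 * t ≤ 2 * n → t < n →
      ‖xP P n s / hh 3 c n s - WW P c n s‖ ≤ (C2 * η' * r) * Real.exp (ρ * Th 1 n t) := by
    intro s t hst hs ht htn
    have h1 := hW5 s hs (by omega)
    have h2 := (hG s (by omega)).2
    have h3 := hmono s t hst htn.le
    calc _ ≤ η' * r * GG 3 c g n s := h1
      _ ≤ η' * r * (C2 * Real.exp (ρ * Th 1 n t)) := by
          refine mul_le_mul_of_nonneg_left (h2.trans ?_) (by positivity)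
          exact mul_le_mul_of_nonneg_left h3 hC2.le
      _ = _ := by ring
  have hw : ∀ s t : ℕ, s ≤ t → t ≤ n → ‖WW P c n s‖ ≤ C3 * Real.exp (ρ * Th 1 n t) := by
    intro s t hst htn
    rw [w7_WW]
    refine w7_Tb P c n s s _ fun l hl => ?_
    exact (hexp s (by omega) l hl).trans (mul_le_mul_of_nonneg_left (hmono s t hst htn) hC3.le)
  have hub : ∀ s t : ℕ, s ≤ t → S₀ ≤ s → 3 * t ≤ 2 * n → t < n →
      ‖xP P n s / hh 3 c n s‖ ≤ (C3 + C2) * Real.exp (ρ * Th 1 n t) := by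
    intro s t hst hs ht htn
    have h1 := hu s t hst hs ht htn
    have h2 := hw s t hst htn.le
    have h3 : ‖xP P n s / hh 3 c n s‖ ≤ ‖xP P n s / hh 3 c n s - WW P c n s‖ + ‖WW P c n s‖ := by
      have := norm_add_le (xP P n s / hh 3 c n s - WW P c n s) (WW P c n s)
      rwa [sub_add_cancel] at this
    have h4 : C2 * η' * r ≤ C2 := by
      have : η' * r ≤ 1 := by nlinarith
      nlinarith
    have h5 : (C2 * η' * r) * Real.exp (ρ * Th 1 n t) ≤ C2 * Real.exp (ρ * Th 1 n t) :=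
      mul_le_mul_of_nonneg_right h4 (Real.exp_pos _).le
    linarith
  -- the frozen approximations
  have hTb : ∀ t : ℕ, t ≤ n → ∀ s : ℕ, ‖w7T P c n t s‖ ≤ C3 * Real.exp (ρ * Th 1 n t) :=
    fun t ht s => w7_Tb P c n s t _ fun l hl => hexp t ht l hl
  have hTd : ∀ t j : ℕ, 4 ≤ t → 3 * t ≤ 2 * n → n ≤ 3 * t → j ≤ 3 →
      ‖WW P c n (t - j) - w7T P c n t (t - j)‖ ≤ (C6 * r ^ 2) * Real.exp (ρ * Th 1 n t) := by
    intro t j h1 h2 h3 h4
    rw [w7_WW]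
    exact w7_Td P c n (t - j) _ _ _ fun l hl => hnr t j h1 h2 h3 h4 l hl
  -- one product
  have hpair : ∀ j i : ℕ, j ≤ 3 → i ≤ 3 → ‖(xP P n (k + 3 - j) / hh 3 c n (k + 3 - j)) *
      (xP P n (q + 2 - i) / hh 3 c n (q + 2 - i)) -
      w7T P c n ((k + 3 : ℕ) : ℝ) (k + 3 - j) * w7T P c n ((q + 2 : ℕ) : ℝ) (q + 2 - i)‖ ≤
      ((2 * C3 * (C2 * η' * r) + (C2 * η' * r) ^ 2) + (2 * C3 * (C6 * r ^ 2) + (C6 * r ^ 2) ^ 2)) * E := by
    intro j i hj hi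
    have g1 := w7_prod (by positivity) hC3.le ha0.le (hu (k + 3 - j) (k + 3) (by omega) (by omega) (by omega) (by omega))
      (hu (q + 2 - i) (q + 2) (by omega) (by omega) (by omega) (by omega))
      (hw (k + 3 - j) (k + 3) (by omega) (by omega)) (hw (q + 2 - i) (q + 2) (by omega) (by omega)) haa
    have g2 := w7_prod (by positivity) hC3.le ha0.le (hTd (k + 3) j (by omega) (by omega) (by omega) hj)
      (hTd (q + 2) i (by omega) (by omega) (by omega) hi)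
      (hTb (k + 3) (by omega) (k + 3 - j)) (hTb (q + 2) (by omega) (q + 2 - i)) haa
    have g3 := norm_sub_le_norm_sub_add_norm_sub ((xP P n (k + 3 - j) / hh 3 c n (k + 3 - j)) *
      (xP P n (q + 2 - i) / hh 3 c n (q + 2 - i))) (WW P c n (k + 3 - j) * WW P c n (q + 2 - i))
      (w7T P c n ((k + 3 : ℕ) : ℝ) (k + 3 - j) * w7T P c n ((q + 2 : ℕ) : ℝ) (q + 2 - i))
    linarith
  -- the recursion values
  have hh0 : ∀ s < n, hh 3 c n s ≠ 0 := (hH1 3 n c (by norm_num) hc0 (by omega)).2.1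
  have hX : ∀ s < n, xP P n s = hh 3 c n s * (xP P n s / hh 3 c n s) := fun s hs =>
    (mul_div_cancel₀ _ (hh0 s hs)).symm
  have hH0 : hh 3 c n (n - 3) ≠ 0 := hh0 _ (by omega)
  have hHn : 0 < ‖hh 3 c n (n - 3)‖ := norm_pos_iff.2 hH0
  have p1 := w7_hh c k (q + 2) n (by omega)
  have p2 := w7_hh c (k + 1) (q + 1) n (by omega)
  have p3 := w7_hh c (k + 2) q n (by omega)
  have s1 := w7_hh2 hI4 c hc0 2 (k + 1) (q + 2) n (by norm_num) le_rfl (by omega) (by omega) (by omega)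
    (by omega) (by omega) (by omega)
  have s2 := w7_hh2 hI4 c hc0 2 (k + 2) (q + 1) n (by norm_num) le_rfl (by omega) (by omega) (by omega)
    (by omega) (by omega) (by omega)
  have s3 := w7_hh2 hI4 c hc0 1 (k + 2) (q + 2) n le_rfl (by norm_num) (by omega) (by omega) (by omega)
    (by omega) (by omega) (by omega)
  rw [hr2] at s1 s2 s3
  have v1 := w7_prod1 (by positivity) ha0.le (hub (k + 1) (k + 3) (by omega) (by omega) (by omega) (by omega))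
    (hub (q + 2) (q + 2) (by omega) (by omega) (by omega) (by omega)) haa
  have v2 := w7_prod1 (by positivity) ha0.le (hub (k + 2) (k + 3) (by omega) (by omega) (by omega) (by omega))
    (hub (q + 1) (q + 2) (by omega) (by omega) (by omega) (by omega)) haa
  have v3 := w7_prod1 (by positivity) ha0.le (hub (k + 2) (k + 3) (by omega) (by omega) (by omega) (by omega))
    (hub (q + 2) (q + 2) (by omega) (by omega) (by omega) (by omega)) haa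
  have hsp := w7_split hW6 P hd k q
  rw [hkq] at hsp
  have hmain := w7_main P c n k q hkq ((k + 3 : ℕ) : ℝ) ((q + 2 : ℕ) : ℝ) _ _ hs1 hs2
  have t1 := hpair 3 0 (by norm_num) (by norm_num)
  have t2 := hpair 2 1 (by norm_num) (by norm_num)
  have t3 := hpair 1 2 (by norm_num) (by norm_num)
  rw [show k + 3 - 3 = k by omega, show q + 2 - 0 = q + 2 by omega] at t1
  rw [show k + 3 - 2 = k + 1 by omega, show q + 2 - 1 = q + 1 by omega] at t2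
  rw [show k + 3 - 1 = k + 2 by omega, show q + 2 - 2 = q by omega] at t3
  set uk := xP P n k / hh 3 c n k with huk
  set uk1 := xP P n (k + 1) / hh 3 c n (k + 1) with huk1
  set uk2 := xP P n (k + 2) / hh 3 c n (k + 2) with huk2
  set uq := xP P n q / hh 3 c n q with huq
  set uq1 := xP P n (q + 1) / hh 3 c n (q + 1) with huq1
  set uq2 := xP P n (q + 2) / hh 3 c n (q + 2) with huq2
  have hbeta : betaP P n / (P.leadingCoeff * hh 3 c n (n - 3)) =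
      (uk * uq2 + uk1 * uq1 + uk2 * uq) +
      (P.coeff 2 * ((hh 3 c n (k + 1) * hh 3 c n (q + 2)) * (uk1 * uq2) +
        (hh 3 c n (k + 2) * hh 3 c n (q + 1)) * (uk2 * uq1)) +
        P.coeff 1 * ((hh 3 c n (k + 2) * hh 3 c n (q + 2)) * (uk2 * uq2))) /
        (P.leadingCoeff * hh 3 c n (n - 3)) := by
    rw [div_eq_iff (mul_ne_zero ha3 hH0), add_mul, div_mul_cancel₀ _ (mul_ne_zero ha3 hH0), hsp, hlead,
      hX k (by omega), hX (k + 1) (by omega), hX (k + 2) (by omega), hX q (by omega), hX (q + 1) (by omega),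
      hX (q + 2) (by omega), ← huk, ← huk1, ← huk2, ← huq, ← huq1, ← huq2]
    linear_combination P.leadingCoeff * (uk * uq2) * p1 + P.leadingCoeff * (uk1 * uq1) * p2 +
      P.leadingCoeff * (uk2 * uq) * p3
  have hR : ‖(P.coeff 2 * ((hh 3 c n (k + 1) * hh 3 c n (q + 2)) * (uk1 * uq2) +
        (hh 3 c n (k + 2) * hh 3 c n (q + 1)) * (uk2 * uq1)) +
        P.coeff 1 * ((hh 3 c n (k + 2) * hh 3 c n (q + 2)) * (uk2 * uq2))) /
        (P.leadingCoeff * hh 3 c n (n - 3))‖ ≤ K7 * r ^ 2 * E := by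
    rw [norm_div, norm_mul P.leadingCoeff, div_le_iff₀ (by positivity)]
    have b : ∀ x y : ℂ, ‖x‖ ≤ 9 * (‖c‖ + ‖c‖ ^ 2) * r ^ 2 * ‖hh 3 c n (n - 3)‖ →
        ‖y‖ ≤ (C3 + C2) ^ 2 * E → ‖x * y‖ ≤
        9 * (‖c‖ + ‖c‖ ^ 2) * (C3 + C2) ^ 2 * (r ^ 2 * E * ‖hh 3 c n (n - 3)‖) := by
      intro x y hx hy
      rw [norm_mul]
      calc _ ≤ _ := mul_le_mul hx hy (norm_nonneg _) (by positivity)
        _ = _ := by ring
    have b1 := b _ _ s1 v1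
    have b2 := b _ _ s2 v2
    have b3 := b _ _ s3 v3
    set Bd := 9 * (‖c‖ + ‖c‖ ^ 2) * (C3 + C2) ^ 2 * (r ^ 2 * E * ‖hh 3 c n (n - 3)‖) with hBd
    calc _ ≤ ‖P.coeff 2‖ * (Bd + Bd) + ‖P.coeff 1‖ * Bd := by
          refine (norm_add_le _ _).trans ?_
          rw [norm_mul, norm_mul]
          exact add_le_add (mul_le_mul_of_nonneg_left ((norm_add_le _ _).trans (add_le_add b1 b2)) (norm_nonneg _))
            (mul_le_mul_of_nonneg_left b3 (norm_nonneg _))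
      _ = K7 * r ^ 2 * E * (‖P.leadingCoeff‖ * ‖hh 3 c n (n - 3)‖) := by
          rw [hBd, hK7]
          field_simp
          ring
  rw [hbeta, ← hmain]
  set D := (2 * C3 * (C2 * η' * r) + (C2 * η' * r) ^ 2) + (2 * C3 * (C6 * r ^ 2) + (C6 * r ^ 2) ^ 2) with hD
  have htot : ∀ x y z R x' y' z' : ℂ, ‖x - x'‖ ≤ D * E → ‖y - y'‖ ≤ D * E → ‖z - z'‖ ≤ D * E →
      ‖R‖ ≤ K7 * r ^ 2 * E → ‖(x + y + z) + R - (x' + y' + z')‖ ≤ (3 * D + K7 * r ^ 2) * E := by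
    intro x y z R x' y' z' h1 h2 h3 h4
    have e : (x + y + z) + R - (x' + y' + z') = (x - x') + (y - y') + (z - z') + R := by ring
    rw [e]
    refine (norm_add_le _ _).trans ?_
    have := norm_add₃_le (a := x - x') (b := y - y') (c := z - z')
    linarith
  refine (htot _ _ _ _ _ _ _ t1 t2 t3 hR).trans ?_
  refine mul_le_mul_of_nonneg_right ?_ hE0.le
  have q1 : (C2 * η' * r) ^ 2 ≤ C2 ^ 2 * η' * r := by
    have h1 : (η' * r) ^ 2 ≤ η' * r := by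
      have h2 : η' * r ≤ 1 := by nlinarith
      have h3 : 0 ≤ η' * r := by positivity
      nlinarith
    calc (C2 * η' * r) ^ 2 = C2 ^ 2 * (η' * r) ^ 2 := by ring
      _ ≤ C2 ^ 2 * (η' * r) := mul_le_mul_of_nonneg_left h1 (by positivity)
      _ = _ := by ring
  have q2 : (C6 * r ^ 2) ^ 2 ≤ C6 ^ 2 * r ^ 2 := by
    have h1 : r ^ 2 ≤ 1 := pow_le_one₀ hr0.le hr1
    have h2 : r ^ 2 * r ^ 2 ≤ r ^ 2 * 1 := mul_le_mul_of_nonneg_left h1 (by positivity)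
    calc (C6 * r ^ 2) ^ 2 = C6 ^ 2 * (r ^ 2 * r ^ 2) := by ring
      _ ≤ C6 ^ 2 * (r ^ 2 * 1) := mul_le_mul_of_nonneg_left h2 (by positivity)
      _ = _ := by ring
  have q3 : 3 * (2 * C3 * C2 + C2 ^ 2) * η' * r ≤ η / 2 * r := mul_le_mul_of_nonneg_right hη'2 hr0.le
  have q4 : (3 * (2 * C3 * C6 + C6 ^ 2) + K7) * r * r ≤ η / 2 * r := mul_le_mul_of_nonneg_right hsm hr0.le
  calc 3 * D + K7 * r ^ 2 ≤ 3 * ((2 * C3 * (C2 * η' * r) + C2 ^ 2 * η' * r) +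
        (2 * C3 * (C6 * r ^ 2) + C6 ^ 2 * r ^ 2)) + K7 * r ^ 2 := by rw [hD]; linarith
    _ = 3 * (2 * C3 * C2 + C2 ^ 2) * η' * r + (3 * (2 * C3 * C6 + C6 ^ 2) + K7) * r * r := by ring
    _ ≤ η * r := by linarith

end HillRoots
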