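import Pool.Agent.Lib.MP_e63cf8_mp.H.StmW

set_option autoImplicit false

open Polynomial Filter Topology MeasureTheory Asymptotics

namespace HillRoots

theorem W8_exp (σ : ℝ) (hσ : σ = 1 ∨ σ = -1) :
    Complex.exp (Complex.I * (σ * Real.pi / 3 : ℝ)) =
      1 / 2 + (σ : ℂ) * ((Real.sqrt 3 : ℝ) : ℂ) / 2 * Complex.I ∧
    Complex.exp (-(Complex.I * (σ * Real.pi / 3 : ℝ))) =
      1 / 2 - (σ : ℂ) * ((Real.sqrt 3 : ℝ) : ℂ) / 2 * Complex.I := by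
  have h : ∀ t : ℝ, Complex.exp (Complex.I * (t : ℝ)) =
      (Real.cos t : ℂ) + (Real.sin t : ℂ) * Complex.I := by
    intro t
    rw [mul_comm, Complex.exp_mul_I, Complex.ofReal_cos, Complex.ofReal_sin]
  have h' : ∀ t : ℝ, Complex.exp (-(Complex.I * (t : ℝ))) =
      (Real.cos t : ℂ) - (Real.sin t : ℂ) * Complex.I := by
    intro t
    have := h (-t)
    rw [Real.cos_neg, Real.sin_neg] at this
    have e : -(Complex.I * (t : ℂ)) = Complex.I * ((-t : ℝ) : ℂ) := by push_cast; ring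
    rw [e, this]
    push_cast
    ring
  rw [h, h']
  rcases hσ with rfl | rfl
  · have e : (1 * Real.pi / 3 : ℝ) = Real.pi / 3 := by ring
    rw [e, Real.cos_pi_div_three, Real.sin_pi_div_three]
    constructor <;> · push_cast; ring
  · have e : (-1 * Real.pi / 3 : ℝ) = -(Real.pi / 3) := by ring
    rw [e, Real.cos_neg, Real.sin_neg, Real.cos_pi_div_three, Real.sin_pi_div_three]
    constructor <;> · push_cast; ring

theorem W8_om : ‖om 3‖ = 1 := by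
  have e : om 3 = Complex.exp (((2 * Real.pi / 3 : ℝ) : ℂ) * Complex.I) := by
    rw [om]
    congr 1
    push_cast
    ring
  rw [e, Complex.norm_exp_ofReal_mul_I]

/-- the two large terms -/
theorem W8_pair (κ B1 B2 σ X Y : ℝ) (hσ : σ = 1 ∨ σ = -1) (I x0 x1 z0 z1 o : ℂ) (n : ℕ)
    (h0 : x0 = κ * Complex.exp (Complex.I * (σ * Real.pi / 3 : ℝ)))
    (h1 : x1 = κ * Complex.exp (-(Complex.I * (σ * Real.pi / 3 : ℝ))))
    (ho : o = Complex.exp (-(Complex.I * (σ * (2 * Real.pi / 3) : ℝ))))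
    (hz0 : z0 = x0 ^ 2 * (3 * I - 1 / 2)) (hz1 : z1 = x1 ^ 2 * (3 * I - 1 / 2)) :
    Complex.exp (x0 * ((B1 * X : ℝ) : ℂ) + z0 * ((B2 * Y : ℝ) : ℂ)) +
      o ^ n * Complex.exp (x1 * ((B1 * X : ℝ) : ℂ) + z1 * ((B2 * Y : ℝ) : ℂ)) =
    Complex.exp (x0 * ((B1 * X : ℝ) : ℂ) + z0 * ((B2 * Y : ℝ) : ℂ)) *
      (1 + Complex.exp (-(σ : ℂ) * (Complex.I * (((2 * Real.pi * n / 3 + Real.sqrt 3 * κ * B1 * X -
        Real.sqrt 3 / 2 * κ ^ 2 * B2 * Y : ℝ) : ℂ) +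
          (((3 * Real.sqrt 3 * κ ^ 2 * B2 : ℝ) : ℂ) * I) * (Y : ℂ))))) := by
  obtain ⟨e0, e1⟩ := W8_exp σ hσ
  have hd : x1 - x0 = -(σ : ℂ) * Complex.I * ((Real.sqrt 3 : ℝ) : ℂ) * (κ : ℂ) := by
    rw [h0, h1, e0, e1]; ring
  have hs : x1 + x0 = (κ : ℂ) := by
    rw [h0, h1, e0, e1]; ring
  have hz : z1 - z0 = -(σ : ℂ) * Complex.I * ((Real.sqrt 3 : ℝ) : ℂ) * (κ : ℂ) ^ 2 *
      (3 * I - 1 / 2) := by
    have : z1 - z0 = (x1 - x0) * (x1 + x0) * (3 * I - 1 / 2) := by rw [hz0, hz1]; ring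
    rw [this, hd, hs]; ring
  rw [mul_add, mul_one, ← Complex.exp_add, ho, ← Complex.exp_nat_mul, ← Complex.exp_add]
  congr 2
  have e2 : x1 = x0 + (x1 - x0) := by ring
  have e3 : z1 = z0 + (z1 - z0) := by ring
  rw [e2, e3, hd, hz]
  push_cast
  ring

theorem W8_norm (σ θ Y : ℝ) (ν : ℂ) (hσ : σ = 1 ∨ σ = -1) : ∃ m : ℝ, (m = ν.im ∨ m = 0) ∧
    (σ = 1 → m = ν.im) ∧ (σ = -1 → m = 0) ∧
    ‖1 + Complex.exp (-(σ : ℂ) * (Complex.I * ((θ : ℂ) + ν * (Y : ℂ))))‖ =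
      Real.exp (m * Y) * ‖1 + Complex.exp (Complex.I * ((θ : ℂ) + ν * (Y : ℂ)))‖ := by
  rcases hσ with rfl | rfl
  · refine ⟨ν.im, Or.inl rfl, fun _ => rfl, fun h => by norm_num at h, ?_⟩
    have e : ∀ w : ℂ, (1 : ℂ) + Complex.exp (-((1 : ℝ) : ℂ) * w) =
        Complex.exp (-w) * (1 + Complex.exp w) := by
      intro w
      rw [mul_add, mul_one, ← Complex.exp_add, neg_add_cancel, Complex.exp_zero, add_comm]
      congr 2
      push_cast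
      ring
    rw [e, norm_mul, Complex.norm_exp]
    congr 2
    simp
  · refine ⟨0, Or.inr rfl, fun h => by norm_num at h, fun _ => rfl, ?_⟩
    rw [zero_mul, Real.exp_zero, one_mul]
    congr 3
    push_cast
    ring

theorem W8_hh (a c : ℂ) (hc : c ^ 3 = a) (n : ℕ) (hn : 3 ≤ n) (κ : ℝ) :
    NN ‖a‖ κ n = 1 / 3 * ‖a * hh 3 c n (n - 3)‖ *
      Real.exp (κ / 2 * (BB 1 * (n : ℝ) ^ (1 / 3 : ℝ))) := by
  have h1 : ((n - 3 : ℕ) : ℝ) = (n : ℝ) - 3 := by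
    rw [Nat.cast_sub hn]; norm_num
  have hna : ‖a‖ = ‖c‖ ^ 3 := by rw [← hc, norm_pow]
  have h2 : ‖a‖ ^ ((n : ℝ) / 3) = ‖c‖ ^ n := by
    rw [hna, ← Real.rpow_natCast (‖c‖) 3, ← Real.rpow_mul (norm_nonneg c),
      ← Real.rpow_natCast (‖c‖) n]
    congr 1
    push_cast
    ring
  have hn3 : (3 : ℝ) ≤ n := by exact_mod_cast hn
  have hG : 0 < Real.Gamma ((n : ℝ) / 3) := Real.Gamma_pos_of_pos (by positivity)
  have h3 : hh 3 c n (n - 3) = c ^ (n - 3) *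
      (((36 : ℝ) ^ (-(((n : ℝ) - 3) / 3)) / Real.Gamma ((n : ℝ) / 3) ^ 2 : ℝ) : ℂ) := by
    rw [hh, h1]
    congr 2
    have e1 : ((n : ℝ) - ((n : ℝ) - 3)) / ((3 : ℕ) : ℝ) = 1 := by push_cast; ring
    have e2 : 1 + ((n : ℝ) - 3) / ((3 : ℕ) : ℝ) = (n : ℝ) / ((3 : ℕ) : ℝ) := by push_cast; ring
    rw [e1, e2, Real.Gamma_one, mul_one, ← sq]
    push_cast
    norm_num
  have h4 : ‖a * hh 3 c n (n - 3)‖ = ‖c‖ ^ n *
      ((36 : ℝ) ^ (-(((n : ℝ) - 3) / 3)) / Real.Gamma ((n : ℝ) / 3) ^ 2) := by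
    rw [h3, norm_mul, norm_mul, norm_pow, Complex.norm_real, Real.norm_of_nonneg (by positivity),
      hna, ← mul_assoc, ← pow_add]
    congr 2
    omega
  rw [NN, h2, h4]
  ring

theorem W8_lim (κ B1 M M2 η : ℝ) (hκ : 0 < κ) (hB : 0 < B1) (hη : 0 < η) :
    ∀ᶠ n : ℕ in atTop, |Real.exp (M * (n : ℝ) ^ (-(1 / 3) : ℝ)) - 1| ≤ η ∧
      Real.exp (-(3 / 2 * κ * (B1 * (n : ℝ) ^ (1 / 3 : ℝ)))) *
        Real.exp (M2 * (n : ℝ) ^ (-(1 / 3) : ℝ)) ≤ η / 2 * (n : ℝ) ^ (-(1 / 3) : ℝ) := by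
  have hY : Tendsto (fun n : ℕ => (n : ℝ) ^ (-(1 / 3) : ℝ)) atTop (𝓝 0) :=
    (tendsto_rpow_neg_atTop (by norm_num : (0 : ℝ) < 1 / 3)).comp tendsto_natCast_atTop_atTop
  have hX : Tendsto (fun n : ℕ => (n : ℝ) ^ (1 / 3 : ℝ)) atTop atTop :=
    (tendsto_rpow_atTop (by norm_num : (0 : ℝ) < 1 / 3)).comp tendsto_natCast_atTop_atTop
  have hE : ∀ m : ℝ, Tendsto (fun n : ℕ => Real.exp (m * (n : ℝ) ^ (-(1 / 3) : ℝ))) atTop
      (𝓝 1) := by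
    intro m
    have h1 := (hY.const_mul m)
    rw [mul_zero] at h1
    have h2 := (Real.continuous_exp.tendsto 0).comp h1
    rw [Real.exp_zero] at h2
    exact h2
  have h1 : ∀ᶠ n : ℕ in atTop, |Real.exp (M * (n : ℝ) ^ (-(1 / 3) : ℝ)) - 1| ≤ η := by
    have h2 := Metric.tendsto_nhds.mp (hE M) η hη
    filter_upwards [h2] with n hn
    rw [Real.dist_eq] at hn
    exact hn.le
  have h3 : Tendsto (fun n : ℕ => ((n : ℝ) ^ (1 / 3 : ℝ)) ^ (1 : ℝ) *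
      Real.exp (-(3 / 2 * κ * B1) * (n : ℝ) ^ (1 / 3 : ℝ)) *
        Real.exp (M2 * (n : ℝ) ^ (-(1 / 3) : ℝ))) atTop (𝓝 0) := by
    have h4 := (tendsto_rpow_mul_exp_neg_mul_atTop_nhds_zero 1 (3 / 2 * κ * B1)
      (by positivity)).comp hX
    have h5 := h4.mul (hE M2)
    rw [zero_mul] at h5
    exact h5
  have h4 : ∀ᶠ n : ℕ in atTop, ((n : ℝ) ^ (1 / 3 : ℝ)) ^ (1 : ℝ) *
      Real.exp (-(3 / 2 * κ * B1) * (n : ℝ) ^ (1 / 3 : ℝ)) *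
        Real.exp (M2 * (n : ℝ) ^ (-(1 / 3) : ℝ)) < η / 2 :=
    h3.eventually_lt_const (by positivity)
  filter_upwards [h1, h4, eventually_ge_atTop 1] with n hn1 hn2 hn3
  refine ⟨hn1, ?_⟩
  have hnpos : (0 : ℝ) < n := by exact_mod_cast hn3
  have hXY : (n : ℝ) ^ (1 / 3 : ℝ) * (n : ℝ) ^ (-(1 / 3) : ℝ) = 1 := by
    rw [← Real.rpow_add hnpos]
    norm_num
  have hYpos : 0 < (n : ℝ) ^ (-(1 / 3) : ℝ) := Real.rpow_pos_of_pos hnpos _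
  rw [Real.rpow_one] at hn2
  have h5 := mul_le_mul_of_nonneg_right hn2.le hYpos.le
  refine le_trans (le_of_eq ?_) h5
  have h6 : (-(3 / 2 * κ * (B1 * (n : ℝ) ^ (1 / 3 : ℝ)))) =
      -(3 / 2 * κ * B1) * (n : ℝ) ^ (1 / 3 : ℝ) := by ring
  rw [h6]
  calc Real.exp (-(3 / 2 * κ * B1) * (n : ℝ) ^ (1 / 3 : ℝ)) *
        Real.exp (M2 * (n : ℝ) ^ (-(1 / 3) : ℝ)) =
      Real.exp (-(3 / 2 * κ * B1) * (n : ℝ) ^ (1 / 3 : ℝ)) *
        Real.exp (M2 * (n : ℝ) ^ (-(1 / 3) : ℝ)) *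
          ((n : ℝ) ^ (1 / 3 : ℝ) * (n : ℝ) ^ (-(1 / 3) : ℝ)) := by rw [hXY, mul_one]
    _ = _ := by ring

theorem p_W8 (hW1 : S_W1) (hW2 : S_W2) (hW7 : S_W7) (hAL2 : S_AL2) : S_W8 := by
  intro P c g τ₀ K δ hP0 hP3 hP2 hneg hBr η hη
  obtain ⟨hre, -, -⟩ := hW2 P c g τ₀ K δ hP0 hP3 hBr
  have hc : c ^ 3 = P.leadingCoeff := by
    have := hBr.hc
    rwa [hP3] at this
  obtain ⟨hκ, -, hzet, σ, l₁, l₂, hσ, hl, hx0, hx1, hol, hx2⟩ :=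
    hAL2 P c hP0 hP3 hP2 hneg hc hre
  have hB1 : 0 < BB 1 := (hW1 1 (Or.inl rfl)).1
  have hxre : (xi P c 0).re = kap P / 2 := by
    rw [hx0, (W8_exp σ hσ).1]
    simp [Complex.mul_re, Complex.add_re]
    ring
  obtain ⟨m, hm⟩ : ∃ m : ℝ, ∀ θ Y : ℝ,
      ‖1 + Complex.exp (-(σ : ℂ) * (Complex.I * ((θ : ℂ) + nuc P * (Y : ℂ))))‖ =
        Real.exp (m * Y) * ‖1 + Complex.exp (Complex.I * ((θ : ℂ) + nuc P * (Y : ℂ)))‖ := by
    rcases hσ with h | h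
    · refine ⟨(nuc P).im, fun θ Y => ?_⟩
      obtain ⟨m', -, h1, -, h2⟩ := W8_norm σ θ Y (nuc P) (Or.inl h)
      rw [h2, h1 h]
    · refine ⟨0, fun θ Y => ?_⟩
      obtain ⟨m', -, -, h1, h2⟩ := W8_norm σ θ Y (nuc P) (Or.inr h)
      rw [h2, h1 h]
  filter_upwards [hW7 P c g τ₀ K δ hP0 hP3 hBr (η / 6) (by positivity),
    W8_lim (kap P) (BB 1) ((zet P c 0).re * BB 2 + m) ((zet P c l₂).re * BB 2) η hκ hB1 hη,
    eventually_ge_atTop 3] with n h7 hlim hn3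
  obtain ⟨hl1, hl2⟩ := hlim
  have ha : P.leadingCoeff ≠ 0 := by
    intro h
    rw [h] at hc
    exact hBr.c0 (pow_eq_zero_iff (by norm_num) |>.mp hc)
  have hNN := W8_hh P.leadingCoeff c hc n hn3 (kap P)
  have hnpos : (0 : ℝ) < n := by
    have : 0 < n := by omega
    exact_mod_cast this
  have hG : 0 < Real.Gamma ((n : ℝ) / 3) := Real.Gamma_pos_of_pos (by positivity)
  have hNNpos : 0 < NN ‖P.leadingCoeff‖ (kap P) n := by
    rw [NN]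
    have : 0 < ‖P.leadingCoeff‖ := norm_pos_iff.mpr ha
    positivity
  set X : ℝ := (n : ℝ) ^ (1 / 3 : ℝ) with hX
  set Y : ℝ := (n : ℝ) ^ (-(1 / 3) : ℝ) with hY
  have hYpos : 0 < Y := Real.rpow_pos_of_pos hnpos _
  set q : ℂ := P.leadingCoeff * hh 3 c n (n - 3) with hq
  have hqpos : 0 < ‖q‖ := by
    rcases (norm_nonneg q).eq_or_lt with h | h
    · rw [hNN, ← h] at hNNpos
      simp at hNNpos
    · exact h
  have hq0 : q ≠ 0 := norm_pos_iff.mp hqpos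
  -- the three terms
  obtain ⟨T, hT⟩ : ∃ T : ℕ → ℂ, ∀ l, T l = om 3 ^ (l * n) *
      Complex.exp (xi P c l * ((BB 1 * X : ℝ) : ℂ) + zet P c l * ((BB 2 * Y : ℝ) : ℂ)) :=
    ⟨_, fun _ => rfl⟩
  have hsum : ∑ l ∈ Finset.range 3, om 3 ^ (l * n) *
      Complex.exp (xi P c l * ((BB 1 * X : ℝ) : ℂ) + zet P c l * ((BB 2 * Y : ℝ) : ℂ)) =
      (T 0 + T l₁) + T l₂ := by
    rw [Finset.sum_range_succ, Finset.sum_range_succ, Finset.sum_range_one, ← hT 0, ← hT 1,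
      ← hT 2]
    rcases hl with ⟨rfl, rfl⟩ | ⟨rfl, rfl⟩
    · rfl
    · ring
  rw [hsum, hxre] at h7
  have hpair : T 0 + T l₁ = T 0 * (1 + Complex.exp (-(σ : ℂ) * (Complex.I *
      ((thet (kap P) n : ℂ) + nuc P * (Y : ℂ))))) := by
    have h1 := W8_pair (kap P) (BB 1) (BB 2) σ X Y hσ (Inv P) (xi P c 0) (xi P c l₁)
      (zet P c 0) (zet P c l₁) (om 3 ^ l₁) n hx0 hx1 hol (hzet 0) (hzet l₁)
    have h2 : T 0 = Complex.exp (xi P c 0 * ((BB 1 * X : ℝ) : ℂ) +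
        zet P c 0 * ((BB 2 * Y : ℝ) : ℂ)) := by
      rw [hT, zero_mul, pow_zero, one_mul]
    have h3 : T l₁ = (om 3 ^ l₁) ^ n * Complex.exp (xi P c l₁ * ((BB 1 * X : ℝ) : ℂ) +
        zet P c l₁ * ((BB 2 * Y : ℝ) : ℂ)) := by
      rw [hT, pow_mul]
    rw [h3, h2, h1]
    rfl
  have hnT : ∀ l, ‖T l‖ = Real.exp ((xi P c l).re * (BB 1 * X) + (zet P c l).re * (BB 2 * Y)) := by
    intro l
    rw [hT, norm_mul, norm_pow, W8_om, one_pow, one_mul, Complex.norm_exp]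
    congr 1
    rw [Complex.add_re, Complex.re_mul_ofReal, Complex.re_mul_ofReal]
  have hDD : DD (kap P) (nuc P) n =
      ‖1 + Complex.exp (Complex.I * ((thet (kap P) n : ℂ) + nuc P * (Y : ℂ)))‖ := rfl
  set D : ℝ := DD (kap P) (nuc P) n with hD
  have hD0 : 0 ≤ D := by rw [hDD]; exact norm_nonneg _
  set E : ℝ := Real.exp (kap P / 2 * (BB 1 * X)) with hE
  have hEpos : 0 < E := Real.exp_pos _
  have hN1 : ‖T 0 + T l₁‖ = E * (Real.exp (((zet P c 0).re * BB 2 + m) * Y) * D) := by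
    rw [hpair, norm_mul, hm, hnT, hxre, hDD, hE, Real.exp_add, add_mul, Real.exp_add]
    ring_nf
  have hN2 : ‖T l₂‖ = E * (Real.exp (-(3 / 2 * kap P * (BB 1 * X))) *
      Real.exp ((zet P c l₂).re * BB 2 * Y)) := by
    rw [hnT, hx2, hE, ← Real.exp_add, ← Real.exp_add]
    congr 1
    rw [Complex.neg_re, Complex.ofReal_re]
    ring
  have hS : |‖(T 0 + T l₁) + T l₂‖ - E * D| ≤ E * (η * D) + E * (η / 2 * Y) := by
    have h1 : |‖(T 0 + T l₁) + T l₂‖ - ‖T 0 + T l₁‖| ≤ ‖T l₂‖ := by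
      have := abs_norm_sub_norm_le ((T 0 + T l₁) + T l₂) (T 0 + T l₁)
      rwa [add_sub_cancel_left] at this
    have h2 : |‖T 0 + T l₁‖ - E * D| ≤ E * (η * D) := by
      rw [hN1]
      have e : E * (Real.exp (((zet P c 0).re * BB 2 + m) * Y) * D) - E * D =
          E * ((Real.exp (((zet P c 0).re * BB 2 + m) * Y) - 1) * D) := by ring
      rw [e, abs_mul, abs_mul, abs_of_pos hEpos, abs_of_nonneg hD0]
      exact mul_le_mul_of_nonneg_left (mul_le_mul_of_nonneg_right hl1 hD0) hEpos.le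
    have h3 : ‖T l₂‖ ≤ E * (η / 2 * Y) := by
      rw [hN2]
      exact mul_le_mul_of_nonneg_left hl2 hEpos.le
    have h4 := abs_sub_le ‖(T 0 + T l₁) + T l₂‖ ‖T 0 + T l₁‖ (E * D)
    linarith
  have hbet : |‖betaP P n‖ / ‖q‖ - 1 / 3 * ‖(T 0 + T l₁) + T l₂‖| ≤ η / 6 * Y * E := by
    have h1 := abs_norm_sub_norm_le (betaP P n / q) ((1 / 3 : ℂ) * ((T 0 + T l₁) + T l₂))
    have h2 : ‖(1 / 3 : ℂ) * ((T 0 + T l₁) + T l₂)‖ = 1 / 3 * ‖(T 0 + T l₁) + T l₂‖ := by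
      rw [norm_mul]
      norm_num
    rw [norm_div, h2] at h1
    exact h1.trans h7
  have hfin : |‖betaP P n‖ / ‖q‖ - 1 / 3 * E * D| ≤ 1 / 3 * E * (η * (Y + D)) := by
    have h1 := abs_sub_le (‖betaP P n‖ / ‖q‖) (1 / 3 * ‖(T 0 + T l₁) + T l₂‖) (1 / 3 * E * D)
    have h2 : |1 / 3 * ‖(T 0 + T l₁) + T l₂‖ - 1 / 3 * E * D| ≤
        1 / 3 * (E * (η * D) + E * (η / 2 * Y)) := by
      have e : 1 / 3 * ‖(T 0 + T l₁) + T l₂‖ - 1 / 3 * E * D =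
          1 / 3 * (‖(T 0 + T l₁) + T l₂‖ - E * D) := by ring
      rw [e, abs_mul, abs_of_pos (by norm_num : (0 : ℝ) < 1 / 3)]
      exact mul_le_mul_of_nonneg_left hS (by norm_num)
    refine (h1.trans (add_le_add hbet h2)).trans (le_of_eq ?_)
    ring
  have e1 : ‖betaP P n‖ - NN ‖P.leadingCoeff‖ (kap P) n * D =
      ‖q‖ * (‖betaP P n‖ / ‖q‖ - 1 / 3 * E * D) := by
    rw [hNN, mul_sub, mul_div_cancel₀ _ hqpos.ne']
    ring
  rw [e1, abs_mul, abs_of_pos hqpos, hNN]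
  refine (mul_le_mul_of_nonneg_left hfin hqpos.le).trans (le_of_eq ?_)
  ring

end HillRoots
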