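import Pool.Agent.Lib.MP_e63cf8_mp.H.StmW

/-!
# MP_e63cf8_mp, piece W9: the modulus of `beta` in the cancelling case
-/

open Polynomial Filter Topology MeasureTheory Asymptotics

namespace HillRoots

/-- the size of the product of the leading coefficient and `h_{n-3}` -/
private lemma w9_hh {a c : ℂ} (hc : c ^ 3 = a) {n : ℕ} (hn : 3 ≤ n) :
    ‖a‖ * ‖hh 3 c n (n - 3)‖ =
      ‖a‖ ^ ((n : ℝ) / 3) * (36 : ℝ) ^ (-(((n : ℝ) - 3) / 3)) / Real.Gamma ((n : ℝ) / 3) ^ 2 := by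
  have hnR : (3 : ℝ) ≤ (n : ℝ) := by exact_mod_cast hn
  have hG : 0 < Real.Gamma ((n : ℝ) / 3) := Real.Gamma_pos_of_pos (by positivity)
  have h3 : ((3 : ℕ) : ℝ) = 3 := by norm_num
  have e1 : ((n - 3 : ℕ) : ℝ) = (n : ℝ) - 3 := by
    rw [Nat.cast_sub hn, h3]
  have hac : ‖a‖ = ‖c‖ ^ 3 := by rw [← hc, norm_pow]
  have e2 : ‖a‖ * ‖c‖ ^ (n - 3) = ‖a‖ ^ ((n : ℝ) / 3) := by
    rw [hac, ← pow_add, show 3 + (n - 3) = n by omega, ← Real.rpow_natCast (‖c‖) 3,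
      ← Real.rpow_mul (norm_nonneg _), ← Real.rpow_natCast (‖c‖) n, h3]
    congr 1
    ring
  unfold hh
  rw [norm_mul, norm_pow, Complex.norm_real, Real.norm_eq_abs, e1, h3]
  have e3 : ((n : ℝ) - ((n : ℝ) - 3)) / 3 = 1 := by ring
  have e4 : 1 + ((n : ℝ) - 3) / 3 = (n : ℝ) / 3 := by ring
  have e5 : (4 * (3 : ℝ) ^ 2) = 36 := by norm_num
  rw [e3, e4, e5, Real.Gamma_one, abs_of_nonneg (by positivity), ← mul_assoc, e2]
  rw [sq]
  ring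

private lemma w9_log {ε : ℝ} (hε : 0 < ε) :
    ∀ᶠ n : ℕ in atTop, Real.log n / n ≤ ε * (n : ℝ) ^ (-(1 / 3) : ℝ) := by
  have h1 := (isLittleO_log_rpow_atTop (r := 2 / 3) (by norm_num)).def hε
  have h2 := tendsto_natCast_atTop_atTop (R := ℝ) |>.eventually h1
  filter_upwards [h2, eventually_ge_atTop 1] with n hn hn1
  have hnR : (0 : ℝ) < (n : ℝ) := by exact_mod_cast hn1
  rw [Real.norm_eq_abs, Real.norm_eq_abs, abs_of_nonneg (by positivity : 0 ≤ (n : ℝ) ^ (2 / 3 : ℝ))]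
    at hn
  have h3 : Real.log n ≤ ε * (n : ℝ) ^ (2 / 3 : ℝ) := (le_abs_self _).trans hn
  rw [div_le_iff₀ hnR]
  refine h3.trans (le_of_eq ?_)
  have h4 : (n : ℝ) ^ (2 / 3 : ℝ) = (n : ℝ) ^ (-(1 / 3) : ℝ) * n := by
    rw [← Real.rpow_add_one hnR.ne']
    norm_num
  rw [h4]
  ring

theorem p_W9 (hR3 : S_R3) (hI3 : S_I3) (hW1 : S_W1) (hW2 : S_W2) (hW8 : S_W8) (hAL2 : S_AL2) :
    S_W9 := by
  intro P Q hP0 hQ0 hdeg ha2 hneg η hη
  obtain ⟨c, g, τ₀, K, δ, hB⟩ := hR3 P (by omega)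
  have hc3 : c ^ 3 = P.leadingCoeff := by
    have := hB.hc
    rwa [hdeg] at this
  obtain ⟨hre, hre0, C₂, hC₂, hG⟩ := hW2 P c g τ₀ K δ hP0 hdeg hB
  obtain ⟨hκ, -, -, σ, l₁, l₂, hσ, -, hξ0, -, -, -⟩ := hAL2 P c hP0 hdeg ha2 hneg hc3 hre
  obtain ⟨C₃, hC₃, hI⟩ := hI3 P Q c g τ₀ K δ hP0 hQ0 hB
  have h8 := hW8 P c g τ₀ K δ hP0 hdeg ha2 hneg hB (η / 2) (by positivity)
  obtain ⟨-, hTh, -⟩ := hW1 1 (Or.inl rfl)
  -- the real part
  have hξre : (xi P c 0).re = kap P / 2 := by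
    have h1 : (Complex.exp (Complex.I * (σ * Real.pi / 3 : ℝ))).re = 1 / 2 := by
      rw [mul_comm, Complex.exp_ofReal_mul_I_re]
      rcases hσ with h | h
      · rw [h, one_mul, Real.cos_pi_div_three]
      · rw [h, show (-1 : ℝ) * Real.pi / 3 = -(Real.pi / 3) by ring, Real.cos_neg,
          Real.cos_pi_div_three]
    rw [hξ0, Complex.re_ofReal_mul, h1]
    ring
  have hlog := w9_log (ε := η / 2 / (3 * C₂ * C₃)) (by positivity)
  filter_upwards [hG, hI, h8, hlog, eventually_ge_atTop 4] with n hGn hIn h8n hlogn hn4 z z' hz hz'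
  have hnR : (4 : ℝ) ≤ (n : ℝ) := by exact_mod_cast hn4
  obtain ⟨N, hN⟩ : ∃ N : ℝ, N = NN ‖P.leadingCoeff‖ (kap P) n := ⟨_, rfl⟩
  obtain ⟨D, hD⟩ : ∃ D : ℝ, D = DD (kap P) (nuc P) n := ⟨_, rfl⟩
  have hD0 : 0 ≤ D := by rw [hD]; exact norm_nonneg _
  have hx0 : 0 ≤ (n : ℝ) ^ (-(1 / 3) : ℝ) := by positivity
  have hH := w9_hh hc3 (n := n) (by omega)
  have hGam : 0 < Real.Gamma ((n : ℝ) / 3) := Real.Gamma_pos_of_pos (by positivity)
  have hNe : 3 * N = ‖P.leadingCoeff‖ * ‖hh 3 c n (n - 3)‖ *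
      Real.exp (kap P / 2 * (BB 1 * (n : ℝ) ^ (1 / 3 : ℝ))) := by
    rw [hN, hH]
    unfold NN
    ring
  have hN0 : 0 ≤ N := by
    rw [hN]
    unfold NN
    positivity
  have hRR : RR P c g n ≤ 3 * C₂ * N := by
    have h1 : GG 3 c g n (n - 3) ≤
        C₂ * Real.exp (kap P / 2 * (BB 1 * (n : ℝ) ^ (1 / 3 : ℝ))) := by
      refine (hGn (n - 3) (by omega)).2.trans ?_
      refine mul_le_mul_of_nonneg_left ?_ hC₂.le
      rw [hξre]
      apply Real.exp_le_exp.2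
      refine mul_le_mul_of_nonneg_left ?_ (by positivity)
      have h2 := (hTh n ((n - 3 : ℕ) : ℝ) (by omega) (Nat.cast_nonneg _)
        (by exact_mod_cast Nat.sub_le n 3)).2.2
      have h3 : (1 - 2 * ((1 : ℕ) : ℝ) / 3) = 1 / 3 := by norm_num
      rwa [h3] at h2
    have h2 : RR P c g n = ‖P.leadingCoeff‖ * ‖hh 3 c n (n - 3)‖ * GG 3 c g n (n - 3) := by
      unfold RR
      rw [hdeg]
    rw [h2]
    calc ‖P.leadingCoeff‖ * ‖hh 3 c n (n - 3)‖ * GG 3 c g n (n - 3)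
        ≤ ‖P.leadingCoeff‖ * ‖hh 3 c n (n - 3)‖ *
          (C₂ * Real.exp (kap P / 2 * (BB 1 * (n : ℝ) ^ (1 / 3 : ℝ)))) :=
          mul_le_mul_of_nonneg_left h1 (by positivity)
      _ = C₂ * (‖P.leadingCoeff‖ * ‖hh 3 c n (n - 3)‖ *
          Real.exp (kap P / 2 * (BB 1 * (n : ℝ) ^ (1 / 3 : ℝ)))) := by ring
      _ = 3 * C₂ * N := by rw [← hNe]; ring
  have hlog0 : 0 ≤ Real.log n / n := div_nonneg (Real.log_nonneg (by linarith)) (by linarith)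
  have hbig : C₃ * (Real.log n / n) * (3 * C₂ * N) ≤ η / 2 * (n : ℝ) ^ (-(1 / 3) : ℝ) * N := by
    have h1 : C₃ * (Real.log n / n) * (3 * C₂ * N) = (3 * C₂ * C₃ * N) * (Real.log n / n) := by
      ring
    rw [h1]
    refine (mul_le_mul_of_nonneg_left hlogn (by positivity)).trans (le_of_eq ?_)
    field_simp
  have hcmp : C₃ * (Real.log n / n) * RR P c g n ≤ η / 2 * (n : ℝ) ^ (-(1 / 3) : ℝ) * N :=
    (mul_le_mul_of_nonneg_left hRR (by positivity)).trans hbig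
  obtain ⟨hb1, hb2⟩ := hIn z z' hz hz'
  rw [← hN, ← hD] at h8n ⊢
  constructor
  · have h1 : |‖beta P Q n z‖ - N * D| ≤ |‖betaP P n‖ - N * D| + ‖beta P Q n z - betaP P n‖ := by
      have h2 : ‖beta P Q n z‖ - N * D =
          (‖betaP P n‖ - N * D) + (‖beta P Q n z‖ - ‖betaP P n‖) := by ring
      rw [h2]
      refine (abs_add_le _ _).trans ?_
      gcongr
      exact abs_norm_sub_norm_le _ _
    have h3 : 0 ≤ η / 2 * D * N := by positivity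
    calc |‖beta P Q n z‖ - N * D| ≤ |‖betaP P n‖ - N * D| + ‖beta P Q n z - betaP P n‖ := h1
      _ ≤ η / 2 * ((n : ℝ) ^ (-(1 / 3) : ℝ) + D) * N + η / 2 * (n : ℝ) ^ (-(1 / 3) : ℝ) * N :=
          add_le_add h8n (hb1.trans hcmp)
      _ = η * ((n : ℝ) ^ (-(1 / 3) : ℝ) + D) * N - η / 2 * D * N := by ring
      _ ≤ η * ((n : ℝ) ^ (-(1 / 3) : ℝ) + D) * N := by linarith
  · calc ‖beta P Q n z - beta P Q n z'‖
        ≤ C₃ * (Real.log n / n) * ‖z - z'‖ * RR P c g n := hb2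
      _ = (C₃ * (Real.log n / n) * RR P c g n) * ‖z - z'‖ := by ring
      _ ≤ (η / 2 * (n : ℝ) ^ (-(1 / 3) : ℝ) * N) * ‖z - z'‖ :=
          mul_le_mul_of_nonneg_right hcmp (norm_nonneg _)
      _ ≤ (η * (n : ℝ) ^ (-(1 / 3) : ℝ) * N) * ‖z - z'‖ := by
          refine mul_le_mul_of_nonneg_right ?_ (norm_nonneg _)
          refine mul_le_mul_of_nonneg_right ?_ hN0
          refine mul_le_mul_of_nonneg_right (by linarith) hx0
      _ = η * (n : ℝ) ^ (-(1 / 3) : ℝ) * ‖z - z'‖ * N := by ring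

end HillRoots
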