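import Pool.Agent.Lib.MP_e63cf8_mp.H.StmW

/-!
# MP_e63cf8_mp, piece XB: two cancelling sides, one real invariant
-/

open Polynomial Filter Topology

namespace HillRoots

private noncomputable def xx (n : ℕ) : ℝ := (n : ℝ) ^ (-(1 / 3) : ℝ)

private lemma xx_pos {n : ℕ} (hn : 1 ≤ n) : 0 < xx n := by
  have : (0 : ℝ) < n := by exact_mod_cast hn
  exact Real.rpow_pos_of_pos this _

private lemma NN_pos {a κ : ℝ} (ha : 0 < a) {n : ℕ} (hn : 1 ≤ n) : 0 < NN a κ n := by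
  have h0 : (0 : ℝ) < n := by exact_mod_cast hn
  have hG : 0 < Real.Gamma ((n : ℝ) / 3) := Real.Gamma_pos_of_pos (by positivity)
  have h1 : 0 < a ^ ((n : ℝ) / 3) := Real.rpow_pos_of_pos ha _
  have h2 : 0 < (36 : ℝ) ^ (-(((n : ℝ) - 3) / 3)) := Real.rpow_pos_of_pos (by norm_num) _
  unfold NN
  have h3 := Real.exp_pos (κ / 2 * (BB 1 * (n : ℝ) ^ (1 / 3 : ℝ)))
  positivity

private lemma bd_of {b N x D η l u : ℝ} (hN : 0 < N) (hx : 0 < x) (hη : 0 < η) (hl : 0 < l) (hlu : l ≤ u)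
    (h1 : l * x ≤ D) (h2 : D ≤ u * x) (h : |b - N * D| ≤ η * (x + D) * N) (hη' : η * (1 + u) ≤ l / 2) :
    l / 2 * x * N ≤ b ∧ b ≤ 2 * u * x * N := by
  have e1 : η * (x + D) * N ≤ l / 2 * x * N := by
    have : η * (x + D) ≤ l / 2 * x := by
      have : η * (x + D) ≤ η * (x + u * x) := by
        apply mul_le_mul_of_nonneg_left _ hη.le
        linarith
      have : η * (x + u * x) = (η * (1 + u)) * x := by ring
      have := mul_le_mul_of_nonneg_right hη' hx.le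
      linarith
    exact mul_le_mul_of_nonneg_right this hN.le
  have e2 : l * x * N ≤ N * D := by
    have := mul_le_mul_of_nonneg_right h1 hN.le
    linarith
  have e3 : N * D ≤ u * x * N := by
    have := mul_le_mul_of_nonneg_right h2 hN.le
    linarith
  have hp : 0 < x * N := mul_pos hx hN
  have hlu' : l * (x * N) ≤ u * (x * N) := mul_le_mul_of_nonneg_right hlu hp.le
  have hl' : 0 < l * (x * N) := mul_pos hl hp
  obtain ⟨g1, g2⟩ := abs_le.1 h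
  constructor
  · nlinarith
  · nlinarith

private lemma reg_of {β : ℕ → ℂ → ℂ} {N D : ℕ → ℝ} {S : Set ℕ} {l u : ℝ} (hl : 0 < l) (hlu : l ≤ u)
    (hN : ∀ n, 1 ≤ n → 0 < N n)
    (hS : ∀ᶠ n : ℕ in atTop, n ∈ S → l * xx n ≤ D n ∧ D n ≤ u * xx n)
    (h9 : ∀ η : ℝ, 0 < η → ∀ᶠ n : ℕ in atTop, ∀ z z' : ℂ, ‖z‖ ≤ 1 → ‖z'‖ ≤ 1 →
      |‖β n z‖ - N n * D n| ≤ η * (xx n + D n) * N n ∧ ‖β n z - β n z'‖ ≤ η * xx n * ‖z - z'‖ * N n) :
    (∀ᶠ n : ℕ in atTop, n ∈ S → ∀ z : ℂ, ‖z‖ ≤ 1 →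
      l / 2 * xx n * N n ≤ ‖β n z‖ ∧ ‖β n z‖ ≤ 2 * u * xx n * N n) ∧
    Reg β (fun n => u * xx n * N n) S := by
  have hu : 0 < u := lt_of_lt_of_le hl hlu
  have hη : 0 < l / 2 / (1 + u) := by positivity
  have hη' : l / 2 / (1 + u) * (1 + u) ≤ l / 2 := by
    rw [div_mul_cancel₀ _ (by positivity : (1 + u) ≠ 0)]
  have key : ∀ᶠ n : ℕ in atTop, n ∈ S → ∀ z : ℂ, ‖z‖ ≤ 1 →
      l / 2 * xx n * N n ≤ ‖β n z‖ ∧ ‖β n z‖ ≤ 2 * u * xx n * N n := by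
    filter_upwards [hS, h9 _ hη, eventually_ge_atTop 1] with n h1 h2 h3 hn z hz
    obtain ⟨a1, a2⟩ := h1 hn
    exact bd_of (hN n h3) (xx_pos h3) hη hl hlu a1 a2 (h2 z z hz hz).1 hη'
  refine ⟨key, l / 2 / u, by positivity, fun η hη0 => ?_⟩
  have hη1 : 0 < η * u := mul_pos hη0 hu
  obtain ⟨n₀, hn₀⟩ := eventually_atTop.1 ((key.and (h9 _ hη1)).and (eventually_ge_atTop 1))
  refine ⟨n₀, fun n hn hn1 => ?_⟩
  obtain ⟨⟨k1, k2⟩, k3⟩ := hn₀ n hn1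
  have hxx := xx_pos k3
  have hNn := hN n k3
  refine ⟨by positivity, fun z z' hz hz' => ⟨?_, ?_, ?_⟩⟩
  · refine le_trans (le_of_eq ?_) (k1 hn z hz).1
    field_simp
  · refine (k1 hn z hz).2.trans (le_of_eq ?_)
    ring
  · refine (k2 z z' hz hz').2.trans (le_of_eq ?_)
    ring

private lemma reg_mono {β : ℕ → ℂ → ℂ} {R : ℕ → ℝ} {S T : Set ℕ} (h : Reg β R S) (hT : T ⊆ S) : Reg β R T := by
  obtain ⟨ε, hε, h1⟩ := h
  refine ⟨ε, hε, fun η hη => ?_⟩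
  obtain ⟨n₀, hn₀⟩ := h1 η hη
  exact ⟨n₀, fun n hn => hn₀ n (hT hn)⟩

private lemma kap_pos (hR3 : S_R3) (hW2 : S_W2) (hAL2 : S_AL2) (P : ℂ[X]) (h0 : P.coeff 0 = 0)
    (h3 : P.natDegree = 3) (h2 : P.coeff 2 ≠ 0) (hN : Neg P) : 0 < kap P := by
  obtain ⟨c, g, τ₀, K, δ, hB⟩ := hR3 P (by omega)
  have hc := hB.hc
  rw [h3] at hc
  exact (hAL2 P c h0 h3 h2 hN hc (hW2 P c g τ₀ K δ h0 h3 hB).1).1

theorem p_XB (hR3 : S_R3) (hW1 : S_W1) (hW2 : S_W2) (hAL2 : S_AL2) (hW9 : S_W9) (hD2 : S_D2) (hD3 : S_D3)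
    (hE2 : S_E2) : S_XB := by
  intro P Q hP0 hQ0 hP3 hQ3 hP2 hQ2 hPN hQN hlc hmu him hne
  have hκ : 0 < kap P := kap_pos hR3 hW2 hAL2 P hP0 hP3 hP2 hPN
  have hκQ : kap Q = kap P := by
    unfold kap
    rw [hmu]
  have hB2 : 0 < BB 2 := (hW1 2 (Or.inr rfl)).1
  have hlc0 : P.leadingCoeff ≠ 0 := by
    rw [Ne, Polynomial.leadingCoeff_eq_zero]
    rintro rfl
    simp at hP3
  have ha : 0 < ‖P.leadingCoeff‖ := norm_pos_iff.2 hlc0
  -- the factor of the invariants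
  have hfac : (0 : ℝ) < 3 * Real.sqrt 3 * kap P ^ 2 * BB 2 := by
    have : 0 < Real.sqrt 3 := Real.sqrt_pos.2 (by norm_num)
    positivity
  have hν : nuc P = (((nuc P).re : ℝ) : ℂ) := by
    apply Complex.ext
    · rw [Complex.ofReal_re]
    · rw [Complex.ofReal_im]
      unfold nuc
      rw [Complex.im_ofReal_mul, him, mul_zero]
  have hνν : nuc P ≠ nuc Q := by
    unfold nuc
    rw [hκQ]
    intro h
    apply hne
    have h' : ((3 * Real.sqrt 3 * kap P ^ 2 * BB 2 : ℝ) : ℂ) ≠ 0 := by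
      exact_mod_cast hfac.ne'
    exact mul_left_cancel₀ h' h
  obtain ⟨d₀, c₁, c₂, hd₀, hc₁, hc₂, h3⟩ := hD3 (kap P) (nuc P) (nuc Q) hνν
  refine hE2 P Q hP0 hQ0 (fun C => ?_)
  -- the choice of `d`
  obtain ⟨d, hd, hd1, hdd, hdC⟩ : ∃ d : ℝ, 0 < d ∧ d < 1 ∧ d ≤ d₀ ∧ 8 * d / c₁ ≤ Real.exp (-C) := by
    have hexp := Real.exp_pos (-C)
    refine ⟨min (1 / 2) (min d₀ (c₁ * Real.exp (-C) / 8)), ?_, ?_, ?_, ?_⟩
    · refine lt_min (by norm_num) (lt_min hd₀ (by positivity))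
    · exact lt_of_le_of_lt (min_le_left _ _) (by norm_num)
    · exact (min_le_right _ _).trans (min_le_left _ _)
    · have := (min_le_right (1 / 2 : ℝ) (min d₀ (c₁ * Real.exp (-C) / 8))).trans (min_le_right _ _)
      rw [div_le_iff₀ hc₁]
      linarith
  have hfreq := hD2 (kap P) (nuc P).re d hκ hd hd1
  rw [← hν] at hfreq
  -- the sets
  set S₀ : Set ℕ := {n | Even n ∧ d / 2 * xx n ≤ DD (kap P) (nuc P) n ∧ DD (kap P) (nuc P) n ≤ d * xx n} with hS₀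
  have hc12 : ∀ᶠ n : ℕ in atTop, n ∈ S₀ →
      min c₁ c₂ * xx n ≤ DD (kap P) (nuc Q) n ∧ DD (kap P) (nuc Q) n ≤ c₂ * xx n := by
    filter_upwards [h3, eventually_ge_atTop 1] with n hn h1 hnS
    have hx := xx_pos h1
    have hle : DD (kap P) (nuc P) n ≤ d₀ * (n : ℝ) ^ (-(1 / 3) : ℝ) :=
      hnS.2.2.trans (mul_le_mul_of_nonneg_right hdd hx.le)
    obtain ⟨g1, g2⟩ := hn hle
    refine ⟨?_, g2⟩
    exact (mul_le_mul_of_nonneg_right (min_le_left _ _) hx.le).trans g1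
  -- in fact `c₁ ≤ c₂`
  have hle12 : c₁ ≤ c₂ := by
    obtain ⟨n, ⟨hn1, hn2⟩, hn3⟩ := ((hfreq.and_eventually h3).and_eventually (eventually_ge_atTop 1)).exists
    have hx := xx_pos hn3
    have hle : DD (kap P) (nuc P) n ≤ d₀ * (n : ℝ) ^ (-(1 / 3) : ℝ) :=
      hn1.2.2.trans (mul_le_mul_of_nonneg_right hdd hx.le)
    obtain ⟨g1, g2⟩ := hn2 hle
    have : c₁ * xx n ≤ c₂ * xx n := g1.trans g2
    exact le_of_mul_le_mul_right this hx
  rw [min_eq_left hle12] at hc12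
  have hregP := reg_of (β := beta P Q) (N := fun n => NN ‖P.leadingCoeff‖ (kap P) n)
    (D := fun n => DD (kap P) (nuc P) n) (S := S₀) (l := d / 2) (u := d) (by positivity) (by linarith)
    (fun n hn => NN_pos ha hn) (Eventually.of_forall (fun n hn => ⟨hn.2.1, hn.2.2⟩))
    (fun η hη => hW9 P Q hP0 hQ0 hP3 hP2 hPN η hη)
  have hregQ := reg_of (β := beta Q P) (N := fun n => NN ‖P.leadingCoeff‖ (kap P) n)
    (D := fun n => DD (kap P) (nuc Q) n) (S := S₀) (l := c₁) (u := c₂) hc₁ hle12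
    (fun n hn => NN_pos ha hn) hc12
    (fun η hη => by
      have := hW9 Q P hQ0 hP0 hQ3 hQ2 hQN η hη
      rw [← hlc, hκQ] at this
      exact this)
  obtain ⟨n₀, hn₀⟩ := eventually_atTop.1 ((hregP.1.and hregQ.1).and (eventually_ge_atTop 1))
  have hsub : S₀ ∩ {n | n₀ ≤ n} ⊆ S₀ := Set.inter_subset_left
  refine ⟨S₀ ∩ {n | n₀ ≤ n}, _, _, ?_, fun n hn => hn.1.1, reg_mono hregP.2 hsub, reg_mono hregQ.2 hsub, ?_⟩
  · have := hfreq.and_eventually (eventually_ge_atTop n₀)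
    exact Nat.frequently_atTop_iff_infinite.1 this
  · rintro n ⟨hn, hn1⟩
    obtain ⟨⟨k1, k2⟩, k3⟩ := hn₀ n hn1
    have hx := xx_pos k3
    have hNn : 0 < NN ‖P.leadingCoeff‖ (kap P) n := NN_pos ha k3
    have hz : ‖(0 : ℂ)‖ ≤ 1 := by simp
    obtain ⟨a1, a2⟩ := k1 hn 0 hz
    obtain ⟨b1, b2⟩ := k2 hn 0 hz
    have hp : 0 < xx n * NN ‖P.leadingCoeff‖ (kap P) n := mul_pos hx hNn
    have hA : 0 < ‖beta P Q n 0‖ := lt_of_lt_of_le (by positivity) a1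
    have hB : 0 < ‖beta Q P n 0‖ := lt_of_lt_of_le (by positivity) b1
    have hq : ‖beta P Q n 0‖ / ‖beta Q P n 0‖ ≤ Real.exp (-C) := by
      rw [div_le_iff₀ hB]
      rw [div_le_iff₀ hc₁] at hdC
      have h5 : 2 * d * (xx n * NN ‖P.leadingCoeff‖ (kap P) n) ≤
          Real.exp (-C) * c₁ / 4 * (xx n * NN ‖P.leadingCoeff‖ (kap P) n) :=
        mul_le_mul_of_nonneg_right (by linarith) hp.le
      have h6 : Real.exp (-C) * (c₁ / 2 * xx n * NN ‖P.leadingCoeff‖ (kap P) n) ≤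
          Real.exp (-C) * ‖beta Q P n 0‖ := mul_le_mul_of_nonneg_left b1 (Real.exp_pos _).le
      have h7 : 0 < Real.exp (-C) * c₁ * (xx n * NN ‖P.leadingCoeff‖ (kap P) n) := by
        have := Real.exp_pos (-C)
        positivity
      nlinarith
    have hlog : Real.log (‖beta P Q n 0‖ / ‖beta Q P n 0‖) ≤ -C := by
      rw [Real.log_le_iff_le_exp (div_pos hA hB)]
      exact hq
    have := neg_le_abs (Real.log (‖beta P Q n 0‖ / ‖beta Q P n 0‖))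
    linarith

end HillRoots
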