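import Pool.Agent.Lib.MP_e63cf8_mp.H.StmW

/-!
# XG: two cancelling sides with nonreal invariants
-/

set_option autoImplicit false

open Polynomial Filter Topology

namespace HillRoots

private lemma p_XG_NN {a κ : ℝ} (ha : 0 < a) {n : ℕ} (hn : 1 ≤ n) : 0 < NN a κ n := by
  have h0 : (0 : ℝ) < n := by exact_mod_cast hn
  have h1 : 0 < Real.Gamma ((n : ℝ) / 3) := Real.Gamma_pos_of_pos (by positivity)
  have h2 : 0 < a ^ ((n : ℝ) / 3) := Real.rpow_pos_of_pos ha _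
  have h3 : (0 : ℝ) < (36 : ℝ) ^ (-(((n : ℝ) - 3) / 3)) := Real.rpow_pos_of_pos (by norm_num) _
  unfold NN
  positivity

private lemma p_XG_reg {P Q : ℂ[X]} {a κ C : ℝ} {ν : ℂ} (ha : 0 < a) (hC : 0 < C)
    (hD : ∀ᶠ n : ℕ in atTop, (n : ℝ) ^ (-(1 / 3) : ℝ) ≤ C * DD κ ν n)
    (h9 : ∀ η : ℝ, 0 < η → ∀ᶠ n : ℕ in atTop, ∀ z z' : ℂ, ‖z‖ ≤ 1 → ‖z'‖ ≤ 1 →
      |‖beta P Q n z‖ - NN a κ n * DD κ ν n| ≤
        η * ((n : ℝ) ^ (-(1 / 3) : ℝ) + DD κ ν n) * NN a κ n ∧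
      ‖beta P Q n z - beta P Q n z'‖ ≤ η * (n : ℝ) ^ (-(1 / 3) : ℝ) * ‖z - z'‖ * NN a κ n)
    (S : Set ℕ) : Reg (beta P Q) (fun n => NN a κ n * DD κ ν n) S := by
  refine ⟨1 / 2, by norm_num, fun η hη => ?_⟩
  obtain ⟨η', hη'⟩ : ∃ η' : ℝ, η' = min (1 / 2) η / (C + 1) := ⟨_, rfl⟩
  have hη0 : 0 < η' := by
    rw [hη']
    have : 0 < min (1 / 2) η := lt_min (by norm_num) hη
    positivity
  have hη1 : η' * (C + 1) ≤ 1 / 2 := by
    rw [hη', div_mul_cancel₀ _ (by positivity)]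
    exact min_le_left _ _
  have hη2 : η' * (C + 1) ≤ η := by
    rw [hη', div_mul_cancel₀ _ (by positivity)]
    exact min_le_right _ _
  obtain ⟨n₀, hn₀⟩ := eventually_atTop.1 ((hD.and (h9 η' hη0)).and (eventually_ge_atTop 1))
  refine ⟨n₀, fun n _ hn => ?_⟩
  obtain ⟨⟨hd, h⟩, hn1⟩ := hn₀ n hn
  have h0 : (0 : ℝ) < n := by exact_mod_cast hn1
  have hx : 0 < (n : ℝ) ^ (-(1 / 3) : ℝ) := Real.rpow_pos_of_pos h0 _
  have hDD : 0 < DD κ ν n := by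
    by_contra hcon
    have := mul_nonpos_of_nonneg_of_nonpos hC.le (not_lt.1 hcon)
    linarith
  have hN := p_XG_NN (κ := κ) ha hn1
  have hR : 0 < NN a κ n * DD κ ν n := by positivity
  refine ⟨hR, fun z z' hz hz' => ?_⟩
  obtain ⟨h1, h2⟩ := h z z' hz hz'
  have h3 : η' * ((n : ℝ) ^ (-(1 / 3) : ℝ) + DD κ ν n) * NN a κ n ≤
      1 / 2 * (NN a κ n * DD κ ν n) := by
    calc η' * ((n : ℝ) ^ (-(1 / 3) : ℝ) + DD κ ν n) * NN a κ n
        ≤ η' * (C * DD κ ν n + DD κ ν n) * NN a κ n := by gcongr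
      _ = (η' * (C + 1)) * (NN a κ n * DD κ ν n) := by ring
      _ ≤ 1 / 2 * (NN a κ n * DD κ ν n) := by gcongr
  have h4 := abs_le.1 (h1.trans h3)
  refine ⟨by linarith [h4.1], by linarith [h4.2], h2.trans ?_⟩
  calc η' * (n : ℝ) ^ (-(1 / 3) : ℝ) * ‖z - z'‖ * NN a κ n
      ≤ η' * (C * DD κ ν n) * ‖z - z'‖ * NN a κ n := by gcongr
    _ ≤ η' * ((C + 1) * DD κ ν n) * ‖z - z'‖ * NN a κ n := by
        gcongr
        linarith
    _ = (η' * (C + 1)) * (‖z - z'‖ * (NN a κ n * DD κ ν n)) := by ring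
    _ ≤ η * (‖z - z'‖ * (NN a κ n * DD κ ν n)) := by gcongr
    _ = η * ‖z - z'‖ * (NN a κ n * DD κ ν n) := by ring

private lemma p_XG_im {P : ℂ[X]} (hκ : 0 < kap P) (hB : 0 < BB 2) (hI : (Inv P).im ≠ 0) :
    (nuc P).im ≠ 0 := by
  unfold nuc
  rw [Complex.im_ofReal_mul]
  positivity

theorem p_XG (hR3 : S_R3) (hW1 : S_W1) (hW2 : S_W2) (hAL2 : S_AL2) (hW9 : S_W9) (hD1 : S_D1)
    (hF11 : S_F11) : S_XG := by
  intro P Q hP hQ hP3 hQ3 hP2 hQ2 hNP hNQ hlc hmu hIP hIQ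
  have hB2 : 0 < BB 2 := (hW1 2 (Or.inr rfl)).1
  have hkap : kap Q = kap P := by
    unfold kap
    rw [hmu]
  obtain ⟨c, g, τ₀, K, δ, hB⟩ := hR3 P (by omega)
  have hκ : 0 < kap P := (hAL2 P c hP hP3 hP2 hNP (by rw [← hP3]; exact hB.hc)
    (hW2 P c g τ₀ K δ hP hP3 hB).1).1
  have haP : 0 < ‖P.leadingCoeff‖ := by
    rw [norm_pos_iff, Polynomial.leadingCoeff_ne_zero]
    rintro rfl
    simp at hP3
  have hiP := p_XG_im hκ hB2 hIP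
  have hiQ := p_XG_im (hkap ▸ hκ) hB2 hIQ
  obtain ⟨C, hC, hd⟩ := hD1 (kap P) (nuc P) (nuc Q) hiP
  obtain ⟨C', hC', hd'⟩ := hD1 (kap P) (nuc Q) (nuc P) hiQ
  have r1 := p_XG_reg haP hC (hd.mono fun _ h => h.1) (hW9 P Q hP hQ hP3 hP2 hNP) (evenMul 1)
  have h9 := hW9 Q P hQ hP hQ3 hQ2 hNQ
  rw [hkap, ← hlc] at h9
  have r2 := p_XG_reg haP hC' (hd'.mono fun _ h => h.1) h9 (evenMul 1)
  refine hF11 P Q _ _ 1 (|Real.log C| + |Real.log C'|) hP hQ (fun j _ => one_dvd j)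
    (fun j _ => one_dvd j) r1 r2 ?_
  filter_upwards [hd, hd', eventually_ge_atTop 1] with n e1 e2 hn1
  have h0 : (0 : ℝ) < n := by exact_mod_cast hn1
  have hx : 0 < (n : ℝ) ^ (-(1 / 3) : ℝ) := Real.rpow_pos_of_pos h0 _
  have hDP : 0 < DD (kap P) (nuc P) n := by
    by_contra hcon
    have := mul_nonpos_of_nonneg_of_nonpos hC.le (not_lt.1 hcon)
    linarith [e1.1]
  have hDQ : 0 < DD (kap P) (nuc Q) n := by
    by_contra hcon
    have := mul_nonpos_of_nonneg_of_nonpos hC'.le (not_lt.1 hcon)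
    linarith [e2.1]
  have hN := p_XG_NN (κ := kap P) haP hn1
  rw [mul_div_mul_left _ _ hN.ne', Real.log_div hDP.ne' hDQ.ne', abs_le]
  have l1 := Real.log_le_log hDQ e1.2
  rw [Real.log_mul hC.ne' hDP.ne'] at l1
  have l2 := Real.log_le_log hDP e2.2
  rw [Real.log_mul hC'.ne' hDQ.ne'] at l2
  constructor
  · linarith [le_abs_self (Real.log C), abs_nonneg (Real.log C')]
  · linarith [le_abs_self (Real.log C'), abs_nonneg (Real.log C)]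

end HillRoots
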