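import Pool.Agent.Lib.MP_e63cf8_mp.H.Asm5
import Pool.Agent.Lib.MP_e63cf8_mp.H.E0
import Pool.Agent.Lib.MP_e63cf8_mp.H.EG1
import Pool.Agent.Lib.MP_e63cf8_mp.H.EG2
import Pool.Agent.Lib.MP_e63cf8_mp.H.EG3
import Pool.Agent.Lib.MP_e63cf8_mp.H.EK1
import Pool.Agent.Lib.MP_e63cf8_mp.H.EK2
import Pool.Agent.Lib.MP_e63cf8_mp.H.EK3
import Pool.Agent.Lib.MP_e63cf8_mp.H.EK4
import Pool.Agent.Lib.MP_e63cf8_mp.H.EK5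
import Pool.Agent.Lib.MP_e63cf8_mp.H.EK6
import Pool.Agent.Lib.MP_e63cf8_mp.H.EK7
import Pool.Agent.Lib.MP_e63cf8_mp.H.EK8
import Pool.Agent.Lib.MP_e63cf8_mp.H.EK9
import Pool.Agent.Lib.MP_e63cf8_mp.H.EK10
import Pool.Agent.Lib.MP_e63cf8_mp.H.I1
import Pool.Agent.Lib.MP_e63cf8_mp.H.I2
import Pool.Agent.Lib.MP_e63cf8_mp.H.I3
import Pool.Agent.Lib.MP_e63cf8_mp.H.I4
import Pool.Agent.Lib.MP_e63cf8_mp.H.I5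
import Pool.Agent.Lib.MP_e63cf8_mp.H.I6
import Pool.Agent.Lib.MP_e63cf8_mp.H.I7
import Pool.Agent.Lib.MP_e63cf8_mp.H.I8
import Pool.Agent.Lib.MP_e63cf8_mp.H.J1
import Pool.Agent.Lib.MP_e63cf8_mp.H.J2
import Pool.Agent.Lib.MP_e63cf8_mp.H.J3
import Pool.Agent.Lib.MP_e63cf8_mp.H.J4
import Pool.Agent.Lib.MP_e63cf8_mp.H.J5
import Pool.Agent.Lib.MP_e63cf8_mp.H.W1
import Pool.Agent.Lib.MP_e63cf8_mp.H.W1b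
import Pool.Agent.Lib.MP_e63cf8_mp.H.W2
import Pool.Agent.Lib.MP_e63cf8_mp.H.W3
import Pool.Agent.Lib.MP_e63cf8_mp.H.W4
import Pool.Agent.Lib.MP_e63cf8_mp.H.W5
import Pool.Agent.Lib.MP_e63cf8_mp.H.W6
import Pool.Agent.Lib.MP_e63cf8_mp.H.W7
import Pool.Agent.Lib.MP_e63cf8_mp.H.AL2
import Pool.Agent.Lib.MP_e63cf8_mp.H.W8
import Pool.Agent.Lib.MP_e63cf8_mp.H.W9
import Pool.Agent.Lib.MP_e63cf8_mp.H.AL1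
import Pool.Agent.Lib.MP_e63cf8_mp.H.AL3
import Pool.Agent.Lib.MP_e63cf8_mp.H.AL4
import Pool.Agent.Lib.MP_e63cf8_mp.H.D1
import Pool.Agent.Lib.MP_e63cf8_mp.H.D2
import Pool.Agent.Lib.MP_e63cf8_mp.H.D3
import Pool.Agent.Lib.MP_e63cf8_mp.H.XG
import Pool.Agent.Lib.MP_e63cf8_mp.H.XB

/-!
# MP_e63cf8_mp, the pieces of parts H, I, J, W, D, AL, X together
-/

namespace HillRoots

theorem t_E0 : S_E0 := p_E0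
theorem t_EG1 : S_EG1 := p_EG1
theorem t_EG2 : S_EG2 := p_EG2
theorem t_EG3 : S_EG3 := p_EG3 t_EG1 t_EG2
theorem t_EK1 : S_EK1 := p_EK1
theorem t_EK2 : S_EK2 := p_EK2 t_E0 t_EG1 t_EG2 t_EG3 t_EK1
theorem t_EK3 : S_EK3 := p_EK3 t_EG1 t_EG2
theorem t_EK4 : S_EK4 := p_EK4
theorem t_EK5 : S_EK5 := p_EK5 t_B3 t_B5 t_B6 t_T4
theorem t_EK6 : S_EK6 := p_EK6 t_E0 t_EK2 t_EK4 t_EK5 t_EG2
theorem t_EK7 : S_EK7 := p_EK7 t_E0 t_EK2 t_EK3 t_EK4 t_EK5 t_EK6 t_EG1 t_EG2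
theorem t_EK8 : S_EK8 := p_EK8
theorem t_EK9 : S_EK9 := p_EK9 t_EK5 t_EK6 t_EK8
theorem t_EK10 : S_EK10 := p_EK10 t_F1 t_F2 t_F3 t_F4
theorem t_I1 : S_I1 := p_I1 t_H1 t_H3 t_U1 t_A1
theorem t_I2 : S_I2 := p_I2 t_H1 t_H3 t_H4 t_U1 t_U2 t_L2 t_A1 t_A3 t_I1
theorem t_I3 : S_I3 := p_I3 t_F1 t_A3 t_I2
theorem t_I4 : S_I4 := p_I4 t_H0
theorem t_I5 : S_I5 := p_I5 t_V1c t_U1
theorem t_I6 : S_I6 := p_I6 t_H1 t_I4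
theorem t_I7 : S_I7 := p_I7 t_R3 t_I3 t_I5 t_I6 t_F11 t_H1
theorem t_I8 : S_I8 := p_I8 t_F1 t_F4 t_F5
theorem t_J1 : S_J1 := p_J1
theorem t_J2 : S_J2 := p_J2 t_H1
theorem t_J3 : S_J3 := p_J3 t_J1 t_J2
theorem t_J4 : S_J4 := p_J4 t_F1 t_A3 t_I2 t_H1 t_H3 t_J1 t_J2 t_J3 t_U1
theorem t_J5 : S_J5 := p_J5 t_R3 t_I3 t_I5 t_I6 t_J4 t_H1 t_F12
theorem t_W1 : S_W1 := p_W1
theorem t_W1b : S_W1b := p_W1b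
theorem t_W2 : S_W2 := p_W2 t_V1c t_U1 t_W1 t_W1b
theorem t_W3 : S_W3 := p_W3 t_H2 t_W1
theorem t_W4 : S_W4 := p_W4 t_H0 t_H1 t_I4 t_W1b
theorem t_W5 : S_W5 := p_W5 t_H1 t_H4 t_U1 t_U2 t_L2 t_W2 t_W3 t_W4
theorem t_W6 : S_W6 := p_W6
theorem t_W7 : S_W7 := p_W7 t_H1 t_I4 t_W1 t_W2 t_W5 t_W6
theorem t_AL2 : S_AL2 := p_AL2
theorem t_W8 : S_W8 := p_W8 t_W1 t_W2 t_W7 t_AL2
theorem t_W9 : S_W9 := p_W9 t_R3 t_I3 t_W1 t_W2 t_W8 t_AL2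
theorem t_AL1 : S_AL1 := p_AL1 t_X2
theorem t_AL3 : S_AL3 := p_AL3 t_AL2
theorem t_AL4 : S_AL4 := p_AL4
theorem t_D1 : S_D1 := p_D1
theorem t_D2 : S_D2 := p_D2 t_W1
theorem t_D3 : S_D3 := p_D3
theorem t_XG : S_XG := p_XG t_R3 t_W1 t_W2 t_AL2 t_W9 t_D1 t_F11
theorem t_XB : S_XB := p_XB t_R3 t_W1 t_W2 t_AL2 t_W9 t_D2 t_D3 t_E2

open Polynomial in
theorem degree_three (v₀ : ℂ) (P Q : ℂ[X]) (hP : P.coeff 0 = 0) (hQ : Q.coeff 0 = 0)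
    (hdP : P.natDegree ≤ 3) (hdQ : Q.natDegree ≤ 3) :
    HasRootBasis v₀ P Q ↔ P = 0 ∨ Q = 0 ∨ (Exc P ∧ Exc Q) ∨
      (¬ Exc P ∧ ¬ Exc Q ∧ P.natDegree = Q.natDegree ∧ ‖P.leadingCoeff‖ = ‖Q.leadingCoeff‖ ∧
        (P.natDegree = 3 → Cubic P Q)) :=
  asm5 t_E0 t_EK7 t_EK8 t_EK9 t_EK10 t_I7 t_I8 t_J5 t_AL1 t_AL3 t_AL4 t_XG t_XB v₀ P Q hP hQ hdP hdQ

end HillRoots
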