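import Pool.Agent.Lib.MP_e63cf8_mp.Defs
import Pool.Agent.Lib.MP_e63cf8_mp.StmA
import Pool.Agent.Lib.MP_e63cf8_mp.StmB

/-!
# MP_e63cf8_mp, statements H: exceptional quadratic polynomials

`P = -4α² X² + (4α - 8αm) X`, `α ≠ 0`, `m ∈ ℤ`: exactly the quadratic polynomials with `a₁² = -4(2l+1)² a₂`. The gauge transform
`e^{αS}` (`S` the right shift) removes the `X²`-term and the coupling between `m-1` and `m`.

Every `S_Exx : Prop` is one piece; its complete proof is in the docstring. Files: `H/Exx.lean`, theorem `p_Exx : S_Exx`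
(with the pieces named in the docstring as hypotheses).
-/

open Polynomial Filter Topology MeasureTheory Asymptotics

namespace HillRoots

/-- `(e^{aS} x)_s = ∑_m a^m/m! x_{s-m}` -/
noncomputable def eS (a : ℂ) (x : ℤ → ℂ) (s : ℤ) : ℂ := ∑' m : ℕ, a ^ m / (m.factorial : ℂ) * x (s - m)

/-- rapidly decaying sequences -/
def Rap (x : ℤ → ℂ) : Prop := ∀ p : ℕ, ∃ C : ℝ, ∀ s : ℤ, ‖x s‖ * (1 + |(s : ℝ)|) ^ p ≤ C

/-- the gauge transform of `L_V`: `(T x)_s = 4s² x_s + 8a(s-m) x_{s-1} + ∑_j b_j x_{s+j}` -/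
noncomputable def Tg (Q : ℂ[X]) (a : ℂ) (m : ℤ) (x : ℤ → ℂ) (s : ℤ) : ℂ :=
  4 * (s : ℂ) ^ 2 * x s + 8 * a * ((s : ℂ) - m) * x (s - 1) +
    ∑ j ∈ Finset.range (Q.natDegree + 1), Q.coeff j * x (s + j)

/-- `P` is exceptional, with parameters `α`, `m`. -/
def ExcAt (P : ℂ[X]) (α : ℂ) (m : ℤ) : Prop :=
  α ≠ 0 ∧ P = C (-4 * α ^ 2) * X ^ 2 + C (4 * α - 8 * α * m) * X

/-- All eigenvalues within distance `K` of `4k²` are geometrically simple. -/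
def Geo1 (P Q : ℂ[X]) (K : ℝ) (k : ℕ) : Prop :=
  ∀ (μ : ℂ) (x y : Hs), ‖μ - 4 * (k : ℂ) ^ 2‖ ≤ K → x ≠ 0 → (∀ s, Top P Q x s = μ * x s) → (∀ s, Top P Q y s = μ * y s) →
    ∃ t : ℂ, y = t • x

/-- [E0] the parameters of an exceptional polynomial.
Proof: first claim: choose `α` with `α² = -a₂/4` (`IsSquare` / `IsAlgClosed.exists_pow_nat_eq`), `α ≠ 0`. Then `a₁² = 16(2l+1)²α²`, so `a₁ = 4(2l+1)α` or `a₁ = -4(2l+1)α`. In the first case take `m = -l` (`4α - 8αm = 4α + 8lα`), in the second replace `α`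
by `-α` (`-4(2l+1)α = 4(2l+1)(-α)`), `m = -l`. `P = ∑ coeff` (degree two, `P.coeff 0 = 0`). Second claim: `4(-α) - 8(-α)(1-m) = 4α - 8αm`. Third: `P.coeff 2 = -4α²`, `P.coeff 1 = 4α(1-2m)`, `l = -m`. -/
def S_E0 : Prop := (∀ P : ℂ[X], P.coeff 0 = 0 → P.natDegree = 2 → (∃ l : ℤ, P.coeff 1 ^ 2 = -4 * (2 * (l : ℂ) + 1) ^ 2 * P.coeff 2) →
    ∃ (α : ℂ) (m : ℤ), ExcAt P α m) ∧
  (∀ (P : ℂ[X]) (α : ℂ) (m : ℤ), ExcAt P α m → ExcAt P (-α) (1 - m)) ∧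
  (∀ (P : ℂ[X]) (α : ℂ) (m : ℤ), ExcAt P α m → P.coeff 0 = 0 ∧ P.natDegree = 2 ∧ ∃ l : ℤ, P.coeff 1 ^ 2 = -4 * (2 * (l : ℂ) + 1) ^ 2 * P.coeff 2)

/-- [EG1] the group law. Proof: the second claim: only `m = 0` contributes. First: the double series `∑_{i,j} a^i b^j/(i!j!) x_{s-i-j}` converges absolutely (`x` bounded), group the terms by `i + j = m` and use the binomial theorem
(`tsum_mul_tsum_eq_tsum_sum_antidiagonal`-style or `Summable.tsum_comm'`/`HasSum.sigma` over `Finset.antidiagonal`; compare `Complex.exp_add`). -/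
def S_EG1 : Prop := (∀ (a b : ℂ) (x : ℤ → ℂ), (∃ C : ℝ, ∀ s, ‖x s‖ ≤ C) → eS a (eS b x) = eS (a + b) x) ∧
  (∀ x : ℤ → ℂ, eS 0 x = x) ∧ (∀ a : ℂ, eS a 0 = 0)

/-- [EG2] bounds. Proof: `∑ |a|^m/m! = e^{|a|}` (first claim; also summability). Second: `(1+|s|)^p ≤ (1+|s-m|)^p (1+m)^p` and `∑ |a|^m (1+m)^p/m! < ∞` (ratio test, or `(1+m)^p ≤ p! e^{1+m}`). Third: linearity of `tsum` for summable families. Fourth: `‖x s‖ ≤ C/(1+|s|)`,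
`∑ (1+|s|)^{-2} < ∞` over `ℤ`. -/
def S_EG2 : Prop :=
  (∀ (a : ℂ) (x : ℤ → ℂ) (C : ℝ), (∀ s, ‖x s‖ ≤ C) → ∀ s, Summable (fun m : ℕ => a ^ m / (m.factorial : ℂ) * x (s - m)) ∧ ‖eS a x s‖ ≤ Real.exp ‖a‖ * C) ∧
  (∀ (a : ℂ) (x : ℤ → ℂ), Rap x → Rap (eS a x)) ∧
  (∀ (a : ℂ) (x y : ℤ → ℂ) (t u : ℂ), (∃ C : ℝ, ∀ s, ‖x s‖ ≤ C) → (∃ C : ℝ, ∀ s, ‖y s‖ ≤ C) →
    eS a (fun s => t * x s + u * y s) = fun s => t * eS a x s + u * eS a y s) ∧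
  (∀ x : ℤ → ℂ, Rap x → Memℓp x 2)

/-- [EG3] conjugation (take `S_EG1`, `S_EG2` as hypotheses).
Proof: for `x` rapidly decaying let `y = eS a x`. Then (i) `s y_s = (eS a (D x))_s + a y_{s-1}` with `(D x)_s = s x_s`: `s = (s-m) + m` and `∑_m m a^m/m! x_{s-m} = a ∑_{m≥1} a^{m-1}/(m-1)! x_{(s-1)-(m-1)}`. (ii) Applying (i) twice (also to `D x`, and at `s-1`): with `z = eS a (Dx)`, `w = eS a (D²x)`:
`s² y_s = s z_s + a s y_{s-1} = w_s + a z_{s-1} + a((s-1) y_{s-1} + y_{s-1}) = w_s + a z_{s-1} + a(z_{s-1} + a y_{s-2} + y_{s-1}) = w_s + 2a z_{s-1} + a² y_{s-2} + a y_{s-1}`. (iii) shifts commute with `eS`: `(eS a x)(s+j) = eS a (x(·+j)) s`. (iv) `(eS a (Tg x))_s = 4w_s + 8a(eS a (t ↦ (t-m)x_{t-1}))_s + ∑ b_j y_{s+j}`, where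
`(t-m)x_{t-1} = (t-1)x_{t-1} + (1-m) x_{t-1}`, so the middle term is `8a(z_{s-1} + (1-m) y_{s-1})`. And `Top P Q y s = 4s²y_s + (4a-8am) y_{s-1} - 4a² y_{s-2} + ∑ b_j y_{s+j} = 4w_s + 8a z_{s-1} + 4a²y_{s-2} + 4a y_{s-1} + (4a - 8am)y_{s-1} - 4a²y_{s-2} + …`: equal, since
`4a + 4a - 8am = 8a(1-m)`. (`P.natDegree = 2`, the sum in `Vop` is over `j = 0,1,2` with coefficients `0, 4a-8am, -4a²`.) All sequences are rapidly decaying, so everything is summable. Second claim: apply the first to `eS (-a) x` (rapidly decaying, EG2), `eS a (eS (-a) x) = x`, and apply `eS (-a)` to both sides (EG1;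
`Top P Q x` and `Tg …` are rapidly decaying, in particular bounded). Third: `Rap` is preserved by `Top` and `Tg` (finitely many shifts, polynomial weights). -/
def S_EG3 : Prop := (∀ (P Q : ℂ[X]) (a : ℂ) (m : ℤ) (x : ℤ → ℂ), ExcAt P a m → Rap x → Top P Q (eS a x) = eS a (Tg Q a m x)) ∧
  (∀ (P Q : ℂ[X]) (a : ℂ) (m : ℤ) (x : ℤ → ℂ), ExcAt P a m → Rap x → eS (-a) (Top P Q x) = Tg Q a m (eS (-a) x)) ∧
  (∀ (P Q : ℂ[X]) (a : ℂ) (m : ℤ) (x : ℤ → ℂ), Rap x → Rap (Top P Q x) ∧ Rap (Tg Q a m x))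

/-- [EK1] transposition of the compressed operator.
Proof. Work in `ℓ²(ℕ)` (`lp (fun _ : ℕ => ℂ) 2`), index `i ↔ s = m + i`. Let `w_s = 4s²+1 ≥ 1`. Let `K : ℓ²(ℕ) → ℓ²(ℕ)` be the operator `(K y)_t = [-8a(t+1-m) y_{t+1}/w_{t+1} - ∑_{j} b_j y_{t-j}/w_{t-j} [t-j ≥ m] + (μ+1) y_t/w_t]` (the transposed operator), `t ≥ m`.
It is a finite sum of (shift)∘(multiplication by a sequence tending to `0`: `(t+1-m)/w_{t+1} → 0`, `1/w → 0`), so it is compact: multiplication by `c_i → 0` is the norm limit of its truncations, which have finite rank (`isCompactOperator_of_tendsto`, `IsCompactOperator.clm_comp`/`comp_clm`, `IsCompactOperator.add`).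
By the Fredholm alternative (`IsCompactOperator.hasEigenvalue_or_mem_resolventSet` for the value `1`, in `Mathlib/Analysis/Normed/Operator/Compact/FredholmAlternative.lean`) either `K v = v` for some `v ≠ 0`, or `1 - K` is bijective. The second case is impossible: let `f_i = F (m+i)`, in `ℓ²` and nonzero; by hypothesis
`w_s F_s = (μ+1) F_s - 8a(s-m)F_{s-1}[s>m] - ∑ b_j F_{s+j}`, i.e. `f = K^T f` with the transposed matrix `K^T_{s,t} = K_{t,s}`, so for every `v ∈ ℓ²(ℕ)`: `∑_i f_i (v - K v)_i = ∑_i (f - K^T f)_i v_i = 0` (absolutely convergent sums; a finite sum of shifts). If `1 - K` were surjective, choosing `v` with `v - Kv = conj f` would give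
`‖f‖² = 0`. So there is `v ≠ 0` with `K v = v`. Let `y_s = v_s/w_s` for `s ≥ m`, and `Z_t = y_{-t}` for `t ≤ -m`, `Z_t = 0` for `t > -m`. Then `w_s y_s = -8a(s+1-m) y_{s+1} - ∑_j b_j y_{s-j}[s-j≥m] + (μ+1) y_s`, which is for `t = -s`: `4t²Z_t + 8(-a)(t-(1-m)) Z_{t-1} + ∑ b_j Z_{t+j} = μ Z_t`, `t ≤ -m`; for `t = 1-m` all terms
vanish (the factor `t-(1-m)` is `0`), and for `t > 1-m` as well (`Z_{t-1} = 0`). Rapid decay: `|y_s| ≤ C`, and `|y_s| ≤ C(1+|s|)^{-p}` implies `|y_s| ≤ C'(1+|s|)^{-p-1}` by the equation divided by `w_s` (coefficients `O((1+|s|)^{-1})`). -/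
def S_EK1 : Prop := ∀ (Q : ℂ[X]) (a : ℂ) (m : ℤ) (μ : ℂ) (F : ℤ → ℂ), Rap F → (∃ s : ℤ, m ≤ s ∧ F s ≠ 0) →
  (∀ s : ℤ, m ≤ s → Tg Q a m F s = μ * F s) →
  ∃ Z : ℤ → ℂ, Z ≠ 0 ∧ Rap Z ∧ (∀ s : ℤ, -m < s → Z s = 0) ∧ ∀ s, Tg Q (-a) (1 - m) Z s = μ * Z s

/-- [EK2] (take `S_E0`, `S_EG1`, `S_EG2`, `S_EG3`, `S_EK1` as hypotheses).
Proof: let `F = eS (-a) x`, rapidly decaying. By EG3 (second claim) and linearity `Tg Q a m F - μ F = eS (-a) (Top P Q x - μ x) = eS (-a) y`, which vanishes at all `s ≥ m`. `Tg Q a m F s` for `s ≥ m`; so EK1 gives `Z`. Put `x' = eS (-a) Z`. As `ExcAt P (-a) (1-m)` (E0), EG3 (first claim for `-a`, `1-m`) gives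
`Top P Q x' = eS (-a) (Tg Q (-a) (1-m) Z) = μ x'`. `eS a x' = Z` (EG1), which vanishes for `s ≥ 1-m`; `x' ≠ 0` since `Z ≠ 0`. -/
def S_EK2 : Prop := ∀ (P Q : ℂ[X]) (a : ℂ) (m : ℤ) (μ : ℂ) (x y : ℤ → ℂ), ExcAt P a m → Rap x → Rap y →
  (∀ s, Top P Q x s - μ * x s = y s) → (∀ s : ℤ, m ≤ s → eS (-a) y s = 0) → (∃ s : ℤ, m ≤ s ∧ eS (-a) x s ≠ 0) →
  ∃ x' : ℤ → ℂ, x' ≠ 0 ∧ Rap x' ∧ (∀ s, Top P Q x' s = μ * x' s) ∧ ∀ s : ℤ, 1 - m ≤ s → eS a x' s = 0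

/-- [EK3] the two kinds exclude each other (take `S_EG1`, `S_EG2` as hypotheses).
Proof: let `u = eS (-a) x`, bounded by `B`, `u_s = 0` for `s ≥ m`, and `eS (2a) u = eS a x` (EG1) vanishes for `s ≥ 1-m`. Let `b = 2a ≠ 0`. For `s = N + m - 1` with `N` a natural number, `s ≥ 1-m`: `0 = ∑_j b^j/j! u_{s-j} = ∑_{r ≥ 0} b^{N+r}/(N+r)! u_{m-1-r}` (the terms with `j < N` vanish). Claim `u_{m-1-r} = 0` for all `r ≥ 0`, by
strong induction on `r₀`: if it holds for `r < r₀`, multiply by `(N+r₀)!/b^{N+r₀}`: `u_{m-1-r₀} = -∑_{r>r₀} b^{r-r₀} (N+r₀)!/(N+r)! u_{m-1-r}`, and `(N+r)!/(N+r₀)! ≥ (N+r₀+1)(r-r₀)!/1`, hence `|u_{m-1-r₀}| ≤ B e^{|b|}/(N+r₀+1) → 0` as `N → ∞`. [`(N+r)!/(N+r₀)! = (N+r₀+1)⋯(N+r)`, the first factor is `N+r₀+1`,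
the others are at least `2,3,…,r-r₀`.] So `u = 0` and `x = eS a u = 0` (EG1). -/
def S_EK3 : Prop := ∀ (a : ℂ) (m : ℤ) (x : ℤ → ℂ), a ≠ 0 → (∃ C : ℝ, ∀ s, ‖x s‖ ≤ C) →
  (∀ s : ℤ, m ≤ s → eS (-a) x s = 0) → (∀ s : ℤ, 1 - m ≤ s → eS a x s = 0) → x = 0

/-- [EK4] vectors near the block with a vanishing coordinate `k` of the gauge transform are close to `e_{-k}`.
Proof: `x_s = p[s=-k] + q[s=k] + r_s`, `|r_s| ≤ (K/k)(|p|+|q|)`. `0 = eS b x k = ∑_j b^j/j! x_{k-j} = q + p b^{2k}/(2k)! + ∑_j b^j/j! r_{k-j}` (`j = 0` gives `q`, `j = 2k` gives `p`), so `|q| ≤ |p| |b|^{2k}/(2k)! + e^{|b|}(K/k)(|p|+|q|)` and `|b|^{2k}/(2k)! = (|b|/(2k))·|b|^{2k-1}/(2k-1)! ≤ |b|e^{|b|}/(2k)`.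
For `k ≥ 2Ke^{|b|}`: `|q|/2 ≤ |p|(|b|e^{|b|}/2 + K e^{|b|})/k`. -/
def S_EK4 : Prop := ∀ (b : ℂ) (K : ℝ), ∃ (C : ℝ) (k₀ : ℕ), 0 < C ∧ ∀ k : ℕ, k₀ ≤ k → 1 ≤ k → ∀ (x : Hs) (p q : ℂ),
  ‖x - p • ee (-(k : ℤ)) - q • ee k‖ ≤ K / k * (‖p‖ + ‖q‖) → eS b x k = 0 → ‖q‖ ≤ C / k * ‖p‖

/-- [EK5] the block spaces (take `S_B3`, `S_B5`, `S_B6`, `S_T4` of `StmA` as hypotheses).
Proof: `K₁, N₁` from B3, `N₀` from B5; fix `N = max N₀ N₁` and `W, Y` with `BD P Q K₁ N W Y`. For `k > N` let `U = {x | ∀ j, j ≠ k → j ≠ -k → W.symm x j = 0}`, i.e. the image under `W` of `span {e_{-k}, e_k}` (dimension two). Its elements are `x = W(p e_{-k} + q e_k)`, `‖x - p e_{-k} - q e_k‖ ≤ |p|‖We_{-k}-e_{-k}‖ + |q|‖We_k-e_k‖ ≤ (K₁/k)(|p|+|q|)`: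
claims 4 and 5. Claim 3: `inter` and `Yblk`: `Top (W e_j) = W(4j² e_j + Y e_j)` and `Y e_j` is supported on `{k,-k}` for `j = ±k`; linearity of `Top`. Claim 2: B6 for `m = k`: `U` is spanned by root vectors (its elements `W e_i`, `blk N i = k`, i.e. `i = ±k`), which are rapidly decaying by T4, and `Rap` is closed under linear combinations.
Claim 6: if `x ∈ seqRoot P Q μ`, `x ≠ 0`, `|μ - 4k²| ≤ K'`: B5 gives `i` with `|4i²-μ| ≤ 2ν`, and `W.symm x` supported on the block of `i`; `|4i²-4k²| ≤ 2ν+K' < 4k` for `k ≥ k₀(K')` forces `|i| = k` (`|4i²-4k²| = 4||i|-k|(|i|+k) ≥ 4k`), so `x ∈ U`. Claim 7: an eigenvector `x ∈ U`, `x ≠ 0` is in `seqRoot P Q μ`;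
B5 gives `i` with `|4i²-μ| ≤ 2ν` and `W.symm x` supported on the block of `i`; since `W.symm x ≠ 0` is supported on `{±k}`, `blk N i = k`, so `|i| = k` and `|4k²-μ| ≤ 2ν`. Take `K = max(K₁,2ν)+1`. -/
def S_EK5 : Prop := ∀ P Q : ℂ[X], ∃ K : ℝ, 0 < K ∧ ∀ K' : ℝ, ∃ k₀ : ℕ, ∀ k : ℕ, k₀ ≤ k → 1 ≤ k → ∃ U : Submodule ℂ Hs,
  Module.finrank ℂ U = 2 ∧ (∀ x ∈ U, Rap (x : ℤ → ℂ)) ∧
  (∀ x ∈ U, ∃ y ∈ U, ∀ s, Top P Q x s = y s) ∧
  (∀ x ∈ U, ∃ p q : ℂ, ‖x - p • ee (-(k : ℤ)) - q • ee k‖ ≤ K / k * (‖p‖ + ‖q‖)) ∧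
  (∀ p q : ℂ, ∃ x ∈ U, ‖x - p • ee (-(k : ℤ)) - q • ee k‖ ≤ K / k * (‖p‖ + ‖q‖)) ∧
  (∀ (μ : ℂ) (x : Hs), x ∈ seqRoot P Q μ → x ≠ 0 → ‖μ - 4 * (k : ℂ) ^ 2‖ ≤ K' → x ∈ U) ∧
  (∀ (μ : ℂ) (x : Hs), x ∈ U → x ≠ 0 → (∀ s, Top P Q x s = μ * x s) → ‖μ - 4 * (k : ℂ) ^ 2‖ ≤ K)

/-- [EK6] every eigenvalue near `4k²` has an eigenvector close to `e_{-k}` (take `S_E0`, `S_EK2`, `S_EK4`, `S_EK5`, `S_EG2` as hypotheses).
Proof: let `x ≠ 0`, `Top x = μ x`. `x ∈ seqRoot P Q μ` (`N = 1`: `Tsh x = 0`), so `x ∈ U` (claim 6 of EK5) is rapidly decaying. If `eS (-α) x s = 0` for all `s ≥ m`, put `x₁ = x`, `b = -α`. Otherwise EK2 with `y = 0` gives `x'` (in `ℓ²` by EG2 (4)), an eigenvector for `μ` with `eS α x' s = 0` for `s ≥ 1-m`; put `x₁ = x'`, `b = α`;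
again `x₁ ∈ U`. In both cases `eS b x₁ k = 0` for `k ≥ max(m,1-m)`, `‖x₁ - p e_{-k} - q e_k‖ ≤ (K/k)(|p|+|q|)` and EK4: `|q| ≤ (C/k)|p|`, so `p ≠ 0` (otherwise `q = 0`, `x₁ = 0`). Divide by `p`: `‖p⁻¹x₁ - e_{-k}‖ ≤ (K/k)(1+C/k) + C/k`. -/
def S_EK6 : Prop := ∀ (P Q : ℂ[X]) (α : ℂ) (m : ℤ) (K' : ℝ), ExcAt P α m → ∃ (C : ℝ) (k₀ : ℕ), 0 < C ∧ ∀ k : ℕ, k₀ ≤ k → 1 ≤ k →
  ∀ (μ : ℂ) (x : Hs), ‖μ - 4 * (k : ℂ) ^ 2‖ ≤ K' → x ≠ 0 → (∀ s, Top P Q x s = μ * x s) →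
    ∃ x' : Hs, (∀ s, Top P Q x' s = μ * x' s) ∧ ‖x' - ee (-(k : ℤ))‖ ≤ C / k

/-- [EK7] one exceptional side and simple eigenvalues: bad pairs (take `S_E0`, `S_EK2`, `S_EK3`, `S_EK4`, `S_EK5`, `S_EK6`, `S_EG1`, `S_EG2` as hypotheses).
Proof: `K` from EK5 (the same `K` bounds the eigenvalues); given `ε` choose `k` large with `Geo1 P Q K k`, and `U` (EK5 with `K' = K`). `T : U → U` the linear map induced by `Top` (claim 3 of EK5), an endomorphism of a two dimensional complex space. (a) If `T` has two different eigenvalues `μ₁ ≠ μ₂` with eigenvectors in `U`: by claim 7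
`|μ_i - 4k²| ≤ K`, and EK6 gives eigenvectors `x_i'` with `‖x_i' - e_{-k}‖ ≤ C/k ≤ ε`, both in `seqRoot P Q μ_i`: this is the pair required in `BadPairs` (`j = -k`). (b) Otherwise `T` has only one eigenvalue `μ` and `(T-μ)² = 0` (dimension two). `T ≠ μ`: otherwise all of `U` (dimension two) consists of eigenvectors, contradicting `Geo1`.
So there is `v ∈ U` with `x = (T-μ)v ≠ 0`, `(T-μ)x = 0`, and `x, v` span `U`. We derive a contradiction for `k` large. Case 1: `eS (-α) x s = 0` for all `s ≥ m`. If `eS (-α) v s ≠ 0` for some `s ≥ m`, then EK2 (for `v`, `y = x`) gives an eigenvector `x'` (in `Hs`) for `μ` with `eS α x' = 0` on `s ≥ 1-m`; by `Geo1` `x' = t x`, `t ≠ 0`, so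
`eS α x = 0` on `s ≥ 1-m`, and `x = 0` by EK3, contradiction. So `eS (-α) v = 0` on `s ≥ m`, hence (linearity) `eS (-α) w k = 0` for all `w ∈ U` (`k ≥ m`). Take `w ∈ U` with `‖w - e_k‖ ≤ K/k` (claim 5, `p = 0`, `q = 1`): EK4 gives `1 ≤ 0`, contradiction. Case 2: `eS (-α) x s ≠ 0` for some `s ≥ m`. Then EK2 (with `y = 0`) gives an eigenvector
`x' = t x`, `t ≠ 0`, with `eS α x' = 0` on `s ≥ 1-m`, so `eS α x = 0` there: this is Case 1 for `(-α, 1-m)` instead of `(α,m)` (E0; `-(-α) = α`, `1-(1-m) = m`). -/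
def S_EK7 : Prop := ∀ (P Q : ℂ[X]) (α : ℂ) (m : ℤ), ExcAt P α m → (∀ K' : ℝ, ∃ᶠ k : ℕ in atTop, Geo1 P Q K' k) → BadPairs P Q

/-- [EK8] reflection.
Proof: `(Top Q P (x∘neg)) s = Top P Q x (-s)`: unfold, commute the two sums. For `BadPairs`/`GoodPairs`: let `ρ : Hs → Hs` be the reflection `(ρx)_s = x_{-s}`, an isometry (reindex the `ℓ²` norm by `Equiv.neg ℤ`), linear, `ρ e_j = e_{-j}`; it maps `seqRoot P Q μ` to `seqRoot Q P μ` (`Tsh Q P μ (x∘neg) = (Tsh P Q μ x)∘neg`,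
iterate). For `GoodPairs`: the pair for `(Q,P)` at `k` is `ρf, ρg` with `p,q` exchanged and `p',q'` exchanged: `|pq'-p'q|` is unchanged. For `BadPairs`: `j ↦ -j`. Last claim: the eigenvector form. -/
def S_EK8 : Prop := (∀ (P Q : ℂ[X]) (x : ℤ → ℂ) (s : ℤ), Top Q P (fun t => x (-t)) s = Top P Q x (-s)) ∧
  (∀ P Q : ℂ[X], BadPairs P Q → BadPairs Q P) ∧ (∀ P Q : ℂ[X], GoodPairs P Q → GoodPairs Q P) ∧
  (∀ (P Q : ℂ[X]) (μ : ℂ) (x : Hs), (∀ s, Top P Q x s = μ * x s) → ∃ x' : Hs, (∀ s, x' s = x (-s)) ∧ (∀ s, Top Q P x' s = μ * x' s) ∧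
    ∀ j : ℤ, ‖x' - ee j‖ = ‖x - ee (-j)‖)

/-- [EK9] two exceptional sides: good pairs (take `S_EK5`, `S_EK6`, `S_EK8` as hypotheses).
Proof: `K` and (with `K' = K`) `U` from EK5 for `(P,Q)`, `k` large. The map induced by `Top` on `U` has an eigenvalue `μ` with eigenvector `x ∈ U` (`Module.End.exists_eigenvalue`), `|μ - 4k²| ≤ K` (claim 7). By EK6 for `(P,Q)` there is an eigenvector `f` for `μ` with `‖f - e_{-k}‖ ≤ C/k`. By EK8 `x` reflected is an eigenvector of `(Q,P)`, so EK6 for `(Q,P)`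
gives an eigenvector `g'` of `(Q,P)` with `‖g' - e_{-k}‖ ≤ C/k`; reflect back: `g` with `‖g - e_k‖ ≤ C/k`, an eigenvector of `(P,Q)` for `μ`. So the pair `f, g`, `a = b = μ`, `p = 1, q = 0, p' = 0, q' = 1` shows `GoodPairs`. (`ExcAt Q β m'` for the second side.) -/
def S_EK9 : Prop := ∀ (P Q : ℂ[X]) (α β : ℂ) (m m' : ℤ), ExcAt P α m → ExcAt Q β m' → GoodPairs P Q

/-- [EK10] simple eigenvalues from a nonvanishing off-diagonal entry (take `S_F1`, `S_F2`, `S_F3`, `S_F4` of `StmB` as hypotheses).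
Proof: `Z = K'`, `n = 2k`, `μ = 4k²+z`, `|z| ≤ K'`. For an eigenvector `x ∈ Hs` let `c s = x (s-k)`: `(E_s+z) c_s = Vop P Q c s` for all `s ∉ {0,n}` (as in F5: `4k² - 4(s-k)² = 4s(2k-s) = E_s`), and at `s = 0, n` the equation is `z c_0 = Vop c 0`, `z c_n = Vop c n` (`E_0 = E_n = 0`). With `p = c_0`, `q = c_n`, uniqueness (F1) gives
`c = p C0 P Q n z + q (C0 Q P n z)(n-·)` (F2 for the second solution; the difference solves the problem with data `0`), so `z p = p α + q β_{QP}`, `z q = p β_{PQ} + q α` (F3; see the docstring of F5). If `(p,q) = (0,0)` then `c = 0`. For `x ≠ 0`: `(z-α)² = β_{PQ}β_{QP}`, so `|z - α| ≤ K/n`, `|z| ≤ 2K/n ≤ 1` for `n` large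
(F4), so `β_{PQ}(z) ≠ 0` or `β_{QP}(z) ≠ 0` by hypothesis. If `β_{PQ} ≠ 0`: `p = (z-α)q/β_{PQ}` for `x` and for `y` (with `p',q'`), `q ≠ 0` (otherwise `p = 0` as well), so `y - (q'/q) x` has data `(0,0)` and vanishes. If `β_{QP} ≠ 0`: `q = (z-α)p/β_{QP}`, `y = (p'/p) x`. -/
def S_EK10 : Prop := ∀ (P Q : ℂ[X]) (K' : ℝ), P.coeff 0 = 0 → Q.coeff 0 = 0 → ∃ k₀ : ℕ, ∀ k : ℕ, k₀ ≤ k → 1 ≤ k →
  (∀ z : ℂ, ‖z‖ ≤ 1 → beta P Q (2 * k) z ≠ 0 ∨ beta Q P (2 * k) z ≠ 0) → Geo1 P Q K' k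

end HillRoots
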