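import Pool.Agent.Lib.MP_e63cf8_mp.StmA
import Pool.Agent.Lib.MP_e63cf8_mp.StmB
import Pool.Agent.Lib.MP_e63cf8_mp.StmC
import Pool.Agent.Lib.MP_e63cf8_mp.StmD
import Pool.Agent.Lib.MP_e63cf8_mp.StmE

/-!
# MP_e63cf8_mp, statements I, J: comparison with the one-sided recursion; cubic sides without quadratic term

Notation as in `StmC`: `M = P.natDegree`, `a_j = P.coeff j`, `h_s = hh M c n s`, `G_s = GG M c g n s`, `E_s = En n s`.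
Every `S_xx : Prop` is one piece. Files: `H/xx.lean`, theorem `p_xx : S_xx` (with the pieces named in the docstring as hypotheses).
-/

open Polynomial Filter Topology MeasureTheory Asymptotics

namespace HillRoots

/-- the solution of the recursion with the steps of `P` only: `x_0 = 1`, `E_s x_s = ∑_{i<s} a_{s-i} x_i` -/
noncomputable def xP (P : ℂ[X]) (n : ℕ) : ℕ → ℂ
  | 0 => 1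
  | (s + 1) => (∑ i : Fin (s + 1), P.coeff (s + 1 - (i : ℕ)) * xP P n i) / (En n ((s : ℤ) + 1) : ℂ)

/-- the corresponding value at `n` -/
noncomputable def betaP (P : ℂ[X]) (n : ℕ) : ℂ := ∑ i ∈ Finset.range n, P.coeff (n - i) * xP P n i

/-- [I1] the rate in A2 (take `S_H1`, `S_H3`, `S_U1`, `S_A1` as hypotheses).
Proof: the same as A2 (file `P/A2.lean`, copy and adapt it), with `∑_{s=1}^{n-1} 1/E_s = (1/(2n)) ∑_{k<n} 1/k ≤ log n/n` for `n ≥ 3` and `1/n ≤ log n/n` instead of `→ 0`. -/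
def S_I1 : Prop := ∀ (P Q : ℂ[X]) (c : ℂ) (g : ℂ → ℂ) (τ₀ K δ Z : ℝ), P.coeff 0 = 0 → Q.coeff 0 = 0 → Branch P c g τ₀ K δ →
  ∃ C : ℝ, 0 < C ∧ ∀ᶠ n : ℕ in atTop, ∀ (z γ : ℂ) (Φ A : ℝ) (φ x : ℤ → ℂ), ‖z‖ ≤ Z → 0 ≤ Φ → 0 ≤ A →
    Sol P Q n z γ 0 φ x → Forc P c g n Φ φ → Wbd P c g n A x →
    ∃ (u : ℤ → ℂ) (r : ℕ → ℂ), (∀ s : ℤ, s < 0 → u s = 0) ∧ (∀ s : ℕ, s < n → u s = x s / hh P.natDegree c n s) ∧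
      (∀ s : ℕ, 1 ≤ s → s < n → u s = u ((s : ℤ) - P.natDegree) + ∑ j ∈ Finset.Ico 1 P.natDegree, ff P c n s j * u ((s : ℤ) - j) + r s) ∧
      ∑ s ∈ Finset.Icc 1 (n - 1), ‖r s‖ / GG P.natDegree c g n s ≤ C * (Real.log n / n) * (A + Φ)

/-- [I2] comparison with the one-sided recursion (take `S_H1`, `S_H3`, `S_H4`, `S_U1`, `S_U2`, `S_L2`, `S_A1`, `S_A3`, `S_I1` as hypotheses).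
Proof: by A3, for `n` large, `‖x_s‖ ≤ 2(‖γ‖+Φ)‖h_s‖G_s` for `s < n` (`‖y_s‖ ≤ G_s` by `dom`), so `Wbd` holds with `A = 2(‖γ‖+Φ)`; A1 gives the second and the third claim. I1 gives `u, r`. Let `u'_s = xP_s/h_s` for `0 ≤ s < n` and `0` for `s < 0`: by H1 (`c^M h_{s-M} = E_s h_s`, `c^M = a_M`) and the definitions of
`xP` and `ff`, `u'_s = u'_{s-M} + ∑_{1≤j<M} f_j(s)u'_{s-j}`, `1 ≤ s < n` (for `j > s` the factor `u'` is `0`). `d = u - γ u'` on `[0,n)`, `0` for `s < 0`, satisfies the recursion with forcing `r` and `d_s = 0` for `s ≤ 0` (`u_0 = x_0/h_0 = γ`, `h_0 = 1`). L2 with `N = n-1`, `t k = τ_k`, `f = ff P c n` (U1, U2, H4; `tau M n 0 = 0`; for `k = 0`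
change `f`, it does not matter) gives `‖d_k‖ ≤ C G_k ∑_{i≤k}‖r_i‖/G_i ≤ C'G_k (log n/n)(‖γ‖+Φ)`: first claim. Last claim: `Vop P Q x n - γ betaP P n = ∑_{j=1}^M a_j (x_{n-j} - γ xP_{n-j}) + ∑_{j≥1} b_j x_{n+j}`; `‖h_{n-j}‖ ≤ C‖h_{n-M}‖` (H3 (2)), `G_{n-j} ≤ 2^M G_{n-M}`, and the third claim; `RR = ‖a_M‖‖h_{n-M}‖G_{n-M}`. -/
def S_I2 : Prop := ∀ (P Q : ℂ[X]) (c : ℂ) (g : ℂ → ℂ) (τ₀ K δ Z : ℝ), P.coeff 0 = 0 → Q.coeff 0 = 0 → Branch P c g τ₀ K δ →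
  ∃ C : ℝ, 0 < C ∧ ∀ᶠ n : ℕ in atTop, ∀ (z γ : ℂ) (Φ : ℝ) (φ x : ℤ → ℂ), ‖z‖ ≤ Z → 0 ≤ Φ →
    Sol P Q n z γ 0 φ x → Forc P c g n Φ φ →
    (∀ s : ℕ, s < n → ‖x s - γ * xP P n s‖ ≤ C * (Real.log n / n) * (‖γ‖ + Φ) * (‖hh P.natDegree c n s‖ * GG P.natDegree c g n s)) ∧
    (∀ s : ℤ, s < 0 → ‖x s‖ ≤ C / n * (‖γ‖ + Φ)) ∧
    (∀ s : ℤ, (n : ℤ) < s → ‖x s‖ ≤ C / n * (‖γ‖ + Φ) * (‖hh P.natDegree c n (n - P.natDegree)‖ * GG P.natDegree c g n (n - P.natDegree))) ∧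
    ‖Vop P Q x n - γ * betaP P n‖ ≤ C * (Real.log n / n) * (‖γ‖ + Φ) * RR P c g n

/-- [I3] comparison of `beta` (take `S_F1`, `S_A3`, `S_I2` as hypotheses).
Proof: as A5 (file `P/A5.lean`) with I2 instead of A4: first claim: I2 for `x = C0 P Q n z`, `γ = 1`, `φ = 0`, `Φ = 0`. Second: `w = C0(z) - C0(z')` solves the Feshbach problem for `z` with `γ = 0`, `φ_s = -(z-z')C0(z')_s`; by A3 for `C0(z')`, `Forc` holds with `Φ = 2‖z-z'‖` for `n` large; apply the last claim of I2. -/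
def S_I3 : Prop := ∀ (P Q : ℂ[X]) (c : ℂ) (g : ℂ → ℂ) (τ₀ K δ : ℝ), P.coeff 0 = 0 → Q.coeff 0 = 0 → Branch P c g τ₀ K δ →
  ∃ C : ℝ, 0 < C ∧ ∀ᶠ n : ℕ in atTop, ∀ z z' : ℂ, ‖z‖ ≤ 1 → ‖z'‖ ≤ 1 →
    ‖beta P Q n z - betaP P n‖ ≤ C * (Real.log n / n) * RR P c g n ∧
    ‖beta P Q n z - beta P Q n z'‖ ≤ C * (Real.log n / n) * ‖z - z'‖ * RR P c g n

/-- `φ_j(s) = 36^{-θ} Γ(y+1-θ)/Γ(y+1) · Γ(x)/Γ(x+θ)`, `x = s/3`, `y = (n-s)/3`, `θ = 1 - j/3` -/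
noncomputable def ph (j n s : ℕ) : ℝ :=
  (36 : ℝ) ^ (-(1 - (j : ℝ) / 3)) * (Real.Gamma (((n : ℝ) - s) / 3 + (j : ℝ) / 3) / Real.Gamma (((n : ℝ) - s) / 3 + 1)) *
    (Real.Gamma ((s : ℝ) / 3) / Real.Gamma ((s : ℝ) / 3 + (1 - (j : ℝ) / 3)))

/-- [I4] the Gamma weights for `M = 3` (take `S_H0` of `StmC` as hypothesis).
Proof: (a) from the definition of `hh` with `x = s/3`, `y = (n-s)/3`: `hh (s-j)/hh s = c^{-j} 36^{j/3} [Γ(y+j/3)/Γ(y)][Γ(1+x)/Γ(1+x-j/3)]` (`36 = 4·3²`), `E_s = 36xy`, `Γ(y+1) = yΓ(y)`, `Γ(1+x) = xΓ(x)`, `1 + x - j/3 = x + θ`. (b) `hh (n-j)/hh (n-3) = c^{3-j}36^{(j-3)/3}Γ(j/3)Γ(n/3)/(Γ(1)Γ(1+(n-j)/3))`, which is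
`c^{3-j} ph j n n` (`y = 0`: `Γ(0 + j/3)/Γ(1)`, `x = n/3`). (c) with `y' = y + j/3 = (n-s+j)/3 ≥ 1/3` and `x ≥ 1/3`, H0 gives `x^{-θ} ≤ Γ(x)/Γ(x+θ) ≤ x^{-θ}(1+1/x) ≤ 4x^{-θ}` and `y'^{-θ} ≤ Γ(y')/Γ(y'+θ) ≤ 4y'^{-θ}` (`y'+θ = y+1`), and `(n-s+1)/3 ≤ y' ≤ 2(n-s+1)/3` (`1 ≤ j ≤ 2`); `36·(s/3)·(n-s+1)/3 = 4s(n-s+1)`. (d) `ff P c n s j = (a_j/c^j) ph j n s`
for `j ≤ s`, from (a) and the definition of `ff`. -/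
def S_I4 : Prop := ∀ (c : ℂ) (j n s : ℕ), c ≠ 0 → 1 ≤ j → j ≤ 2 → 1 ≤ s → s ≤ n → 3 ≤ n →
  (j ≤ s → s < n → c ^ j * hh 3 c n (s - j) = (ph j n s : ℂ) * (En n s : ℂ) * hh 3 c n s) ∧
  (c ^ j * hh 3 c n (n - j) = (ph j n n : ℂ) * c ^ 3 * hh 3 c n (n - 3)) ∧
  (8 * (s : ℝ) * ((n : ℝ) - s + 1)) ^ (-(1 - (j : ℝ) / 3)) ≤ ph j n s ∧
  ph j n s ≤ 16 * (4 * (s : ℝ) * ((n : ℝ) - s + 1)) ^ (-(1 - (j : ℝ) / 3)) ∧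
  (∀ P : ℂ[X], P.natDegree = 3 → j ≤ s → s < n → ff P c n s j = P.coeff j / c ^ j * (ph j n s : ℂ))

/-- [I5] for `a₂ = 0` the products `G` are bounded (take `S_V1c`, `S_U1` as hypotheses).
Proof: `g` is analytic near `0`, `g(0) = 1`, `g(x)³ = 1 + (a₁/a₃)(x g(x))²` (the equation of `Branch`, `a₂ = 0`), so `|g(x)³ - 1| ≤ C|x|²` and `|g(x) - 1| ≤ C'|x|²` for small `x` (`g³-1 = (g-1)(g²+g+1)`, `g²+g+1 → 3`), `|log‖g(cτ_k)‖| ≤ C''τ_k²`, `τ_k² = E_k^{-2/3}`, and `∑_{k ≤ n-3}E_k^{-2/3} → 0` (V1c, `s = 2/3`). -/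
def S_I5 : Prop := ∀ (P : ℂ[X]) (c : ℂ) (g : ℂ → ℂ) (τ₀ K δ : ℝ), P.coeff 0 = 0 → P.natDegree = 3 → P.coeff 2 = 0 → Branch P c g τ₀ K δ →
  ∀ᶠ n : ℕ in atTop, 1 / 2 ≤ GG 3 c g n (n - 3) ∧ GG 3 c g n (n - 3) ≤ 2

/-- [I6] the size of `betaP` for `a₂ = 0`, `a₁ ≠ 0` (take `S_H1`, `S_I4` as hypotheses).
Proof: let `A = a₁/c`, `φ(s) = ph 1 n s`, `U_s = xP_s/h_s` for `0 ≤ s < n`, `U_n = betaP P n/(a₃h_{n-3})`, `h_s = hh 3 c n s`, `c³ = a₃`. Then `U_s = U_{s-3} + Aφ(s)U_{s-1}` for all `1 ≤ s ≤ n` (`U_{<0} = 0`): for `s < n` by H1 and I4 (a),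
for `s = n`: `betaP = a₃xP_{n-3} + a₁xP_{n-1}` and `a₁h_{n-1} = (a₁/c)φ(n) c³h_{n-3}` (I4 (b)). Let `F = |A|∑_{s=1}^nφ(s)`. By I4 (c), with `s(n-s+1) ≥ (n/2)min(s,n-s+1)`: `F ≤ C n^{-2/3}∑_{m≤n}m^{-2/3} ≤ C'n^{-1/3}`. Iterating, `U_s = [3∣s] + A∑_{1≤t≤s, 3∣s-t}φ(t)U_{t-1}`. With `m_r = max{|U_s| : s ≤ n, s ≡ r mod 3}`: `m_0 ≤ 1 + F m_2`,
`m_1 ≤ F m_0`, `m_2 ≤ F m_1`, so for `F ≤ 1/2`: `m_0 ≤ 2`, `m_1 ≤ 2F`, `m_2 ≤ 2F²` (upper bounds). Lower bounds: `n ≡ 0`: `|U_n - 1| ≤ F m_2 ≤ 2F³`. `n ≡ 1`: `|U_n - A∑_{t≤n,t≡1}φ(t)| ≤ F·2F³`, and `∑_{t≤n,t≡1}φ(t) ≥ (n/3)(8n²)^{-2/3} ≥ c n^{-1/3}` (`t(n-t+1) ≤ n²`). `n ≡ 2`: `|U_n - A²∑_{t≤n,t≡2}φ(t)∑_{t'<t,t'≡1}φ(t')| ≤ F·2F⁴`, and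
the double sum is `≥ c n^{-2/3}` (about `n²/18` pairs, each `≥ (8n²)^{-4/3}`). All errors are of smaller order since `F → 0`. -/
def S_I6 : Prop := ∀ (P : ℂ[X]) (c : ℂ), P.coeff 0 = 0 → P.natDegree = 3 → P.coeff 2 = 0 → P.coeff 1 ≠ 0 → c ^ 3 = P.leadingCoeff →
  ∃ c₁ c₂ : ℝ, 0 < c₁ ∧ 0 < c₂ ∧ ∀ᶠ n : ℕ in atTop,
    c₁ * (n : ℝ) ^ (-(((n % 3 : ℕ) : ℝ) / 3)) * (‖P.leadingCoeff‖ * ‖hh 3 c n (n - 3)‖) ≤ ‖betaP P n‖ ∧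
    ‖betaP P n‖ ≤ c₂ * (n : ℝ) ^ (-(((n % 3 : ℕ) : ℝ) / 3)) * (‖P.leadingCoeff‖ * ‖hh 3 c n (n - 3)‖)

/-- [I7] good pairs for `a₂ = b₂ = 0`, `a₁b₁ ≠ 0`, `|a₃| = |b₃|` (take `S_R3`, `S_I3`, `S_I5`, `S_I6`, `S_F11`, `S_H1` as hypotheses).
Proof: branch data `(c,g)`, `(c',g')` from R3; `‖c‖ = ‖c'‖`, so `‖a₃‖‖h_{n-3}‖ = ‖b₃‖‖h'_{n-3}‖ =: H_n > 0` (definition of `hh`; the real factor is the same and positive). By I5 `RR P c g n ≤ 2H_n`, the same for `Q`. Let `R n = n^{-(n mod 3)/3}H_n`. By I6 `c₁R ≤ ‖betaP‖ ≤ c₂R` and by I3 `‖beta - betaP‖ ≤ C(log n/n)2H_n`, with `(log n/n)/n^{-2/3} → 0`,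
so `(c₁/2)R ≤ ‖beta P Q n z‖ ≤ 2c₂R` and the Lipschitz constant is `≤ ηR` for `n` large. So `Reg (beta P Q) (c₂ R) univ`-type statement holds for the function `R₁ = c₂R` (`ε = c₁/(2c₂)`), on every set; the same for `Q` with `R₂ = c₂'R`. `log(R₁/R₂)` is constant. F11 with `g = 1` (`SuppMul 1` is trivial). -/
def S_I7 : Prop := ∀ P Q : ℂ[X], P.coeff 0 = 0 → Q.coeff 0 = 0 → P.natDegree = 3 → Q.natDegree = 3 → P.coeff 2 = 0 → Q.coeff 2 = 0 →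
  P.coeff 1 ≠ 0 → Q.coeff 1 ≠ 0 → ‖P.leadingCoeff‖ = ‖Q.leadingCoeff‖ → GoodPairs P Q

/-- [I8] symmetric potentials (take `S_F1`, `S_F4`, `S_F5` as hypotheses).
Proof: let `w ∈ ℂ`, `‖w‖ = 1`, `b_j = w^j a_j`. For `x : ℤ → ℂ` put `y_s = w^s x_s`: `Vop Q P y s = ∑_j w^ja_jy_{s-j} + ∑_j a_jy_{s+j} = w^s(∑_ja_jx_{s-j} + ∑_jw^ja_jx_{s+j}) = w^s Vop P Q x s` (the degrees of `P, Q` agree). So if `x` solves the Feshbach problem for `(P,Q)` with data `1, 0`, then `y` solves it for `(Q,P)`; by uniqueness (F1)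
`C0 Q P n z s = w^s C0 P Q n z s` and `beta Q P n z = w^n beta P Q n z`. Lipschitz bound for `beta`: as in F4, with `w' = C0(z) - C0(z')`, `sup|w'| ≤ (2K/n)|z-z'|`, so `|beta(z)-beta(z')| ≤ ν(2K/n)|z-z'|`. For `n = 2k` large the maps `z ↦ alpha P Q n z ± w^k beta P Q n z` are contractions of the closed unit disc (F4: values `≤ 2K/n`): fixed points `z_±`.
With `(p,q) = (1, ±w^{-k})`: `beta Q P (z) q = w^{2k}beta P Q·(±w^{-k}) = ±w^k beta P Q(z) = z - α` and `(z-α)q = ±w^{-k}(z-α) = beta P Q(z)`; so F5 gives eigenvectors `f, g` for `z_+`, `z_-` with `q = w^{-k}`, `q' = -w^{-k}`, `|pq'-p'q| = 2`. -/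
def S_I8 : Prop := ∀ (P Q : ℂ[X]) (w : ℂ), P.coeff 0 = 0 → Q.coeff 0 = 0 → ‖w‖ = 1 → (∀ j, Q.coeff j = w ^ j * P.coeff j) → GoodPairs P Q

/-! ## J: `Q = b₃X³ + b₁X`… against a cubic monomial -/

/-- `q_j = (∏_{i<j}(i - 1/3))/j!` -/
noncomputable def qj (j : ℕ) : ℝ := (∏ i ∈ Finset.range j, ((i : ℝ) - 1 / 3)) / (j.factorial : ℝ)

/-- `r_K = (∏_{i<K}(i - 2/3))/K!` -/
noncomputable def rj (j : ℕ) : ℝ := (∏ i ∈ Finset.range j, ((i : ℝ) - 2 / 3)) / (j.factorial : ℝ)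

/-- [J1] Vandermonde and sizes.
Proof: `q_j = (-1)^j binom(1/3,j)`, `r_j = (-1)^j binom(2/3,j)`: the first claim is Vandermonde's identity (`Ring.add_choose_eq` for `1/3 + 1/3 = 2/3`, or by induction from the recurrences: `(j+1)q_{j+1} = (j-1/3)q_j`, so both sides `S_K` satisfy `(K+1)S_{K+1} = (K-2/3)S_K`: `(K+1)∑_{j}q_jq_{K+1-j} = 2∑ j q_jq_{K+1-j}` by symmetry
`= 2∑_j(j-1/3)q_jq_{K-j}` and `2∑_jj q_jq_{K-j} = K∑q_jq_{K-j}`). Sizes: `|q_{j+1}/q_j| = (j-1/3)/(j+1) ≤ (j/(j+1))^{4/3}`·… : show `(j-1/3)/(j+1) ≤ ((j+1)/(j+2))^{4/3}` for `j ≥ 1` (Bernoulli: `(1-1/(j+2))^{4/3} ≥ 1 - (4/3)/(j+2)` and `1 - (4/3)/(j+1) ≤ 1-(4/3)/(j+2)`), so `|q_j|(1+j)^{4/3}` is bounded. In the same way `r`: upper bound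
`(j-2/3)/(j+1) = 1 - (5/3)/(j+1) ≤ ((j+1)/(j+2))^{5/3}`; lower bound `1-(5/3)/(j+1) ≥ ((j-1)/j)^{5/3}`-type comparison (`(1-1/j)^{5/3} ≤ 1-(5/3)/j + (5/9)/j² ≤ 1-(5/3)/(j+1)` for `j` large; any proof, e.g. by `S_H0` of `StmC`: `|r_K|` is a constant times `Γ(K-2/3)/Γ(K+1)`). Last: split `j ≤ K/2`, `j ≥ K/2`: `∑_{j≤K}|q_j||q_{K-j}| ≤ 2 C(K/2)^{-4/3}∑C(1+j)^{-4/3}`. -/
def S_J1 : Prop := (∀ K : ℕ, ∑ j ∈ Finset.range (K + 1), qj j * qj (K - j) = rj K) ∧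
  ∃ C : ℝ, 0 < C ∧ (∀ j : ℕ, |qj j| ≤ C * ((j : ℝ) + 1) ^ (-(4 / 3) : ℝ)) ∧
    (∀ K : ℕ, ((K : ℝ) + 1) ^ (-(5 / 3) : ℝ) ≤ C * |rj K| ∧ |rj K| ≤ C * ((K : ℝ) + 1) ^ (-(5 / 3) : ℝ)) ∧
    ∀ K : ℕ, ∑ j ∈ Finset.range (K + 1), |qj j| * |qj (K - j)| ≤ C * ((K : ℝ) + 1) ^ (-(4 / 3) : ℝ)

/-- `Π_l = ∏_{i=l}^{K-1} b/E_{3i-1}`, `n = 3K-1` -/
noncomputable def PiJ (b : ℂ) (K l : ℕ) : ℂ := ∏ i ∈ Finset.Ico l K, b / (En (3 * K - 1) (3 * (i : ℤ) - 1) : ℂ)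

/-- `D_K = (b/36)^K / (∏_{i<K}(i-1/3))²` -/
noncomputable def DJ (b : ℂ) (K : ℕ) : ℂ := (b / 36) ^ K / ((∏ i ∈ Finset.range K, ((i : ℝ) - 1 / 3) : ℝ) : ℂ) ^ 2

/-- [J2] the products (take `S_H1` of `StmC` as hypothesis).
Proof: `n = 3K-1`: `E_{3i} = 4·3i·(3K-1-3i) = 36 i(K-1/3-i)`, `E_{3i-1} = 4(3i-1)(3K-3i) = 36(i-1/3)(K-i)`. (a) `h_{3l} = ∏_{i=1}^l b/E_{3i}` (H1: `c³h_{s-3} = E_sh_s`, `h_0 = 1`, `c³ = b`). (b) `∏_{i=1}^l i = l!`, `∏_{i=l}^{K-1}(K-i) = (K-l)!`, `∏_{i=1}^l(K-1/3-i) = ∏_{K-l≤m<K}(m-1/3)`, `∏_{i=l}^{K-1}(i-1/3)` is the quotient of the full products. So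
`Π_l h_{3l} = D_K q_l q_{K-l}` for `l < K`. (c) `b h_{3K-3}/E_{n+1} = D_K q_K q_0` (`n+1 = 3K`, `E_{3K} = 36K(-1/3)`). (d) `Π_0 = D_K q_K ·…`: this is (b) for `l = 0`, `h_0 = 1`, `q_0 = 1`. (e) `|∏_{i<K}(i-1/3)| = (1/3)Γ(K-1/3)/Γ(2/3)` and `‖b‖‖h_{n-3}‖ = ‖b‖^{n/3}36^{-(n-3)/3}/Γ(n/3)²` with `n/3 = K-1/3` (`‖c‖³ = ‖b‖`, `Γ(1) = 1`): so
`‖D_K‖ = κ‖b‖‖h_{n-3}‖` with a constant `κ > 0`.  -/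
def S_J2 : Prop := ∀ (b c : ℂ), c ^ 3 = b → b ≠ 0 →
  (∀ K l : ℕ, 2 ≤ K → l < K → hh 3 c (3 * K - 1) (3 * l) = ∏ i ∈ Finset.Icc 1 l, b / (En (3 * K - 1) (3 * (i : ℤ)) : ℂ)) ∧
  (∀ K l : ℕ, 2 ≤ K → l < K → PiJ b K l * hh 3 c (3 * K - 1) (3 * l) = DJ b K * ((qj l * qj (K - l) : ℝ) : ℂ)) ∧
  (∀ K : ℕ, 2 ≤ K → b * hh 3 c (3 * K - 1) (3 * K - 3) / (En (3 * K - 1) (3 * (K : ℤ)) : ℂ) = DJ b K * ((qj K * qj 0 : ℝ) : ℂ)) ∧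
  ∃ κ : ℝ, 0 < κ ∧ ∀ K : ℕ, 2 ≤ K → ‖DJ b K‖ = κ * (‖b‖ * ‖hh 3 c (3 * K - 1) (3 * K - 1 - 3)‖)

/-- the hypotheses of J3-J5: `F = b X³`, `B = a₃X³ + a₁X` -/
def JHyp (F B : ℂ[X]) : Prop :=
  F.coeff 0 = 0 ∧ B.coeff 0 = 0 ∧ F.natDegree = 3 ∧ F.coeff 1 = 0 ∧ F.coeff 2 = 0 ∧ B.natDegree = 3 ∧ B.coeff 2 = 0 ∧ B.coeff 1 ≠ 0

/-- [J3] estimate of the solutions on the class `s ≡ n ≡ 2 mod 3` (take `S_J1`, `S_J2` as hypotheses).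
Setting: `n = 3K-1`, `x` a solution for `(F,B)` with `x_0 = γ`, `x_n = 0` and forcing `φ`, that is `(E_s+z)x_s = b x_{s-3} + a₃x_{s+3} + a₁x_{s+1} + φ_s`, `s ≠ 0,n`. Assume the bounds (i) `‖x_s‖ ≤ T‖h_s‖` for `s = 3l < n`, `0 ≤ l`, (ii) `‖x_s‖ ≤ T` for `s = -4`, (iii) `‖φ_s‖ ≤ Φ‖Π_{l+1}‖⁻¹` for `s = 3l-1`, `0 ≤ l < K`.
Claim: `‖x_{3l-1}‖‖Π_{l+1}‖ ≤ C‖D_K‖ K^{-4/3}T + C(log n/n)Φ` for `0 ≤ l < K` (`Π_K = 1`).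
Proof: let `V = max_{0≤l<K}‖x_{3l-1}‖‖Π_{l+1}‖`, `ψ_s = a₃x_{s+3} + a₁x_{s+1} - z x_s + φ_s` for `s = 3l-1` and for `l = 0` add `b x_{-4}`, so `E_sx_s = b x_{s-3}[l≥1] + ψ_s`. Multiply by `Π_{l+1}/E_s·…`: since `Π_l = (b/E_{3l-1})Π_{l+1}`, `b x_{3l-1}Π_{l+1} = b x_{3l-4}Π_l[l≥1] + ψ_{3l-1}Π_l`. Hence `‖b‖V ≤ ∑_{l<K}‖ψ_{3l-1}‖‖Π_l‖`. Terms:
`∑‖a₁‖‖x_{3l}‖‖Π_l‖ ≤ ‖a₁‖T∑‖h_{3l}Π_l‖ ≤ C T‖D_K‖K^{-4/3}` (J2, J1); `‖z‖‖x_{3l-1}‖‖Π_l‖ ≤ ‖z‖V‖b‖/|E_{3l-1}|`; `‖a₃‖‖x_{3l+2}‖‖Π_l‖ = ‖a₃‖‖x_{3l+2}‖‖Π_{l+2}‖‖b/E_{3l+2}‖‖b/E_{3l-1}‖ ≤ C V/|E_{3l-1}|` for `l+1 < K`, and `x_n = 0` for `l + 1 = K`; `‖b x_{-4}Π_0‖ ≤ C T‖D_K‖K^{-4/3}` (J2 (b) for `l = 0`, J1);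
`‖φ_s‖‖Π_l‖ ≤ Φ‖b‖/|E_{3l-1}|`. As `∑_{l<K}1/|E_{3l-1}| ≤ C log n/n → 0` (`E_{-1} = -4(n+1)`; `1/(s(n-s)) = (1/n)(1/s+1/(n-s))`): `V ≤ CT‖D_K‖K^{-4/3} + (C log n/n)(V + Φ)`, so for `K` large the claim. -/
def S_J3 : Prop := ∀ (F B : ℂ[X]) (c : ℂ) (Z : ℝ), JHyp F B → c ^ 3 = F.leadingCoeff →
  ∃ C : ℝ, 0 < C ∧ ∀ᶠ K : ℕ in atTop, ∀ (z γ : ℂ) (T Φ : ℝ) (φ x : ℤ → ℂ), ‖z‖ ≤ Z → 0 ≤ T → 0 ≤ Φ → Sol F B (3 * K - 1) z γ 0 φ x →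
    (∀ l : ℕ, l < K → ‖x (3 * (l : ℤ))‖ ≤ T * ‖hh 3 c (3 * K - 1) (3 * l)‖) → ‖x (-4)‖ ≤ T →
    (∀ l : ℕ, l < K → ‖φ (3 * (l : ℤ) - 1)‖ * ‖PiJ F.leadingCoeff K (l + 1)‖ ≤ Φ) →
    ∀ l : ℕ, l < K → ‖x (3 * (l : ℤ) - 1)‖ * ‖PiJ F.leadingCoeff K (l + 1)‖ ≤
      C * (‖DJ F.leadingCoeff K‖ * (K : ℝ) ^ (-(4 / 3) : ℝ) * T + Real.log K / K * Φ)

/-- [J4] the size of `beta F B` for `n ≡ 2 mod 3` (take `S_F1`, `S_A3`, `S_I2`, `S_H1`, `S_H3`, `S_J1`, `S_J2`, `S_J3` as hypotheses; branch data for `F` are given).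
Notation `n = 3K-1`, `b = F.leadingCoeff`, `H = ‖b‖‖h_{n-3}‖` (`‖D_K‖ = κH`). Here `g = 1` near `0`: `g(x)³ = 1` (Branch.eqn, `F = bX³`), continuity: `g(cω^lτ) = 1`, so `G_s = 1` for `n` large (U1). `xP F n s = h_s` for `3 ∣ s`, `s < n`, and `0` for other `s` (induction, H1).
(1) `x = C0 F B n z`, `γ = 1`, `φ = 0`: by I2 `‖x_{3l} - h_{3l}‖ ≤ C(log n/n)‖h_{3l}‖`, `‖x_s‖ ≤ C/n` for `s < 0`, `‖x_s‖ ≤ (C/n)‖h_{n-3}‖` for `s > n`. From the equation at `s = -4`: `‖x_{-4}‖ ≤ (ν C/n)/(15 n)` (all neighbours `-7,-1,-3` are negative; `|E_{-4}+z| ≥ 16(n+4)-1`), so `‖x_{-4}‖ ≤ C/n²`. (2) J3 with `T = 2`, `Φ = 0`: `‖x_{3l-1}‖‖Π_{l+1}‖ ≤ C‖D_K‖K^{-4/3}`.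
(3) `b x_{n-3} = ∑_{l<K}Π_lψ_{3l-1}` with `ψ` as in J3 (telescoping of `b x_{3l-1}Π_{l+1} = b x_{3l-4}Π_l + ψ_{3l-1}Π_l`), so `beta = Vop F B x n = b x_{n-3} + a₃x_{n+3} + a₁x_{n+1}` equals `a₁[∑_{l<K}Π_lh_{3l} + b h_{n-2}/E_{n+1}]` plus errors: `a₁∑Π_l(x_{3l}-h_{3l})`: `≤ C(log n/n)‖D_K‖K^{-4/3}`; `∑Π_l(a₃x_{3l+2} - zx_{3l-1})`: `≤ C(log n/n)‖D_K‖K^{-4/3}` as in J3;
`b x_{-4}Π_0`: `≤ (C/n²)‖D_K‖`; `a₃x_{n+3}`: from `(E_{n+3}+z)x_{n+3} = b x_n + a₃x_{n+6} + a₁x_{n+4}`, `x_n = 0`: `≤ (C/n²)‖h_{n-3}‖`; `a₁(x_{n+1} - b h_{n-2}/E_{n+1})`: `(E_{n+1}+z)x_{n+1} = b x_{n-2} + a₃x_{n+4} + a₁x_{n+2}`: `≤ (C/n)[(log n/n)‖h_{n-2}‖ + (1/n)‖h_{n-3}‖]`, `‖h_{n-2}‖ ≤ C n^{-1/3}‖h_{n-3}‖` (H3 (2)). The main term is `a₁D_K∑_{l≤K}q_lq_{K-l} = a₁D_Kr_K`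
(J2, J1), of size `≍ HK^{-5/3}`, all errors are `≤ C n^{-2}(1+log n)H`. (4) Lipschitz: `w = C0(z) - C0(z')` solves the problem for `z` with `γ = 0`, `φ_s = -(z-z')C0(z')_s`: `Forc` holds with `Φ' = 2‖z-z'‖` (A3), so by I2 `‖w_s‖ ≤ C(log n/n)‖z-z'‖‖h_s‖` (`0≤s<n`), `‖w_s‖ ≤ (C/n)‖z-z'‖` (`s<0`), `≤ (C/n)‖z-z'‖‖h_{n-3}‖` (`s>n`); `‖w_{-4}‖ ≤ (C/n²)‖z-z'‖`;
J3 for `w` with `T = C(log n/n)‖z-z'‖` and `Φ = ‖z-z'‖C‖D_K‖K^{-4/3}` (from (2)): `‖w_{3l-1}‖‖Π_{l+1}‖ ≤ C(log n/n)‖D_K‖K^{-4/3}‖z-z'‖`, in particular for `l = K-1`: `‖b w_{n-3}‖`. `w_{n+1}, w_{n+3}` are `≤ (C/n²)‖z-z'‖‖h_{n-3}‖` from their equations (`φ_{n+1}`, `φ_{n+3}` are `≤ ‖z-z'‖(C/n)‖h_{n-3}‖`). So `‖beta(z)-beta(z')‖ = ‖Vop w n‖ ≤ C n^{-2}(1+log n)H‖z-z'‖`. -/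
def S_J4 : Prop := ∀ (F B : ℂ[X]) (c : ℂ) (g : ℂ → ℂ) (τ₀ K' δ : ℝ), JHyp F B → Branch F c g τ₀ K' δ →
  ∃ c₁ c₂ : ℝ, 0 < c₁ ∧ 0 < c₂ ∧ ∀ᶠ K : ℕ in atTop, ∀ z z' : ℂ, ‖z‖ ≤ 1 → ‖z'‖ ≤ 1 →
    c₁ * (K : ℝ) ^ (-(5 / 3) : ℝ) * (‖F.leadingCoeff‖ * ‖hh 3 c (3 * K - 1) (3 * K - 1 - 3)‖) ≤ ‖beta F B (3 * K - 1) z‖ ∧
    ‖beta F B (3 * K - 1) z‖ ≤ c₂ * (K : ℝ) ^ (-(5 / 3) : ℝ) * (‖F.leadingCoeff‖ * ‖hh 3 c (3 * K - 1) (3 * K - 1 - 3)‖) ∧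
    ‖beta F B (3 * K - 1) z - beta F B (3 * K - 1) z'‖ ≤
      c₂ * (K : ℝ) ^ (-2 : ℝ) * (1 + Real.log K) * ‖z - z'‖ * (‖F.leadingCoeff‖ * ‖hh 3 c (3 * K - 1) (3 * K - 1 - 3)‖)

/-- [J5] bad pairs (take `S_R3`, `S_I3`, `S_I5`, `S_I6`, `S_J4`, `S_H1`, `S_F12` as hypotheses).
Proof: `P = B = a₃X³ + a₁X`, `Q = F = b₃X³`, `|a₃| = |b₃|`; branch data `(c,g)` for `P` and `(c',g')` for `Q`; `‖c‖ = ‖c'‖`, so `‖a₃‖‖h_{n-3}‖ = ‖b₃‖‖h'_{n-3}‖ =: H_n > 0`. Let `S = {n : n even, n ≡ 2 mod 3}` (`n = 3K-1`, `K` odd), infinite. `R n = c₂n^{-2/3}H_n` for `P`: I6, I3, I5 as in I7 give `Reg (beta P Q) R S`. `R' n = c₂'K^{-5/3}H_n`, `K = (n+1)/3`: J4 gives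
`Reg (beta Q P) R' S` (the Lipschitz constant: `K^{-2}(1+log K)/K^{-5/3} → 0`). `R/R' → ∞` along `n → ∞`, so `|log(R n/R' n)| → ∞` (define `R' n` by this formula for all `n`, with real exponent of `(n+1)/3`), and F12. -/
def S_J5 : Prop := ∀ P Q : ℂ[X], JHyp Q P → ‖P.leadingCoeff‖ = ‖Q.leadingCoeff‖ → BadPairs P Q

end HillRoots
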