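import Pool.Agent.Lib.MP_e63cf8_mp.StmA
import Pool.Agent.Lib.MP_e63cf8_mp.StmB
import Pool.Agent.Lib.MP_e63cf8_mp.StmC
import Pool.Agent.Lib.MP_e63cf8_mp.StmD
import Pool.Agent.Lib.MP_e63cf8_mp.StmE
import Pool.Agent.Lib.MP_e63cf8_mp.StmF
import Pool.Agent.Lib.MP_e63cf8_mp.H.StmI

/-!
# MP_e63cf8_mp, statements W, D, AL, X: refined asymptotics for cubic sides, two cancelling sides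

Notation: `M = 3`, `P = a₃X³ + a₂X² + a₁X`, `c³ = a₃`, `A_j = a_j/c^j`, `ω = om 3`, `E_s = 4s(n-s)`, `h_s = hh 3 c n s`, `G_s = GG 3 c g n s`.
Every `S_xx : Prop` is one piece. Files: `H/xx.lean`, theorem `p_xx : S_xx` (with the pieces named in the docstring as hypotheses).
-/

open Polynomial Filter Topology MeasureTheory Asymptotics

namespace HillRoots

/-- `ξ_l = (a₂/(3a₃)) c ω^l` -/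
noncomputable def xi (P : ℂ[X]) (c : ℂ) (l : ℕ) : ℂ := P.coeff 2 / (3 * P.leadingCoeff) * (c * om 3 ^ l)

/-- `ζ_l = (a₁/(3a₃) - (a₂/a₃)²/18) (c ω^l)²` -/
noncomputable def zet (P : ℂ[X]) (c : ℂ) (l : ℕ) : ℂ :=
  (P.coeff 1 / (3 * P.leadingCoeff) - (P.coeff 2 / P.leadingCoeff) ^ 2 / 18) * (c * om 3 ^ l) ^ 2

/-- `Θ_r(s) = ∫_0^s (4t(n-t))^{-r/3} dt` -/
noncomputable def Th (r n : ℕ) (s : ℝ) : ℝ := ∫ t in (0 : ℝ)..s, (4 * t * ((n : ℝ) - t)) ^ (-((r : ℝ) / 3))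

/-- `B_r = ∫_0^1 (4u(1-u))^{-r/3} du` -/
noncomputable def BB (r : ℕ) : ℝ := ∫ u in (0 : ℝ)..1, (4 * u * (1 - u)) ^ (-((r : ℝ) / 3))

/-- the approximate solution `(1/3) ∑_l ω^{ls} exp(ξ_l Θ_1(s) + ζ_l Θ_2(s))` -/
noncomputable def WW (P : ℂ[X]) (c : ℂ) (n s : ℕ) : ℂ :=
  (1 / 3 : ℂ) * ∑ l ∈ Finset.range 3, om 3 ^ (l * s) *
    Complex.exp (xi P c l * (Th 1 n s : ℂ) + zet P c l * (Th 2 n s : ℂ))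

/-- [W1] integrals, `r = 1, 2`.
Proof: `f(t) = (4t(n-t))^{-r/3}` is integrable on `(0,n)` (exponent `> -1` at both ends). (a) `t ↦ n - t` gives `∫_0^{n-s}f = ∫_s^nf`, and `t = nu` gives `∫_0^nf = n·n^{-2r/3}∫_0^1(4u(1-u))^{-r/3}du`. (b) positivity and monotonicity of the integral. (c) for `t ∈ [s-3,s]`, `s ≥ 4`: `t ≥ s/4`, `n-t ≥ n/3 ≥ s/2`, so `f(t) ≤ 4f(s)` and
`|f'(t)| = (r/3)f(t)|1/t - 1/(n-t)| ≤ C f(s)/s`; so `|f(t) - f(s)| ≤ 3Cf(s)/s`, integrate over `[s-j,s]`. -/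
def S_W1 : Prop := ∀ r : ℕ, r = 1 ∨ r = 2 →
  0 < BB r ∧
  (∀ (n : ℕ) (s : ℝ), 1 ≤ n → 0 ≤ s → s ≤ n → Th r n s + Th r n ((n : ℝ) - s) = BB r * (n : ℝ) ^ (1 - 2 * (r : ℝ) / 3) ∧
    0 ≤ Th r n s ∧ Th r n s ≤ BB r * (n : ℝ) ^ (1 - 2 * (r : ℝ) / 3)) ∧
  (∀ (n : ℕ) (s s' : ℝ), 1 ≤ n → 0 ≤ s → s ≤ s' → s' ≤ n → Th r n s ≤ Th r n s') ∧
  ∃ C : ℝ, 0 < C ∧ ∀ n s j : ℕ, 1 ≤ n → 4 ≤ s → 3 * s ≤ 2 * n → 1 ≤ j → j ≤ 3 →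
    |Th r n s - Th r n ((s : ℝ) - j) - j * (En n s) ^ (-((r : ℝ) / 3))| ≤ C * (En n s) ^ (-((r : ℝ) / 3)) / s

/-- [W1b] limits and sums (any proof; independent of W1).
Proof: for `0 < t ≤ s`: `n^{1/3}(4t(n-t))^{-1/3} = (4t)^{-1/3}(1-t/n)^{-1/3}` is between `(4t)^{-1/3}` and `(4t)^{-1/3}(1-s/n)^{-1/3}`, and `∫_0^s(4t)^{-1/3} = 4^{-1/3}(3/2)s^{2/3}`. `n^{1/3}(4t(n-t))^{-2/3} ≤ n^{1/3}(n-s)^{-2/3}(4t)^{-2/3}`, whose integral tends to `0`. Last claim: `f(t) = (4t(n-t))^{-1/3}` decreases on `(0,n/2]` and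
increases on `[n/2,n)`, so on `[1,s]`, `s ≤ n-1`, sum and integral differ by at most the total variation plus `f(1)`: `≤ 3f(1) ≤ 3n^{-1/3}`·`const`, and `∫_0^1f ≤ C n^{-1/3}` (`n - t ≥ n/2` for `n ≥ 2`). -/
def S_W1b : Prop := (∀ s : ℕ, Tendsto (fun n : ℕ => (n : ℝ) ^ (1 / 3 : ℝ) * Th 1 n s) atTop (𝓝 ((4 : ℝ) ^ (-(1 / 3) : ℝ) * (3 / 2) * (s : ℝ) ^ (2 / 3 : ℝ)))) ∧
  (∀ s : ℕ, Tendsto (fun n : ℕ => (n : ℝ) ^ (1 / 3 : ℝ) * Th 2 n s) atTop (𝓝 0)) ∧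
  ∃ C : ℝ, 0 < C ∧ ∀ n s : ℕ, 2 ≤ n → s < n → |∑ k ∈ Finset.Icc 1 s, (En n k) ^ (-(1 / 3) : ℝ) - Th 1 n s| ≤ C * (n : ℝ) ^ (-(1 / 3) : ℝ)

/-- [W2] the products `G` (take `S_V1c`, `S_U1`, `S_W1`, `S_W1b` as hypotheses).
Proof: `g` is analytic near `0`, `g(0) = 1`, `g'(0) = a₂/(3a₃)` (differentiate `g³ = 1 + (a₂/a₃)xg + (a₁/a₃)(xg)²` at `0`), so `|log‖g(x)‖ - Re(g'(0)x)| ≤ C|x|²` for small `x`. (a) `x = ct`, `x = cω^lt` and `dom`: `Re ξ_l t ≤ Re ξ_0t + 2C|c|²t²` for small `t > 0`, so `Re ξ_l ≤ Re ξ_0`; `∑_{l<3}ξ_l = 0`, so `Re ξ_0 ≥ 0`. (b) `x = cτ_k`,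
`τ_k = E_k^{-1/3}`: `|log G_s - Re ξ_0∑_{k≤s}E_k^{-1/3}| ≤ C∑_{k<n}E_k^{-2/3} ≤ C'` (V1c gives the sum over `k ≤ n-1` for `M = 1`; it tends to `0`), and W1b. (`br 3 c g 0 τ = g(cτ)`.) -/
def S_W2 : Prop := ∀ (P : ℂ[X]) (c : ℂ) (g : ℂ → ℂ) (τ₀ K δ : ℝ), P.coeff 0 = 0 → P.natDegree = 3 → Branch P c g τ₀ K δ →
  (∀ l < 3, (xi P c l).re ≤ (xi P c 0).re) ∧ 0 ≤ (xi P c 0).re ∧
  ∃ C : ℝ, 0 < C ∧ ∀ᶠ n : ℕ in atTop, ∀ s : ℕ, s < n →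
    Real.exp ((xi P c 0).re * Th 1 n s) ≤ C * GG 3 c g n s ∧ GG 3 c g n s ≤ C * Real.exp ((xi P c 0).re * Th 1 n s)

/-- [W3] the approximate solution satisfies the recursion up to a small error (take `S_H2` of `StmC` and `S_W1` as hypotheses).
Proof: fix `l`, `a = ξ_l`, `b = ζ_l`, `Λ(s) = aΘ_1(s) + bΘ_2(s)`, `e = E_s^{-1/3} ≤ 1`; `E_s ≥ 4sn/3`, so `e³ ≤ 1/(ns)`, `e/s ≤ n^{-1/3}s^{-4/3}`. By W1 `X_j := Λ(s)-Λ(s-j) = j(ae+be²) + O(e/s)`, `j ≤ 3`, so `exp(-X_j) = 1 - jae - jbe² + j²a²e²/2 + O(e³+e/s)` (`‖X_j‖` bounded; `|e^{-X}-1+X-X²/2| ≤ C|X|³`). By H2, `1/s + 1/(n-s) ≤ 3/s`: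
`ff 2 = A₂e + O(e/s)`, `ff 1 = A₁e² + O(e²/s)` (`tau 3 n s = e`). Here `A₂ω^{-2l} = A₂ω^l = 3a` (`c³ = a₃`: `ξ_l = a₂cω^l/(3c³)`), and `b = A₁ω^{-l}/3 - a²/2` (`a₁c²ω^{2l}/(3c³) = A₁ω^{-l}/3`, `(a₂/a₃)²(cω^l)²/18 = a²/2`). The contribution of `l` is `(1/3)ω^{ls}e^{Λ(s)}` times
`1 - e^{-X_3} - ff2·ω^{-2l}e^{-X_2} - ff1·ω^{-l}e^{-X_1} = (3ae + 3be² - (9/2)a²e²) - 3ae(1-2ae) - A₁ω^{-l}e² + O(e³+e/s) = e²(3b + (3/2)a² - A₁ω^{-l}) + O(e³+e/s) = O(e³+e/s)`. And `|e^{Λ(s)}| ≤ C exp(Re ξ_0Θ_1(s))` by the hypothesis on `Re ξ_l` and `0 ≤ Θ_2 ≤ B_2`. -/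
def S_W3 : Prop := ∀ (P : ℂ[X]) (c : ℂ), P.coeff 0 = 0 → P.natDegree = 3 → c ^ 3 = P.leadingCoeff → (∀ l < 3, (xi P c l).re ≤ (xi P c 0).re) →
  ∃ C : ℝ, 0 < C ∧ ∀ᶠ n : ℕ in atTop, ∀ s : ℕ, 7 ≤ s → 3 * s ≤ 2 * n →
    ‖WW P c n s - WW P c n (s - 3) - ff P c n s 2 * WW P c n (s - 2) - ff P c n s 1 * WW P c n (s - 1)‖ ≤
      C * Real.exp ((xi P c 0).re * Th 1 n s) * ((n : ℝ) ^ (-(1 / 3) : ℝ) * (s : ℝ) ^ (-(4 / 3) : ℝ) + 1 / ((n : ℝ) * s))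

/-- [W4] the beginning of the recursion (take `S_H0`, `S_H1` of `StmC`, `S_I4` of `StmI`, `S_W1b` as hypotheses).
Proof: let `u_s = xP_s/h_s`: `u_s = u_{s-3} + f_2(s)u_{s-2} + f_1(s)u_{s-1}` (terms with negative index omitted), `f_j(s) = A_jph j n s` (I4). For fixed `s ≥ 1`, as `n → ∞`: `n^{1/3}ph 2 n s → 12^{-1/3}Γ(s/3)/Γ(s/3+1/3)` (`θ = 1/3`; `Γ(y+2/3)/Γ(y+1)·y^{1/3} → 1` by H0, `y = (n-s)/3`, `36^{-1/3}3^{1/3} = 12^{-1/3}`), `n^{1/3}ph 1 n s → 0`.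
By induction on `s`: `n^{1/3}(u_s - [3∣s]) → δ_s`, `δ_s = 0` unless `s ≡ 2 mod 3`, and `δ_{3i+2} = A₂12^{-1/3}∑_{k≤i}Γ(k+2/3)/Γ(k+1) = A₂12^{-1/3}(3/2)Γ(i+5/3)/Γ(i+1)` (the last identity by induction on `i`: `(3/2)Γ(i+5/3)/Γ(i+1) - (3/2)Γ(i+2/3)/Γ(i) = (3/2)Γ(i+2/3)/Γ(i+1)·(i+2/3-i)`). On the other side, by W1b and
`e^x = 1+x+O(x²)`: `n^{1/3}(WW_s - [3∣s]) → (1/3)∑_lω^{ls}ξ_l 4^{-1/3}(3/2)s^{2/3}`, which is `0` unless `s = 3i+2`, and then `(A₂/3)4^{-1/3}(3/2)(3i+2)^{2/3} = A₂12^{-1/3}(3/2)(i+2/3)^{2/3}` (`ξ_l = A₂ω^l/3`, `∑_lω^{l(s+1)} = 3[3∣s+1]`). Finally `Γ(i+5/3)/Γ(i+1) - (i+2/3)^{2/3} → 0`: by H0 with `x = i+1`, `θ = 2/3`: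
`(i+1)^{2/3}/(1+1/(i+1)) ≤ Γ(i+5/3)/Γ(i+1) ≤ (i+1)^{2/3}`. So for `s` large the limit of `n^{1/3}(u_s-WW_s)` is `< ε` in modulus. -/
def S_W4 : Prop := ∀ (P : ℂ[X]) (c : ℂ), P.coeff 0 = 0 → P.natDegree = 3 → c ^ 3 = P.leadingCoeff → ∀ ε : ℝ, 0 < ε → ∃ S₀ : ℕ, ∀ s : ℕ, S₀ ≤ s →
  ∀ᶠ n : ℕ in atTop, ‖xP P n s / hh 3 c n s - WW P c n s‖ ≤ ε * (n : ℝ) ^ (-(1 / 3) : ℝ)

/-- [W5] propagation (take `S_H1`, `S_H4`, `S_U1`, `S_U2`, `S_L2` of `StmC`, `S_W2`, `S_W3`, `S_W4` as hypotheses).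
Proof: choose `S₀ ≥ 7` such that W4 holds with a small `ε` and `S₀^{-1/3} ≤ ε`. `N = ⌊2n/3⌋`. Let `d_s = u_s - WW_s` (`u_s = xP_s/h_s`) for `S₀ ≤ s ≤ N` and `d_s = 0` for all other integers `s ≤ N`; `r_k = d_k - d_{k-3} - ∑_{j=1,2}f_j(k)d_{k-j}` (`f_j(k) = ff P c n k j`) for `1 ≤ k ≤ N`. For `k < S₀`, `r_k = 0`; for `S₀ ≤ k ≤ S₀+2`, `‖r_k‖ ≤ 8εn^{-1/3}`
for `n` large (W4 at `S₀, S₀+1, S₀+2`, `‖f_j(k)‖ ≤ 1`); for `k ≥ S₀+3`, `u` satisfies the recursion exactly (H1: as in I2), so `‖r_k‖` is bounded by W3. L2 (with `t k = tau 3 n k`, U1, U2, H4): `‖d_k‖ ≤ CG_k∑_{i≤k}‖r_i‖/G_i`; by W2 `1/G_i ≤ C exp(-Re ξ_0Θ_1(i)) ≤ C`, and `∑_{i≥S₀}(n^{-1/3}i^{-4/3} + 1/(ni)) ≤ 4n^{-1/3}S₀^{-1/3} + (1+log n)/n`.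
So `‖d_k‖ ≤ C'G_k n^{-1/3}(ε + S₀^{-1/3} + n^{-2/3}(1+log n))`. -/
def S_W5 : Prop := ∀ (P : ℂ[X]) (c : ℂ) (g : ℂ → ℂ) (τ₀ K δ : ℝ), P.coeff 0 = 0 → P.natDegree = 3 → Branch P c g τ₀ K δ →
  ∀ η : ℝ, 0 < η → ∃ S₀ : ℕ, ∀ᶠ n : ℕ in atTop, ∀ s : ℕ, S₀ ≤ s → 3 * s ≤ 2 * n →
    ‖xP P n s / hh 3 c n s - WW P c n s‖ ≤ η * (n : ℝ) ^ (-(1 / 3) : ℝ) * GG 3 c g n s

/-- [W6] cutting the paths at `m`.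
Proof: let `X_s = xP P n s`. Let `R_m` be the right side, `1 ≤ m ≤ n`. `m = n`: only `t = n`, `X_0 = 1`: the definition of `betaP`. `R_{m+1} - R_m` for `1 ≤ m < n`: `= X_m∑_{t=m+1}^na_{t-m}X_{n-t} - X_{n-m}∑_{s<m}a_{m-s}X_s`. The second sum is `E_mX_m` (definition of `xP`, `E_m ≠ 0`), the first, with `i = n-t < n-m`, is
`∑_{i<n-m}a_{n-m-i}X_i = E_{n-m}X_{n-m}`, and `E_{n-m} = E_m`: the difference is `0`. -/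
def S_W6 : Prop := ∀ (P : ℂ[X]) (n m : ℕ), 1 ≤ m → m ≤ n →
  betaP P n = ∑ s ∈ Finset.range m, ∑ t ∈ Finset.Icc m n, P.coeff (t - s) * xP P n s * xP P n (n - t)

/-- [W7] second order asymptotics of `betaP` (take `S_H1`, `S_I4`, `S_W1`, `S_W2`, `S_W5`, `S_W6` as hypotheses).
Proof: `m = n/2` (integer part), `X_s = h_su_s`. In W6 only `t-s ∈ {1,2,3}` contributes (`natDegree = 3`, `coeff 0 = 0`). (i) `j = t-s = 3`: `a₃X_sX_{n-s-3} = a₃h_{n-3}u_su_{n-s-3}`, `m-3 ≤ s < m`, since `h_sh_{n-s-3} = h_{n-3}` (definition of `hh`, `Γ(1) = 1`). By W5 `u_s = WW_s + O(ηn^{-1/3}G_s)` and the same for `n-s-3`; `‖WW_s‖ ≤ C exp(Re ξ_0Θ_1(s)) ≤ C'G_s` (W2),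
`G_sG_{n-s-3} ≤ C exp(Re ξ_0(Θ_1(s)+Θ_1(n-s-3))) ≤ C exp(Re ξ_0B_1n^{1/3})` (W1, `Re ξ_0 ≥ 0`). So `∑_su_su_{n-s-3} = ∑_sWW_sWW_{n-s-3} + O(ηn^{-1/3})exp(Re ξ_0B_1n^{1/3})`. In `WW_sWW_{n-s-3} = (1/9)∑_{l,l'}ω^{ls+l'(n-s-3)}exp(…)` replace `Θ_r(s)` by `Θ_r(m)` and `Θ_r(n-s-3)` by `Θ_r(n-m)`: an error `O(n^{-2/3})` in the exponent
(three steps of size `E^{-r/3} ≤ Cn^{-2/3}`). `∑_{s=m-3}^{m-1}ω^{(l-l')s} = 3[l=l']`, `ω^{-3l} = 1`, `Θ_r(m)+Θ_r(n-m) = B_rn^{1-2r/3}` (W1): the main term is `(1/3)∑_lω^{ln}exp(ξ_lB_1n^{1/3} + ζ_lB_2n^{-1/3})`, with an error `O(n^{-2/3})exp(Re ξ_0B_1n^{1/3})`. (ii) `j = 1,2`: with `t' = n-s-j` and I4 (a) for the step `3-j`: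
`c^{3-j}h_{n-s-3} = ph (3-j) n t'·E_{t'}h_{t'}`, `ph (3-j) n t' ≥ (8t'(n-t'+1))^{-j/3}`, so `‖h_{t'}‖ ≤ C‖h_{n-s-3}‖n^{-2(1-j/3)}` and the term is `O(n^{-2/3})‖a₃h_{n-3}‖G_sG_{n-s-j}`, `G_sG_{n-s-j} ≤ C exp(Re ξ_0B_1n^{1/3})` (`s + (n-s-j) ≤ n`). Divide by `a₃h_{n-3}`. -/
def S_W7 : Prop := ∀ (P : ℂ[X]) (c : ℂ) (g : ℂ → ℂ) (τ₀ K δ : ℝ), P.coeff 0 = 0 → P.natDegree = 3 → Branch P c g τ₀ K δ →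
  ∀ η : ℝ, 0 < η → ∀ᶠ n : ℕ in atTop,
    ‖betaP P n / (P.leadingCoeff * hh 3 c n (n - 3)) - (1 / 3 : ℂ) * ∑ l ∈ Finset.range 3, om 3 ^ (l * n) *
      Complex.exp (xi P c l * ((BB 1 * (n : ℝ) ^ (1 / 3 : ℝ) : ℝ) : ℂ) + zet P c l * ((BB 2 * (n : ℝ) ^ (-(1 / 3) : ℝ) : ℝ) : ℂ))‖ ≤
    η * (n : ℝ) ^ (-(1 / 3) : ℝ) * Real.exp ((xi P c 0).re * (BB 1 * (n : ℝ) ^ (1 / 3 : ℝ)))

/-! ## Two cancelling sides -/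

/-- `a₂³/a₃²` is real and negative -/
def Neg (P : ℂ[X]) : Prop := ∃ t : ℝ, t < 0 ∧ P.coeff 2 ^ 3 = (t : ℂ) * P.coeff 3 ^ 2

/-- the invariant `a₁a₃/a₂²` -/
noncomputable def Inv (P : ℂ[X]) : ℂ := P.coeff 1 * P.coeff 3 / P.coeff 2 ^ 2

noncomputable def kap (P : ℂ[X]) : ℝ := 2 / 3 * muP P

noncomputable def nuc (P : ℂ[X]) : ℂ := ((3 * Real.sqrt 3 * kap P ^ 2 * BB 2 : ℝ) : ℂ) * Inv P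

/-- the common phase -/
noncomputable def thet (κ : ℝ) (n : ℕ) : ℝ :=
  2 * Real.pi * n / 3 + Real.sqrt 3 * κ * BB 1 * (n : ℝ) ^ (1 / 3 : ℝ) - Real.sqrt 3 / 2 * κ ^ 2 * BB 2 * (n : ℝ) ^ (-(1 / 3) : ℝ)

noncomputable def DD (κ : ℝ) (ν : ℂ) (n : ℕ) : ℝ :=
  ‖1 + Complex.exp (Complex.I * ((thet κ n : ℂ) + ν * (((n : ℝ) ^ (-(1 / 3) : ℝ) : ℝ) : ℂ)))‖

/-- the common size -/
noncomputable def NN (a κ : ℝ) (n : ℕ) : ℝ :=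
  1 / 3 * (a ^ ((n : ℝ) / 3) * (36 : ℝ) ^ (-(((n : ℝ) - 3) / 3)) / Real.Gamma ((n : ℝ) / 3) ^ 2) *
    Real.exp (κ / 2 * (BB 1 * (n : ℝ) ^ (1 / 3 : ℝ)))

/-- [AL1] two tops (take `S_X2` of `StmD` as hypothesis).
Proof: `natDegree = 3`, so `(natDegree - 1)/2 = 1` and `IsTop P c` says `c³ = a₃` and `Re(γ c') ≤ Re(γ c)` for all `c'` with `c'³ = a₃`, `γ = gam P 1 = a₂/(3a₃)` (unfold `gam`: `r = 1`, `i = 0` contributes `coeff 1 1 = 0`, `i = 1` gives `(1/3)·coeff (A-1) 1 = a₂/(3a₃)`; compare Z3 and `P/Z3.lean`). (→) `c ≠ c₁` tops: `c₁ = cω^l`, `0 < l < 3`, and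
`Re(γcω^l) = Re(γc)`; by X2 (for `ξ = γc`, `M = 3`) `(γc)³ = a₂³/(27a₃²)` is not in the slit plane, so it is real and `≤ 0`, and it is not `0`. (←) `(γc)³ = t/27 < 0` for every `c` with `c³ = a₃`: the three numbers `γc` are `-ρ, ρe^{±iπ/3}`, `ρ > 0`; the last two have the largest real part `ρ/2`; so two different tops. -/
def S_AL1 : Prop := ∀ P : ℂ[X], P.coeff 0 = 0 → P.natDegree = 3 → P.coeff 2 ≠ 0 →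
  ((∃ c c₁ : ℂ, IsTop P c ∧ IsTop P c₁ ∧ c ≠ c₁) ↔ Neg P)

/-- [AL2] the exponents in the cancelling case.
Proof: `xi P c 0 ^ 3 = a₂³/(27a₃²) = t/27`, and `Re(xi l) = Re(ω^l xi 0)` is largest for `l = 0`. So with `ρ = ‖xi 0‖ > 0`, `xi 0 ∈ {-ρ, ρe^{±iπ/3}}` and `-ρ` is excluded (its multiples by `ω^{±1}` have real part `ρ/2`). `muP P` is the maximum of `Re(c'a₂/a₃) = 3Re(a₂c'/(3a₃))` over the three roots `c' = cω^l`, i.e. `3ρ/2`; so `kap P = ρ`. `σ = 1`: `ω^2 = e^{-2πi/3}`,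
`xi 2 = ρe^{-iπ/3}`, `xi 1 = -ρ`; `σ = -1`: `ω = e^{2πi/3}`, `xi 1 = ρe^{iπ/3}`, `xi 2 = -ρ`. `zet l = a₁(cω^l)²/(3a₃) - (xi l)²/2` and `a₁(cω^l)²/(3a₃) = (a₁a₃/a₂²)(a₂cω^l)²/(3a₃²) = 3·Inv·(xi l)²`. Last claim: `ρ³ = ‖a₂‖³/(27‖a₃‖²)`. -/
def S_AL2 : Prop := ∀ (P : ℂ[X]) (c : ℂ), P.coeff 0 = 0 → P.natDegree = 3 → P.coeff 2 ≠ 0 → Neg P → c ^ 3 = P.leadingCoeff →
  (∀ l < 3, (xi P c l).re ≤ (xi P c 0).re) →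
  0 < kap P ∧ (kap P) ^ 3 * (27 * ‖P.coeff 3‖ ^ 2) = ‖P.coeff 2‖ ^ 3 ∧
  (∀ l, zet P c l = xi P c l ^ 2 * (3 * Inv P - 1 / 2)) ∧
  ∃ (σ : ℝ) (l₁ l₂ : ℕ), (σ = 1 ∨ σ = -1) ∧ ((l₁ = 1 ∧ l₂ = 2) ∨ (l₁ = 2 ∧ l₂ = 1)) ∧
    xi P c 0 = kap P * Complex.exp (Complex.I * (σ * Real.pi / 3 : ℝ)) ∧
    xi P c l₁ = kap P * Complex.exp (-(Complex.I * (σ * Real.pi / 3 : ℝ))) ∧
    om 3 ^ l₁ = Complex.exp (-(Complex.I * (σ * (2 * Real.pi / 3) : ℝ))) ∧ xi P c l₂ = -(kap P : ℂ)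

/-- [AL3] rigidity (take `S_AL2` as hypothesis).
Proof: choose cube roots `c` of `a₃` and `c'` of `b₃` for which `Re xi` is largest (maximum over the three roots). AL2 gives `kap P ^ 3·27‖a₃‖² = ‖a₂‖³`, the same for `Q`, and `kap P = kap Q`, `‖a₃‖ = ‖b₃‖`, so `‖a₂‖ = ‖b₂‖`, hence `|t| = |t'|` and `t = t'` for `a₂³ = ta₃²`, `b₂³ = t'b₃²` (both negative). Let `ρ = b₃/a₃`, `r = b₂/a₂`: `r³ = ρ²`, `‖ρ‖ = ‖r‖ = 1`. Put `w = ρ/r`: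
`w² = ρ²/r² = r`, `w³ = ρw²/r = ρ`, so `b₂ = w²a₂`, `b₃ = w³a₃`, and `b₁ = Inv Q·b₂²/b₃ = (a₁a₃/a₂²)w⁴a₂²/(w³a₃) = wa₁`. All other coefficients are `0` (`natDegree = 3`, `coeff 0 = 0`). -/
def S_AL3 : Prop := ∀ P Q : ℂ[X], P.coeff 0 = 0 → Q.coeff 0 = 0 → P.natDegree = 3 → Q.natDegree = 3 → P.coeff 2 ≠ 0 → Q.coeff 2 ≠ 0 →
  Neg P → Neg Q → ‖P.leadingCoeff‖ = ‖Q.leadingCoeff‖ → muP P = muP Q → Inv P = Inv Q →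
  ∃ w : ℂ, ‖w‖ = 1 ∧ ∀ j, Q.coeff j = w ^ j * P.coeff j

/-- [AL4] Proof: the three roots are `cω^l`, the numbers `x_l = Re(cω^la₂/a₃)` have sum `0`; `muP P = max x_l` (a finite nonempty set). If `a₂ = 0` all are `0`; otherwise `c a₂/a₃ ≠ 0` and the maximum is positive (if all `x_l ≤ 0` then all are `0`, but `Re z = Re ωz = 0` implies `z = 0`). -/
def S_AL4 : Prop := ∀ P : ℂ[X], P.natDegree = 3 → (P.coeff 2 = 0 → muP P = 0) ∧ (P.coeff 2 ≠ 0 → 0 < muP P)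

/-- [W8] the modulus of `betaP` in the cancelling case (take `S_W1`, `S_W2`, `S_W7`, `S_AL2` as hypotheses).
Proof: `κ = kap P`, `I = Inv P`, `x = n^{1/3}`. `‖a₃‖‖h_{n-3}‖ = ‖a₃‖^{n/3}36^{-(n-3)/3}/Γ(n/3)²` (`‖c‖³ = ‖a₃‖`, `Γ(1) = 1`), `Re ξ_0 = κ/2`; so `NN = (1/3)‖a₃h_{n-3}‖e^{(κ/2)B_1x}` and W7 says `‖betaP - a₃h_{n-3}S_n‖ ≤ 3ηn^{-1/3}NN`, `S_n = (1/3)∑_lω^{ln}exp(ξ_lB_1x + ζ_lB_2/x)`. By AL2, with `l₁`, `σ`: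
`exp(ξ_0B_1x+ζ_0B_2/x) + ω^{l₁n}exp(ξ_{l₁}B_1x + ζ_{l₁}B_2/x) = exp(ξ_0B_1x+ζ_0B_2/x)(1 + exp(-iσ(thet κ n + ν/x)))`, `ν = nuc P`: `ξ_{l₁} - ξ_0 = -iσ√3κ`, `ξ_{l₁}² - ξ_0² = -iσ√3κ²`, `(ζ_{l₁}-ζ_0)B_2/x = -iσ√3κ²(3I-1/2)B_2/x`. The term `l₂` is `≤ C e^{-κB_1x}`. For `σ = -1` the bracket has modulus `DD κ ν n`, for `σ = 1` it is
`‖e^{-iw}‖‖1+e^{iw}‖`, `w = thet + ν/x`, `‖e^{-iw}‖ = e^{Im ν/x} → 1`; also `‖exp(ζ_0B_2/x)‖ → 1`. So `‖3S_n‖e^{-(κ/2)B_1x} = (1+o(1))DD + O(e^{-(3/2)κB_1x})`, and `e^{-(3/2)κB_1x} = o(1/x)`. -/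
def S_W8 : Prop := ∀ (P : ℂ[X]) (c : ℂ) (g : ℂ → ℂ) (τ₀ K δ : ℝ), P.coeff 0 = 0 → P.natDegree = 3 → P.coeff 2 ≠ 0 → Neg P → Branch P c g τ₀ K δ →
  ∀ η : ℝ, 0 < η → ∀ᶠ n : ℕ in atTop,
    |‖betaP P n‖ - NN ‖P.leadingCoeff‖ (kap P) n * DD (kap P) (nuc P) n| ≤
      η * ((n : ℝ) ^ (-(1 / 3) : ℝ) + DD (kap P) (nuc P) n) * NN ‖P.leadingCoeff‖ (kap P) n

/-- [W9] the same for `beta` (take `S_R3`, `S_I3`, `S_W1`, `S_W2`, `S_W8`, `S_AL2` as hypotheses).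
Proof: branch data from R3. `RR = ‖a₃‖‖h_{n-3}‖G_{n-3} ≤ C‖a₃‖‖h_{n-3}‖e^{(κ/2)Θ_1(n-3)} ≤ 3C·NN` (W2, W1, `Re ξ_0 = κ/2` by AL2). I3: `‖beta - betaP‖ ≤ C(log n/n)RR`, Lipschitz constant `C(log n/n)RR`, and `(log n/n)/n^{-1/3} → 0`. -/
def S_W9 : Prop := ∀ P Q : ℂ[X], P.coeff 0 = 0 → Q.coeff 0 = 0 → P.natDegree = 3 → P.coeff 2 ≠ 0 → Neg P →
  ∀ η : ℝ, 0 < η → ∀ᶠ n : ℕ in atTop, ∀ z z' : ℂ, ‖z‖ ≤ 1 → ‖z'‖ ≤ 1 →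
    |‖beta P Q n z‖ - NN ‖P.leadingCoeff‖ (kap P) n * DD (kap P) (nuc P) n| ≤
      η * ((n : ℝ) ^ (-(1 / 3) : ℝ) + DD (kap P) (nuc P) n) * NN ‖P.leadingCoeff‖ (kap P) n ∧
    ‖beta P Q n z - beta P Q n z'‖ ≤ η * (n : ℝ) ^ (-(1 / 3) : ℝ) * ‖z - z'‖ * NN ‖P.leadingCoeff‖ (kap P) n

/-- [D1] Proof: `w = thet κ n + νx`, `x = n^{-1/3}`. `‖1+e^{iw}‖ ≥ |‖e^{iw}‖ - 1| = |e^{-x Im ν} - 1| ≥ x|Im ν|/2` for `x` small: first claim. `‖1+e^{iw'}‖ ≤ ‖1+e^{iw}‖ + ‖e^{iw}‖‖1 - e^{i(ν'-ν)x}‖ ≤ DD κ ν n + 4‖ν'-ν‖x` for `x` small; use the first claim. -/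
def S_D1 : Prop := ∀ (κ : ℝ) (ν ν' : ℂ), ν.im ≠ 0 → ∃ C : ℝ, 0 < C ∧ ∀ᶠ n : ℕ in atTop,
  (n : ℝ) ^ (-(1 / 3) : ℝ) ≤ C * DD κ ν n ∧ DD κ ν' n ≤ C * DD κ ν n

/-- [D2] selection of indices (take `S_W1` as hypothesis, for `BB 1 > 0`).
Proof: for `n = 6m`: `thet κ n = 4πm + Ψ(n)`, `Ψ(n) = √3κB_1n^{1/3} - (√3/2)κ²B_2n^{-1/3}`, so `DD κ ν n = ‖1+e^{iw}‖ = 2|cos(w/2)|`, `w = Ψ(n)+νn^{-1/3}` (`ν` real). Let `a(m) = w - (3/4)d n^{-1/3}`: `a(m) → ∞` and `a(m+1)-a(m) ≤ C m^{-2/3}` (mean value). For a large odd multiple `(2j+1)π` let `m` be the first index `≥ m₀` with `a(m) ≥ (2j+1)π` (`m > m₀` for `j` large, and `m → ∞` as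
`j → ∞`); then `w - (2j+1)π ∈ [(3/4)dn^{-1/3}, (3/4)dn^{-1/3} + C'n^{-2/3}]` and `2|cos(w/2)| = 2|sin((w-(2j+1)π)/2)|`, with `(2/3)y ≤ 2 sin(y/2) ≤ y` for small `y ≥ 0`. -/
def S_D2 : Prop := ∀ (κ ν d : ℝ), 0 < κ → 0 < d → d < 1 → ∃ᶠ n : ℕ in atTop, Even n ∧
  d / 2 * (n : ℝ) ^ (-(1 / 3) : ℝ) ≤ DD κ (ν : ℂ) n ∧ DD κ (ν : ℂ) n ≤ d * (n : ℝ) ^ (-(1 / 3) : ℝ)

/-- [D3] Proof: `x = n^{-1/3}`, `Δ = (ν'-ν)x`: `1+e^{iw'} = (1+e^{iw})e^{iΔ} + (1-e^{iΔ})`, `|Δ|/2 ≤ |1-e^{iΔ}| ≤ 2|Δ|` and `|e^{iΔ}| ≤ 2` for `|Δ|` small. With `d₀ = |ν'-ν|/8`: `‖1+e^{iw'}‖ ≥ |Δ|/2 - 2d₀x = |ν'-ν|x/4` and `≤ 2d₀x + 2|ν'-ν|x`. -/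
def S_D3 : Prop := ∀ (κ : ℝ) (ν ν' : ℂ), ν ≠ ν' → ∃ d₀ c₁ c₂ : ℝ, 0 < d₀ ∧ 0 < c₁ ∧ 0 < c₂ ∧ ∀ᶠ n : ℕ in atTop,
  DD κ ν n ≤ d₀ * (n : ℝ) ^ (-(1 / 3) : ℝ) →
    c₁ * (n : ℝ) ^ (-(1 / 3) : ℝ) ≤ DD κ ν' n ∧ DD κ ν' n ≤ c₂ * (n : ℝ) ^ (-(1 / 3) : ℝ)

/-- [XG] two cancelling sides with nonreal invariants (take `S_R3`, `S_W1`, `S_W2`, `S_AL2`, `S_W9`, `S_D1`, `S_F11` as hypotheses).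
Proof: `κ = kap P = kap Q > 0` (AL2 with branch data and W2), `N_n = NN ‖a₃‖ κ n = NN ‖b₃‖ κ n > 0`. `nuc P`, `nuc Q` are positive multiples of `Inv P`, `Inv Q`, so not real. `R n = N_nDD κ (nuc P) n`, `R' n = N_nDD κ (nuc Q) n`. By D1 `n^{-1/3} ≤ C·DD`; so W9 with `η ≤ 1/(2(C+1))` gives `R/2 ≤ ‖beta P Q n z‖ ≤ 2R` and the Lipschitz constant is
`≤ ηC R`: `Reg` on every set, the same for `Q`. `|log(R n/R' n)| ≤ log C` by D1 in both directions. F11 with `g = 1`. -/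
def S_XG : Prop := ∀ P Q : ℂ[X], P.coeff 0 = 0 → Q.coeff 0 = 0 → P.natDegree = 3 → Q.natDegree = 3 → P.coeff 2 ≠ 0 → Q.coeff 2 ≠ 0 →
  Neg P → Neg Q → ‖P.leadingCoeff‖ = ‖Q.leadingCoeff‖ → muP P = muP Q → (Inv P).im ≠ 0 → (Inv Q).im ≠ 0 → GoodPairs P Q

/-- [XB] two cancelling sides, one real invariant (take `S_R3`, `S_W1`, `S_W2`, `S_AL2`, `S_W9`, `S_D2`, `S_D3`, `S_E2` as hypotheses).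
Proof: `κ, N_n` as in XG; `ν = nuc P` is real (`= (ν.re : ℂ)`), `ν' = nuc Q ≠ ν`. `d₀, c₁, c₂` from D3. Given `C`, let `0 < d < min(1,d₀)` with `8d/c₁ ≤ e^{-C}`, and `S = {n : n even, n ≥ n₀, (d/2)n^{-1/3} ≤ DD κ ν n ≤ dn^{-1/3}}`, infinite by D2. For `n ∈ S`, `x = n^{-1/3}`: W9 with a small `η` (depending on `d`): `(d/4)xN_n ≤ ‖beta P Q n z‖ ≤ 2dxN_n`, so
`Reg (beta P Q) R S` with `R n = d x N_n` (`ε = 1/4`; the Lipschitz constant is `ηxN_n` for every `η`, eventually). By D3 `c₁x ≤ DD κ ν' n ≤ c₂x`, so `(c₁/2)xN_n ≤ ‖beta Q P n z‖ ≤ 2c₂xN_n`: `Reg (beta Q P) R' S`, `R' n = c₂xN_n`. At `z = 0` the quotient is `≤ 2d/(c₁/2) = 4d/c₁ ≤ e^{-C}` (choose `n₀` so large that all this holds for `n ≥ n₀`). E2. -/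
def S_XB : Prop := ∀ P Q : ℂ[X], P.coeff 0 = 0 → Q.coeff 0 = 0 → P.natDegree = 3 → Q.natDegree = 3 → P.coeff 2 ≠ 0 → Q.coeff 2 ≠ 0 →
  Neg P → Neg Q → ‖P.leadingCoeff‖ = ‖Q.leadingCoeff‖ → muP P = muP Q → (Inv P).im = 0 → Inv P ≠ Inv Q → BadPairs P Q

end HillRoots
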