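import Pool.Agent.Lib.MP_e63cf8_mp.All
import Pool.Agent.Lib.MP_e63cf8_mp.Asm4
import Pool.Agent.Lib.MP_e63cf8_mp.P.X10
import Pool.Agent.Lib.MP_e63cf8_mp.P.X11
import Pool.Agent.Lib.MP_e63cf8_mp.P.F9
import Pool.Agent.Lib.MP_e63cf8_mp.P.F10
import Pool.Agent.Lib.MP_e63cf8_mp.H.StmH
import Pool.Agent.Lib.MP_e63cf8_mp.H.StmI
import Pool.Agent.Lib.MP_e63cf8_mp.H.StmW

/-!
# MP_e63cf8_mp, assembly: the complete classification for degrees at most three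
-/

open Polynomial Filter Topology MeasureTheory Asymptotics

namespace HillRoots

theorem t_X10 : S_X10 := p_X10 t_R3 t_R5
theorem t_X11 : S_X11 := p_X11 t_R3 t_R5
theorem t_F9 : S_F9 := p_F9 t_F1 t_F2
theorem t_F10 : S_F10 := p_F10 t_B3 t_B5 t_B6 t_B7 t_F9

/-- `a₂X² + a₁X` with `a₁² = -4(2l+1)²a₂`, `l ∈ ℤ` -/
def Exc (P : ℂ[X]) : Prop :=
  P.natDegree = 2 ∧ ∃ l : ℤ, P.coeff 1 ^ 2 = -4 * (2 * (l : ℂ) + 1) ^ 2 * P.coeff 2

def Cubic (P Q : ℂ[X]) : Prop :=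
  muP P = muP Q ∧ (P.coeff 2 = 0 → (P.coeff 1 = 0 ↔ Q.coeff 1 = 0)) ∧
  (P.coeff 2 ≠ 0 → (Neg P ↔ Neg Q) ∧
    (Neg P → ((Inv P).im ≠ 0 ∧ (Inv Q).im ≠ 0) ∨ ((Inv P).im = 0 ∧ Inv P = Inv Q)))

theorem basis_iff (v₀ : ℂ) (P Q : ℂ[X]) : HasRootBasis v₀ P Q ↔ SeqBasis P Q := (t_T0 v₀ P Q).trans (t_T7 P Q)

theorem basis_of_good (v₀ : ℂ) (P Q : ℂ[X]) (h : GoodPairs P Q) : HasRootBasis v₀ P Q := (basis_iff v₀ P Q).2 (t_G2 P Q h)

theorem not_basis_of_bad (v₀ : ℂ) (P Q : ℂ[X]) (h : BadPairs P Q) : ¬ HasRootBasis v₀ P Q :=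
  fun hB => t_G3 P Q h ((basis_iff v₀ P Q).1 hB)

theorem asm5_freq (P Q : ℂ[X]) (hP : P.coeff 0 = 0) (hQ : Q.coeff 0 = 0) (hQ0 : Q ≠ 0) (ht : Tame Q) :
    ∃ᶠ k : ℕ in atTop, ∀ z : ℂ, ‖z‖ ≤ 1 → beta Q P (2 * k) z ≠ 0 := by
  obtain ⟨c, g, τ₀, K, δ, hb⟩ := t_R3 Q (natDegree_pos_of Q hQ hQ0)
  obtain ⟨S, ε, hS, hE, hε, h1⟩ := asm4_freq t_V5 t_V6 Q c g τ₀ K δ hb ht
  have r1 := t_N3 Q P c g τ₀ K δ S ε hQ hP hb hε (Eventually.of_forall fun n hn => h1 n hn)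
  obtain ⟨ε', hε', h2⟩ := r1
  obtain ⟨n₀, h3⟩ := h2 1 one_pos
  rw [Filter.frequently_atTop]
  intro a
  obtain ⟨n, hn, hlt⟩ := hS.exists_gt (max (2 * a) n₀)
  obtain ⟨k, hk⟩ := hE n hn
  refine ⟨k, ?_, ?_⟩
  · have := le_max_left (2 * a) n₀
    omega
  · intro z hz h0
    obtain ⟨hR, h4⟩ := h3 n hn (le_of_lt (lt_of_le_of_lt (le_max_right _ _) hlt))
    have h5 := (h4 z z hz hz).1
    have h6 : n = 2 * k := by omega
    rw [h6] at h5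
    rw [h6] at hR
    rw [h0, norm_zero] at h5
    have := mul_pos hε' hR
    linarith

section

variable (hE0 : S_E0) (hEK7 : S_EK7) (hEK8 : S_EK8) (hEK9 : S_EK9) (hEK10 : S_EK10)

include hE0 hEK7 hEK10 in
theorem exc_bad (P Q : ℂ[X]) (hP : P.coeff 0 = 0) (hQ : Q.coeff 0 = 0) (hQ0 : Q ≠ 0) (he : Exc P) (ht : Tame Q) :
    BadPairs P Q := by
  obtain ⟨α, m, hα⟩ := hE0.1 P hP he.1 he.2
  refine hEK7 P Q α m hα fun K' => ?_
  obtain ⟨k₀, h1⟩ := hEK10 P Q K' hP hQ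
  have h2 := (asm5_freq P Q hP hQ hQ0 ht).and_eventually (eventually_ge_atTop (max k₀ 1))
  refine h2.mono ?_
  rintro k ⟨h3, h4⟩
  exact h1 k ((le_max_left _ _).trans h4) ((le_max_right _ _).trans h4) fun z hz => Or.inr (h3 z hz)

include hE0 hEK9 in
theorem exc_good (P Q : ℂ[X]) (hP : P.coeff 0 = 0) (hQ : Q.coeff 0 = 0) (he : Exc P) (he' : Exc Q) :
    GoodPairs P Q := by
  obtain ⟨α, m, hα⟩ := hE0.1 P hP he.1 he.2
  obtain ⟨β, m', hβ⟩ := hE0.1 Q hQ he'.1 he'.2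
  exact hEK9 P Q α β m m' hα hβ

theorem tame_of_deg (P : ℂ[X]) (hP : P.coeff 0 = 0) (hP0 : P ≠ 0) (hd : P.natDegree ≤ 3) (he : ¬ Exc P) : Tame P := by
  have h1 := natDegree_pos_of P hP hP0
  have h2 : P.natDegree = 1 ∨ P.natDegree = 2 ∨ P.natDegree = 3 := by omega
  rcases h2 with h | h | h
  · exact Or.inl (by rw [h]; decide)
  · refine Or.inr (Or.inr ⟨h, fun l hl => he ⟨h, l, hl⟩⟩)
  · exact Or.inl (by rw [h]; decide)

/-- degrees one and two -/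
theorem low_basis (v₀ : ℂ) (P Q : ℂ[X]) (hP : P.coeff 0 = 0) (hQ : Q.coeff 0 = 0) (hP0 : P ≠ 0) (hQ0 : Q ≠ 0)
    (hd : P.natDegree = Q.natDegree) (hd2 : P.natDegree ≤ 2) (hl : ‖P.leadingCoeff‖ = ‖Q.leadingCoeff‖)
    (he : ¬ Exc P) (he' : ¬ Exc Q) : HasRootBasis v₀ P Q := by
  have hAdm : ∀ R : ℂ[X], R.coeff 0 = 0 → R ≠ 0 → R.natDegree ≤ 2 → ¬ Exc R → UniqueTop 1 R ∨ NonExc2 R := by
    intro R hR hR0 hR2 hRe
    have h1 := natDegree_pos_of R hR hR0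
    have h2 : R.natDegree = 1 ∨ R.natDegree = 2 := by omega
    rcases h2 with h | h
    · left
      intro c c₁ hc hc₁
      have e1 := hc.1
      have e2 := hc₁.1
      rw [h] at e1 e2
      rw [e1, e2]
    · right
      exact ⟨h, fun l hl => hRe ⟨h, l, hl⟩⟩
  have aP := hAdm P hP hP0 hd2 he
  have aQ := hAdm Q hQ hQ0 (hd ▸ hd2) he'
  have hc := asm4_class t_T0 t_T7 t_G2 t_G3 t_F11 t_F12 t_R3 t_N1 t_N3 t_C2 t_C3 t_C4 t_X7 t_V5 t_V6 t_E3 t_Y5 t_Z1 t_Z2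
    v₀ P Q 1 hP hQ hP0 hQ0 one_pos (fun j _ => one_dvd j) (fun j _ => one_dvd j)
    (by rcases aP with h | h; exacts [Or.inl h, Or.inr (Or.inl h)]) (by rcases aQ with h | h; exacts [Or.inl h, Or.inr (Or.inl h)])
  have cP : ¬ Canc 1 P := by rintro ⟨h1, h2, -⟩; rcases aP with h | h; exacts [h1 h, h2 h]
  have cQ : ¬ Canc 1 Q := by rintro ⟨h1, h2, -⟩; rcases aQ with h | h; exacts [h1 h, h2 h]
  have hcr : Crit P Q := (t_X10 P Q hP hQ hd (natDegree_pos_of P hP hP0) hd2).2 hl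
  exact (hc.2 fun h => cP h.1).2 ⟨(t_Y5 P Q hP hQ hP0 hQ0).1 hcr, cP, cQ⟩

/-- a basis forces the criterion for tame sides -/
theorem crit_of_basis (v₀ : ℂ) (P Q : ℂ[X]) (hP : P.coeff 0 = 0) (hQ : Q.coeff 0 = 0) (hP0 : P ≠ 0) (hQ0 : Q ≠ 0)
    (tP : Tame P) (tQ : Tame Q) (hB : HasRootBasis v₀ P Q) : Crit P Q := by
  by_contra hcr
  exact asm_necessary t_T0 t_T7 t_G3 t_F12 t_R3 t_N3 t_C3 t_C4 t_V5 t_V6 v₀ P Q hP hQ hP0 hQ0 tP tQ hcr hB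

theorem deg_of_crit (P Q : ℂ[X]) (hP : P.coeff 0 = 0) (hQ : Q.coeff 0 = 0) (hP0 : P ≠ 0) (hQ0 : Q ≠ 0)
    (hcr : Crit P Q) : P.natDegree = Q.natDegree := ((t_Y5 P Q hP hQ hP0 hQ0).1 hcr).1

end

section

variable (hEK8 : S_EK8) (hI7 : S_I7) (hI8 : S_I8) (hJ5 : S_J5) (hAL1 : S_AL1) (hAL3 : S_AL3) (hAL4 : S_AL4)
  (hXG : S_XG) (hXB : S_XB)

theorem canc_iff (hAL1 : S_AL1) (P : ℂ[X]) (hP : P.coeff 0 = 0) (hd : P.natDegree = 3) (h2 : P.coeff 2 ≠ 0) :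
    Canc 1 P ↔ Neg P := by
  rw [← hAL1 P hP hd h2]
  constructor
  · rintro ⟨-, -, c, c₁, h3, h4, h5, -⟩
    exact ⟨c, c₁, h3, h4, h5⟩
  · rintro ⟨c, c₁, h3, h4, h5⟩
    refine ⟨fun h => h5 ?_, fun h => ?_, c, c₁, h3, h4, h5, fun h => ?_⟩
    · have := h c c₁ h3 h4
      rwa [pow_one, pow_one] at this
    · have := h.1
      omega
    · rw [hd] at h
      exact absurd h (by decide)

include hEK8 hI7 hI8 hJ5 hAL1 hAL3 hAL4 hXG hXB in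
theorem cubic_basis (v₀ : ℂ) (P Q : ℂ[X]) (hP : P.coeff 0 = 0) (hQ : Q.coeff 0 = 0) (hP0 : P ≠ 0) (hQ0 : Q ≠ 0)
    (hdP : P.natDegree = 3) (hdQ : Q.natDegree = 3) :
    HasRootBasis v₀ P Q ↔ ‖P.leadingCoeff‖ = ‖Q.leadingCoeff‖ ∧ Cubic P Q := by
  have hd : P.natDegree = Q.natDegree := hdP.trans hdQ.symm
  have tP : Tame P := Or.inl (by rw [hdP]; decide)
  have tQ : Tame Q := Or.inl (by rw [hdQ]; decide)
  have hX := t_X11 P Q hP hQ hd (by omega) (by omega)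
  have hclass := fun (a1 : P.coeff 2 ≠ 0) (a2 : Q.coeff 2 ≠ 0) =>
    asm4_class t_T0 t_T7 t_G2 t_G3 t_F11 t_F12 t_R3 t_N1 t_N3 t_C2 t_C3 t_C4 t_X7 t_V5 t_V6 t_E3 t_Y5 t_Z1 t_Z2
      v₀ P Q 1 hP hQ hP0 hQ0 one_pos (fun j _ => one_dvd j) (fun j _ => one_dvd j)
      (Or.inr (Or.inr ⟨rfl, by omega, by rw [hdP]; exact a1⟩)) (Or.inr (Or.inr ⟨rfl, by omega, by rw [hdQ]; exact a2⟩))
  constructor
  · intro hB
    have hcr := crit_of_basis v₀ P Q hP hQ hP0 hQ0 tP tQ hB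
    obtain ⟨hl, hmu⟩ := hX.1 hcr
    refine ⟨hl, hmu, fun h2 => ?_, fun h2 => ?_⟩
    · have h2' : Q.coeff 2 = 0 := by
        by_contra h
        have e1 := (hAL4 Q hdQ).2 h
        have e2 := (hAL4 P hdP).1 h2
        rw [← hmu, e2] at e1
        exact lt_irrefl _ e1
      by_cases ha : P.coeff 1 = 0
      · refine ⟨fun _ => ?_, fun _ => ha⟩
        by_contra hb
        -- `P` is the monomial
        have := hJ5 Q P ⟨hP, hQ, hdP, ha, h2, hdQ, h2', hb⟩ hl.symm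
        exact not_basis_of_bad v₀ P Q (hEK8.2.1 Q P this) hB
      · refine ⟨fun h => absurd h ha, fun hb => ?_⟩
        exfalso
        exact not_basis_of_bad v₀ P Q (hJ5 P Q ⟨hQ, hP, hdQ, hb, h2', hdP, h2, ha⟩ hl) hB
    · have h2' : Q.coeff 2 ≠ 0 := by
        intro h
        have e1 := (hAL4 P hdP).2 h2
        have e2 := (hAL4 Q hdQ).1 h
        rw [hmu, e2] at e1
        exact lt_irrefl _ e1
      have hcl := hclass h2 h2'
      have cP := canc_iff hAL1 P hP hdP h2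
      have cQ := canc_iff hAL1 Q hQ hdQ h2'
      by_cases hn : Neg P ∧ Neg Q
      · refine ⟨⟨fun _ => hn.2, fun _ => hn.1⟩, fun _ => ?_⟩
        by_cases iP : (Inv P).im = 0
        · right
          refine ⟨iP, ?_⟩
          by_contra hne
          exact not_basis_of_bad v₀ P Q (hXB P Q hP hQ hdP hdQ h2 h2' hn.1 hn.2 hl hmu iP hne) hB
        · left
          refine ⟨iP, fun iQ => ?_⟩
          have hne : Inv Q ≠ Inv P := by
            intro h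
            rw [← h] at iP
            exact iP iQ
          exact not_basis_of_bad v₀ P Q
            (hEK8.2.1 Q P (hXB Q P hQ hP hdQ hdP h2' h2 hn.2 hn.1 hl.symm hmu.symm iQ hne)) hB
      · have hn' : ¬ (Canc 1 P ∧ Canc 1 Q) := by rwa [cP, cQ]
        have h3 := (hcl.2 hn').1 hB
        have nP : ¬ Neg P := fun h => h3.2.1 (cP.2 h)
        have nQ : ¬ Neg Q := fun h => h3.2.2 (cQ.2 h)
        exact ⟨⟨fun h => absurd h nP, fun h => absurd h nQ⟩, fun h => absurd h nP⟩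
  · rintro ⟨hl, hmu, hc0, hc1⟩
    have hcr : Crit P Q := hX.2 ⟨hl, hmu⟩
    have hA := (t_Y5 P Q hP hQ hP0 hQ0).1 hcr
    by_cases h2 : P.coeff 2 = 0
    · have h2' : Q.coeff 2 = 0 := by
        by_contra h
        have e1 := (hAL4 Q hdQ).2 h
        have e2 := (hAL4 P hdP).1 h2
        rw [← hmu, e2] at e1
        exact lt_irrefl _ e1
      have hiff := hc0 h2
      by_cases ha : P.coeff 1 = 0
      · have hb := hiff.1 ha
        have hsupp : ∀ R : ℂ[X], R.coeff 0 = 0 → R.coeff 1 = 0 → R.coeff 2 = 0 → R.natDegree = 3 → SuppMul 3 R := by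
          intro R r0 r1 r2 r3 j hj
          have hj3 : j ≤ 3 := r3 ▸ le_natDegree_of_ne_zero hj
          interval_cases j
          · exact absurd r0 hj
          · exact absurd r1 hj
          · exact absurd r2 hj
          · exact dvd_rfl
        have huniq : ∀ R : ℂ[X], R.natDegree = 3 → UniqueTop 3 R := by
          intro R r3 c c₁ hc hc₁
          have e1 := hc.1
          have e2 := hc₁.1
          rw [r3] at e1 e2
          rw [e1, e2]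
        have hcl := asm4_class t_T0 t_T7 t_G2 t_G3 t_F11 t_F12 t_R3 t_N1 t_N3 t_C2 t_C3 t_C4 t_X7 t_V5 t_V6 t_E3 t_Y5 t_Z1 t_Z2
          v₀ P Q 3 hP hQ hP0 hQ0 (by norm_num) (hsupp P hP ha h2 hdP) (hsupp Q hQ hb h2' hdQ)
          (Or.inl (huniq P hdP)) (Or.inl (huniq Q hdQ))
        have cP : ¬ Canc 3 P := fun h => h.1 (huniq P hdP)
        have cQ : ¬ Canc 3 Q := fun h => h.1 (huniq Q hdQ)
        exact (hcl.2 fun h => cP h.1).2 ⟨hA, cP, cQ⟩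
      · have hb : Q.coeff 1 ≠ 0 := fun h => ha (hiff.2 h)
        exact basis_of_good v₀ P Q (hI7 P Q hP hQ hdP hdQ h2 h2' ha hb hl)
    · have h2' : Q.coeff 2 ≠ 0 := by
        intro h
        have e1 := (hAL4 P hdP).2 h2
        have e2 := (hAL4 Q hdQ).1 h
        rw [hmu, e2] at e1
        exact lt_irrefl _ e1
      have hcl := hclass h2 h2'
      have cP := canc_iff hAL1 P hP hdP h2
      have cQ := canc_iff hAL1 Q hQ hdQ h2'
      obtain ⟨hiff, hinv⟩ := hc1 h2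
      by_cases nP : Neg P
      · have nQ := hiff.1 nP
        rcases hinv nP with ⟨iP, iQ⟩ | ⟨-, hI⟩
        · exact basis_of_good v₀ P Q (hXG P Q hP hQ hdP hdQ h2 h2' nP nQ hl hmu iP iQ)
        · obtain ⟨w, hw, hw'⟩ := hAL3 P Q hP hQ hdP hdQ h2 h2' nP nQ hl hmu hI
          exact basis_of_good v₀ P Q (hI8 P Q w hP hQ hw hw')
      · have nQ : ¬ Neg Q := fun h => nP (hiff.2 h)
        have cP' : ¬ Canc 1 P := fun h => nP (cP.1 h)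
        have cQ' : ¬ Canc 1 Q := fun h => nQ (cQ.1 h)
        exact (hcl.2 fun h => cP' h.1).2 ⟨hA, cP', cQ'⟩

end

section

variable (hE0 : S_E0) (hEK7 : S_EK7) (hEK8 : S_EK8) (hEK9 : S_EK9) (hEK10 : S_EK10)
  (hI7 : S_I7) (hI8 : S_I8) (hJ5 : S_J5) (hAL1 : S_AL1) (hAL3 : S_AL3) (hAL4 : S_AL4) (hXG : S_XG) (hXB : S_XB)

include hE0 hEK7 hEK8 hEK9 hEK10 hI7 hI8 hJ5 hAL1 hAL3 hAL4 hXG hXB in
theorem asm5 (v₀ : ℂ) (P Q : ℂ[X]) (hP : P.coeff 0 = 0) (hQ : Q.coeff 0 = 0) (hdP : P.natDegree ≤ 3) (hdQ : Q.natDegree ≤ 3) :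
    HasRootBasis v₀ P Q ↔ P = 0 ∨ Q = 0 ∨ (Exc P ∧ Exc Q) ∨
      (¬ Exc P ∧ ¬ Exc Q ∧ P.natDegree = Q.natDegree ∧ ‖P.leadingCoeff‖ = ‖Q.leadingCoeff‖ ∧
        (P.natDegree = 3 → Cubic P Q)) := by
  by_cases hP0 : P = 0
  · exact ⟨fun _ => Or.inl hP0, fun _ => basis_of_good v₀ P Q (t_F10 P Q hP hQ (Or.inl hP0))⟩
  by_cases hQ0 : Q = 0
  · exact ⟨fun _ => Or.inr (Or.inl hQ0), fun _ => basis_of_good v₀ P Q (t_F10 P Q hP hQ (Or.inr hQ0))⟩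
  by_cases eP : Exc P
  · by_cases eQ : Exc Q
    · exact ⟨fun _ => Or.inr (Or.inr (Or.inl ⟨eP, eQ⟩)), fun _ => basis_of_good v₀ P Q (exc_good hE0 hEK9 P Q hP hQ eP eQ)⟩
    · have hbad := exc_bad hE0 hEK7 hEK10 P Q hP hQ hQ0 eP (tame_of_deg Q hQ hQ0 hdQ eQ)
      refine ⟨fun hB => absurd hB (not_basis_of_bad v₀ P Q hbad), ?_⟩
      rintro (h | h | h | h)
      · exact absurd h hP0
      · exact absurd h hQ0
      · exact absurd h.2 eQ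
      · exact absurd eP h.1
  by_cases eQ : Exc Q
  · have hbad := hEK8.2.1 Q P (exc_bad hE0 hEK7 hEK10 Q P hQ hP hP0 eQ (tame_of_deg P hP hP0 hdP eP))
    refine ⟨fun hB => absurd hB (not_basis_of_bad v₀ P Q hbad), ?_⟩
    rintro (h | h | h | h)
    · exact absurd h hP0
    · exact absurd h hQ0
    · exact absurd h.1 eP
    · exact absurd eQ h.2.1
  have tP := tame_of_deg P hP hP0 hdP eP
  have tQ := tame_of_deg Q hQ hQ0 hdQ eQ
  constructor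
  · intro hB
    have hcr := crit_of_basis v₀ P Q hP hQ hP0 hQ0 tP tQ hB
    have hd := deg_of_crit P Q hP hQ hP0 hQ0 hcr
    refine Or.inr (Or.inr (Or.inr ⟨eP, eQ, hd, ?_, fun h3 => ?_⟩))
    · exact ((t_Y5 P Q hP hQ hP0 hQ0).1 hcr).2.1
    · exact ((cubic_basis hEK8 hI7 hI8 hJ5 hAL1 hAL3 hAL4 hXG hXB v₀ P Q hP hQ hP0 hQ0 h3 (hd ▸ h3)).1 hB).2
  · rintro (h | h | h | ⟨-, -, hd, hl, h3⟩)
    · exact absurd h hP0
    · exact absurd h hQ0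
    · exact absurd h.1 eP
    · by_cases hd3 : P.natDegree = 3
      · exact (cubic_basis hEK8 hI7 hI8 hJ5 hAL1 hAL3 hAL4 hXG hXB v₀ P Q hP hQ hP0 hQ0 hd3 (hd ▸ hd3)).2 ⟨hl, h3 hd3⟩
      · exact low_basis v₀ P Q hP hQ hP0 hQ0 hd (by omega) hl eP eQ

end

end HillRoots
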