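import Pool.Agent.Lib.MP_e63cf8_mp.H.StmH

/-!
# MP_e63cf8_mp, piece EK5: the block spaces (helper28)
-/

set_option autoImplicit false

open Polynomial Filter Topology MeasureTheory Asymptotics

namespace HillRoots

private lemma p_EK5_ee (i j : ℤ) : (ee j : ℤ → ℂ) i = if i = j then 1 else 0 := by
  unfold ee
  rw [lp.single_apply]
  by_cases h : i = j
  · subst h
    simp
  · simp [h]

private lemma p_EK5_sm (c : ℂ) (U : Hs) (s : ℤ) : ((c • U : Hs) : ℤ → ℂ) s = c * (U : ℤ → ℂ) s := by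
  simp [lp.coeFn_smul]

private lemma p_EK5_ad (U V : Hs) (s : ℤ) :
    ((U + V : Hs) : ℤ → ℂ) s = (U : ℤ → ℂ) s + (V : ℤ → ℂ) s := by
  simp

/-- vectors supported on `{±k}` -/
private lemma p_EK5_dec (k : ℕ) (hk : 1 ≤ k) (X : Hs)
    (hX : ∀ s : ℤ, s.natAbs ≠ k → (X : ℤ → ℂ) s = 0) :
    X = (X : ℤ → ℂ) (-(k : ℤ)) • ee (-(k : ℤ)) + (X : ℤ → ℂ) k • ee k := by
  apply lp.ext
  funext s
  rw [p_EK5_ad, p_EK5_sm, p_EK5_sm, p_EK5_ee, p_EK5_ee]
  by_cases hs : s.natAbs = k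
  · rcases Int.natAbs_eq_iff.1 hs with rfl | rfl
    · have h1 : ¬ ((k : ℤ) = -(k : ℤ)) := by omega
      rw [if_neg h1, if_pos rfl]
      ring
    · have h1 : ¬ (-(k : ℤ) = (k : ℤ)) := by omega
      rw [if_neg h1, if_pos rfl]
      ring
  · have h1 : ¬ (s = -(k : ℤ)) := by
      rintro rfl
      exact hs (by simp)
    have h2 : ¬ (s = (k : ℤ)) := by
      rintro rfl
      exact hs (by simp)
    rw [hX s hs, if_neg h1, if_neg h2]
    ring

private lemma p_EK5_top (P Q : ℂ[X]) (a b : ℂ) (x y : ℤ → ℂ) (s : ℤ) :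
    Top P Q (fun t => a * x t + b * y t) s = a * Top P Q x s + b * Top P Q y s := by
  unfold Top Vop
  have h1 : ∑ j ∈ Finset.range (P.natDegree + 1), P.coeff j * (a * x (s - j) + b * y (s - j)) =
      a * ∑ j ∈ Finset.range (P.natDegree + 1), P.coeff j * x (s - j) +
        b * ∑ j ∈ Finset.range (P.natDegree + 1), P.coeff j * y (s - j) := by
    rw [Finset.mul_sum, Finset.mul_sum, ← Finset.sum_add_distrib]
    exact Finset.sum_congr rfl fun j _ => by ring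
  have h2 : ∑ j ∈ Finset.range (Q.natDegree + 1), Q.coeff j * (a * x (s + j) + b * y (s + j)) =
      a * ∑ j ∈ Finset.range (Q.natDegree + 1), Q.coeff j * x (s + j) +
        b * ∑ j ∈ Finset.range (Q.natDegree + 1), Q.coeff j * y (s + j) := by
    rw [Finset.mul_sum, Finset.mul_sum, ← Finset.sum_add_distrib]
    exact Finset.sum_congr rfl fun j _ => by ring
  rw [h1, h2]
  ring

private lemma p_EK5_top' (P Q : ℂ[X]) (a b : ℂ) (x y : Hs) (s : ℤ) :
    Top P Q (a • x + b • y : Hs) s = a * Top P Q x s + b * Top P Q y s := by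
  have h : (((a • x + b • y : Hs)) : ℤ → ℂ) = fun t => a * (x : ℤ → ℂ) t + b * (y : ℤ → ℂ) t := by
    funext t
    rw [p_EK5_ad, p_EK5_sm, p_EK5_sm]
  rw [h]
  exact p_EK5_top P Q a b x y s

/-- the rapidly decaying elements of `ℓ²` -/
private def p_EK5_R : Submodule ℂ Hs where
  carrier := {x | Rap (x : ℤ → ℂ)}
  zero_mem' := by
    intro p
    refine ⟨0, fun s => ?_⟩
    simp
  add_mem' := by
    intro x y hx hy p
    obtain ⟨C, hC⟩ := hx p
    obtain ⟨C', hC'⟩ := hy p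
    refine ⟨C + C', fun s => ?_⟩
    have h1 : ‖((x + y : Hs) : ℤ → ℂ) s‖ ≤ ‖(x : ℤ → ℂ) s‖ + ‖(y : ℤ → ℂ) s‖ := by
      rw [p_EK5_ad]
      exact norm_add_le _ _
    have h2 : 0 ≤ (1 + |(s : ℝ)|) ^ p := by positivity
    calc ‖((x + y : Hs) : ℤ → ℂ) s‖ * (1 + |(s : ℝ)|) ^ p
        ≤ (‖(x : ℤ → ℂ) s‖ + ‖(y : ℤ → ℂ) s‖) * (1 + |(s : ℝ)|) ^ p :=
          mul_le_mul_of_nonneg_right h1 h2
      _ = ‖(x : ℤ → ℂ) s‖ * (1 + |(s : ℝ)|) ^ p + ‖(y : ℤ → ℂ) s‖ * (1 + |(s : ℝ)|) ^ p := by ring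
      _ ≤ C + C' := add_le_add (hC s) (hC' s)
  smul_mem' := by
    intro c x hx p
    obtain ⟨C, hC⟩ := hx p
    refine ⟨‖c‖ * C, fun s => ?_⟩
    rw [p_EK5_sm, norm_mul, mul_assoc]
    exact mul_le_mul_of_nonneg_left (hC s) (norm_nonneg c)

private lemma p_EK5_blk (N k : ℕ) (hN : N < k) (i : ℤ) : blk N i = k ↔ i.natAbs = k := by
  unfold blk
  split_ifs with h
  · omega
  · rfl

private lemma p_EK5_sq (k : ℕ) (i : ℤ) (h : i.natAbs = k) : ((i : ℂ)) ^ 2 = (k : ℂ) ^ 2 := by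
  rcases Int.natAbs_eq_iff.1 h with rfl | rfl
  · simp
  · simp

/-- `|4 i ^ 2 - 4 k ^ 2| < 4 k` forces `|i| = k` -/
private lemma p_EK5_loc (k : ℕ) (i : ℤ) (h : ‖4 * (i : ℂ) ^ 2 - 4 * (k : ℂ) ^ 2‖ < 4 * (k : ℝ)) :
    i.natAbs = k := by
  have h1 : (4 * (i : ℂ) ^ 2 - 4 * (k : ℂ) ^ 2) = (((4 * (i ^ 2 - (k : ℤ) ^ 2) : ℤ) : ℝ) : ℂ) := by
    push_cast; ring
  rw [h1, Complex.norm_real, Real.norm_eq_abs] at h
  have h2 : |4 * (i ^ 2 - (k : ℤ) ^ 2)| < 4 * (k : ℤ) := by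
    have h3 : ((|4 * (i ^ 2 - (k : ℤ) ^ 2)| : ℤ) : ℝ) < ((4 * (k : ℤ) : ℤ) : ℝ) := by
      push_cast
      push_cast at h
      exact h
    exact_mod_cast h3
  have h4 : i ^ 2 = ((i.natAbs : ℕ) : ℤ) ^ 2 := by simp
  rw [h4] at h2
  set n : ℤ := ((i.natAbs : ℕ) : ℤ) with hn
  have hn0 : 0 ≤ n := by positivity
  rw [abs_lt] at h2
  obtain ⟨h5, h6⟩ := h2
  have hk0 : 0 ≤ (k : ℤ) := by positivity
  have h7 : n = (k : ℤ) := by
    by_contra hne
    rcases lt_or_gt_of_ne hne with hlt | hgt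
    · nlinarith
    · nlinarith
  omega

theorem p_EK5 (hB3 : S_B3) (hB5 : S_B5) (hB6 : S_B6) (hT4 : S_T4) : S_EK5 := by
  intro P Q
  obtain ⟨K₁, N₁, hK₁⟩ := hB3 P Q
  obtain ⟨N₀, hN₀⟩ := hB5 P Q
  set N : ℕ := max N₀ N₁ with hN
  obtain ⟨W, Y, hBD⟩ := hK₁ N (le_max_right _ _)
  have hB5' := hN₀ K₁ N (le_max_left _ _) W Y hBD
  set K : ℝ := max |K₁| |2 * nu P Q| + 1 with hK
  have hKpos : 0 < K := by positivity
  have hKK₁ : K₁ ≤ K := (le_abs_self K₁).trans ((le_max_left _ _).trans (by rw [hK]; linarith))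
  have hKν : 2 * nu P Q ≤ K :=
    (le_abs_self _).trans ((le_max_right |K₁| _).trans (by rw [hK]; linarith))
  refine ⟨K, hKpos, fun K' => ?_⟩
  obtain ⟨k₁, hk₁⟩ := exists_nat_gt (2 * nu P Q + K')
  refine ⟨max (N + 1) (k₁ + 1), fun k hk hk1 => ?_⟩
  have hNk : N < k := by
    have := le_trans (le_max_left _ _) hk
    omega
  have hk₁k : (k₁ : ℝ) ≤ (k : ℝ) := by
    have := le_trans (le_max_right _ _) hk
    have h : k₁ ≤ k := by omega
    exact_mod_cast h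
  have hkpos : (0 : ℝ) < k := by
    have : 0 < k := by omega
    exact_mod_cast this
  set u : Hs := W (ee (-(k : ℤ))) with hu
  set v : Hs := W (ee (k : ℤ)) with hv
  have hnear1 : ‖u - ee (-(k : ℤ))‖ ≤ K / k := by
    refine (hBD.near (-(k : ℤ)) (by simpa using hNk)).trans ?_
    have : |(((-(k : ℤ)) : ℤ) : ℝ)| = k := by push_cast; rw [abs_neg, abs_of_pos hkpos]
    rw [this]
    exact div_le_div_of_nonneg_right hKK₁ hkpos.le
  have hnear2 : ‖v - ee (k : ℤ)‖ ≤ K / k := by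
    refine (hBD.near (k : ℤ) (by simpa using hNk)).trans ?_
    have : |(((k : ℤ) : ℤ) : ℝ)| = k := by push_cast; rw [abs_of_pos hkpos]
    rw [this]
    exact div_le_div_of_nonneg_right hKK₁ hkpos.le
  have hbound : ∀ a b : ℂ, ‖(a • u + b • v) - a • ee (-(k : ℤ)) - b • ee (k : ℤ)‖ ≤
      K / k * (‖a‖ + ‖b‖) := by
    intro a b
    have e : (a • u + b • v) - a • ee (-(k : ℤ)) - b • ee (k : ℤ) =
        a • (u - ee (-(k : ℤ))) + b • (v - ee (k : ℤ)) := by
      rw [smul_sub, smul_sub]; abel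
    rw [e]
    refine (norm_add_le _ _).trans ?_
    rw [norm_smul, norm_smul]
    calc ‖a‖ * ‖u - ee (-(k : ℤ))‖ + ‖b‖ * ‖v - ee (k : ℤ)‖ ≤ ‖a‖ * (K / k) + ‖b‖ * (K / k) :=
          add_le_add (mul_le_mul_of_nonneg_left hnear1 (norm_nonneg _))
            (mul_le_mul_of_nonneg_left hnear2 (norm_nonneg _))
      _ = K / k * (‖a‖ + ‖b‖) := by ring
  -- membership
  have hmem : ∀ x : Hs, x ∈ Submodule.span ℂ ({u, v} : Set Hs) ↔ ∃ a b : ℂ, a • u + b • v = x :=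
    fun x => Submodule.mem_span_pair
  have hsup : ∀ x : Hs, (∀ s : ℤ, s.natAbs ≠ k → (W.symm x : ℤ → ℂ) s = 0) →
      x ∈ Submodule.span ℂ ({u, v} : Set Hs) := by
    intro x hx
    rw [hmem]
    refine ⟨(W.symm x : ℤ → ℂ) (-(k : ℤ)), (W.symm x : ℤ → ℂ) k, ?_⟩
    have h := congrArg W (p_EK5_dec k hk1 (W.symm x) hx)
    rw [W.apply_symm_apply, map_add, map_smul, map_smul] at h
    exact h.symm
  have hsup' : ∀ x ∈ Submodule.span ℂ ({u, v} : Set Hs), ∀ s : ℤ, s.natAbs ≠ k →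
      (W.symm x : ℤ → ℂ) s = 0 := by
    intro x hx s hs
    rw [hmem] at hx
    obtain ⟨a, b, rfl⟩ := hx
    have e : W.symm (a • u + b • v) = a • ee (-(k : ℤ)) + b • ee (k : ℤ) := by
      rw [map_add, map_smul, map_smul, hu, hv, W.symm_apply_apply, W.symm_apply_apply]
    have h1 : ¬ (s = -(k : ℤ)) := by
      rintro rfl
      exact hs (by simp)
    have h2 : ¬ (s = (k : ℤ)) := by
      rintro rfl
      exact hs (by simp)
    rw [e, p_EK5_ad, p_EK5_sm, p_EK5_sm, p_EK5_ee, p_EK5_ee, if_neg h1, if_neg h2]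
    ring
  -- the images of the basis vectors
  have hTop : ∀ j : ℤ, j.natAbs = k → ∃ y ∈ Submodule.span ℂ ({u, v} : Set Hs),
      ∀ s, Top P Q (W (ee j)) s = (y : ℤ → ℂ) s := by
    intro j hj
    refine ⟨W ((4 * (j : ℂ) ^ 2) • ee j + Y (ee j)), ?_, fun s => hBD.inter j s⟩
    refine hsup _ fun s hs => ?_
    rw [W.symm_apply_apply, p_EK5_ad, p_EK5_sm, p_EK5_ee]
    have h1 : ¬ (s = j) := by
      rintro rfl
      exact hs hj
    have h2 : (Y (ee j) : ℤ → ℂ) s = 0 := by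
      refine hBD.Yblk s j ?_
      rw [(p_EK5_blk N k hNk j).2 hj]
      intro h
      exact hs ((p_EK5_blk N k hNk s).1 h)
    rw [if_neg h1, h2]
    ring
  refine ⟨Submodule.span ℂ ({u, v} : Set Hs), ?_, ?_, ?_, ?_, ?_, ?_, ?_⟩
  · -- dimension
    have hli : LinearIndependent ℂ ![u, v] := by
      rw [LinearIndependent.pair_iff]
      intro a b hab
      have e : W (a • ee (-(k : ℤ)) + b • ee (k : ℤ)) = 0 := by
        rw [map_add, map_smul, map_smul]
        exact hab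
      have e2 : a • ee (-(k : ℤ)) + b • ee (k : ℤ) = 0 :=
        (map_eq_zero_iff W W.injective).1 e
      have h1 : ¬ ((k : ℤ) = -(k : ℤ)) := by omega
      have h2 : ¬ (-(k : ℤ) = (k : ℤ)) := by omega
      have f1 := congrArg (fun z : Hs => (z : ℤ → ℂ) (-(k : ℤ))) e2
      have f2 := congrArg (fun z : Hs => (z : ℤ → ℂ) (k : ℤ)) e2
      simp only [p_EK5_ad, p_EK5_sm, p_EK5_ee, lp.coeFn_zero, Pi.zero_apply, if_true] at f1 f2
      rw [if_neg h2] at f1
      rw [if_neg h1] at f2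
      constructor
      · linear_combination f1
      · linear_combination f2
    have hr : Set.range ![u, v] = ({u, v} : Set Hs) := by
      rw [Matrix.range_cons, Matrix.range_cons, Matrix.range_empty, Set.union_empty]
      rfl
    rw [← hr]
    exact (finrank_span_eq_card hli).trans (by simp)
  · -- rapid decay
    intro x hx
    obtain ⟨ψ, ev, hψ, -, hspan⟩ := hB6 P Q K₁ N W Y hBD k
    have h1 : Submodule.span ℂ ({u, v} : Set Hs) ≤ p_EK5_R := by
      have h2 : Submodule.span ℂ ({u, v} : Set Hs) ≤ Submodule.span ℂ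
          (Set.range fun i : {i : ℤ // blk N i = k} => W (ee i)) := by
        refine Submodule.span_mono ?_
        rintro z (rfl | rfl)
        · exact ⟨⟨-(k : ℤ), (p_EK5_blk N k hNk _).2 (by simp)⟩, rfl⟩
        · exact ⟨⟨(k : ℤ), (p_EK5_blk N k hNk _).2 (by simp)⟩, rfl⟩
      refine h2.trans ?_
      rw [← hspan, Submodule.span_le]
      rintro z ⟨i, rfl⟩
      exact hT4 P Q (ev i) (ψ i) (hψ i)
    exact h1 hx
  · -- invariance
    intro x hx
    rw [hmem] at hx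
    obtain ⟨a, b, rfl⟩ := hx
    obtain ⟨y₁, hy₁, h₁⟩ := hTop (-(k : ℤ)) (by simp)
    obtain ⟨y₂, hy₂, h₂⟩ := hTop (k : ℤ) (by simp)
    refine ⟨a • y₁ + b • y₂, Submodule.add_mem _ (Submodule.smul_mem _ _ hy₁)
      (Submodule.smul_mem _ _ hy₂), fun s => ?_⟩
    rw [p_EK5_top', hu, hv, h₁ s, h₂ s, p_EK5_ad, p_EK5_sm, p_EK5_sm]
  · intro x hx
    rw [hmem] at hx
    obtain ⟨a, b, rfl⟩ := hx
    exact ⟨a, b, hbound a b⟩
  · intro p q
    exact ⟨p • u + q • v, (hmem _).2 ⟨p, q, rfl⟩, hbound p q⟩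
  · -- location
    intro μ x hx hx0 hμ
    obtain ⟨i, hi, hsupp⟩ := hB5' μ x hx hx0
    have hik : i.natAbs = k := by
      refine p_EK5_loc k i ?_
      have e : 4 * (i : ℂ) ^ 2 - 4 * (k : ℂ) ^ 2 =
          (4 * (i : ℂ) ^ 2 - μ) + (μ - 4 * (k : ℂ) ^ 2) := by ring
      rw [e]
      have h1 := norm_add_le (4 * (i : ℂ) ^ 2 - μ) (μ - 4 * (k : ℂ) ^ 2)
      linarith
    refine hsup x fun s hs => hsupp s ?_
    rw [(p_EK5_blk N k hNk i).2 hik]
    intro h
    exact hs ((p_EK5_blk N k hNk s).1 h)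
  · -- eigenvalues
    intro μ x hx hx0 hTx
    have hsh : Tsh P Q μ (x : ℤ → ℂ) = 0 := by
      funext s
      unfold Tsh
      rw [hTx s]
      simp
    have hz : Tsh P Q μ (0 : ℤ → ℂ) = 0 := by
      funext s
      simp [Tsh, Top, Vop]
    have hroot : x ∈ seqRoot P Q μ := by
      refine ⟨fun i => ?_, 1, by simpa using hsh⟩
      rcases i with _ | i
      · exact lp.memℓp x
      · have h1 : ∀ n : ℕ, (Tsh P Q μ)^[n] (0 : ℤ → ℂ) = 0 := by
          intro n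
          induction n with
          | zero => rfl
          | succ n ih => rw [Function.iterate_succ_apply, hz, ih]
        rw [Function.iterate_succ_apply, hsh, h1 i]
        exact zero_memℓp
    obtain ⟨i, hi, hsupp⟩ := hB5' μ x hroot hx0
    have hW0 : W.symm x ≠ 0 := by
      intro h
      exact hx0 ((map_eq_zero_iff W.symm W.symm.injective).1 h)
    have hik : i.natAbs = k := by
      by_contra hne
      refine hW0 ?_
      apply lp.ext
      funext s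
      rw [lp.coeFn_zero, Pi.zero_apply]
      by_cases hs : s.natAbs = k
      · refine hsupp s ?_
        rw [(p_EK5_blk N k hNk s).2 hs]
        intro h
        exact hne ((p_EK5_blk N k hNk i).1 h.symm)
      · exact hsup' x hx s hs
    rw [p_EK5_sq k i hik] at hi
    rw [norm_sub_rev]
    exact hi.trans hKν

end HillRoots
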