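import Pool.Agent.Lib.MP_e63cf8_mp.H.StmI

/-!
# MP_e63cf8_mp, piece I5: for `a₂ = 0` the products `G` are bounded
-/

open Polynomial Filter Topology MeasureTheory Asymptotics

namespace HillRoots

private theorem i5_low (s : Finset ℕ) (a b : ℕ → ℝ) (ha : ∀ i ∈ s, 0 ≤ a i)
    (hb : ∀ i ∈ s, 0 ≤ b i) (h : ∀ i ∈ s, 1 - b i ≤ a i) (hs : ∑ i ∈ s, b i ≤ 1) :
    1 - ∑ i ∈ s, b i ≤ ∏ i ∈ s, a i := by
  induction s using Finset.induction_on with
  | empty => simp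
  | insert j s hj ih =>
    rw [Finset.sum_insert hj] at hs
    rw [Finset.sum_insert hj, Finset.prod_insert hj]
    have hbj := hb j (Finset.mem_insert_self j s)
    have haj := ha j (Finset.mem_insert_self j s)
    have h1 := ih (fun i hi => ha i (Finset.mem_insert_of_mem hi))
      (fun i hi => hb i (Finset.mem_insert_of_mem hi))
      (fun i hi => h i (Finset.mem_insert_of_mem hi)) (by linarith)
    have h2 := h j (Finset.mem_insert_self j s)
    have h3 : 0 ≤ ∑ i ∈ s, b i :=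
      Finset.sum_nonneg fun i hi => hb i (Finset.mem_insert_of_mem hi)
    have h4 : a j * (1 - ∑ i ∈ s, b i) ≤ a j * ∏ i ∈ s, a i := mul_le_mul_of_nonneg_left h1 haj
    have h5 : (1 - b j) * (1 - ∑ i ∈ s, b i) ≤ a j * (1 - ∑ i ∈ s, b i) :=
      mul_le_mul_of_nonneg_right h2 (by linarith)
    nlinarith [mul_nonneg hbj h3]

private theorem i5_upp (s : Finset ℕ) (a b : ℕ → ℝ) (ha : ∀ i ∈ s, 0 ≤ a i)
    (h : ∀ i ∈ s, a i ≤ 1 + b i) : ∏ i ∈ s, a i ≤ Real.exp (∑ i ∈ s, b i) := by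
  rw [Real.exp_sum]
  refine Finset.prod_le_prod ha fun i hi => ?_
  have h1 := Real.add_one_le_exp (b i)
  linarith [h i hi]

private theorem i5_abs (y B : ℝ) (hy : 0 ≤ y) (h : |y ^ 3 - 1| ≤ B) : |y - 1| ≤ B := by
  have h1 : y ^ 3 - 1 = (y - 1) * (y ^ 2 + y + 1) := by ring
  rw [h1, abs_mul] at h
  have h2 : 1 ≤ |y ^ 2 + y + 1| := by
    rw [abs_of_nonneg (by positivity)]
    nlinarith [sq_nonneg y]
  calc |y - 1| = |y - 1| * 1 := by rw [mul_one]
    _ ≤ |y - 1| * |y ^ 2 + y + 1| := mul_le_mul_of_nonneg_left h2 (abs_nonneg _)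
    _ ≤ B := h

theorem p_I5 (hV : S_V1c) (hU : S_U1) : S_I5 := by
  intro P c g τ₀ K δ hP0 hdeg hP2 hbr
  obtain ⟨hc, c0, han, hone, heqn, hld⟩ := hbr
  rw [hdeg] at hld
  have hτ₀ := hld.ht
  set B : ℝ := ‖P.coeff 1 / P.leadingCoeff‖ * ‖c‖ ^ 2 * 4 with hB
  have hB0 : 0 ≤ B := by positivity
  have hlc : P.leadingCoeff ≠ 0 := by
    rw [← hc]
    exact pow_ne_zero _ c0
  -- the pointwise bound
  have hpt : ∀ t ∈ Set.Icc 0 τ₀, |‖br 3 c g 0 t‖ - 1| ≤ B * t ^ 2 := by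
    intro t ht
    have h1 : br 3 c g 0 t = g (c * t) := by
      unfold br
      simp
    have hx : ‖c * (t : ℂ)‖ ≤ ‖c‖ * τ₀ := by
      rw [norm_mul, Complex.norm_real, Real.norm_of_nonneg ht.1]
      exact mul_le_mul_of_nonneg_left ht.2 (norm_nonneg _)
    have h2 := heqn _ hx
    rw [hdeg] at h2
    have h3 : Finset.Icc 1 3 = {1, 2, 3} := rfl
    rw [h3] at h2
    have h4 : P.coeff 3 = P.leadingCoeff := by
      rw [Polynomial.leadingCoeff, hdeg]
    simp only [Finset.mem_insert, Finset.mem_singleton, Finset.sum_insert,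
      Finset.sum_singleton, hP2, h4, zero_div, zero_mul, zero_add, OfNat.one_ne_ofNat, or_self,
      not_false_eq_true, Nat.reduceEqDiff, div_self hlc, Nat.sub_self, pow_zero, mul_one,
      Nat.reduceSub] at h2
    have hup := hld.upp 0 (by norm_num) t ht
    rw [h1] at hup ⊢
    have h5 : |‖g (c * t)‖ ^ 3 - 1| ≤ B * t ^ 2 := by
      rw [← norm_pow, h2]
      have h6 : |‖P.coeff 1 / P.leadingCoeff * (c * t * g (c * t)) ^ 2 + 1‖ - ‖(1 : ℂ)‖| ≤
          ‖P.coeff 1 / P.leadingCoeff * (c * t * g (c * t)) ^ 2 + 1 - 1‖ := abs_norm_sub_norm_le _ _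
      rw [norm_one, add_sub_cancel_right, norm_mul, norm_pow, norm_mul, norm_mul,
        Complex.norm_real, Real.norm_of_nonneg ht.1] at h6
      refine h6.trans ?_
      have h7 : ‖g (c * t)‖ ^ 2 ≤ 4 := by
        have := norm_nonneg (g (c * t))
        nlinarith
      rw [hB]
      have h8 : 0 ≤ ‖P.coeff 1 / P.leadingCoeff‖ * (‖c‖ ^ 2 * t ^ 2) := by positivity
      calc ‖P.coeff 1 / P.leadingCoeff‖ * (‖c‖ * t * ‖g (c * t)‖) ^ 2
          = ‖P.coeff 1 / P.leadingCoeff‖ * (‖c‖ ^ 2 * t ^ 2) * ‖g (c * t)‖ ^ 2 := by ring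
        _ ≤ ‖P.coeff 1 / P.leadingCoeff‖ * (‖c‖ ^ 2 * t ^ 2) * 4 :=
            mul_le_mul_of_nonneg_left h7 h8
        _ = ‖P.coeff 1 / P.leadingCoeff‖ * ‖c‖ ^ 2 * 4 * t ^ 2 := by ring
    exact i5_abs _ _ (norm_nonneg _) h5
  have hV' := hV (2 / 3) 3 (by norm_num) (by norm_num)
  have hsmall : ∀ᶠ n : ℕ in atTop,
      ∑ k ∈ Finset.Icc 1 (n - 3), (En n k) ^ (-(2 / 3) : ℝ) < 1 / (2 * (B + 1)) :=
    hV'.eventually_lt_const (by positivity)
  filter_upwards [hsmall, hU 3 τ₀ (by norm_num) hτ₀, eventually_ge_atTop 4] with n h1 h2 hn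
  have hsq : ∀ k ∈ Finset.Icc 1 (n - 3), tau 3 n k ^ 2 = (En n k) ^ (-(2 / 3) : ℝ) := by
    intro k hk
    rw [Finset.mem_Icc] at hk
    have hkn : (k : ℝ) ≤ n := by
      have : k ≤ n := by omega
      exact_mod_cast this
    have hE : (0 : ℝ) ≤ 4 * (k : ℝ) * ((n : ℝ) - k) := by
      have h3 : (0 : ℝ) ≤ (n : ℝ) - k := by linarith
      positivity
    unfold tau En
    rw [← Real.rpow_natCast, ← Real.rpow_mul hE, Int.cast_natCast]
    norm_num
  have hmem : ∀ k ∈ Finset.Icc 1 (n - 3), tau 3 n k ∈ Set.Icc 0 τ₀ := by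
    intro k hk
    rw [Finset.mem_Icc] at hk
    exact h2 k (by omega)
  have hsum : ∑ k ∈ Finset.Icc 1 (n - 3), B * tau 3 n k ^ 2 ≤ 1 / 2 := by
    rw [← Finset.mul_sum, Finset.sum_congr rfl hsq]
    have h3 : 0 ≤ ∑ k ∈ Finset.Icc 1 (n - 3), (En n k) ^ (-(2 / 3) : ℝ) := by
      refine Finset.sum_nonneg fun k hk => ?_
      rw [← hsq k hk]
      positivity
    calc B * ∑ k ∈ Finset.Icc 1 (n - 3), (En n k) ^ (-(2 / 3) : ℝ)
        ≤ (B + 1) * (1 / (2 * (B + 1))) :=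
          mul_le_mul (by linarith) h1.le h3 (by linarith)
      _ = 1 / 2 := by
          field_simp
  unfold GG
  constructor
  · have h4 := i5_low (Finset.Icc 1 (n - 3)) (fun i => ‖br 3 c g 0 (tau 3 n i)‖)
      (fun i => B * tau 3 n i ^ 2) (fun i _ => norm_nonneg _) (fun i _ => by positivity)
      (fun i hi => by
        have := (abs_le.1 (hpt _ (hmem i hi))).1
        linarith) (by linarith)
    linarith
  · have h4 := i5_upp (Finset.Icc 1 (n - 3)) (fun i => ‖br 3 c g 0 (tau 3 n i)‖)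
      (fun i => B * tau 3 n i ^ 2) (fun i _ => norm_nonneg _)
      (fun i hi => by
        have := (abs_le.1 (hpt _ (hmem i hi))).2
        linarith)
    refine h4.trans ?_
    have h5 : Real.exp (∑ i ∈ Finset.Icc 1 (n - 3), B * tau 3 n i ^ 2) ≤ Real.exp (1 / 2) :=
      Real.exp_le_exp.2 hsum
    refine h5.trans ?_
    have h6 : Real.exp (1 / 2) ^ 2 = Real.exp 1 := by
      rw [← Real.exp_nat_mul]
      norm_num
    have h7 := Real.exp_one_lt_d9
    have h8 := Real.exp_pos (1 / 2)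
    nlinarith

end HillRoots
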