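import Pool.Agent.Lib.MP_e63cf8_mp.H.StmW

/-!
# MP_e63cf8_mp, piece W1b: limits of the integrals `Th`, comparison with sums
-/

open Filter Topology MeasureTheory Set

namespace HillRoots

private theorem w1b_meas (α N : ℝ) : Measurable fun t : ℝ => (4 * t * (N - t)) ^ (-α) := by
  fun_prop

private theorem w1b_nonneg {α N t : ℝ} (h0 : 0 ≤ t) (h1 : t ≤ N) :
    0 ≤ (4 * t * (N - t)) ^ (-α) :=
  Real.rpow_nonneg (mul_nonneg (by linarith) (by linarith)) _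

private theorem w1b_int {α N : ℝ} (h0 : 0 < α) (h1 : α < 1) (hN : 1 ≤ N) :
    IntervalIntegrable (fun t : ℝ => (4 * t * (N - t)) ^ (-α)) volume 0 N := by
  have hA : IntervalIntegrable (fun t : ℝ => t ^ (-α)) volume 0 N :=
    intervalIntegral.intervalIntegrable_rpow' (by linarith)
  have hB : IntervalIntegrable (fun t : ℝ => (N - t) ^ (-α)) volume 0 N := by
    have h2 := (hA.comp_sub_left N).symm
    simpa using h2
  refine (hA.add hB).mono_fun (w1b_meas α N).aestronglyMeasurable ?_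
  refine (ae_restrict_iff' measurableSet_uIoc).2 (Eventually.of_forall fun t ht => ?_)
  rw [uIoc_of_le (by linarith)] at ht
  obtain ⟨ht0, htN⟩ := ht
  have e1 : 0 ≤ t ^ (-α) := Real.rpow_nonneg ht0.le _
  have e2 : 0 ≤ (N - t) ^ (-α) := Real.rpow_nonneg (by linarith) _
  change ‖(4 * t * (N - t)) ^ (-α)‖ ≤ ‖t ^ (-α) + (N - t) ^ (-α)‖
  rw [Real.norm_of_nonneg (w1b_nonneg ht0.le htN), Real.norm_of_nonneg (add_nonneg e1 e2)]
  rcases eq_or_lt_of_le htN with h | h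
  · have h3 : 4 * t * (N - t) = 0 := by rw [h]; ring
    rw [h3, Real.zero_rpow (by linarith)]
    exact add_nonneg e1 e2
  · have hNt : 0 < N - t := by linarith
    rcases le_total t (N / 2) with h4 | h4
    · have h5 : t ≤ 4 * t * (N - t) := by nlinarith
      have h6 := Real.rpow_le_rpow_of_nonpos ht0 h5 (by linarith : -α ≤ 0)
      linarith
    · have h5 : N - t ≤ 4 * t * (N - t) := by nlinarith
      have h6 := Real.rpow_le_rpow_of_nonpos hNt h5 (by linarith : -α ≤ 0)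
      linarith

private theorem w1b_int' {α N a b : ℝ} (h0 : 0 < α) (h1 : α < 1) (hN : 1 ≤ N) (ha : 0 ≤ a)
    (haN : a ≤ N) (hb : 0 ≤ b) (hbN : b ≤ N) :
    IntervalIntegrable (fun t : ℝ => (4 * t * (N - t)) ^ (-α)) volume a b := by
  refine (w1b_int h0 h1 hN).mono_set ?_
  rw [uIcc_of_le (by linarith : (0 : ℝ) ≤ N)]
  intro x hx
  rw [mem_uIcc] at hx
  rcases hx with hx | hx
  · exact ⟨by linarith, by linarith⟩
  · exact ⟨by linarith, by linarith⟩

/-- the integral of `(4t)^{-α}` -/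
private theorem w1b_I {α s : ℝ} (h1 : α < 1) (hs : 0 ≤ s) :
    IntervalIntegrable (fun t : ℝ => (4 * t) ^ (-α)) volume 0 s ∧
    ∫ t in (0 : ℝ)..s, (4 * t) ^ (-α) = 4 ^ (-α) * (s ^ (1 - α) / (1 - α)) := by
  have hA : IntervalIntegrable (fun t : ℝ => t ^ (-α)) volume 0 s :=
    intervalIntegral.intervalIntegrable_rpow' (by linarith)
  have hE : ∀ t ∈ uIcc (0 : ℝ) s, (4 * t) ^ (-α) = 4 ^ (-α) * t ^ (-α) := by
    intro t ht
    rw [uIcc_of_le hs] at ht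
    exact Real.mul_rpow (by norm_num) ht.1
  have hI : ∫ t in (0 : ℝ)..s, (4 * t) ^ (-α) = 4 ^ (-α) * (s ^ (1 - α) / (1 - α)) := by
    rw [intervalIntegral.integral_congr hE, intervalIntegral.integral_const_mul,
      integral_rpow (Or.inl (by linarith)), Real.zero_rpow (by linarith)]
    congr 1
    rw [sub_zero, neg_add_eq_sub]
  refine ⟨?_, hI⟩
  have hB := hA.const_mul ((4 : ℝ) ^ (-α))
  refine hB.congr ?_
  intro t ht
  have ht' : t ∈ uIcc (0 : ℝ) s := uIoc_subset_uIcc ht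
  exact (hE t ht').symm

private theorem w1b_bd {α N s : ℝ} (h0 : 0 < α) (h1 : α < 1) (hN : 1 ≤ N) (hs : 0 ≤ s)
    (hsN : s < N) :
    N ^ (-α) * (4 ^ (-α) * (s ^ (1 - α) / (1 - α))) ≤
      ∫ t in (0 : ℝ)..s, (4 * t * (N - t)) ^ (-α) ∧
    ∫ t in (0 : ℝ)..s, (4 * t * (N - t)) ^ (-α) ≤
      (N - s) ^ (-α) * (4 ^ (-α) * (s ^ (1 - α) / (1 - α))) := by
  obtain ⟨hII, hI⟩ := w1b_I (α := α) h1 hs
  have hint := w1b_int' (α := α) (N := N) (a := 0) (b := s) h0 h1 hN le_rfl (by linarith) hs hsN.le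
  have hkey : ∀ t ∈ Icc (0 : ℝ) s, N ^ (-α) * (4 * t) ^ (-α) ≤ (4 * t * (N - t)) ^ (-α) ∧
      (4 * t * (N - t)) ^ (-α) ≤ (N - s) ^ (-α) * (4 * t) ^ (-α) := by
    intro t ht
    have e0 : 0 ≤ (4 * t) ^ (-α) := Real.rpow_nonneg (by linarith [ht.1]) _
    have e3 : (4 * t * (N - t)) ^ (-α) = (4 * t) ^ (-α) * (N - t) ^ (-α) :=
      Real.mul_rpow (by linarith [ht.1]) (by linarith [ht.2])
    rw [e3]
    have e1 : N ^ (-α) ≤ (N - t) ^ (-α) :=
      Real.rpow_le_rpow_of_nonpos (by linarith [ht.2]) (by linarith [ht.1]) (by linarith)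
    have e2 : (N - t) ^ (-α) ≤ (N - s) ^ (-α) :=
      Real.rpow_le_rpow_of_nonpos (by linarith) (by linarith [ht.2]) (by linarith)
    constructor
    · rw [mul_comm]
      exact mul_le_mul_of_nonneg_left e1 e0
    · rw [mul_comm]
      exact mul_le_mul_of_nonneg_right e2 e0
  constructor
  · rw [← hI, ← intervalIntegral.integral_const_mul]
    exact intervalIntegral.integral_mono_on hs (hII.const_mul _) hint fun t ht => (hkey t ht).1
  · rw [← hI, ← intervalIntegral.integral_const_mul]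
    exact intervalIntegral.integral_mono_on hs hint (hII.const_mul _) fun t ht => (hkey t ht).2

private theorem w1b_lim (s : ℕ) (α : ℝ) :
    Tendsto (fun n : ℕ => (1 - (s : ℝ) / n) ^ (-α)) atTop (𝓝 1) := by
  have h1 : Tendsto (fun n : ℕ => 1 - (s : ℝ) / n) atTop (𝓝 (1 - 0)) :=
    tendsto_const_nhds.sub (tendsto_const_div_atTop_nhds_zero_nat (s : ℝ))
  rw [sub_zero] at h1
  have h2 := h1.rpow_const (p := -α) (Or.inl one_ne_zero)
  rwa [Real.one_rpow] at h2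

private theorem w1b_fac {α β N s : ℝ} (hs : 0 ≤ s) (hsN : s < N) :
    N ^ β * (N - s) ^ (-α) = N ^ (β - α) * (1 - s / N) ^ (-α) := by
  have hN : 0 < N := by linarith
  have h1 : N - s = N * (1 - s / N) := by field_simp
  have h2 : 0 ≤ 1 - s / N := by
    rw [sub_nonneg, div_le_one hN]
    exact hsN.le
  rw [h1, Real.mul_rpow hN.le h2, ← mul_assoc, ← Real.rpow_add hN, ← sub_eq_add_neg]

private theorem w1b_1 (s : ℕ) : Tendsto (fun n : ℕ => (n : ℝ) ^ (1 / 3 : ℝ) * Th 1 n s) atTop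
    (𝓝 ((4 : ℝ) ^ (-(1 / 3) : ℝ) * (3 / 2) * (s : ℝ) ^ (2 / 3 : ℝ))) := by
  set I : ℝ := (4 : ℝ) ^ (-(1 / 3) : ℝ) * ((s : ℝ) ^ (1 - 1 / 3 : ℝ) / (1 - 1 / 3)) with hI
  have hI' : (4 : ℝ) ^ (-(1 / 3) : ℝ) * (3 / 2) * (s : ℝ) ^ (2 / 3 : ℝ) = I := by
    rw [hI]
    have e1 : (1 - 1 / 3 : ℝ) = 2 / 3 := by norm_num
    rw [e1]
    ring
  rw [hI']
  have hup : Tendsto (fun n : ℕ => (1 - (s : ℝ) / n) ^ (-(1 / 3) : ℝ) * I) atTop (𝓝 (1 * I)) :=
    (w1b_lim s (1 / 3)).mul_const I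
  rw [one_mul] at hup
  have hcast : ∀ n : ℕ, Th 1 n s = ∫ t in (0 : ℝ)..(s : ℝ), (4 * t * ((n : ℝ) - t)) ^ (-(1 / 3) : ℝ) := by
    intro n
    unfold Th
    rw [Nat.cast_one]
  refine tendsto_of_tendsto_of_tendsto_of_le_of_le' tendsto_const_nhds hup ?_ ?_
  · filter_upwards [eventually_gt_atTop s] with n hn
    have hn' : (s : ℝ) < n := by exact_mod_cast hn
    have hn0 : (0 : ℝ) ≤ s := Nat.cast_nonneg s
    have hn1 : (1 : ℝ) ≤ n := by exact_mod_cast (by omega : 1 ≤ n)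
    have hb := (w1b_bd (α := 1 / 3) (N := n) (s := s) (by norm_num) (by norm_num) hn1 hn0 hn').1
    rw [hcast]
    have e1 : (n : ℝ) ^ (1 / 3 : ℝ) * (n : ℝ) ^ (-(1 / 3) : ℝ) = 1 := by
      rw [← Real.rpow_add (by linarith)]
      norm_num
    calc I = (n : ℝ) ^ (1 / 3 : ℝ) * ((n : ℝ) ^ (-(1 / 3) : ℝ) * I) := by rw [← mul_assoc, e1, one_mul]
      _ ≤ _ := mul_le_mul_of_nonneg_left hb (Real.rpow_nonneg (by linarith) _)
  · filter_upwards [eventually_gt_atTop s] with n hn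
    have hn' : (s : ℝ) < n := by exact_mod_cast hn
    have hn0 : (0 : ℝ) ≤ s := Nat.cast_nonneg s
    have hn1 : (1 : ℝ) ≤ n := by exact_mod_cast (by omega : 1 ≤ n)
    have hb := (w1b_bd (α := 1 / 3) (N := n) (s := s) (by norm_num) (by norm_num) hn1 hn0 hn').2
    rw [hcast]
    have e1 := w1b_fac (α := 1 / 3) (β := 1 / 3) hn0 hn'
    rw [sub_self, Real.rpow_zero, one_mul] at e1
    calc _ ≤ (n : ℝ) ^ (1 / 3 : ℝ) * (((n : ℝ) - s) ^ (-(1 / 3) : ℝ) * I) :=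
        mul_le_mul_of_nonneg_left hb (Real.rpow_nonneg (by linarith) _)
      _ = _ := by rw [← mul_assoc, e1]

private theorem w1b_2 (s : ℕ) : Tendsto (fun n : ℕ => (n : ℝ) ^ (1 / 3 : ℝ) * Th 2 n s) atTop
    (𝓝 0) := by
  set I : ℝ := (4 : ℝ) ^ (-(2 / 3) : ℝ) * ((s : ℝ) ^ (1 - 2 / 3 : ℝ) / (1 - 2 / 3)) with hI
  have hz : Tendsto (fun n : ℕ => (n : ℝ) ^ (-(1 / 3) : ℝ)) atTop (𝓝 0) :=
    (tendsto_rpow_neg_atTop (by norm_num : (0 : ℝ) < 1 / 3)).comp tendsto_natCast_atTop_atTop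
  have hup : Tendsto (fun n : ℕ => (n : ℝ) ^ (-(1 / 3) : ℝ) * (1 - (s : ℝ) / n) ^ (-(2 / 3) : ℝ) * I)
      atTop (𝓝 (0 * 1 * I)) := (hz.mul (w1b_lim s (2 / 3))).mul_const I
  rw [zero_mul, zero_mul] at hup
  have hcast : ∀ n : ℕ, Th 2 n s = ∫ t in (0 : ℝ)..(s : ℝ), (4 * t * ((n : ℝ) - t)) ^ (-(2 / 3) : ℝ) := by
    intro n
    unfold Th
    rw [Nat.cast_ofNat]
  refine tendsto_of_tendsto_of_tendsto_of_le_of_le' tendsto_const_nhds hup ?_ ?_
  · filter_upwards [eventually_gt_atTop s] with n hn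
    have hn' : (s : ℝ) < n := by exact_mod_cast hn
    have hn0 : (0 : ℝ) ≤ s := Nat.cast_nonneg s
    rw [hcast]
    refine mul_nonneg (Real.rpow_nonneg (by linarith) _) ?_
    refine intervalIntegral.integral_nonneg hn0 fun u hu => w1b_nonneg hu.1 (by linarith [hu.2])
  · filter_upwards [eventually_gt_atTop s] with n hn
    have hn' : (s : ℝ) < n := by exact_mod_cast hn
    have hn0 : (0 : ℝ) ≤ s := Nat.cast_nonneg s
    have hn1 : (1 : ℝ) ≤ n := by exact_mod_cast (by omega : 1 ≤ n)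
    have hb := (w1b_bd (α := 2 / 3) (N := n) (s := s) (by norm_num) (by norm_num) hn1 hn0 hn').2
    rw [hcast]
    have e1 := w1b_fac (α := 2 / 3) (β := 1 / 3) hn0 hn'
    have e2 : (1 / 3 - 2 / 3 : ℝ) = -(1 / 3) := by norm_num
    rw [e2] at e1
    calc _ ≤ (n : ℝ) ^ (1 / 3 : ℝ) * (((n : ℝ) - s) ^ (-(2 / 3) : ℝ) * I) :=
        mul_le_mul_of_nonneg_left hb (Real.rpow_nonneg (by linarith) _)
      _ = _ := by rw [← mul_assoc, e1]

/-- decreasing as long as `t + u ≤ N` -/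
private theorem w1b_anti {α N t u : ℝ} (h0 : 0 < α) (ht : 0 < t) (htu : t ≤ u) (huN : u < N)
    (h : t + u ≤ N) : (4 * u * (N - u)) ^ (-α) ≤ (4 * t * (N - t)) ^ (-α) := by
  refine Real.rpow_le_rpow_of_nonpos ?_ ?_ (by linarith)
  · exact mul_pos (by linarith) (by linarith)
  · nlinarith [mul_nonneg (sub_nonneg.2 htu) (sub_nonneg.2 h)]

private theorem w1b_mono {α N t u : ℝ} (h0 : 0 < α) (ht : 0 < t) (htu : t ≤ u) (huN : u < N)
    (h : N ≤ t + u) : (4 * t * (N - t)) ^ (-α) ≤ (4 * u * (N - u)) ^ (-α) := by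
  refine Real.rpow_le_rpow_of_nonpos ?_ ?_ (by linarith)
  · exact mul_pos (by linarith) (by linarith)
  · nlinarith [mul_nonneg (sub_nonneg.2 htu) (sub_nonneg.2 h)]

/-- one step -/
private theorem w1b_step {α N a M : ℝ} (h0 : 0 < α) (h1 : α < 1) (hN : 1 ≤ N) (ha : 0 ≤ a)
    (haN : a + 1 ≤ N)
    (hM : ∀ t, a ≤ t → t ≤ a + 1 →
      |(4 * t * (N - t)) ^ (-α) - (4 * (a + 1) * (N - (a + 1))) ^ (-α)| ≤ M) :
    |(4 * (a + 1) * (N - (a + 1))) ^ (-α) - ∫ t in a..(a + 1), (4 * t * (N - t)) ^ (-α)| ≤ M := by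
  have e1 : (∫ t in a..(a + 1), ((4 * t * (N - t)) ^ (-α) -
      (4 * (a + 1) * (N - (a + 1))) ^ (-α))) =
      (∫ t in a..(a + 1), (4 * t * (N - t)) ^ (-α)) - (4 * (a + 1) * (N - (a + 1))) ^ (-α) := by
    rw [intervalIntegral.integral_sub
      (w1b_int' h0 h1 hN ha (by linarith) (by linarith) haN)
      intervalIntegrable_const, intervalIntegral.integral_const, smul_eq_mul]
    congr 1
    ring
  rw [abs_sub_comm, ← e1]
  have e2 := intervalIntegral.norm_integral_le_of_norm_le_const (a := a) (b := a + 1) (C := M)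
    (f := fun t : ℝ => (4 * t * (N - t)) ^ (-α) - (4 * (a + 1) * (N - (a + 1))) ^ (-α)) ?_
  · rw [Real.norm_eq_abs] at e2
    refine e2.trans ?_
    rw [add_sub_cancel_left, abs_one, mul_one]
  · intro t ht
    rw [uIoc_of_le (by linarith)] at ht
    rw [Real.norm_eq_abs]
    exact hM t ht.1.le ht.2

/-- all values at integer points are at most `N^{-α}` -/
private theorem w1b_le {α N t : ℝ} (h0 : 0 < α) (hN : 2 ≤ N) (ht : 1 ≤ t) (htN : t ≤ N - 1) :
    (4 * t * (N - t)) ^ (-α) ≤ N ^ (-α) := by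
  refine Real.rpow_le_rpow_of_nonpos (by linarith) ?_ (by linarith)
  nlinarith [mul_nonneg (sub_nonneg.2 ht) (sub_nonneg.2 htN)]

private theorem w1b_3 {α : ℝ} (h0 : 0 < α) (h1 : α < 1) (n : ℕ) (hn : 2 ≤ n) (s : ℕ) (hs : 1 ≤ s) :
    s < n → |∑ k ∈ Finset.Icc 1 s, (4 * (k : ℝ) * ((n : ℝ) - k)) ^ (-α) -
      ∫ t in (0 : ℝ)..(s : ℝ), (4 * t * ((n : ℝ) - t)) ^ (-α)| ≤
      (1 + (1 / 2) ^ (-α) * (4 ^ (-α) * (1 / (1 - α)))) * (n : ℝ) ^ (-α) +
      (4 * (1 : ℝ) * ((n : ℝ) - 1)) ^ (-α) +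
      (if 2 * s ≤ n then -(4 * (s : ℝ) * ((n : ℝ) - s)) ^ (-α)
        else (4 * (s : ℝ) * ((n : ℝ) - s)) ^ (-α) + 2 * (n : ℝ) ^ (-α)) := by
  have hN2 : (2 : ℝ) ≤ n := by exact_mod_cast hn
  have hN0 : (0 : ℝ) < n := by linarith
  have hNa : 0 ≤ (n : ℝ) ^ (-α) := Real.rpow_nonneg hN0.le _
  induction s, hs using Nat.le_induction with
  | base =>
    intro _
    have hf1 : (4 * (1 : ℝ) * ((n : ℝ) - 1)) ^ (-α) ≤ (n : ℝ) ^ (-α) :=
      w1b_le h0 hN2 le_rfl (by linarith)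
    have hf0 : 0 ≤ (4 * (1 : ℝ) * ((n : ℝ) - 1)) ^ (-α) := w1b_nonneg (by norm_num) (by linarith)
    have hb := w1b_bd (α := α) (N := n) (s := 1) h0 h1 (by linarith) zero_le_one (by linarith)
    have hI0 : 0 ≤ (4 : ℝ) ^ (-α) * (1 / (1 - α)) :=
      mul_nonneg (Real.rpow_nonneg (by norm_num) _) (div_nonneg zero_le_one (by linarith))
    have hint0 : 0 ≤ ∫ t in (0 : ℝ)..1, (4 * t * ((n : ℝ) - t)) ^ (-α) :=
      intervalIntegral.integral_nonneg zero_le_one fun u hu => w1b_nonneg hu.1 (by linarith [hu.2])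
    have hhalf : ((n : ℝ) - 1) ^ (-α) ≤ (1 / 2) ^ (-α) * (n : ℝ) ^ (-α) := by
      rw [← Real.mul_rpow (by norm_num) hN0.le]
      exact Real.rpow_le_rpow_of_nonpos (by linarith) (by linarith) (by linarith)
    have hint1 : ∫ t in (0 : ℝ)..1, (4 * t * ((n : ℝ) - t)) ^ (-α) ≤
        (1 / 2) ^ (-α) * (4 ^ (-α) * (1 / (1 - α))) * (n : ℝ) ^ (-α) := by
      refine hb.2.trans ?_
      rw [Real.one_rpow]
      calc _ ≤ ((1 / 2) ^ (-α) * (n : ℝ) ^ (-α)) * (4 ^ (-α) * (1 / (1 - α))) :=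
            mul_le_mul_of_nonneg_right hhalf hI0
        _ = _ := by ring
    have hsimp : ∑ k ∈ Finset.Icc (1 : ℕ) 1, (4 * (k : ℝ) * ((n : ℝ) - k)) ^ (-α) =
        (4 * (1 : ℝ) * ((n : ℝ) - 1)) ^ (-α) := by simp
    rw [hsimp, Nat.cast_one]
    have hif : (if 2 * 1 ≤ n then -(4 * (1 : ℝ) * ((n : ℝ) - 1)) ^ (-α)
        else (4 * (1 : ℝ) * ((n : ℝ) - 1)) ^ (-α) + 2 * (n : ℝ) ^ (-α)) =
        -(4 * (1 : ℝ) * ((n : ℝ) - 1)) ^ (-α) := if_pos (by omega)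
    rw [hif]
    clear hsimp hif hb hhalf hI0
    generalize (1 / 2 : ℝ) ^ (-α) * ((4 : ℝ) ^ (-α) * (1 / (1 - α))) = K at *
    generalize (∫ t in (0 : ℝ)..1, (4 * t * ((n : ℝ) - t)) ^ (-α)) = J at *
    generalize (4 * (1 : ℝ) * ((n : ℝ) - 1)) ^ (-α) = F at *
    generalize (n : ℝ) ^ (-α) = X at *
    rw [abs_le]
    constructor <;> linarith
  | succ s hs ih =>
    intro hsn
    have ih' := ih (by omega)
    have hsR : (1 : ℝ) ≤ s := by exact_mod_cast hs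
    have hsnR : (s : ℝ) + 1 ≤ (n : ℝ) - 1 := by
      have : ((s + 1 + 1 : ℕ) : ℝ) ≤ (n : ℝ) := by exact_mod_cast (by omega : s + 1 + 1 ≤ n)
      push_cast at this
      linarith
    rw [Finset.sum_Icc_succ_top (by omega)]
    have hadd : (∫ t in (0 : ℝ)..((s : ℝ) + 1), (4 * t * ((n : ℝ) - t)) ^ (-α)) =
        (∫ t in (0 : ℝ)..(s : ℝ), (4 * t * ((n : ℝ) - t)) ^ (-α)) +
        ∫ t in (s : ℝ)..((s : ℝ) + 1), (4 * t * ((n : ℝ) - t)) ^ (-α) := by
      rw [intervalIntegral.integral_add_adjacent_intervals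
        (w1b_int' h0 h1 (by linarith) le_rfl (by linarith) (by linarith) (by linarith))
        (w1b_int' h0 h1 (by linarith) (by linarith) (by linarith) (by linarith) (by linarith))]
    have hp1 : (4 * ((s : ℝ) + 1) * ((n : ℝ) - ((s : ℝ) + 1))) ^ (-α) ≤ (n : ℝ) ^ (-α) :=
      w1b_le h0 hN2 (by linarith) hsnR
    have hp0 : 0 ≤ (4 * ((s : ℝ) + 1) * ((n : ℝ) - ((s : ℝ) + 1))) ^ (-α) :=
      w1b_nonneg (by linarith) (by linarith)
    have hq1 : (4 * (s : ℝ) * ((n : ℝ) - (s : ℝ))) ^ (-α) ≤ (n : ℝ) ^ (-α) :=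
      w1b_le h0 hN2 hsR (by linarith)
    have hq0 : 0 ≤ (4 * (s : ℝ) * ((n : ℝ) - (s : ℝ))) ^ (-α) :=
      w1b_nonneg (by linarith) (by linarith)
    have hstep : |(4 * ((s : ℝ) + 1) * ((n : ℝ) - ((s : ℝ) + 1))) ^ (-α) -
        ∫ t in (s : ℝ)..((s : ℝ) + 1), (4 * t * ((n : ℝ) - t)) ^ (-α)| ≤
        (if 2 * (s + 1) ≤ n then -(4 * ((s : ℝ) + 1) * ((n : ℝ) - ((s : ℝ) + 1))) ^ (-α)
        else (4 * ((s : ℝ) + 1) * ((n : ℝ) - ((s : ℝ) + 1))) ^ (-α) + 2 * (n : ℝ) ^ (-α)) -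
        (if 2 * s ≤ n then -(4 * (s : ℝ) * ((n : ℝ) - s)) ^ (-α)
        else (4 * (s : ℝ) * ((n : ℝ) - s)) ^ (-α) + 2 * (n : ℝ) ^ (-α)) := by
      refine w1b_step h0 h1 (by linarith) (by linarith) (by linarith) fun t ht1 ht2 => ?_
      by_cases hc1 : 2 * (s + 1) ≤ n
      · have hc1R : 2 * ((s : ℝ) + 1) ≤ n := by exact_mod_cast hc1
        rw [if_pos hc1, if_pos (by omega)]
        have e1 := w1b_anti (α := α) (N := n) (t := s) (u := t) h0 (by linarith) ht1 (by linarith)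
          (by linarith)
        have e2 := w1b_anti (α := α) (N := n) (t := t) (u := (s : ℝ) + 1) h0 (by linarith) ht2
          (by linarith) (by linarith)
        rw [abs_le]
        constructor <;> linarith
      · rw [if_neg hc1]
        by_cases hc2 : n ≤ 2 * s
        · have hc2R : (n : ℝ) ≤ 2 * s := by exact_mod_cast hc2
          have e1 := w1b_mono (α := α) (N := n) (t := s) (u := t) h0 (by linarith) ht1 (by linarith)
            (by linarith)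
          have e2 := w1b_mono (α := α) (N := n) (t := t) (u := (s : ℝ) + 1) h0 (by linarith) ht2
            (by linarith) (by linarith)
          split_ifs
          · rw [abs_le]
            constructor <;> linarith
          · rw [abs_le]
            constructor <;> linarith
        · have hc3 : 2 * s + 1 = n := by omega
          have hc3R : 2 * (s : ℝ) + 1 = n := by exact_mod_cast hc3
          rw [if_pos (by omega)]
          have e2 := w1b_mono (α := α) (N := n) (t := t) (u := (s : ℝ) + 1) h0 (by linarith) ht2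
            (by linarith) (by linarith)
          have e3 : 0 ≤ (4 * t * ((n : ℝ) - t)) ^ (-α) := w1b_nonneg (by linarith) (by linarith)
          rw [abs_le]
          constructor <;> linarith
    push_cast
    rw [hadd]
    rw [abs_le] at ih' hstep ⊢
    constructor <;> linarith [ih'.1, ih'.2, hstep.1, hstep.2]

theorem p_W1b : S_W1b := by
  refine ⟨w1b_1, w1b_2, 5 + (1 / 2 : ℝ) ^ (-(1 / 3) : ℝ) * ((4 : ℝ) ^ (-(1 / 3) : ℝ) * (1 / (1 - 1 / 3))),
    ?_, ?_⟩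
  · have e1 : 0 ≤ (1 / 2 : ℝ) ^ (-(1 / 3) : ℝ) := Real.rpow_nonneg (by norm_num) _
    have e2 : 0 ≤ (4 : ℝ) ^ (-(1 / 3) : ℝ) := Real.rpow_nonneg (by norm_num) _
    positivity
  · intro n s hn hsn
    have hN2 : (2 : ℝ) ≤ n := by exact_mod_cast hn
    have hNa : 0 ≤ (n : ℝ) ^ (-(1 / 3) : ℝ) := Real.rpow_nonneg (by linarith) _
    have hcast : Th 1 n s = ∫ t in (0 : ℝ)..(s : ℝ), (4 * t * ((n : ℝ) - t)) ^ (-(1 / 3) : ℝ) := by
      unfold Th
      rw [Nat.cast_one]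
    have hEn : ∀ k : ℕ, En n k = 4 * (k : ℝ) * ((n : ℝ) - k) := by
      intro k
      unfold En
      push_cast
      ring
    simp only [hEn]
    rw [hcast]
    rcases Nat.eq_zero_or_pos s with rfl | hs
    · simp only [Nat.cast_zero, intervalIntegral.integral_same, sub_zero]
      have : Finset.Icc 1 0 = (∅ : Finset ℕ) := by simp
      rw [this, Finset.sum_empty, abs_zero]
      exact mul_nonneg (by positivity) hNa
    · have h3 := w1b_3 (α := 1 / 3) (by norm_num) (by norm_num) n hn s hs hsn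
      have hsR : (1 : ℝ) ≤ s := by exact_mod_cast hs
      have hsnR : (s : ℝ) ≤ (n : ℝ) - 1 := by
        have : ((s + 1 : ℕ) : ℝ) ≤ (n : ℝ) := by exact_mod_cast (by omega : s + 1 ≤ n)
        push_cast at this
        linarith
      have hf1 : (4 * (1 : ℝ) * ((n : ℝ) - 1)) ^ (-(1 / 3) : ℝ) ≤ (n : ℝ) ^ (-(1 / 3) : ℝ) :=
        w1b_le (by norm_num) hN2 le_rfl (by linarith)
      have hfs : (4 * (s : ℝ) * ((n : ℝ) - s)) ^ (-(1 / 3) : ℝ) ≤ (n : ℝ) ^ (-(1 / 3) : ℝ) :=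
        w1b_le (by norm_num) hN2 hsR hsnR
      have hfs0 : 0 ≤ (4 * (s : ℝ) * ((n : ℝ) - s)) ^ (-(1 / 3) : ℝ) :=
        w1b_nonneg (by linarith) (by linarith)
      refine h3.trans ?_
      split_ifs <;> nlinarith

end HillRoots
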